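import Pool.Agent.FPO.Api

/-!
# FPO module WB: bounds from weights (diff 1)

PROOF.  For `x ≠ 0`, `lv G x y = ∑_{j ≤ natDegree} (∑_{i ∈ support} lcf G i j * x^i) * y^j`
(`lv_of_ne`, `eval₂_eq_sum_range`, and `LaurentPolynomial.eval₂ f x a = ∑ f (a_i) x^i`:
prove it for all `a` by additivity from `LaurentPolynomial.eval₂_C_mul_T`, e.g. by
`LaurentPolynomial.induction_on'`, or unfold).  For `x ≥ 1`, `|y| ≤ A x^τ`:
`|x^i y^j| ≤ x^i (|A| x^τ)^j = |A|^j x^{i + τ j} ≤ |A|^j x^w` if `lcf G i j ≠ 0`.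
`C = ∑ |lcf G i j| |A|^j`.
-/

set_option autoImplicit false

open Polynomial

namespace Pool.Agent.FPO

namespace WB

theorem leval (f : ℚ →+* ℝ) (x : ℝˣ) (a : LaurentPolynomial ℚ) :
    LaurentPolynomial.eval₂ f x a = ∑ i ∈ a.coeff.support, f (a.coeff i) * (x : ℝ) ^ i := by
  have key : LaurentPolynomial.eval₂ f x a = a.coeff.sum (fun i c => f c * (x : ℝ) ^ i) := by
    induction a using LaurentPolynomial.induction_on' with
    | add p q hp hq =>
      rw [map_add, hp, hq, AddMonoidAlgebra.coeff_add, Finsupp.sum_add_index']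
      · intro i; simp
      · intro i b c; rw [map_add, add_mul]
    | C_mul_T n a =>
      rw [LaurentPolynomial.eval₂_C_mul_T, ← LaurentPolynomial.single_eq_C_mul_T,
        AddMonoidAlgebra.coeff_single, Finsupp.sum_single_index (by simp)]
      simp
  rw [key]
  rfl

end WB

theorem lv_eq_sum (G : LA) {x : ℝ} (hx : x ≠ 0) (y : ℝ) :
    lv G x y = ∑ j ∈ Finset.range (G.natDegree + 1),
      (∑ i ∈ (G.coeff j).coeff.support, (lcf G i j : ℝ) * x ^ i) * y ^ j := by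
  rw [lv_of_ne _ hx, lvHom, coe_eval₂RingHom, eval₂_eq_sum_range]
  refine Finset.sum_congr rfl fun j _ => ?_
  rw [WB.leval]
  rfl

theorem wb (τ w : ℚ) (G : LA) (hG : LWLe τ w G) (A : ℝ) :
    ∃ C : ℝ, 0 ≤ C ∧ ∀ x : ℝ, 1 ≤ x → ∀ y : ℝ, |y| ≤ A * x ^ (τ : ℝ) →
      |lv G x y| ≤ C * x ^ (w : ℝ) := by
  refine ⟨∑ j ∈ Finset.range (G.natDegree + 1),
      ∑ i ∈ (G.coeff j).coeff.support, |(lcf G i j : ℝ)| * |A| ^ j, ?_, ?_⟩
  · refine Finset.sum_nonneg fun j _ => Finset.sum_nonneg fun i _ => ?_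
    positivity
  · intro x hx y hy
    have hx0 : 0 < x := by linarith
    have hy' : |y| ≤ |A| * x ^ (τ : ℝ) := by
      refine hy.trans ?_
      exact mul_le_mul_of_nonneg_right (le_abs_self A) (Real.rpow_nonneg hx0.le _)
    rw [lv_eq_sum G hx0.ne' y, Finset.sum_mul]
    refine (Finset.abs_sum_le_sum_abs _ _).trans (Finset.sum_le_sum fun j _ => ?_)
    rw [abs_mul, Finset.sum_mul]
    refine (mul_le_mul_of_nonneg_right (Finset.abs_sum_le_sum_abs _ _) (abs_nonneg _)).trans ?_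
    rw [Finset.sum_mul]
    refine Finset.sum_le_sum fun i hi => ?_
    have hne : lcf G i j ≠ 0 := by
      rw [Finsupp.mem_support_iff] at hi
      exact hi
    have hw := hG i j hne
    have hwR : (i : ℝ) + (τ : ℝ) * j ≤ (w : ℝ) := by exact_mod_cast hw
    have h1 : |y| ^ j ≤ |A| ^ j * x ^ ((τ : ℝ) * j) := by
      refine (pow_le_pow_left₀ (abs_nonneg y) hy' j).trans (le_of_eq ?_)
      rw [mul_pow, ← Real.rpow_natCast (x ^ (τ : ℝ)) j, ← Real.rpow_mul hx0.le]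
    have h2 : x ^ i * x ^ ((τ : ℝ) * j) ≤ x ^ (w : ℝ) := by
      rw [← Real.rpow_intCast, ← Real.rpow_add hx0]
      exact Real.rpow_le_rpow_of_exponent_le hx hwR
    rw [abs_mul, abs_of_pos (zpow_pos hx0 i), abs_pow]
    calc |(lcf G i j : ℝ)| * x ^ i * |y| ^ j
        ≤ |(lcf G i j : ℝ)| * x ^ i * (|A| ^ j * x ^ ((τ : ℝ) * j)) := by
          apply mul_le_mul_of_nonneg_left h1
          positivity
      _ = |(lcf G i j : ℝ)| * |A| ^ j * (x ^ i * x ^ ((τ : ℝ) * j)) := by ring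
      _ ≤ |(lcf G i j : ℝ)| * |A| ^ j * x ^ (w : ℝ) := by
          apply mul_le_mul_of_nonneg_left h2
          positivity

end Pool.Agent.FPO
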