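import Pool.Agent.FPO.AlpB
import Pool.Agent.FPO.WB

/-!
# FPO module Alp: the points where `G` is small lie on a curve (diff 2)
-/

set_option autoImplicit false

open Polynomial

namespace Pool.Agent.FPO

namespace Alp

/-- functions of two integers whose values are integers after multiplication by a constant -/
def IntF (f : ℤ → ℤ → ℝ) : Prop := ∃ N : ℕ, 0 < N ∧ ∀ a b : ℤ, ∃ z : ℤ, (N : ℝ) * f a b = z

theorem IntF.add {f g : ℤ → ℤ → ℝ} (hf : IntF f) (hg : IntF g) :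
    IntF (fun a b => f a b + g a b) := by
  obtain ⟨N, hN, h1⟩ := hf
  obtain ⟨M, hM, h2⟩ := hg
  refine ⟨N * M, Nat.mul_pos hN hM, fun a b => ?_⟩
  obtain ⟨z, hz⟩ := h1 a b
  obtain ⟨w, hw⟩ := h2 a b
  refine ⟨M * z + N * w, ?_⟩
  push_cast
  rw [← hz, ← hw]
  ring

theorem IntF.mul {f g : ℤ → ℤ → ℝ} (hf : IntF f) (hg : IntF g) :
    IntF (fun a b => f a b * g a b) := by
  obtain ⟨N, hN, h1⟩ := hf
  obtain ⟨M, hM, h2⟩ := hg
  refine ⟨N * M, Nat.mul_pos hN hM, fun a b => ?_⟩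
  obtain ⟨z, hz⟩ := h1 a b
  obtain ⟨w, hw⟩ := h2 a b
  refine ⟨z * w, ?_⟩
  push_cast
  rw [← hz, ← hw]
  ring

theorem IntF.rat (q : ℚ) : IntF (fun _ _ => (q : ℝ)) := by
  refine ⟨q.den, q.den_pos, fun _ _ => ⟨q.num, ?_⟩⟩
  have h1 : (q.den : ℚ) * q = q.num := by
    rw [mul_comm]
    exact Rat.mul_den_eq_num q
  have h2 := congrArg (fun r : ℚ => (r : ℝ)) h1
  push_cast at h2
  exact h2

theorem IntF.fst {D : ℕ} (hD : 0 < D) : IntF (fun a _ => (a : ℝ) / D) := by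
  refine ⟨D, hD, fun a _ => ⟨a, ?_⟩⟩
  have : (D : ℝ) ≠ 0 := by exact_mod_cast hD.ne'
  field_simp

theorem IntF.snd {D : ℕ} (hD : 0 < D) : IntF (fun _ b => (b : ℝ) / D) := by
  refine ⟨D, hD, fun _ b => ⟨b, ?_⟩⟩
  have : (D : ℝ) ≠ 0 := by exact_mod_cast hD.ne'
  field_simp

theorem IntF.pow {f : ℤ → ℤ → ℝ} (hf : IntF f) (n : ℕ) : IntF (fun a b => f a b ^ n) := by
  induction n with
  | zero =>
    refine ⟨1, one_pos, fun _ _ => ⟨1, by simp⟩⟩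
  | succ n ih =>
    simp only [pow_succ]
    exact ih.mul hf

theorem IntF.sum {ι : Type*} (s : Finset ι) (f : ι → ℤ → ℤ → ℝ) (hf : ∀ i ∈ s, IntF (f i)) :
    IntF (fun a b => ∑ i ∈ s, f i a b) := by
  classical
  induction s using Finset.induction_on with
  | empty => exact ⟨1, one_pos, fun _ _ => ⟨0, by simp⟩⟩
  | insert i s hi ih =>
    simp only [Finset.sum_insert hi]
    exact (hf i (Finset.mem_insert_self _ _)).add
      (ih fun j hj => hf j (Finset.mem_insert_of_mem hj))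

theorem intF_bv (P : Bi) {D : ℕ} (hD : 0 < D) :
    IntF (fun a b => bv P ((a : ℝ) / D) ((b : ℝ) / D)) := by
  simp only [bv_eq_sum P]
  refine IntF.sum _ _ fun j _ => IntF.sum _ _ fun i _ => ?_
  exact ((IntF.rat (cf P i j)).mul ((IntF.fst hD).pow i)).mul ((IntF.snd hD).pow j)

end Alp

theorem alp (τ : ℚ) (hτ : 1 ≤ τ) (G : LA) (hG : G.Monic) (hM : 1 ≤ G.natDegree)
    (hw : LWLe τ (τ * G.natDegree) G) (η : ℝ) (hη : 0 < η) (A : ℝ) (D : ℕ) (hD : 0 < D) :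
    ∃ P : Bi, P ≠ 0 ∧ ∃ x₁ : ℝ, 1 ≤ x₁ ∧ ∀ a b : ℤ, x₁ ≤ (a : ℝ) / D →
      |(b : ℝ) / D| ≤ A * ((a : ℝ) / D) ^ (τ : ℝ) →
      |lv G ((a : ℝ) / D) ((b : ℝ) / D)| ≤ ((a : ℝ) / D) ^ (-η) →
      bv P ((a : ℝ) / D) ((b : ℝ) / D) = 0 := by
  obtain ⟨η', hη0, hη1⟩ := exists_rat_btwn (lt_min hη one_pos)
  have hη0' : 0 < η' := by exact_mod_cast hη0
  have hη1' : η' ≤ 1 := by exact_mod_cast (hη1.trans_le (min_le_right _ _)).le
  have hη2 : (η' : ℝ) ≤ η := (hη1.trans_le (min_le_left _ _)).le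
  obtain ⟨P, L, B, hP, hPB, hB⟩ := alpb τ hτ G hG hM hw η' hη0' hη1'
  have hex : ∀ l, ∃ C : ℝ, 0 ≤ C ∧ (l < L → ∀ x : ℝ, 1 ≤ x → ∀ y : ℝ,
      |y| ≤ A * x ^ (τ : ℝ) → |lv (B l) x y| ≤ C * x ^ (((η' * l - 1 : ℚ)) : ℝ)) := by
    intro l
    by_cases hl : l < L
    · obtain ⟨C, hC0, hC⟩ := wb τ (η' * l - 1) (B l) (hB l hl) A
      exact ⟨C, hC0, fun _ => hC⟩
    · exact ⟨0, le_rfl, fun h => absurd h hl⟩
  choose C hC0 hC using hex
  obtain ⟨N, hN, hint⟩ := Alp.intF_bv P hD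
  have hS0 : 0 ≤ ∑ l ∈ Finset.range L, C l := Finset.sum_nonneg fun l _ => hC0 l
  have hN0 : (0 : ℝ) < N := by exact_mod_cast hN
  refine ⟨P, hP, (N : ℝ) * ∑ l ∈ Finset.range L, C l + 1, ?_, ?_⟩
  · have : 0 ≤ (N : ℝ) * ∑ l ∈ Finset.range L, C l := by positivity
    linarith
  intro a b hx hy hG1
  have h0 : 0 ≤ (N : ℝ) * ∑ l ∈ Finset.range L, C l := by positivity
  set x : ℝ := (a : ℝ) / D with hxdef
  set y : ℝ := (b : ℝ) / D with hydef
  have hx1 : 1 ≤ x := by linarith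
  have hx0 : 0 < x := by linarith
  have hG2 : |lv G x y| ≤ x ^ (-(η' : ℝ)) :=
    hG1.trans (Real.rpow_le_rpow_of_exponent_le hx1 (by linarith))
  have hval : bv P x y = ∑ l ∈ Finset.range L, lv (B l) x y * lv G x y ^ l := by
    rw [← lv_toL P hx0.ne' y, hPB, lv_finsetSum _ _ hx0.ne']
    refine Finset.sum_congr rfl fun l _ => ?_
    rw [lv_mul _ _ hx0.ne', lv_pow _ _ hx0.ne']
  have hbd : |bv P x y| ≤ (∑ l ∈ Finset.range L, C l) * x⁻¹ := by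
    rw [hval, Finset.sum_mul]
    refine (Finset.abs_sum_le_sum_abs _ _).trans (Finset.sum_le_sum fun l hl => ?_)
    rw [Finset.mem_range] at hl
    have h1 := hC l hl x hx1 y hy
    have h2 : |lv G x y| ^ l ≤ x ^ (-(η' : ℝ) * l) := by
      rw [Real.rpow_mul hx0.le, Real.rpow_natCast]
      exact pow_le_pow_left₀ (abs_nonneg _) hG2 l
    have h3 : x ^ (((η' * l - 1 : ℚ)) : ℝ) * x ^ (-(η' : ℝ) * l) = x⁻¹ := by
      rw [← Real.rpow_add hx0, ← Real.rpow_neg_one]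
      congr 1
      push_cast
      ring
    rw [abs_mul, abs_pow]
    calc |lv (B l) x y| * |lv G x y| ^ l
        ≤ (C l * x ^ (((η' * l - 1 : ℚ)) : ℝ)) * x ^ (-(η' : ℝ) * l) :=
          mul_le_mul h1 h2 (by positivity) (by have := hC0 l; positivity)
      _ = C l * x⁻¹ := by rw [mul_assoc, h3]
  obtain ⟨z, hz⟩ := hint a b
  have hz1 : (N : ℝ) * bv P x y = z := hz
  have hlt : |(z : ℝ)| < 1 := by
    rw [← hz1, abs_mul, abs_of_pos hN0]
    calc (N : ℝ) * |bv P x y| ≤ N * ((∑ l ∈ Finset.range L, C l) * x⁻¹) :=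
          mul_le_mul_of_nonneg_left hbd hN0.le
      _ = (N * ∑ l ∈ Finset.range L, C l) / x := by rw [div_eq_mul_inv]; ring
      _ < 1 := by
          rw [div_lt_one hx0]
          linarith
  have hz0 : z = 0 := by
    have h1 : |z| < 1 := by exact_mod_cast hlt
    rwa [Int.abs_lt_one_iff] at h1
  rw [hz0, Int.cast_zero, mul_eq_zero] at hz1
  rcases hz1 with h | h
  · exact absurd h hN0.ne'
  · exact h

end Pool.Agent.FPO
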