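import Pool.Agent.FPO.LaA

/-!
# FPO module AlpA: division respects weights (diff 1)

PROOF by strong induction on `P.natDegree` (or on a bound `n` with `P.natDegree < n`).
If `P.degree < G.degree` then `P /ₘ G = 0`, `P %ₘ G = P`.  Otherwise let `n = P.natDegree ≥ M`,
`a = P.leadingCoeff`, `m₀ = C a * X^(n-M)`, `P' = P - m₀ * G`: degree smaller (or `P' = 0`).  The
monomials of `a y^n` are monomials of `P`, so of weight `≤ W`; hence `m₀` has weights
`≤ W - τM`, `m₀ * G` has weights `≤ W` (`lwle_mul`), so `P'` has weights `≤ W`.  By induction for `P'`,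
and `P /ₘ G = m₀ + P' /ₘ G`, `P %ₘ G = P' %ₘ G` (uniqueness: `div_modByMonic_unique`).
(Case `P' = 0`: fine too.)
-/

set_option autoImplicit false

open Polynomial

namespace Pool.Agent.FPO

namespace AlpA

theorem lwle_sub {τ w : ℚ} {F G : LA} (hF : LWLe τ w F) (hG : LWLe τ w G) : LWLe τ w (F - G) := by
  intro i j h
  rw [lcf_sub] at h
  by_cases h1 : lcf F i j = 0
  · refine hG i j fun h2 => h ?_
    rw [h1, h2, sub_zero]
  · exact hF i j h1

theorem lwle_add {τ w : ℚ} {F G : LA} (hF : LWLe τ w F) (hG : LWLe τ w G) : LWLe τ w (F + G) := by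
  intro i j h
  rw [lcf_add] at h
  by_cases h1 : lcf F i j = 0
  · refine hG i j fun h2 => h ?_
    rw [h1, h2, add_zero]
  · exact hF i j h1

theorem lwle_zero (τ w : ℚ) : LWLe τ w 0 := fun i j h => absurd (lcf_zero i j) h

theorem aux (τ W : ℚ) (G : LA) (hG : G.Monic) (hw : LWLe τ (τ * G.natDegree) G) (n : ℕ) :
    ∀ P : LA, P.degree < (n : WithBot ℕ) → LWLe τ W P →
      LWLe τ W (P %ₘ G) ∧ LWLe τ (W - τ * G.natDegree) (P /ₘ G) := by
  induction n with
  | zero =>
    intro P hP _
    have h1 : P = 0 := by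
      rw [Nat.cast_zero] at hP
      rw [← degree_eq_bot]
      exact Nat.WithBot.lt_zero_iff.1 hP
    subst h1
    rw [zero_modByMonic, zero_divByMonic]
    exact ⟨lwle_zero _ _, lwle_zero _ _⟩
  | succ n ih =>
    intro P hP hPW
    by_cases hd : P.degree < G.degree
    · rw [(modByMonic_eq_self_iff hG).2 hd, (divByMonic_eq_zero_iff hG).2 hd]
      exact ⟨hPW, lwle_zero _ _⟩
    · push Not at hd
      have hP0 : P ≠ 0 := by
        rintro rfl
        rw [degree_zero, le_bot_iff, degree_eq_bot] at hd
        exact hG.ne_zero hd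
      have hlt := div_wf_lemma ⟨hd, hP0⟩ hG
      have hnat : G.natDegree ≤ P.natDegree := natDegree_le_natDegree hd
      obtain ⟨m, hm⟩ : ∃ m : LA, m = C P.leadingCoeff * X ^ (P.natDegree - G.natDegree) := ⟨_, rfl⟩
      rw [← hm] at hlt
      have hmW : LWLe τ (W - τ * G.natDegree) m := by
        intro i j h
        rw [lcf, hm, coeff_C_mul_X_pow] at h
        by_cases hj : j = P.natDegree - G.natDegree
        · rw [if_pos hj] at h
          have h1 := hPW i P.natDegree h
          have h2 : (j : ℚ) = P.natDegree - G.natDegree := by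
            rw [hj, Nat.cast_sub hnat]
          rw [h2]
          linarith [h1, mul_sub τ (P.natDegree : ℚ) (G.natDegree : ℚ)]
        · rw [if_neg hj] at h
          exact absurd rfl h
      have hGm : LWLe τ W (G * m) := by
        have h1 := lwle_mul hw hmW
        rw [add_sub_cancel] at h1
        exact h1
      have hP'n : (P - G * m).degree < (n : WithBot ℕ) := by
        have h1 : P.degree ≤ (n : WithBot ℕ) := by
          rw [degree_eq_natDegree hP0] at hP ⊢
          have h2 : P.natDegree < n + 1 := by exact_mod_cast hP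
          exact_mod_cast Nat.lt_succ_iff.1 h2
        exact lt_of_lt_of_le hlt h1
      obtain ⟨h1, h2⟩ := ih (P - G * m) hP'n (lwle_sub hPW hGm)
      have h3 := div_modByMonic_unique (f := P) (g := G) ((P - G * m) /ₘ G + m) ((P - G * m) %ₘ G) hG
        ⟨by
          have h4 := modByMonic_add_div (P - G * m) G
          rw [mul_add, ← add_assoc, h4]
          ring, degree_modByMonic_lt _ hG⟩
      rw [h3.1, h3.2]
      exact ⟨h1, lwle_add h2 hmW⟩

end AlpA

theorem alpa (τ W : ℚ) (G : LA) (hG : G.Monic) (hw : LWLe τ (τ * G.natDegree) G) (P : LA)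
    (hP : LWLe τ W P) : LWLe τ W (P %ₘ G) ∧ LWLe τ (W - τ * G.natDegree) (P /ₘ G) := by
  refine AlpA.aux τ W G hG hw (P.natDegree + 1) P ?_ hP
  refine lt_of_le_of_lt degree_le_natDegree ?_
  exact_mod_cast Nat.lt_succ_self _

end Pool.Agent.FPO
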