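import Mathlib

/-!
# FPO module AlpC: counting unknowns and conditions (diff 2)

PROOF.  Let `H` be a natural number with `H - 1 > 2 (4 + τ (M-1))/η`, `L = 2H`, `W = τ M L - 1`,
`θ l = η l - 1` for `l < H`, `θ l = -1` for `l ≥ H` (`≤ η l - 1 + 0`, indeed `-1 ≤ η l - 1`).
`T` = the pairs `(i, j)` with `j < M L`, `i ≤ ⌊W - τ j⌋` (natural `i`; `W - τ j ≥ τ - 1 ≥ 0`):
`T.card = ∑_{j < ML} (⌊W - τ j⌋ + 1) ≥ ∑_{j<ML} (W - τ j) = M L W - τ M L (M L - 1)/2`.
`U` = the triples `(l, i, j)` with `l < L`, `j < M`, `i ∈ Ioc ⌊θ l - τ j⌋ ⌊W - τ M l - τ j⌋`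
(integers; contains all integers `i` with `θ l - τ j < i ≤ W - τ M l - τ j`).  Its number of `i` is
`≤ (W - τMl - τj) - (θ l - τ j) + 1 = W - τMl - θ l + 1`, since this is `≥ 1`:
for `l < H`, `W - τMl - θ l = τM(L - l) - η l ≥ τ M H - η H ≥ 0`; for `l ≥ H` it is `τM(L-l) ≥ 0`.
So `U.card ≤ M (∑_{l<L} (τM(L-l) + 1) - ∑_{l<H} η l) = M (τ M L (L+1)/2 + L - η H (H-1)/2)`.
Difference: `T.card - U.card ≥ M H (η (H-1)/2 - 4 - τ (M-1)) > 0`.
(All sums are elementary: `Finset.sum_range_id_mul_two`, or prove the closed forms by induction.)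
-/

set_option autoImplicit false

open Polynomial

namespace Pool.Agent.FPO

theorem AlpC.sum_lin (n : ℕ) (a b : ℚ) :
    ∑ j ∈ Finset.range n, (a - b * j) = n * a - b * (n * (n - 1) / 2) := by
  induction n with
  | zero => simp
  | succ n ih =>
    rw [Finset.sum_range_succ, ih]
    push_cast
    ring

theorem AlpC.sum_theta (H : ℕ) (η : ℚ) :
    ∑ l ∈ Finset.range (2 * H), ((if l < H then η * (l : ℚ) else 0) - 1) =
      η * (H * (H - 1) / 2) - 2 * H := by
  rw [Finset.sum_sub_distrib, ← Finset.sum_filter]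
  have h1 : (Finset.range (2 * H)).filter (fun l => l < H) = Finset.range H := by
    ext l
    simp only [Finset.mem_filter, Finset.mem_range]
    omega
  rw [h1]
  have h2 := AlpC.sum_lin H 0 (-η)
  have h3 : ∑ j ∈ Finset.range H, ((0 : ℚ) - -η * j) = ∑ j ∈ Finset.range H, η * (j : ℚ) :=
    Finset.sum_congr rfl fun j _ => by ring
  rw [h3] at h2
  rw [h2]
  simp only [Finset.sum_const, Finset.card_range, nsmul_eq_mul, mul_one]
  push_cast
  ring

theorem alpc (τ : ℚ) (hτ : 1 ≤ τ) (M : ℕ) (hM : 1 ≤ M) (η : ℚ) (hη : 0 < η) (hη1 : η ≤ 1) :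
    ∃ (L : ℕ) (W : ℚ) (θ : ℕ → ℚ) (T : Finset (ℕ × ℕ)) (U : Finset (ℕ × ℤ × ℕ)), 1 ≤ L ∧
      W < τ * M * L ∧ (∀ l < L, θ l ≤ η * l - 1) ∧ (∀ q ∈ T, (q.1 : ℚ) + τ * q.2 ≤ W) ∧
      (∀ (l : ℕ) (i : ℤ) (j : ℕ), l < L → j < M → θ l < i + τ * j →
        (i : ℚ) + τ * j ≤ W - τ * M * l → (l, i, j) ∈ U) ∧ U.card < T.card := by
  classical
  obtain ⟨H₀, hH₀⟩ := exists_nat_gt (2 * (4 + τ * (M - 1)) / η)
  set H : ℕ := H₀ + 1 with hHdef
  have hMq : (1 : ℚ) ≤ M := by exact_mod_cast hM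
  have hM0 : (0 : ℚ) < M := by linarith
  have hτ0 : (0 : ℚ) < τ := by linarith
  have hHr : (H : ℚ) = H₀ + 1 := by rw [hHdef]; push_cast; ring
  have hH0 : (0 : ℚ) < H := by rw [hHr]; positivity
  have hHbig : 2 * (4 + τ * (M - 1)) < η * (H - 1) := by
    rw [div_lt_iff₀ hη] at hH₀
    rw [hHr]
    linarith
  set L : ℕ := 2 * H with hL
  have hLr : (L : ℚ) = 2 * H := by rw [hL]; push_cast; ring
  set W : ℚ := τ * M * L - 1 with hW
  set θ : ℕ → ℚ := fun l => (if l < H then η * (l : ℚ) else 0) - 1 with hθ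
  set N : ℕ → ℕ := fun j => ⌊W - τ * j⌋₊ + 1 with hN
  have hWj : ∀ j : ℕ, j < M * L → 0 ≤ W - τ * j := by
    intro j hj
    have h1 : (j : ℚ) + 1 ≤ M * L := by exact_mod_cast hj
    have h2 : τ * ((j : ℚ) + 1) ≤ τ * (M * L) := mul_le_mul_of_nonneg_left h1 hτ0.le
    rw [hW]
    linarith
  set T : Finset (ℕ × ℕ) := ((Finset.range (M * L)).sigma fun j => Finset.range (N j)).image
    (fun p : (Σ _ : ℕ, ℕ) => (p.2, p.1)) with hT
  set U : Finset (ℕ × ℤ × ℕ) := (Finset.range L ×ˢ Finset.range M).biUnion fun p =>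
    (Finset.Ioc ⌊θ p.1 - τ * p.2⌋ ⌊W - τ * M * p.1 - τ * p.2⌋).image fun i => (p.1, i, p.2) with hU
  refine ⟨L, W, θ, T, U, ?_, ?_, ?_, ?_, ?_, ?_⟩
  · rw [hL, hHdef]; omega
  · rw [hW]; linarith
  · intro l _
    have h0 : (0 : ℚ) ≤ η * l := by positivity
    change (if l < H then η * (l : ℚ) else 0) - 1 ≤ η * l - 1
    split_ifs <;> linarith
  · intro q hq
    rw [hT, Finset.mem_image] at hq
    obtain ⟨⟨j, i⟩, hp, rfl⟩ := hq
    rw [Finset.mem_sigma, Finset.mem_range, Finset.mem_range] at hp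
    obtain ⟨hj, hi⟩ := hp
    have hj' : j < M * L := hj
    have hi' : i ≤ ⌊W - τ * j⌋₊ := Nat.lt_succ_iff.1 hi
    have h1 : ((⌊W - τ * j⌋₊ : ℕ) : ℚ) ≤ W - τ * j := Nat.floor_le (hWj j hj')
    have h2 : (i : ℚ) ≤ ((⌊W - τ * j⌋₊ : ℕ) : ℚ) := by exact_mod_cast hi'
    change (i : ℚ) + τ * j ≤ W
    linarith
  · intro l i j hl hj h1 h2
    rw [hU, Finset.mem_biUnion]
    refine ⟨(l, j), Finset.mem_product.2 ⟨Finset.mem_range.2 hl, Finset.mem_range.2 hj⟩, ?_⟩
    rw [Finset.mem_image]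
    refine ⟨i, ?_, rfl⟩
    rw [Finset.mem_Ioc]
    refine ⟨Int.floor_lt.2 ?_, Int.le_floor.2 ?_⟩
    · change θ l - τ * j < i
      linarith
    · change (i : ℚ) ≤ W - τ * M * l - τ * j
      linarith
  · have hTcard : (M : ℚ) * L * W - τ * (M * L * (M * L - 1) / 2) ≤ T.card := by
      have h1 : T.card = ∑ j ∈ Finset.range (M * L), N j := by
        rw [hT, Finset.card_image_of_injective, Finset.card_sigma]
        · simp only [Finset.card_range]
        · rintro ⟨a, b⟩ ⟨c, d⟩ h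
          simp only [Prod.mk.injEq] at h
          obtain ⟨rfl, rfl⟩ := h
          rfl
      have h2 : ∑ j ∈ Finset.range (M * L), (W - τ * j) ≤ ∑ j ∈ Finset.range (M * L), (N j : ℚ) := by
        refine Finset.sum_le_sum fun j _ => ?_
        have h3 := Nat.lt_floor_add_one (W - τ * j)
        change W - τ * j ≤ ((⌊W - τ * j⌋₊ + 1 : ℕ) : ℚ)
        push_cast
        exact h3.le
      rw [AlpC.sum_lin] at h2
      rw [h1]
      push_cast at h2 ⊢
      linarith
    have hUcard : (U.card : ℚ) ≤ M * (τ * M * (L * L - L * (L - 1) / 2) -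
        (η * (H * (H - 1) / 2) - 2 * H)) := by
      have h1 : U.card ≤ ∑ p ∈ Finset.range L ×ˢ Finset.range M,
          (Finset.Ioc ⌊θ p.1 - τ * p.2⌋ ⌊W - τ * M * p.1 - τ * p.2⌋).card := by
        rw [hU]
        refine le_trans Finset.card_biUnion_le ?_
        exact Finset.sum_le_sum fun p _ => Finset.card_image_le
      have h2 : ∀ p ∈ Finset.range L ×ˢ Finset.range M,
          ((Finset.Ioc ⌊θ p.1 - τ * p.2⌋ ⌊W - τ * M * p.1 - τ * p.2⌋).card : ℚ) ≤
            τ * M * (L - p.1) - θ p.1 := by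
        rintro ⟨l, j⟩ hp
        rw [Finset.mem_product, Finset.mem_range, Finset.mem_range] at hp
        have hl : l < L := hp.1
        change ((Finset.Ioc ⌊θ l - τ * j⌋ ⌊W - τ * M * l - τ * j⌋).card : ℚ) ≤
          τ * M * (L - l) - θ l
        rw [Int.card_Ioc]
        have hlq : (l : ℚ) + 1 ≤ L := by exact_mod_cast hl
        have hτM : 1 ≤ τ * M := by nlinarith
        -- the bound is nonnegative
        have hnn : 0 ≤ τ * M * (L - l) - θ l := by
          have h5 : τ * M * ((L : ℚ) - l) ≥ 1 * (L - l) :=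
            mul_le_mul_of_nonneg_right hτM (by linarith)
          change 0 ≤ τ * M * ((L : ℚ) - l) - ((if l < H then η * (l : ℚ) else 0) - 1)
          split_ifs with hlH
          · have h6 : (l : ℚ) + 1 ≤ H := by exact_mod_cast hlH
            have h7 : η * (l : ℚ) ≤ 1 * l := mul_le_mul_of_nonneg_right hη1 (by positivity)
            linarith
          · linarith
        have h3 : ((⌊W - τ * M * l - τ * j⌋ : ℤ) : ℚ) ≤ W - τ * M * l - τ * j := Int.floor_le _
        have h4 : θ l - τ * j - 1 < ((⌊θ l - τ * j⌋ : ℤ) : ℚ) := Int.sub_one_lt_floor _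
        rcases le_or_gt (⌊W - τ * M * l - τ * j⌋ - ⌊θ l - τ * j⌋) 0 with h5 | h5
        · rw [Int.toNat_of_nonpos h5]
          simpa using hnn
        · have h6 : (((⌊W - τ * M * l - τ * j⌋ - ⌊θ l - τ * j⌋).toNat : ℕ) : ℚ) =
              ((⌊W - τ * M * l - τ * j⌋ : ℤ) : ℚ) - ((⌊θ l - τ * j⌋ : ℤ) : ℚ) := by
            have h7 : (((⌊W - τ * M * l - τ * j⌋ - ⌊θ l - τ * j⌋).toNat : ℕ) : ℤ) =
              ⌊W - τ * M * l - τ * j⌋ - ⌊θ l - τ * j⌋ := Int.toNat_of_nonneg h5.le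
            exact_mod_cast congrArg (fun z : ℤ => (z : ℚ)) h7
          rw [h6]
          have h8 : W = τ * M * L - 1 := hW
          rw [h8] at h3
          linarith
      have h3 : (U.card : ℚ) ≤ ∑ p ∈ Finset.range L ×ˢ Finset.range M,
          (τ * M * ((L : ℚ) - p.1) - θ p.1) := by
        refine le_trans (by exact_mod_cast h1 : _ ≤ ((∑ p ∈ Finset.range L ×ˢ Finset.range M,
          (Finset.Ioc ⌊θ p.1 - τ * p.2⌋ ⌊W - τ * M * p.1 - τ * p.2⌋).card : ℕ) : ℚ)) ?_
        push_cast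
        exact Finset.sum_le_sum h2
      rw [Finset.sum_product] at h3
      have h4 : ∑ l ∈ Finset.range L, ∑ _j ∈ Finset.range M, (τ * M * ((L : ℚ) - l) - θ l) =
          M * ∑ l ∈ Finset.range L, (τ * M * ((L : ℚ) - l) - θ l) := by
        rw [Finset.mul_sum]
        refine Finset.sum_congr rfl fun l _ => ?_
        rw [Finset.sum_const, Finset.card_range, nsmul_eq_mul]
      have h5 : ∑ l ∈ Finset.range L, (τ * M * ((L : ℚ) - l) - θ l) =
          τ * M * (L * L - L * (L - 1) / 2) - (η * (H * (H - 1) / 2) - 2 * H) := by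
        rw [Finset.sum_sub_distrib]
        have h6 : ∑ l ∈ Finset.range L, θ l = η * (H * (H - 1) / 2) - 2 * H :=
          AlpC.sum_theta H η
        have h7 : ∑ l ∈ Finset.range L, τ * M * ((L : ℚ) - l) =
            τ * M * (L * L - L * (L - 1) / 2) := by
          have h8 := AlpC.sum_lin L (τ * M * L) (τ * M)
          have h9 : ∑ l ∈ Finset.range L, τ * M * ((L : ℚ) - l) =
              ∑ l ∈ Finset.range L, (τ * M * L - τ * M * (l : ℚ)) :=
            Finset.sum_congr rfl fun l _ => by ring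
          rw [h9, h8]
          ring
        rw [h6, h7]
      rw [h4, h5] at h3
      exact h3
    have hfin : (U.card : ℚ) < T.card := by
      refine lt_of_le_of_lt hUcard (lt_of_lt_of_le ?_ hTcard)
      rw [hW, hLr]
      have hMH : (0 : ℚ) < M * H := by positivity
      have h1 : 0 < M * H * (η * (H - 1) / 2 - 4 - τ * (M - 1)) := by
        refine mul_pos hMH ?_
        linarith
      nlinarith
    exact_mod_cast hfin

end Pool.Agent.FPO
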