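import Pool.Agent.FPO.AlpA
import Pool.Agent.FPO.AlpC

/-!
# FPO module AlpB: a polynomial with small `G`-adic coefficients (diff 3)

PROOF.  Let `M = G.natDegree`, and `L, W, θ, T, U` from `alpc`.  For `c : T → ℚ` let
`P_c = ∑_{(i,j) ∈ T} C (C c_{ij} * X^i) * X^j ∈ Bi`; `toL P_c` has weights `≤ W`, and its degree in
`y` is `< M L` (since `τ j ≤ W < τ M L`).  For `P ∈ LA` let `B_l(P) = (P /ₘ G^l) %ₘ G`.
FACTS (for `G` monic, `M ≥ 1`): (a) `B_l` is additive and commutes with multiplication by
constants `C (LaurentPolynomial.C q)` (uniqueness of division, `div_modByMonic_unique`;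
`add_modByMonic`, `smul_modByMonic`); so `c ↦ lcf (B_l (toL P_c)) i j` is `ℚ`-linear.
(b) `P = ∑_{l < L} B_l(P) G^l` if `P.natDegree < M L`: by induction on `l₀`,
`P = ∑_{l<l₀} B_l(P) G^l + (P /ₘ G^{l₀}) G^{l₀}`, because
`P /ₘ G^{l+1} = (P /ₘ G^l) /ₘ G` (uniqueness again, or define the quotients recursively:
`Q_0 = P`, `Q_{l+1} = Q_l /ₘ G`, `B_l = Q_l %ₘ G`; this recursive definition is the simplest choice,
then (b) is `modByMonic_add_div` and `natDegree Q_l < M (L - l)`, so `Q_L = 0`).
(c) `B_l(P)` has degree `< M` in `y`, and weights `≤ W - τ M l` (by `alpa`, induction on `l`).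
The linear map `(T → ℚ) → (U → ℚ)`, `c ↦ (lcf (B_l(toL P_c)) i j)_{(l,i,j) ∈ U}` has a nonzero kernel
element `c`, as `U.card < T.card` (`LinearMap.exists_ne_zero...`, `ker_ne_bot_of_finrank_lt`).
Then `P := P_c ≠ 0`, and with `B l := B_l(toL P)`: if `lcf (B l) i j ≠ 0` then `j < M`, the weight is
`≤ W - τMl`, so if it were `> θ l` then `(l,i,j) ∈ U`, a contradiction.  So the weight is
`≤ θ l ≤ η l - 1`.
-/

set_option autoImplicit false

open Polynomial

namespace Pool.Agent.FPO

namespace AlpB

variable {G : LA}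

theorem unique_aux (hG : G.Monic) (P P' : LA) : (P + P') /ₘ G = P /ₘ G + P' /ₘ G ∧
    (P + P') %ₘ G = P %ₘ G + P' %ₘ G := by
  apply div_modByMonic_unique _ _ hG
  constructor
  · have h1 := modByMonic_add_div P G
    have h2 := modByMonic_add_div P' G
    calc P %ₘ G + P' %ₘ G + G * (P /ₘ G + P' /ₘ G)
        = (P %ₘ G + G * (P /ₘ G)) + (P' %ₘ G + G * (P' /ₘ G)) := by ring
      _ = P + P' := by rw [h1, h2]
  · exact (degree_add_le _ _).trans_lt (max_lt (degree_modByMonic_lt P hG)
      (degree_modByMonic_lt P' hG))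

theorem unique_aux2 (hG : G.Monic) (q : ℚ) (P : LA) : (q • P) /ₘ G = q • (P /ₘ G) ∧
    (q • P) %ₘ G = q • (P %ₘ G) := by
  apply div_modByMonic_unique _ _ hG
  constructor
  · have h1 := modByMonic_add_div P G
    calc q • (P %ₘ G) + G * (q • (P /ₘ G)) = q • (P %ₘ G + G * (P /ₘ G)) := by
          rw [smul_add, mul_smul_comm]
      _ = q • P := by rw [h1]
  · exact (degree_smul_le _ _).trans_lt (degree_modByMonic_lt P hG)

/-- division by `G` as a linear map -/
noncomputable def Dv (hG : G.Monic) : LA →ₗ[ℚ] LA where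
  toFun P := P /ₘ G
  map_add' P P' := (unique_aux hG P P').1
  map_smul' q P := (unique_aux2 hG q P).1

/-- remainder modulo `G` as a linear map -/
noncomputable def Md (hG : G.Monic) : LA →ₗ[ℚ] LA where
  toFun P := P %ₘ G
  map_add' P P' := (unique_aux hG P P').2
  map_smul' q P := (unique_aux2 hG q P).2

theorem Dv_apply (hG : G.Monic) (P : LA) : Dv hG P = P /ₘ G := rfl
theorem Md_apply (hG : G.Monic) (P : LA) : Md hG P = P %ₘ G := rfl

/-- iterated quotients -/
noncomputable def Qt (hG : G.Monic) : ℕ → (LA →ₗ[ℚ] LA)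
  | 0 => LinearMap.id
  | l + 1 => (Dv hG).comp (Qt hG l)

theorem Qt_zero (hG : G.Monic) (P : LA) : Qt hG 0 P = P := rfl
theorem Qt_succ (hG : G.Monic) (l : ℕ) (P : LA) : Qt hG (l + 1) P = (Qt hG l P) /ₘ G := rfl

/-- coefficient as a linear map -/
noncomputable def lcfL (i : ℤ) (j : ℕ) : LA →ₗ[ℚ] ℚ where
  toFun P := lcf P i j
  map_add' P P' := lcf_add P P' i j
  map_smul' q P := by simp [lcf]

/-- the polynomial with given coefficients -/
noncomputable def PL (T : Finset (ℕ × ℕ)) : (T → ℚ) →ₗ[ℚ] Bi where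
  toFun c := ∑ q : T, c q • (C ((X : ℚ[X]) ^ q.1.1) * (X : Bi) ^ q.1.2)
  map_add' c c' := by
    rw [← Finset.sum_add_distrib]
    exact Finset.sum_congr rfl fun q _ => by rw [Pi.add_apply, add_smul]
  map_smul' r c := by
    rw [RingHom.id_apply, Finset.smul_sum]
    exact Finset.sum_congr rfl fun q _ => by
      rw [Pi.smul_apply, smul_eq_mul, mul_smul]

theorem cf_PL (T : Finset (ℕ × ℕ)) (c : T → ℚ) (i j : ℕ) :
    cf (PL T c) i j = if h : (i, j) ∈ T then c ⟨(i, j), h⟩ else 0 := by
  have h1 : cf (PL T c) i j = ∑ q : T, if q.1 = (i, j) then c q else 0 := by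
    change ((∑ q : T, c q • (C ((X : ℚ[X]) ^ q.1.1) * (X : Bi) ^ q.1.2)).coeff j).coeff i = _
    rw [finsetSum_coeff, finsetSum_coeff]
    refine Finset.sum_congr rfl fun q _ => ?_
    rw [coeff_smul, coeff_smul, coeff_C_mul, coeff_X_pow]
    by_cases h2 : j = q.1.2
    · rw [if_pos h2, mul_one, coeff_X_pow]
      by_cases h3 : i = q.1.1
      · rw [if_pos h3, if_pos (Prod.ext h3.symm h2.symm), smul_eq_mul, mul_one]
      · rw [if_neg h3, if_neg (fun h => h3 (by rw [h])), smul_zero]
    · rw [if_neg h2, mul_zero, coeff_zero, smul_zero, if_neg (fun h => h2 (by rw [h]))]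
  rw [h1]
  split_ifs with h
  · rw [Finset.sum_eq_single ⟨(i, j), h⟩]
    · simp
    · intro q _ hq
      rw [if_neg]
      intro h2
      exact hq (Subtype.ext h2)
    · intro h2
      exact absurd (Finset.mem_univ _) h2
  · refine Finset.sum_eq_zero fun q _ => ?_
    rw [if_neg]
    intro h2
    exact h (h2 ▸ q.2)

theorem lcf_toL_natCast (F : Bi) (i j : ℕ) : lcf (toL F) i j = cf F i j := by
  unfold lcf toL cf
  rw [coe_mapRingHom, coeff_map, LaurentPolynomial.coeff_toLaurent]
  exact Finsupp.mapDomain_apply Nat.castEmbedding.injective _ i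

theorem exists_of_lcf_toL_ne_zero {F : Bi} {i : ℤ} {j : ℕ} (h : lcf (toL F) i j ≠ 0) :
    ∃ i' : ℕ, i = i' ∧ cf F i' j ≠ 0 := by
  have h1 : i ∈ (Polynomial.toLaurent (F.coeff j)).coeff.support := by
    rw [Finsupp.mem_support_iff]
    intro h2
    apply h
    unfold lcf toL
    rw [coe_mapRingHom, coeff_map]
    exact h2
  rw [LaurentPolynomial.support_coeff_toLaurent, Finset.mem_map] at h1
  obtain ⟨i', hi', rfl⟩ := h1
  refine ⟨i', rfl, ?_⟩
  exact mem_support_iff.1 hi'

end AlpB

open AlpB in
theorem alpb (τ : ℚ) (hτ : 1 ≤ τ) (G : LA) (hG : G.Monic) (hM : 1 ≤ G.natDegree)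
    (hw : LWLe τ (τ * G.natDegree) G) (η : ℚ) (hη : 0 < η) (hη1 : η ≤ 1) :
    ∃ (P : Bi) (L : ℕ) (B : ℕ → LA), P ≠ 0 ∧ toL P = ∑ l ∈ Finset.range L, B l * G ^ l ∧
      ∀ l < L, LWLe τ (η * l - 1) (B l) := by
  obtain ⟨L, W, θ, T, U, hL, hWL, hθ, hT, hU, hcard⟩ := alpc τ hτ G.natDegree hM η hη hη1
  -- the linear map
  let Ψ : (T → ℚ) →ₗ[ℚ] (U → ℚ) :=
    { toFun := fun c u => lcf (Md hG (Qt hG u.1.1 (toL (PL T c)))) u.1.2.1 u.1.2.2
      map_add' := by
        intro c c'
        ext u
        rw [map_add, map_add, map_add, map_add, Pi.add_apply, lcf_add]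
      map_smul' := by
        intro r c
        ext u
        rw [map_smul, map_rat_smul toL r, map_smul, map_smul, RingHom.id_apply, Pi.smul_apply]
        exact (lcfL u.1.2.1 u.1.2.2).map_smul r _ }
  have hfin : Module.finrank ℚ (U → ℚ) < Module.finrank ℚ (T → ℚ) := by
    rw [Module.finrank_fintype_fun_eq_card, Module.finrank_fintype_fun_eq_card,
      Fintype.card_coe, Fintype.card_coe]
    exact hcard
  have hker := LinearMap.ker_ne_bot_of_finrank_lt (f := Ψ) hfin
  obtain ⟨c, hc, hc0⟩ := Submodule.exists_mem_ne_zero_of_ne_bot hker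
  rw [LinearMap.mem_ker] at hc
  set P := PL T c with hP
  have hP0 : P ≠ 0 := by
    intro h0
    apply hc0
    ext q
    have h1 := cf_PL T c q.1.1 q.1.2
    rw [← hP, h0, cf_zero, dif_pos q.2] at h1
    exact h1.symm
  have hwP : LWLe τ W (toL P) := by
    intro i j hij
    obtain ⟨i', rfl, h1⟩ := exists_of_lcf_toL_ne_zero hij
    rw [hP, cf_PL] at h1
    split_ifs at h1 with h2
    · have := hT _ h2
      exact_mod_cast this
    · exact absurd rfl h1
  have hdP : (toL P).degree < ((G.natDegree * L : ℕ) : WithBot ℕ) := by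
    rw [degree_lt_iff_coeff_zero]
    intro j hj
    by_contra hne
    have h1 : ∃ i : ℤ, lcf (toL P) i j ≠ 0 := by
      by_contra hcon
      push Not at hcon
      apply hne
      ext i
      exact hcon i
    obtain ⟨i, hi⟩ := h1
    obtain ⟨i', rfl, h2⟩ := exists_of_lcf_toL_ne_zero hi
    rw [hP, cf_PL] at h2
    split_ifs at h2 with h3
    · have h4 := hT _ h3
      simp only at h4
      have h5 : ((G.natDegree * L : ℕ) : ℚ) ≤ j := by exact_mod_cast hj
      push_cast at h5
      have h6 : τ * ((G.natDegree : ℚ) * L) ≤ τ * j := mul_le_mul_of_nonneg_left h5 (by linarith)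
      have h7 : (0 : ℚ) ≤ i' := by positivity
      linarith
    · exact absurd rfl h2
  have hGdeg : G.degree = (G.natDegree : WithBot ℕ) := degree_eq_natDegree hG.ne_zero
  -- degrees of the quotients
  have hdeg : ∀ l, l ≤ L → (Qt hG l (toL P)).degree < ((G.natDegree * (L - l) : ℕ) : WithBot ℕ) ∨
      Qt hG l (toL P) = 0 := by
    intro l
    induction l with
    | zero => intro _; left; rw [Qt_zero]; simpa using hdP
    | succ l ih =>
      intro hl
      rw [Qt_succ]
      rcases ih (by omega) with h | h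
      · by_cases h0 : (Qt hG l (toL P)) /ₘ G = 0
        · exact Or.inr h0
        left
        have h1 : ¬ (Qt hG l (toL P)).degree < G.degree := by
          intro h2
          exact h0 ((divByMonic_eq_zero_iff hG).2 h2)
        push Not at h1
        have hne : Qt hG l (toL P) ≠ 0 := by
          intro h2
          rw [h2, zero_divByMonic] at h0
          exact h0 rfl
        rw [degree_eq_natDegree hne] at h h1
        rw [hGdeg] at h1
        rw [degree_eq_natDegree h0, natDegree_divByMonic _ hG]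
        have h2 : (Qt hG l (toL P)).natDegree < G.natDegree * (L - l) := by exact_mod_cast h
        have h3 : G.natDegree ≤ (Qt hG l (toL P)).natDegree := by exact_mod_cast h1
        have h4 : L - l = (L - (l + 1)) + 1 := by omega
        rw [h4, mul_add, mul_one] at h2
        have h5 : (Qt hG l (toL P)).natDegree - G.natDegree < G.natDegree * (L - (l + 1)) := by
          omega
        exact_mod_cast h5
      · right
        rw [h, zero_divByMonic]
  have hQL : Qt hG L (toL P) = 0 := by
    rcases hdeg L le_rfl with h | h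
    · rw [Nat.sub_self, mul_zero] at h
      by_contra hne
      rw [degree_eq_natDegree hne] at h
      have : (Qt hG L (toL P)).natDegree < 0 := by exact_mod_cast h
      omega
    · exact h
  -- decomposition
  have hdec : ∀ n, toL P = ∑ l ∈ Finset.range n, (Md hG (Qt hG l (toL P))) * G ^ l +
      Qt hG n (toL P) * G ^ n := by
    intro n
    induction n with
    | zero => simp [Qt_zero]
    | succ n ih =>
      rw [Finset.sum_range_succ, Qt_succ, Md_apply]
      have h1 := modByMonic_add_div (Qt hG n (toL P)) G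
      calc toL P = ∑ l ∈ Finset.range n, (Md hG (Qt hG l (toL P))) * G ^ l +
            Qt hG n (toL P) * G ^ n := ih
        _ = ∑ l ∈ Finset.range n, (Md hG (Qt hG l (toL P))) * G ^ l +
            (Qt hG n (toL P) %ₘ G + G * (Qt hG n (toL P) /ₘ G)) * G ^ n := by rw [h1]
        _ = _ := by ring
  -- weights
  have hwt : ∀ l : ℕ, LWLe τ (W - τ * G.natDegree * l) (Qt hG l (toL P)) := by
    intro l
    induction l with
    | zero => rw [Qt_zero]; simpa using hwP
    | succ l ih =>
      rw [Qt_succ]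
      have h1 := (alpa τ _ G hG hw _ ih).2
      intro i j hij
      have := h1 i j hij
      push_cast
      linarith
  refine ⟨P, L, fun l => Md hG (Qt hG l (toL P)), hP0, ?_, ?_⟩
  · have h1 := hdec L
    rw [hQL, zero_mul, add_zero] at h1
    exact h1
  · intro l hl i j hij
    have h1 := (alpa τ _ G hG hw _ (hwt l)).1 i j hij
    have hj : j < G.natDegree := by
      by_contra hcon
      push Not at hcon
      apply hij
      have h2 : (Md hG (Qt hG l (toL P))).degree < G.degree := degree_modByMonic_lt _ hG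
      have h3 : (Md hG (Qt hG l (toL P))).coeff j = 0 := by
        apply coeff_eq_zero_of_degree_lt
        refine h2.trans_le ?_
        rw [hGdeg]
        exact_mod_cast hcon
      unfold lcf
      rw [h3]
      rfl
    by_contra hcon
    push Not at hcon
    have h2 : θ l < i + τ * j := lt_of_le_of_lt (hθ l hl) hcon
    have h3 := hU l i j hl hj h2 h1
    apply hij
    have h4 := congrFun hc ⟨(l, i, j), h3⟩
    exact h4

end Pool.Agent.FPO
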