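import Pool.Agent.FPO.Defs

/-!
# FPO: calculus of the basic definitions (all proved)
-/

set_option autoImplicit false

open Polynomial

namespace Pool.Agent.FPO

section bv

variable {R : Type*} [CommRing R] [Algebra ℚ R]

theorem bv_def (F : Bi) (a b : R) :
    bv F a b = F.eval₂ ((aeval a : ℚ[X] →ₐ[ℚ] R) : ℚ[X] →+* R) b := rfl

@[simp] theorem bv_zero (a b : R) : bv 0 a b = 0 := map_zero _
@[simp] theorem bv_one (a b : R) : bv 1 a b = 1 := map_one _
@[simp] theorem bv_add (F G : Bi) (a b : R) : bv (F + G) a b = bv F a b + bv G a b := map_add _ _ _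
@[simp] theorem bv_sub (F G : Bi) (a b : R) : bv (F - G) a b = bv F a b - bv G a b := map_sub _ _ _
@[simp] theorem bv_neg (F : Bi) (a b : R) : bv (-F) a b = -bv F a b := map_neg _ _
@[simp] theorem bv_mul (F G : Bi) (a b : R) : bv (F * G) a b = bv F a b * bv G a b := map_mul _ _ _
@[simp] theorem bv_pow (F : Bi) (n : ℕ) (a b : R) : bv (F ^ n) a b = bv F a b ^ n := map_pow _ _ _

theorem bv_sum {ι : Type*} (s : Finset ι) (F : ι → Bi) (a b : R) :
    bv (∑ i ∈ s, F i) a b = ∑ i ∈ s, bv (F i) a b := map_sum (bvHom a b) _ _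

theorem bv_prod {ι : Type*} (s : Finset ι) (F : ι → Bi) (a b : R) :
    bv (∏ i ∈ s, F i) a b = ∏ i ∈ s, bv (F i) a b := map_prod (bvHom a b) _ _

@[simp] theorem bv_X (a b : R) : bv (X : Bi) a b = b := by
  simp [bv_def]

@[simp] theorem bv_C (p : ℚ[X]) (a b : R) : bv (C p : Bi) a b = aeval a p := by
  simp [bv_def]

theorem bv_C_C (q : ℚ) (a b : R) : bv (C (C q) : Bi) a b = algebraMap ℚ R q := by
  simp

theorem bv_C_X (a b : R) : bv (C X : Bi) a b = a := by
  simp

/-- Evaluation commutes with ring homomorphisms. -/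
theorem map_bv {S : Type*} [CommRing S] [Algebra ℚ S] (φ : R →+* S) (F : Bi) (a b : R) :
    φ (bv F a b) = bv F (φ a) (φ b) := by
  have h : φ.comp (bvHom a b) = bvHom (φ a) (φ b) := by
    ext x
    · change φ (bv (C (C x) : Bi) a b) = bv (C (C x) : Bi) (φ a) (φ b)
      rw [bv_C_C, bv_C_C]
      have h1 : φ.comp (algebraMap ℚ R) = algebraMap ℚ S := Subsingleton.elim _ _
      exact congrArg (fun ψ : ℚ →+* S => ψ x) h1
    · change φ (bv (C X : Bi) a b) = bv (C X : Bi) (φ a) (φ b)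
      rw [bv_C_X, bv_C_X]
    · change φ (bv (X : Bi) a b) = bv (X : Bi) (φ a) (φ b)
      rw [bv_X, bv_X]
  exact congrArg (fun ψ : Bi →+* S => ψ F) h

/-- Substitution: `(F(A,B))(a,b) = F(A(a,b), B(a,b))`. -/
theorem bv_bv (F A B : Bi) (a b : R) : bv (bv F A B) a b = bv F (bv A a b) (bv B a b) :=
  map_bv (bvHom a b) F A B

theorem cf_eq_zero_of_xdeg {F : Bi} {i j : ℕ} (h : xdeg F < i) : cf F i j = 0 := by
  by_cases hj : j ∈ F.support
  · refine coeff_eq_zero_of_natDegree_lt (lt_of_le_of_lt ?_ h)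
    exact Finset.le_sup (f := fun j => (F.coeff j).natDegree) hj
  · rw [cf, notMem_support_iff.1 hj, coeff_zero]

theorem cf_eq_zero_of_natDegree {F : Bi} {i j : ℕ} (h : F.natDegree < j) : cf F i j = 0 := by
  rw [cf, coeff_eq_zero_of_natDegree_lt h, coeff_zero]

theorem natDegree_coeff_le (F : Bi) (j : ℕ) : (F.coeff j).natDegree ≤ xdeg F := by
  by_contra h
  push Not at h
  have h1 : (F.coeff j).coeff (F.coeff j).natDegree = 0 := cf_eq_zero_of_xdeg (F := F) h
  rw [← leadingCoeff, leadingCoeff_eq_zero] at h1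
  rw [h1, natDegree_zero] at h
  exact absurd h (Nat.not_lt_zero _)

theorem exists_cf_ne_zero {F : Bi} (hF : F ≠ 0) : ∃ i j, cf F i j ≠ 0 := by
  by_contra h
  push Not at h
  refine hF ?_
  ext j i
  rw [coeff_zero, coeff_zero]
  exact h i j

theorem bi_ext {F G : Bi} (h : ∀ i j, cf F i j = cf G i j) : F = G := by
  ext j i
  exact h i j

@[simp] theorem cf_add (F G : Bi) (i j : ℕ) : cf (F + G) i j = cf F i j + cf G i j := by
  simp [cf]

@[simp] theorem cf_sub (F G : Bi) (i j : ℕ) : cf (F - G) i j = cf F i j - cf G i j := by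
  simp [cf]

@[simp] theorem cf_zero (i j : ℕ) : cf 0 i j = 0 := by simp [cf]

/-- Expansion of `F` into monomials, with any bounds for the degrees. -/
theorem eq_sum_of_le {F : Bi} {A B : ℕ} (hA : xdeg F ≤ A) (hB : F.natDegree ≤ B) :
    F = ∑ j ∈ Finset.range (B + 1), ∑ i ∈ Finset.range (A + 1),
      C (C (cf F i j) * X ^ i) * X ^ j := by
  have h1 : ∀ j, F.coeff j = ∑ i ∈ Finset.range (A + 1), C (cf F i j) * X ^ i := by
    intro j
    refine as_sum_range_C_mul_X_pow' (F.coeff j) ?_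
    exact Nat.lt_succ_of_le ((natDegree_coeff_le F j).trans hA)
  conv_lhs => rw [as_sum_range_C_mul_X_pow' F (Nat.lt_succ_of_le hB)]
  refine Finset.sum_congr rfl fun j _ => ?_
  conv_lhs => rw [h1 j]
  rw [map_sum, Finset.sum_mul]

theorem bv_eq_sum_of_le {F : Bi} {A B : ℕ} (hA : xdeg F ≤ A) (hB : F.natDegree ≤ B) (a b : R) :
    bv F a b = ∑ j ∈ Finset.range (B + 1), ∑ i ∈ Finset.range (A + 1),
      algebraMap ℚ R (cf F i j) * a ^ i * b ^ j := by
  conv_lhs => rw [eq_sum_of_le hA hB]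
  rw [bv_sum]
  refine Finset.sum_congr rfl fun j _ => ?_
  rw [bv_sum]
  refine Finset.sum_congr rfl fun i _ => ?_
  simp

theorem bv_eq_sum (F : Bi) (a b : R) :
    bv F a b = ∑ j ∈ Finset.range (F.natDegree + 1), ∑ i ∈ Finset.range (xdeg F + 1),
      algebraMap ℚ R (cf F i j) * a ^ i * b ^ j :=
  bv_eq_sum_of_le le_rfl le_rfl a b

/-- Expansion of a value as a polynomial in the second argument. -/
theorem bv_eq_sum_y (F : Bi) (a b : R) :
    bv F a b = ∑ j ∈ Finset.range (F.natDegree + 1), aeval a (F.coeff j) * b ^ j := by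
  rw [bv_def, eval₂_eq_sum_range]
  rfl

/-- Substituting only for `y` is composition. -/
theorem bv_C_X_eq_comp (F B : Bi) : bv F (C X : Bi) B = F.comp B := by
  have h : ((aeval (C X : Bi) : ℚ[X] →ₐ[ℚ] Bi) : ℚ[X] →+* Bi) = (C : ℚ[X] →+* Bi) := by
    ext x
    · simp
    · simp
  rw [bv_def, h, comp]

end bv

/-- Coefficients of the polynomial with exchanged variables. -/
theorem cf_swap (F : Bi) (i j : ℕ) : cf (bv F (X : Bi) (C X : Bi)) i j = cf F j i := by
  conv_lhs => rw [bv_eq_sum]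
  simp only [cf, finsetSum_coeff]
  have h1 : ∀ (l k : ℕ) (q : ℚ), ((algebraMap ℚ Bi q * (X : Bi) ^ k * (C X : Bi) ^ l).coeff j).coeff i
      = if k = j ∧ l = i then q else 0 := by
    intro l k q
    have h2 : (algebraMap ℚ Bi q * (X : Bi) ^ k * (C X : Bi) ^ l) = C (C q * X ^ l) * X ^ k := by
      rw [map_mul, map_pow]
      change (C (C q) : Bi) * X ^ k * C X ^ l = _
      ring
    rw [h2, coeff_C_mul, coeff_X_pow]
    by_cases hk : j = k
    · subst hk
      simp only [if_true, mul_one, coeff_C_mul, coeff_X_pow, true_and]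
      by_cases hl : i = l
      · subst hl; simp
      · rw [if_neg hl, if_neg (Ne.symm hl), mul_zero]
    · rw [if_neg hk, mul_zero, coeff_zero, if_neg]
      rintro ⟨h3, -⟩
      exact hk h3.symm
  simp only [h1]
  by_cases hi : i ≤ F.natDegree
  · by_cases hj : j ≤ xdeg F
    · rw [Finset.sum_eq_single i]
      · rw [Finset.sum_eq_single j]
        · simp
        · intro k _ hk
          rw [if_neg]
          rintro ⟨h3, -⟩
          exact hk h3
        · intro h
          exact absurd (Finset.mem_range.2 (Nat.lt_succ_of_le hj)) h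
      · intro l _ hl
        refine Finset.sum_eq_zero fun k _ => ?_
        rw [if_neg]
        rintro ⟨-, h3⟩
        exact hl h3
      · intro h
        exact absurd (Finset.mem_range.2 (Nat.lt_succ_of_le hi)) h
    · push Not at hj
      have h0 : (F.coeff i).coeff j = 0 := cf_eq_zero_of_xdeg (F := F) hj
      rw [h0]
      refine Finset.sum_eq_zero fun l _ => Finset.sum_eq_zero fun k hk => ?_
      rw [if_neg]
      rintro ⟨h3, -⟩
      rw [Finset.mem_range] at hk
      omega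
  · push Not at hi
    have h0 : (F.coeff i).coeff j = 0 := cf_eq_zero_of_natDegree (F := F) hi
    rw [h0]
    refine Finset.sum_eq_zero fun l hl => Finset.sum_eq_zero fun k _ => ?_
    rw [if_neg]
    rintro ⟨-, h3⟩
    rw [Finset.mem_range] at hl
    omega

/-! ### Weights -/

theorem exists_hasWt (τ : ℚ) {F : Bi} (hF : F ≠ 0) : ∃ w, HasWt τ w F := by
  classical
  obtain ⟨i₀, j₀, h₀⟩ := exists_cf_ne_zero hF
  let s : Finset (ℕ × ℕ) := ((Finset.range (xdeg F + 1)) ×ˢ (Finset.range (F.natDegree + 1))).filter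
    fun q => cf F q.1 q.2 ≠ 0
  have hs : ∀ i j, cf F i j ≠ 0 → (i, j) ∈ s := by
    intro i j h
    simp only [s, Finset.mem_filter, Finset.mem_product, Finset.mem_range]
    refine ⟨⟨?_, ?_⟩, h⟩
    · by_contra hh
      exact h (cf_eq_zero_of_xdeg (by omega))
    · by_contra hh
      exact h (cf_eq_zero_of_natDegree (by omega))
  obtain ⟨q, hq, hmax⟩ := s.exists_max_image (fun q => (q.1 : ℚ) + τ * q.2) ⟨_, hs i₀ j₀ h₀⟩
  refine ⟨(q.1 : ℚ) + τ * q.2, fun i j h => hmax (i, j) (hs i j h), q.1, q.2, ?_, rfl⟩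
  exact (Finset.mem_filter.1 hq).2

theorem HasWt.unique {τ w w' : ℚ} {F : Bi} (h : HasWt τ w F) (h' : HasWt τ w' F) : w = w' := by
  obtain ⟨h1, i, j, h2, h3⟩ := h
  obtain ⟨h1', i', j', h2', h3'⟩ := h'
  refine le_antisymm ?_ ?_
  · rw [← h3]; exact h1' i j h2
  · rw [← h3']; exact h1 i' j' h2'

theorem HasWt.nonneg {τ w : ℚ} {F : Bi} (h : HasWt τ w F) (hτ : 0 ≤ τ) : 0 ≤ w := by
  obtain ⟨-, i, j, -, h3⟩ := h
  rw [← h3]
  positivity

theorem HasWt.ne_zero {τ w : ℚ} {F : Bi} (h : HasWt τ w F) : F ≠ 0 := by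
  obtain ⟨-, i, j, h2, -⟩ := h
  rintro rfl
  exact h2 (cf_zero i j)

theorem coeff_ini_of {τ w : ℚ} {F : Bi} {i j : ℕ} (h : (i : ℚ) + τ * j = w) :
    (ini τ w F).coeff j = cf F i j := by
  rw [ini]
  simp only [finsetSum_coeff]
  have h1 : ∀ (k l : ℕ), (if (k : ℚ) + τ * l = w then C (cf F k l) * (X : ℚ[X]) ^ l else 0).coeff j
      = if l = j ∧ k = i then cf F i j else 0 := by
    intro k l
    split_ifs with h2 h3 h3
    · obtain ⟨rfl, rfl⟩ := h3
      simp
    · rw [coeff_C_mul, coeff_X_pow]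
      rw [if_neg, mul_zero]
      intro h4
      subst h4
      refine h3 ⟨rfl, ?_⟩
      have : (k : ℚ) = i := by linarith
      exact_mod_cast this
    · obtain ⟨rfl, rfl⟩ := h3
      exact absurd h h2
    · exact coeff_zero _
  simp only [h1]
  by_cases hj : j ≤ F.natDegree
  · by_cases hi : i ≤ xdeg F
    · rw [Finset.sum_eq_single j]
      · rw [Finset.sum_eq_single i]
        · simp
        · intro k _ hk
          rw [if_neg]
          rintro ⟨-, h3⟩
          exact hk h3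
        · intro h
          exact absurd (Finset.mem_range.2 (Nat.lt_succ_of_le hi)) h
      · intro l _ hl
        refine Finset.sum_eq_zero fun k _ => ?_
        rw [if_neg]
        rintro ⟨h3, -⟩
        exact hl h3
      · intro h
        exact absurd (Finset.mem_range.2 (Nat.lt_succ_of_le hj)) h
    · push Not at hi
      rw [cf_eq_zero_of_xdeg hi]
      simp
  · push Not at hj
    rw [cf_eq_zero_of_natDegree hj]
    simp

theorem coeff_ini_none {τ w : ℚ} {F : Bi} {j : ℕ} (h : ∀ i : ℕ, (i : ℚ) + τ * j ≠ w) :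
    (ini τ w F).coeff j = 0 := by
  rw [ini]
  simp only [finsetSum_coeff]
  refine Finset.sum_eq_zero fun l _ => Finset.sum_eq_zero fun k _ => ?_
  split_ifs with h2
  · rw [coeff_C_mul, coeff_X_pow, if_neg, mul_zero]
    intro h4
    subst h4
    exact h k h2
  · exact coeff_zero _

/-- A nonzero coefficient of the initial polynomial comes from a monomial. -/
theorem exists_of_coeff_ini_ne_zero {τ w : ℚ} {F : Bi} {j : ℕ} (h : (ini τ w F).coeff j ≠ 0) :
    ∃ i : ℕ, (i : ℚ) + τ * j = w ∧ cf F i j = (ini τ w F).coeff j ∧ cf F i j ≠ 0 := by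
  by_contra hcon
  push Not at hcon
  by_cases h1 : ∃ i : ℕ, (i : ℚ) + τ * j = w
  · obtain ⟨i, hi⟩ := h1
    exact h ((coeff_ini_of hi).trans (hcon i hi (coeff_ini_of hi).symm))
  · push Not at h1
    exact h (coeff_ini_none h1)

theorem HasWt.ini_ne_zero {τ w : ℚ} {F : Bi} (h : HasWt τ w F) : ini τ w F ≠ 0 := by
  obtain ⟨-, i, j, h2, h3⟩ := h
  intro h0
  have h4 := coeff_ini_of (F := F) h3
  rw [h0, coeff_zero] at h4
  exact h2 h4.symm

/-! ### Puiseux polynomials -/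

theorem psum_eq_sum {p : ℚ →₀ ℂ} {J : Finset ℚ} (hJ : p.support ⊆ J) (x : ℝ) :
    psum p x = ∑ e ∈ J, p e * ((x ^ (e : ℝ) : ℝ) : ℂ) := by
  rw [psum, Finsupp.sum_of_support_subset _ hJ]
  intro e _
  simp

theorem rsum_eq_sum {p : ℚ →₀ ℝ} {J : Finset ℚ} (hJ : p.support ⊆ J) (x : ℝ) :
    rsum p x = ∑ e ∈ J, p e * x ^ (e : ℝ) := by
  rw [rsum, Finsupp.sum_of_support_subset _ hJ]
  intro e _
  simp

@[simp] theorem rePart_apply (p : ℚ →₀ ℂ) (e : ℚ) : rePart p e = (p e).re := rfl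

theorem re_psum (p : ℚ →₀ ℂ) (x : ℝ) : (psum p x).re = rsum (rePart p) x := by
  have h : (rePart p).support ⊆ p.support := Finsupp.support_mapRange
  rw [psum_eq_sum (Finset.Subset.refl _), rsum_eq_sum h, Complex.re_sum]
  refine Finset.sum_congr rfl fun e _ => ?_
  rw [Complex.mul_re, Complex.ofReal_re, Complex.ofReal_im, mul_zero, sub_zero]
  rfl

theorem one_le_ldw (p : ℚ →₀ ℂ) : 1 ≤ ldw p :=
  Finset.le_max' _ _ (Finset.mem_insert_self _ _)

theorem le_ldw {p : ℚ →₀ ℂ} {e : ℚ} (h : p e ≠ 0) : e ≤ ldw p :=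
  Finset.le_max' _ _ (Finset.mem_insert_of_mem (Finsupp.mem_support_iff.2 h))

theorem eq_zero_of_ldw_lt {p : ℚ →₀ ℂ} {e : ℚ} (h : ldw p < e) : p e = 0 := by
  by_contra h1
  exact absurd (le_ldw h1) (not_le.2 h)

theorem ldw_eq_one_of_eq_zero {p : ℚ →₀ ℂ} (h : p (ldw p) = 0) : ldw p = 1 := by
  have h1 : ldw p ∈ insert 1 p.support := Finset.max'_mem _ _
  rcases Finset.mem_insert.1 h1 with h2 | h2
  · exact h2
  · exact absurd h (Finsupp.mem_support_iff.1 h2)

theorem ne_zero_of_one_lt_ldw {p : ℚ →₀ ℂ} (h : 1 < ldw p) : p (ldw p) ≠ 0 := fun h1 =>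
  absurd (ldw_eq_one_of_eq_zero h1) (ne_of_gt h)

/-! ### Laurent version -/

theorem lv_of_ne (G : LA) {x : ℝ} (hx : x ≠ 0) (y : ℝ) : lv G x y = lvHom (Units.mk0 x hx) y G :=
  dif_pos hx

theorem lv_mul (G H : LA) {x : ℝ} (hx : x ≠ 0) (y : ℝ) : lv (G * H) x y = lv G x y * lv H x y := by
  rw [lv_of_ne _ hx, lv_of_ne _ hx, lv_of_ne _ hx, map_mul]

theorem lv_add (G H : LA) {x : ℝ} (hx : x ≠ 0) (y : ℝ) : lv (G + H) x y = lv G x y + lv H x y := by
  rw [lv_of_ne _ hx, lv_of_ne _ hx, lv_of_ne _ hx, map_add]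

theorem lv_sub (G H : LA) {x : ℝ} (hx : x ≠ 0) (y : ℝ) : lv (G - H) x y = lv G x y - lv H x y := by
  rw [lv_of_ne _ hx, lv_of_ne _ hx, lv_of_ne _ hx, map_sub]

theorem lv_pow (G : LA) (n : ℕ) {x : ℝ} (hx : x ≠ 0) (y : ℝ) : lv (G ^ n) x y = lv G x y ^ n := by
  rw [lv_of_ne _ hx, lv_of_ne _ hx, map_pow]

theorem lv_finsetSum {ι : Type*} (s : Finset ι) (G : ι → LA) {x : ℝ} (hx : x ≠ 0) (y : ℝ) :
    lv (∑ i ∈ s, G i) x y = ∑ i ∈ s, lv (G i) x y := by
  rw [lv_of_ne _ hx, map_sum]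
  refine Finset.sum_congr rfl fun i _ => ?_
  rw [lv_of_ne _ hx]

theorem lv_toL (F : Bi) {x : ℝ} (hx : x ≠ 0) (y : ℝ) : lv (toL F) x y = bv F x y := by
  rw [lv_of_ne _ hx]
  have h : (lvHom (Units.mk0 x hx) y).comp toL = bvHom x y := by
    ext z
    · simp
    · simp [toL, lvHom, bvHom]
    · simp [toL, lvHom, bvHom]
  exact congrArg (fun ψ : Bi →+* ℝ => ψ F) h

@[simp] theorem lcf_add (F G : LA) (i : ℤ) (j : ℕ) : lcf (F + G) i j = lcf F i j + lcf G i j := by
  simp [lcf]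

@[simp] theorem lcf_sub (F G : LA) (i : ℤ) (j : ℕ) : lcf (F - G) i j = lcf F i j - lcf G i j := by
  simp [lcf]

@[simp] theorem lcf_zero (i : ℤ) (j : ℕ) : lcf 0 i j = 0 := by simp [lcf]

theorem la_ext {F G : LA} (h : ∀ i j, lcf F i j = lcf G i j) : F = G := by
  ext j i
  exact h i j

end Pool.Agent.FPO
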