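import Pool.Agent.FPO.Api

/-!
# FPO module Asy: the initial polynomial gives the asymptotics (diff 1)

PROOF.  By `bv_eq_sum`, `F(x,y) = ∑ c_{ij} x^i y^j` (finite sum, `c_{ij} = cf F i j`, cast to `ℝ`).
For `x ≥ 1` put `ξ = y / x^τ`, so `x^i y^j = x^{i + τ j} ξ^j`.  The terms with `i + τ j = w` add up to
`x^w * aeval ξ (ini τ w F)`; for the other terms with `c_{ij} ≠ 0`, `i + τ j < w`; let `σ > 0` be the
minimum of `w - (i + τ j)` over them (`1` if there are none).  Each is in absolute value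
`≤ |c_{ij}| x^{w-σ} A^j` if `|ξ| ≤ A`.  `C = ∑ |c_{ij}| A^j` (`A ≥ 0` may be assumed, since
`|y| ≤ A x^τ`; use `max A 0` or `|A|`).
-/

set_option autoImplicit false

open Polynomial

namespace Pool.Agent.FPO

namespace Asy

theorem exists_min {ι : Type*} (s : Finset ι) (δ : ι → ℝ) (h : ∀ i ∈ s, 0 < δ i) :
    ∃ δ₀ : ℝ, 0 < δ₀ ∧ ∀ i ∈ s, δ₀ ≤ δ i := by
  classical
  induction s using Finset.induction_on with
  | empty => exact ⟨1, one_pos, fun i hi => absurd hi (Finset.notMem_empty i)⟩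
  | insert a s _ ih =>
    obtain ⟨e, he, h1⟩ := ih fun i hi => h i (Finset.mem_insert_of_mem hi)
    refine ⟨min e (δ a), lt_min he (h a (Finset.mem_insert_self _ _)), fun i hi => ?_⟩
    rcases Finset.mem_insert.1 hi with rfl | hi
    · exact min_le_right _ _
    · exact (min_le_left _ _).trans (h1 i hi)

theorem mono_eq (τ : ℚ) (i j : ℕ) {x : ℝ} (hx : 0 < x) (y : ℝ) :
    x ^ i * y ^ j = x ^ ((i : ℝ) + τ * j) * (y / x ^ (τ : ℝ)) ^ j := by
  rw [Real.rpow_add hx, Real.rpow_natCast, Real.rpow_mul_natCast hx.le, mul_assoc, ← mul_pow]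
  congr 2
  rw [mul_div_cancel₀]
  exact (Real.rpow_pos_of_pos hx _).ne'

end Asy

theorem asy (F : Bi) (τ w : ℚ) (hw : HasWt τ w F) (A : ℝ) :
    ∃ C σ : ℝ, 0 < σ ∧ 0 ≤ C ∧ ∀ x : ℝ, 1 ≤ x → ∀ y : ℝ, |y| ≤ A * x ^ (τ : ℝ) →
      |bv F x y - x ^ (w : ℝ) * aeval (y / x ^ (τ : ℝ)) (ini τ w F)| ≤ C * x ^ ((w : ℝ) - σ) := by
  classical
  obtain ⟨σ, hσ, hmin⟩ := Asy.exists_min
    ((Finset.range (F.natDegree + 1)) ×ˢ (Finset.range (xdeg F + 1)))
    (fun k => if cf F k.2 k.1 ≠ 0 ∧ (k.2 : ℚ) + τ * k.1 ≠ w then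
      (w : ℝ) - ((k.2 : ℝ) + τ * k.1) else 1) (by
      intro k _
      split_ifs with h
      · have h1 : (k.2 : ℚ) + τ * k.1 < w := lt_of_le_of_ne (hw.1 _ _ h.1) h.2
        have h2 : (((k.2 : ℚ) + τ * k.1 : ℚ) : ℝ) < (w : ℝ) := by exact_mod_cast h1
        push_cast at h2
        linarith
      · exact one_pos)
  refine ⟨∑ j ∈ Finset.range (F.natDegree + 1), ∑ i ∈ Finset.range (xdeg F + 1),
    |(cf F i j : ℝ)| * |A| ^ j, σ, hσ, ?_, fun x hx y hy => ?_⟩
  · exact Finset.sum_nonneg fun j _ => Finset.sum_nonneg fun i _ =>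
      mul_nonneg (abs_nonneg _) (pow_nonneg (abs_nonneg _) _)
  have hx0 : 0 < x := lt_of_lt_of_le one_pos hx
  have hxt : 0 < x ^ (τ : ℝ) := Real.rpow_pos_of_pos hx0 _
  have hξ : |y / x ^ (τ : ℝ)| ≤ |A| := by
    rw [abs_div, abs_of_pos hxt, div_le_iff₀ hxt]
    exact hy.trans (mul_le_mul_of_nonneg_right (le_abs_self A) hxt.le)
  have hdiff : bv F x y - x ^ (w : ℝ) * aeval (y / x ^ (τ : ℝ)) (ini τ w F) =
      ∑ j ∈ Finset.range (F.natDegree + 1), ∑ i ∈ Finset.range (xdeg F + 1),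
        (if (i : ℚ) + τ * j = w then 0 else (cf F i j : ℝ) * (x ^ i * y ^ j)) := by
    rw [bv_eq_sum, ini, map_sum, Finset.mul_sum, ← Finset.sum_sub_distrib]
    refine Finset.sum_congr rfl fun j _ => ?_
    rw [map_sum, Finset.mul_sum, ← Finset.sum_sub_distrib]
    refine Finset.sum_congr rfl fun i _ => ?_
    rw [mul_assoc, eq_ratCast]
    split_ifs with h
    · rw [map_mul, map_pow, aeval_C, aeval_X, eq_ratCast, Asy.mono_eq τ i j hx0 y]
      have h1 : (i : ℝ) + τ * j = (w : ℝ) := by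
        rw [← h]
        push_cast
        ring
      rw [h1]
      ring
    · rw [map_zero, mul_zero, sub_zero]
  rw [hdiff, Finset.sum_mul]
  refine (Finset.abs_sum_le_sum_abs _ _).trans (Finset.sum_le_sum fun j hj => ?_)
  rw [Finset.sum_mul]
  refine (Finset.abs_sum_le_sum_abs _ _).trans (Finset.sum_le_sum fun i hi => ?_)
  split_ifs with h
  · rw [abs_zero]
    exact mul_nonneg (mul_nonneg (abs_nonneg _) (pow_nonneg (abs_nonneg _) _))
      (Real.rpow_nonneg hx0.le _)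
  · by_cases hc : cf F i j = 0
    · rw [hc, Rat.cast_zero, zero_mul, abs_zero, zero_mul, zero_mul]
    · have h1 := hmin (j, i) (Finset.mem_product.2 ⟨hj, hi⟩)
      dsimp only at h1
      rw [if_pos ⟨hc, h⟩] at h1
      rw [Asy.mono_eq τ i j hx0 y, abs_mul, abs_mul, abs_pow, abs_of_pos (Real.rpow_pos_of_pos hx0 _),
        mul_assoc]
      refine mul_le_mul_of_nonneg_left ?_ (abs_nonneg _)
      rw [mul_comm]
      refine mul_le_mul (pow_le_pow_left₀ (abs_nonneg _) hξ _) ?_ (Real.rpow_nonneg hx0.le _)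
        (pow_nonneg (abs_nonneg _) _)
      exact Real.rpow_le_rpow_of_exponent_le hx (by linarith)

end Pool.Agent.FPO
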