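import Pool.Agent.FPO.Lead

/-!
# FPO module ClB: lower bound near a real root of the initial polynomial (diff 2)

Notation: `w_i = ldw (p i)`, `c_i = p i (w_i)`, `I = {i : w_i = τ ∧ p i τ = c}` and
`s = |I|`.

PROOF.  By `lead` and `HasWt.unique`, `w = β + ∑ max τ w_i`.  Let `x` be large and
`|y - c x^τ| ≤ ε x^τ` (with `ε ≤ |c|/2`, so `|y| ≥ (|c|/2) x^τ`, and `|y| ≤ 2|c| x^τ ≤ x^K` as `τ < K`).
For `i ∉ I` we have `‖y - psum (p i) x‖ ≥ η_i x^{max τ w_i}`, `η_i > 0`, `x` large, using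
`psum_asymp`: if `w_i < τ`: `‖psum‖ ≤ C x^{w_i} ≤ (|c|/4) x^τ`; if `w_i > τ ≥ 1`, then `c_i ≠ 0`
(`ne_zero_of_one_lt_ldw`) and `‖psum‖ ≥ (‖c_i‖/2) x^{w_i}`, while `|y| ≤ 2|c| x^τ ≤ (‖c_i‖/4) x^{w_i}`;
if `w_i = τ` and `c_i = p i τ ≠ c`: `‖y - psum‖ ≥ ‖c - c_i‖ x^τ - ε x^τ - C x^{τ-σ} ≥
(‖c - c_i‖/4) x^τ` if `ε ≤ ‖c - c_i‖/2`.
So (with `|B(x)| ≥ (|b|/2) x^β`, `lc_asymp`) `|B(x)| ∏_i ‖y - psum (p i) x‖ ≥
c' x^{β + ∑_{i ∉ I} max τ w_i} ∏_{i ∈ I} ‖y - psum (p i) x‖`, the exponent is `w - τ s`; `Approx` gives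
the claim with the error `x^{-K}`.
THE MULTIPLICITY: by `lead`, `(ini τ w F).map (algebraMap ℚ ℂ) = C b ∏ (…)`, and the root
multiplicity of `(c : ℂ)` is the number of the factors `X - C (p i τ)` with `p i τ = c` (the factors
`X` and the nonzero constants do not vanish at `c ≠ 0`; use `rootMultiplicity_mul`,
`Polynomial.rootMultiplicity_X_sub_C`, or count roots), that is `s`.
-/

set_option autoImplicit false

open Polynomial

namespace Pool.Agent.FPO

namespace ClB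

open Filter

theorem ev_small (C σ δ : ℝ) (hσ : 0 < σ) (hδ : 0 < δ) :
    ∀ᶠ x : ℝ in atTop, C * x ^ (-σ) ≤ δ := by
  have h : Tendsto (fun x : ℝ => C * x ^ (-σ)) atTop (nhds (C * 0)) :=
    (tendsto_rpow_neg_atTop hσ).const_mul C
  rw [mul_zero] at h
  exact h.eventually_le_const hδ

/-- `C x^a ≤ δ x^b` for large `x` if `a < b` -/
theorem ev_lt (C a b δ : ℝ) (hab : a < b) (hδ : 0 < δ) :
    ∀ᶠ x : ℝ in atTop, C * x ^ a ≤ δ * x ^ b := by
  filter_upwards [ev_small C (b - a) δ (by linarith) hδ, eventually_gt_atTop 0] with x hx hx0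
  have h1 : x ^ a = x ^ (-(b - a)) * x ^ b := by
    rw [← Real.rpow_add hx0]
    congr 1
    ring
  rw [h1, ← mul_assoc]
  exact mul_le_mul_of_nonneg_right hx (by positivity)

/-- lower bound of the leading coefficient -/
theorem lc_lower (B : ℚ[X]) (hB : B ≠ 0) :
    ∀ᶠ x : ℝ in atTop, |(B.leadingCoeff : ℝ)| / 2 * x ^ B.natDegree ≤ |aeval x B| := by
  obtain ⟨C, hC, h⟩ := lc_asymp B hB
  have hb : 0 < |(B.leadingCoeff : ℝ)| := by
    rw [abs_pos]
    exact_mod_cast leadingCoeff_ne_zero.2 hB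
  filter_upwards [ev_lt C ((B.natDegree : ℝ) - 1) B.natDegree (|(B.leadingCoeff : ℝ)| / 2)
    (by linarith) (by positivity), eventually_ge_atTop 1] with x hx hx1
  have hx0 : 0 < x := by linarith
  have h1 := h x hx1
  rw [Real.rpow_natCast] at hx
  have h3 : |(B.leadingCoeff : ℝ) * x ^ B.natDegree| ≤ |aeval x B| +
      |aeval x B - (B.leadingCoeff : ℝ) * x ^ B.natDegree| := by
    have : (B.leadingCoeff : ℝ) * x ^ B.natDegree = aeval x B -
      (aeval x B - (B.leadingCoeff : ℝ) * x ^ B.natDegree) := by ring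
    conv_lhs => rw [this]
    exact abs_sub _ _
  rw [abs_mul, abs_of_pos (show 0 < x ^ B.natDegree by positivity)] at h3
  linarith

/-- the other factors are large -/
theorem factor (p : ℚ →₀ ℂ) (τ : ℚ) (hτ : 1 ≤ τ) (c : ℝ) (hc : c ≠ 0)
    (hp : ¬ (ldw p = τ ∧ p τ = (c : ℂ))) :
    ∃ η ε : ℝ, 0 < η ∧ 0 < ε ∧ ∀ᶠ x : ℝ in atTop, ∀ y : ℝ,
      |y - c * x ^ (τ : ℝ)| ≤ ε * x ^ (τ : ℝ) →
      η * x ^ (((max τ (ldw p) : ℚ)) : ℝ) ≤ ‖(y : ℂ) - psum p x‖ := by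
  obtain ⟨C, σ, hσ, hC, h⟩ := psum_asymp p
  have hc0 : 0 < |c| := abs_pos.2 hc
  rcases lt_trichotomy (ldw p) τ with hlt | heq | hgt
  · refine ⟨|c| / 4, |c| / 2, by positivity, by positivity, ?_⟩
    rw [max_eq_left hlt.le]
    have hlt' : ((ldw p : ℚ) : ℝ) < (τ : ℝ) := by exact_mod_cast hlt
    filter_upwards [ev_lt (‖p (ldw p)‖ + C) _ _ (|c| / 4) hlt' (by positivity),
      eventually_ge_atTop 1] with x hx hx1 y hy
    have hx0 : 0 < x := by linarith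
    have h1 := h x hx1
    have h2 : C * x ^ (((ldw p : ℚ) : ℝ) - σ) ≤ C * x ^ ((ldw p : ℚ) : ℝ) :=
      mul_le_mul_of_nonneg_left (Real.rpow_le_rpow_of_exponent_le hx1 (by linarith)) hC
    have h3 : ‖psum p x‖ ≤ (‖p (ldw p)‖ + C) * x ^ ((ldw p : ℚ) : ℝ) := by
      have h4 : psum p x = (psum p x - p (ldw p) * ((x ^ ((ldw p : ℚ) : ℝ) : ℝ) : ℂ)) +
        p (ldw p) * ((x ^ ((ldw p : ℚ) : ℝ) : ℝ) : ℂ) := by ring
      rw [h4]
      refine (norm_add_le _ _).trans ?_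
      rw [norm_mul, Complex.norm_real, Real.norm_eq_abs,
        abs_of_pos (show 0 < x ^ ((ldw p : ℚ) : ℝ) by positivity)]
      linarith
    have h5 : |c| * x ^ (τ : ℝ) - |y - c * x ^ (τ : ℝ)| ≤ |y| := by
      have h6 : |c * x ^ (τ : ℝ)| ≤ |y| + |y - c * x ^ (τ : ℝ)| := by
        have : c * x ^ (τ : ℝ) = y - (y - c * x ^ (τ : ℝ)) := by ring
        conv_lhs => rw [this]
        exact abs_sub _ _
      rw [abs_mul, abs_of_pos (show 0 < x ^ (τ : ℝ) by positivity)] at h6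
      linarith
    have h7 := norm_sub_norm_le (y : ℂ) (psum p x)
    rw [Complex.norm_real, Real.norm_eq_abs] at h7
    linarith
  · have hne : p τ ≠ (c : ℂ) := fun h1 => hp ⟨heq, h1⟩
    have hd : 0 < ‖(c : ℂ) - p τ‖ := norm_pos_iff.2 (sub_ne_zero.2 hne.symm)
    refine ⟨‖(c : ℂ) - p τ‖ / 4, ‖(c : ℂ) - p τ‖ / 2, by positivity, by positivity, ?_⟩
    rw [heq, max_self]
    rw [heq] at h
    filter_upwards [ev_lt C ((τ : ℝ) - σ) τ (‖(c : ℂ) - p τ‖ / 4) (by linarith) (by positivity),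
      eventually_ge_atTop 1] with x hx hx1 y hy
    have hx0 : 0 < x := by linarith
    have h1 := h x hx1
    have hX : 0 < x ^ (τ : ℝ) := by positivity
    have h2 : ((c : ℂ) - p τ) * ((x ^ (τ : ℝ) : ℝ) : ℂ) = ((y : ℂ) - psum p x) -
        (((y - c * x ^ (τ : ℝ) : ℝ)) : ℂ) +
        (psum p x - p τ * ((x ^ (τ : ℝ) : ℝ) : ℂ)) := by
      push_cast
      ring
    have h3 : ‖((c : ℂ) - p τ) * ((x ^ (τ : ℝ) : ℝ) : ℂ)‖ ≤ ‖(y : ℂ) - psum p x‖ +
        |y - c * x ^ (τ : ℝ)| + ‖psum p x - p τ * ((x ^ (τ : ℝ) : ℝ) : ℂ)‖ := by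
      rw [h2]
      refine (norm_add_le _ _).trans (add_le_add_left ((norm_sub_le _ _).trans ?_) _)
      rw [Complex.norm_real, Real.norm_eq_abs]
    rw [norm_mul, Complex.norm_real, Real.norm_eq_abs, abs_of_pos hX] at h3
    linarith
  · have hne : p (ldw p) ≠ 0 := ne_zero_of_one_lt_ldw (lt_of_le_of_lt hτ hgt)
    have hd : 0 < ‖p (ldw p)‖ := norm_pos_iff.2 hne
    refine ⟨‖p (ldw p)‖ / 4, 1, by positivity, one_pos, ?_⟩
    rw [max_eq_right hgt.le]
    have hgt' : (τ : ℝ) < ((ldw p : ℚ) : ℝ) := by exact_mod_cast hgt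
    filter_upwards [ev_lt C (((ldw p : ℚ) : ℝ) - σ) ((ldw p : ℚ) : ℝ) (‖p (ldw p)‖ / 2)
      (by linarith) (by positivity), ev_lt (|c| + 1) _ _ (‖p (ldw p)‖ / 4) hgt' (by positivity),
      eventually_ge_atTop 1] with x hx hx' hx1 y hy
    have hx0 : 0 < x := by linarith
    have h1 := h x hx1
    have hX : 0 < x ^ ((ldw p : ℚ) : ℝ) := by positivity
    have hT : 0 < x ^ (τ : ℝ) := by positivity
    have h2 : |y| ≤ (|c| + 1) * x ^ (τ : ℝ) := by
      have h6 : |y| ≤ |y - c * x ^ (τ : ℝ)| + |c * x ^ (τ : ℝ)| := by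
        have : y = (y - c * x ^ (τ : ℝ)) + c * x ^ (τ : ℝ) := by ring
        conv_lhs => rw [this]
        exact abs_add_le _ _
      rw [abs_mul, abs_of_pos hT] at h6
      linarith
    have h3 : p (ldw p) * ((x ^ ((ldw p : ℚ) : ℝ) : ℝ) : ℂ) = (y : ℂ) - ((y : ℂ) - psum p x) -
        (psum p x - p (ldw p) * ((x ^ ((ldw p : ℚ) : ℝ) : ℝ) : ℂ)) := by ring
    have h4 : ‖p (ldw p) * ((x ^ ((ldw p : ℚ) : ℝ) : ℝ) : ℂ)‖ ≤ |y| + ‖(y : ℂ) - psum p x‖ +
        ‖psum p x - p (ldw p) * ((x ^ ((ldw p : ℚ) : ℝ) : ℝ) : ℂ)‖ := by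
      rw [h3]
      refine (norm_sub_le _ _).trans (add_le_add ((norm_sub_le _ _).trans ?_) ?_)
      · rw [Complex.norm_real, Real.norm_eq_abs]
      · exact le_of_eq (by congr 1; rw [← h3])
    rw [norm_mul, Complex.norm_real, Real.norm_eq_abs, abs_of_pos hX] at h4
    linarith

theorem rootMult_prod {ι : Type*} (s : Finset ι) (f : ι → ℂ[X]) (a : ℂ) (hf : ∀ i, f i ≠ 0) :
    (∏ i ∈ s, f i).rootMultiplicity a = ∑ i ∈ s, (f i).rootMultiplicity a := by
  classical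
  induction s using Finset.induction_on with
  | empty =>
    rw [Finset.prod_empty, Finset.sum_empty]
    have : (1 : ℂ[X]) = C 1 := by simp
    rw [this, rootMultiplicity_C]
  | insert i s hi ih =>
    rw [Finset.prod_insert hi, Finset.sum_insert hi, rootMultiplicity_mul, ih]
    exact mul_ne_zero (hf i) (Finset.prod_ne_zero_iff.2 fun j _ => hf j)

/-- a common lower bound -/
theorem exists_min {n : ℕ} (ε : Fin n → ℝ) (h : ∀ i, 0 < ε i) : ∃ δ : ℝ, 0 < δ ∧ ∀ i, δ ≤ ε i := by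
  classical
  have hne : (insert 1 (Finset.univ.image ε)).Nonempty := Finset.insert_nonempty _ _
  refine ⟨(insert 1 (Finset.univ.image ε)).min' hne, ?_, fun i => ?_⟩
  · have h1 := Finset.min'_mem _ hne
    rcases Finset.mem_insert.1 h1 with h2 | h2
    · rw [h2]; exact one_pos
    · obtain ⟨i, -, hi⟩ := Finset.mem_image.1 h2
      rw [← hi]; exact h i
  · exact Finset.min'_le _ _ (Finset.mem_insert_of_mem (Finset.mem_image_of_mem _ (Finset.mem_univ _)))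

end ClB

open ClB Filter in
open Classical in
theorem clb (F : Bi) (hF : F ≠ 0) (K : ℕ) (p : Fin F.natDegree → (ℚ →₀ ℂ)) (hp : PD F K p)
    (τ : ℚ) (hτ : 1 ≤ τ) (hτK : τ < K) (c : ℝ) (hc : c ≠ 0) (w : ℚ) (hw : HasWt τ w F) :
    ((ini τ w F).map (algebraMap ℚ ℂ)).rootMultiplicity (c : ℂ) =
        (Finset.univ.filter fun i => ldw (p i) = τ ∧ p i τ = (c : ℂ)).card ∧
    ∃ ε c' x₁ : ℝ, 0 < ε ∧ 0 < c' ∧ 1 ≤ x₁ ∧ ∀ x : ℝ, x₁ ≤ x → ∀ y : ℝ,
      |y - c * x ^ (τ : ℝ)| ≤ ε * x ^ (τ : ℝ) →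
      c' * (x ^ ((w : ℝ) - τ *
          (Finset.univ.filter fun i => ldw (p i) = τ ∧ p i τ = (c : ℂ)).card) *
        ∏ i ∈ Finset.univ.filter fun i => ldw (p i) = τ ∧ p i τ = (c : ℂ),
          ‖(y : ℂ) - psum (p i) x‖) ≤ |bv F x y| + x ^ (-(K : ℝ)) := by
  obtain ⟨hwt, hini⟩ := lead F hF K p hp τ hτ hτK
  have hww := hw.unique hwt
  have hB : F.leadingCoeff ≠ 0 := leadingCoeff_ne_zero.2 hF
  have hBl : F.leadingCoeff.leadingCoeff ≠ 0 := leadingCoeff_ne_zero.2 hB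
  rw [← hww] at hini
  refine ⟨?_, ?_⟩
  · rw [hini]
    have hR : ∀ i : Fin F.natDegree, (if ldw (p i) < τ then (X : ℂ[X]) else
          if ldw (p i) = τ then X - C (p i τ) else C (-(p i (ldw (p i))))) ≠ 0 := by
      intro i
      split_ifs with h1 h2
      · exact X_ne_zero
      · exact X_sub_C_ne_zero _
      · rw [Ne, C_eq_zero, neg_eq_zero]
        refine ne_zero_of_one_lt_ldw (lt_of_le_of_lt hτ ?_)
        exact lt_of_le_of_ne (not_lt.1 h1) (Ne.symm h2)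
    have hb : (((F.leadingCoeff.leadingCoeff : ℚ) : ℂ)) ≠ 0 := by exact_mod_cast hBl
    rw [rootMultiplicity_mul (mul_ne_zero (C_ne_zero.2 hb)
      (Finset.prod_ne_zero_iff.2 fun i _ => hR i)), rootMultiplicity_C, zero_add,
      rootMult_prod _ _ _ hR, Finset.card_filter]
    refine Finset.sum_congr rfl fun i _ => ?_
    by_cases h1 : ldw (p i) < τ
    · rw [if_pos h1, if_neg (fun h => absurd h.1 (ne_of_lt h1))]
      refine rootMultiplicity_eq_zero ?_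
      rw [IsRoot.def, eval_X]
      exact_mod_cast hc
    · rw [if_neg h1]
      by_cases h2 : ldw (p i) = τ
      · rw [if_pos h2, rootMultiplicity_X_sub_C]
        by_cases h3 : p i τ = (c : ℂ)
        · rw [if_pos h3.symm, if_pos ⟨h2, h3⟩]
        · rw [if_neg (fun h => h3 h.symm), if_neg (fun h => h3 h.2)]
      · rw [if_neg h2, if_neg (fun h => h2 h.1), rootMultiplicity_C]
  · obtain ⟨-, hexp, x0, hx01, happ⟩ := hp
    set b := |(F.leadingCoeff.leadingCoeff : ℝ)| with hbdef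
    have hb : 0 < b := by
      rw [hbdef, abs_pos]
      exact_mod_cast hBl
    set I := Finset.univ.filter fun i => ldw (p i) = τ ∧ p i τ = (c : ℂ) with hI
    set J := Finset.univ.filter fun i => ¬ (ldw (p i) = τ ∧ p i τ = (c : ℂ)) with hJ
    have hfac : ∀ i : Fin F.natDegree, ∃ η ε : ℝ, 0 < η ∧ 0 < ε ∧ ∀ᶠ x : ℝ in atTop,
        ¬ (ldw (p i) = τ ∧ p i τ = (c : ℂ)) → ∀ y : ℝ,
        |y - c * x ^ (τ : ℝ)| ≤ ε * x ^ (τ : ℝ) →
        η * x ^ (((max τ (ldw (p i)) : ℚ)) : ℝ) ≤ ‖(y : ℂ) - psum (p i) x‖ := by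
      intro i
      by_cases hi : ldw (p i) = τ ∧ p i τ = (c : ℂ)
      · exact ⟨1, 1, one_pos, one_pos, Eventually.of_forall fun x h => absurd hi h⟩
      · obtain ⟨η, ε, h1, h2, h3⟩ := factor (p i) τ hτ c hc hi
        exact ⟨η, ε, h1, h2, h3.mono fun x hx _ => hx⟩
    choose η εi hη0 hε0 hη using hfac
    obtain ⟨ε, hε, hεi⟩ := exists_min εi hε0
    have hτK' : (τ : ℝ) < K := by exact_mod_cast hτK
    have hev : ∀ᶠ x : ℝ in atTop, ∀ y : ℝ, |y - c * x ^ (τ : ℝ)| ≤ ε * x ^ (τ : ℝ) →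
        (b / 2 * ∏ i ∈ J, η i) * (x ^ ((w : ℝ) - τ * I.card) *
          ∏ i ∈ I, ‖(y : ℂ) - psum (p i) x‖) ≤ |bv F x y| + x ^ (-(K : ℝ)) := by
      filter_upwards [lc_lower _ hB, eventually_all.2 hη, eventually_ge_atTop x0,
        eventually_ge_atTop 1, ev_lt (|c| + ε) τ K 1 hτK' one_pos] with x hlc hfx hxx0 hx1 hK y hy
      have hx0 : 0 < x := by linarith
      have hT : 0 < x ^ (τ : ℝ) := by positivity
      have hyK : |y| ≤ x ^ K := by
        have h6 : |y| ≤ |y - c * x ^ (τ : ℝ)| + |c * x ^ (τ : ℝ)| := by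
          have : y = (y - c * x ^ (τ : ℝ)) + c * x ^ (τ : ℝ) := by ring
          conv_lhs => rw [this]
          exact abs_add_le _ _
        rw [abs_mul, abs_of_pos hT] at h6
        rw [Real.rpow_natCast] at hK
        linarith
      have h1 := happ x hxx0 y hyK
      have h2 : ‖(((aeval x F.leadingCoeff : ℝ)) : ℂ) * ∏ i, ((y : ℂ) - psum (p i) x)‖ ≤
          |bv F x y| + x ^ (-(K : ℝ)) := by
        have h3 : (((aeval x F.leadingCoeff : ℝ)) : ℂ) * ∏ i, ((y : ℂ) - psum (p i) x) =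
          ((bv F x y : ℝ) : ℂ) - (((bv F x y : ℝ) : ℂ) - (((aeval x F.leadingCoeff : ℝ)) : ℂ) *
            ∏ i, ((y : ℂ) - psum (p i) x)) := by ring
        rw [h3]
        refine (norm_sub_le _ _).trans ?_
        rw [Complex.norm_real, Real.norm_eq_abs]
        linarith
      rw [norm_mul, norm_prod, Complex.norm_real, Real.norm_eq_abs,
        ← Finset.prod_filter_mul_prod_filter_not Finset.univ
          (fun i => ldw (p i) = τ ∧ p i τ = (c : ℂ))] at h2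
      refine le_trans ?_ h2
      have h4 : ∏ i ∈ J, (η i * x ^ (((max τ (ldw (p i)) : ℚ)) : ℝ)) ≤
          ∏ i ∈ J, ‖(y : ℂ) - psum (p i) x‖ := by
        refine Finset.prod_le_prod (fun i _ => ?_) fun i hi => ?_
        · have := hη0 i
          positivity
        · refine hfx i (Finset.mem_filter.1 hi).2 y (hy.trans ?_)
          exact mul_le_mul_of_nonneg_right (hεi i) hT.le
      have hI0 : 0 ≤ ∏ i ∈ I, ‖(y : ℂ) - psum (p i) x‖ :=
        Finset.prod_nonneg fun i _ => norm_nonneg _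
      have h5 : x ^ ((w : ℝ) - τ * I.card) =
          x ^ F.leadingCoeff.natDegree * ∏ i ∈ J, x ^ (((max τ (ldw (p i)) : ℚ)) : ℝ) := by
        rw [← Real.rpow_sum_of_pos hx0, ← Real.rpow_natCast x F.leadingCoeff.natDegree,
          ← Real.rpow_add hx0]
        congr 1
        have h6 : (∑ i, max τ (ldw (p i)) : ℚ) = τ * I.card + ∑ i ∈ J, max τ (ldw (p i)) := by
          rw [← Finset.sum_filter_add_sum_filter_not Finset.univ
            (fun i => ldw (p i) = τ ∧ p i τ = (c : ℂ))]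
          congr 1
          rw [← hI]
          have h7 : ∀ i ∈ I, max τ (ldw (p i)) = τ := by
            intro i hi
            rw [(Finset.mem_filter.1 hi).2.1, max_self]
          rw [Finset.sum_congr rfl h7, Finset.sum_const, nsmul_eq_mul, mul_comm]
        rw [hww, h6]
        push_cast
        ring
      rw [h5]
      rw [Finset.prod_mul_distrib] at h4
      have hP0 : 0 ≤ ∏ i ∈ J, x ^ (((max τ (ldw (p i)) : ℚ)) : ℝ) :=
        Finset.prod_nonneg fun i _ => by positivity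
      have hη1 : 0 ≤ ∏ i ∈ J, η i := Finset.prod_nonneg fun i _ => (hη0 i).le
      have h8 : b / 2 * x ^ F.leadingCoeff.natDegree *
          ((∏ i ∈ J, η i) * ∏ i ∈ J, x ^ (((max τ (ldw (p i)) : ℚ)) : ℝ)) ≤
          |aeval x F.leadingCoeff| * ∏ i ∈ J, ‖(y : ℂ) - psum (p i) x‖ :=
        mul_le_mul hlc h4 (by positivity) (abs_nonneg _)
      have h9 := mul_le_mul_of_nonneg_right h8 hI0
      refine le_trans (le_of_eq (by ring)) (h9.trans (le_of_eq (by ring)))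
    obtain ⟨x₁, hx₁⟩ := eventually_atTop.1 hev
    have hη1 : 0 < ∏ i ∈ J, η i := Finset.prod_pos fun i _ => hη0 i
    exact ⟨ε, b / 2 * ∏ i ∈ J, η i, max x₁ 1, hε, by positivity, le_max_right _ _,
      fun x hx y hy => hx₁ x ((le_max_left _ _).trans hx) y hy⟩

end Pool.Agent.FPO
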