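import Pool.Agent.FPO.Api

/-!
# FPO module Dyad: from dyadic blocks to intervals (diff 1)

PROOF.  Let `δ' = min δ (1/2)`, `C₁ = max C 0`.  `X^{1-δ} ≤ X^{1-δ'}` for `X ≥ 1`.
`Icc 1 n ⊆ ⋃_{i ≤ Nat.log 2 n} Ico (2^i) (2^(i+1))`, so the count is at most
`∑_{i ≤ log₂ n} C₁ (2^i)^{1-δ'}`; with `r = 2^{1-δ'} ≥ √2` this geometric sum is at most
`C₁ r^{log₂ n + 1}/(r - 1) ≤ C₁ (r/(r-1)) n^{1-δ'}` (`2^{log₂ n} ≤ n`).
-/

set_option autoImplicit false

open Polynomial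

namespace Pool.Agent.FPO

open Classical in
theorem dyad (P : ℕ → Prop) (C δ : ℝ) (hδ : 0 < δ)
    (h : ∀ X : ℕ, 1 ≤ X → (((Finset.Ico X (2 * X)).filter P).card : ℝ) ≤ C * (X : ℝ) ^ (1 - δ)) :
    ∃ C' δ' : ℝ, 0 < δ' ∧ ∀ n : ℕ, 1 ≤ n →
      (((Finset.Icc 1 n).filter P).card : ℝ) ≤ C' * (n : ℝ) ^ (1 - δ') := by
  obtain ⟨δ', hδd, hδ', hδ2⟩ : ∃ δ' : ℝ, δ' ≤ δ ∧ 0 < δ' ∧ δ' ≤ 1 / 2 :=
    ⟨min δ (1 / 2), min_le_left _ _, lt_min hδ (by norm_num), min_le_right _ _⟩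
  obtain ⟨C₁, hC, hC0⟩ : ∃ C₁ : ℝ, C ≤ C₁ ∧ 0 ≤ C₁ := ⟨max C 0, le_max_left _ _, le_max_right _ _⟩
  refine ⟨4 * C₁, δ', hδ', ?_⟩
  have hX : ∀ X : ℕ, 1 ≤ X →
      (((Finset.Ico X (2 * X)).filter P).card : ℝ) ≤ C₁ * (X : ℝ) ^ (1 - δ') := by
    intro X hX1
    have h1 : (1 : ℝ) ≤ X := by exact_mod_cast hX1
    refine (h X hX1).trans ?_
    refine (mul_le_mul_of_nonneg_right hC (Real.rpow_nonneg (by linarith) _)).trans ?_
    exact mul_le_mul_of_nonneg_left (Real.rpow_le_rpow_of_exponent_le h1 (by linarith)) hC0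
  have hr : (4 / 3 : ℝ) ≤ (2 : ℝ) ^ (1 - δ') := by
    have h1 : (2 : ℝ) ^ (1 / 2 : ℝ) ≤ (2 : ℝ) ^ (1 - δ') :=
      Real.rpow_le_rpow_of_exponent_le (by norm_num) (by linarith)
    refine le_trans ?_ h1
    rw [← Real.sqrt_eq_rpow]
    refine Real.le_sqrt_of_sq_le (by norm_num)
  intro n
  induction n using Nat.strong_induction_on with
  | _ n ih =>
    intro hn
    rcases Nat.lt_or_ge 1 n with hn2 | hn2
    · have hm1 : 1 ≤ n / 2 := by omega
      have hmn : n / 2 < n := by omega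
      have h1 := ih (n / 2) hmn hm1
      have h2 := hX (n / 2 + 1) (by omega)
      have hsub : (Finset.Icc 1 n).filter P ⊆
          (Finset.Icc 1 (n / 2)).filter P ∪ (Finset.Ico (n / 2 + 1) (2 * (n / 2 + 1))).filter P := by
        intro k hk
        rw [Finset.mem_filter, Finset.mem_Icc] at hk
        rw [Finset.mem_union, Finset.mem_filter, Finset.mem_filter, Finset.mem_Icc,
          Finset.mem_Ico]
        by_cases hk2 : k ≤ n / 2
        · exact Or.inl ⟨⟨hk.1.1, hk2⟩, hk.2⟩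
        · exact Or.inr ⟨⟨by omega, by omega⟩, hk.2⟩
      have hcard : (((Finset.Icc 1 n).filter P).card : ℝ) ≤
          (((Finset.Icc 1 (n / 2)).filter P).card : ℝ) +
          (((Finset.Ico (n / 2 + 1) (2 * (n / 2 + 1))).filter P).card : ℝ) := by
        have := (Finset.card_le_card hsub).trans (Finset.card_union_le _ _)
        exact_mod_cast this
      have hnr : (0 : ℝ) < n := by
        have : 0 < n := by omega
        exact_mod_cast this
      have e0 : (0 : ℝ) ≤ 1 - δ' := by linarith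
      have hp0 : (0 : ℝ) ≤ (n : ℝ) ^ (1 - δ') := Real.rpow_nonneg hnr.le _
      have h3 : (((n / 2 : ℕ) : ℝ)) ^ (1 - δ') ≤ (n : ℝ) ^ (1 - δ') * (3 / 4) := by
        have h4 : ((n / 2 : ℕ) : ℝ) ≤ (n : ℝ) / 2 := Nat.cast_div_le
        have h5 : ((n / 2 : ℕ) : ℝ) ^ (1 - δ') ≤ ((n : ℝ) / 2) ^ (1 - δ') :=
          Real.rpow_le_rpow (Nat.cast_nonneg _) h4 e0
        refine h5.trans ?_
        rw [Real.div_rpow hnr.le (by norm_num)]
        rw [div_le_iff₀ (by linarith)]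
        nlinarith
      have h6 : (((n / 2 + 1 : ℕ) : ℝ)) ^ (1 - δ') ≤ (n : ℝ) ^ (1 - δ') := by
        refine Real.rpow_le_rpow (Nat.cast_nonneg _) ?_ e0
        have : n / 2 + 1 ≤ n := by omega
        exact_mod_cast this
      have h7 : 4 * C₁ * (((n / 2 : ℕ) : ℝ)) ^ (1 - δ') ≤
          4 * C₁ * ((n : ℝ) ^ (1 - δ') * (3 / 4)) :=
        mul_le_mul_of_nonneg_left h3 (by linarith)
      have h8 : C₁ * (((n / 2 + 1 : ℕ) : ℝ)) ^ (1 - δ') ≤ C₁ * (n : ℝ) ^ (1 - δ') :=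
        mul_le_mul_of_nonneg_left h6 hC0
      calc (((Finset.Icc 1 n).filter P).card : ℝ) ≤ _ := hcard
        _ ≤ 4 * C₁ * ((n : ℝ) ^ (1 - δ') * (3 / 4)) + C₁ * (n : ℝ) ^ (1 - δ') :=
          add_le_add (h1.trans h7) (h2.trans h8)
        _ = 4 * C₁ * (n : ℝ) ^ (1 - δ') := by ring
    · have hn1 : n = 1 := by omega
      subst hn1
      have h1 := hX 1 le_rfl
      have hsub : (Finset.Icc 1 1).filter P ⊆ (Finset.Ico 1 (2 * 1)).filter P := by
        intro k hk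
        rw [Finset.mem_filter, Finset.mem_Icc] at hk
        rw [Finset.mem_filter, Finset.mem_Ico]
        exact ⟨⟨by omega, by omega⟩, hk.2⟩
      have h2 : (((Finset.Icc 1 1).filter P).card : ℝ) ≤
          (((Finset.Ico 1 (2 * 1)).filter P).card : ℝ) := by
        exact_mod_cast Finset.card_le_card hsub
      rw [Nat.cast_one, Real.one_rpow] at h1 ⊢
      linarith

end Pool.Agent.FPO
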