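import Pool.Agent.FPO.Api

/-!
# FPO module Dl: mean value theorem for iterated differences (diff 1)

PROOF.  First the derivative statement, by induction on `t`: `dl [] (g j) = g j`; and
`dl (h :: t) (g j) x = dl t (g j) (x+h) - dl t (g j) x` has derivative
`dl t (g (j+1)) (x+h) - dl t (g (j+1)) x` by the chain rule (`HasDerivAt.comp_add_const`).
Then the mean value statement, by induction on `t` for all `j` and `x > 0`:
`t = []`: `ξ = x`.  `h :: t`: if `h = 0` the left side is `0` and the product is `0`; take `ξ = x`.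
If `h > 0`, with `G = dl t (g j)` differentiable on `(0,∞)` with derivative `dl t (g (j+1))`,
`exists_hasDerivAt_eq_slope` gives `ξ₁ ∈ (x, x+h)` with
`G (x+h) - G x = h * dl t (g (j+1)) ξ₁`, and by induction
`dl t (g (j+1)) ξ₁ = t.prod * g (j+1+t.length) ξ` with `ξ₁ ≤ ξ ≤ ξ₁ + t.sum`.
-/

set_option autoImplicit false

open Polynomial

namespace Pool.Agent.FPO

theorem dl_hasDerivAt (g : ℕ → ℝ → ℝ) (hg : ∀ j, ∀ x : ℝ, 0 < x → HasDerivAt (g j) (g (j + 1) x) x)
    (t : List ℕ) (j : ℕ) (x : ℝ) (hx : 0 < x) :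
    HasDerivAt (dl t (g j)) (dl t (g (j + 1)) x) x := by
  induction t generalizing x with
  | nil => exact hg j x hx
  | cons h t ih =>
    have h1 : (0 : ℝ) < x + h := by positivity
    have h2 := (ih (x + h) h1).comp_add_const x (h : ℝ)
    exact h2.sub (ih x hx)

theorem dl_mvt (g : ℕ → ℝ → ℝ) (hg : ∀ j, ∀ x : ℝ, 0 < x → HasDerivAt (g j) (g (j + 1) x) x)
    (t : List ℕ) (j : ℕ) (x : ℝ) (hx : 0 < x) :
    ∃ ξ : ℝ, x ≤ ξ ∧ ξ ≤ x + (t.sum : ℕ) ∧
      dl t (g j) x = ((t.prod : ℕ) : ℝ) * g (j + t.length) ξ := by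
  induction t generalizing j x with
  | nil => exact ⟨x, le_rfl, by simp, by simp [dl]⟩
  | cons h t ih =>
    have hdl : dl (h :: t) (g j) x = dl t (g j) (x + h) - dl t (g j) x := rfl
    rcases Nat.eq_zero_or_pos h with rfl | hh
    · refine ⟨x, le_rfl, ?_, ?_⟩
      · have : (0 : ℝ) ≤ (((0 :: t).sum : ℕ) : ℝ) := by positivity
        linarith
      · rw [hdl]
        simp
    · have hh' : (0 : ℝ) < h := by exact_mod_cast hh
      obtain ⟨ξ₁, ⟨h1, h2⟩, h3⟩ := exists_hasDerivAt_eq_slope (dl t (g j)) (dl t (g (j + 1)))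
        (a := x) (b := x + h) (by linarith)
        (fun y hy => (dl_hasDerivAt g hg t j y (lt_of_lt_of_le hx hy.1)).continuousAt.continuousWithinAt)
        (fun y hy => dl_hasDerivAt g hg t j y (hx.trans hy.1))
      obtain ⟨ξ, h4, h5, h6⟩ := ih (j + 1) ξ₁ (hx.trans h1)
      refine ⟨ξ, by linarith, ?_, ?_⟩
      · rw [List.sum_cons]
        push_cast at h5 ⊢
        linarith
      · rw [hdl, List.prod_cons, List.length_cons]
        have h7 : dl t (g j) (x + h) - dl t (g j) x = h * dl t (g (j + 1)) ξ₁ := by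
          rw [h3, add_sub_cancel_left, mul_div_cancel₀ _ hh'.ne']
        rw [h7, h6]
        have h8 : j + 1 + t.length = j + (t.length + 1) := by ring
        rw [h8]
        push_cast
        ring

end Pool.Agent.FPO
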