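import Pool.Agent.FPO.Api

/-!
# FPO module LinI: nearly linear functions with a badly approximable slope (diff 1)

PROOF.  Two different elements `a < b` of `A` with `b - a < L`: with `q = b - a`,
`1 ≤ q < L`, `|G b - G a - θ q| ≤ ω`, `|G a - z| ≤ η`, `|G b - z'| ≤ η`, so
`|q θ - (z' - z)| ≤ 2η + ω < μ`, contradicting `hθ`.  Hence each block
`[X + jL, X + (j+1)L)` contains at most one element of `A`; the blocks with
`j < J = (X + L - 1)/L ≤ X/L + 1` cover `[X, 2X)`: the map `a ↦ (a - X)/L` is injective on `A` with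
values in `range J` (if `(a-X)/L = (b-X)/L` then `|a - b| < L`).
-/

set_option autoImplicit false

open Polynomial

namespace Pool.Agent.FPO

theorem lin_block (X L : ℕ) (hX : 1 ≤ X) (hL : 1 ≤ L) (G : ℝ → ℝ) (θ ω η μ : ℝ)
    (hG : ∀ a b : ℕ, X ≤ a → a ≤ b → b < 2 * X → b - a < L →
      |G b - G a - θ * ((b : ℝ) - a)| ≤ ω)
    (hθ : ∀ q : ℕ, 1 ≤ q → q < L → ∀ z : ℤ, μ ≤ |(q : ℝ) * θ - z|) (hμ : 2 * η + ω < μ)
    (A : Finset ℕ) (hA : ∀ a ∈ A, X ≤ a ∧ a < 2 * X ∧ ∃ z : ℤ, |G a - z| ≤ η) :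
    (A.card : ℝ) ≤ (X : ℝ) / L + 1 := by
  have key : ∀ a ∈ A, ∀ b ∈ A, a < b → b - a < L → False := by
    intro a ha b hb hab hL'
    obtain ⟨ha1, ha2, z, hz⟩ := hA a ha
    obtain ⟨hb1, hb2, z', hz'⟩ := hA b hb
    have h1 := hG a b ha1 hab.le hb2 hL'
    have h2 := hθ (b - a) (by omega) hL' (z' - z)
    rw [Nat.cast_sub hab.le] at h2
    push_cast at h2
    have h3 : |((b : ℝ) - a) * θ - (z' - z)| ≤ 2 * η + ω := by
      rw [abs_le] at h1 hz hz' ⊢
      constructor <;> nlinarith [h1.1, h1.2, hz.1, hz.2, hz'.1, hz'.2]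
    linarith
  have hcard : A.card ≤ (X + L - 1) / L := by
    have h1 := Finset.card_le_card_of_injOn (s := A) (t := Finset.range ((X + L - 1) / L))
      (fun a => (a - X) / L) ?_ ?_
    · rwa [Finset.card_range] at h1
    · intro a ha
      obtain ⟨ha1, ha2, -⟩ := hA a ha
      rw [Finset.coe_range, Set.mem_Iio]
      have h2 : (X + L - 1) / L = (X - 1) / L + 1 := by
        have h3 : X + L - 1 = (X - 1) + L := by omega
        rw [h3, Nat.add_div_right _ (by omega)]
      rw [h2]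
      exact Nat.lt_succ_of_le (Nat.div_le_div_right (by omega))
    · intro a ha b hb hab
      simp only at hab
      obtain ⟨ha1, -, -⟩ := hA a ha
      obtain ⟨hb1, -, -⟩ := hA b hb
      have h2 : ∀ u v : ℕ, u / L = v / L → v - u < L := by
        intro u v huv
        have h3 := Nat.div_add_mod u L
        have h4 := Nat.div_add_mod v L
        have h5 := Nat.mod_lt v (show 0 < L by omega)
        rw [← huv] at h4
        omega
      rcases lt_trichotomy a b with h | h | h
      · exact (key a ha b hb h (by have := h2 _ _ hab; omega)).elim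
      · exact h
      · exact (key b hb a ha h (by have := h2 _ _ hab.symm; omega)).elim
  have hLR : (0 : ℝ) < L := by exact_mod_cast hL
  have h1 : ((X + L - 1) / L : ℕ) * L ≤ X + L - 1 := Nat.div_mul_le_self _ _
  have h2 : (((X + L - 1) / L : ℕ) : ℝ) * L ≤ X + L := by
    have h3 : ((X + L - 1) / L : ℕ) * L ≤ X + L := by omega
    exact_mod_cast h3
  have h4 : (A.card : ℝ) ≤ (((X + L - 1) / L : ℕ) : ℝ) := by exact_mod_cast hcard
  have h5 : (((X + L - 1) / L : ℕ) : ℝ) ≤ (X : ℝ) / L + 1 := by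
    rw [← div_self hLR.ne', ← add_div, le_div_iff₀ hLR]
    exact h2
  exact h4.trans h5

end Pool.Agent.FPO
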