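import Pool.Agent.FPO.Api

/-!
# FPO module Liou: Liouville's inequality (diff 1)

PROOF.  `c` is a root of a nonzero integer polynomial `f`
(`IsAlgebraic`, clear denominators: `IsLocalization.integerNormalization`, or
`(isAlgebraic_iff' / IsFractionRing.isAlgebraic_iff ℤ ℚ ℝ)`).  Mathlib's
`Liouville.exists_pos_real_of_irrational_root` gives `A' > 0` with
`1 ≤ (b+1)^(f.natDegree) * (|c - a/(b+1)| * A')` for all `a : ℤ`, `b : ℕ`.  Put `d = f.natDegree`,
`q = b + 1`: `|c - z/q| ≥ 1/(A' q^d)`, so `|q c - z| = q |c - z/q| ≥ 1/(A' q^d)` as `q ≥ 1`.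
-/

set_option autoImplicit false

open Polynomial

namespace Pool.Agent.FPO

theorem liou (c : ℝ) (h : IsAlgebraic ℚ c) (hirr : Irrational c) :
    ∃ (A : ℝ) (d : ℕ), 0 < A ∧ ∀ q : ℕ, 1 ≤ q → ∀ z : ℤ, A / (q : ℝ) ^ d ≤ |(q : ℝ) * c - z| := by
  have h' : IsAlgebraic ℤ c := (IsFractionRing.isAlgebraic_iff ℤ ℚ ℝ).2 h
  obtain ⟨f, hf0, hf⟩ := h'
  have hr : eval c (f.map (algebraMap ℤ ℝ)) = 0 := by
    rw [eval_map_algebraMap]; exact hf
  obtain ⟨A', hA', hL⟩ := Liouville.exists_pos_real_of_irrational_root hirr hf0 hr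
  refine ⟨1 / A', f.natDegree, by positivity, fun q hq z => ?_⟩
  have h1 := hL z (q - 1)
  have hq1 : ((q - 1 : ℕ) : ℝ) + 1 = q := by
    have : ((q - 1 + 1 : ℕ) : ℝ) = q := by rw [Nat.sub_add_cancel hq]
    push_cast at this
    exact this
  rw [hq1] at h1
  have hqp : (1 : ℝ) ≤ q := by exact_mod_cast hq
  have hq0 : (0 : ℝ) < q := by linarith
  have h2 : |(q : ℝ) * c - z| = q * |c - z / q| := by
    rw [← abs_of_pos hq0, ← abs_mul, abs_of_pos hq0]
    congr 1
    field_simp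
  rw [h2, div_div, div_le_iff₀ (by positivity)]
  calc (1 : ℝ) ≤ q ^ f.natDegree * (|c - z / q| * A') := h1
    _ ≤ q * (q ^ f.natDegree * (|c - z / q| * A')) := by
        apply le_mul_of_one_le_left _ hqp
        positivity
    _ = q * |c - z / q| * (A' * q ^ f.natDegree) := by ring

end Pool.Agent.FPO
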