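import Pool.Agent.FPO.Api

/-!
# FPO module PsD: derivatives of real power sums (diff 1)

PROOF.  `rder p j x = ∑_e p_e (∏_{i<j} (e - i)) x^(e-j)` (a finite sum over the support).
`rder_zero`: empty product, `x^(e-0)`.  `rder_hasDerivAt`: termwise
(`HasDerivAt.sum`, `Real.hasDerivAt_rpow_const`, `Finset.prod_range_succ`).
`rder_asymp`: split off the term `e₀` (if `p e₀ = 0` it is zero anyway); all other exponents `e` of
the support satisfy `e < e₀`; let `σ = 1` if there are none, else the minimum of `e₀ - e`.  For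
`x ≥ 1`, `|x^(e-j)| ≤ x^(e₀-j-σ)`.  `C` = the sum of the absolute values of the coefficients.
-/

set_option autoImplicit false

open Polynomial

namespace Pool.Agent.FPO

theorem rder_zero (p : ℚ →₀ ℝ) (x : ℝ) : rder p 0 x = rsum p x := by
  simp [rder, rsum]

theorem rder_hasDerivAt (p : ℚ →₀ ℝ) (j : ℕ) (x : ℝ) (hx : 0 < x) :
    HasDerivAt (rder p j) (rder p (j + 1) x) x := by
  have h1 : rder p j = fun x => ∑ e ∈ p.support,
      p e * (∏ i ∈ Finset.range j, ((e : ℝ) - i)) * x ^ ((e : ℝ) - j) := rfl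
  have h2 : rder p (j + 1) x = ∑ e ∈ p.support,
      p e * (∏ i ∈ Finset.range (j + 1), ((e : ℝ) - i)) * x ^ ((e : ℝ) - ((j + 1 : ℕ) : ℝ)) := rfl
  rw [h1, h2]
  refine HasDerivAt.fun_sum fun e _ => ?_
  have h3 := (Real.hasDerivAt_rpow_const (x := x) (p := (e : ℝ) - j) (Or.inl hx.ne')).const_mul
    (p e * (∏ i ∈ Finset.range j, ((e : ℝ) - i)))
  refine h3.congr_deriv ?_
  rw [Finset.prod_range_succ]
  have h4 : (e : ℝ) - j - 1 = (e : ℝ) - ((j + 1 : ℕ) : ℝ) := by push_cast; ring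
  rw [h4]
  ring

theorem PsD.gap (S : Finset ℚ) (e₀ : ℚ) (h : ∀ e ∈ S, e < e₀) :
    ∃ σ : ℝ, 0 < σ ∧ ∀ e ∈ S, (e : ℝ) + σ ≤ e₀ := by
  classical
  induction S using Finset.induction_on with
  | empty => exact ⟨1, one_pos, by simp⟩
  | insert a S _ ih =>
    obtain ⟨σ, hσ, h1⟩ := ih fun e he => h e (Finset.mem_insert_of_mem he)
    have h2 : (a : ℝ) < e₀ := by exact_mod_cast h a (Finset.mem_insert_self _ _)
    refine ⟨min σ ((e₀ : ℝ) - a), lt_min hσ (by linarith), fun e he => ?_⟩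
    rcases Finset.mem_insert.1 he with rfl | he
    · have := min_le_right σ ((e₀ : ℝ) - e)
      linarith
    · have := min_le_left σ ((e₀ : ℝ) - a)
      have := h1 e he
      linarith

theorem rder_asymp (p : ℚ →₀ ℝ) (e₀ : ℚ) (hlead : ∀ e, e₀ < e → p e = 0) (j : ℕ) :
    ∃ C σ : ℝ, 0 < σ ∧ 0 ≤ C ∧ ∀ x : ℝ, 1 ≤ x →
      |rder p j x - p e₀ * (∏ i ∈ Finset.range j, ((e₀ : ℝ) - i)) * x ^ ((e₀ : ℝ) - j)| ≤
        C * x ^ ((e₀ : ℝ) - j - σ) := by
  classical
  obtain ⟨σ, hσ, h1⟩ := PsD.gap (p.support.erase e₀) e₀ (by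
    intro e he
    rw [Finset.mem_erase, Finsupp.mem_support_iff] at he
    rcases lt_trichotomy e e₀ with h | h | h
    · exact h
    · exact absurd h he.1
    · exact absurd (hlead e h) he.2)
  refine ⟨∑ e ∈ p.support.erase e₀, |p e * (∏ i ∈ Finset.range j, ((e : ℝ) - i))|, σ, hσ,
    Finset.sum_nonneg fun _ _ => abs_nonneg _, fun x hx => ?_⟩
  have hx0 : 0 < x := one_pos.trans_le hx
  have h2 : rder p j x = ∑ e ∈ insert e₀ p.support,
      p e * (∏ i ∈ Finset.range j, ((e : ℝ) - i)) * x ^ ((e : ℝ) - j) := by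
    refine Finset.sum_subset (Finset.subset_insert _ _) fun e _ he => ?_
    rw [Finsupp.notMem_support_iff.1 he]
    ring
  have h3 : rder p j x - p e₀ * (∏ i ∈ Finset.range j, ((e₀ : ℝ) - i)) * x ^ ((e₀ : ℝ) - j) =
      ∑ e ∈ p.support.erase e₀, p e * (∏ i ∈ Finset.range j, ((e : ℝ) - i)) *
        x ^ ((e : ℝ) - j) := by
    rw [h2, ← Finset.add_sum_erase _ _ (Finset.mem_insert_self e₀ p.support),
      Finset.erase_insert_eq_erase]
    ring
  rw [h3, Finset.sum_mul]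
  refine (Finset.abs_sum_le_sum_abs _ _).trans (Finset.sum_le_sum fun e he => ?_)
  rw [abs_mul]
  refine mul_le_mul_of_nonneg_left ?_ (abs_nonneg _)
  rw [abs_of_pos (Real.rpow_pos_of_pos hx0 _)]
  exact Real.rpow_le_rpow_of_exponent_le hx (by have := h1 e he; linarith)

end Pool.Agent.FPO
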