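import Pool.Agent.FPO.StepK
import Pool.Agent.FPO.Dl
import Pool.Agent.FPO.PsD
import Pool.Agent.FPO.LinI
import Pool.Agent.FPO.Liou

/-!
# FPO module EqII: power sums with leading term `c x^{k+1}`, `c` algebraic irrational (diff 2)

PROOF.  Let `c = p e₀`, `e₀ = k + 1`.  `liou` gives `A > 0`, `d` with `A/q^d ≤ |q c - z|`.
`rder_asymp` with `j = k+1` gives `C, σ > 0` with
`|rder p (k+1) ξ - c (k+1)!| ≤ C ξ^{-σ}` for `ξ ≥ 1` (`∏_{i<k+1} (k+1-i) = (k+1)!`, exponent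
`e₀ - (k+1) = 0`).  Put `ε = min 1 (min κ σ) / (4 (k+1) (d+1))`.
We verify the hypothesis of `stepk` for `g = rsum p = rder p 0`.  Let `X` be large, `t` a list of
length `k` with entries in `[1, X^ε]`, `Π = t.prod ∈ [1, X^{kε}]`, `G = dl t g`,
`θ = Π c (k+1)!`, `L = ⌊X^ε⌋₊` (`X^ε/2 ≤ L ≤ X^ε`).  For `X ≤ a ≤ b < 2X`, `b - a < L`, the mean
value theorem, `dl_hasDerivAt` and `dl_mvt` give `G b - G a = (b - a) Π rder p (k+1) ξ`, `ξ ≥ X`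
(trivial if `a = b`), so `|G b - G a - θ (b-a)| ≤ L Π C X^{-σ} ≤ C X^{(k+1)ε - σ} =: ω`.
For `1 ≤ q < L` and an integer `z`: `q θ = Q c`, `Q = q Π (k+1)!` a positive integer
`≤ (k+1)! X^{(k+1)ε}`, so `|q θ - z| ≥ A/Q^d ≥ A' X^{-(k+1)dε} =: μ`, `A' = A/((k+1)!)^d`.
With `η = 2^k X^{-κ}`: `2η + ω < μ` for `X` large, since `(k+1)dε < κ/2`, and
`(k+1)ε + (k+1)dε < σ/2`.  `lin_block` gives `nc ≤ X/L + 1 ≤ 2 X^{1-ε} + 1 ≤ 3 X^{1-ε}`.
-/

set_option autoImplicit false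

open Polynomial

namespace Pool.Agent.FPO

private theorem EqII_list (Y : ℝ) (hY : 0 ≤ Y) (t : List ℕ) (ht : ∀ h ∈ t, 1 ≤ h ∧ (h : ℝ) ≤ Y) :
    1 ≤ t.prod ∧ ((t.prod : ℕ) : ℝ) ≤ Y ^ t.length := by
  induction t with
  | nil => simp
  | cons a t ih =>
    obtain ⟨h1, h2⟩ := ih (fun h hh => ht h (List.mem_cons_of_mem _ hh))
    obtain ⟨h4, h5⟩ := ht a List.mem_cons_self
    rw [List.prod_cons, List.length_cons]
    refine ⟨?_, ?_⟩
    · exact Nat.one_le_iff_ne_zero.2 (Nat.mul_ne_zero (by omega) (by omega))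
    · rw [Nat.cast_mul, pow_succ, mul_comm]
      exact mul_le_mul h2 h5 (by positivity) (by positivity)

private theorem EqII_nc_eq (g : ℝ → ℝ) (X : ℕ) (η : ℝ) : nc g X η =
    (@Finset.filter ℕ (fun a : ℕ => ∃ z : ℤ, |g a - z| ≤ η) (Classical.decPred _)
      (Finset.Ico X (2 * X))).card := by
  classical
  unfold nc
  rw [← Finset.card_image_of_injective (f := fun a : ℕ => (a : ℝ)) _ Nat.cast_injective]
  congr 1
  ext y
  simp only [Finset.mem_filter, Finset.mem_image, Finset.bind_def, Finset.mem_sup, Finset.pure_def,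
    Finset.mem_singleton, Finset.mem_Ico]
  constructor
  · rintro ⟨⟨a, ha, rfl⟩, hz⟩
    exact ⟨a, ⟨ha, hz⟩, rfl⟩
  · rintro ⟨a, ⟨ha, hz⟩, rfl⟩
    exact ⟨⟨a, ha, rfl⟩, hz⟩

private theorem EqII_fact (k : ℕ) :
    ∏ i ∈ Finset.range (k + 1), (((k : ℝ) + 1) - i) = ((Nat.factorial (k + 1) : ℕ) : ℝ) := by
  rw [← Finset.prod_range_add_one_eq_factorial, Nat.cast_prod]
  rw [← Finset.prod_range_reflect (fun j => (((j + 1 : ℕ) : ℝ))) (k + 1)]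
  apply Finset.prod_congr rfl
  intro i hi
  rw [Finset.mem_range] at hi
  have h1 : k + 1 - 1 - i + 1 = k + 1 - i := by omega
  rw [h1, Nat.cast_sub (by omega)]
  push_cast
  ring

theorem eqII (p : ℚ →₀ ℝ) (e₀ : ℚ) (k : ℕ) (he₀ : e₀ = k + 1) (hp : Irrational (p e₀))
    (halg : IsAlgebraic ℚ (p e₀)) (hlead : ∀ e, e₀ < e → p e = 0) (κ : ℝ) (hκ : 0 < κ) :
    ∃ C δ : ℝ, 0 < δ ∧ ∀ X : ℕ, 1 ≤ X →
      (nc (rsum p) X ((X : ℝ) ^ (-κ)) : ℝ) ≤ C * (X : ℝ) ^ (1 - δ) := by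
  classical
  obtain ⟨A, d, hA, hL⟩ := liou (p e₀) halg hp
  set c := p e₀ with hc
  obtain ⟨C₁, σ, hσ, hC₁, has⟩ := rder_asymp p e₀ hlead (k + 1)
  have he₀' : (e₀ : ℝ) = (k : ℝ) + 1 := by rw [he₀]; push_cast; ring
  set F : ℝ := ((Nat.factorial (k + 1) : ℕ) : ℝ) with hF
  have hF1 : 1 ≤ F := by rw [hF]; exact_mod_cast Nat.factorial_pos (k + 1)
  have has' : ∀ x : ℝ, 1 ≤ x → |rder p (k + 1) x - c * F| ≤ C₁ * x ^ (-σ) := by
    intro x hx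
    have h1 := has x hx
    rw [he₀', EqII_fact, ← hF, ← hc] at h1
    have h2 : (k : ℝ) + 1 - ((k + 1 : ℕ) : ℝ) = 0 := by push_cast; ring
    rw [h2, Real.rpow_zero, mul_one, zero_sub] at h1
    exact h1
  set m : ℝ := min 1 (min κ σ) with hm
  have hm0 : 0 < m := lt_min one_pos (lt_min hκ hσ)
  have hm1 : m ≤ 1 := min_le_left _ _
  have hmκ : m ≤ κ := (min_le_right _ _).trans (min_le_left _ _)
  have hmσ : m ≤ σ := (min_le_right _ _).trans (min_le_right _ _)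
  set ε : ℝ := m / (4 * ((k : ℝ) + 1) * ((d : ℝ) + 1)) with hε
  have hk0 : (0 : ℝ) ≤ k := Nat.cast_nonneg k
  have hd0 : (0 : ℝ) ≤ d := Nat.cast_nonneg d
  have hε0 : 0 < ε := by rw [hε]; positivity
  have hkey : ((k : ℝ) + 1) * ((d : ℝ) + 1) * ε = m / 4 := by
    rw [hε]; field_simp
  have hε1 : ε ≤ 1 := by
    have h1 : ε ≤ ((k : ℝ) + 1) * ((d : ℝ) + 1) * ε := by
      apply le_mul_of_one_le_left hε0.le
      nlinarith
    linarith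
  have hkd : ((k : ℝ) + 1) * d * ε ≤ m / 4 := by
    nlinarith
  -- large x
  have hev : ∀ᶠ x : ℝ in Filter.atTop,
      2 * 2 ^ k * x ^ (-(κ - ((k : ℝ) + 1) * d * ε)) + C₁ * x ^ (-(σ - m / 4)) < A / F ^ d := by
    have h1 : Filter.Tendsto (fun x : ℝ => 2 * 2 ^ k * x ^ (-(κ - ((k : ℝ) + 1) * d * ε)) +
        C₁ * x ^ (-(σ - m / 4))) Filter.atTop (nhds (2 * 2 ^ k * 0 + C₁ * 0)) :=
      ((tendsto_rpow_neg_atTop (by linarith)).const_mul _).add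
        ((tendsto_rpow_neg_atTop (by linarith)).const_mul _)
    rw [mul_zero, mul_zero, add_zero] at h1
    exact h1.eventually (gt_mem_nhds (by positivity))
  obtain ⟨x1, hx1⟩ := Filter.eventually_atTop.1 hev
  refine stepk (rsum p) k ε ε κ 3 hε0 hε1 hε0 (max ⌈x1⌉₊ 1) ?_
  intro X hX t htl ht
  have hXx1 : x1 ≤ (X : ℝ) := by
    have h1 : ⌈x1⌉₊ ≤ X := (le_max_left _ _).trans hX
    exact (Nat.le_ceil x1).trans (by exact_mod_cast h1)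
  have hX1 : 1 ≤ X := (le_max_right _ _).trans hX
  have hx1' : (1 : ℝ) ≤ (X : ℝ) := by exact_mod_cast hX1
  have hx0 : (0 : ℝ) < (X : ℝ) := by linarith
  obtain ⟨hP1, hP2⟩ := EqII_list ((X : ℝ) ^ ε) (by positivity) t ht
  rw [htl] at hP2
  have hP1' : (1 : ℝ) ≤ ((t.prod : ℕ) : ℝ) := by exact_mod_cast hP1
  have hY1 : 1 ≤ (X : ℝ) ^ ε := Real.one_le_rpow hx1' hε0.le
  have hL1 : 1 ≤ ⌊(X : ℝ) ^ ε⌋₊ := by
    rw [Nat.one_le_floor_iff]; exact hY1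
  have hL2 : ((⌊(X : ℝ) ^ ε⌋₊ : ℕ) : ℝ) ≤ (X : ℝ) ^ ε := Nat.floor_le (by positivity)
  have hL3 : (X : ℝ) ^ ε ≤ 2 * ((⌊(X : ℝ) ^ ε⌋₊ : ℕ) : ℝ) := by
    have h1 : (X : ℝ) ^ ε < ((⌊(X : ℝ) ^ ε⌋₊ : ℕ) : ℝ) + 1 := Nat.lt_floor_add_one _
    have h2 : (1 : ℝ) ≤ ((⌊(X : ℝ) ^ ε⌋₊ : ℕ) : ℝ) := by exact_mod_cast hL1
    linarith
  have hYk : ((X : ℝ) ^ ε) ^ k * (X : ℝ) ^ ε = (X : ℝ) ^ (((k : ℝ) + 1) * ε) := by
    rw [← pow_succ, ← Real.rpow_natCast, ← Real.rpow_mul hx0.le]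
    congr 1
    push_cast
    ring
  rw [EqII_nc_eq]
  have hblock := lin_block X ⌊(X : ℝ) ^ ε⌋₊ hX1 hL1 (dl t (rsum p))
    (((t.prod : ℕ) : ℝ) * (c * F)) (C₁ * (X : ℝ) ^ (((k : ℝ) + 1) * ε - σ))
    (2 ^ k * (X : ℝ) ^ (-κ)) (A / F ^ d * (X : ℝ) ^ (-(((k : ℝ) + 1) * d * ε))) ?_ ?_ ?_
    (@Finset.filter ℕ (fun a : ℕ => ∃ z : ℤ, |dl t (rsum p) a - z| ≤ 2 ^ k * (X : ℝ) ^ (-κ))
      (Classical.decPred _) (Finset.Ico X (2 * X))) ?_
  · refine hblock.trans ?_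
    have h1 : (X : ℝ) / ((⌊(X : ℝ) ^ ε⌋₊ : ℕ) : ℝ) ≤ 2 * (X : ℝ) ^ (1 - ε) := by
      rw [div_le_iff₀ (by exact_mod_cast hL1)]
      have h2 : (X : ℝ) = (X : ℝ) ^ (1 - ε) * (X : ℝ) ^ ε := by
        rw [← Real.rpow_add hx0, sub_add_cancel, Real.rpow_one]
      calc (X : ℝ) = (X : ℝ) ^ (1 - ε) * (X : ℝ) ^ ε := h2
        _ ≤ (X : ℝ) ^ (1 - ε) * (2 * ((⌊(X : ℝ) ^ ε⌋₊ : ℕ) : ℝ)) :=
            mul_le_mul_of_nonneg_left hL3 (by positivity)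
        _ = 2 * (X : ℝ) ^ (1 - ε) * ((⌊(X : ℝ) ^ ε⌋₊ : ℕ) : ℝ) := by ring
    have h3 : 1 ≤ (X : ℝ) ^ (1 - ε) := Real.one_le_rpow hx1' (by linarith)
    linarith
  · intro a b ha hab hb hlt
    rcases hab.eq_or_lt with rfl | hab'
    · rw [sub_self, sub_self, mul_zero, sub_zero, abs_zero]
      positivity
    · have haX : (X : ℝ) ≤ (a : ℝ) := by exact_mod_cast ha
      have hab2 : (a : ℝ) < (b : ℝ) := by exact_mod_cast hab'
      have hder : ∀ y : ℝ, 0 < y → HasDerivAt (dl t (rsum p)) (dl t (rder p 1) y) y := by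
        intro y hy
        have h1 := dl_hasDerivAt (rder p) (fun j x hx => rder_hasDerivAt p j x hx) t 0 y hy
        have h2 : rder p 0 = rsum p := funext fun y => rder_zero p y
        rw [h2] at h1
        exact h1
      obtain ⟨y, ⟨hy1, hy2⟩, hy⟩ := exists_hasDerivAt_eq_slope (dl t (rsum p))
        (dl t (rder p 1)) hab2
        (fun y hy => (hder y (by have := hy.1; linarith)).continuousAt.continuousWithinAt)
        (fun y hy => hder y (by have := hy.1; linarith))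
      obtain ⟨ξ, h1, -, h3⟩ := dl_mvt (rder p) (fun j x hx => rder_hasDerivAt p j x hx) t 1 y
        (by linarith)
      rw [htl, add_comm 1 k] at h3
      have hξ : (X : ℝ) ≤ ξ := by linarith
      have hba : 0 < (b : ℝ) - a := by linarith
      have h4 : dl t (rsum p) b - dl t (rsum p) a =
          ((t.prod : ℕ) : ℝ) * rder p (k + 1) ξ * ((b : ℝ) - a) := by
        rw [← h3, hy]
        field_simp
      have h5 : dl t (rsum p) b - dl t (rsum p) a - ((t.prod : ℕ) : ℝ) * (c * F) * ((b : ℝ) - a) =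
          ((t.prod : ℕ) : ℝ) * ((b : ℝ) - a) * (rder p (k + 1) ξ - c * F) := by
        rw [h4]; ring
      rw [h5, abs_mul, abs_of_nonneg (by positivity)]
      have h6 := has' ξ (by linarith)
      have h7 : ξ ^ (-σ) ≤ (X : ℝ) ^ (-σ) :=
        Real.rpow_le_rpow_of_nonpos hx0 hξ (by linarith)
      have h8 : (b : ℝ) - a ≤ (X : ℝ) ^ ε := by
        have h9 : ((b - a : ℕ) : ℝ) ≤ ((⌊(X : ℝ) ^ ε⌋₊ : ℕ) : ℝ) := by exact_mod_cast hlt.le
        rw [Nat.cast_sub hab] at h9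
        linarith
      calc ((t.prod : ℕ) : ℝ) * ((b : ℝ) - a) * |rder p (k + 1) ξ - c * F|
          ≤ (((X : ℝ) ^ ε) ^ k * (X : ℝ) ^ ε) * (C₁ * (X : ℝ) ^ (-σ)) := by
            apply mul_le_mul (mul_le_mul hP2 h8 hba.le (by positivity)) _ (abs_nonneg _)
              (by positivity)
            exact h6.trans (mul_le_mul_of_nonneg_left h7 hC₁)
        _ = C₁ * (X : ℝ) ^ (((k : ℝ) + 1) * ε - σ) := by
            rw [hYk, sub_eq_add_neg, Real.rpow_add hx0]; ring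
  · intro q hq1 hq2 z
    have h1 := hL (q * t.prod * Nat.factorial (k + 1)) (by
      have := Nat.factorial_pos (k + 1)
      exact Nat.one_le_iff_ne_zero.2 (Nat.mul_ne_zero (Nat.mul_ne_zero (by omega) (by omega))
        (by omega))) z
    have h2 : (((q * t.prod * Nat.factorial (k + 1) : ℕ)) : ℝ) =
        (q : ℝ) * ((t.prod : ℕ) : ℝ) * F := by
      rw [Nat.cast_mul, Nat.cast_mul]
    rw [h2] at h1
    have h3 : (q : ℝ) * (((t.prod : ℕ) : ℝ) * (c * F)) = (q : ℝ) * ((t.prod : ℕ) : ℝ) * F * c := by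
      ring
    rw [h3]
    refine le_trans ?_ h1
    have hq3 : (q : ℝ) ≤ (X : ℝ) ^ ε := by
      have h9 : ((q : ℕ) : ℝ) ≤ ((⌊(X : ℝ) ^ ε⌋₊ : ℕ) : ℝ) := by exact_mod_cast hq2.le
      linarith
    have hq0 : (1 : ℝ) ≤ (q : ℝ) := by exact_mod_cast hq1
    have h4 : (q : ℝ) * ((t.prod : ℕ) : ℝ) * F ≤ F * (X : ℝ) ^ (((k : ℝ) + 1) * ε) := by
      rw [← hYk]
      calc (q : ℝ) * ((t.prod : ℕ) : ℝ) * F ≤ ((X : ℝ) ^ ε) * ((X : ℝ) ^ ε) ^ k * F :=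
            mul_le_mul_of_nonneg_right (mul_le_mul hq3 hP2 (by positivity) (by positivity))
              (by positivity)
        _ = F * (((X : ℝ) ^ ε) ^ k * (X : ℝ) ^ ε) := by ring
    have h5 : 0 < (q : ℝ) * ((t.prod : ℕ) : ℝ) * F := by positivity
    have h6 : A / F ^ d * (X : ℝ) ^ (-(((k : ℝ) + 1) * d * ε)) =
        A / (F * (X : ℝ) ^ (((k : ℝ) + 1) * ε)) ^ d := by
      rw [Real.rpow_neg hx0.le, mul_pow, ← Real.rpow_natCast ((X : ℝ) ^ (((k : ℝ) + 1) * ε)) d,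
        ← Real.rpow_mul hx0.le]
      rw [show ((k : ℝ) + 1) * d * ε = ((k : ℝ) + 1) * ε * d by ring]
      field_simp
    rw [h6]
    apply div_le_div_of_nonneg_left hA.le (by positivity)
    exact pow_le_pow_left₀ h5.le h4 d
  · have h1 := hx1 (X : ℝ) hXx1
    have h2 : 0 < (X : ℝ) ^ (-(((k : ℝ) + 1) * d * ε)) := by positivity
    have h3 : 2 * (2 ^ k * (X : ℝ) ^ (-κ)) = 2 * 2 ^ k *
        (X : ℝ) ^ (-(κ - ((k : ℝ) + 1) * d * ε)) * (X : ℝ) ^ (-(((k : ℝ) + 1) * d * ε)) := by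
      rw [mul_assoc (2 * 2 ^ k), ← Real.rpow_add hx0]
      rw [show -(κ - ((k : ℝ) + 1) * d * ε) + -(((k : ℝ) + 1) * d * ε) = -κ by ring]
      ring
    have h4 : C₁ * (X : ℝ) ^ (((k : ℝ) + 1) * ε - σ) = C₁ * (X : ℝ) ^ (-(σ - m / 4)) *
        (X : ℝ) ^ (-(((k : ℝ) + 1) * d * ε)) := by
      rw [mul_assoc, ← Real.rpow_add hx0]
      congr 2
      rw [← hkey]; ring
    rw [h3, h4, ← add_mul]
    exact mul_lt_mul_of_pos_right h1 h2
  · intro a ha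
    rw [Finset.mem_filter, Finset.mem_Ico] at ha
    exact ⟨ha.1.1, ha.1.2, ha.2⟩

end Pool.Agent.FPO
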