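import Pool.Agent.FPO.EqI
import Pool.Agent.FPO.EqII
import Pool.Agent.FPO.Dyad

/-!
# FPO module Equi: rational points near an irregular Puiseux polynomial (diff 3)

PROOF.  Split `p = q + p₁`, `q = ∑_{e > e₀} p_e x^e` (`Finsupp.filter`), `p₁` the rest.  By `hreg`
every term of `q` is `r x^k` with `r` rational, `k` natural, so there is `D₁ ≥ 1` with
`D₁ * rsum q (a/D) ∈ ℤ` for all naturals `a` (`D₁ = D^K * ∏ denominators`, `K` a bound for the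
exponents).  Put `M = D * D₁`.  If `|b/D - rsum p (a/D)| ≤ A (a/D)^{-κ}`, then
`M b/D - M rsum q (a/D)` is an integer `z` and `|z - M rsum p₁ (a/D)| ≤ M A (a/D)^{-κ}`, which is
`≤ a^{-κ/2}` for `a ≥ a₀`.  Now `M rsum p₁ (a/D) = rsum p' a` with
`p'_e = M D^{-e} p_e` for `e ≤ e₀` (real powers of `D > 0`; `(a/D)^e = a^e D^{-e}`), a power sum with
leading exponent `e₀`, `p'_{e₀} = M D^{-e₀} p_{e₀} ≠ 0`.
If `e₀` is not an integer, apply `eqI` to `p'`, `κ/2`.  If `e₀` is an integer it is `k + 1`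
(`e₀ > 0`), `p_{e₀}` is irrational (`hirr`), and `p'_{e₀} = (M/D^{k+1}) p_{e₀}` is irrational and
algebraic: apply `eqII`.  Since for `a ∈ [X, 2X)`, `a^{-κ/2} ≤ X^{-κ/2}`, the number of
`a ∈ [X,2X)`, `a ≥ a₀`, with the property is at most `C X^{1-δ}`; for all `X ≥ 1` the number of
`a ∈ [X, 2X)` with the property is then at most `C X^{1-δ} + a₀ ≤ (C + a₀) X^{1-δ}` if
`δ ≤ 1` (may assume).  `dyad` finishes.
-/

set_option autoImplicit false

open Polynomial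

namespace Pool.Agent.FPO

namespace Equi

theorem int_part (p : ℚ →₀ ℝ) (D : ℕ) (hD : 0 < D) (s : Finset ℚ)
    (hs : ∀ e ∈ s, ∃ (k : ℕ) (r : ℚ), e = k ∧ p e = r) :
    ∃ D₁ : ℕ, 0 < D₁ ∧ ∀ a : ℕ, ∃ z : ℤ,
      (D₁ : ℝ) * ∑ e ∈ s, p e * ((a : ℝ) / D) ^ (e : ℝ) = z := by
  classical
  induction s using Finset.induction_on with
  | empty => exact ⟨1, one_pos, fun a => ⟨0, by simp⟩⟩
  | insert e s he ih =>
    obtain ⟨D₁, hD₁, h1⟩ := ih (fun e' he' => hs e' (Finset.mem_insert_of_mem he'))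
    obtain ⟨k, r, hk, hr⟩ := hs e (Finset.mem_insert_self _ _)
    refine ⟨D₁ * (r.den * D ^ k), by have := r.den_pos; positivity, ?_⟩
    intro a
    obtain ⟨z, hz⟩ := h1 a
    refine ⟨D₁ * (r.num * a ^ k) + (r.den * D ^ k) * z, ?_⟩
    rw [Finset.sum_insert he]
    have hD' : (D : ℝ) ≠ 0 := by positivity
    have h2 : ((a : ℝ) / D) ^ (e : ℝ) = (a : ℝ) ^ k / (D : ℝ) ^ k := by
      rw [hk]
      have h3 : (((k : ℚ) : ℝ)) = (k : ℝ) := by push_cast; rfl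
      rw [h3, Real.rpow_natCast, div_pow]
    have h3 : (r.den : ℝ) * (r : ℝ) = r.num := by
      have h4 : (r : ℝ) = (r.num : ℝ) / (r.den : ℝ) := by
        exact_mod_cast (Rat.num_div_den r).symm
      have h5 : (r.den : ℝ) ≠ 0 := by exact_mod_cast r.den_pos.ne'
      rw [h4]
      field_simp
    rw [h2, hr]
    push_cast
    calc (D₁ : ℝ) * (r.den * (D : ℝ) ^ k) * ((r : ℝ) * ((a : ℝ) ^ k / (D : ℝ) ^ k) +
          ∑ x ∈ s, p x * ((a : ℝ) / D) ^ (x : ℝ)) =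
        D₁ * ((r.den * r) * (a : ℝ) ^ k) * ((D : ℝ) ^ k / (D : ℝ) ^ k) + (r.den * (D : ℝ) ^ k) *
          (D₁ * ∑ x ∈ s, p x * ((a : ℝ) / D) ^ (x : ℝ)) := by ring
      _ = (D₁ : ℝ) * (r.num * (a : ℝ) ^ k) + r.den * (D : ℝ) ^ k * z := by
        rw [hz, h3, div_self (pow_ne_zero k hD'), mul_one]

open Classical in
theorem nc_eq (g : ℝ → ℝ) (X : ℕ) (η : ℝ) : nc g X η =
    ((Finset.Ico X (2 * X)).filter fun a : ℕ => ∃ z : ℤ, |g a - z| ≤ η).card := by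
  unfold nc
  have h : (do
          let a ← Finset.Ico X (2 * X)
          pure (a : ℝ) : Finset ℝ) = (Finset.Ico X (2 * X)).image (fun a : ℕ => (a : ℝ)) := by
    ext x
    simp
  rw [h, Finset.filter_image, Finset.card_image_of_injective _ Nat.cast_injective]

end Equi

open Equi in
open Classical in
theorem equi (p : ℚ →₀ ℝ) (e₀ : ℚ) (he₀ : 0 < e₀) (hp : p e₀ ≠ 0) (halg : IsAlgebraic ℚ (p e₀))
    (hirr : Irreg e₀ (p e₀))
    (hreg : ∀ e, e₀ < e → p e ≠ 0 → ∃ (k : ℕ) (r : ℚ), e = k ∧ p e = r)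
    (D : ℕ) (hD : 0 < D) (A κ : ℝ) (hκ : 0 < κ) :
    ∃ C δ : ℝ, 0 < δ ∧ ∀ n : ℕ, 1 ≤ n →
      (((Finset.Icc 1 n).filter fun a : ℕ => ∃ b : ℤ,
        |(b : ℝ) / D - rsum p ((a : ℝ) / D)| ≤ A * ((a : ℝ) / D) ^ (-κ)).card : ℝ) ≤
        C * (n : ℝ) ^ (1 - δ) := by
  have hD0 : (0 : ℝ) < D := by exact_mod_cast hD
  obtain ⟨D₁, hD₁, hint⟩ := int_part p D hD (p.support.filter fun e => e₀ < e) (by
    intro e he
    rw [Finset.mem_filter, Finsupp.mem_support_iff] at he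
    exact hreg e he.2 he.1)
  have hD₁0 : (0 : ℝ) < D₁ := by exact_mod_cast hD₁
  obtain ⟨M, hM⟩ : ∃ M : ℝ, M = (D : ℝ) * D₁ := ⟨_, rfl⟩
  have hM0 : 0 < M := by rw [hM]; positivity
  -- the power sum `p'`
  let p' : ℚ →₀ ℝ := Finsupp.onFinset (p.support.filter fun e => ¬ e₀ < e)
    (fun e => if e₀ < e then 0 else M * (D : ℝ) ^ (-(e : ℝ)) * p e) (by
      intro e he
      by_cases h1 : e₀ < e
      · rw [if_pos h1] at he
        exact absurd rfl he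
      · rw [if_neg h1] at he
        rw [Finset.mem_filter, Finsupp.mem_support_iff]
        exact ⟨right_ne_zero_of_mul he, h1⟩)
  have hp'v : ∀ e, p' e = if e₀ < e then 0 else M * (D : ℝ) ^ (-(e : ℝ)) * p e := fun e => rfl
  have hp'sum : ∀ a : ℕ, rsum p' a = M * ∑ e ∈ p.support.filter (fun e => ¬ e₀ < e),
      p e * ((a : ℝ) / D) ^ (e : ℝ) := by
    intro a
    rw [rsum_eq_sum (J := p.support.filter fun e => ¬ e₀ < e) Finsupp.support_onFinset_subset,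
      Finset.mul_sum]
    apply Finset.sum_congr rfl
    intro e he
    rw [Finset.mem_filter] at he
    rw [hp'v, if_neg he.2, Real.div_rpow (Nat.cast_nonneg a) hD0.le, Real.rpow_neg hD0.le]
    field_simp
  have hlead : ∀ e, e₀ < e → p' e = 0 := fun e he => by rw [hp'v, if_pos he]
  have hp'0 : p' e₀ = M * (D : ℝ) ^ (-(e₀ : ℝ)) * p e₀ := by rw [hp'v, if_neg (lt_irrefl _)]
  have hp'ne : p' e₀ ≠ 0 := by
    rw [hp'0]
    exact mul_ne_zero (mul_ne_zero hM0.ne' (Real.rpow_pos_of_pos hD0 _).ne') hp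
  have hκ2 : 0 < κ / 2 := by linarith
  obtain ⟨C, δ, hδ, hC⟩ : ∃ C δ : ℝ, 0 < δ ∧ ∀ X : ℕ, 1 ≤ X →
      (nc (rsum p') X ((X : ℝ) ^ (-(κ / 2))) : ℝ) ≤ C * (X : ℝ) ^ (1 - δ) := by
    by_cases hni : ∀ k : ℤ, e₀ ≠ k
    · exact eqI p' e₀ hp'ne hlead he₀ hni (κ / 2) hκ2
    · have hi : Irrational (p e₀) := by
        rcases hirr with h | h
        · exact absurd h hni
        · exact h
      push Not at hni
      obtain ⟨k, hk⟩ := hni
      have hk0 : 0 < k := by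
        rw [hk] at he₀
        exact_mod_cast he₀
      obtain ⟨m, rfl⟩ : ∃ m : ℕ, k = (m : ℤ) + 1 := ⟨(k - 1).toNat, by omega⟩
      have hk' : e₀ = (m : ℚ) + 1 := by rw [hk]; push_cast; rfl
      have hq : M * (D : ℝ) ^ (-(e₀ : ℝ)) = (((D : ℚ) * D₁ / (D : ℚ) ^ (m + 1) : ℚ) : ℝ) := by
        have h1 : ((e₀ : ℚ) : ℝ) = ((m + 1 : ℕ) : ℝ) := by
          rw [hk']
          push_cast
          rfl
        rw [hM, Real.rpow_neg hD0.le, h1, Real.rpow_natCast]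
        push_cast
        rw [div_eq_mul_inv]
      have hqne : ((D : ℚ) * D₁ / (D : ℚ) ^ (m + 1) : ℚ) ≠ 0 := by positivity
      have hirr' : Irrational (p' e₀) := by
        rw [hp'0, hq]
        exact hi.ratCast_mul hqne
      have halg' : IsAlgebraic ℚ (p' e₀) := by
        rw [hp'0, hq]
        exact (isAlgebraic_algebraMap _).mul halg
      exact eqII p' e₀ m hk' hirr' halg' hlead (κ / 2) hκ2
  -- the threshold
  obtain ⟨a₀, ha₀⟩ : ∃ a₀ : ℕ, ∀ a : ℕ, a₀ ≤ a → 1 ≤ a →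
      M * (A * ((a : ℝ) / D) ^ (-κ)) ≤ (a : ℝ) ^ (-(κ / 2)) := by
    have h1 := (tendsto_rpow_atTop hκ2).eventually_ge_atTop (M * |A| * (D : ℝ) ^ κ)
    obtain ⟨x₀, hx₀⟩ := Filter.eventually_atTop.1 h1
    obtain ⟨a₀, ha₀⟩ := exists_nat_ge x₀
    refine ⟨a₀, fun a ha ha1 => ?_⟩
    have ha0 : (0 : ℝ) < a := by exact_mod_cast ha1
    have h2 := hx₀ a (ha₀.trans (by exact_mod_cast ha))
    rw [Real.div_rpow ha0.le hD0.le, Real.rpow_neg hD0.le]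
    have h3 : (a : ℝ) ^ (-κ) = (a : ℝ) ^ (-(κ / 2)) * (a : ℝ) ^ (-(κ / 2)) := by
      rw [← Real.rpow_add ha0]
      congr 1
      ring
    have h4 : (a : ℝ) ^ (κ / 2) * (a : ℝ) ^ (-(κ / 2)) = 1 := by
      rw [← Real.rpow_add ha0, add_neg_cancel, Real.rpow_zero]
    have h5 : 0 < (a : ℝ) ^ (-(κ / 2)) := Real.rpow_pos_of_pos ha0 _
    have h6 : 0 < (a : ℝ) ^ (-κ) := Real.rpow_pos_of_pos ha0 _
    have h7 : 0 < (D : ℝ) ^ κ := Real.rpow_pos_of_pos hD0 _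
    calc M * (A * ((a : ℝ) ^ (-κ) / ((D : ℝ) ^ κ)⁻¹)) = M * A * (D : ℝ) ^ κ * (a : ℝ) ^ (-κ) := by
          rw [div_inv_eq_mul]; ring
      _ ≤ M * |A| * (D : ℝ) ^ κ * (a : ℝ) ^ (-κ) := by
          have := le_abs_self A
          gcongr
      _ = (M * |A| * (D : ℝ) ^ κ) * (a : ℝ) ^ (-(κ / 2)) * (a : ℝ) ^ (-(κ / 2)) := by
          rw [h3]; ring
      _ ≤ (a : ℝ) ^ (κ / 2) * (a : ℝ) ^ (-(κ / 2)) * (a : ℝ) ^ (-(κ / 2)) := by gcongr
      _ = (a : ℝ) ^ (-(κ / 2)) := by rw [h4, one_mul]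
  apply dyad _ (|C| + a₀) (min δ 1) (lt_min hδ one_pos)
  intro X hX
  have hX1 : (1 : ℝ) ≤ X := by exact_mod_cast hX
  have hX0 : (0 : ℝ) < X := by linarith
  have hsub : ((Finset.Ico X (2 * X)).filter fun a : ℕ => ∃ b : ℤ,
      |(b : ℝ) / D - rsum p ((a : ℝ) / D)| ≤ A * ((a : ℝ) / D) ^ (-κ)) ⊆
      ((Finset.Ico X (2 * X)).filter fun a => ∃ z : ℤ,
        |rsum p' a - z| ≤ (X : ℝ) ^ (-(κ / 2))) ∪ Finset.range a₀ := by
    intro a ha
    rw [Finset.mem_filter, Finset.mem_Ico] at ha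
    rw [Finset.mem_union, Finset.mem_range, Finset.mem_filter, Finset.mem_Ico]
    by_cases haa : a < a₀
    · exact Or.inr haa
    · left
      refine ⟨ha.1, ?_⟩
      obtain ⟨b, hb⟩ := ha.2
      obtain ⟨z, hz⟩ := hint a
      have ha1 : 1 ≤ a := hX.trans ha.1.1
      have ha0 : (0 : ℝ) < a := by exact_mod_cast ha1
      refine ⟨D₁ * b - D * z, ?_⟩
      have h1 : rsum p ((a : ℝ) / D) = (∑ e ∈ p.support.filter (fun e => e₀ < e),
          p e * ((a : ℝ) / D) ^ (e : ℝ)) + ∑ e ∈ p.support.filter (fun e => ¬ e₀ < e),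
          p e * ((a : ℝ) / D) ^ (e : ℝ) := by
        rw [rsum_eq_sum (Finset.Subset.refl _), Finset.sum_filter_add_sum_filter_not]
      have h2 : rsum p' a - ((D₁ * b - D * z : ℤ) : ℝ) =
          -(M * ((b : ℝ) / D - rsum p ((a : ℝ) / D))) := by
        rw [hp'sum a, h1, hM]
        push_cast
        rw [← hz]
        field_simp
        ring
      have h3 : |rsum p' a - ((D₁ * b - D * z : ℤ) : ℝ)| =
          M * |(b : ℝ) / D - rsum p ((a : ℝ) / D)| := by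
        rw [h2, abs_neg, abs_mul, abs_of_pos hM0]
      rw [h3]
      calc M * |(b : ℝ) / D - rsum p ((a : ℝ) / D)| ≤ M * (A * ((a : ℝ) / D) ^ (-κ)) :=
            mul_le_mul_of_nonneg_left hb hM0.le
        _ ≤ (a : ℝ) ^ (-(κ / 2)) := ha₀ a (not_lt.1 haa) ha1
        _ ≤ (X : ℝ) ^ (-(κ / 2)) := by
          apply Real.rpow_le_rpow_of_nonpos hX0 _ (by linarith)
          exact_mod_cast ha.1.1
  have hcard : ((((Finset.Ico X (2 * X)).filter fun a : ℕ => ∃ b : ℤ,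
      |(b : ℝ) / D - rsum p ((a : ℝ) / D)| ≤ A * ((a : ℝ) / D) ^ (-κ)).card : ℕ) : ℝ) ≤
      (nc (rsum p') X ((X : ℝ) ^ (-(κ / 2))) : ℝ) + a₀ := by
    have h1 := (Finset.card_le_card hsub).trans (Finset.card_union_le _ _)
    rw [Finset.card_range] at h1
    have h2 : ((Finset.Ico X (2 * X)).filter fun a : ℕ => ∃ b : ℤ,
      |(b : ℝ) / D - rsum p ((a : ℝ) / D)| ≤ A * ((a : ℝ) / D) ^ (-κ)).card ≤
        nc (rsum p') X ((X : ℝ) ^ (-(κ / 2))) + a₀ := by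
      rw [nc_eq]
      exact h1
    rw [← Nat.cast_add]
    exact Nat.cast_le.2 h2
  refine hcard.trans ?_
  have hm1 : min δ 1 ≤ δ := min_le_left _ _
  have hm2 : min δ 1 ≤ 1 := min_le_right _ _
  have h1 : (X : ℝ) ^ (1 - δ) ≤ (X : ℝ) ^ (1 - min δ 1) :=
    Real.rpow_le_rpow_of_exponent_le hX1 (by linarith)
  have h2 : (1 : ℝ) ≤ (X : ℝ) ^ (1 - min δ 1) := Real.one_le_rpow hX1 (by linarith)
  have h3 : 0 ≤ (X : ℝ) ^ (1 - δ) := (Real.rpow_pos_of_pos hX0 _).le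
  calc (nc (rsum p') X ((X : ℝ) ^ (-(κ / 2))) : ℝ) + a₀ ≤ C * (X : ℝ) ^ (1 - δ) + a₀ := by
        linarith [hC X hX]
    _ ≤ |C| * (X : ℝ) ^ (1 - δ) + a₀ := by
        have := mul_le_mul_of_nonneg_right (le_abs_self C) h3
        linarith
    _ ≤ |C| * (X : ℝ) ^ (1 - min δ 1) + a₀ * (X : ℝ) ^ (1 - min δ 1) := by
        have h4 := mul_le_mul_of_nonneg_left h1 (abs_nonneg C)
        have h5 : (a₀ : ℝ) * 1 ≤ a₀ * (X : ℝ) ^ (1 - min δ 1) :=
          mul_le_mul_of_nonneg_left h2 (Nat.cast_nonneg _)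
        linarith
    _ = (|C| + a₀) * (X : ℝ) ^ (1 - min δ 1) := by ring

end Pool.Agent.FPO
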