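import Pool.Agent.FPO.Api

/-!
# FPO module NTc: counting the points not very close to the roots (diff 2)

PROOF.  Write `x = a/D ≥ 1`, `y = b/D`, `w₀ = W + τ s > 1 + τ`, `φ = s (τ+1)/w₀`.
Then `0 < φ ≤ 1` because `s (τ + 1) ≤ τ s + W` iff `s ≤ W`.
(1) Since all `|y - g i x| ≥ x^{-κ}`, the condition gives `c' x^{W - κ s} ≤ n`, so
`x ≤ Z := (n/c')^{1/(W - κ s)}`.
(2) For some `i`, `|y - g i x| ≤ ρ(x) := (n/(c' x^W))^{1/s}` (else the product would exceed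
`n/(c' x^W)`).  Also `|y - c x^τ| ≤ x^τ`.  So for given `x` and `i`, the number of `b` is at most
`1 + 2 D min(x^τ, ρ(x))` (an interval of length `2 min(…)` for `y`), and
`min(x^τ, ρ) ≤ (x^τ)^{1-φ} ρ^φ = x^{τ(1-φ) - Wφ/s} (n/c')^{φ/s} = x^{-1} (n/c')^{(τ+1)/w₀}`.
(3) Sum over the integers `a` with `1 ≤ a/D ≤ Z`.
-/

set_option autoImplicit false

open Polynomial

namespace Pool.Agent.FPO

namespace NTc

theorem card_Icc_le (u v : ℝ) (h : u ≤ v) :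
    ((Finset.Icc ⌈u⌉ ⌊v⌋).card : ℝ) ≤ v - u + 1 := by
  rw [Int.card_Icc]
  have h1 : (((⌊v⌋ + 1 - ⌈u⌉).toNat : ℤ) : ℝ) ≤ v - u + 1 := by
    rcases le_or_gt 0 (⌊v⌋ + 1 - ⌈u⌉) with h0 | h0
    · rw [Int.toNat_of_nonneg h0]
      push_cast
      have := Int.floor_le v
      have := Int.le_ceil u
      linarith
    · rw [Int.toNat_of_nonpos h0.le]
      simp only [Int.cast_zero, Nat.cast_zero]
      linarith
  exact_mod_cast h1

/-- The size of `x`. -/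
theorem size {ι : Type} [Fintype ι] (d : ι → ℝ) (x W κ N : ℝ) (hx : 1 ≤ x)
    (hN : 0 ≤ N) (hlam : 0 < W - κ * Fintype.card ι)
    (hd : ∀ i, x ^ (-κ) ≤ d i) (h : x ^ W * ∏ i, d i ≤ N) :
    x ≤ N ^ (1 / (W - κ * Fintype.card ι)) := by
  have hx0 : 0 < x := lt_of_lt_of_le one_pos hx
  have h1 : x ^ (-κ * Fintype.card ι) ≤ ∏ i, d i := by
    calc x ^ (-κ * Fintype.card ι) = ∏ _i : ι, x ^ (-κ) := by
          rw [Finset.prod_const, Finset.card_univ, Real.rpow_mul hx0.le, Real.rpow_natCast]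
      _ ≤ _ := Finset.prod_le_prod (fun i _ => Real.rpow_nonneg hx0.le _) (fun i _ => hd i)
  have h2 : x ^ (W - κ * Fintype.card ι) ≤ N := by
    calc x ^ (W - κ * Fintype.card ι) = x ^ W * x ^ (-κ * Fintype.card ι) := by
          rw [← Real.rpow_add hx0]; congr 1; ring
      _ ≤ x ^ W * ∏ i, d i := mul_le_mul_of_nonneg_left h1 (Real.rpow_nonneg hx0.le _)
      _ ≤ N := h
  have h3 := Real.rpow_le_rpow (Real.rpow_nonneg hx0.le _) h2 (one_div_nonneg.2 hlam.le)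
  rwa [← Real.rpow_mul hx0.le, mul_one_div_cancel hlam.ne', Real.rpow_one] at h3

/-- Some factor is small. -/
theorem factor {ι : Type} [Fintype ι] (d : ι → ℝ) (x W N : ℝ) (hx : 1 ≤ x)
    (hN : 0 < N) (hι : 1 ≤ Fintype.card ι) (h : x ^ W * ∏ i, d i ≤ N) :
    ∃ i, d i ≤ (N / x ^ W) ^ (1 / (Fintype.card ι : ℝ)) := by
  have hx0 : 0 < x := lt_of_lt_of_le one_pos hx
  have hW : 0 < x ^ W := Real.rpow_pos_of_pos hx0 _
  by_contra hcon
  push Not at hcon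
  have hne : (Finset.univ : Finset ι).Nonempty := by
    rw [← Finset.card_pos, Finset.card_univ]; omega
  have hpos : 0 < (N / x ^ W) ^ (1 / (Fintype.card ι : ℝ)) :=
    Real.rpow_pos_of_pos (div_pos hN hW) _
  have h1 : ∏ _i : ι, (N / x ^ W) ^ (1 / (Fintype.card ι : ℝ)) < ∏ i, d i :=
    Finset.prod_lt_prod_of_nonempty (fun _ _ => hpos) (fun i _ => hcon i) hne
  rw [Finset.prod_const, Finset.card_univ, ← Real.rpow_natCast, ← Real.rpow_mul
    (div_pos hN hW).le, one_div_mul_cancel (by positivity), Real.rpow_one, div_lt_iff₀ hW] at h1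
  linarith

/-- The bound for the smaller of the two radii. -/
theorem radius (x τ W s N : ℝ) (hx : 1 ≤ x) (hN : 0 < N) (hs : 1 ≤ s) (hτ : 1 ≤ τ)
    (hsW : s ≤ W) :
    min (x ^ τ) ((N / x ^ W) ^ (1 / s)) ≤ x⁻¹ * N ^ ((τ + 1) / (W + τ * s)) := by
  have hx0 : 0 < x := lt_of_lt_of_le one_pos hx
  have hw0 : 0 < W + τ * s := by nlinarith
  have hs0 : 0 < s := by linarith
  set φ := s * (τ + 1) / (W + τ * s) with hφ
  have hφ0 : 0 ≤ φ := div_nonneg (by nlinarith) hw0.le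
  have hφ1 : φ ≤ 1 := by
    rw [hφ, div_le_one hw0]; nlinarith
  have hA : 0 < x ^ τ := Real.rpow_pos_of_pos hx0 _
  have hB : 0 < (N / x ^ W) ^ (1 / s) :=
    Real.rpow_pos_of_pos (div_pos hN (Real.rpow_pos_of_pos hx0 _)) _
  have hm : 0 < min (x ^ τ) ((N / x ^ W) ^ (1 / s)) := lt_min hA hB
  have h1 : min (x ^ τ) ((N / x ^ W) ^ (1 / s)) ≤
      (x ^ τ) ^ (1 - φ) * ((N / x ^ W) ^ (1 / s)) ^ φ := by
    calc min (x ^ τ) ((N / x ^ W) ^ (1 / s)) =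
          (min (x ^ τ) ((N / x ^ W) ^ (1 / s))) ^ (1 - φ) *
            (min (x ^ τ) ((N / x ^ W) ^ (1 / s))) ^ φ := by
          rw [← Real.rpow_add hm, sub_add_cancel, Real.rpow_one]
      _ ≤ _ := mul_le_mul (Real.rpow_le_rpow hm.le (min_le_left _ _) (by linarith))
          (Real.rpow_le_rpow hm.le (min_le_right _ _) hφ0) (Real.rpow_nonneg hm.le _)
          (Real.rpow_nonneg hA.le _)
  refine h1.trans (le_of_eq ?_)
  have e1 : 1 / s * φ = (τ + 1) / (W + τ * s) := by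
    rw [hφ]; field_simp
  rw [← Real.rpow_mul hx0.le, ← Real.rpow_mul (div_pos hN (Real.rpow_pos_of_pos hx0 _)).le, e1,
    Real.div_rpow hN.le (Real.rpow_nonneg hx0.le _), ← Real.rpow_mul hx0.le]
  have e2 : τ * (1 - φ) = -1 + W * ((τ + 1) / (W + τ * s)) := by
    rw [hφ]; field_simp; ring
  rw [e2, Real.rpow_add hx0, Real.rpow_neg_one]
  have h3 : x ^ (W * ((τ + 1) / (W + τ * s))) ≠ 0 := (Real.rpow_pos_of_pos hx0 _).ne'
  field_simp

end NTc

theorem ntc (D : ℕ) (hD : 0 < D) (ι : Type) [Fintype ι] (g : ι → ℝ → ℝ) (c τ W κ c' : ℝ)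
    (hι : 1 ≤ Fintype.card ι) (hτ : 1 ≤ τ) (hW : (Fintype.card ι : ℝ) ≤ W) (hκ : 0 < κ)
    (h1 : 1 < W - κ * Fintype.card ι) (h2 : 1 + τ < W + τ * Fintype.card ι) (hc' : 0 < c') :
    ∃ C δ : ℝ, 0 < δ ∧ ∀ n : ℕ, 1 ≤ n → ∃ T : Finset (ℤ × ℤ),
      (T.card : ℝ) ≤ C * (n : ℝ) ^ (1 - δ) ∧
      ∀ a b : ℤ, 1 ≤ (a : ℝ) / D →
        |(b : ℝ) / D - c * ((a : ℝ) / D) ^ τ| ≤ ((a : ℝ) / D) ^ τ →
        (∀ i, ((a : ℝ) / D) ^ (-κ) ≤ |(b : ℝ) / D - g i ((a : ℝ) / D)|) →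
        c' * (((a : ℝ) / D) ^ W * ∏ i, |(b : ℝ) / D - g i ((a : ℝ) / D)|) ≤ n → (a, b) ∈ T := by
  classical
  have hs1 : (1 : ℝ) ≤ Fintype.card ι := by exact_mod_cast hι
  set s : ℝ := (Fintype.card ι : ℝ) with hs
  have hs0 : 0 < s := lt_of_lt_of_le one_pos hs1
  set lam : ℝ := W - κ * s with hlam
  have hlam0 : 0 < lam := by linarith
  have hw0 : 0 < W + τ * s := by linarith
  set θ : ℝ := (τ + 1) / (W + τ * s) with hθ
  have hθ0 : 0 < θ := div_pos (by linarith) hw0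
  have hθ1 : θ < 1 := by rw [hθ, div_lt_one hw0]; linarith
  set μ : ℝ := (1 - θ) / 2 with hμ
  have hμ0 : 0 < μ := by rw [hμ]; linarith
  have hD0 : (0 : ℝ) < D := by exact_mod_cast hD
  have hilam : 1 / lam < 1 := by rw [div_lt_one hlam0]; exact h1
  have hilam0 : 0 < 1 / lam := one_div_pos.2 hlam0
  refine ⟨s * (D * (c'⁻¹) ^ (1 / lam)) +
    s * (2 * D ^ 2 * (c'⁻¹) ^ θ * ((1 + 1 / μ) * ((D : ℝ) ^ μ * ((c'⁻¹) ^ (1 / lam)) ^ μ))),
    min (1 - 1 / lam) ((1 - θ) / 2), lt_min (by linarith) (by linarith), fun n hn => ?_⟩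
  have hn1 : (1 : ℝ) ≤ n := by exact_mod_cast hn
  have hn0 : (0 : ℝ) < n := by linarith
  set N : ℝ := n / c' with hNdef
  have hN : 0 < N := div_pos hn0 hc'
  set Z : ℝ := N ^ (1 / lam) with hZ
  have hZ0 : 0 < Z := Real.rpow_pos_of_pos hN _
  set M : ℕ := ⌊D * Z⌋₊ with hM
  let xx : ℕ → ℝ := fun k => ((k : ℝ) + 1) / D
  let r : ℕ → ℝ := fun k => min ((xx k) ^ τ) ((N / (xx k) ^ W) ^ (1 / s))
  let m : ι → ℕ → ℝ := fun i k =>
    if (xx k) ^ τ ≤ (N / (xx k) ^ W) ^ (1 / s) then c * (xx k) ^ τ else g i (xx k)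
  let T : Finset (ℤ × ℤ) := (Finset.range M).biUnion fun k => Finset.univ.biUnion fun i =>
    (Finset.Icc ⌈D * (m i k - r k)⌉ ⌊D * (m i k + r k)⌋).image fun b => ((k : ℤ) + 1, b)
  have hxx0 : ∀ k, 0 < xx k := fun k => by positivity
  have hr0 : ∀ k, 0 ≤ r k := fun k => le_min (Real.rpow_nonneg (hxx0 k).le _)
    (Real.rpow_nonneg (div_nonneg hN.le (Real.rpow_nonneg (hxx0 k).le _)) _)
  -- only columns with `1 ≤ x` matter
  have hcardT : ∀ A : Finset ℕ, A ⊆ Finset.range M → (∀ k ∈ A, 1 ≤ xx k) →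
      (((A.biUnion fun k => Finset.univ.biUnion fun i =>
        (Finset.Icc ⌈D * (m i k - r k)⌉ ⌊D * (m i k + r k)⌋).image
          fun b => (((k : ℤ) + 1, b) : ℤ × ℤ)).card : ℕ) : ℝ) ≤
      ∑ k ∈ Finset.range M, s * (2 * D ^ 2 * N ^ θ * ((k : ℝ) + 1)⁻¹ + 1) := by
    intro A hA hA1
    have e1 : ((A.biUnion fun k => Finset.univ.biUnion fun i =>
        (Finset.Icc ⌈D * (m i k - r k)⌉ ⌊D * (m i k + r k)⌋).image
          fun b => (((k : ℤ) + 1, b) : ℤ × ℤ)).card) ≤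
        ∑ k ∈ A, ∑ i : ι, (Finset.Icc ⌈D * (m i k - r k)⌉ ⌊D * (m i k + r k)⌋).card := by
      refine Finset.card_biUnion_le.trans (Finset.sum_le_sum fun k _ => ?_)
      exact Finset.card_biUnion_le.trans (Finset.sum_le_sum fun i _ => Finset.card_image_le)
    have e2 : (((∑ k ∈ A, ∑ i : ι,
        (Finset.Icc ⌈D * (m i k - r k)⌉ ⌊D * (m i k + r k)⌋).card : ℕ)) : ℝ) ≤
        ∑ k ∈ A, s * (2 * D ^ 2 * N ^ θ * ((k : ℝ) + 1)⁻¹ + 1) := by
      push_cast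
      refine Finset.sum_le_sum fun k hk => ?_
      have hrk : r k ≤ (xx k)⁻¹ * N ^ θ :=
        NTc.radius (xx k) τ W s N (hA1 k hk) hN hs1 hτ hW
      have e3 : ∀ i : ι, ((Finset.Icc ⌈D * (m i k - r k)⌉ ⌊D * (m i k + r k)⌋).card : ℝ) ≤
          2 * D ^ 2 * N ^ θ * ((k : ℝ) + 1)⁻¹ + 1 := by
        intro i
        refine (NTc.card_Icc_le _ _ ?_).trans ?_
        · exact mul_le_mul_of_nonneg_left (by linarith [hr0 k]) hD0.le
        · have e4 : (D : ℝ) * (m i k + r k) - D * (m i k - r k) + 1 = 2 * D * r k + 1 := by ring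
          rw [e4]
          have e5 : 2 * (D : ℝ) * r k ≤ 2 * D * ((xx k)⁻¹ * N ^ θ) :=
            mul_le_mul_of_nonneg_left hrk (by positivity)
          have e6 : 2 * (D : ℝ) * ((xx k)⁻¹ * N ^ θ) = 2 * D ^ 2 * N ^ θ * ((k : ℝ) + 1)⁻¹ := by
            change 2 * (D : ℝ) * ((((k : ℝ) + 1) / D)⁻¹ * N ^ θ) = _
            rw [inv_div]; ring
          linarith
      calc ∑ i : ι, ((Finset.Icc ⌈D * (m i k - r k)⌉ ⌊D * (m i k + r k)⌋).card : ℝ)
          ≤ ∑ _i : ι, (2 * D ^ 2 * N ^ θ * ((k : ℝ) + 1)⁻¹ + 1) :=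
            Finset.sum_le_sum fun i _ => e3 i
        _ = s * (2 * D ^ 2 * N ^ θ * ((k : ℝ) + 1)⁻¹ + 1) := by
            rw [Finset.sum_const, Finset.card_univ, nsmul_eq_mul]
    have e7 : ∑ k ∈ A, s * (2 * D ^ 2 * N ^ θ * ((k : ℝ) + 1)⁻¹ + 1) ≤
        ∑ k ∈ Finset.range M, s * (2 * D ^ 2 * N ^ θ * ((k : ℝ) + 1)⁻¹ + 1) := by
      refine Finset.sum_le_sum_of_subset_of_nonneg hA fun k _ _ => ?_
      have : 0 ≤ N ^ θ := Real.rpow_nonneg hN.le _
      positivity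
    calc _ ≤ (((∑ k ∈ A, ∑ i : ι,
        (Finset.Icc ⌈D * (m i k - r k)⌉ ⌊D * (m i k + r k)⌋).card : ℕ)) : ℝ) := by
          exact_mod_cast e1
      _ ≤ _ := e2.trans e7
  refine ⟨((Finset.range M).filter fun k => 1 ≤ xx k).biUnion fun k =>
    Finset.univ.biUnion fun i =>
    (Finset.Icc ⌈D * (m i k - r k)⌉ ⌊D * (m i k + r k)⌋).image fun b => ((k : ℤ) + 1, b), ?_, ?_⟩
  · refine (hcardT _ (Finset.filter_subset _ _) fun k hk => (Finset.mem_filter.1 hk).2).trans ?_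
    -- the sum
    have hsum : ∑ k ∈ Finset.range M, s * (2 * D ^ 2 * N ^ θ * ((k : ℝ) + 1)⁻¹ + 1) =
        s * M + s * (2 * D ^ 2 * N ^ θ * ((harmonic M : ℚ) : ℝ)) := by
      rw [← Finset.mul_sum, Finset.sum_add_distrib, ← Finset.mul_sum]
      have e1 : ∑ k ∈ Finset.range M, ((k : ℝ) + 1)⁻¹ = ((harmonic M : ℚ) : ℝ) := by
        rw [harmonic]
        push_cast
        rfl
      rw [e1]
      simp only [Finset.sum_const, Finset.card_range, nsmul_eq_mul, mul_one]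
      ring
    rw [hsum]
    have hNr : N = n * c'⁻¹ := by rw [hNdef, div_eq_mul_inv]
    have hci : 0 ≤ c'⁻¹ := inv_nonneg.2 hc'.le
    have hZeq : Z = (n : ℝ) ^ (1 / lam) * (c'⁻¹) ^ (1 / lam) := by
      rw [hZ, hNr, Real.mul_rpow hn0.le hci]
    have hMle : (M : ℝ) ≤ D * Z := Nat.floor_le (by positivity)
    have hexp1 : (n : ℝ) ^ (1 / lam) ≤ (n : ℝ) ^ (1 - min (1 - 1 / lam) ((1 - θ) / 2)) := by
      refine Real.rpow_le_rpow_of_exponent_le hn1 ?_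
      have := min_le_left (1 - 1 / lam) ((1 - θ) / 2)
      linarith
    have hexp2 : (n : ℝ) ^ (θ + μ) ≤ (n : ℝ) ^ (1 - min (1 - 1 / lam) ((1 - θ) / 2)) := by
      refine Real.rpow_le_rpow_of_exponent_le hn1 ?_
      have := min_le_right (1 - 1 / lam) ((1 - θ) / 2)
      rw [hμ]
      linarith
    have hpart1 : s * (M : ℝ) ≤ s * (D * (c'⁻¹) ^ (1 / lam)) *
        (n : ℝ) ^ (1 - min (1 - 1 / lam) ((1 - θ) / 2)) := by
      calc s * (M : ℝ) ≤ s * (D * Z) := mul_le_mul_of_nonneg_left hMle hs0.le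
        _ = s * (D * (c'⁻¹) ^ (1 / lam)) * (n : ℝ) ^ (1 / lam) := by rw [hZeq]; ring
        _ ≤ _ := mul_le_mul_of_nonneg_left hexp1 (by positivity)
    have hharm : ((harmonic M : ℚ) : ℝ) ≤
        (1 + 1 / μ) * ((D : ℝ) ^ μ * ((c'⁻¹) ^ (1 / lam)) ^ μ) * (n : ℝ) ^ μ := by
      rcases Nat.eq_zero_or_pos M with h0 | h0
      · rw [h0, harmonic_zero]
        simp only [Rat.cast_zero]
        positivity
      · have hM1 : (1 : ℝ) ≤ M := by exact_mod_cast h0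
        have e1 := harmonic_le_one_add_log M
        have e2 := Real.log_le_rpow_div (by linarith : (0 : ℝ) ≤ M) hμ0
        have e3 : (1 : ℝ) ≤ (M : ℝ) ^ μ := Real.one_le_rpow hM1 hμ0.le
        have e4 : ((harmonic M : ℚ) : ℝ) ≤ (1 + 1 / μ) * (M : ℝ) ^ μ := by
          calc ((harmonic M : ℚ) : ℝ) ≤ 1 + Real.log M := e1
            _ ≤ (M : ℝ) ^ μ + (M : ℝ) ^ μ / μ := add_le_add e3 e2
            _ = (1 + 1 / μ) * (M : ℝ) ^ μ := by ring
        refine e4.trans ?_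
        have e5 : (M : ℝ) ^ μ ≤ (D : ℝ) ^ μ * ((c'⁻¹) ^ (1 / lam)) ^ μ * (n : ℝ) ^ μ := by
          calc (M : ℝ) ^ μ ≤ (D * Z) ^ μ := Real.rpow_le_rpow (by linarith) hMle hμ0.le
            _ = (D : ℝ) ^ μ * ((n : ℝ) ^ (1 / lam)) ^ μ * ((c'⁻¹) ^ (1 / lam)) ^ μ := by
                rw [hZeq, Real.mul_rpow hD0.le (by positivity),
                  Real.mul_rpow (by positivity) (by positivity)]
                ring
            _ ≤ (D : ℝ) ^ μ * (n : ℝ) ^ μ * ((c'⁻¹) ^ (1 / lam)) ^ μ := by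
                refine mul_le_mul_of_nonneg_right (mul_le_mul_of_nonneg_left ?_ (by positivity))
                  (by positivity)
                refine Real.rpow_le_rpow (by positivity) ?_ hμ0.le
                calc (n : ℝ) ^ (1 / lam) ≤ (n : ℝ) ^ (1 : ℝ) :=
                      Real.rpow_le_rpow_of_exponent_le hn1 hilam.le
                  _ = n := Real.rpow_one _
            _ = _ := by ring
        calc (1 + 1 / μ) * (M : ℝ) ^ μ ≤
              (1 + 1 / μ) * ((D : ℝ) ^ μ * ((c'⁻¹) ^ (1 / lam)) ^ μ * (n : ℝ) ^ μ) :=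
              mul_le_mul_of_nonneg_left e5 (by positivity)
          _ = _ := by ring
    have hNθ : N ^ θ = (n : ℝ) ^ θ * (c'⁻¹) ^ θ := by rw [hNr, Real.mul_rpow hn0.le hci]
    have hpart2 : s * (2 * D ^ 2 * N ^ θ * ((harmonic M : ℚ) : ℝ)) ≤
        s * (2 * D ^ 2 * (c'⁻¹) ^ θ * ((1 + 1 / μ) * ((D : ℝ) ^ μ * ((c'⁻¹) ^ (1 / lam)) ^ μ))) *
        (n : ℝ) ^ (1 - min (1 - 1 / lam) ((1 - θ) / 2)) := by
      calc s * (2 * D ^ 2 * N ^ θ * ((harmonic M : ℚ) : ℝ)) ≤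
            s * (2 * D ^ 2 * N ^ θ *
              ((1 + 1 / μ) * ((D : ℝ) ^ μ * ((c'⁻¹) ^ (1 / lam)) ^ μ) * (n : ℝ) ^ μ)) := by
            refine mul_le_mul_of_nonneg_left (mul_le_mul_of_nonneg_left hharm ?_) hs0.le
            have : 0 ≤ N ^ θ := Real.rpow_nonneg hN.le _
            positivity
        _ = s * (2 * D ^ 2 * (c'⁻¹) ^ θ *
              ((1 + 1 / μ) * ((D : ℝ) ^ μ * ((c'⁻¹) ^ (1 / lam)) ^ μ))) *
              ((n : ℝ) ^ θ * (n : ℝ) ^ μ) := by rw [hNθ]; ring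
        _ = s * (2 * D ^ 2 * (c'⁻¹) ^ θ *
              ((1 + 1 / μ) * ((D : ℝ) ^ μ * ((c'⁻¹) ^ (1 / lam)) ^ μ))) *
              (n : ℝ) ^ (θ + μ) := by rw [Real.rpow_add hn0]
        _ ≤ _ := mul_le_mul_of_nonneg_left hexp2 (by positivity)
    calc _ ≤ _ := add_le_add hpart1 hpart2
      _ = _ := by ring
  · intro a b ha hb hκb hprod
    have ha0 : (0 : ℝ) < a := by
      have h3 : (1 : ℝ) * D ≤ a := (le_div_iff₀ hD0).1 ha
      linarith
    have ha1 : 1 ≤ a := by exact_mod_cast ha0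
    set k : ℕ := (a - 1).toNat with hk
    have hka : (k : ℤ) + 1 = a := by omega
    have hkr : (k : ℝ) + 1 = a := by exact_mod_cast hka
    have hxk : xx k = (a : ℝ) / D := by
      change ((k : ℝ) + 1) / D = _
      rw [hkr]
    have hprod' : ((a : ℝ) / D) ^ W * ∏ i, |(b : ℝ) / D - g i ((a : ℝ) / D)| ≤ N := by
      rw [hNdef, le_div_iff₀ hc']
      linarith
    have hsz := NTc.size (fun i => |(b : ℝ) / D - g i ((a : ℝ) / D)|) ((a : ℝ) / D) W κ N ha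
      hN.le hlam0 hκb hprod'
    obtain ⟨i, hi⟩ := NTc.factor (fun i => |(b : ℝ) / D - g i ((a : ℝ) / D)|) ((a : ℝ) / D) W N ha
      hN hι hprod'
    have hkM : k < M := by
      have h3 : (a : ℝ) ≤ D * Z := by
        rw [div_le_iff₀ hD0] at hsz
        calc (a : ℝ) ≤ N ^ (1 / lam) * D := hsz
          _ = D * Z := by rw [hZ]; ring
      have h4 : k + 1 ≤ M := by
        rw [hM]
        refine Nat.le_floor ?_
        push_cast
        rw [hkr]
        exact h3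
      omega
    refine Finset.mem_biUnion.2 ⟨k, Finset.mem_filter.2 ⟨Finset.mem_range.2 hkM, ?_⟩,
      Finset.mem_biUnion.2 ⟨i, Finset.mem_univ _, Finset.mem_image.2 ⟨b, ?_, ?_⟩⟩⟩
    · rw [hxk]; exact ha
    · have hmain : |(b : ℝ) / D - m i k| ≤ r k := by
        change |(b : ℝ) / D - (if (xx k) ^ τ ≤ (N / (xx k) ^ W) ^ (1 / s) then c * (xx k) ^ τ
          else g i (xx k))| ≤ min ((xx k) ^ τ) ((N / (xx k) ^ W) ^ (1 / s))
        rw [hxk]
        split_ifs with hif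
        · rw [min_eq_left hif]; exact hb
        · rw [min_eq_right (le_of_not_ge hif)]; exact hi
      have h5 := abs_le.1 hmain
      have hbD : (b : ℝ) = D * ((b : ℝ) / D) := by field_simp
      refine Finset.mem_Icc.2 ⟨Int.ceil_le.2 ?_, Int.le_floor.2 ?_⟩
      · rw [hbD]
        exact mul_le_mul_of_nonneg_left (by linarith [h5.1]) hD0.le
      · rw [hbD]
        exact mul_le_mul_of_nonneg_left (by linarith [h5.2]) hD0.le
    · rw [hka]

end Pool.Agent.FPO
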