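import Pool.Agent.FPO.PuiF

/-!
# FPO module Pui: Puiseux expansions at infinity (diff 3)

PROOF.  Put `E = xdeg F`, `D = F.natDegree`, `β = F.leadingCoeff.natDegree`, `K₀ = E + 1`.
Let `K ≥ K₀` and `N = β + E D + K D + K + 1`; take `m, q, R` from `pui_ident`.
The Puiseux polynomial of the root `i` is
`p i := ∑ l ∈ range ((q i).natDegree + 1), Finsupp.single ((E : ℚ) - l/m) ((q i).coeff l)`.
The exponents `E - l/m` are distinct for distinct `l`, so `p i (E - l/m) = (q i).coeff l` and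
`p i e = 0` for other `e`; all are algebraic; nonzero coefficients only at exponents `≤ E < K`.
For `x > 0`, with `t = x^(-1/m)` (real, `> 0`; `t^m = x⁻¹`, `(x^(-(1:ℝ)/m))^l = x^(-(l:ℝ)/m)`):
`psum (p i) x = ∑_l (q i)_l x^{E - l/m} = x^E * (q i).eval t = ((t^m)⁻¹)^E * (q i).eval t`
(`Finsupp.sum` of a sum of singles: `Finsupp.sum_finset_sum_index`, `Finsupp.sum_single_index`).
So for `x ≥ 1` and real `y` the identity gives, after multiplying by `x^{β+ED}`,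
`F(x,y) - B(x) ∏ (y - psum (p i) x) = x^{β + ED - N} * R(t, x^{-E} y)`,
(`bv F (x:ℂ) (y:ℂ) = ((bv F x y : ℝ) : ℂ)` by `map_bv Complex.ofRealHom`, similarly for `aeval`).
Bound: write `R = ∑_{j ≤ D} r_j(t) ζ^j`; for `0 < t ≤ 1` each `|r_j(t)| ≤ C_j` (sum of the absolute
values of the coefficients), and for `|y| ≤ x^K`, `|x^{-E} y|^j ≤ (x^K)^j ≤ x^{KD}`.  Hence the
error is at most `C x^{β + ED - N + KD} = C x^{-K-1} ≤ x^{-K}` as soon as `x ≥ C`, `x ≥ 1`.
Take `x₀ = max 1 C`.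
-/

set_option autoImplicit false

open Polynomial

namespace Pool.Agent.FPO

namespace Pui

/-- the Puiseux polynomial of a root -/
noncomputable def pp (E m : ℕ) (q : ℂ[X]) : ℚ →₀ ℂ :=
  ∑ l ∈ Finset.range (q.natDegree + 1), Finsupp.single ((E : ℚ) - l / m) (q.coeff l)

theorem pp_apply (E m : ℕ) (q : ℂ[X]) (e : ℚ) : pp E m q e =
    ∑ l ∈ Finset.range (q.natDegree + 1), if (E : ℚ) - l / m = e then q.coeff l else 0 := by
  rw [pp, Finsupp.finsetSum_apply]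
  refine Finset.sum_congr rfl fun l _ => ?_
  rw [Finsupp.single_apply]

theorem pp_alg (E m : ℕ) (q : ℂ[X]) (hq : ∀ j, IsAlgebraic ℚ (q.coeff j)) (e : ℚ) :
    IsAlgebraic ℚ (pp E m q e) := by
  rw [pp_apply]
  refine Finset.sum_induction _ (fun z : ℂ => IsAlgebraic ℚ z) (fun a b ha hb => ha.add hb)
    isAlgebraic_zero ?_
  intro l _
  split_ifs
  · exact hq l
  · exact isAlgebraic_zero

theorem pp_le (E m : ℕ) (q : ℂ[X]) (e : ℚ) (he : pp E m q e ≠ 0) : e ≤ (E : ℚ) := by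
  rw [pp_apply] at he
  obtain ⟨l, -, hl⟩ := Finset.exists_ne_zero_of_sum_ne_zero he
  split_ifs at hl with h
  · rw [← h]
    have : (0 : ℚ) ≤ (l : ℚ) / m := by positivity
    linarith
  · exact absurd rfl hl

theorem pow_aux (E m l : ℕ) (x : ℝ) (hx : 0 < x) :
    x ^ ((((E : ℚ) - l / m : ℚ)) : ℝ) = x ^ E * (x ^ (-(1 / (m : ℝ)))) ^ l := by
  rw [← Real.rpow_natCast (x ^ (-(1 / (m : ℝ)))) l, ← Real.rpow_mul hx.le, ← Real.rpow_natCast x E,
    ← Real.rpow_add hx]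
  congr 1
  push_cast
  ring

theorem psum_pp (E m : ℕ) (q : ℂ[X]) (x : ℝ) (hx : 0 < x) :
    psum (pp E m q) x = (x : ℂ) ^ E * q.eval ((x ^ (-(1 / (m : ℝ))) : ℝ) : ℂ) := by
  have h1 : psum (pp E m q) x = ∑ l ∈ Finset.range (q.natDegree + 1),
      q.coeff l * ((x ^ ((((E : ℚ) - l / m : ℚ)) : ℝ) : ℝ) : ℂ) := by
    rw [psum, pp, ← Finsupp.sum_finsetSum_index]
    · refine Finset.sum_congr rfl fun l _ => ?_
      rw [Finsupp.sum_single_index]
      simp
    · intro e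
      simp
    · intro e a b
      ring
  rw [h1, eval_eq_sum_range, Finset.mul_sum]
  refine Finset.sum_congr rfl fun l _ => ?_
  rw [pow_aux E m l x hx]
  push_cast
  ring

theorem coeff_bound (r : ℂ[X]) : ∃ C : ℝ, 0 ≤ C ∧ ∀ t : ℂ, ‖t‖ ≤ 1 → ‖r.eval t‖ ≤ C := by
  refine ⟨∑ l ∈ Finset.range (r.natDegree + 1), ‖r.coeff l‖,
    Finset.sum_nonneg fun l _ => norm_nonneg _, fun t ht => ?_⟩
  rw [eval_eq_sum_range]
  refine (norm_sum_le _ _).trans (Finset.sum_le_sum fun l _ => ?_)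
  rw [norm_mul, norm_pow]
  exact mul_le_of_le_one_right (norm_nonneg _) (pow_le_one₀ (norm_nonneg _) ht)

theorem R_bound (R : ℂ[X][X]) (D : ℕ) (hR : R.natDegree ≤ D) : ∃ C : ℝ, 0 ≤ C ∧
    ∀ t : ℂ, ‖t‖ ≤ 1 → ∀ (ζ : ℂ) (M : ℝ), 1 ≤ M → ‖ζ‖ ≤ M →
      ‖R.eval₂ (evalRingHom t) ζ‖ ≤ C * M ^ D := by
  choose Cf hCf0 hCf using fun j => coeff_bound (R.coeff j)
  refine ⟨∑ j ∈ Finset.range (D + 1), Cf j, Finset.sum_nonneg fun j _ => hCf0 j, ?_⟩
  intro t ht ζ M hM hζ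
  rw [eval₂_eq_sum_range' (evalRingHom t) (Nat.lt_succ_of_le hR) ζ, Finset.sum_mul]
  refine (norm_sum_le _ _).trans (Finset.sum_le_sum fun j hj => ?_)
  rw [norm_mul, norm_pow]
  have hj' : j ≤ D := Nat.lt_succ_iff.1 (Finset.mem_range.1 hj)
  have h1 : ‖ζ‖ ^ j ≤ M ^ D :=
    (pow_le_pow_left₀ (norm_nonneg _) hζ j).trans (pow_le_pow_right₀ hM hj')
  have h2 : ‖(evalRingHom t) (R.coeff j)‖ ≤ Cf j := by
    rw [coe_evalRingHom]
    exact hCf j t ht
  exact mul_le_mul h2 h1 (by positivity) (hCf0 j)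

end Pui

theorem pui (F : Bi) (hF : F ≠ 0) :
    ∃ K₀ : ℕ, ∀ K : ℕ, K₀ ≤ K → ∃ p : Fin F.natDegree → (ℚ →₀ ℂ), PD F K p := by
  refine ⟨xdeg F + 1, fun K hK => ?_⟩
  obtain ⟨m, q, R, hm, halg, hRd, hid⟩ := pui_ident F hF
    (F.leadingCoeff.natDegree + xdeg F * F.natDegree + K * F.natDegree + K + 1)
  obtain ⟨C, hC0, hC⟩ := Pui.R_bound R F.natDegree hRd
  refine ⟨fun i => Pui.pp (xdeg F) m (q i), fun i e => Pui.pp_alg _ _ _ (halg i) e, ?_, ?_⟩
  · intro i e he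
    refine lt_of_le_of_lt (Pui.pp_le _ _ _ _ he) ?_
    exact_mod_cast Nat.lt_of_succ_le hK
  · refine ⟨max 1 C, le_max_left _ _, ?_⟩
    intro x hx y hy
    have hx1 : 1 ≤ x := (le_max_left _ _).trans hx
    have hxC : C ≤ x := (le_max_right _ _).trans hx
    have hx0 : 0 < x := by linarith
    have hxc : (x : ℂ) ≠ 0 := by exact_mod_cast hx0.ne'
    set t : ℝ := x ^ (-(1 / (m : ℝ))) with ht
    have ht0 : 0 < t := Real.rpow_pos_of_pos hx0 _
    have ht1 : t ≤ 1 := Real.rpow_le_one_of_one_le_of_nonpos hx1 (by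
      have : (0 : ℝ) ≤ 1 / (m : ℝ) := by positivity
      linarith)
    have htm : t ^ m = x⁻¹ := by
      rw [ht, ← Real.rpow_natCast, ← Real.rpow_mul hx0.le, ← Real.rpow_neg_one]
      congr 1
      have : (m : ℝ) ≠ 0 := by exact_mod_cast hm.ne'
      field_simp
    have htmc : ((t : ℂ)) ^ m = (x : ℂ)⁻¹ := by
      rw [← Complex.ofReal_pow, htm, Complex.ofReal_inv]
    have hid' := hid (t : ℂ) (by exact_mod_cast ht0.ne') (y : ℂ)
    rw [htmc, inv_inv] at hid'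
    have hps : ∀ i, (y : ℂ) - (x : ℂ) ^ xdeg F * (q i).eval (t : ℂ) =
        (y : ℂ) - psum (Pui.pp (xdeg F) m (q i)) x := by
      intro i
      rw [Pui.psum_pp _ _ _ x hx0]
    rw [Finset.prod_congr rfl (fun i _ => hps i)] at hid'
    have hb : ((bv F x y : ℝ) : ℂ) = bv F (x : ℂ) (y : ℂ) := map_bv Complex.ofRealHom F x y
    have ha : ((aeval x F.leadingCoeff : ℝ) : ℂ) = aeval (x : ℂ) F.leadingCoeff := by
      have h := map_bv Complex.ofRealHom (Polynomial.C F.leadingCoeff : Bi) x y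
      rw [bv_C, bv_C] at h
      exact h
    rw [hb, ha]
    set a := F.leadingCoeff.natDegree + xdeg F * F.natDegree with hadef
    have hRb := hC (t : ℂ) (by
      rw [Complex.norm_real, Real.norm_of_nonneg ht0.le]; exact ht1)
      (((x : ℂ)⁻¹) ^ xdeg F * (y : ℂ)) (x ^ K) (one_le_pow₀ hx1) (by
        rw [norm_mul, norm_pow, norm_inv, Complex.norm_real, Complex.norm_real,
          Real.norm_of_nonneg hx0.le, Real.norm_eq_abs]
        calc x⁻¹ ^ xdeg F * |y| ≤ 1 * |y| := by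
              refine mul_le_mul_of_nonneg_right ?_ (abs_nonneg y)
              exact pow_le_one₀ (by positivity) (inv_le_one_of_one_le₀ hx1)
          _ ≤ x ^ K := by rw [one_mul]; exact hy)
    have hkey : bv F (x : ℂ) (y : ℂ) - aeval (x : ℂ) F.leadingCoeff *
        ∏ i, ((y : ℂ) - psum (Pui.pp (xdeg F) m (q i)) x) =
        (x : ℂ) ^ a * ((x : ℂ)⁻¹ ^ (a + K * F.natDegree + K + 1) *
          R.eval₂ (evalRingHom (t : ℂ)) (((x : ℂ)⁻¹) ^ xdeg F * (y : ℂ))) := by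
      have h1 : (x : ℂ) ^ a * ((x : ℂ)⁻¹) ^ a = 1 := by
        rw [← mul_pow, mul_inv_cancel₀ hxc, one_pow]
      calc bv F (x : ℂ) (y : ℂ) - aeval (x : ℂ) F.leadingCoeff *
          ∏ i, ((y : ℂ) - psum (Pui.pp (xdeg F) m (q i)) x)
          = (x : ℂ) ^ a * (((x : ℂ)⁻¹) ^ a * bv F (x : ℂ) (y : ℂ) -
            ((x : ℂ)⁻¹) ^ a * aeval (x : ℂ) F.leadingCoeff *
            ∏ i, ((y : ℂ) - psum (Pui.pp (xdeg F) m (q i)) x)) := by
            linear_combination (-(bv F (x : ℂ) (y : ℂ) - aeval (x : ℂ) F.leadingCoeff *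
              ∏ i, ((y : ℂ) - psum (Pui.pp (xdeg F) m (q i)) x))) * h1
        _ = _ := by
            rw [hid']
            ring
    rw [hkey, norm_mul, norm_mul, norm_pow, norm_pow, norm_inv, Complex.norm_real,
      Real.norm_of_nonneg hx0.le, Real.rpow_neg hx0.le, Real.rpow_natCast]
    calc x ^ a * (x⁻¹ ^ (a + K * F.natDegree + K + 1) *
          ‖R.eval₂ (evalRingHom (t : ℂ)) (((x : ℂ)⁻¹) ^ xdeg F * (y : ℂ))‖)
        ≤ x ^ a * (x⁻¹ ^ (a + K * F.natDegree + K + 1) * (x * (x ^ K) ^ F.natDegree)) := by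
          refine mul_le_mul_of_nonneg_left (mul_le_mul_of_nonneg_left ?_ (by positivity))
            (by positivity)
          exact hRb.trans (mul_le_mul_of_nonneg_right hxC (by positivity))
      _ = (x ^ K)⁻¹ := by
          rw [← pow_mul, pow_succ, pow_add x⁻¹ (a + K * F.natDegree) K,
            pow_add x⁻¹ a (K * F.natDegree)]
          have h2 : x * x⁻¹ = 1 := mul_inv_cancel₀ hx0.ne'
          have h3 : x ^ a * x⁻¹ ^ a = 1 := by rw [← mul_pow, h2, one_pow]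
          have h4 : x ^ (K * F.natDegree) * x⁻¹ ^ (K * F.natDegree) = 1 := by
            rw [← mul_pow, h2, one_pow]
          calc x ^ a * (x⁻¹ ^ a * x⁻¹ ^ (K * F.natDegree) * x⁻¹ ^ K * x⁻¹ *
                (x * x ^ (K * F.natDegree)))
              = (x ^ a * x⁻¹ ^ a) * (x ^ (K * F.natDegree) * x⁻¹ ^ (K * F.natDegree)) *
                (x * x⁻¹) * x⁻¹ ^ K := by ring
            _ = (x ^ K)⁻¹ := by rw [h2, h3, h4, one_mul, one_mul, one_mul, inv_pow]

end Pool.Agent.FPO
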