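import Pool.Agent.FPO.Api

/-!
# FPO module Thc: counting the points very close to a root (diff 1)

PROOF.  For given `n` let `m = ⌊D A n^{1+η}⌋₊ + 1 ≥ 1`.  If `a/D ≤ A n^{1+η}` then `a ≤ m`.  The
possible `a` (with `1 ≤ a`, as `a/D ≥ 1`) belong to the filtered set for `m`, which has at most
`C m^{1-δ} ≤ C' n^{(1+η)(1-δ)}` elements (WLOG `0 < δ ≤ 1`, `C ≥ 0`; `(1+η)(1-δ) < 1`, which also
holds if `δ` was larger than `1`).  For each such `a` the `b` with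
`|b/D - g(a/D)| ≤ (a/D)^{-κ} ≤ 1` lie in an interval of length `2 D`: at most `2 D + 1` of them.
Take `T` = the set of all these pairs: `|T| ≤ (2D+1) C' n^{(1+η)(1-δ)}`,
`δ' = 1 - (1+η)(1-δ)`.
-/

set_option autoImplicit false

open Polynomial

namespace Pool.Agent.FPO

open Classical in
theorem thc (D : ℕ) (hD : 0 < D) (g : ℝ → ℝ) (κ : ℝ) (hκ : 0 < κ) (C δ : ℝ) (hδ : 0 < δ)
    (hδ1 : δ ≤ 1)
    (h : ∀ n : ℕ, 1 ≤ n → (((Finset.Icc 1 n).filter fun a : ℕ => ∃ b : ℤ,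
      |(b : ℝ) / D - g ((a : ℝ) / D)| ≤ ((a : ℝ) / D) ^ (-κ)).card : ℝ) ≤ C * (n : ℝ) ^ (1 - δ))
    (η A : ℝ) (hη : 0 < η) (hηδ : (1 + η) * (1 - δ) < 1) :
    ∃ C' δ' : ℝ, 0 < δ' ∧ ∀ n : ℕ, 1 ≤ n → ∃ T : Finset (ℤ × ℤ),
      (T.card : ℝ) ≤ C' * (n : ℝ) ^ (1 - δ') ∧
      ∀ a b : ℤ, 1 ≤ (a : ℝ) / D → |(b : ℝ) / D - g ((a : ℝ) / D)| ≤ ((a : ℝ) / D) ^ (-κ) →
        (a : ℝ) / D ≤ A * (n : ℝ) ^ (1 + η) → (a, b) ∈ T := by
  have hDR : (0 : ℝ) < D := by exact_mod_cast hD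
  have hC : 0 ≤ C := by
    have h1 := h 1 le_rfl
    rw [Nat.cast_one, Real.one_rpow, mul_one] at h1
    exact (Nat.cast_nonneg _).trans h1
  refine ⟨(2 * D + 1) * (C * (D * |A| + 1) ^ (1 - δ)), 1 - (1 + η) * (1 - δ), by linarith,
    fun n hn => ?_⟩
  have hnR : (1 : ℝ) ≤ n := by exact_mod_cast hn
  set m : ℕ := ⌊D * A * (n : ℝ) ^ (1 + η)⌋₊ + 1 with hm
  have hm1 : 1 ≤ m := Nat.le_add_left _ _
  have hn1 : (1 : ℝ) ≤ (n : ℝ) ^ (1 + η) := Real.one_le_rpow hnR (by linarith)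
  have hmle : (m : ℝ) ≤ (D * |A| + 1) * (n : ℝ) ^ (1 + η) := by
    have h1 : (⌊D * A * (n : ℝ) ^ (1 + η)⌋₊ : ℝ) ≤ D * |A| * (n : ℝ) ^ (1 + η) := by
      rcases le_or_gt 0 (D * A * (n : ℝ) ^ (1 + η)) with h2 | h2
      · refine (Nat.floor_le h2).trans ?_
        refine mul_le_mul_of_nonneg_right ?_ (by linarith)
        exact mul_le_mul_of_nonneg_left (le_abs_self A) hDR.le
      · rw [Nat.floor_of_nonpos h2.le, Nat.cast_zero]
        positivity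
    rw [hm]
    push_cast
    linarith
  set Fm := (Finset.Icc 1 m).filter fun a : ℕ => ∃ b : ℤ,
      |(b : ℝ) / D - g ((a : ℝ) / D)| ≤ ((a : ℝ) / D) ^ (-κ) with hFm
  refine ⟨Fm.biUnion fun a : ℕ => (Finset.Icc ⌈(D : ℝ) * g ((a : ℝ) / D) - D⌉
    ⌊(D : ℝ) * g ((a : ℝ) / D) + D⌋).image fun b => ((a : ℤ), b), ?_, ?_⟩
  · have h1 : (Fm.biUnion fun a : ℕ => (Finset.Icc ⌈(D : ℝ) * g ((a : ℝ) / D) - D⌉
        ⌊(D : ℝ) * g ((a : ℝ) / D) + D⌋).image fun b => ((a : ℤ), b)).card ≤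
        Fm.card * (2 * D + 1) := by
      refine Finset.card_biUnion_le_card_mul _ _ _ fun a _ => ?_
      refine Finset.card_image_le.trans ?_
      rw [Int.card_Icc]
      have h2 : ((⌊(D : ℝ) * g ((a : ℝ) / D) + D⌋ : ℤ) : ℝ) ≤ D * g ((a : ℝ) / D) + D :=
        Int.floor_le _
      have h3 : (D : ℝ) * g ((a : ℝ) / D) - D ≤ ((⌈(D : ℝ) * g ((a : ℝ) / D) - D⌉ : ℤ) : ℝ) :=
        Int.le_ceil _
      have h4 : ((⌊(D : ℝ) * g ((a : ℝ) / D) + D⌋ + 1 - ⌈(D : ℝ) * g ((a : ℝ) / D) - D⌉ : ℤ) : ℝ)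
          ≤ ((2 * D + 1 : ℤ) : ℝ) := by
        push_cast
        linarith
      have h5 : ⌊(D : ℝ) * g ((a : ℝ) / D) + D⌋ + 1 - ⌈(D : ℝ) * g ((a : ℝ) / D) - D⌉ ≤
          (2 * D + 1 : ℤ) := by exact_mod_cast h4
      omega
    have h2 : ((Fm.biUnion fun a : ℕ => (Finset.Icc ⌈(D : ℝ) * g ((a : ℝ) / D) - D⌉
        ⌊(D : ℝ) * g ((a : ℝ) / D) + D⌋).image fun b => ((a : ℤ), b)).card : ℝ) ≤
        Fm.card * (2 * D + 1) := by exact_mod_cast h1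
    refine h2.trans ?_
    have h3 := h m hm1
    have h4 : (m : ℝ) ^ (1 - δ) ≤ (D * |A| + 1) ^ (1 - δ) * (n : ℝ) ^ ((1 + η) * (1 - δ)) := by
      rw [Real.rpow_mul (by linarith), ← Real.mul_rpow (by positivity) (by positivity)]
      exact Real.rpow_le_rpow (Nat.cast_nonneg _) hmle (by linarith)
    have h5 : (1 : ℝ) - (1 - (1 + η) * (1 - δ)) = (1 + η) * (1 - δ) := by ring
    rw [h5]
    calc (Fm.card : ℝ) * (2 * D + 1) ≤ (C * (m : ℝ) ^ (1 - δ)) * (2 * D + 1) :=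
          mul_le_mul_of_nonneg_right h3 (by positivity)
      _ ≤ (C * ((D * |A| + 1) ^ (1 - δ) * (n : ℝ) ^ ((1 + η) * (1 - δ)))) * (2 * D + 1) :=
          mul_le_mul_of_nonneg_right (mul_le_mul_of_nonneg_left h4 hC) (by positivity)
      _ = _ := by ring
  · intro a b ha hb hle
    have ha0 : (D : ℝ) ≤ a := by rwa [le_div_iff₀ hDR, one_mul] at ha
    have ha1 : (0 : ℝ) < (a : ℝ) := hDR.trans_le ha0
    have ha2 : 0 < a := by exact_mod_cast ha1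
    obtain ⟨c, rfl⟩ : ∃ c : ℕ, a = c := ⟨a.toNat, (Int.toNat_of_nonneg ha2.le).symm⟩
    have hc1 : 1 ≤ c := by exact_mod_cast ha2
    rw [Int.cast_natCast] at ha hb hle ha0 ha1
    have hcm : c ≤ m := by
      have h1 : (c : ℝ) ≤ D * A * (n : ℝ) ^ (1 + η) := by
        rw [div_le_iff₀ hDR] at hle
        linarith
      have h2 := Nat.lt_floor_add_one (D * A * (n : ℝ) ^ (1 + η))
      have h3 : (c : ℝ) < m := by
        rw [hm]; push_cast; linarith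
      exact (by exact_mod_cast h3.le)
    have hpow : ((c : ℝ) / D) ^ (-κ) ≤ 1 :=
      Real.rpow_le_one_of_one_le_of_nonpos ha (by linarith)
    have habs := hb.trans hpow
    rw [abs_le] at habs
    rw [Finset.mem_biUnion]
    refine ⟨c, ?_, ?_⟩
    · rw [hFm, Finset.mem_filter, Finset.mem_Icc]
      exact ⟨⟨hc1, hcm⟩, b, hb⟩
    · rw [Finset.mem_image]
      refine ⟨b, ?_, rfl⟩
      have h6 : (b : ℝ) / D * D = b := div_mul_cancel₀ _ hDR.ne'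
      rw [Finset.mem_Icc, Int.ceil_le, Int.le_floor]
      constructor
      · nlinarith [habs.1]
      · nlinarith [habs.2]

end Pool.Agent.FPO
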