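import Pool.Agent.FPO.Low
import Pool.Agent.FPO.ClB
import Pool.Agent.FPO.NTc
import Pool.Agent.FPO.Thc
import Pool.Agent.FPO.Equi
import Pool.Agent.FPO.Pui

/-!
# FPO module CaA: Case A, irregular roots of the initial polynomial (diff 3)

PROOF.  `fac` gives `j₀, s, Φ` with `FacD`.  Let `q = qf τ c` (`qf_props`), `h = X^{j₀} expand v Φ`, so
`ini = q^s h`, and `natDegree ini = s deg q + natDegree h`.  Let `J = natDegree ini`; the coefficient
of `X^J` in `ini` is nonzero, so `w = i_J + τ J` with a natural `i_J`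
(`exists_of_coeff_ini_ne_zero`).  Put `w₂ = w - τ s deg q = i_J + τ natDegree h`.
CASE 1: `i_J = 0` and `natDegree h = 0`.  Then `h = C b`, `b ≠ 0`, `ini = C b * q^s`,
`w = τ (s deg q)`: the first alternative, with `q`, `s` (`qf_props`).
CASE 2: otherwise `w₂ ≥ 1` (`τ ≥ 1`).  Then we prove the second alternative.
* Sizes.  `deg q ≥ 2`, so `J ≥ 2s`, `w ≥ τ J ≥ 2 τ s`.  Put `W = w - τ s`.  Then `W ≥ τ s ≥ s`, and
  `W > 1`, `w > 1 + τ`: if `τ > 1`: `W ≥ τ s > 1`, `w ≥ 2τ > 1 + τ`; if `τ = 1`: `w ≥ 3 > 2`, and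
  `W = w - s ≥ max(s, w - s)`: `s = 1` gives `W ≥ 2`, `s ≥ 2` gives `W ≥ s ≥ 2`.
  Let `κ > 0` with `W - κ s > 1`.
* Puiseux data: `pui` gives `K ≥ K₀`, `K ≥ 1`, `K > τ` and `p` with `PD F K p`.  `clb` (its `s` equals
  our `s` by `fac_mult`): with `I = {i : ldw (p i) = τ ∧ p i τ = c}`, `|I| = s`, in
  `Reg τ c ε₁ x₁`: `c' x^W ∏_{I} ‖y - psum (p i) x‖ ≤ |F| + x^{-K} ≤ n + 1 ≤ 2 n`.
  Let `g_i(x) = rsum (rePart (p i)) x`, `|y - g_i x| ≤ ‖y - psum (p i) x‖` (`re_psum`).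
* `equi` for `rePart (p i)`, `i ∈ I`, `e₀ = τ`, `D`, `A = 1`, `κ`: the coefficient at `τ` is `c`
  (algebraic, as `p i τ = c` is algebraic over `ℚ` in `ℂ`; irregular), there are no larger exponents
  (`eq_zero_of_ldw_lt`).  So `C, δ₁` (WLOG `δ₁ ≤ 1`) for all `i ∈ I`.
* Choose `η₁ > 0` with `(1+η₁)(1-δ₁) < 1` and `η ∈ (0,1)` with `1/(1-η) ≤ 1 + η₁`.  `low` with this
  `η` gives `P ≠ 0`, `ε₂`, `c''`, `x₂`: off `P = 0`, `c'' x^{1-η} ≤ |F| ≤ n`, so
  `x ≤ (n/c'')^{1/(1-η)} ≤ A n^{1+η₁}`.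
* Let `ε = min(ε₁, ε₂, 1)`, `x₁' = max`.  A point of the region with `|F| ≤ n`, `P ≠ 0`: either all
  `|y - g_i x| ≥ x^{-κ}`, `i ∈ I`, and it is in the set `T` of `ntc` (`ι = I` as a subtype, constant
  `c'/2`); or for some `i ∈ I`, `|y - g_i x| ≤ x^{-κ}` and it is in the set of `thc` for `g_i`.
  `T` = the union (`|I| + 1` sets), `G = P`, `δ` the minimum, `C` the sum of the constants.
-/

set_option autoImplicit false

open Polynomial

namespace Pool.Agent.FPO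

private theorem CaA_pow {n : ℕ} (hn : 1 ≤ n) (C : ℝ) {δ δ' : ℝ} (h : δ' ≤ δ) :
    C * (n : ℝ) ^ (1 - δ) ≤ |C| * (n : ℝ) ^ (1 - δ') := by
  have h1 : (1 : ℝ) ≤ n := by exact_mod_cast hn
  have h2 : (n : ℝ) ^ (1 - δ) ≤ (n : ℝ) ^ (1 - δ') :=
    Real.rpow_le_rpow_of_exponent_le h1 (by linarith)
  calc C * (n : ℝ) ^ (1 - δ) ≤ |C| * (n : ℝ) ^ (1 - δ) :=
        mul_le_mul_of_nonneg_right (le_abs_self C) (by positivity)
    _ ≤ |C| * (n : ℝ) ^ (1 - δ') := mul_le_mul_of_nonneg_left h2 (abs_nonneg C)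

/-- a common exponent -/
private theorem CaA_unif {ι : Type} [Fintype ι] {f : ι → ℕ → ℝ}
    (h : ∀ i, ∃ C δ : ℝ, 0 < δ ∧ ∀ n : ℕ, 1 ≤ n → f i n ≤ C * (n : ℝ) ^ (1 - δ)) :
    ∃ C δ : ℝ, 0 < δ ∧ δ ≤ 1 ∧ 0 ≤ C ∧ ∀ i, ∀ n : ℕ, 1 ≤ n → f i n ≤ C * (n : ℝ) ^ (1 - δ) := by
  classical
  choose C δ hδ h using h
  obtain ⟨δ₁, hδ1, hδ11, hδle⟩ : ∃ δ₁ : ℝ, 0 < δ₁ ∧ δ₁ ≤ 1 ∧ ∀ i, δ₁ ≤ δ i := by
    have key : ∀ S : Finset ι, ∃ δ₁ : ℝ, 0 < δ₁ ∧ δ₁ ≤ 1 ∧ ∀ i ∈ S, δ₁ ≤ δ i := by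
      intro S
      induction S using Finset.induction_on with
      | empty => exact ⟨1, one_pos, le_rfl, fun i hi => absurd hi (Finset.notMem_empty i)⟩
      | insert a S _ ih =>
        obtain ⟨d, hd, hd1, hdS⟩ := ih
        refine ⟨min d (δ a), lt_min hd (hδ a), (min_le_left _ _).trans hd1, ?_⟩
        intro i hi
        rcases Finset.mem_insert.1 hi with rfl | hi
        · exact min_le_right _ _
        · exact (min_le_left _ _).trans (hdS i hi)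
    obtain ⟨d, h1, h2, h3⟩ := key Finset.univ
    exact ⟨d, h1, h2, fun i => h3 i (Finset.mem_univ i)⟩
  refine ⟨∑ i, |C i|, δ₁, hδ1, hδ11, Finset.sum_nonneg fun i _ => abs_nonneg _, ?_⟩
  intro i n hn
  refine (h i n hn).trans ((CaA_pow hn (C i) (hδle i)).trans ?_)
  refine mul_le_mul_of_nonneg_right ?_ (by positivity)
  exact Finset.single_le_sum (f := fun i => |C i|) (fun j _ => abs_nonneg _) (Finset.mem_univ i)

/-- the numerical part of the sizes -/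
private theorem CaA_sizes {τ w d s : ℚ} (hτ : 1 ≤ τ) (hs : 1 ≤ s) (hd : 2 ≤ d)
    (hw : τ * (s * d) ≤ w) (h3 : τ = 1 → 3 ≤ w) (hs' : s = 1 ∨ 2 ≤ s) :
    s ≤ w - τ * s ∧ 1 < w - τ * s ∧ 1 + τ < w := by
  have h0 : 2 * (τ * s) ≤ w := by
    refine le_trans ?_ hw
    have : 0 ≤ τ * s := by positivity
    nlinarith
  have h1 : s ≤ τ * s := by nlinarith
  have h2 : τ ≤ τ * s := by nlinarith
  refine ⟨by linarith, ?_, ?_⟩
  · rcases eq_or_lt_of_le hτ with h | h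
    · subst h
      have := h3 rfl
      rcases hs' with rfl | hs'
      · linarith
      · linarith
    · linarith
  · rcases eq_or_lt_of_le hτ with h | h
    · subst h
      have := h3 rfl
      linarith
    · linarith

private theorem CaA_card {ι : Type} [Fintype ι] {Q : ι → ℕ → Finset (ℤ × ℤ) → Prop}
    (h : ∀ i, ∃ C δ : ℝ, 0 < δ ∧ ∀ n : ℕ, 1 ≤ n → ∃ T : Finset (ℤ × ℤ),
      (T.card : ℝ) ≤ C * (n : ℝ) ^ (1 - δ) ∧ Q i n T) :
    ∃ C δ : ℝ, 0 < δ ∧ ∀ n : ℕ, 1 ≤ n → ∃ T : ι → Finset (ℤ × ℤ),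
      (∑ i, ((T i).card : ℝ)) ≤ C * (n : ℝ) ^ (1 - δ) ∧ ∀ i, Q i n (T i) := by
  classical
  choose C δ hδ h using h
  have h' : ∀ i, ∀ n : ℕ, ∃ T : Finset (ℤ × ℤ), 1 ≤ n →
      ((T.card : ℝ) ≤ C i * (n : ℝ) ^ (1 - δ i) ∧ Q i n T) := by
    intro i n
    by_cases hn : 1 ≤ n
    · obtain ⟨T, hT⟩ := h i n hn
      exact ⟨T, fun _ => hT⟩
    · exact ⟨∅, fun h => absurd h hn⟩
  choose T hT using h'
  obtain ⟨C', δ', hδ', -, -, hC'⟩ := CaA_unif (ι := ι) (f := fun i n => ((T i n).card : ℝ))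
    (fun i => ⟨C i, δ i, hδ i, fun n hn => (hT i n hn).1⟩)
  refine ⟨Fintype.card ι * C', δ', hδ', fun n hn => ⟨fun i => T i n, ?_, fun i => (hT i n hn).2⟩⟩
  calc ∑ i, ((T i n).card : ℝ) ≤ ∑ _i : ι, C' * (n : ℝ) ^ (1 - δ') :=
        Finset.sum_le_sum fun i _ => hC' i n hn
    _ = Fintype.card ι * C' * (n : ℝ) ^ (1 - δ') := by
        rw [Finset.sum_const, Finset.card_univ, nsmul_eq_mul, mul_assoc]

theorem caseA (F : Bi) (τ w : ℚ) (hτ : 1 ≤ τ) (hw : HasWt τ w F) (c : ℝ) (hc : c ≠ 0)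
    (hirr : Irreg τ c) (h3 : τ = 1 → 3 ≤ w) (hroot : aeval c (ini τ w F) = 0) (D : ℕ)
    (hD : 0 < D) :
    (∃ (q : ℚ[X]) (s : ℕ), AltI τ c w F q s) ∨
      ∃ ε x₁ : ℝ, 0 < ε ∧ Sml F D (Reg τ c ε x₁) := by
  classical
  have hF : F ≠ 0 := hw.ne_zero
  obtain ⟨j₀, s, Φ, hfac⟩ := fac F τ w hτ hw c hc hroot
  have hfac' := hfac
  obtain ⟨hs, halg, hcop, hΦ, hini⟩ := hfac'
  obtain ⟨hqm, hq0, hq', hqc, hqe, hq2, hq1⟩ := qf_props τ hτ c hc halg
  have hq2 := hq2 hirr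
  set q := qf τ c with hq
  have hv : 0 < τ.den := τ.pos
  set h : ℚ[X] := X ^ j₀ * expand ℚ τ.den Φ with hh
  have hΦ0 : Φ ≠ 0 := by
    rintro rfl
    simp at hΦ
  have hh0 : h ≠ 0 := by
    rw [hh]
    refine mul_ne_zero (pow_ne_zero _ X_ne_zero) ?_
    rw [Ne, expand_eq_zero hv]
    exact hΦ0
  have hini' : ini τ w F = q ^ s * h := by
    rw [hini, map_mul, map_pow, hh, hq, qf]
    ring
  have hdeg : (ini τ w F).natDegree = s * q.natDegree + h.natDegree := by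
    rw [hini', (hqm.pow s).natDegree_mul' hh0, natDegree_pow]
  obtain ⟨iJ, hiJ, -, -⟩ := exists_of_coeff_ini_ne_zero (τ := τ) (w := w) (F := F)
    (j := (ini τ w F).natDegree) (leadingCoeff_ne_zero.2 hw.ini_ne_zero)
  rw [hdeg] at hiJ
  push_cast at hiJ
  by_cases hcase : iJ = 0 ∧ h.natDegree = 0
  · left
    obtain ⟨hi0, hd0⟩ := hcase
    rw [hi0, hd0] at hiJ
    obtain ⟨b, hb⟩ := natDegree_eq_zero.1 hd0
    refine ⟨q, s, b, ?_, hqm, hq0, hq', hqc, hs, ?_, ?_, hqe, hq1⟩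
    · rintro rfl
      exact hh0 (by rw [← hb, map_zero])
    · rw [hini', ← hb, mul_comm]
    · rw [← hiJ]
      push_cast
      ring
  · right
    have hw₂ : 1 ≤ w - τ * (s * q.natDegree) := by
      have h1 : w - τ * (s * q.natDegree) = iJ + τ * h.natDegree := by
        rw [← hiJ]
        ring
      rw [h1]
      by_cases hi : iJ = 0
      · have h2 : 1 ≤ h.natDegree := by
          by_contra h2
          exact hcase ⟨hi, by omega⟩
        have h2' : (1 : ℚ) ≤ h.natDegree := by exact_mod_cast h2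
        have h4 : (0 : ℚ) ≤ iJ := by positivity
        nlinarith
      · have h2 : (1 : ℚ) ≤ iJ := by
          exact_mod_cast (by omega : 1 ≤ iJ)
        have h4 : (0 : ℚ) ≤ τ * h.natDegree := by positivity
        linarith
    have hsq : (1 : ℚ) ≤ s := by exact_mod_cast hs
    have hdq : (2 : ℚ) ≤ q.natDegree := by exact_mod_cast hq2
    obtain ⟨hz1, hz2, hz3⟩ := CaA_sizes (τ := τ) (w := w) (d := q.natDegree) (s := s) hτ hsq hdq
      (by linarith) h3 (by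
        rcases Nat.lt_or_ge s 2 with h5 | h5
        · left
          have : s = 1 := by omega
          exact_mod_cast this
        · right
          exact_mod_cast h5)
    -- Puiseux data
    obtain ⟨K₀, hK₀⟩ := pui F hF
    obtain ⟨K, hK1, hK2, hK3⟩ : ∃ K : ℕ, K₀ ≤ K ∧ 1 ≤ K ∧ τ < K := by
      refine ⟨max K₀ (⌈τ⌉₊ + 1), le_max_left _ _, (le_max_right _ _).trans' (by omega), ?_⟩
      have h5 : τ ≤ ⌈τ⌉₊ := Nat.le_ceil τ
      have h6 : ((⌈τ⌉₊ + 1 : ℕ) : ℚ) ≤ (max K₀ (⌈τ⌉₊ + 1) : ℕ) := by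
        exact_mod_cast le_max_right _ _
      push_cast at h6 ⊢
      linarith
    obtain ⟨p, hp⟩ := hK₀ K hK1
    obtain ⟨hmult, ε₁, c', x₁, hε₁, hc', hx₁, hclb⟩ := clb F hF K p hp τ hτ hK3 c hc w hw
    rw [fac_mult F τ w hτ c hc j₀ s Φ hfac] at hmult
    set I := Finset.univ.filter fun i => ldw (p i) = τ ∧ p i τ = (c : ℂ) with hI
    have hIc : (I.card : ℝ) = s := by rw [← hmult]
    rw [hIc] at hclb
    -- real parameters
    have hτR : (1 : ℝ) ≤ (τ : ℝ) := by exact_mod_cast hτ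
    have hsR : (1 : ℝ) ≤ (s : ℝ) := by exact_mod_cast hs
    have hz1R : (s : ℝ) ≤ (w : ℝ) - τ * s := by exact_mod_cast hz1
    have hz2R : (1 : ℝ) < (w : ℝ) - τ * s := by exact_mod_cast hz2
    have hz3R : (1 : ℝ) + τ < w := by exact_mod_cast hz3
    set W : ℝ := (w : ℝ) - τ * s with hW
    obtain ⟨κ, hκ, hκW⟩ : ∃ κ : ℝ, 0 < κ ∧ 1 < W - κ * s := by
      refine ⟨(W - 1) / (2 * s), div_pos (by linarith) (by linarith), ?_⟩
      have : (W - 1) / (2 * s) * s = (W - 1) / 2 := by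
        field_simp
      rw [this]
      linarith
    -- equidistribution
    have heq : ∀ i : I, ∃ C δ : ℝ, 0 < δ ∧ ∀ n : ℕ, 1 ≤ n →
        (((Finset.Icc 1 n).filter fun a : ℕ => ∃ b : ℤ,
          |(b : ℝ) / D - rsum (rePart (p i)) ((a : ℝ) / D)| ≤ ((a : ℝ) / D) ^ (-κ)).card : ℝ) ≤
          C * (n : ℝ) ^ (1 - δ) := by
      rintro ⟨i, hi⟩
      rw [hI, Finset.mem_filter] at hi
      obtain ⟨-, hi1, hi2⟩ := hi
      have hre : rePart (p i) τ = c := by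
        rw [rePart_apply, hi2, Complex.ofReal_re]
      have hcalg : IsAlgebraic ℚ c := by
        have h5 := hp.1 i τ
        rw [hi2] at h5
        exact (isAlgebraic_algebraMap_iff (R := ℚ) (S := ℝ) (A := ℂ)
          (algebraMap ℝ ℂ).injective).1 h5
      obtain ⟨C, δ, hδ, hC⟩ := equi (rePart (p i)) τ (by linarith) (by rw [hre]; exact hc)
        (by rw [hre]; exact hcalg) (by rw [hre]; exact hirr)
        (by
          intro e he hne
          exfalso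
          apply hne
          rw [rePart_apply, eq_zero_of_ldw_lt (by rw [hi1]; exact he), Complex.zero_re])
        D hD 1 κ hκ
      refine ⟨C, δ, hδ, fun n hn => ?_⟩
      have h6 := hC n hn
      simp only [one_mul] at h6
      convert h6 using 3
    obtain ⟨C₁, δ₁, hδ₁, hδ₁1, -, hC₁⟩ := CaA_unif heq
    -- the lower bound
    have hη₁ : (1 + δ₁) * (1 - δ₁) < 1 := by nlinarith
    obtain ⟨P, hP, ε₂, c₂, x₂, hε₂, hc₂, hx₂, hlow⟩ := low F τ w hτ hw c hc j₀ s Φ hfac hw₂ D hD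
      (δ₁ / (1 + δ₁)) (by positivity)
    have hxbound : ∀ n : ℕ, 1 ≤ n → ∀ x : ℝ, 1 ≤ x → c₂ * x ^ (1 - δ₁ / (1 + δ₁)) ≤ n →
        x ≤ (1 / c₂) ^ (1 + δ₁) * (n : ℝ) ^ (1 + δ₁) := by
      intro n hn x hx hle
      have e1 : 1 - δ₁ / (1 + δ₁) = (1 + δ₁)⁻¹ := by
        field_simp
        ring
      rw [e1] at hle
      have h5 : x ^ (1 + δ₁)⁻¹ ≤ (1 / c₂) * n := by
        rw [one_div, ← div_eq_inv_mul, le_div_iff₀ hc₂, mul_comm]
        exact hle
      have h6 : (x ^ (1 + δ₁)⁻¹) ^ (1 + δ₁) ≤ ((1 / c₂) * n) ^ (1 + δ₁) :=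
        Real.rpow_le_rpow (by positivity) h5 (by linarith)
      rw [← Real.rpow_mul (by linarith), inv_mul_cancel₀ (by linarith), Real.rpow_one,
        Real.mul_rpow (by positivity) (by positivity)] at h6
      exact h6
    -- counting
    have hcardI : (Fintype.card I : ℝ) = s := by
      rw [Fintype.card_coe]
      exact hIc
    obtain ⟨C₃, δ₃, hδ₃, hntc⟩ := ntc D hD I (fun i => fun x => rsum (rePart (p i)) x) c τ W κ
      (c' / 2) (by rw [Fintype.card_coe, ← hmult]; exact hs) hτR (by rw [hcardI]; exact hz1R) hκ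
      (by rw [hcardI]; exact hκW) (by rw [hcardI, hW]; linarith) (by positivity)
    obtain ⟨C₄, δ₄, hδ₄, hthc⟩ := CaA_card (ι := I) (Q := fun i n T => ∀ a b : ℤ,
      1 ≤ (a : ℝ) / D →
        |(b : ℝ) / D - rsum (rePart (p i)) ((a : ℝ) / D)| ≤ ((a : ℝ) / D) ^ (-κ) →
        (a : ℝ) / D ≤ (1 / c₂) ^ (1 + δ₁) * (n : ℝ) ^ (1 + δ₁) → (a, b) ∈ T)
      (fun i => thc D hD (fun x => rsum (rePart (p i)) x) κ hκ C₁ δ₁ hδ₁ hδ₁1
        (fun n hn => by
          have h7 := hC₁ i n hn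
          convert h7 using 3) δ₁ ((1 / c₂) ^ (1 + δ₁)) hδ₁ hη₁)
    refine ⟨min (min ε₁ ε₂) 1, max x₁ x₂, lt_min (lt_min hε₁ hε₂) one_pos, P, hP,
      |C₃| + |C₄|, min δ₃ δ₄, lt_min hδ₃ hδ₄, ?_⟩
    intro n hn
    obtain ⟨T₃, hT₃, hT₃'⟩ := hntc n hn
    obtain ⟨T₄, hT₄, hT₄'⟩ := hthc n hn
    refine ⟨T₃ ∪ Finset.univ.biUnion T₄, ?_, ?_⟩
    · have h8 : ((T₃ ∪ Finset.univ.biUnion T₄).card : ℝ) ≤ T₃.card + ∑ i, ((T₄ i).card : ℝ) := by
        have h9 : (T₃ ∪ Finset.univ.biUnion T₄).card ≤ T₃.card + ∑ i, (T₄ i).card :=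
          (Finset.card_union_le _ _).trans (Nat.add_le_add_left Finset.card_biUnion_le _)
        exact_mod_cast h9
      have h10 := CaA_pow hn C₃ (min_le_left δ₃ δ₄)
      have h11 := CaA_pow hn C₄ (min_le_right δ₃ δ₄)
      calc ((T₃ ∪ Finset.univ.biUnion T₄).card : ℝ) ≤ T₃.card + ∑ i, ((T₄ i).card : ℝ) := h8
        _ ≤ |C₃| * (n : ℝ) ^ (1 - min δ₃ δ₄) + |C₄| * (n : ℝ) ^ (1 - min δ₃ δ₄) := by
            linarith
        _ = (|C₃| + |C₄|) * (n : ℝ) ^ (1 - min δ₃ δ₄) := by ring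
    · rintro a b ⟨hr1, hr2⟩ hFn hPn
      simp only at hr1 hr2
      set x : ℝ := (a : ℝ) / D with hx
      set y : ℝ := (b : ℝ) / D with hy
      have hxx₁ : x₁ ≤ x := (le_max_left _ _).trans hr1
      have hxx₂ : x₂ ≤ x := (le_max_right _ _).trans hr1
      have hx1 : 1 ≤ x := hx₁.trans hxx₁
      have hxpos : 0 < x := by linarith
      have hxτ : 0 ≤ x ^ (τ : ℝ) := by positivity
      have hr3 : |y - c * x ^ (τ : ℝ)| ≤ ε₁ * x ^ (τ : ℝ) :=
        hr2.trans (mul_le_mul_of_nonneg_right ((min_le_left _ _).trans (min_le_left _ _)) hxτ)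
      have hr4 : |y - c * x ^ (τ : ℝ)| ≤ ε₂ * x ^ (τ : ℝ) :=
        hr2.trans (mul_le_mul_of_nonneg_right ((min_le_left _ _).trans (min_le_right _ _)) hxτ)
      have hr5 : |y - c * x ^ (τ : ℝ)| ≤ x ^ (τ : ℝ) := by
        refine hr2.trans ?_
        calc min (min ε₁ ε₂) 1 * x ^ (τ : ℝ) ≤ 1 * x ^ (τ : ℝ) :=
              mul_le_mul_of_nonneg_right (min_le_right _ _) hxτ
          _ = x ^ (τ : ℝ) := one_mul _
      rw [Finset.mem_union, Finset.mem_biUnion]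
      by_cases hall : ∀ i : I, x ^ (-κ) ≤ |y - rsum (rePart (p i)) x|
      · left
        refine hT₃' a b hx1 hr5 hall ?_
        have h12 := hclb x hxx₁ y hr3
        have h13 : x ^ (-(K : ℝ)) ≤ 1 := by
          apply Real.rpow_le_one_of_one_le_of_nonpos hx1
          have : (0 : ℝ) ≤ K := by positivity
          linarith
        have h14 : (1 : ℝ) ≤ n := by exact_mod_cast hn
        have h15 : ∏ i : I, |y - rsum (rePart (p i)) x| ≤
            ∏ i ∈ I, ‖(y : ℂ) - psum (p i) x‖ := by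
          rw [← Finset.prod_coe_sort I (fun i => ‖(y : ℂ) - psum (p i) x‖)]
          apply Finset.prod_le_prod
          · intro i _
            exact abs_nonneg _
          · intro i _
            rw [← re_psum]
            have h16 : y - (psum (p i) x).re = ((y : ℂ) - psum (p i) x).re := by
              rw [Complex.sub_re, Complex.ofReal_re]
            rw [h16]
            exact Complex.abs_re_le_norm _
        have h17 : c' / 2 * (x ^ W * ∏ i : I, |y - rsum (rePart (p i)) x|) ≤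
            c' / 2 * (x ^ W * ∏ i ∈ I, ‖(y : ℂ) - psum (p i) x‖) := by
          gcongr
        refine h17.trans ?_
        have h18 : c' * (x ^ W * ∏ i ∈ I, ‖(y : ℂ) - psum (p i) x‖) ≤ 2 * n := by
          refine h12.trans ?_
          linarith
        linarith
      · right
        push Not at hall
        obtain ⟨i, hi⟩ := hall
        refine ⟨i, Finset.mem_univ i, hT₄' i a b hx1 hi.le ?_⟩
        exact hxbound n hn x hx1 ((hlow a b ⟨hxx₂, hr4⟩ hPn).trans hFn)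

end Pool.Agent.FPO
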