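import Pool.Agent.FPO.Api

/-!
# FPO module LFm: top forms (diff 2)

`hc P = homogeneousComponent P.totalDegree P`.

PROOF of `lf_mono`.  Let `d_X, d_Y` be the total degrees and `N = a d_X + b d_Y`.  By `bv_eq_sum`,
`bv F X₀ Y₀ = ∑ C (cf F i j) * X₀^i * Y₀^j`.  `totalDegree (X₀^i Y₀^j) ≤ i d_X + j d_Y`, so
all terms with `(i,j) ≠ (a,b)`, `cf F i j ≠ 0` have total degree `< N`, and their homogeneous
component of degree `N` vanishes (`homogeneousComponent_eq_zero`).  For `(a, b)`: write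
`X₀ = hc X₀ + (lower)`; the component of degree `N` of `X₀^a Y₀^b` is `(hc X₀)^a (hc Y₀)^b`
(general fact: if `totalDegree P ≤ m`, `totalDegree Q ≤ n` then
`homogeneousComponent (m+n) (P * Q) = homogeneousComponent m P * homogeneousComponent n Q`; prove it
from `MvPolynomial.coeff_mul`/`homogeneousComponent` sums, e.g. writing `P` as the sum of its
homogeneous components; then induction for powers).  It is nonzero, as `hc X₀ ≠ 0`, `hc Y₀ ≠ 0`
(`MvPolynomial.homogeneousComponent_totalDegree_ne_zero`-type: some monomial of maximal degree) and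
the ring is a domain.  So `totalDegree = N` (`≤ N` from the terms, `≥ N` because the component of
degree `N` is nonzero).

PROOF of `lfa`.  Let `e = τ deg q` (natural number), `a = s e`, so `w = a`.  `cf F a 0` is the
coefficient of `X^0` in `ini τ w F = C b * q^s` (`coeff_ini_of` with `i = a`, `j = 0`), that is
`b q(0)^s ≠ 0`.  Uniqueness: if `cf F i j ≠ 0` then `i + τ j ≤ a`.  If `j = 0` and `i ≠ a`: `i < a` and
`d_X > 0` (as `0 ≤ d_Y < τ d_X`).  If `j ≥ 1`: `i d_X + j d_Y < i d_X + j τ d_X = (i + τ j) d_X ≤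
a d_X`.  So `lf_mono` with `b = 0`: `F₀.totalDegree = a d_X`,
`hc F₀ = C (..) (hc X₀)^a = C (.. κ^a) ℓ^{d_X a}`; `a d_X = s e d_X` is even.

PROOF of `lfb`.  `M = s deg q`; `cf F 0 M` is the coefficient of `X^M` in `C b * q^s`, i.e. `b ≠ 0`
(`0 + τ M = w`).  Uniqueness: let `cf F i j ≠ 0`, `(i,j) ≠ (0, M)`: `i + τ j ≤ τ M`.  If `i = 0`, then
`j < M` and `d_Y > 0`.  If `i ≥ 1`, then `τ (M - j) ≥ i > 0`, so `M > j` and
`(M - j) d_Y > (M - j) τ d_X ≥ i d_X`.  So `hc F₀ = C b (hc Y₀)^M`, `F₀.totalDegree = M d_Y`, even.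
-/

set_option autoImplicit false

open Polynomial

namespace Pool.Agent.FPO

namespace LFm

open MvPolynomial (coeff homogeneousComponent)

theorem deg_le_of_mem {P : MvPolynomial (Fin 2) ℚ} {m : ℕ} (h : P.totalDegree ≤ m)
    {a : Fin 2 →₀ ℕ} (ha : MvPolynomial.coeff a P ≠ 0) : a.degree ≤ m := by
  have h1 := MvPolynomial.le_totalDegree (MvPolynomial.mem_support_iff.2 ha)
  exact h1.trans h

theorem hcmul {P Q : MvPolynomial (Fin 2) ℚ} {m n : ℕ} (hP : P.totalDegree ≤ m)
    (hQ : Q.totalDegree ≤ n) : MvPolynomial.homogeneousComponent (m + n) (P * Q) =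
      MvPolynomial.homogeneousComponent m P * MvPolynomial.homogeneousComponent n Q := by
  ext d
  rw [MvPolynomial.coeff_homogeneousComponent, MvPolynomial.coeff_mul, MvPolynomial.coeff_mul]
  simp only [MvPolynomial.coeff_homogeneousComponent]
  split_ifs with hd
  · refine Finset.sum_congr rfl fun x hx => ?_
    have hx1 : x.1 + x.2 = d := Finset.HasAntidiagonal.mem_antidiagonal.1 hx
    have hx2 : x.1.degree + x.2.degree = m + n := by
      rw [← hd, ← hx1, map_add]
    by_cases h1 : MvPolynomial.coeff x.1 P = 0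
    · simp [h1]
    by_cases h2 : MvPolynomial.coeff x.2 Q = 0
    · simp [h2]
    have h3 := deg_le_of_mem hP h1
    have h4 := deg_le_of_mem hQ h2
    rw [if_pos (by omega), if_pos (by omega)]
  · symm
    refine Finset.sum_eq_zero fun x hx => ?_
    have hx1 : x.1 + x.2 = d := Finset.HasAntidiagonal.mem_antidiagonal.1 hx
    by_cases h3 : x.1.degree = m
    · by_cases h4 : x.2.degree = n
      · exfalso
        apply hd
        rw [← hx1, map_add, h3, h4]
      · rw [if_neg h4, mul_zero]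
    · rw [if_neg h3, zero_mul]

theorem hcpow (P : MvPolynomial (Fin 2) ℚ) (i : ℕ) :
    MvPolynomial.homogeneousComponent (i * P.totalDegree) (P ^ i) = hc P ^ i := by
  induction i with
  | zero =>
    rw [Nat.zero_mul, pow_zero, pow_zero, MvPolynomial.homogeneousComponent_zero]
    simp
  | succ i ih =>
    rw [Nat.succ_mul, pow_succ, pow_succ,
      hcmul (MvPolynomial.totalDegree_pow P i) le_rfl, ih]
    rfl

theorem hc_ne {P : MvPolynomial (Fin 2) ℚ} (hP : P ≠ 0) : hc P ≠ 0 := by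
  intro h
  obtain ⟨s, hs, hs2⟩ := Finset.exists_mem_eq_sup P.support (MvPolynomial.support_nonempty.2 hP)
    (fun s => s.degree)
  have h1 : P.totalDegree = s.degree := hs2
  have h2 : MvPolynomial.coeff s (hc P) = MvPolynomial.coeff s P := by
    rw [hc, MvPolynomial.coeff_homogeneousComponent, if_pos h1.symm]
  rw [h, MvPolynomial.coeff_zero] at h2
  exact (MvPolynomial.mem_support_iff.1 hs) h2.symm

end LFm

open LFm in
theorem lf_mono (X₀ Y₀ : MvPolynomial (Fin 2) ℚ) (hX : X₀ ≠ 0) (hY : Y₀ ≠ 0) (F : Bi) (a b : ℕ)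
    (hab : cf F a b ≠ 0)
    (huniq : ∀ i j, cf F i j ≠ 0 → (i, j) ≠ (a, b) →
      i * X₀.totalDegree + j * Y₀.totalDegree < a * X₀.totalDegree + b * Y₀.totalDegree) :
    (bv F X₀ Y₀).totalDegree = a * X₀.totalDegree + b * Y₀.totalDegree ∧
      hc (bv F X₀ Y₀) = MvPolynomial.C (cf F a b) * hc X₀ ^ a * hc Y₀ ^ b := by
  set N := a * X₀.totalDegree + b * Y₀.totalDegree with hN
  have hterm : ∀ i j, ((MvPolynomial.C (cf F i j) : MvPolynomial (Fin 2) ℚ) * (X₀ ^ i * Y₀ ^ j)).totalDegree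
      ≤ i * X₀.totalDegree + j * Y₀.totalDegree := by
    intro i j
    refine (MvPolynomial.totalDegree_mul _ _).trans ?_
    rw [MvPolynomial.totalDegree_C, zero_add]
    refine (MvPolynomial.totalDegree_mul _ _).trans ?_
    exact add_le_add (MvPolynomial.totalDegree_pow _ _) (MvPolynomial.totalDegree_pow _ _)
  have hbv : bv F X₀ Y₀ = ∑ j ∈ Finset.range (F.natDegree + 1), ∑ i ∈ Finset.range (xdeg F + 1),
      (MvPolynomial.C (cf F i j) : MvPolynomial (Fin 2) ℚ) * (X₀ ^ i * Y₀ ^ j) := by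
    rw [bv_eq_sum]
    refine Finset.sum_congr rfl fun j _ => Finset.sum_congr rfl fun i _ => ?_
    rw [← mul_assoc]
    rfl
  have hhc : ∀ i j, MvPolynomial.homogeneousComponent N
      ((MvPolynomial.C (cf F i j) : MvPolynomial (Fin 2) ℚ) * (X₀ ^ i * Y₀ ^ j)) =
      if j = b ∧ i = a then MvPolynomial.C (cf F a b) * hc X₀ ^ a * hc Y₀ ^ b else 0 := by
    intro i j
    split_ifs with h
    · obtain ⟨rfl, rfl⟩ := h
      rw [MvPolynomial.homogeneousComponent_C_mul, hN,
        hcmul (MvPolynomial.totalDegree_pow X₀ i) (MvPolynomial.totalDegree_pow Y₀ j),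
        hcpow, hcpow, mul_assoc]
    · by_cases h0 : cf F i j = 0
      · rw [h0, map_zero, zero_mul, map_zero]
      · apply MvPolynomial.homogeneousComponent_eq_zero
        refine lt_of_le_of_lt (hterm i j) (huniq i j h0 ?_)
        intro h1
        rw [Prod.mk.injEq] at h1
        exact h ⟨h1.2, h1.1⟩
  have ha : a ∈ Finset.range (xdeg F + 1) := by
    rw [Finset.mem_range]
    by_contra h
    exact hab (cf_eq_zero_of_xdeg (by omega))
  have hb : b ∈ Finset.range (F.natDegree + 1) := by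
    rw [Finset.mem_range]
    by_contra h
    exact hab (cf_eq_zero_of_natDegree (by omega))
  have hcomp : MvPolynomial.homogeneousComponent N (bv F X₀ Y₀) =
      MvPolynomial.C (cf F a b) * hc X₀ ^ a * hc Y₀ ^ b := by
    rw [hbv, map_sum, Finset.sum_eq_single b]
    · rw [map_sum, Finset.sum_eq_single a]
      · rw [hhc, if_pos ⟨rfl, rfl⟩]
      · intro i _ hi
        rw [hhc, if_neg]
        rintro ⟨-, h⟩
        exact hi h
      · intro h
        exact absurd ha h
    · intro j _ hj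
      rw [map_sum]
      refine Finset.sum_eq_zero fun i _ => ?_
      rw [hhc, if_neg]
      rintro ⟨h, -⟩
      exact hj h
    · intro h
      exact absurd hb h
  have hle : (bv F X₀ Y₀).totalDegree ≤ N := by
    rw [hbv]
    refine MvPolynomial.totalDegree_finsetSum_le fun j _ =>
      MvPolynomial.totalDegree_finsetSum_le fun i _ => ?_
    by_cases h0 : cf F i j = 0
    · rw [h0, map_zero, zero_mul, MvPolynomial.totalDegree_zero]
      exact Nat.zero_le _
    · by_cases h1 : (i, j) = (a, b)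
      · rw [Prod.mk.injEq] at h1
        obtain ⟨rfl, rfl⟩ := h1
        exact hterm i j
      · exact (hterm i j).trans (huniq i j h0 h1).le
  have hne : MvPolynomial.homogeneousComponent N (bv F X₀ Y₀) ≠ 0 := by
    rw [hcomp]
    refine mul_ne_zero (mul_ne_zero ?_ (pow_ne_zero _ (hc_ne hX))) (pow_ne_zero _ (hc_ne hY))
    rw [Ne, MvPolynomial.C_eq_zero]
    exact hab
  have hge : N ≤ (bv F X₀ Y₀).totalDegree := by
    by_contra h
    exact hne (MvPolynomial.homogeneousComponent_eq_zero _ _ (not_le.1 h))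
  have heq := le_antisymm hle hge
  refine ⟨heq, ?_⟩
  rw [hc, heq]
  exact hcomp

theorem lfa {ℓ F₀ X₀ Y₀ : MvPolynomial (Fin 2) ℚ} {F : Bi} (h : bv F X₀ Y₀ = F₀)
    (hX : X₀ ≠ 0) (hY : Y₀ ≠ 0) (hL : Lfp ℓ X₀) {τ w : ℚ} {c : ℝ} {q : ℚ[X]} {s : ℕ}
    (hw : HasWt τ w F) (hA : AltI τ c w F q s) (hs : Even s)
    (hdeg : (Y₀.totalDegree : ℚ) < τ * X₀.totalDegree) :
    Even F₀.totalDegree ∧ ∃ κ : ℚ, hc F₀ = MvPolynomial.C κ * ℓ ^ F₀.totalDegree := by
  obtain ⟨κ, hκ, hκX⟩ := hL
  obtain ⟨b, hb, hmon, -, -, hq0, hs1, hini, hwt, ⟨e, he⟩, -⟩ := hA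
  have hY0 : (0 : ℚ) ≤ (Y₀.totalDegree : ℚ) := by positivity
  have hX0 : (0 : ℚ) ≤ (X₀.totalDegree : ℚ) := by positivity
  have hXpos : (0 : ℚ) < (X₀.totalDegree : ℚ) := by
    rcases hX0.eq_or_lt with h0 | h0
    · rw [← h0, mul_zero] at hdeg
      linarith
    · exact h0
  have haw : ((s * e : ℕ) : ℚ) = w := by
    push_cast
    rw [he, hwt]
    ring
  have hcf : cf F (s * e) 0 ≠ 0 := by
    rw [← coeff_ini_of (τ := τ) (w := w) (F := F) (i := s * e) (j := 0)
      (by rw [haw]; push_cast; ring), hini, coeff_C_mul, coeff_zero_eq_eval_zero, eval_pow,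
      ← coeff_zero_eq_eval_zero]
    exact mul_ne_zero hb (pow_ne_zero _ hq0)
  have hmain := lf_mono X₀ Y₀ hX hY F (s * e) 0 hcf (by
    intro i j hij hne
    have h1 := hw.1 i j hij
    rw [← haw] at h1
    have hgoal : ((i * X₀.totalDegree + j * Y₀.totalDegree : ℕ) : ℚ)
        < ((s * e * X₀.totalDegree + 0 * Y₀.totalDegree : ℕ) : ℚ) := by
      rw [Nat.zero_mul, add_zero]
      push_cast
      push_cast at h1
      rcases Nat.eq_zero_or_pos j with hj | hj
      · subst hj
        have hi : i ≠ s * e := fun h2 => hne (by rw [h2])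
        have h2 : (i : ℚ) ≤ ((s * e : ℕ) : ℚ) := by
          push_cast
          push_cast at h1
          linarith
        have h3 : i ≤ s * e := by exact_mod_cast h2
        have h4 : i < s * e := lt_of_le_of_ne h3 hi
        have h5 : (i : ℚ) < (s : ℚ) * e := by exact_mod_cast h4
        push_cast
        nlinarith
      · have hj' : (1 : ℚ) ≤ (j : ℚ) := by exact_mod_cast hj
        have h6 : (j : ℚ) * Y₀.totalDegree < (j : ℚ) * (τ * X₀.totalDegree) :=
          mul_lt_mul_of_pos_left hdeg (by linarith)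
        have h7 : ((i : ℚ) + τ * j) * X₀.totalDegree ≤ ((s : ℚ) * e) * X₀.totalDegree :=
          mul_le_mul_of_nonneg_right h1 hX0
        nlinarith
    exact_mod_cast hgoal)
  rw [h, Nat.zero_mul, add_zero, pow_zero, mul_one] at hmain
  obtain ⟨hd, hh⟩ := hmain
  refine ⟨?_, cf F (s * e) 0 * κ ^ (s * e), ?_⟩
  · rw [hd, mul_assoc]
    exact hs.mul_right _
  · rw [hh, hd]
    have h1 : hc X₀ = MvPolynomial.C κ * ℓ ^ X₀.totalDegree := hκX
    rw [h1, mul_pow, ← pow_mul, mul_comm X₀.totalDegree (s * e), map_mul, map_pow]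
    ring

theorem lfb {ℓ F₀ X₀ Y₀ : MvPolynomial (Fin 2) ℚ} {F : Bi} (h : bv F X₀ Y₀ = F₀)
    (hX : X₀ ≠ 0) (hY : Y₀ ≠ 0) (hL : Lfp ℓ Y₀) {τ w : ℚ} {c : ℝ} {q : ℚ[X]} {s : ℕ} (hτ : 0 < τ)
    (hw : HasWt τ w F) (hA : AltI τ c w F q s) (hs : Even s)
    (hdeg : τ * X₀.totalDegree < (Y₀.totalDegree : ℚ)) :
    Even F₀.totalDegree ∧ ∃ κ : ℚ, hc F₀ = MvPolynomial.C κ * ℓ ^ F₀.totalDegree := by
  obtain ⟨κ, hκ, hκX⟩ := hL
  obtain ⟨b, hb, hmon, -, -, hq0, hs1, hini, hwt, -, -⟩ := hA
  have hX0 : (0 : ℚ) ≤ (X₀.totalDegree : ℚ) := by positivity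
  have hYpos : (0 : ℚ) < (Y₀.totalDegree : ℚ) := by
    have : (0 : ℚ) ≤ τ * X₀.totalDegree := by positivity
    linarith
  have hMw : τ * ((s * q.natDegree : ℕ) : ℚ) = w := by
    rw [hwt]
    push_cast
    ring
  have hcf : cf F 0 (s * q.natDegree) ≠ 0 := by
    rw [← coeff_ini_of (τ := τ) (w := w) (F := F) (i := 0) (j := s * q.natDegree)
      (by rw [← hMw]; push_cast; ring), hini, coeff_C_mul, coeff_pow_mul_natDegree,
      hmon.leadingCoeff, one_pow, mul_one]
    exact hb
  have hmain := lf_mono X₀ Y₀ hX hY F 0 (s * q.natDegree) hcf (by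
    intro i j hij hne
    have h1 := hw.1 i j hij
    rw [← hMw] at h1
    have hgoal : ((i * X₀.totalDegree + j * Y₀.totalDegree : ℕ) : ℚ)
        < ((0 * X₀.totalDegree + s * q.natDegree * Y₀.totalDegree : ℕ) : ℚ) := by
      rw [Nat.zero_mul, zero_add]
      rcases Nat.eq_zero_or_pos i with hi | hi
      · subst hi
        have hj : j ≠ s * q.natDegree := fun h2 => hne (by rw [h2])
        have h2 : (j : ℚ) ≤ ((s * q.natDegree : ℕ) : ℚ) := by
          have h3 : τ * (j : ℚ) ≤ τ * ((s * q.natDegree : ℕ) : ℚ) := by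
            have h4 : ((0 : ℕ) : ℚ) = 0 := Nat.cast_zero
            rw [h4] at h1
            linarith
          exact le_of_mul_le_mul_left h3 hτ
        have h3 : j ≤ s * q.natDegree := by exact_mod_cast h2
        have h4 : j < s * q.natDegree := lt_of_le_of_ne h3 hj
        have h5 : (j : ℚ) < ((s * q.natDegree : ℕ) : ℚ) := by exact_mod_cast h4
        push_cast
        push_cast at h5
        nlinarith
      · have hi' : (1 : ℚ) ≤ (i : ℚ) := by exact_mod_cast hi
        have h6 : (i : ℚ) ≤ τ * (((s * q.natDegree : ℕ) : ℚ) - j) := by linarith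
        have h7 : 0 < τ * (((s * q.natDegree : ℕ) : ℚ) - j) := by linarith
        have h8 : (0 : ℚ) < ((s * q.natDegree : ℕ) : ℚ) - j := (pos_iff_pos_of_mul_pos h7).1 hτ
        have h9 : (i : ℚ) * X₀.totalDegree ≤ (((s * q.natDegree : ℕ) : ℚ) - j) *
            (τ * X₀.totalDegree) := by
          have := mul_le_mul_of_nonneg_right h6 hX0
          linarith
        have h10 : (((s * q.natDegree : ℕ) : ℚ) - j) * (τ * X₀.totalDegree) <
            (((s * q.natDegree : ℕ) : ℚ) - j) * Y₀.totalDegree := mul_lt_mul_of_pos_left hdeg h8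
        push_cast at h9 h10 ⊢
        linarith
    exact_mod_cast hgoal)
  rw [h, Nat.zero_mul, zero_add, pow_zero, mul_one] at hmain
  obtain ⟨hd, hh⟩ := hmain
  refine ⟨?_, cf F 0 (s * q.natDegree) * κ ^ (s * q.natDegree), ?_⟩
  · rw [hd, mul_assoc]
    exact hs.mul_right _
  · rw [hh, hd]
    have h1 : hc Y₀ = MvPolynomial.C κ * ℓ ^ Y₀.totalDegree := hκX
    rw [h1, mul_pow, ← pow_mul, mul_comm Y₀.totalDegree (s * q.natDegree), map_mul, map_pow]
    ring

end Pool.Agent.FPO
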