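import Pool.Agent.FPO.Asy

/-!
# FPO module Sgn: positivity on both sides forces an even exponent (diff 1)

PROOF.  Suppose `s` is odd.  `ini τ w F = C b * q^s`, `q(c) = 0`, `q'(c) ≠ 0`; so `q` is strictly
monotone near `c` and takes both signs arbitrarily close to `c`; choose `c'` with
`|c' - c| < ε/2` and `b q(c')^s < 0` (`s` odd: the sign of `q(c')^s` is the sign of `q(c')`).  Let
`f(ξ) = aeval ξ (ini τ w F)`, `f(c') = -μ < 0`, and by continuity `r ∈ (0, ε/2)` with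
`f(ξ) ≤ -μ/2` for `|ξ - c'| ≤ r`.  For a large natural `a` let `x = D a`,
`b = ⌊c' x^τ / D⌋`, `y = D b`: `|y - c' x^τ| ≤ D ≤ r x^τ` for `a` large (`τ ≥ 1`), so `ξ = y/x^τ`
satisfies `|ξ - c'| ≤ r`, `|ξ - c| ≤ ε`, and the point is in `Reg τ c ε x₁`.  By `asy` (with
`A = |c| + ε`), `F(x,y) ≤ x^w (f(ξ) + C x^{-σ}) ≤ x^w (-μ/2 + C x^{-σ}) < 0` for `a` large,
contradicting `hpos`.
-/

set_option autoImplicit false

open Polynomial

namespace Pool.Agent.FPO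

namespace Sgn

open Filter Topology

theorem neg_pt (q : ℚ[X]) (c : ℝ) (b : ℚ) (hb : b ≠ 0) (s : ℕ) (hs : Odd s)
    (h0 : aeval c q = 0) (h1 : aeval c (derivative q) ≠ 0) (η : ℝ) (hη : 0 < η) :
    ∃ c' : ℝ, |c' - c| < η ∧ (b : ℝ) * (aeval c' q) ^ s < 0 := by
  by_contra hcon
  push Not at hcon
  have hd : HasDerivAt (fun x : ℝ => aeval x q) (aeval c (derivative q)) c :=
    q.hasDerivAt_aeval c
  have hnb : ∀ᶠ x in 𝓝 c, |x - c| < η := by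
    have := Metric.ball_mem_nhds c hη
    filter_upwards [this] with x hx
    rw [Metric.mem_ball, Real.dist_eq] at hx
    exact hx
  rcases lt_or_gt_of_ne hb with hb' | hb'
  · have hb2 : (b : ℝ) < 0 := by exact_mod_cast hb'
    have hmax : IsLocalMax (fun x : ℝ => aeval x q) c := by
      filter_upwards [hnb] with x hx
      have h2 := hcon x hx
      rw [h0]
      by_contra h3
      push Not at h3
      have h4 : (0 : ℝ) < (aeval x q : ℝ) ^ s := pow_pos h3 s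
      nlinarith
    exact h1 (hmax.hasDerivAt_eq_zero hd)
  · have hb2 : (0 : ℝ) < (b : ℝ) := by exact_mod_cast hb'
    have hmin : IsLocalMin (fun x : ℝ => aeval x q) c := by
      filter_upwards [hnb] with x hx
      have h2 := hcon x hx
      rw [h0]
      by_contra h3
      push Not at h3
      have h4 : (aeval x q : ℝ) ^ s < 0 := hs.pow_neg h3
      nlinarith
    exact h1 (hmin.hasDerivAt_eq_zero hd)

end Sgn

open Sgn Filter Topology in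
theorem sgn (F : Bi) (τ w : ℚ) (hτ : 1 ≤ τ) (hw : HasWt τ w F) (c : ℝ) (q : ℚ[X]) (s : ℕ)
    (hA : AltI τ c w F q s) (D : ℕ) (hD : 0 < D) (ε x₁ : ℝ) (hε : 0 < ε)
    (hpos : ∀ a b : ℤ, ((D : ℝ) * a, (D : ℝ) * b) ∈ Reg τ c ε x₁ →
      0 ≤ bv F ((D : ℝ) * a) ((D : ℝ) * b)) : Even s := by
  by_contra hodd
  rw [Nat.not_even_iff_odd] at hodd
  obtain ⟨b, hb, -, hq0, hq1, -, -, hini, -, -, -⟩ := hA
  obtain ⟨c', hc', hneg⟩ := neg_pt q c b hb s hodd hq0 hq1 (ε / 2) (by positivity)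
  have hf : ∀ ξ : ℝ, aeval ξ (ini τ w F) = (b : ℝ) * (aeval ξ q) ^ s := by
    intro ξ
    rw [hini, map_mul, map_pow, aeval_C]
    rfl
  have hcont : Continuous fun ξ : ℝ => (aeval ξ (ini τ w F) : ℝ) := (ini τ w F).continuous_aeval
  set μ : ℝ := -((b : ℝ) * (aeval c' q) ^ s) with hμ
  have hμ0 : 0 < μ := by rw [hμ]; linarith
  have hnear : ∃ r : ℝ, 0 < r ∧ ∀ ξ : ℝ, |ξ - c'| < r → (aeval ξ (ini τ w F) : ℝ) < -μ / 2 := by
    have h1 : ∀ᶠ ξ in 𝓝 c', (aeval ξ (ini τ w F) : ℝ) < -μ / 2 := by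
      refine (hcont.tendsto c').eventually_lt_const ?_
      rw [hf]
      linarith
    obtain ⟨r, hr, hr'⟩ := Metric.eventually_nhds_iff.1 h1
    refine ⟨r, hr, fun ξ hξ => hr' ?_⟩
    rw [Real.dist_eq]
    exact hξ
  obtain ⟨r, hr, hr'⟩ := hnear
  obtain ⟨C, σ, hσ, hC, hasy⟩ := asy F τ w hw (|c| + ε)
  have hτ1 : (1 : ℝ) ≤ (τ : ℝ) := by exact_mod_cast hτ
  set ρ : ℝ := min (r / 2) (ε / 2) with hρ
  have hρ0 : 0 < ρ := lt_min (by positivity) (by positivity)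
  have hlim : Tendsto (fun x : ℝ => C * x ^ (-σ)) atTop (𝓝 0) := by
    have := (tendsto_rpow_neg_atTop hσ).const_mul C
    rwa [mul_zero] at this
  have hev : ∀ᶠ x : ℝ in atTop, x₁ ≤ x ∧ 1 ≤ x ∧ (D : ℝ) / ρ ≤ x ∧ C * x ^ (-σ) < μ / 2 := by
    filter_upwards [eventually_ge_atTop x₁, eventually_ge_atTop (1 : ℝ),
      eventually_ge_atTop ((D : ℝ) / ρ), hlim.eventually_lt_const (by positivity : (0:ℝ) < μ / 2)]
      with x h1 h2 h3 h4
    exact ⟨h1, h2, h3, h4⟩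
  have hDR : (0 : ℝ) < D := by exact_mod_cast hD
  have htend : Tendsto (fun a : ℕ => (D : ℝ) * (a : ℝ)) atTop atTop :=
    tendsto_natCast_atTop_atTop.const_mul_atTop hDR
  obtain ⟨a, ha1, ha2, ha3, ha4⟩ := (htend.eventually hev).exists
  set x : ℝ := (D : ℝ) * (a : ℝ) with hx
  have hx0 : 0 < x := by linarith
  have hxτ0 : 0 < x ^ (τ : ℝ) := Real.rpow_pos_of_pos hx0 _
  have hxτ : x ≤ x ^ (τ : ℝ) := by
    conv_lhs => rw [← Real.rpow_one x]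
    exact Real.rpow_le_rpow_of_exponent_le ha2 hτ1
  set z : ℤ := ⌊c' * x ^ (τ : ℝ) / D⌋ with hz
  set y : ℝ := (D : ℝ) * (z : ℝ) with hy
  have hDx : (D : ℝ) ≤ ρ * x ^ (τ : ℝ) := by
    rw [div_le_iff₀ hρ0] at ha3
    calc (D : ℝ) ≤ x * ρ := ha3
      _ ≤ x ^ (τ : ℝ) * ρ := mul_le_mul_of_nonneg_right hxτ hρ0.le
      _ = ρ * x ^ (τ : ℝ) := mul_comm _ _
  have hyx : |y - c' * x ^ (τ : ℝ)| ≤ ρ * x ^ (τ : ℝ) := by
    have h1 : (z : ℝ) ≤ c' * x ^ (τ : ℝ) / D := Int.floor_le _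
    have h2 : c' * x ^ (τ : ℝ) / D < z + 1 := Int.lt_floor_add_one _
    rw [le_div_iff₀ hDR] at h1
    rw [div_lt_iff₀ hDR] at h2
    rw [abs_le]
    constructor
    · have : c' * x ^ (τ : ℝ) < y + D := by rw [hy]; nlinarith
      linarith
    · have : y ≤ c' * x ^ (τ : ℝ) := by rw [hy]; nlinarith
      nlinarith [mul_pos hρ0 hxτ0]
  have hyc : |y - c * x ^ (τ : ℝ)| ≤ ε * x ^ (τ : ℝ) := by
    have e : y - c * x ^ (τ : ℝ) = (y - c' * x ^ (τ : ℝ)) + (c' - c) * x ^ (τ : ℝ) := by ring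
    rw [e]
    refine (abs_add_le _ _).trans ?_
    rw [abs_mul, abs_of_pos hxτ0]
    have h1 : ρ ≤ ε / 2 := min_le_right _ _
    have h2 : ρ * x ^ (τ : ℝ) ≤ ε / 2 * x ^ (τ : ℝ) := mul_le_mul_of_nonneg_right h1 hxτ0.le
    have h3 : |c' - c| * x ^ (τ : ℝ) ≤ ε / 2 * x ^ (τ : ℝ) :=
      mul_le_mul_of_nonneg_right hc'.le hxτ0.le
    linarith
  have hyA : |y| ≤ (|c| + ε) * x ^ (τ : ℝ) := by
    have e : y = (y - c * x ^ (τ : ℝ)) + c * x ^ (τ : ℝ) := by ring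
    rw [e]
    refine (abs_add_le _ _).trans ?_
    rw [abs_mul, abs_of_pos hxτ0]
    linarith
  have hval := hasy x ha2 y hyA
  have hξ : |y / x ^ (τ : ℝ) - c'| < r := by
    have e : y / x ^ (τ : ℝ) - c' = (y - c' * x ^ (τ : ℝ)) / x ^ (τ : ℝ) := by
      field_simp
    rw [e, abs_div, abs_of_pos hxτ0, div_lt_iff₀ hxτ0]
    have h1 : ρ ≤ r / 2 := min_le_left _ _
    have h2 : ρ * x ^ (τ : ℝ) ≤ r / 2 * x ^ (τ : ℝ) := mul_le_mul_of_nonneg_right h1 hxτ0.le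
    nlinarith
  have h5 := hr' _ hξ
  have hxw : 0 < x ^ (w : ℝ) := Real.rpow_pos_of_pos hx0 _
  have h6 : x ^ ((w : ℝ) - σ) = x ^ (w : ℝ) * x ^ (-σ) := by
    rw [sub_eq_add_neg, Real.rpow_add hx0]
  rw [h6] at hval
  have h7 := (abs_le.1 hval).2
  have h8 : x ^ (w : ℝ) * aeval (y / x ^ (τ : ℝ)) (ini τ w F) < x ^ (w : ℝ) * (-μ / 2) :=
    mul_lt_mul_of_pos_left h5 hxw
  have h9 : C * (x ^ (w : ℝ) * x ^ (-σ)) < x ^ (w : ℝ) * (μ / 2) := by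
    have e : C * (x ^ (w : ℝ) * x ^ (-σ)) = x ^ (w : ℝ) * (C * x ^ (-σ)) := by ring
    rw [e]
    exact mul_lt_mul_of_pos_left ha4 hxw
  have h10 : bv F x y < 0 := by
    have e : x ^ (w : ℝ) * (-μ / 2) = -(x ^ (w : ℝ) * (μ / 2)) := by ring
    rw [e] at h8
    linarith
  have h11 := hpos a z ⟨by
    change x₁ ≤ (D : ℝ) * ((a : ℤ) : ℝ)
    rw [Int.cast_natCast]; exact ha1, by
    change |(D : ℝ) * (z : ℝ) - c * ((D : ℝ) * ((a : ℤ) : ℝ)) ^ (τ : ℝ)| ≤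
      ε * ((D : ℝ) * ((a : ℤ) : ℝ)) ^ (τ : ℝ)
    rw [Int.cast_natCast]; exact hyc⟩
  rw [Int.cast_natCast] at h11
  exact absurd h11 (not_le.2 h10)

end Pool.Agent.FPO
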