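import Pool.Agent.FPO.ToBi

/-!
# FPO module Tr: transfer of smallness from a chart to the lattice points (diff 1)

PROOF.  Let `G, C, δ` be as in `hs`; put `G₀ = bv G X₀ Y₀ ≠ 0` (`hch.inj`).  For `u ∈ S` let
`a(u), b(u)` be the integers `D X₀(u)`, `D Y₀(u)` (`hD`), so `pt X₀ Y₀ u = (a/D, b/D)`.
The map `u ↦ (a(u), b(u))` is injective on `S`: if it takes the same value at `u, v` then
`evz X₀ u = evz X₀ v`, `evz Y₀ u = evz Y₀ v`, so `evz F₀ u = evz F₀ v` (`hch.eq`, `evz_bv`) and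
`u = v` (`hE.inj`).  For `n ≥ 1` let `T` be the finset for `Sml`.  The set
`T' = {u ∈ S : (a(u), b(u)) ∈ T}` is finite with at most `|T|` elements (preimage under an injective
map; e.g. `T'` is contained in the image of `T` under a left inverse,
`Function.invFunOn`; or `Finset.preimage`).  If `u ∈ S`, `pt u ∈ R`, `evz F₀ u ≤ n`, `evz G₀ u ≠ 0`,
then `bv F (a/D) (b/D) = F₀(u)` is a natural number `≤ n` (`evz_bv_real`, `hE.nat`), so its absolute
value is `≤ n`, and `bv G (a/D) (b/D) = G₀(u) ≠ 0`, so `(a, b) ∈ T`.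
-/

set_option autoImplicit false

open Polynomial

namespace Pool.Agent.FPO

theorem transfer {S : Set (ℤ × ℤ)} {F₀ X₀ Y₀ : MvPolynomial (Fin 2) ℚ} {F : Bi} (hE : Enum S F₀)
    (hch : Chart S F₀ X₀ Y₀ F) (D : ℕ) (hD0 : 0 < D)
    (hD : ∀ u ∈ S, ∃ a b : ℤ, (D : ℚ) * evz X₀ u = a ∧ (D : ℚ) * evz Y₀ u = b)
    (R : Set (ℝ × ℝ)) (hs : Sml F D R) : SmlS F₀ {u | u ∈ S ∧ pt X₀ Y₀ u ∈ R} := by
  classical
  have hDR : (D : ℝ) ≠ 0 := by exact_mod_cast hD0.ne'
  have hDQ : (D : ℚ) ≠ 0 := by exact_mod_cast hD0.ne'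
  obtain ⟨G, hG, K, δ, hδ, hT⟩ := hs
  choose! a b hab using hD
  have hinj : Set.InjOn (fun u => (a u, b u)) S := by
    intro u hu v hv huv
    have h1 : a u = a v := congrArg Prod.fst huv
    have h2 : b u = b v := congrArg Prod.snd huv
    have h3 : evz X₀ u = evz X₀ v := by
      have := (hab u hu).1
      rw [h1, ← (hab v hv).1] at this
      exact mul_left_cancel₀ hDQ this
    have h4 : evz Y₀ u = evz Y₀ v := by
      have := (hab u hu).2
      rw [h2, ← (hab v hv).2] at this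
      exact mul_left_cancel₀ hDQ this
    apply hE.inj u hu v hv
    rw [← hch.eq, evz_bv, evz_bv, h3, h4]
  have hX : ∀ u ∈ S, ((evz X₀ u : ℚ) : ℝ) = (a u : ℝ) / D := by
    intro u hu
    rw [eq_div_iff hDR]
    have := congrArg (fun q : ℚ => (q : ℝ)) (hab u hu).1
    push_cast at this
    linarith
  have hY : ∀ u ∈ S, ((evz Y₀ u : ℚ) : ℝ) = (b u : ℝ) / D := by
    intro u hu
    rw [eq_div_iff hDR]
    have := congrArg (fun q : ℚ => (q : ℝ)) (hab u hu).2
    push_cast at this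
    linarith
  refine ⟨bv G X₀ Y₀, hch.inj G hG, K, δ, hδ, fun n hn => ?_⟩
  obtain ⟨T, hTc, hTm⟩ := hT n hn
  refine ⟨T.image (Function.invFunOn (fun u => (a u, b u)) S), ?_, ?_⟩
  · refine le_trans ?_ hTc
    exact_mod_cast Finset.card_image_le
  · rintro u ⟨hu, huR⟩ hun huG
    have hpt : pt X₀ Y₀ u = ((a u : ℝ) / D, (b u : ℝ) / D) := by
      rw [pt, hX u hu, hY u hu]
    have h5 : (a u, b u) ∈ T := by
      apply hTm (a u) (b u)
      · rw [← hpt]
        exact huR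
      · rw [← hX u hu, ← hY u hu, ← evz_bv_real, hch.eq]
        obtain ⟨m, hm⟩ := hE.nat u hu
        rw [hm] at hun ⊢
        rw [Rat.cast_natCast, abs_of_nonneg (Nat.cast_nonneg m)]
        exact_mod_cast hun
      · rw [← hX u hu, ← hY u hu, ← evz_bv_real]
        exact_mod_cast huG
    rw [Finset.mem_image]
    exact ⟨_, h5, hinj.leftInvOn_invFunOn hu⟩

end Pool.Agent.FPO
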