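import Pool.Agent.FPO.CaA
import Pool.Agent.FPO.Tr
import Pool.Agent.FPO.LFm
import Pool.Agent.FPO.Sgn

/-!
# FPO module CaC: Case A in a chart (diff 2)
-/

set_option autoImplicit false

open Polynomial

namespace Pool.Agent.FPO

theorem cac {S : Set (ℤ × ℤ)} {F₀ ℓ X₀ Y₀ : MvPolynomial (Fin 2) ℚ} {F : Bi} (hE : Enum S F₀)
    (hNS : NSq F₀ ℓ) (hch : Chart S F₀ X₀ Y₀ F) (hX : X₀ ≠ 0) (hY : Y₀ ≠ 0) {τ w : ℚ}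
    (hL : (Lfp ℓ X₀ ∧ (Y₀.totalDegree : ℚ) < τ * X₀.totalDegree) ∨
      (Lfp ℓ Y₀ ∧ τ * X₀.totalDegree < (Y₀.totalDegree : ℚ)))
    (hτ : 1 ≤ τ) (hw : HasWt τ w F) {c : ℝ} (hc : c ≠ 0) (hirr : Irreg τ c)
    (h3 : τ = 1 → 3 ≤ w) (hroot : aeval c (ini τ w F) = 0)
    (hfull : ∃ ε x₁ : ℝ, 0 < ε ∧ Full S X₀ Y₀ (Reg τ c ε x₁)) :
    ∃ ε x₁ : ℝ, 0 < ε ∧ SmlS F₀ {u | u ∈ S ∧ pt X₀ Y₀ u ∈ Reg τ c ε x₁} := by
  obtain ⟨D, hD0, hD⟩ := hch.den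
  rcases caseA F τ w hτ hw c hc hirr h3 hroot D hD0 with ⟨q, s, hA⟩ | ⟨ε, x₁, hε, hs⟩
  · exfalso
    obtain ⟨ε, x₁, hε, D', hD', hF⟩ := hfull
    have hev : Even s := by
      refine sgn F τ w hτ hw c q s hA D' hD' ε x₁ hε ?_
      intro a b hab
      obtain ⟨u, hu, hu1, hu2⟩ := hF a b hab
      obtain ⟨n, hn⟩ := hE.nat u hu
      have h1 := evz_bv_real F X₀ Y₀ u
      rw [hch.eq, hn, hu1, hu2] at h1
      push_cast at h1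
      rw [← h1]
      positivity
    rcases hL with ⟨hL1, hL2⟩ | ⟨hL1, hL2⟩
    · exact hNS (lfa hch.eq hX hY hL1 hw hA hev hL2)
    · exact hNS (lfb hch.eq hX hY hL1 (by linarith) hw hA hev hL2)
  · exact ⟨ε, x₁, hε, transfer hE hch D hD0 hD _ hs⟩

end Pool.Agent.FPO
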