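import Pool.Agent.FPO.ToBi

/-!
# FPO module ChS: shears (diff 2)

`shear F c k = bv F (C X) (X + C (C c * X^k))`, that is `F(x, y + c x^k)`; by `bv_C_X_eq_comp` it is
`F.comp (X + C (C c * X^k))`.

PROOF.  `shear_chart`: `bv (shear F c k) X₀ Y₁ = bv F X₀ (Y₁ + c X₀^k) = bv F X₀ Y₀ = F₀` by `bv_bv`-type
`map_bv` (`φ = bvHom X₀ Y₁`: `bv (bv F A B) X₀ Y₁ = bv F (bv A X₀ Y₁) (bv B X₀ Y₁)`; `bv_bv` is stated
for general `R`).  `inj`: if `bv G X₀ Y₁ = 0`, then with `G' = shear G (-c) k`:
`bv G' X₀ Y₀ = bv G X₀ (Y₀ - c X₀^k) = 0`, so `G' = 0`, and `G = shear G' c k = 0`.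
`den`: if `D X₀(u) = a`, `D Y₀(u) = b` are integers, then with `D' = D^(k+1) * c.den`,
`D' X₀(u)` and `D' (Y₀(u) - c X₀(u)^k)` are integers.
`shear_natDegree`, `shear_leadingCoeff`: composition with a monic linear polynomial
(`natDegree_comp`, `leadingCoeff_comp`).
`shear_hasWt`: `ini` is additive in `F` for fixed `τ, w` (by `coeff_ini_of`, `coeff_ini_none`), and
`F` is the sum of the monomials `C (C q * X^i) * X^j` (`eq_sum_of_le`), whose shear is
`∑_l C(j,l) c^{j-l} q x^{i + k(j-l)} y^l` with all weights `i + k j`.  So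
`cf (shear F c k) i' l = ∑_{j ≥ l} cf F (i' - k(j-l)) j * C(j,l) c^{j-l}` (terms with
`i' ≥ k (j - l)`), giving the upper bound for the weights and
`(ini k w (shear F c k)).coeff l = ∑_j (ini k w F).coeff j * C(j,l) c^{j-l}`, the coefficient of
`(ini k w F).comp (X + C c)` (`(X + C c)^j`: `coeff_X_add_C_pow`).  It is nonzero, so the weight `w` is
attained.
`shear_full`: let `D` be as in `Full` for `Γ`, `D' = D * c.den` (if `k ≥ 1`).  If
`(D' a, D' b) ∈ Γ'` then `(D' a, D' b + c (D' a)^k) ∈ Γ` and `D' b + c (D' a)^k =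
D (c.den b + c.num D^{k-1} c.den^{k-1} a^k)` is `D` times an integer; the point `u ∈ S` given by
`Full` works.
`shear_td_lt`: `totalDegree (C c * X₀^k) = k totalDegree X₀` (`MvPolynomial.totalDegree_pow`-lemmas
in a domain; the top form of `X₀^k` is `(hc X₀)^k ≠ 0`); the sum of two polynomials of different
total degrees has the larger one and its top form (`MvPolynomial.totalDegree_add_eq_...`;
`homogeneousComponent` is additive and vanishes above the total degree).  If
`hc X₀ = C κ ℓ^{d}` then the top form of `-c X₀^k` is `-c κ^k ℓ^{k d}`.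
`shear_td_gt`: the same, the other way round.
-/

set_option autoImplicit false

open Polynomial

namespace Pool.Agent.FPO

namespace ChS

theorem bv_id (G : Bi) : bv G (C X : Bi) (X : Bi) = G := by
  rw [bv_C_X_eq_comp, comp_X]

theorem bv_shear {R : Type*} [CommRing R] [Algebra ℚ R] (F : Bi) (c : ℚ) (k : ℕ) (a b : R) :
    bv (shear F c k) a b = bv F a (b + algebraMap ℚ R c * a ^ k) := by
  rw [shear, bv_bv, bv_C_X, bv_add, bv_X, bv_C, map_mul, map_pow, aeval_X, aeval_C]

theorem shear_shear (F : Bi) (c : ℚ) (k : ℕ) : shear (shear F (-c) k) c k = F := by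
  rw [shear, bv_shear]
  have h : (X + C (C c * X ^ k) : Bi) + algebraMap ℚ Bi (-c) * (C X : Bi) ^ k = X := by
    change (X + C (C c * X ^ k) : Bi) + C (C (-c)) * (C X : Bi) ^ k = X
    rw [← C_pow, ← C_mul, add_assoc, ← C_add, C_neg, neg_mul, add_neg_cancel, C_0, add_zero]
  rw [h]
  exact bv_id F

theorem deg_le {P : MvPolynomial (Fin 2) ℚ} {m : Fin 2 →₀ ℕ} (h : P.coeff m ≠ 0) :
    m.degree ≤ P.totalDegree :=
  MvPolynomial.le_totalDegree (MvPolynomial.mem_support_iff.2 h)

theorem top_mul (P Q : MvPolynomial (Fin 2) ℚ) (a b : ℕ) (ha : P.totalDegree ≤ a)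
    (hb : Q.totalDegree ≤ b) : MvPolynomial.homogeneousComponent (a + b) (P * Q) =
      MvPolynomial.homogeneousComponent a P * MvPolynomial.homogeneousComponent b Q := by
  classical
  ext m
  rw [MvPolynomial.coeff_homogeneousComponent, MvPolynomial.coeff_mul, MvPolynomial.coeff_mul]
  by_cases hm : m.degree = a + b
  · rw [if_pos hm]
    apply Finset.sum_congr rfl
    intro x hx
    rw [MvPolynomial.coeff_homogeneousComponent, MvPolynomial.coeff_homogeneousComponent]
    have hxm : x.1.degree + x.2.degree = m.degree := by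
      rw [← map_add, Finset.HasAntidiagonal.mem_antidiagonal.1 hx]
    by_cases h1 : P.coeff x.1 = 0
    · rw [h1, ite_self, zero_mul, zero_mul]
    · by_cases h2 : Q.coeff x.2 = 0
      · rw [h2, ite_self, mul_zero, mul_zero]
      · have h3 := deg_le h1
        have h4 := deg_le h2
        rw [if_pos (by omega), if_pos (by omega)]
  · rw [if_neg hm]
    symm
    apply Finset.sum_eq_zero
    intro x hx
    rw [MvPolynomial.coeff_homogeneousComponent, MvPolynomial.coeff_homogeneousComponent]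
    have hxm : x.1.degree + x.2.degree = m.degree := by
      rw [← map_add, Finset.HasAntidiagonal.mem_antidiagonal.1 hx]
    by_cases h1 : x.1.degree = a
    · rw [if_neg (by omega : ¬ x.2.degree = b), mul_zero]
    · rw [if_neg h1, zero_mul]

theorem top_pow (P : MvPolynomial (Fin 2) ℚ) (k : ℕ) :
    MvPolynomial.homogeneousComponent (k * P.totalDegree) (P ^ k) =
      (MvPolynomial.homogeneousComponent P.totalDegree P) ^ k := by
  induction k with
  | zero =>
    rw [zero_mul, pow_zero, pow_zero, MvPolynomial.homogeneousComponent_zero]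
    simp
  | succ k ih =>
    rw [pow_succ, pow_succ, add_mul, one_mul,
      top_mul _ _ _ _ (MvPolynomial.totalDegree_pow P k) le_rfl, ih]

theorem top_ne {P : MvPolynomial (Fin 2) ℚ} (h : P ≠ 0) :
    MvPolynomial.homogeneousComponent P.totalDegree P ≠ 0 := by
  have hne : P.support.Nonempty := MvPolynomial.support_nonempty.2 h
  obtain ⟨m, hm, h1⟩ := Finset.exists_mem_eq_sup P.support hne (fun s => s.sum fun _ e => e)
  intro h0
  have h2 := congrArg (MvPolynomial.coeff m) h0
  rw [MvPolynomial.coeff_homogeneousComponent, MvPolynomial.coeff_zero, if_pos] at h2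
  · exact (MvPolynomial.mem_support_iff.1 hm) h2
  · exact h1.symm

theorem le_td {P : MvPolynomial (Fin 2) ℚ} {n : ℕ}
    (h : MvPolynomial.homogeneousComponent n P ≠ 0) : n ≤ P.totalDegree := by
  by_contra hc
  exact h (MvPolynomial.homogeneousComponent_eq_zero _ _ (not_le.1 hc))

theorem ne_zero_of_td {P : MvPolynomial (Fin 2) ℚ} (h : 0 < P.totalDegree) : P ≠ 0 := by
  rintro rfl
  rw [MvPolynomial.totalDegree_zero] at h
  exact lt_irrefl _ h

theorem evz_shear (X₀ Y₀ : MvPolynomial (Fin 2) ℚ) (c : ℚ) (k : ℕ) (u : ℤ × ℤ) :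
    evz (Y₀ - MvPolynomial.C c * X₀ ^ k) u = evz Y₀ u - c * evz X₀ u ^ k := by
  simp [evz]

/-- the coefficients of the sheared polynomial -/
theorem cf_shear (F : Bi) (c : ℚ) (k : ℕ) (i l : ℕ) : cf (shear F c k) i l =
    ∑ j ∈ Finset.range (F.natDegree + 1),
      (if k * (j - l) ≤ i then cf F (i - k * (j - l)) j else 0) * c ^ (j - l) *
        (j.choose l : ℚ) := by
  have h1 : shear F c k = ∑ j ∈ Finset.range (F.natDegree + 1),
      C (F.coeff j) * (X + C (C c * X ^ k)) ^ j := by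
    rw [shear, bv_C_X_eq_comp, comp, eval₂_eq_sum_range]
  rw [cf, h1, finsetSum_coeff, finsetSum_coeff]
  apply Finset.sum_congr rfl
  intro j _
  rw [coeff_C_mul, coeff_X_add_C_pow, mul_pow, ← C_pow, ← pow_mul, ← mul_assoc, ← mul_assoc]
  have h2 : F.coeff j * C (c ^ (j - l)) * X ^ (k * (j - l)) * ((j.choose l : ℕ) : ℚ[X]) =
      C (c ^ (j - l) * (j.choose l : ℚ)) * (F.coeff j * X ^ (k * (j - l))) := by
    rw [C_mul, ← C_eq_natCast]
    ring
  rw [h2, coeff_C_mul, coeff_mul_X_pow']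
  simp only [cf]
  ring

end ChS

open ChS in
theorem shear_chart {S : Set (ℤ × ℤ)} {F₀ X₀ Y₀ : MvPolynomial (Fin 2) ℚ} {F : Bi}
    (h : Chart S F₀ X₀ Y₀ F) (c : ℚ) (k : ℕ) :
    Chart S F₀ X₀ (Y₀ - MvPolynomial.C c * X₀ ^ k) (shear F c k) := by
  refine ⟨?_, ?_, ?_⟩
  · rw [bv_shear, MvPolynomial.algebraMap_eq, sub_add_cancel]
    exact h.eq
  · intro G hG h0
    have h1 : shear G (-c) k = 0 := by
      by_contra hne
      apply h.inj _ hne
      rw [bv_shear, MvPolynomial.algebraMap_eq, MvPolynomial.C_neg, neg_mul, ← sub_eq_add_neg]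
      exact h0
    apply hG
    rw [← shear_shear G c k, h1, shear, bv_zero]
  · obtain ⟨D, hD, hden⟩ := h.den
    refine ⟨D ^ (k + 1) * c.den, by have := c.den_pos; positivity, fun u hu => ?_⟩
    obtain ⟨a, b, ha, hb⟩ := hden u hu
    refine ⟨D ^ k * c.den * a, D ^ k * c.den * b - c.num * D * a ^ k, ?_, ?_⟩
    · push_cast
      rw [← ha]
      ring
    · rw [evz_shear]
      push_cast
      rw [← ha, ← hb]
      have h3 : (c.den : ℚ) * c = c.num := by
        rw [mul_comm]
        exact Rat.mul_den_eq_num c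
      rw [← h3]
      ring

theorem shear_natDegree (F : Bi) (c : ℚ) (k : ℕ) : (shear F c k).natDegree = F.natDegree := by
  rw [shear, bv_C_X_eq_comp, natDegree_comp, natDegree_X_add_C, mul_one]

open ChS in
theorem shear_hasWt (F : Bi) (c : ℚ) (k : ℕ) (w : ℚ) (hw : HasWt (k : ℚ) w F) :
    HasWt (k : ℚ) w (shear F c k) ∧
      ini (k : ℚ) w (shear F c k) = (ini (k : ℚ) w F).comp (X + C c) := by
  have hini : ini (k : ℚ) w (shear F c k) = (ini (k : ℚ) w F).comp (X + C c) := by
    have hdeg : (ini (k : ℚ) w F).natDegree < F.natDegree + 1 := by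
      by_contra hcon
      push Not at hcon
      have h1 : (ini (k : ℚ) w F).coeff (ini (k : ℚ) w F).natDegree ≠ 0 := by
        have := mt leadingCoeff_eq_zero.1 hw.ini_ne_zero
        exact this
      obtain ⟨i, -, -, h2⟩ := exists_of_coeff_ini_ne_zero h1
      exact h2 (cf_eq_zero_of_natDegree (by omega))
    ext l
    rw [comp, eval₂_eq_sum_range' _ hdeg, finsetSum_coeff]
    have h1 : ∀ j, (C ((ini (k : ℚ) w F).coeff j) * (X + C c) ^ j).coeff l =
        (ini (k : ℚ) w F).coeff j * c ^ (j - l) * (j.choose l : ℚ) := by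
      intro j
      rw [coeff_C_mul, coeff_X_add_C_pow, mul_assoc]
    simp only [h1]
    by_cases hi : ∃ i : ℕ, (i : ℚ) + k * l = w
    · obtain ⟨i, hi⟩ := hi
      rw [coeff_ini_of hi, cf_shear]
      apply Finset.sum_congr rfl
      intro j _
      by_cases hjl : l ≤ j
      · congr 2
        split_ifs with h2
        · symm
          apply coeff_ini_of
          rw [← hi]
          push_cast [Nat.cast_sub h2, Nat.cast_sub hjl]
          ring
        · symm
          apply coeff_ini_none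
          intro i' hi'
          apply h2
          have h3 : ((i' + k * (j - l) : ℕ) : ℚ) = (i : ℕ) := by
            push_cast [Nat.cast_sub hjl]
            linarith
          have h4 : i' + k * (j - l) = i := by exact_mod_cast h3
          omega
      · rw [Nat.choose_eq_zero_of_lt (not_le.1 hjl), Nat.cast_zero, mul_zero, mul_zero]
    · have hi' : ∀ i : ℕ, (i : ℚ) + k * l ≠ w := fun i hi'' => hi ⟨i, hi''⟩
      rw [coeff_ini_none hi']
      symm
      apply Finset.sum_eq_zero
      intro j _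
      by_cases hjl : l ≤ j
      · rw [coeff_ini_none, zero_mul, zero_mul]
        intro i' h2
        apply hi' (i' + k * (j - l))
        rw [← h2]
        push_cast [Nat.cast_sub hjl]
        ring
      · rw [Nat.choose_eq_zero_of_lt (not_le.1 hjl), Nat.cast_zero, mul_zero]
  refine ⟨⟨?_, ?_⟩, hini⟩
  · intro i l hil
    rw [cf_shear] at hil
    obtain ⟨j, -, hj⟩ := Finset.exists_ne_zero_of_sum_ne_zero hil
    have hch : j.choose l ≠ 0 := by
      intro h0
      rw [h0, Nat.cast_zero, mul_zero] at hj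
      exact hj rfl
    have hjl : l ≤ j := by
      by_contra hc
      exact hch (Nat.choose_eq_zero_of_lt (not_le.1 hc))
    have h1 := left_ne_zero_of_mul (left_ne_zero_of_mul hj)
    split_ifs at h1 with h2
    · have h3 := hw.1 _ _ h1
      push_cast [Nat.cast_sub h2, Nat.cast_sub hjl] at h3
      linarith
    · exact absurd rfl h1
  · have hne : ini (k : ℚ) w (shear F c k) ≠ 0 := by
      rw [hini]
      exact comp_X_add_C_ne_zero_iff.2 hw.ini_ne_zero
    have h1 : ∃ j, (ini (k : ℚ) w (shear F c k)).coeff j ≠ 0 := by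
      by_contra hcon
      push Not at hcon
      apply hne
      ext j
      rw [hcon j, coeff_zero]
    obtain ⟨j, hj⟩ := h1
    obtain ⟨i, hi, -, hcf⟩ := exists_of_coeff_ini_ne_zero hj
    exact ⟨i, j, hcf, hi⟩

open ChS in
theorem shear_full {S : Set (ℤ × ℤ)} {X₀ Y₀ : MvPolynomial (Fin 2) ℚ} {Γ Γ' : Set (ℝ × ℝ)}
    (h : Full S X₀ Y₀ Γ) (c : ℚ) (k : ℕ) (hk : 1 ≤ k)
    (hΓ : ∀ x y : ℝ, (x, y) ∈ Γ' → (x, y + c * x ^ k) ∈ Γ) :
    Full S X₀ (Y₀ - MvPolynomial.C c * X₀ ^ k) Γ' := by
  obtain ⟨D, hD, hf⟩ := h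
  refine ⟨D * c.den, Nat.mul_pos hD c.den_pos, ?_⟩
  intro a b hab
  have h1 := hΓ _ _ hab
  obtain ⟨m, rfl⟩ : ∃ m, k = m + 1 := ⟨k - 1, by omega⟩
  have hcq : (c.den : ℚ) * c = c.num := by
    rw [mul_comm]
    exact Rat.mul_den_eq_num c
  have hcr : (c.den : ℝ) * (c : ℝ) = c.num := by exact_mod_cast hcq
  obtain ⟨u, hu, e1, e2⟩ := hf (c.den * a)
    (c.den * b + c.num * (D * c.den) ^ m * a ^ (m + 1)) (by
      have h2 : ((D : ℝ) * ((c.den * a : ℤ) : ℝ),
          (D : ℝ) * ((c.den * b + c.num * (D * c.den) ^ m * a ^ (m + 1) : ℤ) : ℝ)) =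
          (((D * c.den : ℕ) : ℝ) * a, ((D * c.den : ℕ) : ℝ) * b +
            c * (((D * c.den : ℕ) : ℝ) * a) ^ (m + 1)) := by
        rw [Prod.mk.injEq]
        constructor
        · push_cast
          ring
        · push_cast
          rw [← hcr]
          ring
      rw [h2]
      exact h1)
  refine ⟨u, hu, ?_, ?_⟩
  · rw [e1]
    push_cast
    ring
  · rw [evz_shear, e1, e2]
    push_cast
    rw [← hcq]
    ring

open ChS in
theorem shear_td_lt {ℓ X₀ Y₀ : MvPolynomial (Fin 2) ℚ} (c : ℚ) (hc : c ≠ 0) (k : ℕ)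
    (h : Y₀.totalDegree < k * X₀.totalDegree) (hL : Lfp ℓ X₀) :
    (Y₀ - MvPolynomial.C c * X₀ ^ k).totalDegree = k * X₀.totalDegree ∧
      Lfp ℓ (Y₀ - MvPolynomial.C c * X₀ ^ k) := by
  obtain ⟨κ, hκ, hL⟩ := hL
  have hd0 : 0 < X₀.totalDegree := Nat.pos_of_mul_pos_left (lt_of_le_of_lt (Nat.zero_le _) h)
  have hX0 := ne_zero_of_td hd0
  have hcomp : MvPolynomial.homogeneousComponent (k * X₀.totalDegree)
      (Y₀ - MvPolynomial.C c * X₀ ^ k) = MvPolynomial.C (-c) *
        (MvPolynomial.homogeneousComponent X₀.totalDegree X₀) ^ k := by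
    rw [map_sub, MvPolynomial.homogeneousComponent_eq_zero _ _ h,
      MvPolynomial.homogeneousComponent_C_mul, top_pow, zero_sub, MvPolynomial.C_neg, neg_mul]
  have hne : MvPolynomial.homogeneousComponent (k * X₀.totalDegree)
      (Y₀ - MvPolynomial.C c * X₀ ^ k) ≠ 0 := by
    rw [hcomp]
    refine mul_ne_zero ?_ (pow_ne_zero _ (top_ne hX0))
    intro h0
    exact (neg_ne_zero.2 hc) (MvPolynomial.C_eq_zero.1 h0)
  have htd : (Y₀ - MvPolynomial.C c * X₀ ^ k).totalDegree = k * X₀.totalDegree := by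
    apply le_antisymm _ (le_td hne)
    refine (MvPolynomial.totalDegree_sub _ _).trans (max_le h.le ?_)
    refine (MvPolynomial.totalDegree_mul _ _).trans ?_
    rw [MvPolynomial.totalDegree_C, zero_add]
    exact MvPolynomial.totalDegree_pow _ _
  refine ⟨htd, -c * κ ^ k, mul_ne_zero (neg_ne_zero.2 hc) (pow_ne_zero _ hκ), ?_⟩
  rw [htd, hcomp, hL, mul_pow, ← pow_mul, mul_comm X₀.totalDegree k, MvPolynomial.C_mul,
    MvPolynomial.C_pow, mul_assoc]

open ChS in
theorem shear_td_gt {ℓ X₀ Y₀ : MvPolynomial (Fin 2) ℚ} (c : ℚ) (k : ℕ)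
    (h : k * X₀.totalDegree < Y₀.totalDegree) (hL : Lfp ℓ Y₀) :
    (Y₀ - MvPolynomial.C c * X₀ ^ k).totalDegree = Y₀.totalDegree ∧
      Lfp ℓ (Y₀ - MvPolynomial.C c * X₀ ^ k) := by
  obtain ⟨κ, hκ, hL⟩ := hL
  have hd0 : 0 < Y₀.totalDegree := lt_of_le_of_lt (Nat.zero_le _) h
  have hY0 := ne_zero_of_td hd0
  have hle : (MvPolynomial.C c * X₀ ^ k).totalDegree ≤ k * X₀.totalDegree := by
    refine (MvPolynomial.totalDegree_mul _ _).trans ?_
    rw [MvPolynomial.totalDegree_C, zero_add]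
    exact MvPolynomial.totalDegree_pow _ _
  have hcomp : MvPolynomial.homogeneousComponent Y₀.totalDegree
      (Y₀ - MvPolynomial.C c * X₀ ^ k) =
        MvPolynomial.homogeneousComponent Y₀.totalDegree Y₀ := by
    rw [map_sub, MvPolynomial.homogeneousComponent_eq_zero _ _ (lt_of_le_of_lt hle h), sub_zero]
  have hne : MvPolynomial.homogeneousComponent Y₀.totalDegree
      (Y₀ - MvPolynomial.C c * X₀ ^ k) ≠ 0 := by
    rw [hcomp]
    exact top_ne hY0
  have htd : (Y₀ - MvPolynomial.C c * X₀ ^ k).totalDegree = Y₀.totalDegree := by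
    apply le_antisymm _ (le_td hne)
    exact (MvPolynomial.totalDegree_sub _ _).trans (max_le le_rfl (hle.trans h.le))
  refine ⟨htd, κ, hκ, ?_⟩
  rw [htd, hcomp, hL]

end Pool.Agent.FPO
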