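import Pool.Agent.FPO.ToBi

/-!
# FPO module ChW: exchange of the variables (diff 2)

`swp F s = bv F X (C (C s * X))`: the polynomial `F(Y, s X)` in the new variables (inner `X`,
outer `Y`); the new coordinates are `X = s Y₀`, `Y = X₀` (`s = ±1`, `s² = 1`).

PROOF.  `swp_chart`: by `bv_bv`, `bv (swp F s) (C s * Y₀) X₀ = bv F X₀ (s * (s Y₀)) = bv F X₀ Y₀ = F₀`
(`aeval (C s * Y₀) (C s * X) = s * (s * Y₀)`).  `inj`: if `bv G (s Y₀) X₀ = 0` then with
`G' = bv G (C (C s) * X) (C X)` (that is `G(s y, x)`), `bv G' X₀ Y₀ = 0`, so `G' = 0`, and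
`G = bv G' X (C (C s * X))`-substitution back (`G'(y, s x)` with `s² = 1`) is `0`.
`den`: clear.
`cf_swp`: `swp F s = bv (bv F X (C X)) (C (C s * X)) X`, i.e. first exchange (`cf_swap`) and then scale
the inner variable (`x ↦ s x` multiplies the coefficient of `x^i` by `s^i`); or expand by
`bv_eq_sum`.
`swp_hasWt`: monomials of `swp F s` are the transposed monomials of `F` (`cf_swp`, `s ≠ 0`), weights
`i + j` are symmetric.  Let `l = (ini 1 w F).natTrailingDegree`; the coefficient at `l` is nonzero, so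
`l ≤ w` and `cf F (w - l) l ≠ 0`; hence `cf (swp F s) l (w - l) ≠ 0` and
`(ini 1 w (swp F s)).coeff (w - l) ≠ 0`, `natDegree ≥ w - l`.
`swp_full`: let `D` be as in `Full`.  Choose `ε' > 0` with `ε' ≤ ε₀`, and `1/ε' ≥ max x₀ 1`.  If
`(D a, D b) ∈ Γ₁ ε'`: `D a > 0`, so `a ≥ 1`, `1 ≤ D a ≤ ε' D b`, so `x := D b ≥ 1/ε' ≥ max x₀ 1`; put
`y := s D a`: `|y| = D a ≤ ε' x ≤ ε₀ x^k` (`k ≥ 1`, `x ≥ 1`), so `(D b, D (s a)) ∈ Γ₂ k ε₀ x₀`
(`s a` is an integer), and `Full` gives `u ∈ S` with `X₀(u) = D b`, `Y₀(u) = s D a`, so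
`(s Y₀)(u) = D a`.
`swp_lfp`: `totalDegree (C s * P) = totalDegree P` for `s ≠ 0`, and top forms are multiplied by `s`.
-/

set_option autoImplicit false

open Polynomial

namespace Pool.Agent.FPO

namespace ChW

theorem bv_id (G : Bi) : bv G (C X : Bi) (X : Bi) = G := by
  rw [bv_C_X_eq_comp, comp_X]

theorem evz_C_mul (s : ℚ) (P : MvPolynomial (Fin 2) ℚ) (u : ℤ × ℤ) :
    evz (MvPolynomial.C s * P) u = s * evz P u := by
  simp [evz]

theorem sq {s : ℚ} (hs : s = 1 ∨ s = -1) : s * s = 1 := by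
  rcases hs with rfl | rfl <;> norm_num

end ChW

open ChW in
theorem swp_chart {S : Set (ℤ × ℤ)} {F₀ X₀ Y₀ : MvPolynomial (Fin 2) ℚ} {F : Bi}
    (h : Chart S F₀ X₀ Y₀ F) (s : ℚ) (hs : s = 1 ∨ s = -1) :
    Chart S F₀ (MvPolynomial.C s * Y₀) X₀ (swp F s) := by
  have hss := sq hs
  refine ⟨?_, ?_, ?_⟩
  · rw [swp, bv_bv, bv_X, bv_C, map_mul, aeval_X, aeval_C]
    have h1 : algebraMap ℚ (MvPolynomial (Fin 2) ℚ) s * (MvPolynomial.C s * Y₀) = Y₀ := by
      rw [MvPolynomial.algebraMap_eq, ← mul_assoc, ← MvPolynomial.C_mul, hss, MvPolynomial.C_1,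
        one_mul]
    rw [h1]
    exact h.eq
  · intro G hG h0
    have h1 : bv G (C (C s) * X : Bi) (C X : Bi) = 0 := by
      by_contra hne
      apply h.inj _ hne
      rw [bv_bv, bv_mul, bv_C_C, bv_X, bv_C_X, MvPolynomial.algebraMap_eq]
      exact h0
    apply hG
    have h2 : bv (bv G (C (C s) * X : Bi) (C X : Bi)) (X : Bi) (C (C s * X) : Bi) = G := by
      rw [bv_bv, bv_mul, bv_C_C, bv_X, bv_C_X]
      have h3 : algebraMap ℚ Bi s * C (C s * X) = C X := by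
        change (C (C s) : Bi) * C (C s * X) = C X
        rw [← C_mul, ← mul_assoc, ← C_mul, hss, C_1, one_mul]
      rw [h3]
      exact bv_id G
    rw [← h2, h1, bv_zero]
  · obtain ⟨D, hD, hden⟩ := h.den
    refine ⟨D, hD, fun u hu => ?_⟩
    obtain ⟨a, b, ha, hb⟩ := hden u hu
    rcases hs with rfl | rfl
    · refine ⟨b, a, ?_, ha⟩
      rw [evz_C_mul, one_mul, hb]
    · refine ⟨-b, a, ?_, ha⟩
      rw [evz_C_mul]
      push_cast
      rw [← hb]
      ring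

open ChW in
theorem cf_swp (F : Bi) (s : ℚ) (i j : ℕ) : cf (swp F s) i j = s ^ i * cf F j i := by
  have h1 : swp F s = bv (bv F (X : Bi) (C X : Bi)) (C (C s * X) : Bi) (X : Bi) := by
    rw [swp, bv_bv, bv_X, bv_C_X]
  have h2 : ∀ H : Bi, bv H (C (C s * X) : Bi) (X : Bi) = H.map (compRingHom (C s * X)) := by
    intro H
    have h : bvHom (C (C s * X) : Bi) (X : Bi) = mapRingHom (compRingHom (C s * X)) := by
      ext z
      · simp [bvHom]
      · simp [bvHom]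
      · simp [bvHom]
    exact congrArg (fun ψ : Bi →+* Bi => ψ H) h
  rw [h1, h2, cf, coeff_map, coe_compRingHom_apply, comp_C_mul_X_coeff, ← cf_swap F i j, cf]
  ring

theorem swp_hasWt (F : Bi) (s : ℚ) (hs : s = 1 ∨ s = -1) (w : ℕ) (hw : HasWt 1 (w : ℚ) F) :
    HasWt 1 (w : ℚ) (swp F s) ∧
      w ≤ (ini 1 (w : ℚ) (swp F s)).natDegree + (ini 1 (w : ℚ) F).natTrailingDegree := by
  have hs0 : s ≠ 0 := by
    rcases hs with rfl | rfl <;> norm_num
  constructor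
  · obtain ⟨h1, i, j, h2, h3⟩ := hw
    refine ⟨?_, j, i, ?_, ?_⟩
    · intro i j hij
      rw [cf_swp] at hij
      have := h1 j i (right_ne_zero_of_mul hij)
      linarith
    · rw [cf_swp]
      exact mul_ne_zero (pow_ne_zero _ hs0) h2
    · linarith
  · have h1 : (ini 1 (w : ℚ) F).coeff (ini 1 (w : ℚ) F).natTrailingDegree ≠ 0 := by
      have := mt trailingCoeff_eq_zero.1 hw.ini_ne_zero
      exact this
    obtain ⟨i, hi, -, hne⟩ := exists_of_coeff_ini_ne_zero h1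
    have h2 : ((((ini 1 (w : ℚ) F).natTrailingDegree : ℕ) : ℚ)) + 1 * (i : ℚ) = w := by linarith
    have h3 := coeff_ini_of (F := swp F s) h2
    have h4 : (ini 1 (w : ℚ) (swp F s)).coeff i ≠ 0 := by
      rw [h3, cf_swp]
      exact mul_ne_zero (pow_ne_zero _ hs0) hne
    have h5 := le_natDegree_of_ne_zero h4
    have h6 : (ini 1 (w : ℚ) F).natTrailingDegree + i = w := by
      have : (((ini 1 (w : ℚ) F).natTrailingDegree + i : ℕ) : ℚ) = (w : ℕ) := by
        push_cast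
        linarith
      exact_mod_cast this
    omega

open ChW in
theorem swp_full {S : Set (ℤ × ℤ)} {X₀ Y₀ : MvPolynomial (Fin 2) ℚ} (s : ℚ)
    (hs : s = 1 ∨ s = -1) (k : ℕ) (hk : 1 ≤ k) (ε₀ x₀ : ℝ) (hε₀ : 0 < ε₀)
    (h : Full S X₀ Y₀ (Γ₂ k ε₀ x₀)) :
    ∃ ε' : ℝ, 0 < ε' ∧ Full S (MvPolynomial.C s * Y₀) X₀ (Γ₁ ε') := by
  obtain ⟨D, hD, hf⟩ := h
  have hD0 : (0 : ℝ) < D := by exact_mod_cast hD
  have hm : 0 < max x₀ 1 := lt_of_lt_of_le one_pos (le_max_right _ _)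
  refine ⟨min ε₀ (1 / max x₀ 1), lt_min hε₀ (by positivity), D, hD, ?_⟩
  intro a b hab
  obtain ⟨h1, h2⟩ := hab
  have h1' : 0 < (D : ℝ) * a := h1
  have h2' : (D : ℝ) * a ≤ min ε₀ (1 / max x₀ 1) * ((D : ℝ) * b) := h2
  have ha : 0 < a := by
    have : (0 : ℝ) < a := by
      by_contra hc
      rw [not_lt] at hc
      have := mul_nonpos_of_nonneg_of_nonpos hD0.le hc
      linarith
    exact_mod_cast this
  have hDa : (1 : ℝ) ≤ (D : ℝ) * a := by
    have h3 : (1 : ℤ) ≤ D * a := by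
      have : (0 : ℤ) < D * a := mul_pos (by exact_mod_cast hD) ha
      omega
    exact_mod_cast h3
  have hDb : 0 < (D : ℝ) * b := by
    by_contra hc
    rw [not_lt] at hc
    have h3 : 0 < min ε₀ (1 / max x₀ 1) := lt_min hε₀ (by positivity)
    have := mul_nonpos_of_nonneg_of_nonpos h3.le hc
    linarith
  have hmax : max x₀ 1 ≤ (D : ℝ) * b := by
    have h3 : min ε₀ (1 / max x₀ 1) * ((D : ℝ) * b) ≤ 1 / max x₀ 1 * ((D : ℝ) * b) :=
      mul_le_mul_of_nonneg_right (min_le_right _ _) hDb.le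
    have h4 : 1 ≤ 1 / max x₀ 1 * ((D : ℝ) * b) := by linarith
    rw [one_div, ← div_eq_inv_mul, le_div_iff₀ hm] at h4
    linarith
  have hkey : (D : ℝ) * a ≤ ε₀ * ((D : ℝ) * b) ^ k := by
    have h3 : min ε₀ (1 / max x₀ 1) * ((D : ℝ) * b) ≤ ε₀ * ((D : ℝ) * b) :=
      mul_le_mul_of_nonneg_right (min_le_left _ _) hDb.le
    have h4 : (D : ℝ) * b ≤ ((D : ℝ) * b) ^ k :=
      le_self_pow₀ ((le_max_right _ _).trans hmax) (by omega)
    have h5 := mul_le_mul_of_nonneg_left h4 hε₀.le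
    linarith
  rcases hs with rfl | rfl
  · obtain ⟨u, hu, e1, e2⟩ := hf b a ⟨(le_max_left _ _).trans hmax, by
      change |(D : ℝ) * a| ≤ ε₀ * ((D : ℝ) * b) ^ k
      rw [abs_of_pos h1']
      exact hkey⟩
    refine ⟨u, hu, ?_, e1⟩
    rw [evz_C_mul, one_mul, e2]
  · obtain ⟨u, hu, e1, e2⟩ := hf b (-a) ⟨(le_max_left _ _).trans hmax, by
      change |(D : ℝ) * ((-a : ℤ) : ℝ)| ≤ ε₀ * ((D : ℝ) * b) ^ k
      push_cast
      rw [mul_neg, abs_neg, abs_of_pos h1']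
      exact hkey⟩
    refine ⟨u, hu, ?_, e1⟩
    rw [evz_C_mul, e2]
    push_cast
    ring

theorem swp_lfp {ℓ P : MvPolynomial (Fin 2) ℚ} (s : ℚ) (hs : s = 1 ∨ s = -1) :
    (MvPolynomial.C s * P).totalDegree = P.totalDegree ∧
      (Lfp ℓ P → Lfp ℓ (MvPolynomial.C s * P)) := by
  have hs0 : s ≠ 0 := by
    rcases hs with rfl | rfl <;> norm_num
  have h1 : (MvPolynomial.C s * P).totalDegree = P.totalDegree := by
    rcases hs with rfl | rfl
    · rw [MvPolynomial.C_1, one_mul]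
    · rw [MvPolynomial.C_neg, MvPolynomial.C_1, neg_one_mul, MvPolynomial.totalDegree_neg]
  refine ⟨h1, ?_⟩
  rintro ⟨κ, hκ, h2⟩
  refine ⟨s * κ, mul_ne_zero hs0 hκ, ?_⟩
  rw [h1, MvPolynomial.homogeneousComponent_C_mul, h2, MvPolynomial.C_mul, mul_assoc]

end Pool.Agent.FPO
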