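import Pool.Agent.FPO.Hmg

/-!
# FPO module Cop: coprimality of the homogenized factors (diff 2)

Let `v = τ.den`, `u = τ.num`, `η = C (T (-u)) * X^v ∈ LA` and for `Ψ ∈ ℚ[X]` let `Ψ(η)` be
`aeval η Ψ` (`LA` is a `ℚ`-algebra; or `Ψ.eval₂ (algebraMap ℚ LA) η`).

LEMMA.  If `Ψ ≠ 0` and `Okw τ w (X^{j₀} * expand ℚ v Ψ)`, then `i₀ = w - τ j₀` is an integer, and
`hmg τ w (X^{j₀} * expand ℚ v Ψ) = C (T i₀) * X^{j₀} * Ψ(η)`.
Proof: some coefficient `Ψ_k ≠ 0`; the coefficient of `X^{j₀} expand v Ψ` at `j₀ + v k` is `Ψ_k`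
(`coeff_X_pow_mul`, `coeff_expand_mul`), so `w - τ (j₀ + v k) = w - τ j₀ - u k` is an integer
(`τ v = u`).  Compare coefficients: the right side is `∑_k C (C Ψ_k * T (i₀ - u k)) * X^{j₀ + v k}`;
use `lcf_hmg` and `la_ext`.

PROOF of `cop`.  With `j₀ = 0` for the first factor: `g₁ = C (T i) * (m^s)(η)`,
`g₂ = C (T i') * X^{j₀} * Φ(η)`, and `C (T i)` is a unit.  `IsCoprime (m^s) Φ` gives
`IsCoprime ((m^s)(η)) (Φ(η))` (`IsCoprime.map` for the ring homomorphism `aeval η`).  Since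
`m = C m₀ + X * m'` with `m₀ = m.coeff 0 ≠ 0` (`divX_mul_X_add`), `m(η) = m₀ + η m'(η)` and `X ∣ η`
(as `v ≥ 1`), so `IsCoprime (m(η)) X` (a unit minus a multiple of `X`), hence
`IsCoprime (m(η)^s) (X^{j₀})` and `IsCoprime (m(η)^s) (X^{j₀} Φ(η))` (`IsCoprime.mul_right`,
`IsCoprime.pow`).  (`Φ ≠ 0` may be assumed: if `Φ = 0` then `m^s` is a unit, so `m` is a nonzero
constant or `s = 0`; then `(m^s)(η)` is a unit and `g₁` is a unit, `isCoprime` trivially; note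
`m^s ≠ 0` because `m.coeff 0 ≠ 0`.)
-/

set_option autoImplicit false

open Polynomial

namespace Pool.Agent.FPO

namespace Cop

theorem coeff_hmg (τ w : ℚ) (p : ℚ[X]) (j : ℕ) :
    (hmg τ w p).coeff j = LaurentPolynomial.C (p.coeff j) * LaurentPolynomial.T ⌊w - τ * j⌋ := by
  rw [hmg, finsetSum_coeff]
  simp only [coeff_C_mul, coeff_X_pow]
  by_cases hj : j ≤ p.natDegree
  · rw [Finset.sum_eq_single j]
    · simp
    · intro k _ hk
      rw [if_neg (Ne.symm hk), mul_zero]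
    · intro h
      exact absurd (Finset.mem_range.2 (Nat.lt_succ_of_le hj)) h
  · push Not at hj
    rw [coeff_eq_zero_of_natDegree_lt hj]
    rw [map_zero, zero_mul]
    refine Finset.sum_eq_zero fun k hk => ?_
    rw [if_neg, mul_zero]
    rintro rfl
    rw [Finset.mem_range] at hk
    omega

/-- The substitution `ξ ↦ x^{-u} y^v`. -/
noncomputable def η (τ : ℚ) : LA := C (LaurentPolynomial.T (-τ.num)) * X ^ τ.den

theorem η_pow (τ : ℚ) (k : ℕ) :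
    η τ ^ k = C (LaurentPolynomial.T (-(τ.num * k))) * X ^ (τ.den * k) := by
  rw [η, mul_pow, ← C_pow, LaurentPolynomial.T_pow, ← pow_mul]
  congr 3
  ring

theorem coeff_aeval (τ : ℚ) (Ψ : ℚ[X]) (i : ℤ) (j₀ j : ℕ) :
    (C (LaurentPolynomial.T i) * X ^ j₀ * aeval (η τ) Ψ : LA).coeff j =
      ∑ k ∈ Finset.range (Ψ.natDegree + 1), if j = j₀ + τ.den * k then
        LaurentPolynomial.C (Ψ.coeff k) * LaurentPolynomial.T (i - τ.num * k) else 0 := by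
  rw [aeval_eq_sum_range, Finset.mul_sum, finsetSum_coeff]
  refine Finset.sum_congr rfl fun k _ => ?_
  rw [η_pow]
  have h1 : (C (LaurentPolynomial.T i) * X ^ j₀ *
      Ψ.coeff k • (C (LaurentPolynomial.T (-(τ.num * k))) * X ^ (τ.den * k)) : LA) =
      C (LaurentPolynomial.C (Ψ.coeff k) * LaurentPolynomial.T (i - τ.num * k)) *
        X ^ (j₀ + τ.den * k) := by
    rw [Algebra.smul_def]
    have h2 : (algebraMap ℚ LA) (Ψ.coeff k) = C (LaurentPolynomial.C (Ψ.coeff k)) := rfl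
    rw [h2, sub_eq_add_neg, LaurentPolynomial.T_add, pow_add, C_mul, C_mul]
    ring
  rw [h1, coeff_C_mul_X_pow]

theorem hmg_eq {τ w : ℚ} {Ψ : ℚ[X]} {j₀ : ℕ} (hΨ : Ψ ≠ 0)
    (h : Okw τ w (X ^ j₀ * expand ℚ τ.den Ψ)) :
    ∃ i : ℤ, hmg τ w (X ^ j₀ * expand ℚ τ.den Ψ) =
      C (LaurentPolynomial.T i) * X ^ j₀ * aeval (η τ) Ψ := by
  have hv : 0 < τ.den := τ.den_pos
  have hτ : τ * τ.den = τ.num := Rat.mul_den_eq_num τ
  have hco : ∀ k : ℕ, (X ^ j₀ * expand ℚ τ.den Ψ : ℚ[X]).coeff (j₀ + τ.den * k) = Ψ.coeff k := by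
    intro k
    rw [add_comm, coeff_X_pow_mul, mul_comm, coeff_expand_mul hv]
  obtain ⟨k₁, hk₁⟩ : ∃ k, Ψ.coeff k ≠ 0 := ⟨Ψ.natDegree, by
    rw [coeff_natDegree]; exact leadingCoeff_ne_zero.2 hΨ⟩
  have h1 := h (j₀ + τ.den * k₁) (by rw [hco]; exact hk₁)
  set i : ℤ := ⌊w - τ * ((j₀ + τ.den * k₁ : ℕ) : ℚ)⌋ + τ.num * k₁ with hi
  have hiw : (i : ℚ) = w - τ * j₀ := by
    rw [hi]
    push_cast
    push_cast at h1
    rw [h1, ← hτ]
    ring
  refine ⟨i, ?_⟩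
  apply Polynomial.ext
  intro j
  rw [coeff_hmg, coeff_aeval]
  by_cases hex : ∃ k, j = j₀ + τ.den * k
  · obtain ⟨k, rfl⟩ := hex
    rw [hco]
    have hfl : ⌊w - τ * ((j₀ + τ.den * k : ℕ) : ℚ)⌋ = i - τ.num * k := by
      rw [Int.floor_eq_iff]
      have : w - τ * ((j₀ + τ.den * k : ℕ) : ℚ) = ((i - τ.num * k : ℤ) : ℚ) := by
        push_cast
        rw [hiw, ← hτ]
        ring
      rw [this]
      constructor
      · exact le_rfl
      · linarith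
    rw [hfl]
    have hinj : ∀ k', (j₀ + τ.den * k = j₀ + τ.den * k') ↔ k = k' := by
      intro k'
      constructor
      · intro h'
        have : τ.den * k = τ.den * k' := by omega
        exact Nat.eq_of_mul_eq_mul_left hv this
      · rintro rfl; rfl
    simp only [hinj]
    by_cases hk : k ≤ Ψ.natDegree
    · rw [Finset.sum_ite_eq, if_pos (Finset.mem_range.2 (Nat.lt_succ_of_le hk))]
    · push Not at hk
      rw [coeff_eq_zero_of_natDegree_lt hk, map_zero, zero_mul, Finset.sum_ite_eq, if_neg]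
      intro h'
      rw [Finset.mem_range] at h'
      omega
  · have h2 : (X ^ j₀ * expand ℚ τ.den Ψ : ℚ[X]).coeff j = 0 := by
      rw [coeff_X_pow_mul']
      split_ifs with h3
      · rw [coeff_expand hv, if_neg]
        rintro ⟨k, hk⟩
        exact hex ⟨k, by omega⟩
      · rfl
    rw [h2, map_zero, zero_mul]
    symm
    refine Finset.sum_eq_zero fun k _ => if_neg fun h' => hex ⟨k, h'⟩

theorem isUnit_CT (i : ℤ) : IsUnit (C (LaurentPolynomial.T i) : LA) :=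
  (LaurentPolynomial.isUnit_T i).map C

theorem isCoprime_X {τ : ℚ} {m : ℚ[X]} (hm : m.coeff 0 ≠ 0) :
    IsCoprime (aeval (η τ) m) (X : LA) := by
  have hv : 0 < τ.den := τ.den_pos
  have h1 : aeval (η τ) m = aeval (η τ) m.divX * η τ + algebraMap ℚ LA (m.coeff 0) := by
    conv_lhs => rw [← divX_mul_X_add m]
    rw [map_add, map_mul, aeval_X, aeval_C]
  have h2 : (X : LA) ∣ η τ := by
    rw [η]
    exact Dvd.dvd.mul_left (dvd_pow_self X hv.ne') _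
  obtain ⟨e, he⟩ := h2
  have h3 : IsUnit (algebraMap ℚ LA (m.coeff 0)) :=
    (IsUnit.mk0 _ hm).map (algebraMap ℚ LA)
  obtain ⟨b, hb⟩ := h3.exists_right_inv
  refine ⟨b, -(aeval (η τ) m.divX * e * b), ?_⟩
  rw [h1, he]
  linear_combination hb

end Cop

theorem cop (τ : ℚ) (m Φ : ℚ[X]) (s j₀ : ℕ) (hcop : IsCoprime (m ^ s) Φ) (hm : m.coeff 0 ≠ 0)
    (w₁ w₂ : ℚ) (h₁ : Okw τ w₁ (expand ℚ τ.den (m ^ s)))
    (h₂ : Okw τ w₂ (X ^ j₀ * expand ℚ τ.den Φ)) :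
    IsCoprime (hmg τ w₁ (expand ℚ τ.den (m ^ s))) (hmg τ w₂ (X ^ j₀ * expand ℚ τ.den Φ)) := by
  have hm0 : m ≠ 0 := by
    rintro rfl
    exact hm (coeff_zero 0)
  have hms : m ^ s ≠ 0 := pow_ne_zero _ hm0
  have h₁' : Okw τ w₁ (X ^ 0 * expand ℚ τ.den (m ^ s)) := by rw [pow_zero, one_mul]; exact h₁
  obtain ⟨i₁, hi₁⟩ := Cop.hmg_eq hms h₁'
  simp only [pow_zero, one_mul, mul_one] at hi₁
  rw [hi₁]
  by_cases hΦ : Φ = 0
  · have hu : IsUnit (m ^ s) := by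
      rw [hΦ, isCoprime_zero_right] at hcop
      exact hcop
    have hu' : IsUnit (C (LaurentPolynomial.T i₁) * aeval (Cop.η τ) (m ^ s) : LA) :=
      (Cop.isUnit_CT i₁).mul (hu.map (aeval (Cop.η τ)))
    obtain ⟨b, hb⟩ := hu'.exists_left_inv
    exact ⟨b, 0, by rw [hb]; ring⟩
  · obtain ⟨i₂, hi₂⟩ := Cop.hmg_eq hΦ h₂
    rw [hi₂]
    have c1 : IsCoprime (aeval (Cop.η τ) (m ^ s)) (aeval (Cop.η τ) Φ) :=
      hcop.map (aeval (Cop.η τ) : ℚ[X] →ₐ[ℚ] LA).toRingHom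
    have c2 : IsCoprime (aeval (Cop.η τ) (m ^ s)) ((X : LA) ^ j₀) := by
      rw [map_pow]
      exact (Cop.isCoprime_X hm).pow
    have c3 : IsCoprime (aeval (Cop.η τ) (m ^ s)) ((X : LA) ^ j₀ * aeval (Cop.η τ) Φ) :=
      c2.mul_right c1
    have c4 : IsCoprime (C (LaurentPolynomial.T i₁) * aeval (Cop.η τ) (m ^ s))
        ((X : LA) ^ j₀ * aeval (Cop.η τ) Φ) :=
      (isCoprime_mul_unit_left_left (Cop.isUnit_CT i₁) _ _).2 c3
    rw [mul_assoc (C (LaurentPolynomial.T i₂))]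
    exact (isCoprime_mul_unit_left_right (Cop.isUnit_CT i₂) _ _).2 c4

end Pool.Agent.FPO
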