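import Pool.Agent.FPO.SmU

/-!
# FPO module Cov: from local to global smallness (diff 1)

PROOF.  For `t ∈ [0, α]` let `ε_t > 0`, `x_t` be as in `h`.  The open intervals
`(t - ε_t, t + ε_t)` cover the compact set `[0, α]` (`isCompact_Icc`), so finitely many
`t_1, …, t_m` suffice (`IsCompact.elim_finite_subcover` / `elim_nhds_subcover`).  Let `x* ` be the
maximum of the `x_{t_i}` and `1`.  If `u = (x, y) ∈ sec α` and `x ≥ x*`, then `t = y/x ∈ [0, α]` is in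
some interval, `|y - t_i x| = x |t - t_i| ≤ ε_{t_i} x`.  The `u ∈ sec α` with `x < x*` form a finite set
(`0 ≤ x < x*`, `0 ≤ y ≤ α x`).  Union: `SmlS.biUnion`, `SmlS.union`, `SmlS.of_finite`, `SmlS.mono`.
-/

set_option autoImplicit false

open Polynomial

namespace Pool.Agent.FPO

theorem cov (α : ℝ) (hα : 0 < α) (F₀ : MvPolynomial (Fin 2) ℚ)
    (h : ∀ t : ℝ, 0 ≤ t → t ≤ α → ∃ ε x₁ : ℝ, 0 < ε ∧
      SmlS F₀ {u | u ∈ sec α ∧ x₁ ≤ (u.1 : ℝ) ∧ |(u.2 : ℝ) - t * u.1| ≤ ε * u.1}) :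
    SmlS F₀ (sec α) := by
  classical
  have h' : ∀ t : ℝ, ∃ ε x₁ : ℝ, 0 < ε ∧ (0 ≤ t → t ≤ α →
      SmlS F₀ {u | u ∈ sec α ∧ x₁ ≤ (u.1 : ℝ) ∧ |(u.2 : ℝ) - t * u.1| ≤ ε * u.1}) := by
    intro t
    by_cases ht : 0 ≤ t ∧ t ≤ α
    · obtain ⟨ε, x₁, h1, h2⟩ := h t ht.1 ht.2
      exact ⟨ε, x₁, h1, fun _ _ => h2⟩
    · exact ⟨1, 0, one_pos, fun h1 h2 => absurd ⟨h1, h2⟩ ht⟩
  choose ε x₁ hε hsm using h'
  obtain ⟨s, hs, hcov⟩ := (isCompact_Icc (a := (0 : ℝ)) (b := α)).elim_nhds_subcover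
    (fun t => Metric.ball t (ε t)) (fun t _ => Metric.ball_mem_nhds t (hε t))
  obtain ⟨M, hM⟩ : ∃ M : ℝ, ∀ t ∈ s, x₁ t ≤ M := by
    obtain ⟨M, hM⟩ := (s.image x₁).bddAbove
    exact ⟨M, fun t ht => hM (by simpa using ⟨t, ht, rfl⟩)⟩
  have hfin : {u : ℤ × ℤ | u ∈ sec α ∧ (u.1 : ℝ) < max M 1}.Finite := by
    obtain ⟨N, hN⟩ := exists_nat_ge (max M 1)
    obtain ⟨N', hN'⟩ := exists_nat_ge (α * N)
    refine ((Finset.Icc (0 : ℤ) N) ×ˢ (Finset.Icc (0 : ℤ) N')).finite_toSet.subset ?_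
    rintro ⟨x, y⟩ ⟨⟨hx, hy, hxy⟩, hlt⟩
    simp only at hx hy hxy hlt
    have hxN : (x : ℝ) ≤ N := (hlt.trans_le hN).le
    have hyN : (y : ℝ) ≤ N' := hxy.trans ((mul_le_mul_of_nonneg_left hxN hα.le).trans hN')
    simp only [Finset.coe_product, Set.mem_prod, Finset.mem_coe, Finset.mem_Icc]
    exact ⟨⟨hx, by exact_mod_cast hxN⟩, ⟨hy, by exact_mod_cast hyN⟩⟩
  refine ((SmlS.biUnion s (fun t => {u | u ∈ sec α ∧ x₁ t ≤ (u.1 : ℝ) ∧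
    |(u.2 : ℝ) - t * u.1| ≤ ε t * u.1}) fun t ht => hsm t (hs t ht).1 (hs t ht).2).union
    (SmlS.of_finite hfin)).mono fun u hu => ?_
  by_cases hlt : (u.1 : ℝ) < max M 1
  · exact Or.inr ⟨hu, hlt⟩
  · left
    push Not at hlt
    have hu1 : (0 : ℝ) < u.1 := by linarith [le_max_right M 1]
    have hu2 : (0 : ℝ) ≤ u.2 := by exact_mod_cast hu.2.1
    have ht : (u.2 : ℝ) / u.1 ∈ Set.Icc 0 α :=
      ⟨div_nonneg hu2 hu1.le, by rw [div_le_iff₀ hu1]; exact hu.2.2⟩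
    have hc := hcov ht
    simp only [Set.mem_iUnion] at hc ⊢
    obtain ⟨t, hts, htb⟩ := hc
    refine ⟨t, hts, hu, (hM t hts).trans ((le_max_left _ _).trans hlt), ?_⟩
    rw [Metric.mem_ball, Real.dist_eq] at htb
    have h1 : (u.2 : ℝ) - t * u.1 = ((u.2 : ℝ) / u.1 - t) * u.1 := by
      rw [sub_mul, div_mul_cancel₀ _ hu1.ne']
    rw [h1, abs_mul, abs_of_pos hu1]
    exact mul_le_mul_of_nonneg_right htb.le hu1.le

end Pool.Agent.FPO
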