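import Pool.Agent.FPO.RootL
import Pool.Agent.FPO.Equi

/-!
# FPO module CurA: integral points on `R(N, x) = 0` (diff 3)

PROOF.  `root_loc` with `K' = 1` gives `p i` (`i < R.natDegree`) and `x₀`.  Let `q = rePart (p i)`
(coefficients algebraic: real part of an algebraic number, `(z + conj z)/2`; e.g.
`IsAlgebraic.add`, conjugation is an algebra automorphism over `ℚ`).
Call an exponent `e > 0` with `q e ≠ 0` bad if NOT (`e` is a natural number and `q e` is rational);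
equivalently `Irreg e (q e)` (for `e > 0`).
CASE 1: some exponent is bad; let `e₀` be the largest bad one.  `equi` (with `D = 1`, `A = 1`,
`κ = 1`) bounds the number of `N ≤ n` for which some integer `x` satisfies
`|x - rsum q N| ≤ N^{-1}` by `C n^{1-δ}`.
CASE 2: no exponent is bad.  Then `rsum q N = g(N) + c₀ + ρ(N)`, `g ∈ ℚ[X]` (sum of the terms with
`e > 0`), `c₀ = q 0`, `ρ(N) → 0` (terms with `e < 0`).  Let `D₁ ≥ 1` be an integer such that `D₁ g` has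
integral coefficients.  If `|x - rsum q N| ≤ N^{-1}` then the integer `z = D₁ (x - g(N))` satisfies
`|z - D₁ c₀| ≤ D₁ (N^{-1} + |ρ(N)|)`, which for `N ≥ N₀` is smaller than the distance from `D₁ c₀` to
the nearest integer different from `D₁ c₀`.  So for `N ≥ N₀`: `D₁ c₀ = z` is an integer and
`x = g(N) + z/D₁ = γ(N)` with the FIXED rational polynomial `γ = g + C (z/D₁)`.  Put this `γ` (if
`D₁ c₀ ∈ ℤ`) into `Γ`.
For given `n` let `T` be the union of the sets of `N ≤ n` from case 1 and of the `N < N₀`, `N < x₀`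
(`N ≥ 1` for the first; a bounded number for the second).  Take the minimum of the `δ`'s (and `1`),
the sum of the constants.
-/

set_option autoImplicit false

open Polynomial

namespace Pool.Agent.FPO

namespace CurA

theorem exists_den (g : ℚ[X]) : ∃ D : ℕ, 0 < D ∧ ∀ N : ℕ, ∃ m : ℤ, (D : ℚ) * g.eval (N : ℚ) = m := by
  induction g using Polynomial.induction_on' with
  | add p q hp hq =>
    obtain ⟨D, hD, h⟩ := hp
    obtain ⟨E, hE, k⟩ := hq
    refine ⟨D * E, Nat.mul_pos hD hE, fun N => ?_⟩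
    obtain ⟨m, hm⟩ := h N
    obtain ⟨l, hl⟩ := k N
    refine ⟨E * m + D * l, ?_⟩
    push_cast
    rw [eval_add, ← hm, ← hl]
    ring
  | monomial n a =>
    refine ⟨a.den, a.den_pos, fun N => ⟨a.num * N ^ n, ?_⟩⟩
    rw [eval_monomial]
    push_cast
    rw [← mul_assoc, Rat.den_mul_eq_num]

theorem exists_gap (c : ℝ) : ∃ η : ℝ, 0 < η ∧ ∀ z : ℤ, |(z : ℝ) - c| < η → (z : ℝ) = c := by
  by_cases hc : ∃ m : ℤ, (m : ℝ) = c
  · obtain ⟨m, rfl⟩ := hc
    refine ⟨1, one_pos, fun z hz => ?_⟩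
    have h1 : |z - m| < 1 := by exact_mod_cast hz
    have h2 : z - m = 0 := Int.abs_lt_one_iff.1 h1
    have h3 : z = m := by omega
    rw [h3]
  · push Not at hc
    have h1 : (⌊c⌋ : ℝ) < c := lt_of_le_of_ne (Int.floor_le c) (hc _)
    have h2 : c < (⌊c⌋ : ℝ) + 1 := Int.lt_floor_add_one c
    refine ⟨min (c - ⌊c⌋) (⌊c⌋ + 1 - c), lt_min (by linarith) (by linarith), fun z hz => ?_⟩
    exfalso
    obtain ⟨h3, h4⟩ := lt_min_iff.1 hz
    rw [abs_lt] at h3 h4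
    have h5 : (⌊c⌋ : ℝ) < z := by linarith
    have h6 : (z : ℝ) < ⌊c⌋ + 1 := by linarith
    have h7 : ⌊c⌋ < z := by exact_mod_cast h5
    have h8 : z < ⌊c⌋ + 1 := by exact_mod_cast h6
    omega

theorem exists_min {ι : Type*} (s : Finset ι) (δ : ι → ℝ) (h : ∀ i ∈ s, 0 < δ i) :
    ∃ δ₀ : ℝ, 0 < δ₀ ∧ δ₀ ≤ 1 ∧ ∀ i ∈ s, δ₀ ≤ δ i := by
  classical
  induction s using Finset.induction_on with
  | empty => exact ⟨1, one_pos, le_rfl, fun i hi => absurd hi (Finset.notMem_empty i)⟩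
  | insert a s _ ih =>
    obtain ⟨e, he, he1, h1⟩ := ih fun i hi => h i (Finset.mem_insert_of_mem hi)
    refine ⟨min e (δ a), lt_min he (h a (Finset.mem_insert_self _ _)), (min_le_left _ _).trans he1,
      fun i hi => ?_⟩
    rcases Finset.mem_insert.1 hi with rfl | hi
    · exact min_le_right _ _
    · exact (min_le_left _ _).trans (h1 i hi)

/-- Algebraicity of real parts. -/
theorem isAlgebraic_re {z : ℂ} (hz : IsAlgebraic ℚ z) : IsAlgebraic ℚ z.re := by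
  have h1 : IsAlgebraic ℚ ((starRingEnd ℂ) z) := by
    obtain ⟨P, hP, hPz⟩ := hz
    refine ⟨P, hP, ?_⟩
    have h2 : (aeval ((starRingEnd ℂ) z)) P = (starRingEnd ℂ) (aeval z P) := by
      rw [aeval_def, aeval_def, hom_eval₂]
      congr 1
      exact Subsingleton.elim _ _
    rw [h2, hPz, map_zero]
  have h3 : IsAlgebraic ℚ (z + (starRingEnd ℂ) z) := hz.add h1
  have h4 : (z.re : ℂ) = (((1 / 2 : ℚ)) : ℂ) * (z + (starRingEnd ℂ) z) := by
    rw [Complex.add_conj]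
    push_cast
    ring
  have h5 : IsAlgebraic ℚ ((z.re : ℝ) : ℂ) := by
    rw [h4]
    exact (isAlgebraic_algebraMap (A := ℂ) (1 / 2 : ℚ)).mul h3
  exact (isAlgebraic_algebraMap_iff (R := ℚ) (S := ℝ) (A := ℂ) Complex.ofReal_injective).1 h5

/-- The statement for one branch. -/
def Good (q : ℚ →₀ ℝ) : Prop :=
  ∃ (Γ : Finset ℚ[X]) (C δ : ℝ), 0 ≤ C ∧ 0 < δ ∧ ∀ n : ℕ, 1 ≤ n → ∃ T : Finset ℕ,
      (T.card : ℝ) ≤ C * (n : ℝ) ^ (1 - δ) ∧
      ∀ N : ℕ, 1 ≤ N → N ≤ n → ∀ x : ℤ, |(x : ℝ) - rsum q (N : ℝ)| ≤ (N : ℝ) ^ (-(1 : ℝ)) →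
        (∀ γ ∈ Γ, (x : ℝ) ≠ aeval (N : ℝ) γ) → N ∈ T

/-- The regular exponents. -/
def OkE (q : ℚ →₀ ℝ) (e : ℚ) : Prop := ∃ (k : ℕ) (r : ℚ), e = k ∧ q e = r

theorem irreg_of_not_ok {q : ℚ →₀ ℝ} {e : ℚ} (he : 0 < e) (h : ¬ OkE q e) : Irreg e (q e) := by
  by_contra h1
  rw [Irreg, not_or] at h1
  obtain ⟨h2, h3⟩ := h1
  push Not at h2
  obtain ⟨k, hk⟩ := h2
  have hk0 : 0 < k := by
    rw [hk] at he
    exact_mod_cast he
  obtain ⟨n, rfl⟩ := Int.eq_ofNat_of_zero_le hk0.le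
  rw [Irrational, not_not] at h3
  obtain ⟨r, hr⟩ := h3
  exact h ⟨n, r, by rw [hk]; rfl, hr.symm⟩

theorem good_of_bad (q : ℚ →₀ ℝ) (halg : ∀ e, IsAlgebraic ℚ (q e)) (e₁ : ℚ) (he₁ : 0 < e₁)
    (h₁ : q e₁ ≠ 0) (hb : ¬ OkE q e₁) : Good q := by
  classical
  obtain ⟨e₀, he₀, hmax⟩ := (q.support.filter fun e => 0 < e ∧ ¬ OkE q e).exists_max_image id
    ⟨e₁, Finset.mem_filter.2 ⟨Finsupp.mem_support_iff.2 h₁, he₁, hb⟩⟩
  obtain ⟨h2, h3, h4⟩ := Finset.mem_filter.1 he₀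
  obtain ⟨C, δ, hδ, h⟩ := equi q e₀ h3 (Finsupp.mem_support_iff.1 h2) (halg e₀)
    (irreg_of_not_ok h3 h4) (fun e he hqe => by
      by_contra h5
      have h6 := hmax e (Finset.mem_filter.2 ⟨Finsupp.mem_support_iff.2 hqe, h3.trans he, h5⟩)
      exact absurd he (not_lt.2 h6)) 1 one_pos 1 1 one_pos
  have hC : 0 ≤ C := by
    have h5 := h 1 le_rfl
    rw [Nat.cast_one, Real.one_rpow, mul_one] at h5
    exact (Nat.cast_nonneg _).trans h5
  refine ⟨∅, C, δ, hC, hδ, fun n hn => ⟨_, h n hn, fun N hN1 hN x hx _ => ?_⟩⟩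
  refine Finset.mem_filter.2 ⟨Finset.mem_Icc.2 ⟨hN1, hN⟩, x, ?_⟩
  rw [Nat.cast_one, div_one, div_one, one_mul]
  exact hx

theorem good_of_ok (q : ℚ →₀ ℝ) (hok : ∀ e, 0 < e → q e ≠ 0 → OkE q e) : Good q := by
  classical
  -- the polynomial part
  have hk : ∀ e : ℚ, ∃ g : ℚ[X], (0 < e → q e ≠ 0 → ∀ N : ℕ, q e * (N : ℝ) ^ (e : ℝ) =
      ((g.eval (N : ℚ) : ℚ) : ℝ)) := by
    intro e
    by_cases he : 0 < e ∧ q e ≠ 0
    · obtain ⟨k, r, h1, h2⟩ := hok e he.1 he.2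
      refine ⟨C r * X ^ k, fun _ _ N => ?_⟩
      rw [eval_mul, eval_C, eval_pow, eval_X, h2]
      push_cast
      congr 1
      rw [h1]
      push_cast
      exact Real.rpow_natCast _ _
    · exact ⟨0, fun h1 h2 => absurd ⟨h1, h2⟩ he⟩
  choose G hG using hk
  obtain ⟨g, hg⟩ : ∃ g : ℚ[X], g = ∑ e ∈ q.support.filter (fun e => 0 < e), G e := ⟨_, rfl⟩
  obtain ⟨D, hD, hDm⟩ := exists_den g
  obtain ⟨ρ, hρ⟩ : ∃ ρ : ℕ → ℝ, ρ = fun N : ℕ =>
      ∑ e ∈ q.support.filter (fun e => e < 0), q e * (N : ℝ) ^ (e : ℝ) := ⟨_, rfl⟩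
  have hsum : ∀ N : ℕ, rsum q N = ((g.eval (N : ℚ) : ℚ) : ℝ) + q 0 + ρ N := by
    intro N
    have h1 : rsum q N = ∑ e ∈ q.support, q e * (N : ℝ) ^ (e : ℝ) := rfl
    rw [h1, ← Finset.sum_filter_add_sum_filter_not q.support (fun e => 0 < e),
      ← Finset.sum_filter_add_sum_filter_not (q.support.filter fun e => ¬ 0 < e) (fun e => e = 0)]
    have h2 : ∑ e ∈ q.support.filter (fun e => 0 < e), q e * (N : ℝ) ^ (e : ℝ) =
        ((g.eval (N : ℚ) : ℚ) : ℝ) := by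
      rw [hg, eval_finsetSum]
      push_cast
      refine Finset.sum_congr rfl fun e he => ?_
      obtain ⟨h3, h4⟩ := Finset.mem_filter.1 he
      exact hG e h4 (Finsupp.mem_support_iff.1 h3) N
    have h3 : ∑ e ∈ (q.support.filter fun e => ¬ 0 < e).filter (fun e => e = 0),
        q e * (N : ℝ) ^ (e : ℝ) = q 0 := by
      rw [Finset.filter_filter]
      by_cases h0 : q 0 = 0
      · rw [h0]
        refine Finset.sum_eq_zero fun e he => ?_
        obtain ⟨_, _, h5⟩ := Finset.mem_filter.1 he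
        rw [h5, h0, zero_mul]
      · rw [Finset.sum_eq_single 0]
        · simp
        · intro e he hne
          obtain ⟨_, _, h5⟩ := Finset.mem_filter.1 he
          exact absurd h5 hne
        · intro h5
          exfalso
          apply h5
          simp [h0]
    have h4 : ∑ e ∈ (q.support.filter fun e => ¬ 0 < e).filter (fun e => ¬ e = 0),
        q e * (N : ℝ) ^ (e : ℝ) = ρ N := by
      rw [hρ, Finset.filter_filter]
      refine Finset.sum_congr ?_ fun _ _ => rfl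
      refine Finset.filter_congr fun e _ => ?_
      constructor
      · rintro ⟨h5, h6⟩
        exact lt_of_le_of_ne (not_lt.1 h5) h6
      · intro h5
        exact ⟨not_lt.2 h5.le, h5.ne⟩
    rw [h2, h3, h4]
    ring
  obtain ⟨η, hη, hgap⟩ := exists_gap ((D : ℝ) * q 0)
  have hlim : Filter.Tendsto (fun N : ℕ => (D : ℝ) * ((N : ℝ) ^ (-(1 : ℝ)) + |ρ N|)) Filter.atTop
      (nhds 0) := by
    have hN : Filter.Tendsto (fun N : ℕ => (N : ℝ)) Filter.atTop Filter.atTop :=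
      tendsto_natCast_atTop_atTop
    have h1 : Filter.Tendsto (fun N : ℕ => (N : ℝ) ^ (-(1 : ℝ))) Filter.atTop (nhds 0) :=
      (tendsto_rpow_neg_atTop one_pos).comp hN
    have h2 : Filter.Tendsto ρ Filter.atTop (nhds 0) := by
      rw [hρ, show (0 : ℝ) = ∑ e ∈ q.support.filter (fun e => e < 0), (0 : ℝ) by simp]
      refine tendsto_finsetSum _ fun e he => ?_
      have h3 : (0 : ℝ) < -(e : ℝ) := by
        have := (Finset.mem_filter.1 he).2
        have h4 : (e : ℝ) < 0 := by exact_mod_cast this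
        linarith
      have h4 := ((tendsto_rpow_neg_atTop h3).comp hN).const_mul (q e)
      rw [mul_zero] at h4
      refine h4.congr fun N => ?_
      rw [Function.comp_apply, neg_neg]
    have h3 : Filter.Tendsto (fun N : ℕ => |ρ N|) Filter.atTop (nhds 0) := by
      rw [← abs_zero (α := ℝ)]
      exact h2.abs
    have h4 := (h1.add h3).const_mul (D : ℝ)
    rw [add_zero, mul_zero] at h4
    exact h4
  obtain ⟨N₀, hN₀⟩ := Filter.eventually_atTop.1 (hlim.eventually (gt_mem_nhds hη))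
  -- the key consequence
  have key : ∀ N : ℕ, N₀ ≤ N → ∀ x : ℤ, |(x : ℝ) - rsum q (N : ℝ)| ≤ (N : ℝ) ^ (-(1 : ℝ)) →
      (∃ z : ℤ, (z : ℝ) = D * q 0) ∧ (x : ℝ) = ((g.eval (N : ℚ) : ℚ) : ℝ) + q 0 := by
    intro N hN x hx
    obtain ⟨m, hm⟩ := hDm N
    have hmR : (D : ℝ) * ((g.eval (N : ℚ) : ℚ) : ℝ) = m := by
      have := congrArg (fun t : ℚ => (t : ℝ)) hm
      push_cast at this
      exact_mod_cast this
    have hD0 : (0 : ℝ) < D := by exact_mod_cast hD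
    have h1 : ((D * x - m : ℤ) : ℝ) - D * q 0 =
        D * (((x : ℝ) - rsum q N) + ρ N) := by
      push_cast
      rw [hsum N, ← hmR]
      ring
    have h2 : |((D * x - m : ℤ) : ℝ) - D * q 0| < η := by
      rw [h1, abs_mul, abs_of_pos hD0]
      refine lt_of_le_of_lt ?_ (hN₀ N hN)
      refine mul_le_mul_of_nonneg_left ?_ hD0.le
      exact (abs_add_le _ _).trans (add_le_add hx le_rfl)
    have h3 := hgap _ h2
    refine ⟨⟨_, h3⟩, ?_⟩
    have h4 : (D : ℝ) * ((x : ℝ) - (((g.eval (N : ℚ) : ℚ) : ℝ) + q 0)) = 0 := by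
      push_cast at h3
      rw [← hmR] at h3
      linear_combination h3
    have h5 := (mul_eq_zero.1 h4).resolve_left hD0.ne'
    linarith
  have hTc : ∀ n : ℕ, ((Finset.range N₀).card : ℝ) ≤ (N₀ : ℝ) * (n : ℝ) ^ ((1 : ℝ) - 1) := by
    intro n
    rw [Finset.card_range, sub_self, Real.rpow_zero, mul_one]
  by_cases hr : ∃ r : ℚ, (r : ℝ) = q 0
  · obtain ⟨r, hr⟩ := hr
    refine ⟨{g + C r}, N₀, 1, Nat.cast_nonneg _, one_pos, fun n _ => ⟨Finset.range N₀, hTc n,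
      fun N _ _ x hx hγ => ?_⟩⟩
    rw [Finset.mem_range]
    by_contra h1
    push Not at h1
    obtain ⟨_, h2⟩ := key N h1 x hx
    refine hγ _ (Finset.mem_singleton_self _) ?_
    rw [h2, map_add, aeval_C, ← hr]
    congr 1
    rw [← Rat.cast_natCast (α := ℝ) N, ← eq_ratCast (algebraMap ℚ ℝ) (N : ℚ),
      aeval_algebraMap_apply]
    rfl
  · refine ⟨∅, N₀, 1, Nat.cast_nonneg _, one_pos, fun n _ => ⟨Finset.range N₀, hTc n,
      fun N _ _ x hx _ => ?_⟩⟩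
    rw [Finset.mem_range]
    by_contra h1
    push Not at h1
    obtain ⟨⟨z, hz⟩, -⟩ := key N h1 x hx
    apply hr
    refine ⟨(z : ℚ) / D, ?_⟩
    push_cast
    rw [hz]
    have hD0 : (D : ℝ) ≠ 0 := by exact_mod_cast hD.ne'
    field_simp

theorem good (q : ℚ →₀ ℝ) (halg : ∀ e, IsAlgebraic ℚ (q e)) : Good q := by
  by_cases h : ∀ e, 0 < e → q e ≠ 0 → OkE q e
  · exact good_of_ok q h
  · push Not at h
    obtain ⟨e, h1, h2, h3⟩ := h
    exact good_of_bad q halg e h1 h2 h3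

end CurA

open Pool.Agent.FPO.CurA in
theorem curA (R : Bi) (hR : R ≠ 0) :
    ∃ (Γ : Finset ℚ[X]) (C δ : ℝ), 0 < δ ∧ ∀ n : ℕ, 1 ≤ n → ∃ T : Finset ℕ,
      (T.card : ℝ) ≤ C * (n : ℝ) ^ (1 - δ) ∧
      ∀ N : ℕ, N ≤ n → ∀ x : ℤ, bv R (N : ℝ) (x : ℝ) = 0 →
        (∀ γ ∈ Γ, (x : ℝ) ≠ aeval (N : ℝ) γ) → N ∈ T := by
  classical
  obtain ⟨p, x₀, halg, hx₀, hroot⟩ := root_loc R hR 1
  have hgood : ∀ i, Good (rePart (p i)) := fun i => good _ fun e => isAlgebraic_re (halg i e)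
  choose Γ C δ hC hδ h using hgood
  obtain ⟨δ₀, hδ₀, hδ₁, hle⟩ := exists_min Finset.univ δ fun i _ => hδ i
  refine ⟨Finset.univ.biUnion Γ, (∑ i, C i) + ⌈x₀⌉₊, δ₀, hδ₀, fun n hn => ?_⟩
  choose T hT hTm using fun i => h i n hn
  refine ⟨Finset.univ.biUnion T ∪ Finset.range ⌈x₀⌉₊, ?_, fun N hN x hx hγ => ?_⟩
  · have hn1 : (1 : ℝ) ≤ n := by exact_mod_cast hn
    have h1 : (1 : ℝ) ≤ (n : ℝ) ^ (1 - δ₀) := Real.one_le_rpow hn1 (by linarith)
    calc ((Finset.univ.biUnion T ∪ Finset.range ⌈x₀⌉₊).card : ℝ)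
        ≤ (((∑ i, (T i).card) + ⌈x₀⌉₊ : ℕ) : ℝ) := by
          refine Nat.cast_le.2 ((Finset.card_union_le _ _).trans ?_)
          rw [Finset.card_range]
          exact Nat.add_le_add_right Finset.card_biUnion_le _
      _ = (∑ i, ((T i).card : ℝ)) + ⌈x₀⌉₊ := by push_cast; rfl
      _ ≤ (∑ i, C i * (n : ℝ) ^ (1 - δ₀)) + ⌈x₀⌉₊ * (n : ℝ) ^ (1 - δ₀) := by
          refine add_le_add (Finset.sum_le_sum fun i _ => (hT i).trans ?_) ?_
          · refine mul_le_mul_of_nonneg_left ?_ (hC i)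
            refine Real.rpow_le_rpow_of_exponent_le hn1 ?_
            have := hle i (Finset.mem_univ i)
            linarith
          · exact le_mul_of_one_le_right (Nat.cast_nonneg _) h1
      _ = ((∑ i, C i) + ⌈x₀⌉₊) * (n : ℝ) ^ (1 - δ₀) := by
          rw [← Finset.sum_mul]
          ring
  · rw [Finset.mem_union]
    by_cases h1 : N < ⌈x₀⌉₊
    · exact Or.inr (Finset.mem_range.2 h1)
    · push Not at h1
      have h2 : x₀ ≤ N := Nat.ceil_le.1 h1
      have h3 : 1 ≤ N := by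
        have : (1 : ℝ) ≤ N := hx₀.trans h2
        exact_mod_cast this
      obtain ⟨i, hi⟩ := hroot N h2 x hx
      refine Or.inl (Finset.mem_biUnion.2 ⟨i, Finset.mem_univ i, hTm i N h3 hN x ?_ ?_⟩)
      · rw [Nat.cast_one] at hi
        exact hi
      · intro γ hγi
        exact hγ γ (Finset.mem_biUnion.2 ⟨i, Finset.mem_univ i, hγi⟩)

end Pool.Agent.FPO
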