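import Pool.Agent.FPO.Rel
import Pool.Agent.FPO.CurA

/-!
# FPO module CurB: lattice points on a curve (diff 2)

PROOF.  `rel P F (C X)` gives `R₁ ≠ 0` with `P ∣ bv R₁ F (C X)`; so `P(a,b) = 0`, `F(a,b) = N` imply
`R₁(N, a) = 0` (`bv_bv`: `bv (bv R₁ F (C X)) a b = bv R₁ (bv F a b) a`).  Similarly `rel P F X` gives
`R₂` with `R₂(N, b) = 0`.  `curA` gives `Γ₁, Γ₂` and `T₁, T₂`.  Let
`Γ` be the set of pairs `γ ∈ Γ₁ ×ˢ Γ₂` with `bv F γ.1 γ.2 = X` and `bv P γ.1 γ.2 = 0` (in `ℚ[X]`).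
For every other pair `γ` in `Γ₁ ×ˢ Γ₂` one of the polynomials `bv F γ.1 γ.2 - X`,
`bv P γ.1 γ.2` is nonzero and has finitely many roots; let `T₃` be the finite set of all natural
numbers that are such roots.  Now let `N ≤ n`, `P(a,b) = 0`, `F(a,b) = N` and `N ∉ T₁ ∪ T₂ ∪ T₃`.
Then `a = γ₁(N)`, `b = γ₂(N)` for some `γ₁ ∈ Γ₁`, `γ₂ ∈ Γ₂`, so
`(bv F γ₁ γ₂)(N) = F(a,b) = N` (evaluation at `N`: `map_bv` for `aeval (N:ℝ)`) and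
`(bv P γ₁ γ₂)(N) = 0`; as `N ∉ T₃` the pair is in `Γ`.
So `T = T₁ ∪ T₂ ∪ T₃`; `|T₃| ≤ |T₃| n^{1-δ}` if `δ ≤ 1` (take the minimum of the `δ`'s and `1`).
-/

set_option autoImplicit false

open Polynomial

namespace Pool.Agent.FPO

private theorem CurB_fin (q : ℚ[X]) (hq : q ≠ 0) : {N : ℕ | aeval (N : ℝ) q = 0}.Finite := by
  have h1 : (q.rootSet ℝ).Finite := rootSet_finite q ℝ
  have h2 : ((fun N : ℕ => (N : ℝ)) ⁻¹' (q.rootSet ℝ)).Finite :=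
    h1.preimage (fun a _ b _ h => Nat.cast_injective h)
  refine h2.subset ?_
  intro N hN
  rw [Set.mem_preimage, mem_rootSet]
  exact ⟨hq, hN⟩

private theorem CurB_one (P F R Z : Bi) (hd : P ∣ bv R F Z) (a b : ℝ) (N : ℕ)
    (h1 : bv P a b = 0) (h2 : bv F a b = N) : bv R (N : ℝ) (bv Z a b) = 0 := by
  obtain ⟨Q, hQ⟩ := hd
  rw [← h2, ← bv_bv, hQ, bv_mul, h1, zero_mul]

theorem curB (P F : Bi) (hP : P ≠ 0) :
    ∃ (Γ : Finset (ℚ[X] × ℚ[X])) (C δ : ℝ), 0 < δ ∧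
      (∀ γ ∈ Γ, bv F γ.1 γ.2 = (X : ℚ[X]) ∧ bv P γ.1 γ.2 = (0 : ℚ[X])) ∧
      ∀ n : ℕ, 1 ≤ n → ∃ T : Finset ℕ, (T.card : ℝ) ≤ C * (n : ℝ) ^ (1 - δ) ∧
        ∀ N : ℕ, N ≤ n → ∀ a b : ℤ, bv P (a : ℝ) (b : ℝ) = 0 → bv F (a : ℝ) (b : ℝ) = N →
          (∀ γ ∈ Γ, ¬ ((a : ℝ) = aeval (N : ℝ) γ.1 ∧ (b : ℝ) = aeval (N : ℝ) γ.2)) → N ∈ T := by
  classical
  obtain ⟨R₁, hR₁, hd₁⟩ := rel P F (C X) hP
  obtain ⟨R₂, hR₂, hd₂⟩ := rel P F X hP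
  obtain ⟨Γ₁, C₁, δ₁, hδ₁, H₁⟩ := curA R₁ hR₁
  obtain ⟨Γ₂, C₂, δ₂, hδ₂, H₂⟩ := curA R₂ hR₂
  let Γ : Finset (ℚ[X] × ℚ[X]) :=
    (Γ₁ ×ˢ Γ₂).filter (fun γ => bv F γ.1 γ.2 = (X : ℚ[X]) ∧ bv P γ.1 γ.2 = (0 : ℚ[X]))
  have hfin : {N : ℕ | ∃ γ ∈ Γ₁ ×ˢ Γ₂, γ ∉ Γ ∧ aeval (N : ℝ) (bv F γ.1 γ.2 - (X : ℚ[X])) = 0 ∧
      aeval (N : ℝ) (bv P γ.1 γ.2 : ℚ[X]) = 0}.Finite := by
    have : {N : ℕ | ∃ γ ∈ Γ₁ ×ˢ Γ₂, γ ∉ Γ ∧ aeval (N : ℝ) (bv F γ.1 γ.2 - (X : ℚ[X])) = 0 ∧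
        aeval (N : ℝ) (bv P γ.1 γ.2 : ℚ[X]) = 0} ⊆
        ⋃ γ ∈ Γ₁ ×ˢ Γ₂, {N : ℕ | γ ∉ Γ ∧ aeval (N : ℝ) (bv F γ.1 γ.2 - (X : ℚ[X])) = 0 ∧
          aeval (N : ℝ) (bv P γ.1 γ.2 : ℚ[X]) = 0} := by
      rintro N ⟨γ, hγ, h⟩
      exact Set.mem_biUnion hγ h
    refine Set.Finite.subset ?_ this
    refine Set.Finite.biUnion (Finset.finite_toSet _) ?_
    intro γ hγ
    by_cases h1 : γ ∈ Γ
    · refine Set.Finite.subset Set.finite_empty ?_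
      rintro N ⟨h2, -⟩
      exact absurd h1 h2
    · by_cases h2 : bv P γ.1 γ.2 = (0 : ℚ[X])
      · have h3 : bv F γ.1 γ.2 - (X : ℚ[X]) ≠ 0 := by
          intro h4
          apply h1
          exact Finset.mem_filter.2 ⟨Finset.mem_coe.1 hγ, sub_eq_zero.1 h4, h2⟩
        exact (CurB_fin _ h3).subset fun N hN => hN.2.1
      · exact (CurB_fin _ h2).subset fun N hN => hN.2.2
  refine ⟨Γ, |C₁| + |C₂| + hfin.toFinset.card, min (min δ₁ δ₂) 1, by positivity, ?_, ?_⟩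
  · intro γ hγ
    exact (Finset.mem_filter.1 hγ).2
  · intro n hn
    obtain ⟨T₁, hT₁, K₁⟩ := H₁ n hn
    obtain ⟨T₂, hT₂, K₂⟩ := H₂ n hn
    have hn1 : (1 : ℝ) ≤ n := by exact_mod_cast hn
    set δ := min (min δ₁ δ₂) 1 with hδ
    have e1 : (n : ℝ) ^ (1 - δ₁) ≤ (n : ℝ) ^ (1 - δ) := by
      apply Real.rpow_le_rpow_of_exponent_le hn1
      have : δ ≤ δ₁ := (min_le_left _ _).trans (min_le_left _ _)
      linarith
    have e2 : (n : ℝ) ^ (1 - δ₂) ≤ (n : ℝ) ^ (1 - δ) := by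
      apply Real.rpow_le_rpow_of_exponent_le hn1
      have : δ ≤ δ₂ := (min_le_left _ _).trans (min_le_right _ _)
      linarith
    have e3 : 1 ≤ (n : ℝ) ^ (1 - δ) := by
      apply Real.one_le_rpow hn1
      have : δ ≤ 1 := min_le_right _ _
      linarith
    refine ⟨T₁ ∪ T₂ ∪ hfin.toFinset, ?_, ?_⟩
    · have c1 : ((T₁ ∪ T₂ ∪ hfin.toFinset).card : ℝ) ≤ T₁.card + T₂.card + hfin.toFinset.card := by
        have a1 := Finset.card_union_le (T₁ ∪ T₂) hfin.toFinset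
        have a2 := Finset.card_union_le T₁ T₂
        exact_mod_cast (by omega : (T₁ ∪ T₂ ∪ hfin.toFinset).card ≤
          T₁.card + T₂.card + hfin.toFinset.card)
      have c2 : (T₁.card : ℝ) ≤ |C₁| * (n : ℝ) ^ (1 - δ) := by
        refine hT₁.trans ((mul_le_mul_of_nonneg_right (le_abs_self C₁) (by positivity)).trans ?_)
        exact mul_le_mul_of_nonneg_left e1 (abs_nonneg _)
      have c3 : (T₂.card : ℝ) ≤ |C₂| * (n : ℝ) ^ (1 - δ) := by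
        refine hT₂.trans ((mul_le_mul_of_nonneg_right (le_abs_self C₂) (by positivity)).trans ?_)
        exact mul_le_mul_of_nonneg_left e2 (abs_nonneg _)
      have c4 : (hfin.toFinset.card : ℝ) ≤ hfin.toFinset.card * (n : ℝ) ^ (1 - δ) :=
        le_mul_of_one_le_right (by positivity) e3
      nlinarith [c1, c2, c3, c4]
    · intro N hN a b hP0 hF0 hγ
      by_contra hcon
      simp only [Finset.mem_union, not_or] at hcon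
      obtain ⟨⟨n1, n2⟩, n3⟩ := hcon
      have q1 : bv R₁ (N : ℝ) (a : ℝ) = 0 := by
        have := CurB_one P F R₁ (C X) hd₁ a b N hP0 hF0
        rwa [bv_C_X] at this
      have q2 : bv R₂ (N : ℝ) (b : ℝ) = 0 := by
        have := CurB_one P F R₂ X hd₂ a b N hP0 hF0
        rwa [bv_X] at this
      have p1 : ∃ γ ∈ Γ₁, (a : ℝ) = aeval (N : ℝ) γ := by
        by_contra h
        push Not at h
        exact n1 (K₁ N hN a q1 h)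
      have p2 : ∃ γ ∈ Γ₂, (b : ℝ) = aeval (N : ℝ) γ := by
        by_contra h
        push Not at h
        exact n2 (K₂ N hN b q2 h)
      obtain ⟨g1, hg1, ha⟩ := p1
      obtain ⟨g2, hg2, hb⟩ := p2
      have hev : ∀ G : Bi, aeval (N : ℝ) (bv G g1 g2 : ℚ[X]) = bv G (a : ℝ) (b : ℝ) := by
        intro G
        have := map_bv ((aeval (N : ℝ) : ℚ[X] →ₐ[ℚ] ℝ) : ℚ[X] →+* ℝ) G g1 g2
        rw [ha, hb]
        exact this
      by_cases hΓ : (g1, g2) ∈ Γ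
      · exact hγ _ hΓ ⟨ha, hb⟩
      · apply n3
        rw [Set.Finite.mem_toFinset]
        refine ⟨(g1, g2), Finset.mem_product.2 ⟨hg1, hg2⟩, hΓ, ?_, ?_⟩
        · rw [map_sub, hev, hF0, aeval_X, sub_self]
        · rw [hev, hP0]

end Pool.Agent.FPO
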