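import Mathlib

/-!
# FPO: definitions and basic calculus

`Bi` is the ring of rational polynomials in two variables, the OUTER variable is `y`, the inner
one is `x`.  `bv F a b` is the value `F(a,b)` in any `ℚ`-algebra (also used for substitution).
`cf F i j` is the coefficient of `x^i y^j`.
-/

set_option autoImplicit false

open Polynomial

namespace Pool.Agent.FPO

/-- Rational polynomials in two variables `x` (inner) and `y` (outer). -/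
abbrev Bi := ℚ[X][X]

/-- Evaluation homomorphism at `(a, b)`. -/
noncomputable def bvHom {R : Type*} [CommRing R] [Algebra ℚ R] (a b : R) : Bi →+* R :=
  eval₂RingHom ((aeval a : ℚ[X] →ₐ[ℚ] R) : ℚ[X] →+* R) b

/-- The value `F(a, b)`. -/
noncomputable def bv {R : Type*} [CommRing R] [Algebra ℚ R] (F : Bi) (a b : R) : R :=
  bvHom a b F

/-- The coefficient of `x^i y^j`. -/
noncomputable def cf (F : Bi) (i j : ℕ) : ℚ := (F.coeff j).coeff i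

/-- A bound for the degree in `x`. -/
noncomputable def xdeg (F : Bi) : ℕ := F.support.sup fun j => (F.coeff j).natDegree

/-- `w` is the largest value of `i + τ j` over the monomials `x^i y^j` of `F`. -/
def HasWt (τ w : ℚ) (F : Bi) : Prop :=
  (∀ i j : ℕ, cf F i j ≠ 0 → (i : ℚ) + τ * j ≤ w) ∧
    ∃ i j : ℕ, cf F i j ≠ 0 ∧ (i : ℚ) + τ * j = w

/-- The initial polynomial: the sum of `c_{ij} ξ^j` over the monomials with `i + τ j = w`. -/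
noncomputable def ini (τ w : ℚ) (F : Bi) : ℚ[X] :=
  ∑ j ∈ Finset.range (F.natDegree + 1), ∑ i ∈ Finset.range (xdeg F + 1),
    if (i : ℚ) + τ * j = w then C (cf F i j) * X ^ j else 0

/-- A (complex) Puiseux polynomial `∑ c_e x^e` evaluated at `x > 0`. -/
noncomputable def psum (p : ℚ →₀ ℂ) (x : ℝ) : ℂ :=
  p.sum fun e c => c * ((x ^ (e : ℝ) : ℝ) : ℂ)

/-- A real power sum `∑ c_e x^e` evaluated at `x > 0`. -/
noncomputable def rsum (p : ℚ →₀ ℝ) (x : ℝ) : ℝ :=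
  p.sum fun e c => c * x ^ (e : ℝ)

/-- Real part of a Puiseux polynomial. -/
noncomputable def rePart (p : ℚ →₀ ℂ) : ℚ →₀ ℝ := p.mapRange Complex.re Complex.zero_re

/-- Leading exponent, but at least `1`: the largest of `1` and the exponents of `p`. -/
noncomputable def ldw (p : ℚ →₀ ℂ) : ℚ := (insert 1 p.support).max' (Finset.insert_nonempty _ _)

/-- `p i` (`i < deg_y F`) are approximate Puiseux roots of `F` at infinity, with precision `K`. -/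
def Approx (F : Bi) (K : ℕ) (p : Fin F.natDegree → (ℚ →₀ ℂ)) : Prop :=
  ∃ x₀ : ℝ, 1 ≤ x₀ ∧ ∀ x : ℝ, x₀ ≤ x → ∀ y : ℝ, |y| ≤ x ^ K →
    ‖((bv F x y : ℝ) : ℂ) - (((aeval x F.leadingCoeff : ℝ)) : ℂ) *
      ∏ i, ((y : ℂ) - psum (p i) x)‖ ≤ x ^ (-(K : ℝ))

/-- Puiseux data of precision `K`: algebraic coefficients, exponents `< K`, approximation. -/
def PD (F : Bi) (K : ℕ) (p : Fin F.natDegree → (ℚ →₀ ℂ)) : Prop :=
  (∀ i e, IsAlgebraic ℚ (p i e)) ∧ (∀ i e, p i e ≠ 0 → e < (K : ℚ)) ∧ Approx F K p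

/-- A pair `(τ, c)` is irregular if `τ` is not an integer or `c` is irrational. -/
def Irreg (τ : ℚ) (c : ℝ) : Prop := (∀ k : ℤ, τ ≠ k) ∨ Irrational c

/-- The points of the lattice `(1/D) ℤ²` in `R` at which `|F| ≤ n` are, off a curve `G = 0`, at
most `C n^{1-δ}` in number. -/
def Sml (F : Bi) (D : ℕ) (R : Set (ℝ × ℝ)) : Prop :=
  ∃ G : Bi, G ≠ 0 ∧ ∃ C δ : ℝ, 0 < δ ∧ ∀ n : ℕ, 1 ≤ n → ∃ T : Finset (ℤ × ℤ),
    (T.card : ℝ) ≤ C * (n : ℝ) ^ (1 - δ) ∧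
    ∀ a b : ℤ, ((a : ℝ) / D, (b : ℝ) / D) ∈ R → |bv F ((a : ℝ) / D) ((b : ℝ) / D)| ≤ n →
      bv G ((a : ℝ) / D) ((b : ℝ) / D) ≠ 0 → (a, b) ∈ T

/-! ### Laurent version -/

/-- Polynomials in `y` over the Laurent polynomials in `x`. -/
abbrev LA := (LaurentPolynomial ℚ)[X]

/-- The coefficient of `x^i y^j`. -/
noncomputable def lcf (G : LA) (i : ℤ) (j : ℕ) : ℚ := (G.coeff j).coeff i

/-- Evaluation homomorphism at `(x, y)`, `x ≠ 0`. -/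
noncomputable def lvHom (x : ℝˣ) (y : ℝ) : LA →+* ℝ :=
  eval₂RingHom (LaurentPolynomial.eval₂ (algebraMap ℚ ℝ) x) y

/-- The value `G(x, y)` for `x ≠ 0` (and `0` for `x = 0`). -/
noncomputable def lv (G : LA) (x y : ℝ) : ℝ :=
  if hx : x ≠ 0 then lvHom (Units.mk0 x hx) y G else 0

/-- The inclusion of `Bi`. -/
noncomputable def toL : Bi →+* LA := mapRingHom Polynomial.toLaurent

/-- All monomials have weight at most `w`. -/
def LWLe (τ w : ℚ) (G : LA) : Prop := ∀ (i : ℤ) (j : ℕ), lcf G i j ≠ 0 → (i : ℚ) + τ * j ≤ w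

/-- All monomials have weight `w`. -/
def LHom (τ w : ℚ) (G : LA) : Prop := ∀ (i : ℤ) (j : ℕ), lcf G i j ≠ 0 → (i : ℚ) + τ * j = w

/-! ### Enumerations and charts -/

/-- The value of a rational polynomial at a lattice point. -/
noncomputable def evz (P : MvPolynomial (Fin 2) ℚ) (u : ℤ × ℤ) : ℚ :=
  MvPolynomial.eval ![(u.1 : ℚ), (u.2 : ℚ)] P

/-- `F₀` maps the set `S` of lattice points bijectively onto the natural numbers. -/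
structure Enum (S : Set (ℤ × ℤ)) (F₀ : MvPolynomial (Fin 2) ℚ) : Prop where
  nat : ∀ u ∈ S, ∃ n : ℕ, evz F₀ u = n
  inj : ∀ u ∈ S, ∀ v ∈ S, evz F₀ u = evz F₀ v → u = v
  surj : ∀ n : ℕ, ∃ u ∈ S, evz F₀ u = n

/-- The points of `U` at which `F₀ ≤ n` are, off a curve, at most `C n^{1-δ}` in number. -/
def SmlS (F₀ : MvPolynomial (Fin 2) ℚ) (U : Set (ℤ × ℤ)) : Prop :=
  ∃ G : MvPolynomial (Fin 2) ℚ, G ≠ 0 ∧ ∃ C δ : ℝ, 0 < δ ∧ ∀ n : ℕ, 1 ≤ n →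
    ∃ T : Finset (ℤ × ℤ), (T.card : ℝ) ≤ C * (n : ℝ) ^ (1 - δ) ∧
      ∀ u ∈ U, evz F₀ u ≤ n → evz G u ≠ 0 → u ∈ T

/-- The point with chart coordinates `X₀, Y₀`. -/
noncomputable def pt (X₀ Y₀ : MvPolynomial (Fin 2) ℚ) (u : ℤ × ℤ) : ℝ × ℝ :=
  ((evz X₀ u : ℝ), (evz Y₀ u : ℝ))

/-- `(X₀, Y₀)` are polynomial coordinates in which `F₀` becomes `F`. -/
structure Chart (S : Set (ℤ × ℤ)) (F₀ X₀ Y₀ : MvPolynomial (Fin 2) ℚ) (F : Bi) : Prop where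
  eq : bv F X₀ Y₀ = F₀
  inj : ∀ G : Bi, G ≠ 0 → bv G X₀ Y₀ ≠ 0
  den : ∃ D : ℕ, 0 < D ∧ ∀ u ∈ S, ∃ a b : ℤ, (D : ℚ) * evz X₀ u = a ∧ (D : ℚ) * evz Y₀ u = b

/-- All sufficiently divisible lattice points of the region `Γ` come from `S`. -/
def Full (S : Set (ℤ × ℤ)) (X₀ Y₀ : MvPolynomial (Fin 2) ℚ) (Γ : Set (ℝ × ℝ)) : Prop :=
  ∃ D : ℕ, 0 < D ∧ ∀ a b : ℤ, ((D : ℝ) * a, (D : ℝ) * b) ∈ Γ →
    ∃ u ∈ S, evz X₀ u = (D : ℚ) * a ∧ evz Y₀ u = (D : ℚ) * b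

/-- The region `0 < x ≤ ε y`. -/
def Γ₁ (ε : ℝ) : Set (ℝ × ℝ) := {v | 0 < v.1 ∧ v.1 ≤ ε * v.2}

/-- The region `|y| ≤ ε x^k`, `x ≥ x₁`. -/
def Γ₂ (k : ℕ) (ε x₁ : ℝ) : Set (ℝ × ℝ) := {v | x₁ ≤ v.1 ∧ |v.2| ≤ ε * v.1 ^ k}

/-- The top form of `P` is a nonzero multiple of `ℓ ^ totalDegree`. -/
def Lfp (ℓ P : MvPolynomial (Fin 2) ℚ) : Prop :=
  ∃ κ : ℚ, κ ≠ 0 ∧ MvPolynomial.homogeneousComponent P.totalDegree P =
    MvPolynomial.C κ * ℓ ^ P.totalDegree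

/-! ### Auxiliary notions for the modules -/

/-- Iterated differences. -/
def dl : List ℕ → (ℝ → ℝ) → ℝ → ℝ
  | [], g => g
  | h :: t, g => fun x => dl t g (x + h) - dl t g x

open Classical in
/-- The number of integers `a`, `X ≤ a < 2X`, such that `g a` is within `η` of an integer. -/
noncomputable def nc (g : ℝ → ℝ) (X : ℕ) (η : ℝ) : ℕ :=
  ((Finset.Ico X (2 * X)).filter fun a => ∃ z : ℤ, |g a - z| ≤ η).card

/-- The `j`-th derivative of a real power sum. -/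
noncomputable def rder (p : ℚ →₀ ℝ) (j : ℕ) (x : ℝ) : ℝ :=
  p.sum fun e c => c * (∏ i ∈ Finset.range j, ((e : ℝ) - i)) * x ^ ((e : ℝ) - j)

/-- The polynomial `∑ t^{β + E(D-j)} A_j(1/t) ζ^j` attached to `F = ∑ A_j(x) y^j`
(`β` the degree of the leading coefficient, `D` the degree in `y`). -/
noncomputable def atInf {k : Type*} [Field k] (F : k[X][X]) (E : ℕ) : k[X][X] :=
  ∑ j ∈ Finset.range (F.natDegree + 1),
    C (reflect (F.leadingCoeff.natDegree + E * (F.natDegree - j)) (F.coeff j)) * X ^ j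

/-- The homogeneous component of weight `w` of a Laurent polynomial in two variables. -/
noncomputable def lproj (τ w : ℚ) (G : LA) : LA :=
  ∑ j ∈ Finset.range (G.natDegree + 1),
    C (AddMonoidAlgebra.ofCoeff ((G.coeff j).coeff.filter fun i : ℤ => (i : ℚ) + τ * j = w)) * X ^ j

/-- The homogeneous polynomial of weight `w` with initial polynomial `p`:
`∑ p_j x^{w - τ j} y^j`. -/
noncomputable def hmg (τ w : ℚ) (p : ℚ[X]) : LA :=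
  ∑ j ∈ Finset.range (p.natDegree + 1),
    C (LaurentPolynomial.C (p.coeff j) * LaurentPolynomial.T ⌊w - τ * j⌋) * X ^ j

/-- `w - τ j` is an integer for all exponents `j` of `p`. -/
def Okw (τ w : ℚ) (p : ℚ[X]) : Prop := ∀ j, p.coeff j ≠ 0 → ((⌊w - τ * j⌋ : ℤ) : ℚ) = w - τ * j

/-- The initial polynomial of `F` is `b q^s`, and `F` has weight `τ s deg q`; `c` is a simple
root of the monic polynomial `q`. -/
def AltI (τ : ℚ) (c : ℝ) (w : ℚ) (F : Bi) (q : ℚ[X]) (s : ℕ) : Prop :=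
  ∃ b : ℚ, b ≠ 0 ∧ q.Monic ∧ aeval c q = 0 ∧ aeval c (derivative q) ≠ 0 ∧ q.coeff 0 ≠ 0 ∧ 1 ≤ s ∧
    ini τ w F = C b * q ^ s ∧ w = τ * (s * q.natDegree) ∧ (∃ e : ℕ, (e : ℚ) = τ * q.natDegree) ∧
    (τ = 1 → q = minpoly ℚ c)

/-- `m(ξ^v)`, `v` the denominator of `τ`, `m` the minimal polynomial of `c^v`. -/
noncomputable def qf (τ : ℚ) (c : ℝ) : ℚ[X] := expand ℚ τ.den (minpoly ℚ (c ^ τ.den))

/-- The factorization of the initial polynomial at the root `c`. -/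
def FacD (τ w : ℚ) (c : ℝ) (F : Bi) (j₀ s : ℕ) (Φ : ℚ[X]) : Prop :=
  1 ≤ s ∧ IsAlgebraic ℚ (c ^ τ.den) ∧ IsCoprime (minpoly ℚ (c ^ τ.den) ^ s) Φ ∧
    aeval (c ^ τ.den) Φ ≠ 0 ∧
    ini τ w F = X ^ j₀ * expand ℚ τ.den (minpoly ℚ (c ^ τ.den) ^ s * Φ)

/-- The region `x ≥ x₁`, `|y - c x^τ| ≤ ε x^τ`. -/
def Reg (τ : ℚ) (c ε x₁ : ℝ) : Set (ℝ × ℝ) :=
  {v | x₁ ≤ v.1 ∧ |v.2 - c * v.1 ^ (τ : ℝ)| ≤ ε * v.1 ^ (τ : ℝ)}

/-- The substitution `y ↦ y + c x^k`. -/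
noncomputable def shear (F : Bi) (c : ℚ) (k : ℕ) : Bi := bv F (C X : Bi) (X + C (C c * X ^ k))

/-- The polynomial `F(y, s x)`, as a polynomial in the new variables `x, y`. -/
noncomputable def swp (F : Bi) (s : ℚ) : Bi := bv F (X : Bi) (C (C s * X) : Bi)

/-- Top form. -/
noncomputable def hc (P : MvPolynomial (Fin 2) ℚ) : MvPolynomial (Fin 2) ℚ :=
  MvPolynomial.homogeneousComponent P.totalDegree P

/-- The element of `Bi` given by a polynomial in `MvPolynomial (Fin 2) ℚ`. -/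
noncomputable def toBi (P : MvPolynomial (Fin 2) ℚ) : Bi :=
  MvPolynomial.aeval ![(C X : Bi), (X : Bi)] P

/-- The lattice points of the sector. -/
def sec (α : ℝ) : Set (ℤ × ℤ) := {v | 0 ≤ v.1 ∧ 0 ≤ v.2 ∧ (v.2 : ℝ) ≤ α * (v.1 : ℝ)}

/-- The form `∑ p_j x^{e-j} y^j` of degree `e = deg p`. -/
noncomputable def homF (p : ℚ[X]) : MvPolynomial (Fin 2) ℚ :=
  ∑ j ∈ Finset.range (p.natDegree + 1),
    MvPolynomial.C (p.coeff j) * MvPolynomial.X 0 ^ (p.natDegree - j) * MvPolynomial.X 1 ^ j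

/-- Forbidden conclusion for the charts attached to the rational form `ℓ`. -/
def NSq (F₀ ℓ : MvPolynomial (Fin 2) ℚ) : Prop :=
  ¬ (Even F₀.totalDegree ∧ ∃ κ : ℚ, hc F₀ = MvPolynomial.C κ * ℓ ^ F₀.totalDegree)

/-- Claim A(r): the regions `Γ₁` are small in all charts of type 1 and multiplicity `≤ r`. -/
def CA (S : Set (ℤ × ℤ)) (F₀ ℓ : MvPolynomial (Fin 2) ℚ) (r : ℕ) : Prop :=
  ∀ (X₀ Y₀ : MvPolynomial (Fin 2) ℚ) (F : Bi), Chart S F₀ X₀ Y₀ F → Lfp ℓ X₀ →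
    Y₀.totalDegree ≤ X₀.totalDegree → 1 ≤ X₀.totalDegree →
    (∃ ε₀ : ℝ, 0 < ε₀ ∧ Full S X₀ Y₀ (Γ₁ ε₀)) →
    ∀ w : ℕ, 3 ≤ w → HasWt 1 w F → w ≤ (ini 1 w F).natDegree + r →
      ∃ ε : ℝ, 0 < ε ∧ SmlS F₀ {u | u ∈ S ∧ pt X₀ Y₀ u ∈ Γ₁ ε}

/-- Claim B(M): the regions `Γ₂` are small in all charts of type 2 and multiplicity `≤ M`. -/
def CB (S : Set (ℤ × ℤ)) (F₀ ℓ : MvPolynomial (Fin 2) ℚ) (M : ℕ) : Prop :=
  ∀ (k : ℕ), 1 ≤ k → ∀ (X₀ Y₀ : MvPolynomial (Fin 2) ℚ) (F : Bi), Chart S F₀ X₀ Y₀ F →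
    Lfp ℓ Y₀ → 1 ≤ X₀.totalDegree → k * X₀.totalDegree ≤ Y₀.totalDegree →
    (∃ ε₀ x₀ : ℝ, 0 < ε₀ ∧ Full S X₀ Y₀ (Γ₂ k ε₀ x₀)) → 2 ≤ F.natDegree →
    (k = 1 → ∃ w : ℕ, 3 ≤ w ∧ HasWt 1 w F) →
    ∀ w : ℚ, HasWt k w F → (ini k w F).natTrailingDegree ≤ M →
      ∃ ε x₁ : ℝ, 0 < ε ∧ SmlS F₀ {u | u ∈ S ∧ pt X₀ Y₀ u ∈ Γ₂ k ε x₁}

end Pool.Agent.FPO
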