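import Pool.Agent.FPO.Api

/-!
# FPO module EndA: eventual periodicity (diff 2)

PROOF.  First for one pair `γ`.  (1) INTEGRALITY: let `q ≥ 1` be such that `q γ.1`, `q γ.2` have
integral coefficients (`IsLocalization.integerNormalization`, or a product of denominators).  Then
for natural `N`: `γ.i(N + q) - γ.i(N)` is an integer, since `q γ.i =: r` has integral coefficients and
`r(N+q) - r(N)` is divisible by `q` (`Polynomial.sub_dvd_eval_sub`).  So `γ.1(N), γ.2(N)` are both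
integers has period `q`.  (2) SIGNS: for a real polynomial `r` there is `N₀` such that either
`r(N) ≥ 0` for all `N ≥ N₀` or `r(N) < 0` for all `N ≥ N₀` (constant, or tends to `±∞`:
`Polynomial.tendsto_atTop_of_leadingCoeff_nonneg`, `tendsto_atBot_of_leadingCoeff_nonpos`); apply it
to `γ.1`, `γ.2` and `α γ.1 - γ.2` (mapped to `ℝ[X]`).  The condition on `(a, b)` is
`0 ≤ γ.1(N)`, `0 ≤ γ.2(N)`, `0 ≤ α γ.1(N) - γ.2(N)` because `a, b` are determined by `N`.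
For the finite set `Γ` take the product (or lcm) of the periods and the maximum of the thresholds
(induction on the finset: if `E₁` and `E₂` are eventually periodic with `q₁, N₁`, `q₂, N₂` then
`E₁ ∨ E₂` is with `q₁ q₂`, `max N₁ N₂`; note that period `q` implies period `q m`).
-/

set_option autoImplicit false

open Polynomial

namespace Pool.Agent.FPO

namespace EndA

/-- eventual periodicity -/
def EvP (P : ℕ → Prop) : Prop := ∃ q N₀ : ℕ, 0 < q ∧ ∀ N : ℕ, N₀ ≤ N → (P N ↔ P (N + q))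

theorem evP_mul {P : ℕ → Prop} {q N₀ : ℕ} (h : ∀ N : ℕ, N₀ ≤ N → (P N ↔ P (N + q))) (m : ℕ) :
    ∀ N : ℕ, N₀ ≤ N → (P N ↔ P (N + q * m)) := by
  induction m with
  | zero => intro N _; simp
  | succ m ih =>
    intro N hN
    rw [ih N hN, h (N + q * m) (by omega)]
    have : N + q * m + q = N + q * (m + 1) := by ring
    rw [this]

theorem evP_op {P Q R : ℕ → Prop} (op : Prop → Prop → Prop) (hR : ∀ N, R N ↔ op (P N) (Q N))
    (hP : EvP P) (hQ : EvP Q) : EvP R := by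
  obtain ⟨q1, N1, hq1, h1⟩ := hP
  obtain ⟨q2, N2, hq2, h2⟩ := hQ
  refine ⟨q1 * q2, max N1 N2, Nat.mul_pos hq1 hq2, fun N hN => ?_⟩
  have e1 := propext (evP_mul h1 q2 N (le_trans (le_max_left _ _) hN))
  have e2 := propext (evP_mul h2 q1 N (le_trans (le_max_right _ _) hN))
  rw [hR, hR, e1, e2, mul_comm q2 q1]

theorem evP_and {P Q : ℕ → Prop} (hP : EvP P) (hQ : EvP Q) : EvP (fun N => P N ∧ Q N) :=
  evP_op And (fun _ => Iff.rfl) hP hQ

theorem evP_or {P Q : ℕ → Prop} (hP : EvP P) (hQ : EvP Q) : EvP (fun N => P N ∨ Q N) :=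
  evP_op Or (fun _ => Iff.rfl) hP hQ

theorem evP_congr {P Q : ℕ → Prop} (h : ∀ N, P N ↔ Q N) (hP : EvP P) : EvP Q :=
  evP_op (fun a _ => a) (fun N => (h N).symm) hP hP

theorem evP_const {P : ℕ → Prop} {N₀ : ℕ} (h : (∀ N, N₀ ≤ N → P N) ∨ (∀ N, N₀ ≤ N → ¬ P N)) :
    EvP P := by
  refine ⟨1, N₀, one_pos, fun N hN => ?_⟩
  rcases h with h | h
  · exact ⟨fun _ => h _ (by omega), fun _ => h _ hN⟩
  · exact ⟨fun h1 => absurd h1 (h _ hN), fun h1 => absurd h1 (h _ (by omega))⟩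

theorem evP_nonneg (r : ℝ[X]) : EvP (fun N => 0 ≤ r.eval (N : ℝ)) := by
  by_cases h0 : r.degree ≤ 0
  · rw [eq_C_of_degree_le_zero h0]
    by_cases h1 : 0 ≤ r.coeff 0
    · exact evP_const (N₀ := 0) (Or.inl fun N _ => by simpa using h1)
    · exact evP_const (N₀ := 0) (Or.inr fun N _ => by simpa using h1)
  · push Not at h0
    rcases le_total 0 r.leadingCoeff with h1 | h1
    · have h2 := (r.tendsto_atTop_of_leadingCoeff_nonneg h0 h1).comp tendsto_natCast_atTop_atTop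
      obtain ⟨N₀, hN⟩ := Filter.eventually_atTop.1 (h2.eventually_ge_atTop 0)
      exact evP_const (N₀ := N₀) (Or.inl fun N h => hN N h)
    · have h2 := (r.tendsto_atBot_of_leadingCoeff_nonpos h0 h1).comp tendsto_natCast_atTop_atTop
      obtain ⟨N₀, hN⟩ := Filter.eventually_atTop.1 (h2.eventually_lt_atBot 0)
      exact evP_const (N₀ := N₀) (Or.inr fun N h => not_le.2 (hN N h))

theorem evP_int (r : ℚ[X]) : EvP (fun N => ∃ a : ℤ, (a : ℚ) = r.eval (N : ℚ)) := by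
  obtain ⟨b, hb0, hb⟩ := IsLocalization.integerNormalization_spec (nonZeroDivisors ℤ) (S := ℚ) r
  have hbne : b ≠ 0 := nonZeroDivisors.ne_zero hb0
  set R : ℤ[X] := IsLocalization.integerNormalization (nonZeroDivisors ℤ) r with hR
  have he : ∀ z : ℤ, ((R.eval z : ℤ) : ℚ) = (b : ℚ) * r.eval (z : ℚ) := by
    intro z
    have h1 := congrArg (fun p : ℚ[X] => p.eval (z : ℚ)) hb
    simp only [zsmul_eq_mul, eval_mul] at h1
    rw [show (algebraMap ℤ ℚ) = Int.castRingHom ℚ from rfl] at h1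
    rw [show ((z : ℤ) : ℚ) = (Int.castRingHom ℚ) z from rfl, eval_map, eval₂_hom] at h1
    simpa using h1
  have hdiff : ∀ N : ℕ, ∃ k : ℤ, r.eval ((N + b.natAbs : ℕ) : ℚ) - r.eval (N : ℚ) = (k : ℚ) := by
    intro N
    have h1 : ((N + b.natAbs : ℕ) : ℤ) - (N : ℤ) ∣ R.eval ((N + b.natAbs : ℕ) : ℤ) - R.eval (N : ℤ) :=
      Polynomial.sub_dvd_eval_sub _ _ R
    have h2 : b ∣ R.eval ((N + b.natAbs : ℕ) : ℤ) - R.eval (N : ℤ) := by
      refine dvd_trans ?_ h1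
      have : ((N + b.natAbs : ℕ) : ℤ) - (N : ℤ) = (b.natAbs : ℤ) := by push_cast; ring
      rw [this]
      exact Int.dvd_natAbs.2 dvd_rfl
    obtain ⟨k, hk⟩ := h2
    refine ⟨k, ?_⟩
    have h3 := congrArg (fun z : ℤ => (z : ℚ)) hk
    simp only [Int.cast_sub, Int.cast_mul, he] at h3
    have hb' : (b : ℚ) ≠ 0 := by exact_mod_cast hbne
    have h4 : (b : ℚ) * (r.eval ((N + b.natAbs : ℕ) : ℚ) - r.eval (N : ℚ)) = (b : ℚ) * k := by
      rw [← h3, mul_sub, Int.cast_natCast, Int.cast_natCast]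
    exact mul_left_cancel₀ hb' h4
  refine ⟨b.natAbs, 0, Int.natAbs_pos.2 hbne, fun N _ => ?_⟩
  obtain ⟨k, hk⟩ := hdiff N
  constructor
  · rintro ⟨a, ha⟩
    exact ⟨a + k, by push_cast at hk ⊢; rw [ha]; linarith⟩
  · rintro ⟨a, ha⟩
    exact ⟨a - k, by push_cast at hk ha ⊢; rw [ha]; linarith⟩

end EndA

theorem endA (α : ℝ) (Γ : Finset (ℚ[X] × ℚ[X])) :
    ∃ q N₀ : ℕ, 0 < q ∧ ∀ N : ℕ, N₀ ≤ N →
      ((∃ γ ∈ Γ, ∃ a b : ℤ, (a : ℚ) = γ.1.eval (N : ℚ) ∧ (b : ℚ) = γ.2.eval (N : ℚ) ∧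
          (a, b) ∈ sec α) ↔
        ∃ γ ∈ Γ, ∃ a b : ℤ, (a : ℚ) = γ.1.eval ((N + q : ℕ) : ℚ) ∧
          (b : ℚ) = γ.2.eval ((N + q : ℕ) : ℚ) ∧ (a, b) ∈ sec α) := by
  classical
  change EndA.EvP (fun N => ∃ γ ∈ Γ, ∃ a b : ℤ, (a : ℚ) = γ.1.eval (N : ℚ) ∧
    (b : ℚ) = γ.2.eval (N : ℚ) ∧ (a, b) ∈ sec α)
  induction Γ using Finset.induction_on with
  | empty => exact EndA.evP_const (N₀ := 0) (Or.inr fun N _ => by simp)
  | insert γ Γ _ ih =>
    refine EndA.evP_congr (P := fun N => (∃ a b : ℤ, (a : ℚ) = γ.1.eval (N : ℚ) ∧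
      (b : ℚ) = γ.2.eval (N : ℚ) ∧ (a, b) ∈ sec α) ∨ (∃ γ ∈ Γ, ∃ a b : ℤ, (a : ℚ) = γ.1.eval (N : ℚ) ∧
      (b : ℚ) = γ.2.eval (N : ℚ) ∧ (a, b) ∈ sec α)) (fun N => by simp) (EndA.evP_or ?_ ih)
    refine EndA.evP_congr (P := fun N => ((∃ a : ℤ, (a : ℚ) = γ.1.eval (N : ℚ)) ∧
      (∃ b : ℤ, (b : ℚ) = γ.2.eval (N : ℚ))) ∧
      ((0 ≤ (γ.1.map (algebraMap ℚ ℝ)).eval (N : ℝ) ∧ 0 ≤ (γ.2.map (algebraMap ℚ ℝ)).eval (N : ℝ)) ∧
        0 ≤ (C α * γ.1.map (algebraMap ℚ ℝ) - γ.2.map (algebraMap ℚ ℝ)).eval (N : ℝ))) ?_ ?_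
    · intro N
      have e : ∀ r : ℚ[X], (r.map (algebraMap ℚ ℝ)).eval (N : ℝ) = ((r.eval (N : ℚ) : ℚ) : ℝ) := by
        intro r
        rw [eval_map, ← Polynomial.aeval_def]
        have := Polynomial.aeval_algebraMap_apply ℝ (N : ℚ) r
        simpa using this
      simp only [eval_sub, eval_mul, eval_C, e]
      constructor
      · rintro ⟨⟨⟨a, ha⟩, b, hb⟩, ⟨h1, h2⟩, h3⟩
        refine ⟨a, b, ha, hb, ?_⟩
        rw [← ha, ← hb] at *
        simp only [sec, Set.mem_ofPred_eq]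
        refine ⟨by exact_mod_cast h1, by exact_mod_cast h2, ?_⟩
        have h3' := h3
        push_cast at h3'
        linarith
      · rintro ⟨a, b, ha, hb, h⟩
        simp only [sec, Set.mem_ofPred_eq] at h
        refine ⟨⟨⟨a, ha⟩, b, hb⟩, ?_⟩
        rw [← ha, ← hb]
        push_cast
        refine ⟨⟨by exact_mod_cast h.1, by exact_mod_cast h.2.1⟩, by linarith [h.2.2]⟩
    · exact EndA.evP_and (EndA.evP_and (EndA.evP_int _) (EndA.evP_int _))
        (EndA.evP_and (EndA.evP_and (EndA.evP_nonneg _) (EndA.evP_nonneg _)) (EndA.evP_nonneg _))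

end Pool.Agent.FPO
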