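import Pool.Agent.FPO.Api

/-!
# FPO module EndB: a sparse eventually periodic set is finite (diff 1)

PROOF.  Suppose not: then some `M ≥ N₀` has `¬ E M`; by periodicity `¬ E (M + q j)` for all `j`
(induction on `j`).  For `J ≥ 1` put `n = M + q J` (`≥ 1`); the `T` for this `n` contains the
`J + 1` distinct numbers `M + q j`, `j ≤ J`, so `J + 1 ≤ C (M + q J)^{1-δ}`.  For `J ≥ M`,
`M + qJ ≤ (q+1) J`; dividing by `J`: `1 ≤ C (q+1)^{1-δ} J^{-δ}` (if `1 - δ ≥ 0`; if `δ > 1`
replace `δ` by `1`, `n^{1-δ} ≤ n^{0}`) which is false for `J` large (`rpow` tends to `0`).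
(WLOG `C ≥ 0`.)
-/

set_option autoImplicit false

open Polynomial

namespace Pool.Agent.FPO

theorem endB (E : ℕ → Prop) (q N₀ : ℕ) (hq : 0 < q) (hper : ∀ N, N₀ ≤ N → (E N ↔ E (N + q)))
    (C δ : ℝ) (hδ : 0 < δ)
    (hT : ∀ n : ℕ, 1 ≤ n → ∃ T : Finset ℕ, (T.card : ℝ) ≤ C * (n : ℝ) ^ (1 - δ) ∧
      ∀ N : ℕ, N ≤ n → ¬ E N → N ∈ T) :
    ∀ N, N₀ ≤ N → E N := by
  intro M hM
  by_contra hE
  have hj : ∀ j : ℕ, ¬ E (M + q * j) := by
    intro j
    induction j with
    | zero => simpa using hE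
    | succ j ih =>
      intro h
      apply ih
      refine (hper (M + q * j) (by omega)).2 ?_
      have : M + q * j + q = M + q * (j + 1) := by ring
      rw [this]; exact h
  -- the counting inequality
  have hcount : ∀ J : ℕ, 1 ≤ J → ((J : ℝ) + 1) ≤ C * ((M + q * J : ℕ) : ℝ) ^ (1 - δ) := by
    intro J hJ
    have hn : 1 ≤ M + q * J := by
      have : 1 ≤ q * J := Nat.mul_pos hq hJ
      omega
    obtain ⟨T, hTc, hTm⟩ := hT (M + q * J) hn
    have hsub : (Finset.range (J + 1)).image (fun j => M + q * j) ⊆ T := by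
      intro n hnm
      rw [Finset.mem_image] at hnm
      obtain ⟨j, hjr, rfl⟩ := hnm
      rw [Finset.mem_range] at hjr
      refine hTm _ ?_ (hj j)
      have : q * j ≤ q * J := Nat.mul_le_mul_left q (by omega)
      omega
    have hcard : ((Finset.range (J + 1)).image (fun j => M + q * j)).card = J + 1 := by
      rw [Finset.card_image_of_injective, Finset.card_range]
      intro a b hab
      have : q * a = q * b := by simpa using hab
      exact Nat.eq_of_mul_eq_mul_left hq this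
    have h1 : J + 1 ≤ T.card := by
      rw [← hcard]
      exact Finset.card_le_card hsub
    calc ((J : ℝ) + 1) = ((J + 1 : ℕ) : ℝ) := by push_cast; ring
      _ ≤ (T.card : ℝ) := by exact_mod_cast h1
      _ ≤ _ := hTc
  -- compare with the power
  set δ' : ℝ := min δ 1 with hδ'
  have hδ'0 : 0 < δ' := lt_min hδ one_pos
  have hδ'1 : δ' ≤ 1 := min_le_right _ _
  set D : ℝ := |C| * ((q : ℝ) + 1) ^ (1 - δ') with hD
  have hkey : ∀ J : ℕ, 1 ≤ J → M ≤ J → (J : ℝ) ^ δ' ≤ D := by
    intro J hJ hMJ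
    have hJ0 : (0 : ℝ) < J := by exact_mod_cast hJ
    have h1 := hcount J hJ
    have hn1 : (1 : ℝ) ≤ ((M + q * J : ℕ) : ℝ) := by
      have : 1 ≤ M + q * J := by
        have : 1 ≤ q * J := Nat.mul_pos hq hJ
        omega
      exact_mod_cast this
    have h2 : ((M + q * J : ℕ) : ℝ) ^ (1 - δ) ≤ (((q : ℝ) + 1) * J) ^ (1 - δ') := by
      calc ((M + q * J : ℕ) : ℝ) ^ (1 - δ) ≤ ((M + q * J : ℕ) : ℝ) ^ (1 - δ') := by
            apply Real.rpow_le_rpow_of_exponent_le hn1
            have : δ' ≤ δ := min_le_left _ _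
            linarith
        _ ≤ _ := by
            apply Real.rpow_le_rpow (by linarith) _ (by linarith)
            push_cast
            have : (M : ℝ) ≤ J := by exact_mod_cast hMJ
            nlinarith
    have h3 : (J : ℝ) ≤ |C| * (((q : ℝ) + 1) * J) ^ (1 - δ') := by
      calc (J : ℝ) ≤ J + 1 := by linarith
        _ ≤ C * ((M + q * J : ℕ) : ℝ) ^ (1 - δ) := h1
        _ ≤ |C| * ((M + q * J : ℕ) : ℝ) ^ (1 - δ) := by
            apply mul_le_mul_of_nonneg_right (le_abs_self C)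
            apply Real.rpow_nonneg
            linarith
        _ ≤ _ := mul_le_mul_of_nonneg_left h2 (abs_nonneg C)
    rw [Real.mul_rpow (by positivity) hJ0.le, ← mul_assoc, ← hD] at h3
    have h4 : (J : ℝ) = (J : ℝ) ^ δ' * (J : ℝ) ^ (1 - δ') := by
      rw [← Real.rpow_add hJ0]
      simp
    have h5 : (0 : ℝ) < (J : ℝ) ^ (1 - δ') := Real.rpow_pos_of_pos hJ0 _
    have h6 : (J : ℝ) ^ δ' * (J : ℝ) ^ (1 - δ') ≤ D * (J : ℝ) ^ (1 - δ') := by
      rw [← h4]; exact h3
    exact le_of_mul_le_mul_right h6 h5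
  -- contradiction
  have htend : Filter.Tendsto (fun J : ℕ => (J : ℝ) ^ δ') Filter.atTop Filter.atTop :=
    (tendsto_rpow_atTop hδ'0).comp tendsto_natCast_atTop_atTop
  have hev := (htend.eventually_gt_atTop D).and
    ((Filter.eventually_ge_atTop 1).and (Filter.eventually_ge_atTop M))
  obtain ⟨J, hJD, hJ1, hJM⟩ := hev.exists
  exact absurd (hkey J hJ1 hJM) (not_le.2 hJD)

end Pool.Agent.FPO
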