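import Pool.Agent.FPO.Api

/-!
# FPO module ToBi: the passage between `MvPolynomial (Fin 2) ℚ` and `Bi` (diff 1)

`toBi P = MvPolynomial.aeval ![C X, X] P`.
-/

set_option autoImplicit false

open Polynomial

namespace Pool.Agent.FPO

theorem bv_toBi {R : Type*} [CommRing R] [Algebra ℚ R] (P : MvPolynomial (Fin 2) ℚ) (a b : R) :
    bv (toBi P) a b = MvPolynomial.aeval ![a, b] P := by
  have h : (bvHom a b).comp (MvPolynomial.aeval ![(C X : Bi), (X : Bi)]).toRingHom =
      (MvPolynomial.aeval ![a, b] : MvPolynomial (Fin 2) ℚ →ₐ[ℚ] R).toRingHom := by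
    apply MvPolynomial.ringHom_ext
    · intro q
      change bv (MvPolynomial.aeval ![(C X : Bi), (X : Bi)] (MvPolynomial.C q)) a b =
        MvPolynomial.aeval ![a, b] (MvPolynomial.C q)
      rw [MvPolynomial.aeval_C, MvPolynomial.aeval_C]
      exact bv_C_C q a b
    · intro i
      change bv (MvPolynomial.aeval ![(C X : Bi), (X : Bi)] (MvPolynomial.X i)) a b =
        MvPolynomial.aeval ![a, b] (MvPolynomial.X i)
      rw [MvPolynomial.aeval_X, MvPolynomial.aeval_X]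
      fin_cases i
      · exact bv_C_X a b
      · exact bv_X a b
  exact congrArg (fun ψ : MvPolynomial (Fin 2) ℚ →+* R => ψ P) h

theorem evz_toBi (P : MvPolynomial (Fin 2) ℚ) (u : ℤ × ℤ) :
    evz P u = bv (toBi P) (u.1 : ℚ) (u.2 : ℚ) := by
  rw [bv_toBi, evz]
  rfl

theorem evz_toBi_real (P : MvPolynomial (Fin 2) ℚ) (u : ℤ × ℤ) :
    ((evz P u : ℚ) : ℝ) = bv (toBi P) (u.1 : ℝ) (u.2 : ℝ) := by
  rw [evz_toBi]
  have h := map_bv (algebraMap ℚ ℝ) (toBi P) (u.1 : ℚ) (u.2 : ℚ)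
  simp only [eq_ratCast, Rat.cast_intCast] at h
  exact h

theorem evz_bv (G : Bi) (X₀ Y₀ : MvPolynomial (Fin 2) ℚ) (u : ℤ × ℤ) :
    evz (bv G X₀ Y₀) u = bv G (evz X₀ u) (evz Y₀ u) :=
  map_bv (MvPolynomial.eval ![(u.1 : ℚ), (u.2 : ℚ)]) G X₀ Y₀

theorem evz_bv_real (G : Bi) (X₀ Y₀ : MvPolynomial (Fin 2) ℚ) (u : ℤ × ℤ) :
    ((evz (bv G X₀ Y₀) u : ℚ) : ℝ) = bv G ((evz X₀ u : ℚ) : ℝ) ((evz Y₀ u : ℚ) : ℝ) := by
  rw [evz_bv]
  have h := map_bv (algebraMap ℚ ℝ) G (evz X₀ u) (evz Y₀ u)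
  simp only [eq_ratCast] at h
  exact h

theorem bv_toBi_X (P : MvPolynomial (Fin 2) ℚ) :
    bv (toBi P) (MvPolynomial.X 0 : MvPolynomial (Fin 2) ℚ) (MvPolynomial.X 1) = P := by
  rw [bv_toBi]
  have h : (![MvPolynomial.X 0, MvPolynomial.X 1] : Fin 2 → MvPolynomial (Fin 2) ℚ) =
      MvPolynomial.X := by
    funext i
    fin_cases i <;> rfl
  rw [h]
  exact MvPolynomial.aeval_X_left_apply P

theorem toBi_ne_zero {P : MvPolynomial (Fin 2) ℚ} (h : P ≠ 0) : toBi P ≠ 0 := by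
  intro h0
  refine h ?_
  rw [← bv_toBi_X P, h0, bv_zero]

theorem toBi.toBi_add (P Q : MvPolynomial (Fin 2) ℚ) : toBi (P + Q) = toBi P + toBi Q := by
  simp [toBi]

theorem toBi.toBi_monomial (m : Fin 2 →₀ ℕ) (q : ℚ) :
    toBi (MvPolynomial.monomial m q) = C (C q * X ^ m 0) * X ^ m 1 := by
  rw [toBi, MvPolynomial.aeval_monomial]
  rw [Finsupp.prod_fintype _ _ (fun i => pow_zero _)]
  rw [Fin.prod_univ_two]
  simp only [Matrix.cons_val_zero, Matrix.cons_val_one]
  change C (C q) * (C X ^ m 0 * X ^ m 1) = _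
  rw [map_mul, map_pow]
  ring

theorem cf_toBi (P : MvPolynomial (Fin 2) ℚ) (i j : ℕ) :
    cf (toBi P) i j = P.coeff (Finsupp.single 0 i + Finsupp.single 1 j) := by
  induction P using MvPolynomial.induction_on' with
  | monomial m q =>
    rw [toBi.toBi_monomial, cf, coeff_C_mul, coeff_X_pow, MvPolynomial.coeff_monomial]
    have hiff : m = Finsupp.single 0 i + Finsupp.single 1 j ↔ m 0 = i ∧ m 1 = j := by
      constructor
      · rintro rfl
        simp
      · rintro ⟨h0, h1⟩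
        ext a
        fin_cases a
        · simpa using h0
        · simpa using h1
    by_cases h1 : j = m 1
    · rw [if_pos h1, mul_one, coeff_C_mul, coeff_X_pow]
      by_cases h0 : i = m 0
      · rw [if_pos h0, mul_one, if_pos (hiff.2 ⟨h0.symm, h1.symm⟩)]
      · rw [if_neg h0, mul_zero, if_neg]
        intro h
        exact h0 (hiff.1 h).1.symm
    · rw [if_neg h1, mul_zero, coeff_zero, if_neg]
      intro h
      exact h1 (hiff.1 h).2.symm
  | add P Q hP hQ =>
    rw [toBi.toBi_add, cf_add, MvPolynomial.coeff_add, hP, hQ]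

theorem hasWt_toBi {P : MvPolynomial (Fin 2) ℚ} (h : P ≠ 0) :
    HasWt 1 (P.totalDegree : ℚ) (toBi P) := by
  have hsum : ∀ i j : ℕ, ((Finsupp.single 0 i + Finsupp.single 1 j : Fin 2 →₀ ℕ).sum
      fun _ e => e) = i + j := by
    intro i j
    rw [Finsupp.sum_fintype _ _ (fun _ => rfl), Fin.sum_univ_two]
    simp
  refine ⟨fun i j hij => ?_, ?_⟩
  · rw [cf_toBi] at hij
    have h1 := MvPolynomial.le_totalDegree (MvPolynomial.mem_support_iff.2 hij)
    rw [hsum] at h1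
    rw [one_mul]
    exact_mod_cast h1
  · have hne : P.support.Nonempty := MvPolynomial.support_nonempty.2 h
    obtain ⟨m, hm, hmax⟩ := Finset.exists_mem_eq_sup P.support hne
      (fun m : Fin 2 →₀ ℕ => m.sum fun _ e => e)
    have hm' : m = Finsupp.single 0 (m 0) + Finsupp.single 1 (m 1) := by
      ext a
      fin_cases a <;> simp
    refine ⟨m 0, m 1, ?_, ?_⟩
    · rw [cf_toBi, ← hm']
      exact MvPolynomial.mem_support_iff.1 hm
    · have h2 : P.totalDegree = m 0 + m 1 := by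
        rw [MvPolynomial.totalDegree, hmax]
        rw [Finsupp.sum_fintype _ _ (fun _ => rfl), Fin.sum_univ_two]
      rw [one_mul, h2]
      push_cast
      ring

end Pool.Agent.FPO
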