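import Pool.Agent.FPO.Api

/-!
# FPO module Zar: the sector is Zariski dense (diff 1)

PROOF.  Let `P = toBi G : Bi` (see Defs: `toBi G = aeval ![C X, X] G`).  `evz G (a,b) = bv P a b`
(`map_bv`-style: both sides are the evaluation homomorphism; prove
`bv (toBi G) a b = MvPolynomial.aeval ![a, b] G` by `MvPolynomial.induction_on` or by composing
algebra homomorphisms, `MvPolynomial.algHom_ext`), and `P ≠ 0` because `toBi` is injective
(e.g. `MvPolynomial.funext`: if `toBi G = 0` then all values of `G` on `ℚ²` vanish, so `G = 0`).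
Let `d = P.natDegree`, and choose an integer `y₀`-range: for `x` an integer with `α x ≥ y₀ + d`,
where `y₀ ≥ 0`, the points `(x, y₀), …, (x, y₀ + d)` are in the sector.  Choose `x` larger than all
first coordinates of `T`, and such that the leading coefficient `P.leadingCoeff` does not vanish at
`x` (finitely many roots) and `α x ≥ d`.  Then `y ↦ P(x, y)` is a nonzero polynomial of degree `d`
and has at most `d` roots, so one of the `d + 1` values `y = 0, …, d` has `P(x,y) ≠ 0`; `(x, y)` is in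
the sector and not in `T`.
-/

set_option autoImplicit false

open Polynomial

namespace Pool.Agent.FPO

namespace Zar

theorem bv_toBi {R : Type*} [CommRing R] [Algebra ℚ R] (P : MvPolynomial (Fin 2) ℚ) (a b : R) :
    bv (toBi P) a b = MvPolynomial.aeval ![a, b] P := by
  have key : (bvHom a b).comp (MvPolynomial.aeval ![(C X : Bi), (X : Bi)] :
      MvPolynomial (Fin 2) ℚ →ₐ[ℚ] Bi).toRingHom =
      (MvPolynomial.aeval ![a, b] : MvPolynomial (Fin 2) ℚ →ₐ[ℚ] R).toRingHom := by
    apply MvPolynomial.ringHom_ext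
    · intro r
      exact congrArg (fun ψ : ℚ →+* R => ψ r) (Subsingleton.elim
        (((bvHom a b).comp (MvPolynomial.aeval ![(C X : Bi), (X : Bi)] :
          MvPolynomial (Fin 2) ℚ →ₐ[ℚ] Bi).toRingHom).comp MvPolynomial.C)
        ((MvPolynomial.aeval ![a, b] : MvPolynomial (Fin 2) ℚ →ₐ[ℚ] R).toRingHom.comp
          MvPolynomial.C))
    · intro i
      fin_cases i
      · change bv (MvPolynomial.aeval ![(C X : Bi), (X : Bi)] (MvPolynomial.X 0)) a b =
          MvPolynomial.aeval ![a, b] (MvPolynomial.X 0)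
        rw [MvPolynomial.aeval_X, MvPolynomial.aeval_X]
        exact bv_C_X a b
      · change bv (MvPolynomial.aeval ![(C X : Bi), (X : Bi)] (MvPolynomial.X 1)) a b =
          MvPolynomial.aeval ![a, b] (MvPolynomial.X 1)
        rw [MvPolynomial.aeval_X, MvPolynomial.aeval_X]
        exact bv_X a b
  exact congrArg (fun ψ : MvPolynomial (Fin 2) ℚ →+* R => ψ P) key

theorem ne_zero {P : MvPolynomial (Fin 2) ℚ} (h : P ≠ 0) : toBi P ≠ 0 := by
  intro h0
  apply h
  have h1 := bv_toBi P (MvPolynomial.X 0 : MvPolynomial (Fin 2) ℚ) (MvPolynomial.X 1)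
  rw [h0, bv_zero] at h1
  have h2 : (![MvPolynomial.X 0, MvPolynomial.X 1] : Fin 2 → MvPolynomial (Fin 2) ℚ) =
      MvPolynomial.X := by
    funext i
    fin_cases i <;> rfl
  rw [h2, MvPolynomial.aeval_X_left_apply] at h1
  exact h1.symm

end Zar

theorem zar (α : ℝ) (hα : 0 < α) (G : MvPolynomial (Fin 2) ℚ) (hG : G ≠ 0)
    (T : Finset (ℤ × ℤ)) : ∃ u ∈ sec α, u ∉ T ∧ evz G u ≠ 0 := by
  classical
  set P : Bi := toBi G with hP
  have hP0 : P ≠ 0 := Zar.ne_zero hG
  have hval : ∀ a b : ℤ, evz G (a, b) = bv P (a : ℚ) (b : ℚ) := by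
    intro a b
    rw [hP, Zar.bv_toBi]
    rfl
  have hL0 : P.leadingCoeff ≠ 0 := leadingCoeff_ne_zero.2 hP0
  obtain ⟨N, hN⟩ := exists_nat_ge ((P.natDegree : ℝ) / α)
  set M : ℕ := N + T.sup (fun u => u.1.toNat) + 1 with hM
  obtain ⟨x, hx, hLx⟩ : ∃ x : ℕ, M ≤ x ∧ P.leadingCoeff.eval (x : ℚ) ≠ 0 := by
    by_contra hcon
    push Not at hcon
    apply hL0
    apply eq_zero_of_infinite_isRoot
    refine Set.Infinite.mono ?_ ((Set.Ici_infinite M).image
      (Nat.cast_injective (R := ℚ)).injOn)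
    rintro _ ⟨x, hx, rfl⟩
    exact hcon x hx
  set Q : ℚ[X] := P.map ((aeval (x : ℚ) : ℚ[X] →ₐ[ℚ] ℚ) : ℚ[X] →+* ℚ) with hQ
  have hQv : ∀ y : ℚ, bv P (x : ℚ) y = Q.eval y := by
    intro y
    rw [bv_def, hQ, eval₂_eq_eval_map]
  have hQ0 : Q ≠ 0 := by
    intro h
    have h1 := congrArg (fun q => q.coeff P.natDegree) h
    simp only [hQ, coeff_map, coeff_zero] at h1
    apply hLx
    rw [← coe_aeval_eq_eval]
    exact h1
  have hQd : Q.natDegree ≤ P.natDegree := natDegree_map_le
  obtain ⟨y, hy, hyQ⟩ : ∃ y : ℕ, y ≤ P.natDegree ∧ Q.eval (y : ℚ) ≠ 0 := by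
    by_contra hcon
    push Not at hcon
    apply hQ0
    refine eq_zero_of_natDegree_lt_card_of_eval_eq_zero' Q
      ((Finset.range (P.natDegree + 1)).image (fun n : ℕ => (n : ℚ))) ?_ ?_
    · intro i hi
      rw [Finset.mem_image] at hi
      obtain ⟨n, hn, rfl⟩ := hi
      rw [Finset.mem_range] at hn
      exact hcon n (by omega)
    · rw [Finset.card_image_of_injective _ Nat.cast_injective, Finset.card_range]
      omega
  refine ⟨((x : ℤ), (y : ℤ)), ?_, ?_, ?_⟩
  · refine ⟨Int.natCast_nonneg _, Int.natCast_nonneg _, ?_⟩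
    have h1 : (y : ℝ) ≤ P.natDegree := by exact_mod_cast hy
    have h2 : (N : ℝ) ≤ x := by
      have : N ≤ x := by omega
      exact_mod_cast this
    have h3 : (P.natDegree : ℝ) / α ≤ x := hN.trans h2
    rw [div_le_iff₀ hα] at h3
    push_cast
    linarith
  · intro hmem
    have h1 := Finset.le_sup (f := fun u : ℤ × ℤ => u.1.toNat) hmem
    simp only [Int.toNat_natCast] at h1
    omega
  · rw [hval, Int.cast_natCast, Int.cast_natCast, hQv]
    exact hyQ

end Pool.Agent.FPO
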