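import Pool.Agent.FPO.CurB
import Pool.Agent.FPO.EndA
import Pool.Agent.FPO.EndB
import Pool.Agent.FPO.Zar
import Pool.Agent.FPO.ToBi

/-!
# FPO module EndC: the sector cannot be small (diff 2)

PROOF.  Let `G ≠ 0`, `C, δ` be as in `h`.  Let `P = toBi G ≠ 0`, `F = toBi F₀`; apply `curB P F`:
`Γ, C', δ'`.  Let `E N := ∃ γ ∈ Γ, ∃ a b : ℤ, a = γ.1(N) ∧ b = γ.2(N) ∧ (a,b) ∈ sec α` (as in `endA`).
For `N` let `u_N ∈ sec α` be the point with `evz F₀ u_N = N` (`hE.surj`).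
CLAIM: for `n ≥ 1` there is `T` as in `endB` (constants `max C 0 + max C' 0`, `min δ δ'`):
let `T₁` be the finset of lattice points for `n` from `h` and `T₂` the finset from `curB`.
`T := (T₁.image fun u => (evz F₀ u).num.toNat) ∪ T₂`.  Let `N ≤ n`, `¬ E N`, `u = u_N`.  If
`evz G u ≠ 0` then `u ∈ T₁` and `N` is in the image.  If `evz G u = 0`, then `bv P u.1 u.2 = 0` and
`bv F u.1 u.2 = N` (`evz_toBi_real`); if `N ∉ T₂`, then some `γ ∈ Γ` has `u = γ(N)` (real equality;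
`aeval (N:ℝ) γ.1 = ((γ.1.eval (N:ℚ) : ℚ) : ℝ)`), hence `E N`, a contradiction.
By `endA`, `endB`: `E N` for all `N ≥ N₀`.  Then for `N ≥ N₀`: there are `γ ∈ Γ`,
`v = (a, b) ∈ sec α`, `v = γ(N)`; `bv F γ.1 γ.2 = X` evaluated at `N` gives `evz F₀ v = N`, so
`v = u_N` (`hE.inj`), and `bv P γ.1 γ.2 = 0` gives `evz G u_N = 0`.
So `evz G u = 0` for all `u ∈ sec α` with `evz F₀ u ≥ N₀`, that is for all `u ∈ sec α` outside the
finite set `{u_0, …, u_{N₀ - 1}}` (`hE.nat`, `hE.inj`).  This contradicts `zar`.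
-/

set_option autoImplicit false

open Polynomial

namespace Pool.Agent.FPO

theorem EndC.cast (p : ℚ[X]) (N : ℕ) (a : ℤ) (h : (a : ℝ) = aeval (N : ℝ) p) :
    (a : ℚ) = p.eval (N : ℚ) := by
  have h1 : aeval (N : ℝ) p = ((p.eval (N : ℚ) : ℚ) : ℝ) := by
    have h2 : ((N : ℕ) : ℝ) = algebraMap ℚ ℝ (N : ℚ) := by simp
    rw [h2, aeval_algebraMap_apply]
    simp
  rw [h1] at h
  exact_mod_cast h

theorem EndC.evalN (F : Bi) (p r : ℚ[X]) (N : ℕ) :
    bv F (p.eval (N : ℚ)) (r.eval (N : ℚ)) = (bv F p r).eval (N : ℚ) :=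
  (map_bv (evalRingHom (N : ℚ)) F p r).symm

theorem EndC.pow {C δ δ₁ x : ℝ} (hx : 1 ≤ x) (h : δ₁ ≤ δ) :
    C * x ^ (1 - δ) ≤ max C 0 * x ^ (1 - δ₁) := by
  have h1 : x ^ (1 - δ) ≤ x ^ (1 - δ₁) :=
    Real.rpow_le_rpow_of_exponent_le hx (by linarith)
  have h2 : 0 ≤ x ^ (1 - δ) := Real.rpow_nonneg (by linarith) _
  calc C * x ^ (1 - δ) ≤ max C 0 * x ^ (1 - δ) :=
        mul_le_mul_of_nonneg_right (le_max_left _ _) h2
    _ ≤ max C 0 * x ^ (1 - δ₁) := mul_le_mul_of_nonneg_left h1 (le_max_right _ _)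

theorem end_false (α : ℝ) (hα : 0 < α) (F₀ : MvPolynomial (Fin 2) ℚ) (hE : Enum (sec α) F₀)
    (h : SmlS F₀ (sec α)) : False := by
  classical
  obtain ⟨G, hG, C, δ, hδ, hT⟩ := h
  obtain ⟨Γ, C', δ', hδ', hΓ, hT'⟩ := curB (toBi G) (toBi F₀) (toBi_ne_zero hG)
  obtain ⟨q, N₁, hq, hper⟩ := endA α Γ
  choose u hu1 hu2 using hE.surj
  have hEall := endB (fun N : ℕ => ∃ γ ∈ Γ, ∃ a b : ℤ, (a : ℚ) = γ.1.eval (N : ℚ) ∧
      (b : ℚ) = γ.2.eval (N : ℚ) ∧ (a, b) ∈ sec α) q N₁ hq hper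
    (max C 0 + max C' 0) (min δ δ') (lt_min hδ hδ') (by
      intro n hn
      obtain ⟨T₁, hT₁, hT₁'⟩ := hT n hn
      obtain ⟨T₂, hT₂, hT₂'⟩ := hT' n hn
      have hn1 : (1 : ℝ) ≤ (n : ℝ) := by exact_mod_cast hn
      refine ⟨T₁.image (fun u => (evz F₀ u).num.toNat) ∪ T₂, ?_, ?_⟩
      · have h1 : (((T₁.image (fun u => (evz F₀ u).num.toNat) ∪ T₂).card : ℕ) : ℝ) ≤
            (T₁.card : ℝ) + (T₂.card : ℝ) := by
          have h2 : (T₁.image (fun u => (evz F₀ u).num.toNat) ∪ T₂).card ≤ T₁.card + T₂.card :=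
            (Finset.card_union_le _ _).trans (Nat.add_le_add_right Finset.card_image_le _)
          exact_mod_cast h2
        have h3 := EndC.pow (C := C) hn1 (min_le_left δ δ')
        have h4 := EndC.pow (C := C') hn1 (min_le_right δ δ')
        rw [add_mul]
        linarith
      · intro N hN hEN
        have hval : evz F₀ (u N) = (N : ℚ) := hu2 N
        rw [Finset.mem_union]
        by_cases hGu : evz G (u N) = 0
        · right
          refine hT₂' N hN (u N).1 (u N).2 ?_ ?_ ?_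
          · rw [← evz_toBi_real, hGu]; simp
          · rw [← evz_toBi_real, hval]; simp
          · rintro γ hγ ⟨h5, h6⟩
            exact hEN ⟨γ, hγ, (u N).1, (u N).2, EndC.cast _ _ _ h5, EndC.cast _ _ _ h6, hu1 N⟩
        · left
          rw [Finset.mem_image]
          refine ⟨u N, hT₁' (u N) (hu1 N) ?_ hGu, ?_⟩
          · rw [hval]; exact_mod_cast hN
          · rw [hval]; simp)
  obtain ⟨w, hw, hwT, hwG⟩ := zar α hα G hG ((Finset.range N₁).image u)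
  obtain ⟨N, hN⟩ := hE.nat w hw
  by_cases hNN : N < N₁
  · apply hwT
    rw [Finset.mem_image]
    refine ⟨N, Finset.mem_range.2 hNN, ?_⟩
    exact hE.inj _ (hu1 N) _ hw (by rw [hu2 N, hN])
  · obtain ⟨γ, hγ, a, b, ha, hb, hab⟩ := hEall N (by omega)
    have h1 : evz F₀ (a, b) = (N : ℚ) := by
      rw [evz_toBi]
      change bv (toBi F₀) (a : ℚ) (b : ℚ) = _
      rw [ha, hb, EndC.evalN, (hΓ γ hγ).1, eval_X]
    have h2 : evz G (a, b) = 0 := by
      rw [evz_toBi]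
      change bv (toBi G) (a : ℚ) (b : ℚ) = _
      rw [ha, hb, EndC.evalN, (hΓ γ hγ).2, eval_zero]
    have h3 : (a, b) = w := hE.inj _ hab _ hw (by rw [h1, hN])
    rw [h3] at h2
    exact hwG h2

end Pool.Agent.FPO
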