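import Pool.Agent.FPO.Api

/-!
# FPO module Slow: slowly varying functions are rarely near integers (diff 1)

PROOF.  By the mean value theorem, for `X ≤ x ≤ x' ≤ 2X`:
`lam (x' - x) ≤ G x' - G x ≤ Lam (x' - x)` (e.g. `Convex.mul_sub_le_image_sub_of_le_deriv`, or
`exists_hasDerivAt_eq_slope`).  For each integer `z` let `A_z = {a ∈ A : |G a - z| ≤ η}`.  Two
elements of `A_z` differ by at most `2η/lam`, so `|A_z| ≤ 2η/lam + 1` (a finite set of naturals
with `max - min ≤ d` has at most `d + 1` elements; if empty it is trivial).  If `A_z ≠ ∅` then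
`G X - η ≤ z ≤ G X + Lam X + η` (as `0 ≤ G a - G X ≤ Lam X`), an interval of length
`Lam X + 2 η ≤ Lam X + 2`, which contains at most `Lam X + 3` integers.  (`Lam ≥ lam > 0`.)
Since `A = ⋃_z A_z`, `|A| ≤ (Lam X + 3)(2η/lam + 1)`.
(For the union bound: `Finset.card_le_mul_card_image`-type lemmas or `Finset.card_biUnion_le`.)
-/

set_option autoImplicit false

open Polynomial

namespace Pool.Agent.FPO

theorem slow (X : ℕ) (hX : 1 ≤ X) (G G' : ℝ → ℝ) (lam Lam η : ℝ) (hlam : 0 < lam) (hη : 0 ≤ η)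
    (hη1 : η ≤ 1) (hG : ∀ x : ℝ, (X : ℝ) ≤ x → x ≤ 2 * X → HasDerivAt G (G' x) x)
    (hlo : ∀ x : ℝ, (X : ℝ) ≤ x → x ≤ 2 * X → lam ≤ G' x)
    (hhi : ∀ x : ℝ, (X : ℝ) ≤ x → x ≤ 2 * X → G' x ≤ Lam) (A : Finset ℕ)
    (hA : ∀ a ∈ A, X ≤ a ∧ a < 2 * X ∧ ∃ z : ℤ, |G a - z| ≤ η) :
    (A.card : ℝ) ≤ (Lam * X + 4) * (2 * η / lam + 1) := by
  classical
  have hXR : (1 : ℝ) ≤ X := by exact_mod_cast hX
  have mvt : ∀ x x' : ℝ, (X : ℝ) ≤ x → x ≤ x' → x' ≤ 2 * X →
      lam * (x' - x) ≤ G x' - G x ∧ G x' - G x ≤ Lam * (x' - x) := by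
    intro x x' h1 h2 h3
    rcases eq_or_lt_of_le h2 with rfl | h2
    · simp
    · obtain ⟨ξ, ⟨h4, h5⟩, h6⟩ := exists_hasDerivAt_eq_slope G G' h2
        (fun y hy => (hG y (h1.trans hy.1) (hy.2.trans h3)).continuousAt.continuousWithinAt)
        (fun y hy => hG y (h1.trans hy.1.le) (hy.2.le.trans h3))
      have h7 : G x' - G x = G' ξ * (x' - x) := by
        rw [h6, div_mul_cancel₀]
        linarith
      have h8 := hlo ξ (h1.trans h4.le) (h5.le.trans h3)
      have h9 := hhi ξ (h1.trans h4.le) (h5.le.trans h3)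
      rw [h7]
      exact ⟨mul_le_mul_of_nonneg_right h8 (by linarith),
        mul_le_mul_of_nonneg_right h9 (by linarith)⟩
  have hLam : lam ≤ Lam := (hlo X le_rfl (by linarith)).trans (hhi X le_rfl (by linarith))
  have hz : ∀ a : ℕ, ∃ z : ℤ, a ∈ A → |G a - z| ≤ η := by
    intro a
    by_cases ha : a ∈ A
    · obtain ⟨-, -, z, hz⟩ := hA a ha
      exact ⟨z, fun _ => hz⟩
    · exact ⟨0, fun h => absurd h ha⟩
  choose z hz using hz
  have hq : (0 : ℝ) ≤ 2 * η / lam := by positivity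
  have hfib : ∀ k ∈ A.image z, (A.filter (fun a => z a = k)).card ≤ ⌊2 * η / lam⌋₊ + 1 := by
    intro k hk
    have hne : (A.filter (fun a => z a = k)).Nonempty := by
      obtain ⟨a, ha, hak⟩ := Finset.mem_image.1 hk
      exact ⟨a, Finset.mem_filter.2 ⟨ha, hak⟩⟩
    set m := (A.filter (fun a => z a = k)).min' hne with hm
    have hmm := Finset.min'_mem _ hne
    rw [← hm, Finset.mem_filter] at hmm
    have hsub : A.filter (fun a => z a = k) ⊆ Finset.Icc m (m + ⌊2 * η / lam⌋₊) := by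
      intro b hb
      have hmb : m ≤ b := Finset.min'_le _ _ hb
      rw [Finset.mem_filter] at hb
      rw [Finset.mem_Icc]
      refine ⟨hmb, ?_⟩
      obtain ⟨hm1, -, -⟩ := hA m hmm.1
      obtain ⟨hb1, hb2, -⟩ := hA b hb.1
      have h1 := hz m hmm.1
      have h2 := hz b hb.1
      rw [hmm.2] at h1
      rw [hb.2] at h2
      have hm1' : (X : ℝ) ≤ m := by exact_mod_cast hm1
      have hmb' : (m : ℝ) ≤ b := by exact_mod_cast hmb
      have hb2' : (b : ℝ) ≤ 2 * X := by exact_mod_cast hb2.le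
      have h3 := (mvt m b hm1' hmb' hb2').1
      rw [abs_le] at h1 h2
      have h4 : lam * ((b : ℝ) - m) ≤ 2 * η := by linarith [h1.1, h1.2, h2.1, h2.2]
      have h5 : ((b - m : ℕ) : ℝ) ≤ 2 * η / lam := by
        rw [Nat.cast_sub hmb, le_div_iff₀ hlam, mul_comm]
        exact h4
      have h6 := Nat.le_floor h5
      omega
    have h7 := Finset.card_le_card hsub
    rw [Nat.card_Icc] at h7
    omega
  have hcard := Finset.card_le_mul_card_image A (⌊2 * η / lam⌋₊ + 1) hfib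
  have himg : ((A.image z).card : ℝ) ≤ Lam * X + 4 := by
    have hsub : A.image z ⊆ Finset.Icc ⌈G X - η⌉ ⌊G X + Lam * X + η⌋ := by
      intro k hk
      obtain ⟨a, ha, hak⟩ := Finset.mem_image.1 hk
      obtain ⟨ha1, ha2, -⟩ := hA a ha
      have h1 := hz a ha
      rw [hak, abs_le] at h1
      have ha1' : (X : ℝ) ≤ a := by exact_mod_cast ha1
      have ha2' : (a : ℝ) ≤ 2 * X := by exact_mod_cast ha2.le
      obtain ⟨h2, h3⟩ := mvt X a le_rfl ha1' ha2'
      have h4 : 0 ≤ lam * ((a : ℝ) - X) := mul_nonneg hlam.le (by linarith)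
      have h5 : Lam * ((a : ℝ) - X) ≤ Lam * X :=
        mul_le_mul_of_nonneg_left (by linarith) (by linarith)
      rw [Finset.mem_Icc, Int.ceil_le, Int.le_floor]
      constructor
      · linarith [h1.1, h1.2]
      · linarith [h1.1, h1.2]
    have h6 := Finset.card_le_card hsub
    rw [Int.card_Icc] at h6
    have h7 : ((A.image z).card : ℝ) ≤
        ((⌊G X + Lam * X + η⌋ + 1 - ⌈G X - η⌉).toNat : ℝ) := by exact_mod_cast h6
    refine h7.trans ?_
    have h8 : (((⌊G X + Lam * X + η⌋ + 1 - ⌈G X - η⌉).toNat : ℤ) : ℝ) =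
        ((⌊G X + Lam * X + η⌋ + 1 - ⌈G X - η⌉).toNat : ℝ) := by norm_cast
    rw [← h8, Int.toNat_eq_max]
    have h9 := Int.floor_le (G X + Lam * X + η)
    have h10 := Int.le_ceil (G X - η)
    have h11 : 0 ≤ Lam * X := mul_nonneg (by linarith) (by linarith)
    push_cast
    apply max_le
    · linarith
    · linarith
  have h1 : (A.card : ℝ) ≤ ((⌊2 * η / lam⌋₊ + 1 : ℕ) : ℝ) * ((A.image z).card : ℝ) := by
    exact_mod_cast hcard
  have h2 : ((⌊2 * η / lam⌋₊ + 1 : ℕ) : ℝ) ≤ 2 * η / lam + 1 := by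
    push_cast
    linarith [Nat.floor_le hq]
  calc (A.card : ℝ) ≤ ((⌊2 * η / lam⌋₊ + 1 : ℕ) : ℝ) * ((A.image z).card : ℝ) := h1
    _ ≤ (2 * η / lam + 1) * (Lam * X + 4) := by
        apply mul_le_mul h2 himg (by positivity) (by linarith)
    _ = (Lam * X + 4) * (2 * η / lam + 1) := mul_comm _ _

end Pool.Agent.FPO
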