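import Pool.Agent.FPO.StepK
import Pool.Agent.FPO.Dl
import Pool.Agent.FPO.PsD
import Pool.Agent.FPO.Slow

/-!
# FPO module EqI: power sums with a non-integral leading exponent (diff 2)

PROOF.  Let `k = ⌊e₀⌋₊`, `φ = e₀ - k ∈ (0,1)`, `c* = p e₀ * ∏_{i < k+1} (e₀ - i)`, nonzero since
`e₀` is not an integer.  We may assume `c* > 0` (replace `p` by `-p`:
`rsum (-p) = -rsum p`, and `nc (-g) X η = nc g X η`).  Let `ε = (1-φ)/(2(k+1)) ≤ 1`.
We verify the hypothesis of `stepk` for `g = rsum p` (`= rder p 0`, `rder_zero`, `funext`).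
Let `X` be large, `t` a list of length `k` with entries `1 ≤ h ≤ X^ε`, `Π = t.prod`, so
`1 ≤ Π ≤ X^{kε}` and `t.sum ≤ k X^ε ≤ X`.  By `dl_hasDerivAt`, `G = dl t (rder p 0)` has on
`[X, 2X]` the derivative `dl t (rder p 1) x = Π * rder p (1 + k) ξ` with
`X ≤ ξ ≤ 3X` (`dl_mvt`).  By `rder_asymp` (with `j = k+1`) for `ξ ≥ X` large
`(c*/2) ξ^{φ-1} ≤ rder p (k+1) ξ ≤ 2 c* ξ^{φ-1}`, so with
`lam = Π (c*/2) (3X)^{φ-1}`, `Lam = 2 Π c* X^{φ-1}` and `η = 2^k X^{-κ} ≤ 1`, `slow` gives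
`nc (dl t g) X η ≤ (Lam X + 4)(2η/lam + 1)`.
Here `Lam X = 2 c* Π X^φ ≤ 2 c* X^{φ + kε}`, `2η/lam ≤ (12/c*) η X^{1-φ}/Π`
(`3^{1-φ} ≤ 3`), `Lam X * 2η/lam ≤ 24 η X`, so
`nc ≤ 24 * 2^k X^{1-κ} + 2 c* X^{φ+kε} + (48/c*) X^{1-φ} + 4 ≤ C X^{1-δ}`,
`δ = min κ (min ((1-φ)/2) (min φ 1))`  (note `φ + kε ≤ 1 - (1-φ)/2`, and `X ≥ 1`).
-/

set_option autoImplicit false

open Polynomial

namespace Pool.Agent.FPO

private theorem EqI_list (Y : ℝ) (hY : 0 ≤ Y) (t : List ℕ) (ht : ∀ h ∈ t, 1 ≤ h ∧ (h : ℝ) ≤ Y) :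
    1 ≤ t.prod ∧ ((t.prod : ℕ) : ℝ) ≤ Y ^ t.length ∧ ((t.sum : ℕ) : ℝ) ≤ t.length * Y := by
  induction t with
  | nil => simp
  | cons a t ih =>
    obtain ⟨h1, h2, h3⟩ := ih (fun h hh => ht h (List.mem_cons_of_mem _ hh))
    obtain ⟨h4, h5⟩ := ht a List.mem_cons_self
    rw [List.prod_cons, List.sum_cons, List.length_cons]
    refine ⟨?_, ?_, ?_⟩
    · exact Nat.one_le_iff_ne_zero.2 (Nat.mul_ne_zero (by omega) (by omega))
    · rw [Nat.cast_mul, pow_succ, mul_comm]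
      exact mul_le_mul h2 h5 (by positivity) (by positivity)
    · rw [Nat.cast_add, Nat.cast_add, Nat.cast_one]
      linarith

private theorem EqI_nc_eq (g : ℝ → ℝ) (X : ℕ) (η : ℝ) : nc g X η =
    (@Finset.filter ℕ (fun a : ℕ => ∃ z : ℤ, |g a - z| ≤ η) (Classical.decPred _)
      (Finset.Ico X (2 * X))).card := by
  classical
  unfold nc
  rw [← Finset.card_image_of_injective (f := fun a : ℕ => (a : ℝ)) _ Nat.cast_injective]
  congr 1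
  ext y
  simp only [Finset.mem_filter, Finset.mem_image, Finset.bind_def, Finset.mem_sup, Finset.pure_def,
    Finset.mem_singleton, Finset.mem_Ico]
  constructor
  · rintro ⟨⟨a, ha, rfl⟩, hz⟩
    exact ⟨a, ⟨ha, hz⟩, rfl⟩
  · rintro ⟨a, ⟨ha, hz⟩, rfl⟩
    exact ⟨⟨a, ha, rfl⟩, hz⟩

private theorem EqI_pos (p : ℚ →₀ ℝ) (e₀ : ℚ) (hlead : ∀ e, e₀ < e → p e = 0) (he₀ : 0 < e₀)
    (hni : ∀ k : ℤ, e₀ ≠ k) (κ : ℝ) (hκ : 0 < κ)
    (hc : 0 < p e₀ * ∏ i ∈ Finset.range (⌊e₀⌋₊ + 1), ((e₀ : ℝ) - i)) :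
    ∃ C δ : ℝ, 0 < δ ∧ ∀ X : ℕ, 1 ≤ X →
      (nc (rsum p) X ((X : ℝ) ^ (-κ)) : ℝ) ≤ C * (X : ℝ) ^ (1 - δ) := by
  classical
  set k := ⌊e₀⌋₊ with hk
  set c := p e₀ * ∏ i ∈ Finset.range (k + 1), ((e₀ : ℝ) - i) with hcdef
  set φ : ℝ := (e₀ : ℝ) - k with hφ
  have hφ0 : 0 < φ := by
    have h1 : ((k : ℕ) : ℚ) ≤ e₀ := Nat.floor_le he₀.le
    have h2 : e₀ ≠ ((k : ℕ) : ℚ) := by
      have := hni (k : ℤ)
      exact_mod_cast this
    have h3 : ((k : ℕ) : ℚ) < e₀ := lt_of_le_of_ne h1 (Ne.symm h2)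
    have h4 : ((k : ℕ) : ℝ) < (e₀ : ℝ) := by exact_mod_cast h3
    rw [hφ]; linarith
  have hφ1 : φ < 1 := by
    have h1 : e₀ < ((k : ℕ) : ℚ) + 1 := Nat.lt_floor_add_one e₀
    have h4 : (e₀ : ℝ) < ((k : ℕ) : ℝ) + 1 := by exact_mod_cast h1
    rw [hφ]; linarith
  set ε : ℝ := (1 - φ) / (2 * ((k : ℝ) + 1)) with hε
  have hk1 : (0 : ℝ) < (k : ℝ) + 1 := by positivity
  have hε0 : 0 < ε := by
    apply div_pos (by linarith) (by linarith)
  have hε2 : ε ≤ 1 / 2 := by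
    rw [hε, div_le_div_iff₀ (by linarith) (by norm_num)]
    nlinarith [Nat.cast_nonneg (α := ℝ) k]
  have hkε : (k : ℝ) * ε ≤ (1 - φ) / 2 := by
    rw [hε, mul_div_assoc', div_le_div_iff₀ (by linarith) (by norm_num)]
    nlinarith [Nat.cast_nonneg (α := ℝ) k]
  obtain ⟨C₁, σ, hσ, hC₁, has⟩ := rder_asymp p e₀ hlead (k + 1)
  have hexp : (e₀ : ℝ) - ((k + 1 : ℕ) : ℝ) = φ - 1 := by rw [hφ]; push_cast; ring
  rw [hexp] at has
  -- large x
  have hev1 : ∀ᶠ x : ℝ in Filter.atTop, C₁ * x ^ (-σ) ≤ c / 2 := by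
    have h1 : Filter.Tendsto (fun x : ℝ => C₁ * x ^ (-σ)) Filter.atTop (nhds (C₁ * 0)) :=
      (tendsto_rpow_neg_atTop hσ).const_mul C₁
    rw [mul_zero] at h1
    exact (h1.eventually (gt_mem_nhds (half_pos hc))).mono fun x hx => hx.le
  have hev2 : ∀ᶠ x : ℝ in Filter.atTop, 2 ^ k * x ^ (-κ) ≤ 1 := by
    have h1 : Filter.Tendsto (fun x : ℝ => 2 ^ k * x ^ (-κ)) Filter.atTop (nhds (2 ^ k * 0)) :=
      (tendsto_rpow_neg_atTop hκ).const_mul _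
    rw [mul_zero] at h1
    exact (h1.eventually (gt_mem_nhds one_pos)).mono fun x hx => hx.le
  obtain ⟨x1, hx1⟩ := Filter.eventually_atTop.1 hev1
  obtain ⟨x2, hx2⟩ := Filter.eventually_atTop.1 hev2
  set X₀ : ℕ := max (max ⌈x1⌉₊ ⌈x2⌉₊) (max (k ^ 2) 1) with hX₀
  set δ : ℝ := min κ (min ((1 - φ) / 2) (min φ 1)) with hδ
  have hδ0 : 0 < δ := by
    rw [hδ]
    refine lt_min hκ (lt_min (by linarith) (lt_min hφ0 one_pos))
  have hδκ : δ ≤ κ := min_le_left _ _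
  have hδ2 : δ ≤ (1 - φ) / 2 := (min_le_right _ _).trans (min_le_left _ _)
  have hδ3 : δ ≤ φ := (min_le_right _ _).trans ((min_le_right _ _).trans (min_le_left _ _))
  have hδ4 : δ ≤ 1 := (min_le_right _ _).trans ((min_le_right _ _).trans (min_le_right _ _))
  refine stepk (rsum p) k ε δ κ (24 * 2 ^ k + 2 * c + 48 / c + 4) hε0 (by linarith) hδ0 X₀ ?_
  intro X hX t htl ht
  have hXx1 : x1 ≤ (X : ℝ) := by
    have h1 : ⌈x1⌉₊ ≤ X := ((le_max_left _ _).trans (le_max_left _ _)).trans hX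
    exact (Nat.le_ceil x1).trans (by exact_mod_cast h1)
  have hXx2 : x2 ≤ (X : ℝ) := by
    have h1 : ⌈x2⌉₊ ≤ X := ((le_max_right _ _).trans (le_max_left _ _)).trans hX
    exact (Nat.le_ceil x2).trans (by exact_mod_cast h1)
  have hXk : k ^ 2 ≤ X := ((le_max_left _ _).trans (le_max_right _ _)).trans hX
  have hX1 : 1 ≤ X := ((le_max_right _ _).trans (le_max_right _ _)).trans hX
  set x : ℝ := (X : ℝ) with hx
  have hx1' : (1 : ℝ) ≤ x := by rw [hx]; exact_mod_cast hX1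
  have hx0 : (0 : ℝ) < x := by linarith
  obtain ⟨hP1, hP2, hS⟩ := EqI_list (x ^ ε) (by positivity) t ht
  rw [htl] at hP2 hS
  set P : ℝ := ((t.prod : ℕ) : ℝ) with hP
  have hP1' : (1 : ℝ) ≤ P := by rw [hP]; exact_mod_cast hP1
  have hP3 : P ≤ x ^ ((k : ℝ) * ε) := by
    refine hP2.trans (le_of_eq ?_)
    rw [← Real.rpow_natCast, ← Real.rpow_mul hx0.le, mul_comm]
  have hsum : ((t.sum : ℕ) : ℝ) ≤ x := by
    refine hS.trans ?_
    have h1 : x ^ ε ≤ x ^ ((1 : ℝ) / 2) := Real.rpow_le_rpow_of_exponent_le hx1' hε2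
    have h2 : (k : ℝ) ≤ x ^ ((1 : ℝ) / 2) := by
      rw [← Real.sqrt_eq_rpow]
      apply Real.le_sqrt_of_sq_le
      rw [hx]; exact_mod_cast hXk
    have h3 : x ^ ((1 : ℝ) / 2) * x ^ ((1 : ℝ) / 2) = x := by
      rw [← Real.sqrt_eq_rpow, Real.mul_self_sqrt hx0.le]
    calc (k : ℝ) * x ^ ε ≤ x ^ ((1 : ℝ) / 2) * x ^ ((1 : ℝ) / 2) :=
          mul_le_mul h2 h1 (by positivity) (by positivity)
      _ = x := h3
  set u : ℝ := x ^ (φ - 1) with hu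
  have hu0 : 0 < u := by positivity
  -- the derivative
  have hder : ∀ y : ℝ, x ≤ y → y ≤ 2 * x → ∃ ξ : ℝ, x ≤ ξ ∧ ξ ≤ 3 * x ∧
      dl t (rder p 1) y = P * rder p (k + 1) ξ := by
    intro y hy1 hy2
    obtain ⟨ξ, h1, h2, h3⟩ := dl_mvt (rder p) (fun j x hx => rder_hasDerivAt p j x hx) t 1 y
      (by linarith)
    refine ⟨ξ, by linarith, by linarith, ?_⟩
    rw [h3, htl, add_comm 1 k]
  have hbd : ∀ ξ : ℝ, x ≤ ξ → ξ ≤ 3 * x → c / 6 * u ≤ rder p (k + 1) ξ ∧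
      rder p (k + 1) ξ ≤ 2 * c * u := by
    intro ξ h1 h2
    have hξ0 : 0 < ξ := by linarith
    have h3 := has ξ (by linarith)
    have h4 : C₁ * ξ ^ (φ - 1 - σ) ≤ c / 2 * ξ ^ (φ - 1) := by
      have h5 : ξ ^ (φ - 1 - σ) = ξ ^ (-σ) * ξ ^ (φ - 1) := by
        rw [← Real.rpow_add hξ0]; congr 1; ring
      rw [h5, ← mul_assoc]
      exact mul_le_mul_of_nonneg_right (hx1 ξ (by linarith)) (by positivity)
    have h6 := abs_le.1 (h3.trans h4)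
    have h7 : ξ ^ (φ - 1) ≤ u := by
      rw [hu]
      exact Real.rpow_le_rpow_of_nonpos hx0 h1 (by linarith)
    have h8 : u / 3 ≤ ξ ^ (φ - 1) := by
      have h9 : (3 * x) ^ (φ - 1) ≤ ξ ^ (φ - 1) :=
        Real.rpow_le_rpow_of_nonpos hξ0 h2 (by linarith)
      refine le_trans ?_ h9
      rw [Real.mul_rpow (by norm_num) hx0.le, ← hu]
      have h10 : (3 : ℝ) ^ (-1 : ℝ) ≤ 3 ^ (φ - 1) :=
        Real.rpow_le_rpow_of_exponent_le (by norm_num) (by linarith)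
      rw [Real.rpow_neg_one] at h10
      calc u / 3 = (3 : ℝ)⁻¹ * u := by ring
        _ ≤ 3 ^ (φ - 1) * u := mul_le_mul_of_nonneg_right h10 hu0.le
    constructor
    · nlinarith [h6.1, h8]
    · nlinarith [h6.2, h7]
  have hη0 : 0 ≤ 2 ^ k * x ^ (-κ) := by positivity
  have hη1 : 2 ^ k * x ^ (-κ) ≤ 1 := hx2 x hXx2
  have hslow := slow X hX1 (dl t (rsum p)) (dl t (rder p 1)) (P * (c / 6 * u)) (P * (2 * c * u))
    (2 ^ k * x ^ (-κ)) (by positivity) hη0 hη1 (by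
      intro y hy1 hy2
      have h1 := dl_hasDerivAt (rder p) (fun j x hx => rder_hasDerivAt p j x hx) t 0 y
        (by rw [← hx] at hy1; linarith)
      have h2 : rder p 0 = rsum p := funext fun y => rder_zero p y
      rw [h2] at h1
      exact h1) (by
      intro y hy1 hy2
      obtain ⟨ξ, h1, h2, h3⟩ := hder y hy1 hy2
      rw [h3]
      exact mul_le_mul_of_nonneg_left (hbd ξ h1 h2).1 (by linarith)) (by
      intro y hy1 hy2
      obtain ⟨ξ, h1, h2, h3⟩ := hder y hy1 hy2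
      rw [h3]
      exact mul_le_mul_of_nonneg_left (hbd ξ h1 h2).2 (by linarith))
    ((Finset.Ico X (2 * X)).filter fun a : ℕ => ∃ z : ℤ, |dl t (rsum p) a - z| ≤ 2 ^ k * x ^ (-κ))
    (by
      intro a ha
      rw [Finset.mem_filter, Finset.mem_Ico] at ha
      exact ⟨ha.1.1, ha.1.2, ha.2⟩)
  have hnc : (nc (dl t (rsum p)) X (2 ^ k * x ^ (-κ)) : ℝ) = (((Finset.Ico X (2 * X)).filter
      fun a : ℕ => ∃ z : ℤ, |dl t (rsum p) a - z| ≤ 2 ^ k * x ^ (-κ)).card : ℝ) := by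
    rw [EqI_nc_eq]
  rw [hnc]
  refine hslow.trans ?_
  rw [← hx]
  set η : ℝ := 2 ^ k * x ^ (-κ) with hη
  have hP0 : 0 < P := by linarith
  have hc0 : c ≠ 0 := hc.ne'
  have hexpand : (P * (2 * c * u) * x + 4) * (2 * η / (P * (c / 6 * u)) + 1) =
      24 * (η * x) + 2 * c * (P * (u * x)) + 48 / c * (η / P * u⁻¹) + 4 := by
    field_simp
    ring
  rw [hexpand]
  have hxδ1 : 1 ≤ x ^ (1 - δ) := Real.one_le_rpow hx1' (by linarith)
  have t1 : η * x ≤ 2 ^ k * x ^ (1 - δ) := by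
    have h1 : η * x = 2 ^ k * x ^ (1 - κ) := by
      rw [hη, mul_assoc]
      congr 1
      nth_rewrite 2 [← Real.rpow_one x]
      rw [← Real.rpow_add hx0]
      congr 1; ring
    rw [h1]
    exact mul_le_mul_of_nonneg_left (Real.rpow_le_rpow_of_exponent_le hx1' (by linarith))
      (by positivity)
  have t2 : P * (u * x) ≤ x ^ (1 - δ) := by
    have h1 : u * x = x ^ φ := by
      rw [hu]
      nth_rewrite 2 [← Real.rpow_one x]
      rw [← Real.rpow_add hx0]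
      congr 1; ring
    rw [h1]
    calc P * x ^ φ ≤ x ^ ((k : ℝ) * ε) * x ^ φ := mul_le_mul_of_nonneg_right hP3 (by positivity)
      _ = x ^ ((k : ℝ) * ε + φ) := by rw [Real.rpow_add hx0]
      _ ≤ x ^ (1 - δ) := Real.rpow_le_rpow_of_exponent_le hx1' (by linarith)
  have t3 : η / P * u⁻¹ ≤ x ^ (1 - δ) := by
    have h1 : u⁻¹ = x ^ (1 - φ) := by
      rw [hu, ← Real.rpow_neg hx0.le]
      congr 1; ring
    have h2 : η / P ≤ 1 := by
      rw [div_le_one hP0]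
      linarith
    rw [h1]
    calc η / P * x ^ (1 - φ) ≤ 1 * x ^ (1 - φ) := mul_le_mul_of_nonneg_right h2 (by positivity)
      _ = x ^ (1 - φ) := one_mul _
      _ ≤ x ^ (1 - δ) := Real.rpow_le_rpow_of_exponent_le hx1' (by linarith)
  have t4 : 48 / c * (η / P * u⁻¹) ≤ 48 / c * x ^ (1 - δ) :=
    mul_le_mul_of_nonneg_left t3 (by positivity)
  have t5 : 2 * c * (P * (u * x)) ≤ 2 * c * x ^ (1 - δ) :=
    mul_le_mul_of_nonneg_left t2 (by positivity)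
  have t6 : 24 * (η * x) ≤ 24 * (2 ^ k * x ^ (1 - δ)) :=
    mul_le_mul_of_nonneg_left t1 (by norm_num)
  calc 24 * (η * x) + 2 * c * (P * (u * x)) + 48 / c * (η / P * u⁻¹) + 4
      ≤ 24 * (2 ^ k * x ^ (1 - δ)) + 2 * c * x ^ (1 - δ) + 48 / c * x ^ (1 - δ) +
        4 * x ^ (1 - δ) := by linarith
    _ = (24 * 2 ^ k + 2 * c + 48 / c + 4) * x ^ (1 - δ) := by ring

private theorem EqI_nc (g : ℝ → ℝ) (X : ℕ) (η : ℝ) : nc (fun x => -g x) X η = nc g X η := by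
  classical
  rw [EqI_nc_eq, EqI_nc_eq]
  congr 1
  apply Finset.filter_congr
  intro a _
  constructor
  · rintro ⟨z, hz⟩
    refine ⟨-z, ?_⟩
    rw [← abs_neg]
    push_cast
    rw [show -(g (a : ℝ) - -(z : ℝ)) = -g (a : ℝ) - z by ring]
    exact hz
  · rintro ⟨z, hz⟩
    refine ⟨-z, ?_⟩
    rw [← abs_neg]
    push_cast
    rw [show -(-g (a : ℝ) - -(z : ℝ)) = g (a : ℝ) - z by ring]
    exact hz

theorem eqI (p : ℚ →₀ ℝ) (e₀ : ℚ) (hp : p e₀ ≠ 0) (hlead : ∀ e, e₀ < e → p e = 0) (he₀ : 0 < e₀)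
    (hni : ∀ k : ℤ, e₀ ≠ k) (κ : ℝ) (hκ : 0 < κ) :
    ∃ C δ : ℝ, 0 < δ ∧ ∀ X : ℕ, 1 ≤ X →
      (nc (rsum p) X ((X : ℝ) ^ (-κ)) : ℝ) ≤ C * (X : ℝ) ^ (1 - δ) := by
  have hprod : ∏ i ∈ Finset.range (⌊e₀⌋₊ + 1), ((e₀ : ℝ) - i) ≠ 0 := by
    rw [Finset.prod_ne_zero_iff]
    intro i _ h
    apply hni i
    have h1 : (e₀ : ℝ) = (i : ℝ) := by linarith
    exact_mod_cast h1
  rcases lt_or_gt_of_ne (mul_ne_zero hp hprod) with h | h
  · have h1 := EqI_pos (-p) e₀ (fun e he => by simp [hlead e he]) he₀ hni κ hκ (by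
      rw [Finsupp.neg_apply, neg_mul]; linarith)
    obtain ⟨C, δ, hδ, H⟩ := h1
    refine ⟨C, δ, hδ, fun X hX => ?_⟩
    have h2 : rsum (-p) = fun x => -rsum p x := by
      funext x
      unfold rsum
      rw [Finsupp.sum_neg_index (fun a => by simp), ← Finsupp.sum_neg]
      simp
    have h3 := H X hX
    rw [h2, EqI_nc] at h3
    exact h3
  · exact EqI_pos p e₀ hlead he₀ hni κ hκ h

end Pool.Agent.FPO
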