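import Pool.Agent.FPO.Api

/-!
# FPO module Fac: the factor of the initial polynomial at a real root (diff 2)

`qf τ c = expand ℚ v m`, `v = τ.den`, `m = minpoly ℚ (c^v)` (so `qf τ c = m(ξ^v)`).

PROOF of `qf_props`.  `m` is monic, irreducible, `m(c^v) = 0`.  `expand` of a monic polynomial is
monic (`v > 0`), `natDegree = natDegree m * v` (`natDegree_expand`).  `aeval c (expand v m) =
aeval (c^v) m = 0` (`expand_aeval`).  Derivative: `derivative (expand v m) =
expand v (derivative m) * (v X^{v-1})` (`derivative_expand`), its value at `c` is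
`m'(c^v) v c^{v-1} ≠ 0`, because `m` is separable (`Irreducible.separable`, characteristic `0`), so
`m'(c^v) ≠ 0` (`Separable.aeval_derivative_ne_zero`).  `coeff 0`: `(expand v m).coeff 0 = m.coeff 0`,
and `m.coeff 0 ≠ 0` as `c^v ≠ 0` (`minpoly.coeff_zero_ne_zero`).
`τ * natDegree = τ * v * natDegree m = τ.num * natDegree m`, a natural number since `τ ≥ 1`.
Degree `≥ 2`: if `v ≥ 2`, `natDegree m ≥ 1`.  If `v = 1`, `τ` is an integer, so by `Irreg` `c` is
irrational, `m = minpoly ℚ c` has degree `≥ 2` (degree `1` means `c` rational: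
`minpoly.natDegree_eq_one_iff` / `minpoly.one_lt_natDegree_iff...`).
`τ = 1`: `v = 1`, `expand_one`, `pow_one`.

PROOF of `fac`.  Let `j₀ = (ini τ w F).natTrailingDegree` (a nonzero coefficient, `ini ≠ 0`).  If
`j` is an exponent of `ini` then `w - τ j` is a natural number (`exists_of_coeff_ini_ne_zero`), so
`τ (j - j₀)` is an integer, thus `v ∣ j - j₀` (`v` and `τ.num` are coprime), `j ≥ j₀`.  So
`ini = X^{j₀} * expand v Ψ` with `Ψ = ∑_k ini_{j₀ + v k} X^k` (`Ψ := contract v (ini.divX^[j₀])` or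
directly a sum over `range`; compare coefficients).  `Ψ ≠ 0` and `0 = ini(c) = c^{j₀} Ψ(c^v)`, so
`Ψ(c^v) = 0`: `c^v` is algebraic, `m ∣ Ψ` (`minpoly.dvd`).  As `m` is not a unit and `Ψ ≠ 0` there is a
largest `s ≥ 1` with `m^s ∣ Ψ` (`FiniteMultiplicity.exists_eq_pow_mul_and_not_dvd`,
`Polynomial` over a field: `finiteMultiplicity_of_degree_pos_of_monic`): `Ψ = m^s Φ`, `¬ m ∣ Φ`.
`m` irreducible: `IsCoprime m Φ` (`Irreducible.coprime_iff_not_dvd`), `IsCoprime.pow_left`;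
`Φ(c^v) ≠ 0` by `minpoly.dvd`.

PROOF of `fac_mult`.  `ini = X^{j₀} * q^s * expand v Φ`, `q = qf τ c`
(`expand v (m^s Φ) = (expand v m)^s * expand v Φ`).  Over `ℂ`, `c` is not a root of `X^{j₀}` nor of
`expand v Φ`, and a simple root of `q` (`rootMultiplicity` is `1` as `q(c) = 0`, `q'(c) ≠ 0`:
`Polynomial.one_lt_rootMultiplicity_iff_isRoot`), so the multiplicity is `s`
(`rootMultiplicity_mul`, `rootMultiplicity_pow`, `rootMultiplicity_eq_zero`).
-/

set_option autoImplicit false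

open Polynomial

namespace Pool.Agent.FPO

private theorem Fac_aux {τ : ℚ} {k : ℕ} {z : ℤ} (h : τ * k = z) : τ.den ∣ k := by
  have h1 : (τ.num : ℚ) * k = z * τ.den := by
    have h2 : τ * τ.den = τ.num := Rat.mul_den_eq_num τ
    rw [← h2, ← h]
    ring
  have h3 : τ.num * k = z * τ.den := by exact_mod_cast h1
  have h4 : τ.den ∣ τ.num.natAbs * k := by
    have h5 : (τ.den : ℤ) ∣ τ.num * k := ⟨z, by rw [h3]; ring⟩
    have h6 := Int.natAbs_dvd_natAbs.2 h5
    rwa [Int.natAbs_natCast, Int.natAbs_mul, Int.natAbs_natCast] at h6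
  exact (Nat.Coprime.symm τ.reduced).dvd_of_dvd_mul_left h4

theorem qf_props (τ : ℚ) (hτ : 1 ≤ τ) (c : ℝ) (hc : c ≠ 0) (halg : IsAlgebraic ℚ (c ^ τ.den)) :
    (qf τ c).Monic ∧ aeval c (qf τ c) = 0 ∧ aeval c (derivative (qf τ c)) ≠ 0 ∧
      (qf τ c).coeff 0 ≠ 0 ∧ (∃ e : ℕ, (e : ℚ) = τ * (qf τ c).natDegree) ∧
      (Irreg τ c → 2 ≤ (qf τ c).natDegree) ∧ (τ = 1 → qf τ c = minpoly ℚ c) := by
  have hint : IsIntegral ℚ (c ^ τ.den) := halg.isIntegral
  have hv : 0 < τ.den := τ.pos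
  refine ⟨(minpoly.monic hint).expand hv, ?_, ?_, ?_, ?_, ?_, ?_⟩
  · rw [qf, expand_aeval, minpoly.aeval]
  · rw [qf, derivative_expand, map_mul, expand_aeval, map_mul, map_pow, aeval_X, map_natCast]
    refine mul_ne_zero ?_ (mul_ne_zero ?_ (pow_ne_zero _ hc))
    · exact (minpoly.irreducible hint).separable.aeval_derivative_ne_zero (minpoly.aeval _ _)
    · exact_mod_cast hv.ne'
  · rw [qf, coeff_expand hv, if_pos (dvd_zero _), Nat.zero_div]
    exact minpoly.coeff_zero_ne_zero hint (pow_ne_zero _ hc)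
  · refine ⟨τ.num.toNat * (minpoly ℚ (c ^ τ.den)).natDegree, ?_⟩
    rw [qf, natDegree_expand]
    have h0 : 0 ≤ τ.num := Rat.num_nonneg.2 (by linarith)
    have h1 : ((τ.num.toNat : ℕ) : ℚ) = τ * τ.den := by
      rw [Rat.mul_den_eq_num]
      have : ((τ.num.toNat : ℕ) : ℤ) = τ.num := Int.toNat_of_nonneg h0
      exact_mod_cast this
    push_cast
    rw [h1]
    ring
  · intro hirr
    rw [qf, natDegree_expand]
    have hpos : 0 < (minpoly ℚ (c ^ τ.den)).natDegree := minpoly.natDegree_pos hint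
    by_cases h1 : τ.den = 1
    · rw [h1] at hint hpos ⊢
      rw [pow_one] at hint hpos ⊢
      rw [mul_one]
      by_contra h2
      have h3 : (minpoly ℚ c).natDegree = 1 := by omega
      rw [minpoly.natDegree_eq_one_iff] at h3
      rcases hirr with h4 | h4
      · apply h4 τ.num
        have h5 := Rat.mul_den_eq_num τ
        rw [h1, Nat.cast_one, mul_one] at h5
        exact h5
      · apply h4
        obtain ⟨r, hr⟩ := h3
        exact ⟨r, hr⟩
    · have h2 : 2 ≤ τ.den := by omega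
      calc 2 = 1 * 2 := rfl
        _ ≤ _ := Nat.mul_le_mul hpos h2
  · rintro rfl
    rw [qf]
    have h1 : (1 : ℚ).den = 1 := rfl
    rw [h1, pow_one]
    exact expand_one _

theorem fac (F : Bi) (τ w : ℚ) (hτ : 1 ≤ τ) (hw : HasWt τ w F) (c : ℝ) (hc : c ≠ 0)
    (hroot : aeval c (ini τ w F) = 0) : ∃ (j₀ s : ℕ) (Φ : ℚ[X]), FacD τ w c F j₀ s Φ := by
  have hv : 0 < τ.den := τ.pos
  have hP0 := hw.ini_ne_zero
  set P := ini τ w F with hP
  obtain ⟨P₁, hP₁⟩ : (X : ℚ[X]) ^ P.natTrailingDegree ∣ P := by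
    rw [X_pow_dvd_iff]
    intro d hd
    exact coeff_eq_zero_of_lt_natTrailingDegree hd
  set j₀ := P.natTrailingDegree with hj₀
  have hj₀c : P.coeff j₀ ≠ 0 := by
    have := trailingCoeff_nonzero_iff_nonzero.2 hP0
    exact this
  have hcoeff : ∀ k, P₁.coeff k = P.coeff (k + j₀) := by
    intro k
    conv_rhs => rw [hP₁]
    rw [coeff_X_pow_mul]
  obtain ⟨i₀, hi₀, -, -⟩ := exists_of_coeff_ini_ne_zero hj₀c
  have hdvd : ∀ k, P₁.coeff k ≠ 0 → τ.den ∣ k := by
    intro k hk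
    rw [hcoeff] at hk
    obtain ⟨i, hi, -, -⟩ := exists_of_coeff_ini_ne_zero hk
    apply Fac_aux (z := i₀ - i)
    push_cast at hi ⊢
    linarith
  set Ψ := contract τ.den P₁ with hΨ
  have hexp : expand ℚ τ.den Ψ = P₁ := by
    ext n
    rw [coeff_expand hv]
    split_ifs with h
    · rw [hΨ, coeff_contract hv.ne', Nat.div_mul_cancel h]
    · by_contra h1
      exact h (hdvd n (fun h2 => h1 h2.symm))
  have hP' : P = X ^ j₀ * expand ℚ τ.den Ψ := by rw [hexp]; exact hP₁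
  have hΨ0 : Ψ ≠ 0 := by
    rintro h
    rw [h, map_zero, mul_zero] at hP'
    exact hP0 hP'
  have hΨc : aeval (c ^ τ.den) Ψ = 0 := by
    rw [hP', map_mul, map_pow, aeval_X, expand_aeval] at hroot
    exact (mul_eq_zero.1 hroot).resolve_left (pow_ne_zero _ hc)
  have halg : IsAlgebraic ℚ (c ^ τ.den) := ⟨Ψ, hΨ0, hΨc⟩
  have hint : IsIntegral ℚ (c ^ τ.den) := halg.isIntegral
  obtain ⟨Φ, hΦ, hnd⟩ := (finiteMultiplicity_of_degree_pos_of_monic
    (minpoly.degree_pos hint) (minpoly.monic hint) hΨ0).exists_eq_pow_mul_and_not_dvd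
  refine ⟨j₀, multiplicity (minpoly ℚ (c ^ τ.den)) Ψ, Φ, ?_, halg, ?_, ?_, ?_⟩
  · by_contra h1
    have h2 : multiplicity (minpoly ℚ (c ^ τ.den)) Ψ = 0 := by omega
    rw [h2, pow_zero, one_mul] at hΦ
    apply hnd
    rw [← hΦ]
    exact minpoly.dvd _ _ hΨc
  · exact ((minpoly.irreducible hint).coprime_iff_not_dvd.2 hnd).pow_left
  · intro h1
    exact hnd (minpoly.dvd _ _ h1)
  · rw [← hΦ]
    exact hP'

theorem fac_mult (F : Bi) (τ w : ℚ) (hτ : 1 ≤ τ) (c : ℝ) (hc : c ≠ 0) (j₀ s : ℕ)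
    (Φ : ℚ[X]) (h : FacD τ w c F j₀ s Φ) :
    ((ini τ w F).map (algebraMap ℚ ℂ)).rootMultiplicity (c : ℂ) = s := by
  obtain ⟨hs, halg, hcop, hΦ, hini⟩ := h
  obtain ⟨hqm, hq0, hq', -, -, -, -⟩ := qf_props τ hτ c hc halg
  have hv : 0 < τ.den := τ.pos
  set q := qf τ c with hq
  have hΦ0 : Φ ≠ 0 := by
    rintro rfl
    simp at hΦ
  have hini' : ini τ w F = q ^ s * (X ^ j₀ * expand ℚ τ.den Φ) := by
    rw [hini, map_mul, map_pow, hq, qf]
    ring
  have hev : ∀ g : ℚ[X], (g.map (algebraMap ℚ ℂ)).eval (c : ℂ) = ((aeval c g : ℝ) : ℂ) := by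
    intro g
    rw [eval_map_algebraMap]
    have h1 := aeval_algebraMap_apply ℂ c g
    exact h1
  have hq0' : q.map (algebraMap ℚ ℂ) ≠ 0 := (hqm.map _).ne_zero
  have hh0 : (X ^ j₀ * expand ℚ τ.den Φ).map (algebraMap ℚ ℂ) ≠ 0 := by
    rw [Polynomial.map_ne_zero_iff (algebraMap ℚ ℂ).injective]
    refine mul_ne_zero (pow_ne_zero _ X_ne_zero) ?_
    rw [Ne, expand_eq_zero hv]
    exact hΦ0
  have hmq : (q.map (algebraMap ℚ ℂ)).rootMultiplicity (c : ℂ) = 1 := by
    have h1 : 0 < (q.map (algebraMap ℚ ℂ)).rootMultiplicity (c : ℂ) := by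
      rw [rootMultiplicity_pos hq0', IsRoot.def, hev, hq0]
      simp
    have h2 : ¬ 1 < (q.map (algebraMap ℚ ℂ)).rootMultiplicity (c : ℂ) := by
      rw [one_lt_rootMultiplicity_iff_isRoot hq0']
      rintro ⟨-, h3⟩
      rw [derivative_map, IsRoot.def, hev] at h3
      exact hq' (by exact_mod_cast h3)
    omega
  have hpow : ∀ k : ℕ, ((q.map (algebraMap ℚ ℂ)) ^ k).rootMultiplicity (c : ℂ) = k := by
    intro k
    induction k with
    | zero =>
      rw [pow_zero]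
      apply rootMultiplicity_eq_zero
      rw [IsRoot.def, eval_one]
      exact one_ne_zero
    | succ k ih =>
      rw [pow_succ, rootMultiplicity_mul (mul_ne_zero (pow_ne_zero _ hq0') hq0'), ih, hmq]
  rw [hini', Polynomial.map_mul, Polynomial.map_pow,
    rootMultiplicity_mul (mul_ne_zero (pow_ne_zero _ hq0') hh0), hpow, rootMultiplicity_eq_zero]
  · rw [add_zero]
  · rw [IsRoot.def, hev, map_mul, map_pow, aeval_X, expand_aeval]
    intro h1
    have h2 : c ^ j₀ * aeval (c ^ τ.den) Φ = 0 := by exact_mod_cast h1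
    exact (mul_ne_zero (pow_ne_zero _ hc) hΦ) h2

end Pool.Agent.FPO
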