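import Pool.Agent.FPO.Api

/-!
# FPO module FuR: full subregions (diff 1)

PROOF.  `full_mono`: trivial from the definition.
`full_regA` (`τ > 1`, `c > 0`): for `x ≥ x₁ ≥ 1` and `|y - c x^τ| ≤ (c/2) x^τ`:
`y ≥ (c/2) x^τ`, and `ε₀ y ≥ ε₀ (c/2) x^τ ≥ x > 0` as soon as `x^{τ-1} ≥ 2/(ε₀ c)`, i.e.
`x ≥ x₁ = max 1 ((2/(ε₀ c))^{1/(τ-1)})`.  So `Reg τ c (c/2) x₁ ⊆ Γ₁ ε₀`.
`full_regB` (`τ < k`): for `x ≥ x₁`, `|y - c x^τ| ≤ x^τ`: `|y| ≤ (|c|+1) x^τ ≤ ε₀ x^k` as soon as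
`x^{k-τ} ≥ (|c|+1)/ε₀`, and take `x₁ ≥ max 1 x₀`.
`shear_regA` (`k ≥ 2`, `r > 0`): for `|y| ≤ (r/2) x^k`, `x ≥ x₁`: `y + r x^k ≥ (r/2) x^k ≥ x/ε₀ > 0`.
`shear_regB` (`k' < k`): `|y + r x^{k'}| ≤ (1 + |r|) x^{k'} ≤ ε₀ x^k` for `|y| ≤ x^{k'}`, `x ≥ x₁`.
-/

set_option autoImplicit false

open Polynomial

namespace Pool.Agent.FPO

private theorem FuR_ev (s M : ℝ) (hs : 0 < s) : ∃ x₁ : ℝ, 1 ≤ x₁ ∧ ∀ x : ℝ, x₁ ≤ x → M ≤ x ^ s := by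
  have h := (tendsto_rpow_atTop hs).eventually_ge_atTop M
  obtain ⟨a, ha⟩ := Filter.eventually_atTop.1 h
  exact ⟨max 1 a, le_max_left _ _, fun x hx => ha x ((le_max_right _ _).trans hx)⟩

theorem full_mono {S : Set (ℤ × ℤ)} {X₀ Y₀ : MvPolynomial (Fin 2) ℚ} {Γ Γ' : Set (ℝ × ℝ)}
    (h : Full S X₀ Y₀ Γ) (hΓ : Γ' ⊆ Γ) : Full S X₀ Y₀ Γ' := by
  obtain ⟨D, hD, hh⟩ := h
  exact ⟨D, hD, fun a b hab => hh a b (hΓ hab)⟩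

theorem regA (τ : ℚ) (hτ : 1 < τ) (c : ℝ) (hc : 0 < c) (ε₀ : ℝ) (hε₀ : 0 < ε₀) :
    ∃ ε x₁ : ℝ, 0 < ε ∧ Reg τ c ε x₁ ⊆ Γ₁ ε₀ := by
  have hτ' : (0 : ℝ) < (τ : ℝ) - 1 := by
    have h : ((1 : ℚ) : ℝ) < (τ : ℝ) := by exact_mod_cast hτ
    simpa using h
  obtain ⟨x₁, hx₁, hx⟩ := FuR_ev ((τ : ℝ) - 1) (2 / (ε₀ * c)) hτ'
  refine ⟨c / 2, x₁, by positivity, ?_⟩
  rintro ⟨x, y⟩ ⟨h1, h2⟩
  simp only at h1 h2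
  have hx0 : 0 < x := by linarith
  refine ⟨hx0, ?_⟩
  simp only
  have h3 := hx x h1
  have h4 : x ^ (τ : ℝ) = x ^ ((τ : ℝ) - 1) * x := by
    rw [Real.rpow_sub_one hx0.ne']
    field_simp
  rw [h4] at h2
  have h5 := (abs_le.1 h2).1
  have h6 : (c / 2) * (x ^ ((τ : ℝ) - 1) * x) ≤ y := by linarith
  have h7 : 2 ≤ x ^ ((τ : ℝ) - 1) * (ε₀ * c) := by
    rwa [div_le_iff₀ (by positivity)] at h3
  calc x = 2 * (x / 2) := by ring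
    _ ≤ (x ^ ((τ : ℝ) - 1) * (ε₀ * c)) * (x / 2) :=
        mul_le_mul_of_nonneg_right h7 (by positivity)
    _ = ε₀ * ((c / 2) * (x ^ ((τ : ℝ) - 1) * x)) := by ring
    _ ≤ ε₀ * y := mul_le_mul_of_nonneg_left h6 hε₀.le

theorem regB (τ : ℚ) (hτ : 1 ≤ τ) (k : ℕ) (hτk : τ < k) (c : ℝ) (ε₀ x₀ : ℝ) (hε₀ : 0 < ε₀) :
    ∃ ε x₁ : ℝ, 0 < ε ∧ Reg τ c ε x₁ ⊆ Γ₂ k ε₀ x₀ := by
  have hτ' : (0 : ℝ) < (k : ℝ) - (τ : ℝ) := by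
    have h : (τ : ℝ) < ((k : ℚ) : ℝ) := by exact_mod_cast hτk
    have h2 : ((k : ℚ) : ℝ) = (k : ℝ) := by norm_num
    rw [h2] at h
    linarith
  obtain ⟨x₁, hx₁, hx⟩ := FuR_ev ((k : ℝ) - (τ : ℝ)) ((|c| + 1) / ε₀) hτ'
  refine ⟨1, max x₁ x₀, one_pos, ?_⟩
  rintro ⟨x, y⟩ ⟨h1, h2⟩
  simp only at h1 h2
  have h1a : x₁ ≤ x := (le_max_left _ _).trans h1
  have h1b : x₀ ≤ x := (le_max_right _ _).trans h1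
  have hx0 : 0 < x := by linarith
  refine ⟨h1b, ?_⟩
  simp only
  have h3 := hx x h1a
  have hpos : 0 < x ^ (τ : ℝ) := Real.rpow_pos_of_pos hx0 _
  have h4 : x ^ k = x ^ ((k : ℝ) - (τ : ℝ)) * x ^ (τ : ℝ) := by
    rw [← Real.rpow_add hx0, sub_add_cancel, Real.rpow_natCast]
  have h5 : |y| ≤ (|c| + 1) * x ^ (τ : ℝ) := by
    have h6 : |y| ≤ |y - c * x ^ (τ : ℝ)| + |c * x ^ (τ : ℝ)| := by
      have := abs_add_le (y - c * x ^ (τ : ℝ)) (c * x ^ (τ : ℝ))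
      simpa using this
    rw [abs_mul, abs_of_pos hpos] at h6
    linarith
  have h7 : |c| + 1 ≤ x ^ ((k : ℝ) - (τ : ℝ)) * ε₀ := by
    rwa [div_le_iff₀ hε₀] at h3
  rw [h4]
  calc |y| ≤ (|c| + 1) * x ^ (τ : ℝ) := h5
    _ ≤ (x ^ ((k : ℝ) - (τ : ℝ)) * ε₀) * x ^ (τ : ℝ) := mul_le_mul_of_nonneg_right h7 hpos.le
    _ = ε₀ * (x ^ ((k : ℝ) - (τ : ℝ)) * x ^ (τ : ℝ)) := by ring

theorem shear_regA (k : ℕ) (hk : 2 ≤ k) (r : ℚ) (hr : 0 < r) (ε₀ : ℝ) (hε₀ : 0 < ε₀) :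
    ∃ ε x₁ : ℝ, 0 < ε ∧ ∀ x y : ℝ, (x, y) ∈ Γ₂ k ε x₁ → (x, y + r * x ^ k) ∈ Γ₁ ε₀ := by
  have hr' : (0 : ℝ) < (r : ℝ) := by exact_mod_cast hr
  refine ⟨(r : ℝ) / 2, max 1 (2 / (ε₀ * r)), by positivity, ?_⟩
  rintro x y ⟨h1, h2⟩
  simp only at h1 h2
  have h1a : 1 ≤ x := (le_max_left _ _).trans h1
  have h1b : 2 / (ε₀ * r) ≤ x := (le_max_right _ _).trans h1
  have hx0 : 0 < x := by linarith
  refine ⟨hx0, ?_⟩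
  simp only
  have h3 := (abs_le.1 h2).1
  have h4 : x ^ 2 ≤ x ^ k := pow_le_pow_right₀ h1a hk
  have h5 : 2 ≤ x * (ε₀ * r) := by rwa [div_le_iff₀ (by positivity)] at h1b
  have h6 : (r : ℝ) / 2 * x ^ k ≤ y + r * x ^ k := by linarith
  calc x = 2 * (x / 2) := by ring
    _ ≤ (x * (ε₀ * r)) * (x / 2) := mul_le_mul_of_nonneg_right h5 (by positivity)
    _ = ε₀ * ((r : ℝ) / 2 * x ^ 2) := by ring
    _ ≤ ε₀ * ((r : ℝ) / 2 * x ^ k) := by gcongr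
    _ ≤ ε₀ * (y + r * x ^ k) := mul_le_mul_of_nonneg_left h6 hε₀.le

theorem shear_regB (k k' : ℕ) (hk' : 1 ≤ k') (hk : k' < k) (r : ℚ) (ε₀ x₀ : ℝ) (hε₀ : 0 < ε₀) :
    ∃ ε x₁ : ℝ, 0 < ε ∧ ∀ x y : ℝ, (x, y) ∈ Γ₂ k' ε x₁ → (x, y + r * x ^ k') ∈ Γ₂ k ε₀ x₀ := by
  refine ⟨1, max (max 1 x₀) ((1 + |(r : ℝ)|) / ε₀), one_pos, ?_⟩
  rintro x y ⟨h1, h2⟩
  simp only at h1 h2
  have h1a : 1 ≤ x := (le_max_left _ _).trans ((le_max_left _ _).trans h1)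
  have h1b : x₀ ≤ x := (le_max_right _ _).trans ((le_max_left _ _).trans h1)
  have h1c : (1 + |(r : ℝ)|) / ε₀ ≤ x := (le_max_right _ _).trans h1
  have hx0 : 0 < x := by linarith
  refine ⟨h1b, ?_⟩
  simp only
  have hpos : 0 < x ^ k' := by positivity
  have h4 : x ^ k' * x ≤ x ^ k := by
    rw [← pow_succ]
    exact pow_le_pow_right₀ h1a hk
  have h5 : 1 + |(r : ℝ)| ≤ x * ε₀ := by rwa [div_le_iff₀ hε₀] at h1c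
  have h6 : |y + r * x ^ k'| ≤ (1 + |(r : ℝ)|) * x ^ k' := by
    have h7 := abs_add_le y (r * x ^ k')
    rw [abs_mul, abs_of_pos hpos] at h7
    linarith
  calc |y + r * x ^ k'| ≤ (1 + |(r : ℝ)|) * x ^ k' := h6
    _ ≤ (x * ε₀) * x ^ k' := mul_le_mul_of_nonneg_right h5 hpos.le
    _ = ε₀ * (x ^ k' * x) := by ring
    _ ≤ ε₀ * x ^ k := mul_le_mul_of_nonneg_left h4 hε₀.le

end Pool.Agent.FPO
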