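import Pool.Agent.FPO.LaA

/-!
# FPO module GHeA: homogeneous Bezout decomposition (diff 2)

PROOF.  Let `a g₁ + b g₂ = 1`.  Put `δ₁' = (E * b) %ₘ g₁` (degree in `y` `< M`) and
`Q = (E * b) /ₘ g₁`, so `E b = δ₁' + g₁ Q` (`modByMonic_add_div`) and
`E = E a g₁ + E b g₂ = g₁ (E a + g₂ Q) + g₂ δ₁'`.  With `δ₂' = E a + g₂ Q`:
`E = g₁ δ₂' + g₂ δ₁'`.  Take homogeneous components of weight `w'` (`lproj τ w'`; `E` is homogeneous of
weight `w'`, so `lproj τ w' E = E`, by `lcf_lproj` and `la_ext`), using `lproj_hom_mul`: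
`E = g₁ * lproj τ (w' - τM) δ₂' + g₂ * lproj τ (w' - w₂) δ₁'`.  Put
`δ₂ = lproj τ (w' - τ M) δ₂'`, `δ₁ = lproj τ (w' - w₂) δ₁'`.  They are homogeneous by `lcf_lproj`.
The coefficient of `y^j` in `δ₁` vanishes for `j ≥ M` because that of `δ₁'` does (`lcf_lproj`;
`degree_modByMonic_lt`).
(`lproj` is additive: `la_ext` and `lcf_lproj`.)
-/

set_option autoImplicit false

open Polynomial

namespace Pool.Agent.FPO

theorem GHeA.lproj_add (τ w : ℚ) (F G : LA) : lproj τ w (F + G) = lproj τ w F + lproj τ w G := by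
  refine la_ext fun i j => ?_
  rw [lcf_add, lcf_lproj, lcf_lproj, lcf_lproj, lcf_add]
  split_ifs <;> simp

theorem GHeA.lproj_self {τ w : ℚ} {F : LA} (hF : LHom τ w F) : lproj τ w F = F := by
  refine la_ext fun i j => ?_
  rw [lcf_lproj]
  split_ifs with h
  · rfl
  · by_contra h1
    exact h (hF i j (fun h2 => h1 h2.symm))

theorem GHeA.lhom_lproj (τ w : ℚ) (F : LA) : LHom τ w (lproj τ w F) := by
  intro i j h
  rw [lcf_lproj] at h
  by_contra h1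
  rw [if_neg h1] at h
  exact h rfl

theorem ghea (τ : ℚ) (g₁ g₂ E : LA) (M : ℕ) (w₂ w' : ℚ) (hg₁ : g₁.Monic) (hM : g₁.natDegree = M)
    (h1 : LHom τ (τ * M) g₁) (h2 : LHom τ w₂ g₂) (hcop : IsCoprime g₁ g₂) (hE : LHom τ w' E) :
    ∃ δ₁ δ₂ : LA, LHom τ (w' - w₂) δ₁ ∧ LHom τ (w' - τ * M) δ₂ ∧ (∀ j, M ≤ j → δ₁.coeff j = 0) ∧
      E = g₁ * δ₂ + g₂ * δ₁ := by
  obtain ⟨a, b, hab⟩ := hcop
  have hQ := modByMonic_add_div (E * b) g₁
  have hE1 : E = g₁ * (E * a + g₂ * ((E * b) /ₘ g₁)) + g₂ * ((E * b) %ₘ g₁) := by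
    calc E = E * (a * g₁ + b * g₂) := by rw [hab, mul_one]
      _ = g₁ * (E * a) + g₂ * (E * b) := by ring
      _ = g₁ * (E * a) + g₂ * ((E * b) %ₘ g₁ + g₁ * ((E * b) /ₘ g₁)) := by rw [hQ]
      _ = _ := by ring
  refine ⟨lproj τ (w' - w₂) ((E * b) %ₘ g₁), lproj τ (w' - τ * M) (E * a + g₂ * ((E * b) /ₘ g₁)),
    GHeA.lhom_lproj _ _ _, GHeA.lhom_lproj _ _ _, ?_, ?_⟩
  · intro j hj
    ext i
    have h3 : lcf (lproj τ (w' - w₂) ((E * b) %ₘ g₁)) i j = 0 := by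
      rw [lcf_lproj]
      have h4 : ((E * b) %ₘ g₁).coeff j = 0 := by
        refine coeff_eq_zero_of_degree_lt ((degree_modByMonic_lt _ hg₁).trans_le ?_)
        rw [degree_eq_natDegree hg₁.ne_zero, hM]
        exact_mod_cast hj
      split_ifs
      · rw [lcf, h4]; rfl
      · rfl
    exact h3
  · have h5 := congrArg (lproj τ w') hE1
    rw [GHeA.lproj_self hE, GHeA.lproj_add, lproj_hom_mul h1, lproj_hom_mul h2] at h5
    exact h5

end Pool.Agent.FPO
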