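import Pool.Agent.FPO.GHeA

/-!
# FPO module GHen: Hensel lemma for weights (diff 3)

Let `v = τ.den`.  All weights `i + τ j` of monomials lie in `(1/v) ℤ`, as do `τ M` and `w₂`, hence:
(GAP) if `w ∈ (1/v)ℤ`, `LWLe τ w G`, and `lproj τ w G = 0` then `LWLe τ (w - 1/v) G`; also if all
weights of `G` are `< w` (e.g. `LWLe τ (w - ε) G`, `ε > 0`) then `LWLe τ (w - 1/v) G`.

PROOF.  By induction on `n ≥ 1` construct `G₁, G₂` with `G₁` monic of degree `M`,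
`LWLe τ (τM - 1/v) (G₁ - g₁)`, `LWLe τ (w₂ - 1/v) (G₂ - g₂)`,
`LWLe τ (τM + w₂ - n/v) (F - G₁ G₂)`.
`n = 1`: `G₁ = g₁`, `G₂ = g₂` (GAP).
Step: let `w' = τM + w₂ - n/v`, `E = lproj τ w' (F - G₁ G₂)` (homogeneous of weight `w'`), and take
`δ₁, δ₂` from `ghea`.  Put `G₁' = G₁ + δ₁`, `G₂' = G₂ + δ₂`.
`G₁'` is monic of degree `M` (`δ₁` has degree `< M`), `δ₁` has weight `w' - w₂ = τM - n/v ≤ τM - 1/v`,
`δ₂` has weight `w' - τM = w₂ - n/v`.  And
`F - G₁'G₂' = (F - G₁G₂ - E) + (g₁ - G₁) δ₂ + (g₂ - G₂) δ₁ - δ₁ δ₂`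
(expand, `E = g₁δ₂ + g₂δ₁`).  The first summand has weights `≤ w'` and no component of weight `w'`, so
`≤ w' - 1/v` (GAP); the second `≤ (τM - 1/v) + (w' - τM) = w' - 1/v`, the third similarly (`lwle_mul`);
the last has weight `(w' - w₂) + (w' - τM) = w' - n/v ≤ w' - 1/v`.
Finally choose `n` with `τM + w₂ - n/v ≤ -K`.  `LWLe τ (τM) G₁` since `G₁ = g₁ + (G₁ - g₁)`.
-/

set_option autoImplicit false

open Polynomial

namespace Pool.Agent.FPO

namespace GHen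

theorem gap (τ w : ℚ) (hw : ∃ n : ℤ, (n : ℚ) = τ.den * w) (G : LA)
    (h : ∀ (i : ℤ) (j : ℕ), lcf G i j ≠ 0 → (i : ℚ) + τ * j < w) :
    LWLe τ (w - 1 / τ.den) G := by
  intro i j hij
  have h1 := h i j hij
  obtain ⟨n, hn⟩ := hw
  have hv : (0 : ℚ) < τ.den := by exact_mod_cast τ.den_pos
  have hτ : (τ.den : ℚ) * τ = τ.num := by
    rw [mul_comm]
    exact Rat.mul_den_eq_num τ
  have h2 : ((τ.den * i + τ.num * j : ℤ) : ℚ) < (n : ℤ) := by
    push_cast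
    rw [hn]
    have h3 := mul_lt_mul_of_pos_left h1 hv
    calc (τ.den : ℚ) * i + τ.num * j = τ.den * (i + τ * j) := by rw [← hτ]; ring
      _ < τ.den * w := h3
  have h3 : (τ.den * i + τ.num * j : ℤ) ≤ n - 1 := by
    have : (τ.den * i + τ.num * j : ℤ) < n := by exact_mod_cast h2
    omega
  have h4 : ((τ.den * i + τ.num * j : ℤ) : ℚ) ≤ ((n - 1 : ℤ) : ℚ) := by exact_mod_cast h3
  push_cast at h4
  rw [hn] at h4
  have h5 : (τ.den : ℚ) * (i + τ * j) ≤ τ.den * (w - 1 / τ.den) := by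
    calc (τ.den : ℚ) * (i + τ * j) = (τ.den : ℚ) * i + τ.num * j := by rw [← hτ]; ring
      _ ≤ τ.den * w - 1 := h4
      _ = τ.den * (w - 1 / τ.den) := by field_simp
  exact le_of_mul_le_mul_left h5 hv

theorem lwle_add {τ w : ℚ} {F G : LA} (hF : LWLe τ w F) (hG : LWLe τ w G) :
    LWLe τ w (F + G) := by
  intro i j h
  rw [lcf_add] at h
  by_cases h1 : lcf F i j = 0
  · rw [h1, zero_add] at h
    exact hG i j h
  · exact hF i j h1

theorem lwle_neg {τ w : ℚ} {F : LA} (hF : LWLe τ w F) : LWLe τ w (-F) := by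
  intro i j h
  apply hF i j
  intro h1
  apply h
  have h2 : lcf (-F) i j = lcf (0 - F) i j := by rw [zero_sub]
  rw [h2, lcf_sub, h1, lcf_zero, sub_zero]

theorem lwle_mono {τ w w' : ℚ} {F : LA} (h : w ≤ w') (hF : LWLe τ w F) : LWLe τ w' F :=
  fun i j hij => (hF i j hij).trans h

theorem lwle_of_hom {τ w : ℚ} {F : LA} (hF : LHom τ w F) : LWLe τ w F :=
  fun i j hij => (hF i j hij).le

theorem step (τ : ℚ) (F g₁ g₂ : LA) (M : ℕ) (w₂ : ℚ) (hg₁ : g₁.Monic) (hM : g₁.natDegree = M)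
    (h1 : LHom τ (τ * M) g₁) (h2 : LHom τ w₂ g₂) (hw₂ : ∃ n : ℤ, (n : ℚ) = τ.den * w₂)
    (hcop : IsCoprime g₁ g₂) (hF : ∃ ε : ℚ, 0 < ε ∧ LWLe τ (τ * M + w₂ - ε) (F - g₁ * g₂))
    (n : ℕ) : ∃ G₁ G₂ : LA, G₁.Monic ∧ G₁.natDegree = M ∧
      LWLe τ (τ * M - 1 / τ.den) (G₁ - g₁) ∧ LWLe τ (w₂ - 1 / τ.den) (G₂ - g₂) ∧
      LWLe τ (τ * M + w₂ - (n + 1 : ℕ) / τ.den) (F - G₁ * G₂) := by
  have hv : (0 : ℚ) < τ.den := by exact_mod_cast τ.den_pos
  have hτ : (τ.den : ℚ) * τ = τ.num := by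
    rw [mul_comm]
    exact Rat.mul_den_eq_num τ
  obtain ⟨m₂, hm₂⟩ := hw₂
  induction n with
  | zero =>
    refine ⟨g₁, g₂, hg₁, hM, ?_, ?_, ?_⟩
    · rw [sub_self]
      intro i j h
      exact absurd (lcf_zero i j) h
    · rw [sub_self]
      intro i j h
      exact absurd (lcf_zero i j) h
    · have h3 : (((0 : ℕ) + 1 : ℕ) : ℚ) = 1 := by norm_num
      rw [h3]
      apply gap
      · refine ⟨τ.num * M + m₂, ?_⟩
        push_cast
        rw [hm₂, ← hτ]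
        ring
      · intro i j hij
        obtain ⟨ε, hε, hF⟩ := hF
        have := hF i j hij
        linarith
  | succ n ih =>
    obtain ⟨G₁, G₂, hG₁, hG₁M, k1, k2, k3⟩ := ih
    set w' : ℚ := τ * M + w₂ - (n + 1 : ℕ) / τ.den with hw'
    have hn1 : (1 : ℚ) / τ.den ≤ (n + 1 : ℕ) / τ.den := by
      apply div_le_div_of_nonneg_right _ hv.le
      push_cast
      have : (0 : ℚ) ≤ n := Nat.cast_nonneg n
      linarith
    have hE : LHom τ w' (lproj τ w' (F - G₁ * G₂)) := by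
      intro i j hij
      rw [lcf_lproj] at hij
      by_contra hne
      rw [if_neg hne] at hij
      exact hij rfl
    obtain ⟨δ₁, δ₂, e1, e2, e3, e4⟩ := ghea τ g₁ g₂ _ M w₂ w' hg₁ hM h1 h2 hcop hE
    have hdeg : δ₁.degree < G₁.degree := by
      rw [degree_eq_natDegree hG₁.ne_zero, hG₁M]
      exact (degree_lt_iff_coeff_zero δ₁ M).2 e3
    have q1 : LWLe τ (τ * M - 1 / τ.den) δ₁ := by
      apply lwle_mono _ (lwle_of_hom e1)
      rw [hw']
      linarith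
    have q2 : LWLe τ (w₂ - 1 / τ.den) δ₂ := by
      apply lwle_mono _ (lwle_of_hom e2)
      rw [hw']
      linarith
    refine ⟨G₁ + δ₁, G₂ + δ₂, hG₁.add_of_left hdeg, ?_, ?_, ?_, ?_⟩
    · rw [natDegree_eq_of_degree_eq (degree_add_eq_left_of_degree_lt hdeg), hG₁M]
    · have h4 : G₁ + δ₁ - g₁ = (G₁ - g₁) + δ₁ := by ring
      rw [h4]
      exact lwle_add k1 q1
    · have h4 : G₂ + δ₂ - g₂ = (G₂ - g₂) + δ₂ := by ring
      rw [h4]
      exact lwle_add k2 q2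
    · have h4 : F - (G₁ + δ₁) * (G₂ + δ₂) =
          (((F - G₁ * G₂ - lproj τ w' (F - G₁ * G₂)) + -((G₁ - g₁) * δ₂)) +
            -((G₂ - g₂) * δ₁)) + -(δ₁ * δ₂) := by
        rw [e4]
        ring
      have h5 : τ * M + w₂ - (n + 1 + 1 : ℕ) / τ.den = w' - 1 / τ.den := by
        rw [hw']
        push_cast
        ring
      rw [h4, h5]
      refine lwle_add (lwle_add (lwle_add ?_ (lwle_neg ?_)) (lwle_neg ?_)) (lwle_neg ?_)
      · apply gap
        · refine ⟨τ.num * M + m₂ - (n + 1 : ℕ), ?_⟩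
          rw [hw']
          push_cast
          rw [hm₂, ← hτ]
          field_simp
        · intro i j hij
          rw [lcf_sub, lcf_lproj] at hij
          by_cases h6 : (i : ℚ) + τ * j = w'
          · rw [if_pos h6, sub_self] at hij
            exact absurd rfl hij
          · rw [if_neg h6, sub_zero] at hij
            exact lt_of_le_of_ne (k3 i j hij) h6
      · have h6 := lwle_mul k1 (lwle_of_hom e2)
        apply lwle_mono _ h6
        linarith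
      · have h6 := lwle_mul k2 (lwle_of_hom e1)
        apply lwle_mono _ h6
        linarith
      · have h6 := lwle_mul (lwle_of_hom e1) (lwle_of_hom e2)
        apply lwle_mono _ h6
        linarith

end GHen

open GHen in
theorem ghen (τ : ℚ) (F g₁ g₂ : LA) (M : ℕ) (w₂ : ℚ) (hg₁ : g₁.Monic) (hM : g₁.natDegree = M)
    (h1 : LHom τ (τ * M) g₁) (h2 : LHom τ w₂ g₂) (hw₂ : ∃ n : ℤ, (n : ℚ) = τ.den * w₂)
    (hcop : IsCoprime g₁ g₂) (hF : ∃ ε : ℚ, 0 < ε ∧ LWLe τ (τ * M + w₂ - ε) (F - g₁ * g₂))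
    (K : ℚ) :
    ∃ G₁ G₂ : LA, G₁.Monic ∧ G₁.natDegree = M ∧ LWLe τ (τ * M) G₁ ∧
      (∃ ε : ℚ, 0 < ε ∧ LWLe τ (w₂ - ε) (G₂ - g₂)) ∧ LWLe τ (-K) (F - G₁ * G₂) := by
  have hv : (0 : ℚ) < τ.den := by exact_mod_cast τ.den_pos
  obtain ⟨n, hn⟩ := exists_nat_ge (τ.den * (τ * M + w₂ + K))
  obtain ⟨G₁, G₂, k1, k2, k3, k4, k5⟩ := step τ F g₁ g₂ M w₂ hg₁ hM h1 h2 hw₂ hcop hF n
  have hpos : (0 : ℚ) < 1 / τ.den := by positivity
  refine ⟨G₁, G₂, k1, k2, ?_, ⟨1 / τ.den, hpos, k4⟩, ?_⟩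
  · have h3 : G₁ = g₁ + (G₁ - g₁) := by ring
    rw [h3]
    apply lwle_add (lwle_of_hom h1)
    exact lwle_mono (by linarith) k3
  · apply lwle_mono _ k5
    have h3 : τ * M + w₂ + K ≤ (n + 1 : ℕ) / τ.den := by
      rw [le_div_iff₀ hv]
      push_cast
      linarith
    linarith

end Pool.Agent.FPO
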