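import Pool.Agent.FPO.Api

/-!
# FPO module Hens: lifting a coprime factorization modulo `t^N` (diff 2)

PROOF.  By induction on `N ≥ 1` (the case `N = 0` follows from `N = 1`) prove the stronger statement
with the additional conclusions `G.map ev₀ = g`, `H.map ev₀ = h`
(`ev₀ = evalRingHom 0 : k[X] →+* k`).
`N = 1`: `G = g.map C`, `H = h.map C`; every coefficient of `f - G * H` is killed by `ev₀`
(`Polynomial.X_dvd_iff`, `coeff_zero_eq_eval_zero`).
Step `N → N+1` (`N ≥ 1`).  Write `(f - G * H).coeff j = X^N * r_j` and let `R` be the polynomial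
with coefficients `r_j` (a finite sum `∑ j ∈ range (deg f + 1), C (r_j) * X^j`), so
`f - G * H = C (X^N) * R`.  Put `e := R.map ev₀`.  Since `f` and `G * H` are monic of the same degree
`d = deg g + deg h` (`Monic.natDegree_map`), `deg e < d`.
From `a * g + b * h = 1` put `u := (e * b) %ₘ g` (degree `< deg g`); then `g ∣ e - h * u`
(`e - h u = e (a g + b h) - h (e b - g * ((e b) /ₘ g)) = g * (...)`), so `e - h * u = g * v`, and
`deg v < deg h` because `deg (g v) = deg (e - h u) < d`.
Put `G' = G + C (X^N) * u.map C`, `H' = H + C (X^N) * v.map C`.  They are monic of the right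
degrees (`degree_add_eq_left_of_degree_lt`, `Monic.add_of_left`), reduce to `g, h`, and
`f - G' H' = C (X^N) * (R - G * v.map C - H * u.map C) - C (X^(2N)) * u.map C * v.map C`,
where `(R - G v - H u).map ev₀ = e - g v - h u = 0`, so all its coefficients are divisible by `X`.
-/

set_option autoImplicit false

open Polynomial

namespace Pool.Agent.FPO

namespace Hens

theorem dvd_of_map {k : Type*} [Field k] (P : k[X][X]) (h : P.map (evalRingHom (0 : k)) = 0) :
    C (X : k[X]) ∣ P := by
  rw [C_dvd_iff_dvd_coeff]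
  intro i
  have h1 := congrArg (fun q => q.coeff i) h
  simp only [coeff_map, coeff_zero, coe_evalRingHom] at h1
  rw [X_dvd_iff, coeff_zero_eq_eval_zero]
  exact h1

theorem step {k : Type*} [Field k] (f : k[X][X]) (hf : f.Monic) (g h : k[X]) (hg : g.Monic)
    (hh : h.Monic) (hc : IsCoprime g h) (hfgh : f.map (evalRingHom (0 : k)) = g * h) (N : ℕ)
    (hN : 1 ≤ N) (G H : k[X][X]) (hG : G.Monic) (hH : H.Monic)
    (hGg : G.map (evalRingHom (0 : k)) = g) (hHh : H.map (evalRingHom (0 : k)) = h)
    (hd : C ((X : k[X]) ^ N) ∣ f - G * H) :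
    ∃ G' H' : k[X][X], G'.Monic ∧ H'.Monic ∧ G'.map (evalRingHom (0 : k)) = g ∧
      H'.map (evalRingHom (0 : k)) = h ∧ C ((X : k[X]) ^ (N + 1)) ∣ f - G' * H' := by
  obtain ⟨R, hR⟩ := hd
  obtain ⟨a, b, hab⟩ := hc
  have hdG : G.degree = g.degree := by
    rw [← hGg, hG.degree_map]
  have hdH : H.degree = h.degree := by
    rw [← hHh, hH.degree_map]
  have hdf : f.degree = g.degree + h.degree := by
    rw [← degree_mul, ← hfgh, hf.degree_map]
  have hXN : (X : k[X]) ^ N ≠ 0 := pow_ne_zero _ X_ne_zero
  have hdR : R.degree < g.degree + h.degree := by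
    have h1 : (f - G * H).degree < f.degree := by
      apply degree_sub_lt
      · rw [hdf, degree_mul, hdG, hdH]
      · exact hf.ne_zero
      · rw [hf.leadingCoeff, (hG.mul hH).leadingCoeff]
    rw [hR, degree_C_mul hXN, hdf] at h1
    exact h1
  set e : k[X] := R.map (evalRingHom (0 : k)) with he
  have hde : e.degree < g.degree + h.degree := lt_of_le_of_lt degree_map_le hdR
  set u : k[X] := (e * b) %ₘ g with hu
  set q : k[X] := (e * b) /ₘ g with hq
  set v : k[X] := e * a + h * q with hv
  have huq : u + g * q = e * b := modByMonic_add_div (e * b) g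
  have hgv : g * v = e - h * u := by
    have h1 : u = e * b - g * q := by rw [← huq]; ring
    have h2 : e = e * (a * g + b * h) := by rw [hab, mul_one]
    calc g * v = g * (e * a + h * q) := rfl
      _ = e * (a * g + b * h) - h * (e * b - g * q) := by ring
      _ = e - h * u := by rw [hab, mul_one, ← h1]
  have hdu : u.degree < g.degree := degree_modByMonic_lt _ hg
  have hgbot : g.degree ≠ ⊥ := fun h => hg.ne_zero (degree_eq_bot.1 h)
  have hhbot : h.degree ≠ ⊥ := fun h' => hh.ne_zero (degree_eq_bot.1 h')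
  have hdv : v.degree < h.degree := by
    have h1 : (g * v).degree < g.degree + h.degree := by
      rw [hgv]
      refine lt_of_le_of_lt (degree_sub_le _ _) (max_lt hde ?_)
      rw [degree_mul, add_comm]
      exact WithBot.add_lt_add_right hhbot hdu
    rw [degree_mul] at h1
    exact lt_of_add_lt_add_left h1
  have hdu' : (C ((X : k[X]) ^ N) * u.map C).degree < G.degree := by
    rw [degree_C_mul hXN, hdG]
    exact lt_of_le_of_lt degree_map_le hdu
  have hdv' : (C ((X : k[X]) ^ N) * v.map C).degree < H.degree := by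
    rw [degree_C_mul hXN, hdH]
    exact lt_of_le_of_lt degree_map_le hdv
  have hmapC : ∀ w : k[X], (w.map C).map (evalRingHom (0 : k)) = w := by
    intro w
    rw [map_map]
    have : (evalRingHom (0 : k)).comp C = RingHom.id k := by
      ext x
      simp
    rw [this, map_id]
  have hXm : (evalRingHom (0 : k)) ((X : k[X]) ^ N) = 0 := by
    simp only [coe_evalRingHom, eval_pow, eval_X]
    exact zero_pow (by omega)
  have hmN : ∀ w : k[X][X], (C ((X : k[X]) ^ N) * w).map (evalRingHom (0 : k)) = 0 := by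
    intro w
    rw [Polynomial.map_mul, map_C, hXm, C_0, zero_mul]
  refine ⟨G + C ((X : k[X]) ^ N) * u.map C, H + C ((X : k[X]) ^ N) * v.map C,
    hG.add_of_left hdu', hH.add_of_left hdv', ?_, ?_, ?_⟩
  · rw [Polynomial.map_add, hmN, hGg, add_zero]
  · rw [Polynomial.map_add, hmN, hHh, add_zero]
  · have h3 : f - (G + C ((X : k[X]) ^ N) * u.map C) * (H + C ((X : k[X]) ^ N) * v.map C) =
        C ((X : k[X]) ^ N) * (R - G * v.map C - H * u.map C -
          C ((X : k[X]) ^ N) * (u.map C * v.map C)) := by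
      have : f = C ((X : k[X]) ^ N) * R + G * H := by rw [← hR]; ring
      rw [this]
      ring
    rw [h3, pow_succ, C_mul]
    apply mul_dvd_mul_left
    apply dvd_of_map
    rw [Polynomial.map_sub, hmN, Polynomial.map_sub, Polynomial.map_sub, Polynomial.map_mul,
      Polynomial.map_mul, hmapC, hmapC, hGg, hHh, ← he, hgv]
    ring

theorem main {k : Type*} [Field k] (f : k[X][X]) (hf : f.Monic) (g h : k[X]) (hg : g.Monic)
    (hh : h.Monic) (hc : IsCoprime g h) (hfgh : f.map (evalRingHom (0 : k)) = g * h) (N : ℕ) :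
    ∃ G H : k[X][X], G.Monic ∧ H.Monic ∧ G.map (evalRingHom (0 : k)) = g ∧
      H.map (evalRingHom (0 : k)) = h ∧ C ((X : k[X]) ^ (N + 1)) ∣ f - G * H := by
  induction N with
  | zero =>
    have hmapC : ∀ w : k[X], (w.map C).map (evalRingHom (0 : k)) = w := by
      intro w
      rw [map_map]
      have : (evalRingHom (0 : k)).comp C = RingHom.id k := by
        ext x
        simp
      rw [this, map_id]
    refine ⟨g.map C, h.map C, hg.map C, hh.map C, hmapC g, hmapC h, ?_⟩
    rw [zero_add, pow_one]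
    apply dvd_of_map
    rw [Polynomial.map_sub, Polynomial.map_mul, hmapC, hmapC, hfgh, sub_self]
  | succ N ih =>
    obtain ⟨G, H, hG, hH, hGg, hHh, hd⟩ := ih
    exact step f hf g h hg hh hc hfgh (N + 1) (by omega) G H hG hH hGg hHh hd

end Hens

theorem hens {k : Type*} [Field k] (f : k[X][X]) (hf : f.Monic) (g h : k[X]) (hg : g.Monic)
    (hh : h.Monic) (hc : IsCoprime g h) (hfgh : f.map (evalRingHom (0 : k)) = g * h) (N : ℕ) :
    ∃ G H : k[X][X], G.Monic ∧ H.Monic ∧ G.natDegree = g.natDegree ∧ H.natDegree = h.natDegree ∧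
      ∀ j, (X : k[X]) ^ N ∣ (f - G * H).coeff j := by
  obtain ⟨G, H, hG, hH, hGg, hHh, hd⟩ := Hens.main f hf g h hg hh hc hfgh N
  refine ⟨G, H, hG, hH, ?_, ?_, fun j => ?_⟩
  · rw [← hGg, hG.natDegree_map]
  · rw [← hHh, hH.natDegree_map]
  · rw [C_dvd_iff_dvd_coeff] at hd
    exact (pow_dvd_pow _ (Nat.le_succ N)).trans (hd j)

end Pool.Agent.FPO
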