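import Pool.Agent.FPO.Api

/-!
# FPO module LaA: weights and homogeneous components of Laurent polynomials (diff 2)

`lcf G i j = (G.coeff j).coeff i`.

PROOF.  `lcf_lproj`: `coeff` of the sum of `C a_j * X^j` (`a_j` the filtered coefficient; for
`j > natDegree` both sides are `0`), `Finsupp.filter_apply`.
`exists_of_lcf_mul_ne_zero`: `(F * G).coeff j = ∑_{antidiagonal} F.coeff j₁ * G.coeff j₂`, so for
some `(j₁, j₂)` the coefficient of `T^i` in `F.coeff j₁ * G.coeff j₂` is nonzero, and the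
coefficient of a product in `ℚ[T;T⁻¹]` is a sum of products (`AddMonoidAlgebra.coeff_mul`,
`AddMonoidAlgebra.mul_apply`-type lemma, or `AddMonoidAlgebra.support_mul`:
`(a*b).support ⊆ a.support + b.support`).
`lwle_mul`, `lhom_mul`: immediate from it (`i + τ j = (i₁ + τ j₁) + (i₂ + τ j₂)`).
`lproj_hom_mul`: both sides are additive in `P`; write `P = ∑` of the homogeneous components
`lproj τ w' P`, `w'` in the finite set of weights of `P`; `g * lproj τ w' P` is homogeneous of weight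
`v + w'` (`lhom_mul`), so its component of weight `w` is itself if `w' = w - v` and `0` otherwise.
(Alternatively reduce to a monomial `P = C (C q * T i') * X^{j'}`, for which
`lcf (g * P) i j = if j' ≤ j then q * lcf g (i - i') (j - j') else 0`.)
-/

set_option autoImplicit false

open Polynomial

namespace Pool.Agent.FPO

theorem lcf_lproj (τ w : ℚ) (G : LA) (i : ℤ) (j : ℕ) :
    lcf (lproj τ w G) i j = if (i : ℚ) + τ * j = w then lcf G i j else 0 := by
  classical
  have h1 : (lproj τ w G).coeff j = AddMonoidAlgebra.ofCoeff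
      ((G.coeff j).coeff.filter fun i : ℤ => (i : ℚ) + τ * j = w) := by
    rw [lproj, finsetSum_coeff]
    simp only [coeff_C_mul, coeff_X_pow]
    by_cases hj : j ≤ G.natDegree
    · rw [Finset.sum_eq_single j]
      · simp
      · intro l _ hl
        rw [if_neg (Ne.symm hl), mul_zero]
      · intro h
        exact absurd (Finset.mem_range.2 (Nat.lt_succ_of_le hj)) h
    · rw [Finset.sum_eq_zero]
      · rw [coeff_eq_zero_of_natDegree_lt (not_le.1 hj)]
        ext k
        simp [Finsupp.filter_apply]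
      · intro l hl
        rw [if_neg, mul_zero]
        rintro rfl
        rw [Finset.mem_range] at hl
        omega
  rw [lcf, h1]
  simp only [Finsupp.filter_apply, lcf]

private theorem LaA_sum {ι : Type*} (S : Finset ι) (f : ι → LaurentPolynomial ℚ) (i : ℤ)
    (h : ∀ a ∈ S, (f a).coeff i = 0) : (∑ a ∈ S, f a).coeff i = 0 := by
  classical
  induction S using Finset.induction_on with
  | empty => simp
  | insert a S ha ih =>
    rw [Finset.sum_insert ha, AddMonoidAlgebra.coeff_add, Finsupp.add_apply,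
      h a (Finset.mem_insert_self a S), ih (fun b hb => h b (Finset.mem_insert_of_mem hb)),
      add_zero]

theorem exists_of_lcf_mul_ne_zero {F G : LA} {i : ℤ} {j : ℕ} (h : lcf (F * G) i j ≠ 0) :
    ∃ (i₁ i₂ : ℤ) (j₁ j₂ : ℕ), i₁ + i₂ = i ∧ j₁ + j₂ = j ∧ lcf F i₁ j₁ ≠ 0 ∧ lcf G i₂ j₂ ≠ 0 := by
  classical
  rw [lcf, coeff_mul] at h
  have h1 : ∃ a ∈ Finset.HasAntidiagonal.antidiagonal j, (F.coeff a.1 * G.coeff a.2).coeff i ≠ 0 := by
    by_contra hcon
    push Not at hcon
    exact h (LaA_sum _ _ i hcon)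
  obtain ⟨⟨j₁, j₂⟩, hj, h2⟩ := h1
  rw [Finset.HasAntidiagonal.mem_antidiagonal] at hj
  simp only at hj h2
  rw [AddMonoidAlgebra.coeff_mul, Finsupp.sum] at h2
  obtain ⟨i₁, -, h3⟩ := Finset.exists_ne_zero_of_sum_ne_zero h2
  rw [Finsupp.sum] at h3
  obtain ⟨i₂, -, h4⟩ := Finset.exists_ne_zero_of_sum_ne_zero h3
  have h5 : i₁ + i₂ = i := by
    by_contra h6
    rw [if_neg h6] at h4
    exact h4 rfl
  rw [if_pos h5] at h4
  exact ⟨i₁, i₂, j₁, j₂, h5, hj, left_ne_zero_of_mul h4, right_ne_zero_of_mul h4⟩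

theorem lwle_mul {τ w₁ w₂ : ℚ} {F G : LA} (hF : LWLe τ w₁ F) (hG : LWLe τ w₂ G) :
    LWLe τ (w₁ + w₂) (F * G) := by
  intro i j h
  obtain ⟨i₁, i₂, j₁, j₂, rfl, rfl, h1, h2⟩ := exists_of_lcf_mul_ne_zero h
  have h3 := hF i₁ j₁ h1
  have h4 := hG i₂ j₂ h2
  push_cast
  linarith

theorem lhom_mul {τ w₁ w₂ : ℚ} {F G : LA} (hF : LHom τ w₁ F) (hG : LHom τ w₂ G) :
    LHom τ (w₁ + w₂) (F * G) := by
  intro i j h
  obtain ⟨i₁, i₂, j₁, j₂, rfl, rfl, h1, h2⟩ := exists_of_lcf_mul_ne_zero h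
  have h3 := hF i₁ j₁ h1
  have h4 := hG i₂ j₂ h2
  push_cast
  linarith

theorem lproj_hom_mul {τ v : ℚ} {g : LA} (hg : LHom τ v g) (w : ℚ) (P : LA) :
    lproj τ w (g * P) = g * lproj τ (w - v) P := by
  apply la_ext
  intro i j
  rw [lcf_lproj]
  split_ifs with hij
  · have h1 : lcf (g * (P - lproj τ (w - v) P)) i j = 0 := by
      by_contra h
      obtain ⟨i₁, i₂, j₁, j₂, rfl, rfl, h2, h3⟩ := exists_of_lcf_mul_ne_zero h
      have h4 := hg i₁ j₁ h2
      have h5 : (i₂ : ℚ) + τ * j₂ = w - v := by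
        push_cast at hij
        linarith
      rw [lcf_sub, lcf_lproj, if_pos h5, sub_self] at h3
      exact h3 rfl
    rw [mul_sub, lcf_sub] at h1
    linarith
  · by_contra h
    obtain ⟨i₁, i₂, j₁, j₂, rfl, rfl, h2, h3⟩ := exists_of_lcf_mul_ne_zero (Ne.symm h)
    have h4 := hg i₁ j₁ h2
    rw [lcf_lproj] at h3
    split_ifs at h3 with h5
    · apply hij
      push_cast
      linarith
    · exact h3 rfl

end Pool.Agent.FPO
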