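import Pool.Agent.FPO.WB
import Pool.Agent.FPO.LaA

/-!
# FPO module Hmg: homogenization (diff 2)

`hmg τ w p = ∑_j C (C p_j * T ⌊w - τ j⌋) * X^j`, `Okw τ w p`: `w - τ j ∈ ℤ` whenever `p_j ≠ 0`.

PROOF.  `lcf_hmg`: the coefficient of `y^j` is `C p_j * T ⌊w - τ j⌋`, whose coefficient at `i` is
`p_j` if `i = ⌊w - τj⌋` and `0` otherwise; if `p_j ≠ 0`, `⌊w - τ j⌋ = w - τ j`, so `i = ⌊w - τj⌋` iff
`i + τ j = w`; if `p_j = 0` both are `0`.  `lhom_hmg`: immediate.
`lv_hmg`: `lv_eq_sum` or directly (`lv` of `C (C q * T i) * X^j` is `q x^i y^j`); for `x > 0`,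
`x^{w - τ j}` as a real power is `x^{⌊w-τj⌋}` as an integer power (`Real.rpow_intCast`), and
`x^w (y/x^τ)^j = x^{w - τ j} y^j`.
`okw_ini`, `toL_sub_hmg`: by `exists_of_coeff_ini_ne_zero` the exponents `j` of `ini τ w F` have
`w - τ j` a natural number.  `lcf (toL F) i j = cf F i.toNat j` if `i ≥ 0` and `0` otherwise
(`LaurentPolynomial` coefficients of `toLaurent`: `LaurentPolynomial.coeff_toLaurent`); by
`coeff_ini_of`, `toL F - hmg τ w (ini τ w F)` has no monomial of weight `w`, so all its monomials (a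
finite number, all of them monomials of `F` or of weight `w`) have weight `< w`; `ε` = the minimum
of the gaps.
`hmg_mul`: compare coefficients through values: both sides are homogeneous of weight `w₁ + w₂` and
monomials with the same `j` in a homogeneous polynomial have the same `i`; easiest: expand
`hmg τ w₁ p₁ * hmg τ w₂ p₂ = ∑_{j₁,j₂} C (C (p_{j₁} q_{j₂}) * T (⌊w₁-τj₁⌋ + ⌊w₂-τj₂⌋)) * X^{j₁+j₂}`, and
if `p_{j₁} q_{j₂} ≠ 0` the exponent of `T` is `⌊w₁ + w₂ - τ (j₁ + j₂)⌋`; compare the coefficient of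
`y^j` (`coeff_mul`).
`hmg_monic`: the coefficient of `y^{deg p}` is `C 1 * T 0 = 1`, and `natDegree ≤ deg p`.
-/

set_option autoImplicit false

open Polynomial

namespace Pool.Agent.FPO

namespace Hmg

theorem coeff_hmg (τ w : ℚ) (p : ℚ[X]) (j : ℕ) :
    (hmg τ w p).coeff j = LaurentPolynomial.C (p.coeff j) * LaurentPolynomial.T ⌊w - τ * j⌋ := by
  rw [hmg, finsetSum_coeff]
  simp only [coeff_C_mul, coeff_X_pow]
  by_cases hj : j ≤ p.natDegree
  · rw [Finset.sum_eq_single j]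
    · simp
    · intro k _ hk
      rw [if_neg (Ne.symm hk), mul_zero]
    · intro h
      exact absurd (Finset.mem_range.2 (Nat.lt_succ_of_le hj)) h
  · push Not at hj
    rw [coeff_eq_zero_of_natDegree_lt hj]
    rw [map_zero, zero_mul]
    refine Finset.sum_eq_zero fun k hk => ?_
    rw [if_neg, mul_zero]
    rintro rfl
    rw [Finset.mem_range] at hk
    omega

theorem coeff_CT (q : ℚ) (n i : ℤ) :
    (LaurentPolynomial.C q * LaurentPolynomial.T n).coeff i = if i = n then q else 0 := by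
  rw [← LaurentPolynomial.single_eq_C_mul_T]
  simp only [AddMonoidAlgebra.coeff_single]
  rw [Finsupp.single_apply]
  by_cases h : i = n
  · rw [if_pos h, if_pos h.symm]
  · rw [if_neg h, if_neg (Ne.symm h)]

end Hmg

theorem lcf_hmg {τ w : ℚ} {p : ℚ[X]} (h : Okw τ w p) (i : ℤ) (j : ℕ) :
    lcf (hmg τ w p) i j = if (i : ℚ) + τ * j = w then p.coeff j else 0 := by
  rw [lcf, Hmg.coeff_hmg, Hmg.coeff_CT]
  by_cases h0 : p.coeff j = 0
  · simp [h0]
  · have h1 := h j h0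
    by_cases h2 : i = ⌊w - τ * j⌋
    · rw [if_pos h2, if_pos]
      rw [h2, h1]
      ring
    · rw [if_neg h2, if_neg]
      intro h3
      apply h2
      have h4 : (i : ℚ) = ((⌊w - τ * j⌋ : ℤ) : ℚ) := by rw [h1]; linarith
      exact_mod_cast h4

theorem lhom_hmg {τ w : ℚ} {p : ℚ[X]} (h : Okw τ w p) : LHom τ w (hmg τ w p) := by
  intro i j hij
  rw [lcf_hmg h] at hij
  by_contra h1
  rw [if_neg h1] at hij
  exact hij rfl

theorem lv_hmg {τ w : ℚ} {p : ℚ[X]} (h : Okw τ w p) {x : ℝ} (hx : 0 < x) (y : ℝ) :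
    lv (hmg τ w p) x y = x ^ (w : ℝ) * aeval (y / x ^ (τ : ℝ)) p := by
  have hx0 : x ≠ 0 := hx.ne'
  rw [hmg, lv_finsetSum _ _ hx0, aeval_eq_sum_range, Finset.mul_sum]
  refine Finset.sum_congr rfl fun j _ => ?_
  rw [lv_of_ne _ hx0, lvHom]
  rw [coe_eval₂RingHom, eval₂_mul, eval₂_C, eval₂_pow, eval₂_X, map_mul]
  by_cases h0 : p.coeff j = 0
  · simp [h0]
  · have h1 := h j h0
    rw [LaurentPolynomial.eval₂_C, LaurentPolynomial.eval₂_T]
    have h2 : ((Units.mk0 x hx0 ^ ⌊w - τ * j⌋ : ℝˣ) : ℝ) = x ^ ((w : ℝ) - τ * j) := by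
      rw [Units.val_zpow_eq_zpow_val, Units.val_mk0, ← Real.rpow_intCast]
      congr 1
      have := congrArg (fun q : ℚ => (q : ℝ)) h1
      push_cast at this
      simpa using this
    rw [h2, Real.rpow_sub hx, Algebra.smul_def, div_pow, Real.rpow_mul hx.le, Real.rpow_natCast]
    field_simp

theorem hmg_mul {τ w₁ w₂ : ℚ} {p₁ p₂ : ℚ[X]} (h₁ : Okw τ w₁ p₁) (h₂ : Okw τ w₂ p₂) :
    hmg τ (w₁ + w₂) (p₁ * p₂) = hmg τ w₁ p₁ * hmg τ w₂ p₂ := by
  apply Polynomial.ext
  intro j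
  rw [Hmg.coeff_hmg, coeff_mul, coeff_mul, map_sum, Finset.sum_mul]
  refine Finset.sum_congr rfl fun x hx => ?_
  replace hx : x.1 + x.2 = j := Finset.HasAntidiagonal.mem_antidiagonal.1 hx
  rw [Hmg.coeff_hmg, Hmg.coeff_hmg]
  by_cases h0 : p₁.coeff x.1 = 0
  · simp [h0]
  by_cases h0' : p₂.coeff x.2 = 0
  · simp [h0']
  have e1 := h₁ _ h0
  have e2 := h₂ _ h0'
  have e3 : ⌊w₁ + w₂ - τ * j⌋ = ⌊w₁ - τ * x.1⌋ + ⌊w₂ - τ * x.2⌋ := by
    rw [Int.floor_eq_iff]
    have : w₁ + w₂ - τ * j = (((⌊w₁ - τ * x.1⌋ + ⌊w₂ - τ * x.2⌋ : ℤ)) : ℚ) := by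
      push_cast
      rw [e1, e2, ← hx]
      push_cast
      ring
    rw [this]
    constructor
    · exact le_rfl
    · linarith
  rw [e3, LaurentPolynomial.T_add, map_mul]
  ring

theorem hmg_monic {τ : ℚ} {p : ℚ[X]} (hp : p.Monic) :
    (hmg τ (τ * p.natDegree) p).Monic ∧ (hmg τ (τ * p.natDegree) p).natDegree = p.natDegree := by
  have h1 : (hmg τ (τ * p.natDegree) p).coeff p.natDegree = 1 := by
    rw [Hmg.coeff_hmg, hp.coeff_natDegree, sub_self, Int.floor_zero]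
    simp
  have h2 : (hmg τ (τ * p.natDegree) p).natDegree ≤ p.natDegree := by
    rw [natDegree_le_iff_coeff_eq_zero]
    intro N hN
    rw [Hmg.coeff_hmg, coeff_eq_zero_of_natDegree_lt hN]
    simp
  have h3 : (hmg τ (τ * p.natDegree) p).Monic := monic_of_natDegree_le_of_coeff_eq_one _ h2 h1
  refine ⟨h3, le_antisymm h2 (le_natDegree_of_ne_zero ?_)⟩
  rw [h1]
  exact one_ne_zero

theorem okw_ini {τ w : ℚ} (F : Bi) : Okw τ w (ini τ w F) := by
  intro j hj
  obtain ⟨i, hi, -, -⟩ := exists_of_coeff_ini_ne_zero hj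
  have : w - τ * j = ((i : ℤ) : ℚ) := by push_cast; linarith
  rw [this, Int.floor_intCast]

namespace Hmg

theorem lcf_toL (F : Bi) (i : ℤ) (j : ℕ) :
    lcf (toL F) i j = if 0 ≤ i then cf F i.toNat j else 0 := by
  rw [lcf, toL, coe_mapRingHom, coeff_map, LaurentPolynomial.coeff_toLaurent]
  by_cases h : 0 ≤ i
  · obtain ⟨n, rfl⟩ := Int.eq_ofNat_of_zero_le h
    rw [if_pos h]
    have := Finsupp.mapDomain_apply (Nat.castEmbedding (R := ℤ)).injective
      (F.coeff j).toFinsupp.coeff n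
    exact this
  · rw [if_neg h]
    refine Finsupp.mapDomain_of_notMem_range _ _ ?_
    rintro ⟨n, hn⟩
    apply h
    rw [← hn]
    exact Int.natCast_nonneg n

end Hmg

theorem toL_sub_hmg {τ w : ℚ} {F : Bi} (hw : HasWt τ w F) :
    ∃ ε : ℚ, 0 < ε ∧ LWLe τ (w - ε) (toL F - hmg τ w (ini τ w F)) := by
  classical
  have key : ∀ (i : ℤ) (j : ℕ), lcf (toL F - hmg τ w (ini τ w F)) i j ≠ 0 →
      ∃ n : ℕ, (n : ℤ) = i ∧ cf F n j ≠ 0 ∧ (n : ℚ) + τ * j < w := by
    intro i j hij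
    rw [lcf_sub, Hmg.lcf_toL, lcf_hmg (okw_ini F)] at hij
    by_cases hi : 0 ≤ i
    · obtain ⟨n, rfl⟩ := Int.eq_ofNat_of_zero_le hi
      rw [if_pos hi, Int.toNat_natCast] at hij
      refine ⟨n, rfl, ?_⟩
      by_cases h1 : ((n : ℤ) : ℚ) + τ * j = w
      · rw [if_pos h1] at hij
        have h2 : (n : ℚ) + τ * j = w := by exact_mod_cast h1
        rw [coeff_ini_of h2, sub_self] at hij
        exact absurd rfl hij
      · rw [if_neg h1, sub_zero] at hij
        refine ⟨hij, lt_of_le_of_ne (hw.1 n j hij) ?_⟩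
        intro h2
        exact h1 (by exact_mod_cast h2)
    · rw [if_neg hi, zero_sub, neg_ne_zero] at hij
      by_cases h1 : (i : ℚ) + τ * j = w
      · rw [if_pos h1] at hij
        obtain ⟨k, hk, -, -⟩ := exists_of_coeff_ini_ne_zero hij
        exfalso
        apply hi
        have : (i : ℚ) = ((k : ℤ) : ℚ) := by push_cast; linarith
        have h3 : i = (k : ℤ) := by exact_mod_cast this
        rw [h3]
        exact Int.natCast_nonneg k
      · rw [if_neg h1] at hij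
        exact absurd rfl hij
  let s : Finset (ℕ × ℕ) := ((Finset.range (xdeg F + 1)) ×ˢ (Finset.range (F.natDegree + 1))).filter
    fun q => cf F q.1 q.2 ≠ 0 ∧ (q.1 : ℚ) + τ * q.2 < w
  have hs : ∀ i j : ℕ, cf F i j ≠ 0 → (i : ℚ) + τ * j < w → (i, j) ∈ s := by
    intro i j h h'
    simp only [s, Finset.mem_filter, Finset.mem_product, Finset.mem_range]
    refine ⟨⟨?_, ?_⟩, h, h'⟩
    · by_contra hh
      exact h (cf_eq_zero_of_xdeg (by omega))
    · by_contra hh
      exact h (cf_eq_zero_of_natDegree (by omega))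
  rcases s.eq_empty_or_nonempty with h0 | h0
  · refine ⟨1, one_pos, fun i j hij => ?_⟩
    obtain ⟨n, -, h1, h2⟩ := key i j hij
    have := hs n j h1 h2
    rw [h0] at this
    exact absurd this (Finset.notMem_empty _)
  · obtain ⟨q, hq, hmax⟩ := s.exists_max_image (fun q => (q.1 : ℚ) + τ * q.2) h0
    refine ⟨w - ((q.1 : ℚ) + τ * q.2), ?_, fun i j hij => ?_⟩
    · have := (Finset.mem_filter.1 hq).2.2
      linarith
    · obtain ⟨n, hn, h1, h2⟩ := key i j hij
      have h3 := hmax (n, j) (hs n j h1 h2)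
      rw [← hn]
      push_cast
      simp only at h3
      linarith

end Pool.Agent.FPO
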