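import Pool.Agent.FPO.ToBi

/-!
# FPO module Hom: the top form from the initial polynomial (diff 1)

`homF p = ∑_j C p_j * X 0^(e-j) * X 1^j`, `e = p.natDegree`.

PROOF.  `hc_eq`: compare coefficients: `hc F₀` has the coefficients of `F₀` at the monomials of total
degree `d` (`coeff_homogeneousComponent`), `cf_toBi` and `coeff_ini_of`: for `i + j = d`, the
coefficient is `(ini 1 d (toBi F₀)).coeff j`.  So
`hc F₀ = ∑_{j ≤ d} C ((ini 1 d (toBi F₀)).coeff j) * X 0^(d-j) * X 1^j`.
`hc_of_ini_eq`: for `q` monic of degree `e`, `d = s e` and `ini = C b * q^s`: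
the homogenization of degree `s e` of `q^s` is `(homF q)^s` (multiplicativity of homogenization with
fixed degrees: `hom_{m+n}(p q) = hom_m(p) hom_n(q)` for `deg p ≤ m`, `deg q ≤ n`, where
`hom_m(p) = ∑_{j ≤ m} C p_j X 0^(m-j) X 1^j`; e.g. by comparing coefficients, or because
`hom_m(p)` is the unique homogeneous polynomial of degree `m` whose value under `X 0 ↦ 1`,
`X 1 ↦ X` is `p`).
`homF_minpoly_rat`: `minpoly ℚ (t : ℝ) = X - C t` for rational `t` (`minpoly.eq_X_sub_C`).
-/

set_option autoImplicit false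

open Polynomial

namespace Pool.Agent.FPO

namespace Hom

theorem degree_two (m : Fin 2 →₀ ℕ) : m.degree = m 0 + m 1 := by
  rw [Finsupp.degree_eq_sum, Fin.sum_univ_two]

/-- dehomogenization -/
noncomputable def phi : MvPolynomial (Fin 2) ℚ →ₐ[ℚ] ℚ[X] := MvPolynomial.aeval ![1, X]

theorem coeff_phi {P : MvPolynomial (Fin 2) ℚ} {n : ℕ} (hP : P.IsHomogeneous n)
    {m : Fin 2 →₀ ℕ} (hm : m.degree = n) : (phi P).coeff (m 1) = P.coeff m := by
  have h1 : phi P = ∑ d ∈ P.support, C (P.coeff d) * X ^ (d 1) := by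
    unfold phi
    rw [MvPolynomial.aeval_def, MvPolynomial.eval₂_eq']
    refine Finset.sum_congr rfl fun d _ => ?_
    rw [Fin.prod_univ_two]
    simp
  rw [h1, finsetSum_coeff, Finset.sum_eq_single m]
  · rw [coeff_C_mul, coeff_X_pow, if_pos rfl, mul_one]
  · intro d hd hne
    rw [coeff_C_mul, coeff_X_pow, if_neg, mul_zero]
    intro h2
    apply hne
    have h3 : d.degree = n := by
      by_contra hc
      exact (MvPolynomial.mem_support_iff.1 hd) (hP.coeff_eq_zero hc)
    rw [degree_two] at h3 hm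
    ext i
    revert i
    rw [Fin.forall_fin_two]
    exact ⟨by omega, by omega⟩
  · intro h2
    rw [coeff_C_mul, MvPolynomial.notMem_support_iff.1 h2, zero_mul]

theorem homF_homogeneous (p : ℚ[X]) : (homF p).IsHomogeneous p.natDegree := by
  unfold homF
  refine MvPolynomial.IsHomogeneous.sum _ _ _ fun j hj => ?_
  have hj' : j ≤ p.natDegree := Nat.lt_succ_iff.1 (Finset.mem_range.1 hj)
  have h1 := (MvPolynomial.isHomogeneous_C_mul_X_pow (σ := Fin 2) (p.coeff j) 0
    (p.natDegree - j)).mul (MvPolynomial.isHomogeneous_X_pow (R := ℚ) (1 : Fin 2) j)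
  rwa [Nat.sub_add_cancel hj'] at h1

theorem phi_homF (p : ℚ[X]) : phi (homF p) = p := by
  unfold phi homF
  rw [map_sum]
  conv_rhs => rw [p.as_sum_range_C_mul_X_pow]
  refine Finset.sum_congr rfl fun j _ => ?_
  rw [map_mul, map_mul, map_pow, map_pow, MvPolynomial.aeval_X, MvPolynomial.aeval_X]
  simp

end Hom

theorem hc_of_ini_eq (F₀ : MvPolynomial (Fin 2) ℚ) (q : ℚ[X]) (hq : q.Monic) (b : ℚ) (s : ℕ)
    (h : ini 1 (F₀.totalDegree : ℚ) (toBi F₀) = C b * q ^ s)
    (hd : F₀.totalDegree = s * q.natDegree) :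
    hc F₀ = MvPolynomial.C b * homF q ^ s := by
  have hR : (MvPolynomial.C b * homF q ^ s).IsHomogeneous F₀.totalDegree := by
    have h1 := ((Hom.homF_homogeneous q).pow s).C_mul b
    rwa [mul_comm q.natDegree s, ← hd] at h1
  have hphi : Hom.phi (MvPolynomial.C b * homF q ^ s) = C b * q ^ s := by
    rw [map_mul, map_pow, Hom.phi_homF]
    congr 1
    exact Hom.phi.commutes b
  ext m
  unfold hc
  rw [MvPolynomial.coeff_homogeneousComponent]
  split_ifs with hm
  · rw [← Hom.coeff_phi hR hm, hphi, ← h, coeff_ini_of (i := m 0) (j := m 1), cf_toBi]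
    · congr 1
      ext i
      revert i
      rw [Fin.forall_fin_two]
      simp
    · rw [← hm, Hom.degree_two]
      push_cast
      ring
  · exact (hR.coeff_eq_zero hm).symm

theorem homF_minpoly_rat (t : ℚ) :
    homF (minpoly ℚ ((t : ℝ))) = MvPolynomial.X 1 - MvPolynomial.C t * MvPolynomial.X 0 := by
  have h1 : minpoly ℚ ((t : ℝ)) = X - C t := minpoly.eq_X_sub_C ℝ t
  rw [h1]
  unfold homF
  rw [natDegree_X_sub_C, Finset.sum_range_succ, Finset.sum_range_one]
  simp [coeff_X, coeff_C]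
  ring

end Pool.Agent.FPO
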