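import Pool.Agent.FPO.Api

/-!
# FPO module PsL: leading asymptotics of Puiseux polynomials (diff 1)

PROOF.  `psum p x = ∑_{e ∈ supp} p_e x^e`.  All exponents `e` of the support are `≤ ldw p`
(`le_ldw`).  Take away the term `e = ldw p` (which is `0` if `ldw p` is not in the support); the other
exponents are `< ldw p`; let `σ = 1` if there are none, else the minimum of the gaps
`ldw p - e > 0`.  For `x ≥ 1` each other term is `≤ |p_e| x^{ldw p - σ}`.
-/

set_option autoImplicit false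

open Polynomial

namespace Pool.Agent.FPO

theorem psum_asymp (p : ℚ →₀ ℂ) :
    ∃ C σ : ℝ, 0 < σ ∧ 0 ≤ C ∧ ∀ x : ℝ, 1 ≤ x →
      ‖psum p x - p (ldw p) * ((x ^ ((ldw p : ℚ) : ℝ) : ℝ) : ℂ)‖ ≤
        C * x ^ (((ldw p : ℚ) : ℝ) - σ) := by
  classical
  set S : Finset ℚ := p.support.erase (ldw p) with hS
  obtain ⟨σ, hσ0, hσ⟩ : ∃ σ : ℝ, 0 < σ ∧ ∀ e ∈ S, (e : ℝ) ≤ ((ldw p : ℚ) : ℝ) - σ := by
    by_cases hne : S.Nonempty
    · refine ⟨((ldw p : ℚ) : ℝ) - ((S.max' hne : ℚ) : ℝ), ?_, fun e he => ?_⟩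
      · have h1 : S.max' hne ∈ S := Finset.max'_mem S hne
        have h2 := Finset.mem_erase.1 h1
        have h3 : S.max' hne ≤ ldw p := le_ldw (Finsupp.mem_support_iff.1 h2.2)
        have h4 : S.max' hne < ldw p := lt_of_le_of_ne h3 h2.1
        have h5 : ((S.max' hne : ℚ) : ℝ) < ((ldw p : ℚ) : ℝ) := by exact_mod_cast h4
        linarith
      · have h1 : e ≤ S.max' hne := Finset.le_max' S e he
        have h2 : (e : ℝ) ≤ ((S.max' hne : ℚ) : ℝ) := by exact_mod_cast h1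
        linarith
    · refine ⟨1, one_pos, fun e he => ?_⟩
      exact absurd ⟨e, he⟩ hne
  refine ⟨∑ e ∈ S, ‖p e‖, σ, hσ0, Finset.sum_nonneg fun _ _ => norm_nonneg _, fun x hx => ?_⟩
  have hx0 : 0 < x := by linarith
  have hsplit : psum p x - p (ldw p) * ((x ^ ((ldw p : ℚ) : ℝ) : ℝ) : ℂ) =
      ∑ e ∈ S, p e * ((x ^ (e : ℝ) : ℝ) : ℂ) := by
    rw [psum, Finsupp.sum]
    by_cases hmem : ldw p ∈ p.support
    · rw [← Finset.add_sum_erase _ _ hmem]
      ring
    · rw [hS, Finset.erase_eq_of_notMem hmem, Finsupp.notMem_support_iff.1 hmem]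
      ring
  rw [hsplit, Finset.sum_mul]
  refine (norm_sum_le _ _).trans (Finset.sum_le_sum fun e he => ?_)
  rw [norm_mul]
  apply mul_le_mul_of_nonneg_left _ (norm_nonneg _)
  rw [Complex.norm_real, Real.norm_of_nonneg (Real.rpow_nonneg hx0.le _)]
  exact Real.rpow_le_rpow_of_exponent_le hx (hσ e he)

/-- Asymptotics of the leading coefficient. -/
theorem lc_asymp (B : ℚ[X]) (hB : B ≠ 0) :
    ∃ C : ℝ, 0 ≤ C ∧ ∀ x : ℝ, 1 ≤ x →
      |aeval x B - (B.leadingCoeff : ℝ) * x ^ B.natDegree| ≤ C * x ^ ((B.natDegree : ℝ) - 1) := by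
  refine ⟨∑ i ∈ Finset.range B.natDegree, |(B.coeff i : ℝ)|,
    Finset.sum_nonneg fun _ _ => abs_nonneg _, fun x hx => ?_⟩
  have hx0 : 0 < x := by linarith
  have h1 : aeval x B - (B.leadingCoeff : ℝ) * x ^ B.natDegree =
      ∑ i ∈ Finset.range B.natDegree, (B.coeff i : ℝ) * x ^ i := by
    rw [aeval_eq_sum_range, Finset.sum_range_succ]
    simp only [Algebra.smul_def, eq_ratCast, leadingCoeff]
    ring
  rw [h1, Finset.sum_mul]
  refine (Finset.abs_sum_le_sum_abs _ _).trans (Finset.sum_le_sum fun i hi => ?_)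
  rw [abs_mul]
  apply mul_le_mul_of_nonneg_left _ (abs_nonneg _)
  rw [abs_of_nonneg (pow_nonneg hx0.le _), ← Real.rpow_natCast]
  apply Real.rpow_le_rpow_of_exponent_le hx
  have h2 : i + 1 ≤ B.natDegree := Finset.mem_range.1 hi
  have h3 : (i : ℝ) + 1 ≤ B.natDegree := by exact_mod_cast h2
  linarith

end Pool.Agent.FPO
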