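import Pool.Agent.FPO.Asy
import Pool.Agent.FPO.PsL

/-!
# FPO module Lead: Newton polygon and Puiseux roots (diff 3)

Notation: `D = F.natDegree`, `B = F.leadingCoeff`, `β = B.natDegree`, `b = B.leadingCoeff ≠ 0`,
`w_i = ldw (p i) ≥ 1`, `c_i = p i (w_i)`, `W = β + ∑ max τ w_i`.

PROOF.  Fix a real `ξ` and let `x → ∞`, `y = ξ x^τ`.  Since `τ < K`, `|y| ≤ x^K` for large `x`.  By
`psum_asymp`, `x^{-max(τ,w_i)} (y - psum (p i) x) → R_i(ξ)` where
`R_i(ξ) = ξ` if `w_i < τ`; `= ξ - c_i` if `w_i = τ`; `= -c_i` if `w_i > τ`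
(in the last case `w_i > τ ≥ 1`, so `c_i ≠ 0` by `ne_zero_of_one_lt_ldw`).  By `lc_asymp`,
`x^{-β} B(x) → b`.  So by `Approx` (the error `x^{-K}` times `x^{-W}`, `W ≥ 0`, tends to `0`):
`x^{-W} F(x, ξ x^τ) → b ∏ R_i(ξ) =: R(ξ)`  (complex limit).
Let `w` be the weight of `F` for `τ` (`exists_hasWt`); by `asy`,
`x^{-w} F(x, ξ x^τ) → ini(ξ) := aeval ξ (ini τ w F)`.
Both `ini` and `R` are nonzero polynomial functions of `ξ` (`HasWt.ini_ne_zero`; `R` is `b` times a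
product of nonzero polynomials), so there is a real `ξ` where both do not vanish (finitely many
zeros).  If `w < W`: `x^{-W} F = x^{w-W} x^{-w} F → 0`, contradicting `R(ξ) ≠ 0`; if `w > W`
similarly `ini(ξ) = 0`, a contradiction.  So `w = W`, and by uniqueness of limits `ini(ξ) = R(ξ)` for
all real `ξ`, hence the polynomials `(ini τ W F).map (algebraMap ℚ ℂ)` and `C b * ∏ R_i` agree at
infinitely many points (`Polynomial.eq_of_infinite_eval_eq` or `funext` on the reals cast to `ℂ`),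
so they are equal.
-/

set_option autoImplicit false

open Polynomial

namespace Pool.Agent.FPO

namespace Lead

open Filter Topology

theorem rp {x : ℝ} (hx : 0 < x) (a b : ℝ) :
    ((x ^ a : ℝ) : ℂ) * ((x ^ b : ℝ) : ℂ) = ((x ^ (a + b) : ℝ) : ℂ) := by
  rw [← Complex.ofReal_mul, Real.rpow_add hx]

theorem tends_neg {a : ℝ} (ha : a < 0) :
    Tendsto (fun x : ℝ => ((x ^ a : ℝ) : ℂ)) atTop (𝓝 0) := by
  have h := tendsto_rpow_neg_atTop (y := -a) (by linarith)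
  rw [neg_neg] at h
  have h2 := (Complex.continuous_ofReal.tendsto 0).comp h
  rw [Complex.ofReal_zero] at h2
  exact h2

theorem tends_pow {a : ℝ} (ha : a ≤ 0) (c : ℂ) :
    Tendsto (fun x : ℝ => c * ((x ^ a : ℝ) : ℂ)) atTop (𝓝 (if a = 0 then c else 0)) := by
  by_cases h : a = 0
  · rw [if_pos h, h]
    simp
  · rw [if_neg h]
    have h2 := (tends_neg (lt_of_le_of_ne ha h)).const_mul c
    rw [mul_zero] at h2
    exact h2

/-- error terms -/
theorem tends_err (g : ℝ → ℂ) (C a σ M : ℝ) (hσ : 0 < σ) (hM : a ≤ M) (hC : 0 ≤ C)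
    (h : ∀ᶠ x : ℝ in atTop, ‖g x‖ ≤ C * x ^ (a - σ)) :
    Tendsto (fun x : ℝ => ((x ^ (-M) : ℝ) : ℂ) * g x) atTop (𝓝 0) := by
  have hlim : Tendsto (fun x : ℝ => C * x ^ (-σ)) atTop (𝓝 0) := by
    have h2 := (tendsto_rpow_neg_atTop hσ).const_mul C
    rw [mul_zero] at h2
    exact h2
  refine squeeze_zero_norm' ?_ hlim
  filter_upwards [h, eventually_ge_atTop 1] with x hx hx1
  have hx0 : 0 < x := by linarith
  rw [norm_mul, Complex.norm_real, Real.norm_of_nonneg (Real.rpow_nonneg hx0.le _)]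
  calc x ^ (-M) * ‖g x‖ ≤ x ^ (-M) * (C * x ^ (a - σ)) :=
        mul_le_mul_of_nonneg_left hx (Real.rpow_nonneg hx0.le _)
    _ = C * (x ^ (-M) * x ^ (a - σ)) := by ring
    _ = C * x ^ (-M + (a - σ)) := by rw [Real.rpow_add hx0]
    _ ≤ C * x ^ (-σ) := by
        refine mul_le_mul_of_nonneg_left (Real.rpow_le_rpow_of_exponent_le hx1 ?_) hC
        linarith

theorem psum_lim (p : ℚ →₀ ℂ) (M : ℚ) (hM : ldw p ≤ M) :
    Tendsto (fun x : ℝ => ((x ^ (-(M : ℝ)) : ℝ) : ℂ) * psum p x) atTop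
      (𝓝 (if ldw p = M then p (ldw p) else 0)) := by
  obtain ⟨C, σ, hσ, hC, h⟩ := psum_asymp p
  have hM' : ((ldw p : ℚ) : ℝ) ≤ (M : ℝ) := by exact_mod_cast hM
  have h1 := tends_err (fun x => psum p x - p (ldw p) * ((x ^ ((ldw p : ℚ) : ℝ) : ℝ) : ℂ)) C
    ((ldw p : ℚ) : ℝ) σ (M : ℝ) hσ hM' hC
    (by filter_upwards [eventually_ge_atTop 1] with x hx using h x hx)
  have h2 := tends_pow (a := ((ldw p : ℚ) : ℝ) - (M : ℝ)) (by linarith) (p (ldw p))
  have h3 := h1.add h2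
  rw [zero_add] at h3
  have h4 : (((ldw p : ℚ) : ℝ) - (M : ℝ) = 0) ↔ ldw p = M := by
    rw [sub_eq_zero]
    exact_mod_cast Iff.rfl
  simp only [h4] at h3
  refine h3.congr' ?_
  filter_upwards [eventually_gt_atTop 0] with x hx
  have h5 := rp hx (-(M : ℝ)) ((ldw p : ℚ) : ℝ)
  rw [show -(M : ℝ) + ((ldw p : ℚ) : ℝ) = ((ldw p : ℚ) : ℝ) - (M : ℝ) by ring] at h5
  rw [← h5]
  ring

theorem fac_lim (p : ℚ →₀ ℂ) (τ : ℚ) (ξ : ℝ) :
    Tendsto (fun x : ℝ => ((x ^ (-((max τ (ldw p) : ℚ) : ℝ)) : ℝ) : ℂ) *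
      (((ξ * x ^ (τ : ℝ) : ℝ) : ℂ) - psum p x)) atTop
      (𝓝 (if ldw p < τ then (ξ : ℂ) else if ldw p = τ then (ξ : ℂ) - p τ else -(p (ldw p)))) := by
  have h1 := psum_lim p (max τ (ldw p)) (le_max_right _ _)
  have hle : ((τ : ℚ) : ℝ) - ((max τ (ldw p) : ℚ) : ℝ) ≤ 0 := by
    have : (τ : ℝ) ≤ ((max τ (ldw p) : ℚ) : ℝ) := by exact_mod_cast le_max_left τ (ldw p)
    linarith
  have h2 := tends_pow hle (ξ : ℂ)
  have h3 := h2.sub h1
  have h4 : (((τ : ℚ) : ℝ) - ((max τ (ldw p) : ℚ) : ℝ) = 0) ↔ ldw p ≤ τ := by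
    rw [sub_eq_zero]
    constructor
    · intro h
      have h5 : τ = max τ (ldw p) := by exact_mod_cast h
      rw [h5]
      exact le_max_right _ _
    · intro h
      rw [max_eq_left h]
  have h5 : (ldw p = max τ (ldw p)) ↔ τ ≤ ldw p := by
    constructor
    · intro h
      rw [h]
      exact le_max_left _ _
    · intro h
      rw [max_eq_right h]
  simp only [h4, h5] at h3
  have h6 : ((if ldw p ≤ τ then (ξ : ℂ) else 0) - if τ ≤ ldw p then p (ldw p) else 0) =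
      (if ldw p < τ then (ξ : ℂ) else if ldw p = τ then (ξ : ℂ) - p τ else -(p (ldw p))) := by
    rcases lt_trichotomy (ldw p) τ with h | h | h
    · rw [if_pos h.le, if_neg (not_le.2 h), if_pos h, sub_zero]
    · rw [if_pos h.le, if_pos h.ge, if_neg (by rw [h]; exact lt_irrefl _), if_pos h, h]
    · rw [if_neg (not_le.2 h), if_pos h.le, if_neg (not_lt.2 h.le), if_neg (ne_of_gt h), zero_sub]
  rw [h6] at h3
  refine h3.congr' ?_
  filter_upwards [eventually_gt_atTop 0] with x hx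
  have h7 := rp hx (-((max τ (ldw p) : ℚ) : ℝ)) ((τ : ℚ) : ℝ)
  rw [show -((max τ (ldw p) : ℚ) : ℝ) + (τ : ℝ) = (τ : ℝ) - ((max τ (ldw p) : ℚ) : ℝ) by ring] at h7
  rw [← h7]
  push_cast
  ring

theorem lc_lim (B : ℚ[X]) (hB : B ≠ 0) :
    Tendsto (fun x : ℝ => ((x ^ (-(B.natDegree : ℝ)) : ℝ) : ℂ) * ((aeval x B : ℝ) : ℂ)) atTop
      (𝓝 ((B.leadingCoeff : ℚ) : ℂ)) := by
  obtain ⟨C, hC, h⟩ := lc_asymp B hB
  have h1 := tends_err (fun x => ((aeval x B - (B.leadingCoeff : ℝ) * x ^ B.natDegree : ℝ) : ℂ)) C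
    (B.natDegree : ℝ) 1 (B.natDegree : ℝ) one_pos le_rfl hC
    (by
      filter_upwards [eventually_ge_atTop 1] with x hx
      rw [Complex.norm_real, Real.norm_eq_abs]
      exact h x hx)
  have h2 := h1.add (tendsto_const_nhds (x := ((B.leadingCoeff : ℚ) : ℂ)))
  rw [zero_add] at h2
  refine h2.congr' ?_
  filter_upwards [eventually_gt_atTop 0] with x hx
  have h3 : ((x ^ (-(B.natDegree : ℝ)) : ℝ) : ℂ) * ((x : ℂ) ^ B.natDegree) = 1 := by
    rw [← Complex.ofReal_pow, ← Complex.ofReal_mul, Real.rpow_neg hx.le, Real.rpow_natCast,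
      inv_mul_cancel₀ (pow_ne_zero _ hx.ne'), Complex.ofReal_one]
  push_cast
  linear_combination -((B.leadingCoeff : ℚ) : ℂ) * h3

/-- the limit computed from the roots -/
theorem lim1 (F : Bi) (hF : F ≠ 0) (K : ℕ) (p : Fin F.natDegree → (ℚ →₀ ℂ)) (hp : PD F K p)
    (τ : ℚ) (hτ : 1 ≤ τ) (hτK : τ < K) (ξ : ℝ) :
    Tendsto (fun x : ℝ => ((x ^ (-((F.leadingCoeff.natDegree + ∑ i, max τ (ldw (p i)) : ℚ) : ℝ)) :
      ℝ) : ℂ) * ((bv F x (ξ * x ^ (τ : ℝ)) : ℝ) : ℂ)) atTop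
      (𝓝 (((F.leadingCoeff.leadingCoeff : ℚ) : ℂ) * ∏ i, (if ldw (p i) < τ then (ξ : ℂ) else
          if ldw (p i) = τ then (ξ : ℂ) - p i τ else -(p i (ldw (p i)))))) := by
  have h1 := (lc_lim F.leadingCoeff (leadingCoeff_ne_zero.2 hF)).mul
    (tendsto_finsetProd Finset.univ (fun i _ => fac_lim (p i) τ ξ))
  obtain ⟨x₀, hx₀, hA⟩ := hp.2.2
  have hW0 : (0 : ℝ) ≤ ((F.leadingCoeff.natDegree + ∑ i, max τ (ldw (p i)) : ℚ) : ℝ) := by
    have : (0 : ℚ) ≤ (F.leadingCoeff.natDegree + ∑ i, max τ (ldw (p i)) : ℚ) := by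
      refine add_nonneg (by positivity) (Finset.sum_nonneg fun i _ => ?_)
      exact (zero_le_one.trans hτ).trans (le_max_left _ _)
    exact_mod_cast this
  have hK1 : (1 : ℝ) < K := by
    have : (1 : ℚ) < K := lt_of_le_of_lt hτ hτK
    exact_mod_cast this
  have hτK' : (τ : ℝ) < K := by exact_mod_cast hτK
  -- eventually |y| ≤ x^K
  have hev : ∀ᶠ x : ℝ in atTop, |ξ * x ^ (τ : ℝ)| ≤ x ^ K := by
    have h2 : Tendsto (fun x : ℝ => x ^ ((K : ℝ) - τ)) atTop atTop :=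
      tendsto_rpow_atTop (by linarith)
    filter_upwards [h2.eventually_ge_atTop |ξ|, eventually_gt_atTop 0] with x hx hx0
    rw [abs_mul, abs_of_nonneg (Real.rpow_nonneg hx0.le _)]
    calc |ξ| * x ^ (τ : ℝ) ≤ x ^ ((K : ℝ) - τ) * x ^ (τ : ℝ) :=
          mul_le_mul_of_nonneg_right hx (Real.rpow_nonneg hx0.le _)
      _ = x ^ K := by
          rw [← Real.rpow_add hx0, sub_add_cancel, Real.rpow_natCast]
  have h3 := tends_err (fun x => ((bv F x (ξ * x ^ (τ : ℝ)) : ℝ) : ℂ) -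
      (((aeval x F.leadingCoeff : ℝ)) : ℂ) *
      ∏ i, (((ξ * x ^ (τ : ℝ) : ℝ) : ℂ) - psum (p i) x)) 1 0 (K : ℝ)
      ((F.leadingCoeff.natDegree + ∑ i, max τ (ldw (p i)) : ℚ) : ℝ) (by linarith) hW0 zero_le_one
      (by
        filter_upwards [hev, eventually_ge_atTop x₀] with x hx hx1
        rw [one_mul, zero_sub]
        exact hA x hx1 _ hx)
  have h4 := h3.add h1
  rw [zero_add] at h4
  refine h4.congr' ?_
  filter_upwards [eventually_gt_atTop 0] with x hx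
  have h5 : ((x ^ (-((F.leadingCoeff.natDegree + ∑ i, max τ (ldw (p i)) : ℚ) : ℝ)) : ℝ) : ℂ) =
      ((x ^ (-(F.leadingCoeff.natDegree : ℝ)) : ℝ) : ℂ) *
        ∏ i, ((x ^ (-((max τ (ldw (p i)) : ℚ) : ℝ)) : ℝ) : ℂ) := by
    rw [← Complex.ofReal_prod, ← Complex.ofReal_mul, ← Real.rpow_sum_of_pos hx, ← Real.rpow_add hx]
    congr 2
    push_cast
    rw [Finset.sum_neg_distrib]
    ring
  rw [Finset.prod_mul_distrib, h5]
  ring

theorem lim2 (F : Bi) (τ w : ℚ) (hw : HasWt τ w F) (ξ : ℝ) :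
    Tendsto (fun x : ℝ => ((x ^ (-(w : ℝ)) : ℝ) : ℂ) * ((bv F x (ξ * x ^ (τ : ℝ)) : ℝ) : ℂ)) atTop
      (𝓝 ((aeval ξ (ini τ w F) : ℝ) : ℂ)) := by
  obtain ⟨C, σ, hσ, hC, h⟩ := asy F τ w hw |ξ|
  have h1 := tends_err (fun x => ((bv F x (ξ * x ^ (τ : ℝ)) -
      x ^ (w : ℝ) * aeval (ξ * x ^ (τ : ℝ) / x ^ (τ : ℝ)) (ini τ w F) : ℝ) : ℂ)) C (w : ℝ) σ (w : ℝ)
      hσ le_rfl hC
      (by
        filter_upwards [eventually_ge_atTop 1] with x hx
        have hx0 : 0 < x := by linarith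
        rw [Complex.norm_real, Real.norm_eq_abs]
        refine h x hx _ ?_
        rw [abs_mul, abs_of_nonneg (Real.rpow_nonneg hx0.le _)])
  have h2 := h1.add (tendsto_const_nhds (x := ((aeval ξ (ini τ w F) : ℝ) : ℂ)))
  rw [zero_add] at h2
  refine h2.congr' ?_
  filter_upwards [eventually_gt_atTop 0] with x hx
  have h3 : ((x ^ (-(w : ℝ)) : ℝ) : ℂ) * ((x ^ (w : ℝ) : ℝ) : ℂ) = 1 := by
    rw [rp hx, neg_add_cancel, Real.rpow_zero, Complex.ofReal_one]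
  have h4 : ξ * x ^ (τ : ℝ) / x ^ (τ : ℝ) = ξ :=
    mul_div_cancel_right₀ ξ (Real.rpow_pos_of_pos hx _).ne'
  rw [h4, Complex.ofReal_sub, Complex.ofReal_mul]
  linear_combination -((aeval ξ (ini τ w F) : ℝ) : ℂ) * h3

/-- rescaling a limit -/
theorem lim_scale (g : ℝ → ℂ) (a b : ℝ) (hab : a < b) (L : ℂ)
    (h : Tendsto (fun x : ℝ => ((x ^ (-a) : ℝ) : ℂ) * g x) atTop (𝓝 L)) :
    Tendsto (fun x : ℝ => ((x ^ (-b) : ℝ) : ℂ) * g x) atTop (𝓝 0) := by
  have h1 := (tends_neg (a := a - b) (by linarith)).mul h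
  rw [zero_mul] at h1
  refine h1.congr' ?_
  filter_upwards [eventually_gt_atTop 0] with x hx
  rw [← mul_assoc, rp hx]
  congr 3
  ring

theorem real_infinite : (Set.range (fun x : ℝ => (x : ℂ))).Infinite :=
  Set.infinite_range_of_injective Complex.ofReal_injective

end Lead

theorem lead (F : Bi) (hF : F ≠ 0) (K : ℕ) (p : Fin F.natDegree → (ℚ →₀ ℂ)) (hp : PD F K p)
    (τ : ℚ) (hτ : 1 ≤ τ) (hτK : τ < K) :
    HasWt τ (F.leadingCoeff.natDegree + ∑ i, max τ (ldw (p i))) F ∧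
    (ini τ (F.leadingCoeff.natDegree + ∑ i, max τ (ldw (p i))) F).map (algebraMap ℚ ℂ) =
      C ((F.leadingCoeff.leadingCoeff : ℚ) : ℂ) *
        ∏ i, (if ldw (p i) < τ then X else
          if ldw (p i) = τ then X - C (p i τ) else C (-(p i (ldw (p i))))) := by
  classical
  obtain ⟨w, hw⟩ := exists_hasWt τ hF
  -- the polynomial on the right
  have hRev : ∀ ξ : ℝ, (C ((F.leadingCoeff.leadingCoeff : ℚ) : ℂ) *
        ∏ i, (if ldw (p i) < τ then X else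
          if ldw (p i) = τ then X - C (p i τ) else C (-(p i (ldw (p i)))))).eval (ξ : ℂ) =
      ((F.leadingCoeff.leadingCoeff : ℚ) : ℂ) * ∏ i, (if ldw (p i) < τ then (ξ : ℂ) else
          if ldw (p i) = τ then (ξ : ℂ) - p i τ else -(p i (ldw (p i)))) := by
    intro ξ
    rw [eval_mul, eval_C, eval_prod]
    congr 1
    refine Finset.prod_congr rfl fun i _ => ?_
    split_ifs <;> simp
  have hR0 : (C ((F.leadingCoeff.leadingCoeff : ℚ) : ℂ) *
        ∏ i, (if ldw (p i) < τ then X else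
          if ldw (p i) = τ then X - C (p i τ) else C (-(p i (ldw (p i)))))) ≠ (0 : ℂ[X]) := by
    refine mul_ne_zero ?_ (Finset.prod_ne_zero_iff.2 fun i _ => ?_)
    · rw [Ne, C_eq_zero]
      have h1 : F.leadingCoeff.leadingCoeff ≠ 0 :=
        leadingCoeff_ne_zero.2 (leadingCoeff_ne_zero.2 hF)
      exact_mod_cast h1
    · split_ifs with h1 h2
      · exact X_ne_zero
      · exact X_sub_C_ne_zero _
      · rw [Ne, C_eq_zero, neg_eq_zero]
        refine ne_zero_of_one_lt_ldw (lt_of_le_of_lt hτ ?_)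
        exact lt_of_le_of_ne (not_lt.1 h1) (Ne.symm h2)
  have hIev : ∀ ξ : ℝ, ((ini τ w F).map (algebraMap ℚ ℂ)).eval (ξ : ℂ) =
      ((aeval ξ (ini τ w F) : ℝ) : ℂ) := by
    intro ξ
    rw [eval_map, ← aeval_def]
    exact Polynomial.aeval_algebraMap_apply ℂ ξ (ini τ w F)
  have hI0 : (ini τ w F).map (algebraMap ℚ ℂ) ≠ 0 :=
    (Polynomial.map_ne_zero_iff (algebraMap ℚ ℂ).injective).2 hw.ini_ne_zero
  have hzero : ∀ Q : ℂ[X], (∀ ξ : ℝ, Q.eval (ξ : ℂ) = 0) → Q = 0 := by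
    intro Q hQ
    refine Polynomial.eq_zero_of_infinite_isRoot Q (Lead.real_infinite.mono ?_)
    rintro _ ⟨ξ, rfl⟩
    exact hQ ξ
  have hwW : w = F.leadingCoeff.natDegree + ∑ i, max τ (ldw (p i)) := by
    rcases lt_trichotomy w (F.leadingCoeff.natDegree + ∑ i, max τ (ldw (p i))) with h | h | h
    · exfalso
      apply hR0
      apply hzero
      intro ξ
      rw [hRev]
      have h' : (w : ℝ) < ((F.leadingCoeff.natDegree + ∑ i, max τ (ldw (p i)) : ℚ) : ℝ) := by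
        exact_mod_cast h
      exact tendsto_nhds_unique (Lead.lim1 F hF K p hp τ hτ hτK ξ)
        (Lead.lim_scale _ _ _ h' _ (Lead.lim2 F τ w hw ξ))
    · exact h
    · exfalso
      apply hI0
      apply hzero
      intro ξ
      rw [hIev]
      have h' : ((F.leadingCoeff.natDegree + ∑ i, max τ (ldw (p i)) : ℚ) : ℝ) < (w : ℝ) := by
        exact_mod_cast h
      exact tendsto_nhds_unique (Lead.lim2 F τ w hw ξ)
        (Lead.lim_scale _ _ _ h' _ (Lead.lim1 F hF K p hp τ hτ hτK ξ))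
  rw [← hwW]
  refine ⟨hw, ?_⟩
  refine Polynomial.eq_of_infinite_eval_eq _ _ (Lead.real_infinite.mono ?_)
  rintro _ ⟨ξ, rfl⟩
  change _ = _
  rw [hRev, hIev]
  have h1 := Lead.lim1 F hF K p hp τ hτ hτK ξ
  rw [← hwW] at h1
  exact tendsto_nhds_unique (Lead.lim2 F τ w hw ξ) h1

end Pool.Agent.FPO
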