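import Pool.Agent.FPO.Fac
import Pool.Agent.FPO.GHen
import Pool.Agent.FPO.Alp
import Pool.Agent.FPO.Cop

/-!
# FPO module Low: lower bound off a curve (diff 3)

Notation: `v = τ.den`, `m = minpoly ℚ (c^v)`, `q = qf τ c = expand v m`, `M = s * natDegree q`,
`w₂ = w - τ M ≥ 1`, `h = X^{j₀} * expand v Φ`, so `ini τ w F = q^s * h` (`expand` is multiplicative).

PROOF.  Put `g₁ = hmg τ (τ M) (q^s)`, `g₂ = hmg τ w₂ h`.
Okw: `q^s = expand v (m^s)` has exponents divisible by `v`, so `τ M - τ j ∈ ℤ` (`τ v = τ.num`;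
`M = s v deg m`); hence `Okw τ (τM) (q^s)`; `Okw τ w₂ h`: there is an exponent `j₁` of `ini`
(`natTrailingDegree`) with `w - τ j₁ ∈ ℤ`; all exponents of `h` and of `ini` are `≡ j₀ mod v`, so
`w - τ j ∈ ℤ` for every `j ≡ j₀ (v)`, and `τ M ∈ ℤ`.
Then `g₁` is monic of degree `M` (`hmg_monic`), `LHom τ (τM) g₁`, `LHom τ w₂ g₂`,
`g₁ g₂ = hmg τ w (ini τ w F)` (`hmg_mul`), `IsCoprime g₁ g₂` (`cop`, `m.coeff 0 ≠ 0` by
`minpoly.coeff_zero_ne_zero` as `c ≠ 0`), and `toL_sub_hmg` gives the hypothesis `hF` of `ghen` for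
`toL F`; `τ.den * w₂` is an integer (`w ∈ (1/v)ℤ`).
Take `K = 1`: `G₁, G₂` with `R = toL F - G₁ G₂`, `LWLe τ (-1) R`.
Let `ε₀ > 0` and `A = |c| + 1`.  In `Reg τ c ε x₁` (`ε ≤ 1`) we have `|y| ≤ A x^τ`.  By `wb`,
`|lv R x y| ≤ C x^{-1}` and `|lv (G₂ - g₂) x y| ≤ C x^{w₂ - ε'}`.  By `lv_hmg`,
`lv g₂ x y = x^{w₂} h(y/x^τ)` and `h(c) = c^{j₀} Φ(c^v) ≠ 0`, so by continuity there are `ε ∈ (0,1]`
and `b₀ > 0` with `|h(ξ)| ≥ b₀` for `|ξ - c| ≤ ε`.  Hence for `x ≥ x₂` in the region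
`|lv G₂ x y| ≥ (b₀/2) x^{w₂} ≥ (b₀/2) x`.
`alp` applied to `G₁` (monic, `natDegree = M ≥ 1`, `LWLe τ (τM) G₁`), with `η/2`, gives `P ≠ 0`, `x₃`:
if `P(a/D,b/D) ≠ 0` then `|lv G₁| > x^{-η/2}`.  So
`|F| ≥ |lv G₁| |lv G₂| - |lv R| ≥ (b₀/2) x^{1-η/2} - C x^{-1} ≥ (b₀/4) x^{1-η/2} ≥ (b₀/4) x^{1-η}`
for `x` large (WLOG `η ≤ 1`; if `η > 1` use `min η 1`, `x^{1-η} ≤ x^{1 - min η 1}`).
(`natDegree q ≥ 1` because `m` has positive degree.)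
-/

set_option autoImplicit false

open Polynomial

namespace Pool.Agent.FPO

namespace Low

theorem floor_eq {x : ℚ} (h : ∃ z : ℤ, x = z) : ((⌊x⌋ : ℤ) : ℚ) = x := by
  obtain ⟨z, rfl⟩ := h
  rw [Int.floor_intCast]

theorem tau_den (τ : ℚ) (k : ℕ) : τ * ((τ.den * k : ℕ) : ℚ) = ((τ.num * k : ℤ) : ℚ) := by
  push_cast
  rw [← mul_assoc, Rat.mul_den_eq_num]

end Low

open Low in
theorem low (F : Bi) (τ w : ℚ) (hτ : 1 ≤ τ) (hw : HasWt τ w F) (c : ℝ) (hc : c ≠ 0) (j₀ s : ℕ)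
    (Φ : ℚ[X]) (h : FacD τ w c F j₀ s Φ) (hw₂ : 1 ≤ w - τ * (s * (qf τ c).natDegree))
    (D : ℕ) (hD : 0 < D) (η : ℝ) (hη : 0 < η) :
    ∃ P : Bi, P ≠ 0 ∧ ∃ ε c' x₁ : ℝ, 0 < ε ∧ 0 < c' ∧ 1 ≤ x₁ ∧ ∀ a b : ℤ,
      ((a : ℝ) / D, (b : ℝ) / D) ∈ Reg τ c ε x₁ → bv P ((a : ℝ) / D) ((b : ℝ) / D) ≠ 0 →
        c' * ((a : ℝ) / D) ^ (1 - η) ≤ |bv F ((a : ℝ) / D) ((b : ℝ) / D)| := by
  obtain ⟨hs, halg, hcop, hΦ, hini⟩ := h
  obtain ⟨m, hm⟩ : ∃ m, m = minpoly ℚ (c ^ τ.den) := ⟨_, rfl⟩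
  rw [← hm] at hcop hini
  have hvpos : 0 < τ.den := τ.den_pos
  have hint : IsIntegral ℚ (c ^ τ.den) := halg.isIntegral
  obtain ⟨hqm, -, -, -, -, -, -⟩ := qf_props τ hτ c hc halg
  have hq : qf τ c = expand ℚ τ.den m := by rw [qf, hm]
  obtain ⟨p₁, hp₁⟩ : ∃ p₁, p₁ = expand ℚ τ.den (m ^ s) := ⟨_, rfl⟩
  obtain ⟨p₂, hp₂⟩ : ∃ p₂, p₂ = X ^ j₀ * expand ℚ τ.den Φ := ⟨_, rfl⟩
  have hp₁q : p₁ = qf τ c ^ s := by rw [hp₁, hq, map_pow]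
  have hp₁m : p₁.Monic := by rw [hp₁q]; exact hqm.pow s
  have hp₁d : p₁.natDegree = s * (qf τ c).natDegree := by rw [hp₁q, natDegree_pow]
  have hqd : 1 ≤ (qf τ c).natDegree := by
    rw [hq, natDegree_expand, hm]
    exact Nat.mul_pos (minpoly.natDegree_pos hint) hvpos
  have hM1 : 1 ≤ p₁.natDegree := by
    rw [hp₁d]
    exact Nat.mul_pos hs hqd
  have hMv : p₁.natDegree = τ.den * (s * m.natDegree) := by
    rw [hp₁d, hq, natDegree_expand]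
    ring
  obtain ⟨w₂, hw₂d⟩ : ∃ w₂ : ℚ, w₂ = w - τ * p₁.natDegree := ⟨_, rfl⟩
  have hw₂1 : 1 ≤ w₂ := by
    rw [hw₂d, hp₁d]
    push_cast
    exact hw₂
  have hpp : p₁ * p₂ = ini τ w F := by
    rw [hini, hp₁, hp₂, map_mul]
    ring
  -- integrality of weights
  have hz₀ : ∃ z : ℤ, w - τ * j₀ = z := by
    obtain ⟨j₁, hj₁⟩ : ∃ j₁, (ini τ w F).coeff j₁ ≠ 0 := by
      by_contra hcon
      push Not at hcon
      apply hw.ini_ne_zero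
      ext j
      rw [hcon j, coeff_zero]
    obtain ⟨i, hi, -, -⟩ := exists_of_coeff_ini_ne_zero hj₁
    rw [hini, coeff_X_pow_mul'] at hj₁
    split_ifs at hj₁ with h1
    · rw [coeff_expand hvpos] at hj₁
      split_ifs at hj₁ with h2
      · obtain ⟨k, hk⟩ := h2
        have h3 : j₁ = j₀ + τ.den * k := by omega
        refine ⟨i + τ.num * k, ?_⟩
        have h4 := tau_den τ k
        rw [← hi, h3]
        push_cast
        push_cast at h4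
        linear_combination h4
      · exact absurd rfl hj₁
    · exact absurd rfl hj₁
  obtain ⟨z₀, hz₀⟩ := hz₀
  have hok₁ : Okw τ (τ * p₁.natDegree) p₁ := by
    intro j hj
    apply floor_eq
    rw [hp₁, coeff_expand hvpos] at hj
    split_ifs at hj with h2
    · obtain ⟨k, hk⟩ := h2
      refine ⟨τ.num * (s * m.natDegree : ℕ) - τ.num * k, ?_⟩
      have h4 := tau_den τ k
      have h5 := tau_den τ (s * m.natDegree)
      rw [hMv, hk, h5, h4]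
      push_cast
      ring
    · exact absurd rfl hj
  have hok₂ : Okw τ w₂ p₂ := by
    intro j hj
    apply floor_eq
    rw [hp₂, coeff_X_pow_mul'] at hj
    split_ifs at hj with h1
    · rw [coeff_expand hvpos] at hj
      split_ifs at hj with h2
      · obtain ⟨k, hk⟩ := h2
        have h3 : j = j₀ + τ.den * k := by omega
        refine ⟨z₀ - τ.num * (s * m.natDegree : ℕ) - τ.num * k, ?_⟩
        have h4 := tau_den τ k
        have h5 := tau_den τ (s * m.natDegree)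
        rw [hw₂d, hMv, h3]
        push_cast
        push_cast at h4 h5
        linear_combination hz₀ - h4 - h5
      · exact absurd rfl hj
    · exact absurd rfl hj
  obtain ⟨g₁, hg₁⟩ : ∃ g₁, g₁ = hmg τ (τ * p₁.natDegree) p₁ := ⟨_, rfl⟩
  obtain ⟨g₂, hg₂⟩ : ∃ g₂, g₂ = hmg τ w₂ p₂ := ⟨_, rfl⟩
  have hg₁m : g₁.Monic := by rw [hg₁]; exact (hmg_monic hp₁m).1
  have hg₁d : g₁.natDegree = p₁.natDegree := by rw [hg₁]; exact (hmg_monic hp₁m).2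
  have hl₁ : LHom τ (τ * p₁.natDegree) g₁ := by rw [hg₁]; exact lhom_hmg hok₁
  have hl₂ : LHom τ w₂ g₂ := by rw [hg₂]; exact lhom_hmg hok₂
  have hgg : g₁ * g₂ = hmg τ w (ini τ w F) := by
    rw [hg₁, hg₂, ← hmg_mul hok₁ hok₂, hpp, hw₂d]
    congr 1
    ring
  have hgc : IsCoprime g₁ g₂ := by
    rw [hg₁, hg₂, hp₂]
    have h1 : m.coeff 0 ≠ 0 := by
      rw [hm]
      exact minpoly.coeff_zero_ne_zero hint (pow_ne_zero _ hc)
    have h2 := hok₁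
    have h3 := hok₂
    rw [hp₂] at h3
    have h4 : ∀ (w₁ : ℚ), Okw τ w₁ p₁ → IsCoprime (hmg τ w₁ p₁)
        (hmg τ w₂ (X ^ j₀ * expand ℚ τ.den Φ)) := by
      intro w₁ h5
      rw [hp₁] at h5 ⊢
      exact cop τ m Φ s j₀ hcop h1 w₁ w₂ h5 h3
    exact h4 _ h2
  have hFF : ∃ ε : ℚ, 0 < ε ∧ LWLe τ (τ * p₁.natDegree + w₂ - ε) (toL F - g₁ * g₂) := by
    obtain ⟨ε, hε, h1⟩ := toL_sub_hmg hw
    refine ⟨ε, hε, ?_⟩
    rw [hgg]
    have h2 : τ * p₁.natDegree + w₂ - ε = w - ε := by rw [hw₂d]; ring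
    rw [h2]
    exact h1
  have hw₂i : ∃ n : ℤ, (n : ℚ) = τ.den * w₂ := by
    refine ⟨τ.den * z₀ + τ.num * j₀ - τ.num * p₁.natDegree, ?_⟩
    have h1 : (τ.den : ℚ) * τ = τ.num := by
      rw [mul_comm]
      exact Rat.mul_den_eq_num τ
    push_cast
    rw [hw₂d, ← hz₀, ← h1]
    ring
  obtain ⟨G₁, G₂, k1, k2, k3, ⟨ε', hε', k4⟩, k5⟩ := ghen τ (toL F) g₁ g₂ p₁.natDegree w₂ hg₁m hg₁d
    hl₁ hl₂ hw₂i hgc hFF 1
  -- analysis
  obtain ⟨A, hA⟩ : ∃ A : ℝ, A = |c| + 1 := ⟨_, rfl⟩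
  obtain ⟨CR, hCR0, hCR⟩ := wb τ (-1) (toL F - G₁ * G₂) k5 A
  obtain ⟨C₂, hC₂0, hC₂⟩ := wb τ (w₂ - ε') (G₂ - g₂) k4 A
  obtain ⟨η', hη'⟩ : ∃ η' : ℝ, η' = min η 1 := ⟨_, rfl⟩
  have hη'0 : 0 < η' := by rw [hη']; exact lt_min hη one_pos
  have hη'1 : η' ≤ 1 := by rw [hη']; exact min_le_right _ _
  have hη'η : η' ≤ η := by rw [hη']; exact min_le_left _ _
  obtain ⟨P, hP, x₃, hx₃, halp⟩ := alp τ hτ G₁ k1 (by rw [k2]; exact hM1) (by rw [k2]; exact k3)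
    (η' / 2) (by linarith) A D hD
  have hb : aeval c p₂ ≠ 0 := by
    rw [hp₂, map_mul, map_pow, aeval_X, expand_aeval]
    exact mul_ne_zero (pow_ne_zero _ hc) hΦ
  obtain ⟨b₀, hb₀⟩ : ∃ b₀ : ℝ, b₀ = |aeval c p₂| / 2 := ⟨_, rfl⟩
  have hb₀0 : 0 < b₀ := by
    rw [hb₀]
    have := abs_pos.2 hb
    linarith
  have hcont : ∀ᶠ ξ in nhds c, b₀ < |aeval ξ p₂| := by
    have h1 : ContinuousAt (fun ξ : ℝ => |aeval ξ p₂|) c :=
      (p₂.continuous_aeval.continuousAt).abs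
    apply h1.eventually_const_lt
    rw [hb₀]
    have := abs_pos.2 hb
    change |aeval c p₂| / 2 < |aeval c p₂|
    linarith
  obtain ⟨r, hr, hball⟩ := Metric.eventually_nhds_iff_ball.mp hcont
  obtain ⟨ε, hεdef⟩ : ∃ ε : ℝ, ε = min (r / 2) 1 := ⟨_, rfl⟩
  have hε0 : 0 < ε := by rw [hεdef]; exact lt_min (by linarith) one_pos
  have hε1 : ε ≤ 1 := by rw [hεdef]; exact min_le_right _ _
  have hεr : ε < r := by
    rw [hεdef]
    exact lt_of_le_of_lt (min_le_left _ _) (by linarith)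
  have hε'0 : (0 : ℝ) < (ε' : ℝ) := by exact_mod_cast hε'
  obtain ⟨x₄, hx₄⟩ := Filter.eventually_atTop.1
    ((tendsto_rpow_atTop hε'0).eventually_ge_atTop (2 * C₂ / b₀))
  refine ⟨P, hP, ε, b₀ / 4, max (max 1 x₃) (max x₄ (4 * CR / b₀)), hε0, by linarith,
    (le_max_left _ _).trans (le_max_left _ _), ?_⟩
  intro a b hreg hPne
  obtain ⟨x, hx⟩ : ∃ x : ℝ, x = (a : ℝ) / D := ⟨_, rfl⟩
  obtain ⟨y, hy⟩ : ∃ y : ℝ, y = (b : ℝ) / D := ⟨_, rfl⟩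
  have halp' := halp a b
  rw [← hx, ← hy] at hreg hPne ⊢
  rw [← hx, ← hy] at halp'
  obtain ⟨hr1, hr2⟩ := hreg
  have hr1' : max (max 1 x₃) (max x₄ (4 * CR / b₀)) ≤ x := hr1
  have hr2' : |y - c * x ^ (τ : ℝ)| ≤ ε * x ^ (τ : ℝ) := hr2
  have hx1 : 1 ≤ x := ((le_max_left _ _).trans (le_max_left _ _)).trans hr1'
  have hx3 : x₃ ≤ x := ((le_max_right _ _).trans (le_max_left _ _)).trans hr1'
  have hx4 : x₄ ≤ x := ((le_max_left _ _).trans (le_max_right _ _)).trans hr1'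
  have hx5 : 4 * CR / b₀ ≤ x := ((le_max_right _ _).trans (le_max_right _ _)).trans hr1'
  have hx0 : 0 < x := by linarith
  have hxne : x ≠ 0 := hx0.ne'
  have hxτ : 0 < x ^ (τ : ℝ) := Real.rpow_pos_of_pos hx0 _
  have hyA : |y| ≤ A * x ^ (τ : ℝ) := by
    have h1 : |y| ≤ |y - c * x ^ (τ : ℝ)| + |c * x ^ (τ : ℝ)| := by
      have := abs_add_le (y - c * x ^ (τ : ℝ)) (c * x ^ (τ : ℝ))
      rwa [sub_add_cancel] at this
    rw [abs_mul, abs_of_pos hxτ] at h1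
    rw [hA]
    have h2 : ε * x ^ (τ : ℝ) ≤ 1 * x ^ (τ : ℝ) := mul_le_mul_of_nonneg_right hε1 hxτ.le
    linarith
  have hξ : |y / x ^ (τ : ℝ) - c| ≤ ε := by
    have h1 : y / x ^ (τ : ℝ) - c = (y - c * x ^ (τ : ℝ)) / x ^ (τ : ℝ) := by
      field_simp
    rw [h1, abs_div, abs_of_pos hxτ, div_le_iff₀ hxτ]
    exact hr2'
  have hg₂v : b₀ * x ^ (w₂ : ℝ) ≤ |lv g₂ x y| := by
    rw [hg₂, lv_hmg hok₂ hx0, abs_mul, abs_of_pos (Real.rpow_pos_of_pos hx0 _), mul_comm b₀]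
    apply mul_le_mul_of_nonneg_left _ (Real.rpow_pos_of_pos hx0 _).le
    apply (hball _ _).le
    rw [Metric.mem_ball, Real.dist_eq]
    exact lt_of_le_of_lt hξ hεr
  have hG₂v : b₀ / 2 * x ≤ |lv G₂ x y| := by
    have h1 : lv G₂ x y = lv g₂ x y + lv (G₂ - g₂) x y := by
      rw [lv_sub _ _ hxne]
      ring
    have h2 := hC₂ x hx1 y hyA
    have h3 : |lv g₂ x y| ≤ |lv G₂ x y| + |lv (G₂ - g₂) x y| := by
      have h4 : lv g₂ x y = lv G₂ x y - lv (G₂ - g₂) x y := by rw [h1]; ring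
      rw [h4]
      exact abs_sub _ _
    have h5 : C₂ * x ^ ((w₂ - ε' : ℚ) : ℝ) ≤ b₀ / 2 * x ^ (w₂ : ℝ) := by
      have h6 : x ^ ((w₂ - ε' : ℚ) : ℝ) * x ^ (ε' : ℝ) = x ^ (w₂ : ℝ) := by
        rw [← Real.rpow_add hx0]
        congr 1
        push_cast
        ring
      have h7 := hx₄ x hx4
      rw [div_le_iff₀ hb₀0] at h7
      have h8 : 0 < x ^ ((w₂ - ε' : ℚ) : ℝ) := Real.rpow_pos_of_pos hx0 _
      rw [← h6]
      nlinarith [mul_le_mul_of_nonneg_left h7 h8.le]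
    have h9 : x ≤ x ^ (w₂ : ℝ) := by
      have h10 : (1 : ℝ) ≤ (w₂ : ℝ) := by exact_mod_cast hw₂1
      calc x = x ^ (1 : ℝ) := (Real.rpow_one x).symm
        _ ≤ x ^ (w₂ : ℝ) := Real.rpow_le_rpow_of_exponent_le hx1 h10
    have h11 : b₀ / 2 * x ≤ b₀ / 2 * x ^ (w₂ : ℝ) :=
      mul_le_mul_of_nonneg_left h9 (by linarith)
    linarith
  have hG₁v : x ^ (-(η' / 2)) < |lv G₁ x y| := by
    by_contra hcon
    rw [not_lt] at hcon
    exact hPne (halp' hx3 hyA hcon)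
  have hRv : |lv (toL F - G₁ * G₂) x y| ≤ b₀ / 4 := by
    have h1 := hCR x hx1 y hyA
    have h2 : ((-1 : ℚ) : ℝ) = -1 := by push_cast; rfl
    rw [h2, Real.rpow_neg_one] at h1
    refine h1.trans ?_
    rw [← div_eq_mul_inv, div_le_iff₀ hx0]
    rw [div_le_iff₀ hb₀0] at hx5
    linarith
  have hFv : bv F x y = lv G₁ x y * lv G₂ x y + lv (toL F - G₁ * G₂) x y := by
    rw [← lv_toL F hxne y, lv_sub _ _ hxne, lv_mul _ _ hxne]
    ring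
  have h1 : |lv G₁ x y| * |lv G₂ x y| ≤ |bv F x y| + |lv (toL F - G₁ * G₂) x y| := by
    rw [← abs_mul]
    have h2 : lv G₁ x y * lv G₂ x y = bv F x y - lv (toL F - G₁ * G₂) x y := by rw [hFv]; ring
    rw [h2]
    exact abs_sub _ _
  have h2 : x ^ (-(η' / 2)) * (b₀ / 2 * x) ≤ |lv G₁ x y| * |lv G₂ x y| := by
    apply mul_le_mul hG₁v.le hG₂v (by positivity) (abs_nonneg _)
  have h3 : x ^ (-(η' / 2)) * x = x ^ (1 - η' / 2) := by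
    calc x ^ (-(η' / 2)) * x = x ^ (-(η' / 2)) * x ^ (1 : ℝ) := by rw [Real.rpow_one]
      _ = x ^ (1 - η' / 2) := by
        rw [← Real.rpow_add hx0]
        congr 1
        ring
  have h4 : 1 ≤ x ^ (1 - η' / 2) := Real.one_le_rpow hx1 (by linarith)
  have h5 : x ^ (1 - η) ≤ x ^ (1 - η' / 2) :=
    Real.rpow_le_rpow_of_exponent_le hx1 (by linarith)
  have h6 : x ^ (-(η' / 2)) * (b₀ / 2 * x) = b₀ / 2 * x ^ (1 - η' / 2) := by
    rw [← h3]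
    ring
  have h7 : b₀ / 4 * x ^ (1 - η) ≤ b₀ / 4 * x ^ (1 - η' / 2) :=
    mul_le_mul_of_nonneg_left h5 (by linarith)
  have h8 : b₀ / 4 * 1 ≤ b₀ / 4 * x ^ (1 - η' / 2) :=
    mul_le_mul_of_nonneg_left h4 (by linarith)
  linarith

end Pool.Agent.FPO
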