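import Pool.Agent.FPO.CaC

/-!
# FPO module OrI: irrational zero directions (diff 1)
-/

set_option autoImplicit false

open Polynomial

namespace Pool.Agent.FPO

/-- The identity chart. -/
theorem OrI.chart (α : ℝ) (F₀ : MvPolynomial (Fin 2) ℚ) :
    Chart (sec α) F₀ (MvPolynomial.X 0) (MvPolynomial.X 1) (toBi F₀) := by
  have hid : ∀ P : MvPolynomial (Fin 2) ℚ,
      bv (toBi P) (MvPolynomial.X 0 : MvPolynomial (Fin 2) ℚ) (MvPolynomial.X 1) = P := by
    intro P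
    rw [bv_toBi]
    have h : (![MvPolynomial.X 0, MvPolynomial.X 1] : Fin 2 → MvPolynomial (Fin 2) ℚ) =
        MvPolynomial.X := by
      funext i
      fin_cases i <;> rfl
    rw [h]
    exact MvPolynomial.aeval_X_left_apply P
  refine ⟨hid F₀, fun G hG h0 => hG ?_, 1, one_pos, fun u _ => ⟨u.1, u.2, ?_, ?_⟩⟩
  · have h1 := map_bv (MvPolynomial.aeval ![(C X : Bi), (X : Bi)]).toRingHom G
      (MvPolynomial.X 0 : MvPolynomial (Fin 2) ℚ) (MvPolynomial.X 1)
    rw [h0, map_zero] at h1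
    have h2 : (MvPolynomial.aeval ![(C X : Bi), (X : Bi)]).toRingHom
        (MvPolynomial.X 0 : MvPolynomial (Fin 2) ℚ) = (C X : Bi) :=
      MvPolynomial.aeval_X _ _
    have h3 : (MvPolynomial.aeval ![(C X : Bi), (X : Bi)]).toRingHom
        (MvPolynomial.X 1 : MvPolynomial (Fin 2) ℚ) = (X : Bi) :=
      MvPolynomial.aeval_X _ _
    rw [h2, h3, bv_C_X_eq_comp, comp_X] at h1
    exact h1.symm
  · simp [evz]
  · simp [evz]

theorem orI (α : ℝ) (hα : 0 < α) (F₀ : MvPolynomial (Fin 2) ℚ) (hE : Enum (sec α) F₀)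
    (hd : 3 ≤ F₀.totalDegree) (t₀ : ℝ) (ht0 : 0 < t₀) (htα : t₀ ≤ α) (hirr : Irrational t₀)
    (hroot : aeval t₀ (ini 1 (F₀.totalDegree : ℚ) (toBi F₀)) = 0)
    (hNo : ¬ ∃ (s : ℕ) (b : ℚ), ini 1 (F₀.totalDegree : ℚ) (toBi F₀) = C b * minpoly ℚ t₀ ^ s ∧
      F₀.totalDegree = s * (minpoly ℚ t₀).natDegree ∧ (Even s ∨ t₀ = α)) :
    ∃ ε x₁ : ℝ, 0 < ε ∧
      SmlS F₀ {u | u ∈ sec α ∧ x₁ ≤ (u.1 : ℝ) ∧ |(u.2 : ℝ) - t₀ * u.1| ≤ ε * u.1} := by
  have hF₀ : F₀ ≠ 0 := by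
    rintro rfl
    rw [MvPolynomial.totalDegree_zero] at hd
    omega
  have hw := hasWt_toBi hF₀
  have h3 : (3 : ℚ) ≤ (F₀.totalDegree : ℚ) := by exact_mod_cast hd
  rcases caseA (toBi F₀) 1 (F₀.totalDegree : ℚ) le_rfl hw t₀ ht0.ne' (Or.inr hirr)
    (fun _ => h3) hroot 1 one_pos with hA | hS
  · obtain ⟨q, s, hA⟩ := hA
    have hA' := hA
    obtain ⟨b, hb, hq, -, -, -, hs1, hini, hwq, -, hq1⟩ := hA
    have hqm := hq1 rfl
    subst hqm
    refine absurd ⟨s, b, hini, ?_, ?_⟩ hNo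
    · have h4 : (F₀.totalDegree : ℚ) = ((s * (minpoly ℚ t₀).natDegree : ℕ) : ℚ) := by
        rw [hwq]
        push_cast
        ring
      exact_mod_cast h4
    · rcases eq_or_lt_of_le htα with h5 | h5
      · exact Or.inr h5
      · left
        obtain ⟨ε, hε, hε1, hε2⟩ : ∃ ε : ℝ, 0 < ε ∧ ε < t₀ ∧ t₀ + ε < α := by
          refine ⟨min t₀ (α - t₀) / 2, ?_, ?_, ?_⟩
          · have : 0 < min t₀ (α - t₀) := lt_min ht0 (by linarith)
            linarith
          · have := min_le_left t₀ (α - t₀)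
            linarith
          · have := min_le_right t₀ (α - t₀)
            have h6 : 0 < min t₀ (α - t₀) := lt_min ht0 (by linarith)
            linarith
        refine sgn (toBi F₀) 1 (F₀.totalDegree : ℚ) le_rfl hw t₀ _ s hA' 1 one_pos ε 1 hε ?_
        intro x y hxy
        obtain ⟨h6, h7⟩ := hxy
        simp only [Nat.cast_one, one_mul, Rat.cast_one, Real.rpow_one] at h6 h7
        have hx : (0 : ℝ) < x := by linarith
        rw [abs_le] at h7
        have hmem : (x, y) ∈ sec α := by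
          refine ⟨?_, ?_, ?_⟩
          · exact_mod_cast hx.le
          · have : (0 : ℝ) ≤ y := by nlinarith
            exact_mod_cast this
          · change (y : ℝ) ≤ α * (x : ℝ)
            nlinarith
        obtain ⟨n, hn⟩ := hE.nat _ hmem
        have h8 := evz_toBi_real F₀ (x, y)
        simp only [Nat.cast_one, one_mul]
        rw [← h8, hn]
        simp
  · obtain ⟨ε, x₁, hε, hS⟩ := hS
    refine ⟨ε, x₁, hε, ?_⟩
    have hch := OrI.chart α F₀
    have hT := transfer hE hch 1 one_pos (fun u _ => ⟨u.1, u.2, by simp [evz], by simp [evz]⟩) _ hS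
    have hset : {u | u ∈ sec α ∧ x₁ ≤ (u.1 : ℝ) ∧ |(u.2 : ℝ) - t₀ * u.1| ≤ ε * u.1} =
        {u | u ∈ sec α ∧ pt (MvPolynomial.X 0) (MvPolynomial.X 1) u ∈ Reg 1 t₀ ε x₁} := by
      ext u
      have h1 : evz (MvPolynomial.X 0) u = (u.1 : ℚ) := by simp [evz]
      have h2 : evz (MvPolynomial.X 1) u = (u.2 : ℚ) := by simp [evz]
      simp only [Set.mem_setOf_eq, pt, Reg, h1, h2, Rat.cast_intCast, Rat.cast_one,
        Real.rpow_one]
    rw [hset]
    exact hT

end Pool.Agent.FPO
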