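import Pool.Agent.FPO.Api

/-!
# FPO module SmU: smallness is stable (diff 1)

PROOF.  Union: `G = G₁ * G₂`, `T = T₁ ∪ T₂`, `δ = min δ₁ δ₂`, `C = max C₁ 0 + max C₂ 0`
(`n ≥ 1`, so `n^{1-δ_i} ≤ n^{1-δ}`; `evz` is multiplicative).  Monotonicity: clear.  Finite unions:
induction on the finset (the empty set: `G = 1`, `T = ∅`).  Finite sets: `G = 1`, `T = U`,
`δ = 1`, `C = |U|` (`n^0 = 1`).  Zero set of `G`: `T = ∅`.
-/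

set_option autoImplicit false

open Polynomial

namespace Pool.Agent.FPO

theorem SmlS.union {F₀ : MvPolynomial (Fin 2) ℚ} {U V : Set (ℤ × ℤ)} (hU : SmlS F₀ U)
    (hV : SmlS F₀ V) : SmlS F₀ (U ∪ V) := by
  classical
  obtain ⟨G₁, hG₁, C₁, δ₁, hδ₁, h₁⟩ := hU
  obtain ⟨G₂, hG₂, C₂, δ₂, hδ₂, h₂⟩ := hV
  refine ⟨G₁ * G₂, mul_ne_zero hG₁ hG₂, max C₁ 0 + max C₂ 0, min δ₁ δ₂, lt_min hδ₁ hδ₂, ?_⟩
  intro n hn
  obtain ⟨T₁, hT₁, hT₁'⟩ := h₁ n hn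
  obtain ⟨T₂, hT₂, hT₂'⟩ := h₂ n hn
  have hn1 : (1 : ℝ) ≤ (n : ℝ) := by exact_mod_cast hn
  have e₁ : (n : ℝ) ^ (1 - δ₁) ≤ (n : ℝ) ^ (1 - min δ₁ δ₂) :=
    Real.rpow_le_rpow_of_exponent_le hn1 (by linarith [min_le_left δ₁ δ₂])
  have e₂ : (n : ℝ) ^ (1 - δ₂) ≤ (n : ℝ) ^ (1 - min δ₁ δ₂) :=
    Real.rpow_le_rpow_of_exponent_le hn1 (by linarith [min_le_right δ₁ δ₂])
  have p₁ : (0 : ℝ) ≤ (n : ℝ) ^ (1 - δ₁) := by positivity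
  have p₂ : (0 : ℝ) ≤ (n : ℝ) ^ (1 - δ₂) := by positivity
  refine ⟨T₁ ∪ T₂, ?_, ?_⟩
  · have hc : ((T₁ ∪ T₂).card : ℝ) ≤ T₁.card + T₂.card := by
      exact_mod_cast Finset.card_union_le T₁ T₂
    have a₁ : C₁ * (n : ℝ) ^ (1 - δ₁) ≤ max C₁ 0 * (n : ℝ) ^ (1 - min δ₁ δ₂) :=
      mul_le_mul (le_max_left _ _) e₁ p₁ (le_max_right _ _)
    have a₂ : C₂ * (n : ℝ) ^ (1 - δ₂) ≤ max C₂ 0 * (n : ℝ) ^ (1 - min δ₁ δ₂) :=
      mul_le_mul (le_max_left _ _) e₂ p₂ (le_max_right _ _)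
    rw [add_mul]
    linarith
  · intro u hu hF hG
    have hev : evz (G₁ * G₂) u = evz G₁ u * evz G₂ u := by
      simp [evz]
    rw [hev] at hG
    rw [Finset.mem_union]
    rcases hu with hu | hu
    · exact Or.inl (hT₁' u hu hF (left_ne_zero_of_mul hG))
    · exact Or.inr (hT₂' u hu hF (right_ne_zero_of_mul hG))

theorem SmlS.mono {F₀ : MvPolynomial (Fin 2) ℚ} {U V : Set (ℤ × ℤ)} (hV : SmlS F₀ V)
    (h : U ⊆ V) : SmlS F₀ U := by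
  obtain ⟨G, hG, C, δ, hδ, h₁⟩ := hV
  refine ⟨G, hG, C, δ, hδ, fun n hn => ?_⟩
  obtain ⟨T, hT, hT'⟩ := h₁ n hn
  exact ⟨T, hT, fun u hu => hT' u (h hu)⟩

theorem SmlS.of_finite {F₀ : MvPolynomial (Fin 2) ℚ} {U : Set (ℤ × ℤ)} (h : U.Finite) :
    SmlS F₀ U := by
  refine ⟨1, one_ne_zero, h.toFinset.card, 1, one_pos, fun n hn => ⟨h.toFinset, ?_, ?_⟩⟩
  · rw [sub_self, Real.rpow_zero, mul_one]
  · intro u hu _ _
    exact h.mem_toFinset.2 hu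

theorem SmlS.biUnion {F₀ : MvPolynomial (Fin 2) ℚ} {ι : Type*} (s : Finset ι)
    (U : ι → Set (ℤ × ℤ)) (h : ∀ i ∈ s, SmlS F₀ (U i)) : SmlS F₀ (⋃ i ∈ s, U i) := by
  classical
  induction s using Finset.induction_on with
  | empty =>
    refine SmlS.of_finite ?_
    simp
  | insert a s ha ih =>
    rw [Finset.set_biUnion_insert]
    refine SmlS.union (h a (Finset.mem_insert_self a s)) (ih fun i hi => ?_)
    exact h i (Finset.mem_insert_of_mem hi)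

theorem SmlS.of_zero {F₀ G : MvPolynomial (Fin 2) ℚ} {U : Set (ℤ × ℤ)} (hG : G ≠ 0)
    (h : ∀ u ∈ U, evz G u = 0) : SmlS F₀ U := by
  refine ⟨G, hG, 0, 1, one_pos, fun n hn => ⟨∅, ?_, ?_⟩⟩
  · simp
  · intro u hu _ hne
    exact absurd (h u hu) hne

end Pool.Agent.FPO
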