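import Pool.Agent.FPO.Asy
import Pool.Agent.FPO.ToBi
import Pool.Agent.FPO.SmU

/-!
# FPO module OrN: directions where the top form does not vanish (diff 1)
-/

set_option autoImplicit false

open Polynomial

namespace Pool.Agent.FPO

theorem orN (α : ℝ) (hα : 0 < α) (F₀ : MvPolynomial (Fin 2) ℚ) (hE : Enum (sec α) F₀)
    (hd : 3 ≤ F₀.totalDegree) (t₀ : ℝ)
    (hne : aeval t₀ (ini 1 (F₀.totalDegree : ℚ) (toBi F₀)) ≠ 0) :
    ∃ ε x₁ : ℝ, 0 < ε ∧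
      SmlS F₀ {u | u ∈ sec α ∧ x₁ ≤ (u.1 : ℝ) ∧ |(u.2 : ℝ) - t₀ * u.1| ≤ ε * u.1} := by
  have hF₀ : F₀ ≠ 0 := by
    rintro rfl
    rw [MvPolynomial.totalDegree_zero] at hd
    omega
  have hw := hasWt_toBi hF₀
  set d : ℕ := F₀.totalDegree with hddef
  set f : ℝ → ℝ := fun ξ => aeval ξ (ini 1 (d : ℚ) (toBi F₀)) with hf
  have hcont : Continuous f := by
    exact Polynomial.continuous_aeval _
  have hf0 : 0 < |f t₀| := abs_pos.2 hne
  obtain ⟨ε, hε, hball⟩ := Metric.continuousAt_iff.1 hcont.continuousAt (|f t₀| / 2) (by positivity)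
  set μ : ℝ := |f t₀| / 2 with hμdef
  have hμ : 0 < μ := by positivity
  have hlow : ∀ ξ : ℝ, |ξ - t₀| ≤ ε / 2 → μ ≤ |f ξ| := by
    intro ξ hξ
    have h1 := hball (x := ξ) (by rw [Real.dist_eq]; linarith)
    rw [Real.dist_eq] at h1
    have h2 := abs_sub_abs_le_abs_sub (f t₀) (f ξ)
    rw [abs_sub_comm] at h2
    linarith
  set ε' : ℝ := ε / 2 with hε'
  have hε'0 : 0 < ε' := by positivity
  obtain ⟨C, σ, hσ, hC, hasy⟩ := asy (toBi F₀) 1 (d : ℚ) hw (|t₀| + ε')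
  -- threshold
  obtain ⟨x₁, hx₁, hx₁C⟩ : ∃ x₁ : ℝ, 1 ≤ x₁ ∧ ∀ x : ℝ, x₁ ≤ x → C * x ^ (-σ) ≤ μ / 2 := by
    have h1 : Filter.Tendsto (fun x : ℝ => C * x ^ (-σ)) Filter.atTop (nhds (C * 0)) :=
      (tendsto_rpow_neg_atTop hσ).const_mul C
    rw [mul_zero] at h1
    have h2 := h1.eventually (ge_mem_nhds (show (0 : ℝ) < μ / 2 by positivity))
    obtain ⟨x₂, hx₂⟩ := Filter.eventually_atTop.1 h2
    exact ⟨max x₂ 1, le_max_right _ _, fun x hx => hx₂ x ((le_max_left _ _).trans hx)⟩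
  have hbound : ∀ x y : ℝ, x₁ ≤ x → |y - t₀ * x| ≤ ε' * x →
      μ / 2 * x ^ d ≤ |bv (toBi F₀) x y| := by
    intro x y hx hy
    have hx1 : 1 ≤ x := hx₁.trans hx
    have hx0 : 0 < x := by linarith
    have hyA : |y| ≤ (|t₀| + ε') * x := by
      have h1 : |y| ≤ |y - t₀ * x| + |t₀ * x| := by
        have := abs_add_le (y - t₀ * x) (t₀ * x)
        simpa using this
      rw [abs_mul, abs_of_pos hx0] at h1
      linarith
    have h2 := hasy x hx1 y (by simpa using hyA)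
    simp only [Rat.cast_one, Real.rpow_one, Rat.cast_natCast, Real.rpow_natCast] at h2
    have h3 : |y / x - t₀| ≤ ε' := by
      have : y / x - t₀ = (y - t₀ * x) / x := by field_simp
      rw [this, abs_div, abs_of_pos hx0, div_le_iff₀ hx0]
      exact hy
    have h4 := hlow _ h3
    have h5 : x ^ ((d : ℝ) - σ) = x ^ d * x ^ (-σ) := by
      rw [sub_eq_add_neg, Real.rpow_add hx0, Real.rpow_natCast]
    rw [h5] at h2
    have hxd : 0 < x ^ d := by positivity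
    have h6 : |x ^ d * f (y / x)| = x ^ d * |f (y / x)| := by
      rw [abs_mul, abs_of_pos hxd]
    have h7 := abs_sub_abs_le_abs_sub (x ^ d * f (y / x)) (bv (toBi F₀) x y)
    rw [h6, abs_sub_comm] at h7
    have h8 := hx₁C x hx
    have h9 : C * (x ^ d * x ^ (-σ)) ≤ x ^ d * (μ / 2) := by
      have : C * (x ^ d * x ^ (-σ)) = x ^ d * (C * x ^ (-σ)) := by ring
      rw [this]
      exact mul_le_mul_of_nonneg_left h8 hxd.le
    have h10 : x ^ d * μ ≤ x ^ d * |f (y / x)| := mul_le_mul_of_nonneg_left h4 hxd.le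
    have h11 : |bv (toBi F₀) x y - x ^ d * f (y / x)| ≤ C * (x ^ d * x ^ (-σ)) := h2
    nlinarith
  -- counting
  set A : ℝ := |t₀| + ε' with hA
  have hA0 : 0 < A := by positivity
  set B : ℝ := max (2 / μ) 1 with hB
  have hB1 : 1 ≤ B := le_max_right _ _
  refine ⟨ε', x₁, hε'0, 1, one_ne_zero, (B + 2) * (2 * A * B + 2), 1 / 3, by norm_num,
    fun n hn => ?_⟩
  have hn1 : (1 : ℝ) ≤ n := by exact_mod_cast hn
  set Z : ℝ := B * (n : ℝ) ^ (1 / 3 : ℝ) with hZ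
  have hnpow : (1 : ℝ) ≤ (n : ℝ) ^ (1 / 3 : ℝ) := Real.one_le_rpow hn1 (by norm_num)
  have hZ1 : 1 ≤ Z := by nlinarith
  refine ⟨(Finset.Icc (0 : ℤ) ⌊Z⌋) ×ˢ (Finset.Icc (-⌊A * Z⌋) ⌊A * Z⌋), ?_, ?_⟩
  · rw [Finset.card_product, Int.card_Icc, Int.card_Icc]
    have h1 : (((⌊Z⌋ + 1 - 0).toNat : ℕ) : ℝ) ≤ Z + 1 := by
      have h2 : (0 : ℤ) ≤ ⌊Z⌋ + 1 - 0 := by
        have : 0 ≤ ⌊Z⌋ := Int.floor_nonneg.2 (by linarith)
        omega
      have h3 : (((⌊Z⌋ + 1 - 0).toNat : ℤ) : ℝ) = ((⌊Z⌋ + 1 - 0 : ℤ) : ℝ) := by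
        rw [Int.toNat_of_nonneg h2]
      rw [← Int.cast_natCast, h3]
      push_cast
      linarith [Int.floor_le Z]
    have hAZ0 : 0 ≤ A * Z := by positivity
    have h1' : (((⌊A * Z⌋ + 1 - -⌊A * Z⌋).toNat : ℕ) : ℝ) ≤ 2 * (A * Z) + 1 := by
      have h2 : (0 : ℤ) ≤ ⌊A * Z⌋ + 1 - -⌊A * Z⌋ := by
        have : 0 ≤ ⌊A * Z⌋ := Int.floor_nonneg.2 hAZ0
        omega
      have h3 : (((⌊A * Z⌋ + 1 - -⌊A * Z⌋).toNat : ℤ) : ℝ) =
          ((⌊A * Z⌋ + 1 - -⌊A * Z⌋ : ℤ) : ℝ) := by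
        rw [Int.toNat_of_nonneg h2]
      rw [← Int.cast_natCast, h3]
      push_cast
      linarith [Int.floor_le (A * Z)]
    push_cast
    have h4 : (n : ℝ) ^ (1 - 1 / 3 : ℝ) = (n : ℝ) ^ (1 / 3 : ℝ) * (n : ℝ) ^ (1 / 3 : ℝ) := by
      rw [← Real.rpow_add (by linarith)]
      norm_num
    rw [h4]
    set P : ℝ := (n : ℝ) ^ (1 / 3 : ℝ) with hP
    calc (((⌊Z⌋ + 1 - 0).toNat : ℕ) : ℝ) * (((⌊A * Z⌋ + 1 - -⌊A * Z⌋).toNat : ℕ) : ℝ)
        ≤ (Z + 1) * (2 * (A * Z) + 1) := by gcongr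
      _ = (B * P + 1) * (2 * A * B * P + 1) := by rw [hZ]; ring
      _ ≤ ((B + 2) * P) * ((2 * A * B + 2) * P) := by
          have h5 : B * P + 1 ≤ (B + 2) * P := by nlinarith
          have h6 : 2 * A * B * P + 1 ≤ (2 * A * B + 2) * P := by nlinarith
          have h7 : 0 ≤ B * P + 1 := by positivity
          have h8 : 0 ≤ 2 * A * B * P + 1 := by positivity
          exact mul_le_mul h5 h6 h8 (h7.trans h5)
      _ = (B + 2) * (2 * A * B + 2) * (P * P) := by ring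
  · rintro ⟨a, b⟩ ⟨hu, hux, huy⟩ hle -
    have hx0 : (0 : ℝ) ≤ a := by linarith
    have h1 := hbound (a : ℝ) (b : ℝ) hux huy
    rw [← evz_toBi_real F₀ (a, b)] at h1
    obtain ⟨m, hm⟩ := hE.nat _ hu
    rw [hm] at h1 hle
    have hmn : (m : ℝ) ≤ n := by exact_mod_cast hle
    have h2 : |(((m : ℚ)) : ℝ)| = m := by simp
    rw [h2] at h1
    have hx1 : (1 : ℝ) ≤ a := hx₁.trans hux
    have h3 : (a : ℝ) ^ 3 ≤ (a : ℝ) ^ d := pow_le_pow_right₀ hx1 hd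
    have h4 : (a : ℝ) ^ 3 ≤ 2 / μ * n := by
      have h5 : μ / 2 * (a : ℝ) ^ 3 ≤ n := by nlinarith
      rw [div_mul_eq_mul_div, le_div_iff₀ hμ]
      linarith
    have h5 : (a : ℝ) ^ 3 ≤ Z ^ 3 := by
      have h6 : Z ^ 3 = B ^ 3 * n := by
        rw [hZ, mul_pow, ← Real.rpow_natCast ((n : ℝ) ^ (1 / 3 : ℝ)), ← Real.rpow_mul (by linarith)]
        norm_num
      rw [h6]
      refine h4.trans (mul_le_mul_of_nonneg_right ?_ (by linarith))
      calc 2 / μ ≤ B := le_max_left _ _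
        _ = B ^ 1 := (pow_one B).symm
        _ ≤ B ^ 3 := pow_le_pow_right₀ hB1 (by norm_num)
    have h6 : (a : ℝ) ≤ Z := le_of_pow_le_pow_left₀ (by norm_num) (by linarith) h5
    have h7 : |(b : ℝ)| ≤ A * Z := by
      have h8 : |(b : ℝ)| ≤ |(b : ℝ) - t₀ * a| + |t₀ * a| := by
        have := abs_add_le ((b : ℝ) - t₀ * a) (t₀ * a)
        simpa using this
      rw [abs_mul, abs_of_nonneg hx0] at h8
      have h9 : |(b : ℝ)| ≤ A * a := by
        rw [hA]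
        have : |(b : ℝ) - t₀ * a| ≤ ε' * a := huy
        linarith
      exact h9.trans (mul_le_mul_of_nonneg_left h6 hA0.le)
    rw [abs_le] at h7
    rw [Finset.mem_product, Finset.mem_Icc, Finset.mem_Icc]
    refine ⟨⟨by exact_mod_cast hx0, Int.le_floor.2 h6⟩, ?_, Int.le_floor.2 h7.2⟩
    have h8 : ((-b : ℤ) : ℝ) ≤ A * Z := by
      push_cast
      linarith [h7.1]
    have h9 := Int.le_floor.2 h8
    change -⌊A * Z⌋ ≤ b
    omega

end Pool.Agent.FPO
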