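import Pool.Agent.FPO.Api

/-!
# FPO module Ratl: an enumerating polynomial has rational coefficients (diff 2)

PROOF.  `Pool.Agent.Pack.rat_of_values` (file `Pool/Agent/Pack/Rat.lean`, landed; import it if you
like): a polynomial `p : ℝ[X]` with rational values at all large naturals is
`q.map (algebraMap ℚ ℝ)` for some `q : ℚ[X]`.
Write `f` as a polynomial in `y` with coefficients in `ℝ[x]`: `f = ∑_{j ≤ d} A_j(x) y^j`
(`d = f.totalDegree`; e.g. through `MvPolynomial.aeval ![C X, X] : MvPolynomial (Fin 2) ℝ → ℝ[X][X]`,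
which is injective, with values `(aeval f).evalEval`...).  For each `l = 0, …, d` the polynomial
`f(x, l) = ∑_j A_j(x) l^j` takes integral values at all large integers `x` (the points `(x, l)` with
`α x ≥ l` are in the sector), so it has rational coefficients.  The Vandermonde matrix
`(l^j)_{l,j ≤ d}` is invertible over `ℚ` (`Matrix.det_vandermonde_ne_zero_iff`), so each `A_j` is a
rational combination of the `f(x, l)`, `l ≤ d` (or: for each `i`, the real polynomial
`∑_j (coefficient of x^i in A_j) y^j` has rational values at `y = 0, …, d`, so it is a Lagrange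
interpolation polynomial with rational data, see the proof of `rat_of_values`;
`Lagrange.interpolate`).  Hence all coefficients of `f` are rational, and
`F₀ := ∑ over the support, monomial m (rational coefficient)` maps to `f`
(`MvPolynomial.mem_range_map_iff...`; simplest: every coefficient is in the range of
`algebraMap ℚ ℝ`, choose preimages, and `f = ∑ m ∈ f.support, monomial m (f.coeff m)`).
-/

set_option autoImplicit false

open Polynomial

namespace Pool.Agent.FPO

/-- A rational polynomial in two variables vanishing on the sector is zero. -/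
theorem Ratl.zero (α : ℝ) (hα : 0 < α) (G : MvPolynomial (Fin 2) ℚ)
    (h : ∀ v ∈ sec α, MvPolynomial.eval ![(v.1 : ℚ), (v.2 : ℚ)] G = 0) : G = 0 := by
  obtain ⟨M, hM⟩ := exists_nat_ge (1 / α)
  have hM' : 1 ≤ α * M := by
    rw [div_le_iff₀ hα] at hM
    linarith
  set H : MvPolynomial (Fin 2) ℚ := MvPolynomial.aeval
    ![(MvPolynomial.X 0 + MvPolynomial.C (M : ℚ) * MvPolynomial.X 1 : MvPolynomial (Fin 2) ℚ),
      MvPolynomial.X 1] G with hH
  have hev : ∀ x : Fin 2 → ℚ, MvPolynomial.eval x H =
      MvPolynomial.eval ![x 0 + M * x 1, x 1] G := by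
    intro x
    have e1 := MvPolynomial.comp_aeval_apply (φ := MvPolynomial.aeval (R := ℚ) x)
      (f := ![(MvPolynomial.X 0 + MvPolynomial.C (M : ℚ) * MvPolynomial.X 1 : MvPolynomial (Fin 2) ℚ),
      MvPolynomial.X 1]) (p := G)
    rw [← hH] at e1
    rw [← MvPolynomial.coe_aeval_eq_eval, ← MvPolynomial.coe_aeval_eq_eval]
    change MvPolynomial.aeval x H = MvPolynomial.aeval _ G
    rw [e1]
    congr 2
    ext i
    fin_cases i <;> simp
  have hH0 : H = 0 := by
    refine MvPolynomial.funext_set (fun _ => Set.range (Nat.cast : ℕ → ℚ))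
      (fun _ => Set.infinite_range_of_injective Nat.cast_injective) fun x hx => ?_
    rw [hev, map_zero]
    obtain ⟨a, ha⟩ := hx 0 (Set.mem_univ _)
    obtain ⟨b, hb⟩ := hx 1 (Set.mem_univ _)
    have h1 := h ((a : ℤ) + M * b, (b : ℤ)) ⟨by positivity, by positivity, by
      push_cast
      have hb0 : (0 : ℝ) ≤ b := Nat.cast_nonneg b
      have ha0 : (0 : ℝ) ≤ a := Nat.cast_nonneg a
      nlinarith [mul_nonneg hα.le ha0, mul_nonneg (sub_nonneg.2 hM') hb0]⟩
    rw [← ha, ← hb]
    simpa using h1
  refine MvPolynomial.funext fun x => ?_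
  have h2 := hev ![x 0 - M * x 1, x 1]
  rw [hH0, map_zero] at h2
  rw [map_zero, h2]
  congr 2
  ext i
  fin_cases i <;> simp

theorem ratl (α : ℝ) (hα : 0 < α) (f : MvPolynomial (Fin 2) ℝ)
    (hf : ∀ v ∈ sec α, ∃ n : ℤ, MvPolynomial.eval ![(v.1 : ℝ), (v.2 : ℝ)] f = n) :
    ∃ F₀ : MvPolynomial (Fin 2) ℚ, MvPolynomial.map (algebraMap ℚ ℝ) F₀ = f := by
  classical
  have key : ∀ m, ∃ r : ℚ, (r : ℝ) = f.coeff m := by
    intro m
    by_contra hm
    push Not at hm
    have hmem : f.coeff m ∉ Submodule.span ℚ {(1 : ℝ)} := by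
      intro hc
      obtain ⟨r, hr⟩ := Submodule.mem_span_singleton.1 hc
      refine hm r ?_
      rw [← hr, Rat.smul_def, mul_one]
    obtain ⟨φ, hφ1, hφ2⟩ := Submodule.exists_dual_map_eq_bot_of_notMem hmem inferInstance
    have hφ3 : φ 1 = 0 := by
      have h1 : φ 1 ∈ (Submodule.span ℚ {(1 : ℝ)}).map φ :=
        Submodule.mem_map_of_mem (Submodule.mem_span_singleton_self _)
      rw [hφ2] at h1
      exact (Submodule.mem_bot ℚ).1 h1
    set G : MvPolynomial (Fin 2) ℚ := ∑ k ∈ f.support, MvPolynomial.monomial k (φ (f.coeff k))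
      with hG
    have hGc : G.coeff m = φ (f.coeff m) := by
      rw [hG, MvPolynomial.coeff_sum]
      simp only [MvPolynomial.coeff_monomial]
      rw [Finset.sum_ite_eq' f.support m]
      split_ifs with h
      · rfl
      · rw [MvPolynomial.notMem_support_iff.1 h, map_zero]
    have hG0 : G = 0 := by
      refine Ratl.zero α hα G fun v hv => ?_
      obtain ⟨n, hn⟩ := hf v hv
      have h1 : φ (MvPolynomial.eval ![(v.1 : ℝ), (v.2 : ℝ)] f) = 0 := by
        rw [hn]
        have : (n : ℝ) = (n : ℚ) • (1 : ℝ) := by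
          rw [Rat.smul_def, mul_one]; simp
        rw [this, map_smul, hφ3, smul_zero]
      rw [← h1, hG, map_sum, MvPolynomial.eval_eq, map_sum]
      refine Finset.sum_congr rfl fun k _ => ?_
      have h2 : f.coeff k * ∏ i ∈ k.support, ![(v.1 : ℝ), (v.2 : ℝ)] i ^ k i =
          (∏ i ∈ k.support, ![(v.1 : ℚ), (v.2 : ℚ)] i ^ k i) • f.coeff k := by
        rw [Rat.smul_def, mul_comm]
        congr 1
        push_cast
        refine Finset.prod_congr rfl fun i _ => ?_
        fin_cases i <;> simp
      rw [h2, map_smul, MvPolynomial.eval_monomial, smul_eq_mul, mul_comm]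
      rfl
    rw [hG0] at hGc
    exact hφ1 (by rw [← hGc]; simp)
  choose r hr using key
  refine ⟨∑ k ∈ f.support, MvPolynomial.monomial k (r k), ?_⟩
  rw [map_sum]
  conv_rhs => rw [f.as_sum]
  refine Finset.sum_congr rfl fun k _ => ?_
  rw [MvPolynomial.map_monomial]
  congr 1
  exact hr k

end Pool.Agent.FPO
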