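import Pool.Agent.FPO.OrR
import Pool.Agent.FPO.OrI
import Pool.Agent.FPO.OrN
import Pool.Agent.FPO.Cov
import Pool.Agent.FPO.Hom
import Pool.Agent.FPO.EndC
import Pool.Agent.FPO.Ratl

/-!
# FPO module Main: the leading form of an enumerating polynomial
-/

set_option autoImplicit false

open Polynomial

namespace Pool.Agent.FPO

theorem main_rat (α : ℝ) (hα : 0 < α) (F₀ : MvPolynomial (Fin 2) ℚ) (hE : Enum (sec α) F₀)
    (hd : 3 ≤ F₀.totalDegree) :
    ∃ t₀ : ℝ, 0 ≤ t₀ ∧ t₀ ≤ α ∧ IsAlgebraic ℚ t₀ ∧ ∃ (c : ℚ) (s : ℕ),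
      F₀.totalDegree = s * (minpoly ℚ t₀).natDegree ∧
      hc F₀ = MvPolynomial.C c * homF (minpoly ℚ t₀) ^ s ∧ (Even s ∨ (t₀ = α ∧ Irrational α)) := by
  by_contra hcon
  refine end_false α hα F₀ hE (cov α hα F₀ fun t ht0 htα => ?_)
  have hF₀ : F₀ ≠ 0 := by
    rintro rfl
    rw [MvPolynomial.totalDegree_zero] at hd
    omega
  by_cases hroot : aeval t (ini 1 (F₀.totalDegree : ℚ) (toBi F₀)) = 0
  · have hne : ini 1 (F₀.totalDegree : ℚ) (toBi F₀) ≠ 0 := (hasWt_toBi hF₀).ini_ne_zero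
    have halg : IsAlgebraic ℚ t := ⟨_, hne, hroot⟩
    by_cases hirr : Irrational t
    · have ht : 0 < t := lt_of_le_of_ne ht0 fun h => hirr.ne_zero h.symm
      refine orI α hα F₀ hE hd t ht htα hirr hroot ?_
      rintro ⟨s, b, h1, h2, h3⟩
      refine hcon ⟨t, ht0, htα, halg, b, s, h2, ?_, ?_⟩
      · exact hc_of_ini_eq F₀ _ (minpoly.monic halg.isIntegral) b s h1 h2
      · rcases h3 with h3 | h3
        · exact Or.inl h3
        · exact Or.inr ⟨h3, h3 ▸ hirr⟩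
    · have hex : ∃ r : ℚ, (r : ℝ) = t := by
        unfold Irrational at hirr
        push Not at hirr
        exact hirr
      obtain ⟨r, rfl⟩ := hex
      have hr0 : 0 ≤ r := by exact_mod_cast ht0
      have hdeg : (minpoly ℚ ((r : ℝ))).natDegree = 1 := by
        have h1 : minpoly ℚ ((r : ℝ)) = X - C r := minpoly.eq_X_sub_C ℝ r
        rw [h1, natDegree_X_sub_C]
      obtain ⟨ε, hε, hS⟩ := orR α hα F₀ hE hd r hr0 htα (by
        rintro ⟨hev, κ, hκ⟩
        refine hcon ⟨r, ht0, htα, halg, κ, F₀.totalDegree, ?_, ?_, Or.inl hev⟩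
        · rw [hdeg, mul_one]
        · rw [homF_minpoly_rat]
          exact hκ)
      refine ⟨ε, 0, hε, hS.mono ?_⟩
      rintro u ⟨hu, -, h2⟩
      exact ⟨hu, h2⟩
  · exact orN α hα F₀ hE hd t hroot

end Pool.Agent.FPO
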