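import Pool.Agent.FPO.Api

/-!
# FPO module Mul: multiplicities on the Newton polygon (diff 1)

PROOF.  (a) COMPARISON: let `τ < τ'`, `j'` an exponent of `ini τ' w' F` (coefficient nonzero), `j` an
exponent of `ini τ w F`.  Then `j ≤ j'`: by `exists_of_coeff_ini_ne_zero` there are `i, i'` with
`i + τ j = w`, `i' + τ' j' = w'`, `cf F i j ≠ 0 ≠ cf F i' j'`, so
`i' + τ j' ≤ i + τ j` and `i + τ' j ≤ i' + τ' j'`; adding, `(τ' - τ)(j' - j) ≥ 0`.
So `natDegree (ini τ w F) ≤ natTrailingDegree (ini τ' w' F)` (both polynomials are nonzero,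
`HasWt.ini_ne_zero`).
`mulB`: `rootMultiplicity ≤ natDegree` (`rootMultiplicity_le_natDegree`-type lemma) and (a).
`mulB'`: `k = 1`: by uniqueness of the weight both sides are equal; `k > 1`:
`natTrailingDegree ≤ natDegree` and (a).
`mulA`: let `p = ini k wk F`, `j₀ = natTrailingDegree p`, `j₁ = natDegree p`.  Since `r ≠ 0`, the
multiplicity of `r` is at most `j₁ - j₀` (`p = X^{j₀} * p'` with `natDegree p' = j₁ - j₀`, and
`rootMultiplicity r (X^{j₀} * p') = rootMultiplicity r p' ≤ natDegree p'`).  The monomials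
`(i₀, j₀)`, `(i₁, j₁)` of `F` have `i₀ + k j₀ = wk = i₁ + k j₁`, so `i₀ ≥ k (j₁ - j₀)`.  The total
degree gives `i₀ + j₀ ≤ w`, and `j₀ ≥ natDegree (ini 1 w F)` by (a) (`1 < k`).  Hence
`2 mult ≤ k (j₁ - j₀) ≤ i₀ ≤ w - j₀ ≤ w - natDegree (ini 1 w F)`.
-/

set_option autoImplicit false

open Polynomial

namespace Pool.Agent.FPO

namespace Mul

theorem cmp (F : Bi) (τ τ' : ℚ) (hτ : τ < τ') (w w' : ℚ) (hw : HasWt τ w F)
    (hw' : HasWt τ' w' F) : (ini τ w F).natDegree ≤ (ini τ' w' F).natTrailingDegree := by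
  have h0 : ini τ w F ≠ 0 := hw.ini_ne_zero
  have h0' : ini τ' w' F ≠ 0 := hw'.ini_ne_zero
  have h1 : (ini τ w F).coeff (ini τ w F).natDegree ≠ 0 := by
    rw [coeff_natDegree]; exact leadingCoeff_ne_zero.2 h0
  have h1' : (ini τ' w' F).coeff (ini τ' w' F).natTrailingDegree ≠ 0 := by
    intro h
    exact h0' (coeff_natTrailingDegree_eq_zero.1 h)
  obtain ⟨i, hi1, -, hi2⟩ := exists_of_coeff_ini_ne_zero h1
  obtain ⟨i', hi1', -, hi2'⟩ := exists_of_coeff_ini_ne_zero h1'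
  have h2 := hw.1 _ _ hi2'
  have h3 := hw'.1 _ _ hi2
  rw [← hi1] at h2
  rw [← hi1'] at h3
  by_contra hcon
  push Not at hcon
  have h4 : (((ini τ' w' F).natTrailingDegree : ℕ) : ℚ) < ((ini τ w F).natDegree : ℕ) := by
    exact_mod_cast hcon
  nlinarith [mul_pos (sub_pos.2 hτ) (sub_pos.2 h4)]

theorem rm_le (p : ℚ[X]) (r : ℚ) (hr : r ≠ 0) (hp : p ≠ 0) :
    p.rootMultiplicity r + p.natTrailingDegree ≤ p.natDegree := by
  have h1 : (X : ℚ[X]) ^ p.natTrailingDegree ∣ p := by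
    rw [X_pow_dvd_iff]
    intro d hd
    exact coeff_eq_zero_of_lt_natTrailingDegree hd
  obtain ⟨q, hq⟩ := h1
  have hq0 : q ≠ 0 := by
    rintro rfl
    rw [mul_zero] at hq
    exact hp hq
  have hX0 : (X : ℚ[X]) ^ p.natTrailingDegree ≠ 0 := pow_ne_zero _ X_ne_zero
  have h2 : p.rootMultiplicity r = q.rootMultiplicity r := by
    conv_lhs => rw [hq]
    rw [rootMultiplicity_mul (mul_ne_zero hX0 hq0)]
    rw [rootMultiplicity_eq_zero (p := (X : ℚ[X]) ^ p.natTrailingDegree), zero_add]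
    rw [IsRoot.def, eval_pow, eval_X]
    exact pow_ne_zero _ hr
  have h3 : p.natDegree = p.natTrailingDegree + q.natDegree := by
    conv_lhs => rw [hq]
    rw [natDegree_mul hX0 hq0, natDegree_X_pow]
  have h4 : q.rootMultiplicity r ≤ q.natDegree := by
    classical
    rw [← count_roots]
    exact (Multiset.count_le_card _ _).trans (card_roots' q)
  omega

end Mul

theorem mulA (F : Bi) (w : ℕ) (hw : HasWt 1 (w : ℚ) F) (k : ℕ) (hk : 2 ≤ k) (wk : ℚ)
    (hwk : HasWt (k : ℚ) wk F) (r : ℚ) (hr : r ≠ 0) :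
    2 * (ini (k : ℚ) wk F).rootMultiplicity r + (ini 1 (w : ℚ) F).natDegree ≤ w := by
  have h0 : ini (k : ℚ) wk F ≠ 0 := hwk.ini_ne_zero
  have h1 := Mul.rm_le _ r hr h0
  have hk1 : (1 : ℚ) < (k : ℚ) := by exact_mod_cast hk
  have h2 := Mul.cmp F 1 k hk1 w wk hw hwk
  have h3 : (ini (k : ℚ) wk F).coeff (ini (k : ℚ) wk F).natDegree ≠ 0 := by
    rw [coeff_natDegree]; exact leadingCoeff_ne_zero.2 h0
  have h4 : (ini (k : ℚ) wk F).coeff (ini (k : ℚ) wk F).natTrailingDegree ≠ 0 := by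
    intro h
    exact h0 (coeff_natTrailingDegree_eq_zero.1 h)
  obtain ⟨i, hi1, -, hi2⟩ := exists_of_coeff_ini_ne_zero h3
  obtain ⟨i', hi1', -, hi2'⟩ := exists_of_coeff_ini_ne_zero h4
  have h5 := hw.1 _ _ hi2'
  rw [one_mul] at h5
  set j₁ := (ini (k : ℚ) wk F).natDegree
  set j₀ := (ini (k : ℚ) wk F).natTrailingDegree
  set m := (ini (k : ℚ) wk F).rootMultiplicity r
  have h6 : i' + j₀ ≤ w := by exact_mod_cast h5
  have h7 : i + k * j₁ = i' + k * j₀ := by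
    have : (i : ℚ) + k * j₁ = i' + k * j₀ := by rw [hi1, hi1']
    exact_mod_cast this
  have h8 : k * j₀ + k * m ≤ k * j₁ := by
    rw [← Nat.mul_add]
    exact Nat.mul_le_mul_left k (by omega)
  have h9 : 2 * m ≤ k * m := Nat.mul_le_mul_right m hk
  omega

theorem mulB (F : Bi) (k k' : ℕ) (hk : k' < k) (wk wk' : ℚ) (hwk : HasWt (k : ℚ) wk F)
    (hwk' : HasWt (k' : ℚ) wk' F) (r : ℚ) :
    (ini (k' : ℚ) wk' F).rootMultiplicity r ≤ (ini (k : ℚ) wk F).natTrailingDegree := by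
  have hk1 : (k' : ℚ) < (k : ℚ) := by exact_mod_cast hk
  refine le_trans ?_ (Mul.cmp F k' k hk1 wk' wk hwk' hwk)
  classical
  rw [← count_roots]
  exact (Multiset.count_le_card _ _).trans (card_roots' _)

theorem mulB' (F : Bi) (k : ℕ) (hk : 1 ≤ k) (w wk : ℚ) (hw : HasWt 1 w F)
    (hwk : HasWt (k : ℚ) wk F) :
    (ini 1 w F).natTrailingDegree ≤ (ini (k : ℚ) wk F).natTrailingDegree := by
  rcases eq_or_lt_of_le hk with h | h
  · subst h
    rw [Nat.cast_one] at hwk ⊢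
    rw [hw.unique hwk]
  · have hk1 : (1 : ℚ) < (k : ℚ) := by exact_mod_cast h
    exact (natTrailingDegree_le_natDegree _).trans (Mul.cmp F 1 k hk1 w wk hw hwk)

end Pool.Agent.FPO
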