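import Mathlib

/-!
# FPO module QF: a local obstruction for `W² + δ U²`

With `n = 4 A δ - 1` the Jacobi symbol `J(-δ | n) = J(-δ | 4 δ - 1)` is `-1`, since
`4 (-δ) = -1` modulo `4 δ - 1`.  So some prime factor `p` of `n` has `J(-δ | p) = -1`; choose
`N` with `A N + B = p` modulo `p²`.
-/

set_option autoImplicit false

namespace Pool.Agent.FPO

open NumberTheorySymbols

private theorem qf_jac (δ : ℕ) (hδ : 1 ≤ δ) : jacobiSym (-(δ : ℤ)) (4 * δ - 1) = -1 := by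
  have hodd : Odd (4 * δ - 1) := by
    refine ⟨2 * δ - 1, ?_⟩
    omega
  have h1 : jacobiSym ((4 : ℤ) * (-(δ : ℤ))) (4 * δ - 1) = jacobiSym (-1) (4 * δ - 1) := by
    apply jacobiSym.mod_left'
    have h2 : ((4 * δ - 1 : ℕ) : ℤ) = 4 * δ - 1 := by
      push_cast [Nat.cast_sub (show 1 ≤ 4 * δ by omega)]
      ring
    rw [h2]
    exact (Int.modEq_iff_dvd).2 ⟨1, by ring⟩
  have h4 : jacobiSym 4 (4 * δ - 1) = 1 := by
    have h5 : (4 : ℤ) = 2 ^ 2 := by norm_num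
    rw [h5]
    apply jacobiSym.sq_one'
    have h6 : (4 * δ - 1 : ℕ).Coprime 2 := (Nat.coprime_two_right).2 hodd
    rw [Int.gcd_comm]
    exact h6
  have h7 : jacobiSym (-1) (4 * δ - 1) = -1 := by
    rw [jacobiSym.at_neg_one hodd]
    apply ZMod.χ₄_nat_three_mod_four
    omega
  rw [jacobiSym.mul_left, h4, h7, one_mul] at h1
  exact h1

theorem qf_obstruction (δ A : ℕ) (hδ : 1 ≤ δ) (hA : 1 ≤ A) (B : ℤ) :
    ∃ N : ℕ, ∀ U W : ℤ, (A : ℤ) * N + B ≠ δ * U ^ 2 + W ^ 2 := by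
  have hAδ : 1 ≤ A * δ := Nat.one_le_iff_ne_zero.2 (by positivity)
  have hodd : Odd (4 * (A * δ) - 1) := ⟨2 * (A * δ) - 1, by omega⟩
  have hJ : jacobiSym (-(δ : ℤ)) (4 * (A * δ) - 1) = -1 := by
    rw [jacobiSym.mod_right _ hodd, ← qf_jac δ hδ]
    congr 1
    rw [Int.natAbs_neg, Int.natAbs_natCast]
    have h1 : 4 * (A * δ) - 1 = (4 * δ - 1) + 4 * δ * (A - 1) := by
      obtain ⟨a, rfl⟩ : ∃ a, A = a + 1 := ⟨A - 1, by omega⟩
      have : 4 * ((a + 1) * δ) = 4 * δ + 4 * δ * a := by ring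
      rw [this, Nat.add_sub_cancel]
      omega
    rw [h1, Nat.add_mul_mod_self_left]
    exact Nat.mod_eq_of_lt (by omega)
  obtain ⟨p, hp, hpn, hJp⟩ := jacobiSym.eq_neg_one_at_prime_divisor_of_eq_neg_one hJ
  have : Fact p.Prime := ⟨hp⟩
  have hpA : ¬ p ∣ A := by
    intro h
    have h1 : p ∣ 4 * (A * δ) := Dvd.dvd.mul_left (Dvd.dvd.mul_right h δ) 4
    have h2 : p ∣ 1 := by
      have h3 := Nat.dvd_sub h1 hpn
      have h4 : 4 * (A * δ) - (4 * (A * δ) - 1) = 1 := by omega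
      rwa [h4] at h3
    exact hp.one_lt.ne' (Nat.dvd_one.1 h2)
  have hleg : ¬ IsSquare ((-(δ : ℤ) : ℤ) : ZMod p) := by
    rw [← legendreSym.eq_neg_one_iff]
    rw [jacobiSym.legendreSym.to_jacobiSym]
    exact hJp
  have hcop : Nat.Coprime A (p ^ 2) := Nat.Coprime.pow_right 2
    ((Nat.coprime_comm).1 ((Nat.Prime.coprime_iff_not_dvd hp).2 hpA))
  have : NeZero (p ^ 2) := ⟨pow_ne_zero 2 hp.ne_zero⟩
  let z : ZMod (p ^ 2) := ((p : ZMod (p ^ 2)) - (B : ZMod (p ^ 2))) * ((A : ZMod (p ^ 2)))⁻¹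
  refine ⟨z.val, ?_⟩
  intro U W hUW
  have hz : ((A : ZMod (p ^ 2))) * z + (B : ZMod (p ^ 2)) = (p : ZMod (p ^ 2)) := by
    have h1 : (A : ZMod (p ^ 2)) * (A : ZMod (p ^ 2))⁻¹ = 1 :=
      ZMod.coe_mul_inv_eq_one A hcop
    calc ((A : ZMod (p ^ 2))) * z + (B : ZMod (p ^ 2))
        = ((p : ZMod (p ^ 2)) - (B : ZMod (p ^ 2))) * ((A : ZMod (p ^ 2)) * (A : ZMod (p ^ 2))⁻¹)
          + (B : ZMod (p ^ 2)) := by simp only [z]; ring
      _ = (p : ZMod (p ^ 2)) := by rw [h1]; ring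
  have hdvd : ((p ^ 2 : ℕ) : ℤ) ∣ ((A : ℤ) * (z.val : ℕ) + B) - p := by
    rw [← ZMod.intCast_zmod_eq_zero_iff_dvd]
    push_cast
    rw [ZMod.natCast_zmod_val, hz, sub_self]
  have hp2 : (p : ℤ) ∣ ((p ^ 2 : ℕ) : ℤ) := ⟨p, by push_cast; ring⟩
  have hpd : (p : ℤ) ∣ (δ : ℤ) * U ^ 2 + W ^ 2 := by
    have h1 := hp2.trans hdvd
    rw [hUW] at h1
    have h2 : (p : ℤ) ∣ ((δ : ℤ) * U ^ 2 + W ^ 2 - p) + p := dvd_add h1 (dvd_refl _)
    simpa using h2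
  have hpU : (p : ℤ) ∣ U := by
    by_contra hU
    apply hleg
    have hU0 : (U : ZMod p) ≠ 0 := by
      intro h
      exact hU ((ZMod.intCast_zmod_eq_zero_iff_dvd U p).1 h)
    have h1 : ((δ : ZMod p)) * (U : ZMod p) ^ 2 + (W : ZMod p) ^ 2 = 0 := by
      have h2 := (ZMod.intCast_zmod_eq_zero_iff_dvd _ p).2 hpd
      push_cast at h2
      exact h2
    refine ⟨(W : ZMod p) / (U : ZMod p), ?_⟩
    push_cast
    field_simp
    linear_combination (-1 : ZMod p) * h1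
  have hpW : (p : ℤ) ∣ W := by
    have h1 : (p : ℤ) ∣ W ^ 2 := by
      have h2 : (p : ℤ) ∣ (δ : ℤ) * U ^ 2 := Dvd.dvd.mul_left (dvd_pow hpU two_ne_zero) _
      exact (dvd_add_right h2).1 hpd
    exact Int.Prime.dvd_pow' hp h1
  obtain ⟨u, rfl⟩ := hpU
  obtain ⟨w, rfl⟩ := hpW
  have h3 : ((p ^ 2 : ℕ) : ℤ) ∣ (δ : ℤ) * ((p : ℤ) * u) ^ 2 + ((p : ℤ) * w) ^ 2 :=
    ⟨δ * u ^ 2 + w ^ 2, by push_cast; ring⟩
  rw [hUW] at hdvd
  have h4 : ((p ^ 2 : ℕ) : ℤ) ∣ (p : ℤ) := by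
    have h5 := dvd_sub h3 hdvd
    simpa using h5
  have h6 : p ^ 2 ∣ p := by exact_mod_cast h4
  have h7 := Nat.le_of_dvd hp.pos h6
  nlinarith [hp.one_lt]

end Pool.Agent.FPO
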