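import Pool.Agent.FPO.N2
import Pool.Agent.FPO.QF

/-!
# FPO module N1: total degree at least three (diff 3)

PROOF.  Suppose `w ≤ 2`.  All monomials `x^i y^j` of `F` have `i + j ≤ 2`, and `F.natDegree ≥ 2`, so
`F = b y² + (a₁ x + a₀) y + (e₂ x² + e₁ x + e₀)`, `b ≠ 0`, rational coefficients.  Put
`u = 2 b y + a₁ x + a₀`, `Δ = 4 b e₂ - a₁²`, `κ₁ = 4 b e₁ - 2 a₁ a₀`, `κ₀ = 4 b e₀ - a₀²`:
`4 b F(x,y) = u² + Δ x² + κ₁ x + κ₀`.   (*)
The region contains for each large `x = D a` all `y = D b'` with `|y| ≤ ε x²`.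
(1) `b > 0`: otherwise take `x = D a` large and `y = D ⌊ε x²/D⌋`: `F ≤ b ε² x⁴/2 < 0` roughly
(`F = b y² + O(x) |y| + O(x²)`), contradicting `0 ≤ F` on `L`.
(2) `Δ ≥ 0`, and if `Δ = 0` then `κ₁ ≥ 0`: for `x = D a` large choose the integer `b'` with
`|2 b D b' + a₁ x + a₀| ≤ 2 b D` (so `|y| = O(x) ≤ ε x²`): `4bF ≤ 4b²D² + Δx² + κ₁x + κ₀ < 0` for `x`
large if `Δ < 0` or (`Δ = 0` and `κ₁ < 0`).
(3) `Δ = 0` is impossible: apply `n2` (roles of the variables exchanged and sheared) to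
`F'(X, Y) = F(x = Y, y = X - (a₁/(2b)) Y)`: by (*) `4 b F' = (2 b X + a₀)² + κ₁ Y + κ₀` has degree
`≤ 1` in `Y`; formally `F' = bv F X (C X - C (C (a₁/(2b))) * X)` and
`L' = {(X,Y) : (Y, X - (a₁/(2b)) Y) ∈ L}`; with `D' = D *` (the denominator of `a₁/(2b)`, times more if
needed) the points `(D' a, D' b)` with `a > 0` fixed and `b` large belong to `L'`, because
`X - (a₁/2b)Y ∈ D ℤ` and `|X - (a₁/2b) Y| ≤ C Y ≤ ε Y²`, `Y ≥ x₁`.  `n2` says `natDegree F' ≥ 2`.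
(4) `Δ > 0`: multiply (*) by `4Δ`: `16 b Δ F = 4Δ u² + (2Δ x + κ₁)² + κ₂`, `κ₂ = 4Δκ₀ - κ₁²`.
For `v = (x,y) ∈ L ⊆ (1/D₁)ℤ²` choose an integer `R ≥ 1` (depending only on `F`, `D₁`) such that
`R u`, `R (2Δx + κ₁)`, `R Δ`, `R² * 16 b Δ * R²`... are integers: precisely, let `Δ = δ₁/δ₂`
(positive integers), and let `R` be a multiple of `δ₂` with `(R/δ₂) u ∈ ℤ`, `R (2Δx+κ₁) ∈ ℤ` for all
`(x,y) ∈ (1/D₁)ℤ²`, and `16 b Δ R² ∈ ℤ`, `κ₂ R² ∈ ℤ`.  Then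
`(16 b Δ R²) F - κ₂ R² = 4 δ₁ δ₂ ((R/δ₂) u)² + (R (2Δx+κ₁))²`  (`Δ R² = δ₁ δ₂ (R/δ₂)²`).
With `A = 16bΔR² ≥ 1`, `B = -κ₂R²`, `δ = 4δ₁δ₂`: since `F` takes every natural value `N` on `L`
(`hsurj`), `A N + B = δ U² + W²` is solvable for every `N`, contradicting `qf_obstruction`.
-/

set_option autoImplicit false

open Polynomial

namespace Pool.Agent.FPO

namespace N1

theorem neg_large (A B C : ℝ) (hA : A < 0) : ∃ t₀ : ℤ, ∀ t : ℤ, t₀ ≤ t →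
    A * (t : ℝ) ^ 2 + B * t + C < 0 := by
  obtain ⟨t₀, ht₀⟩ := exists_int_gt (max 1 ((|B| + |C|) / (-A)))
  refine ⟨t₀, fun t ht => ?_⟩
  have h1 : ((t₀ : ℤ) : ℝ) ≤ t := by exact_mod_cast ht
  have h2 : (1 : ℝ) < t := lt_of_le_of_lt (le_max_left _ _) (ht₀.trans_le h1)
  have h3 : (|B| + |C|) / (-A) < t := lt_of_le_of_lt (le_max_right _ _) (ht₀.trans_le h1)
  rw [div_lt_iff₀ (by linarith)] at h3
  have h4 : B * t ≤ |B| * t := mul_le_mul_of_nonneg_right (le_abs_self B) (by linarith)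
  have h5 : C ≤ |C| * t := by
    have := le_abs_self C
    nlinarith [abs_nonneg C]
  nlinarith

theorem den_dvd (q : ℚ) (m : ℕ) (h : q.den ∣ m) : ∃ z : ℤ, (m : ℚ) * q = z := by
  obtain ⟨c, rfl⟩ := h
  refine ⟨c * q.num, ?_⟩
  have h1 : (q.den : ℚ) * q = q.num := by
    rw [mul_comm]; exact Rat.mul_den_eq_num q
  push_cast
  calc (q.den : ℚ) * c * q = c * ((q.den : ℚ) * q) := by ring
    _ = c * q.num := by rw [h1]

end N1

theorem n1 (F : Bi) (hdeg : 2 ≤ F.natDegree) (w : ℕ) (hw : HasWt 1 w F) (L : Set (ℝ × ℝ))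
    (D₁ : ℕ) (hD₁ : 0 < D₁) (hL : ∀ v ∈ L, ∃ a b : ℤ, v = ((a : ℝ) / D₁, (b : ℝ) / D₁))
    (D : ℕ) (hD : 0 < D) (ε x₁ : ℝ) (hε : 0 < ε)
    (hfull : ∀ a b : ℤ, x₁ ≤ (D : ℝ) * a → |(D : ℝ) * b| ≤ ε * ((D : ℝ) * a) ^ 2 →
      ((D : ℝ) * a, (D : ℝ) * b) ∈ L)
    (hinj : ∀ v ∈ L, ∀ v' ∈ L, bv F v.1 v.2 = bv F v'.1 v'.2 → v = v')
    (hval : ∀ v ∈ L, 0 ≤ bv F v.1 v.2) (hsurj : ∀ n : ℕ, ∃ v ∈ L, bv F v.1 v.2 = n) : 3 ≤ w := by
  by_contra hw3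
  have hw2 : w ≤ 2 := by omega
  have hcf : ∀ i j : ℕ, cf F i j ≠ 0 → i + j ≤ 2 := by
    intro i j h
    have h1 := hw.1 i j h
    have h2 : ((i + j : ℕ) : ℚ) ≤ ((2 : ℕ) : ℚ) := by
      push_cast
      have h3 : (w : ℚ) ≤ 2 := by exact_mod_cast hw2
      linarith
    exact_mod_cast h2
  have hF0 : F ≠ 0 := hw.ne_zero
  obtain ⟨i₀, hi₀⟩ : ∃ i, cf F i F.natDegree ≠ 0 := by
    by_contra hcon
    push Not at hcon
    apply hF0
    rw [← leadingCoeff_eq_zero, leadingCoeff]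
    ext i
    rw [coeff_zero]
    exact hcon i
  have hnd : F.natDegree = 2 := by
    have := hcf _ _ hi₀
    omega
  have hi0 : i₀ = 0 := by
    have := hcf _ _ hi₀
    omega
  subst hi0
  rw [hnd] at hi₀
  have hxd : xdeg F ≤ 2 := by
    unfold xdeg
    apply Finset.sup_le
    intro j _
    rw [natDegree_le_iff_coeff_eq_zero]
    intro i hi
    by_contra hne
    have := hcf i j hne
    omega
  have hz : ∀ i j : ℕ, 2 < i + j → cf F i j = 0 := by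
    intro i j h
    by_contra hne
    have := hcf i j hne
    omega
  set b := cf F 0 2 with hb
  set a1 := cf F 1 1 with ha1
  set a0 := cf F 0 1 with ha0
  set e2 := cf F 2 0 with he2
  set e1 := cf F 1 0 with he1
  set e0 := cf F 0 0 with he0
  have hF : ∀ x y : ℝ, bv F x y = (b : ℝ) * y ^ 2 + ((a1 : ℝ) * x + a0) * y +
      ((e2 : ℝ) * x ^ 2 + e1 * x + e0) := by
    intro x y
    rw [bv_eq_sum_of_le hxd hnd.le]
    simp only [Finset.sum_range_succ, Finset.sum_range_zero, zero_add,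
      hz 1 2 (by norm_num), hz 2 2 (by norm_num), hz 2 1 (by norm_num),
      ← hb, ← ha1, ← ha0, ← he2, ← he1, ← he0, eq_ratCast, map_zero]
    ring
  have hDr : (1 : ℝ) ≤ D := by exact_mod_cast hD
  -- points of L
  have hlarge : ∀ n c j : ℤ, 1 ≤ n → ∃ t₀ : ℤ, ∀ t : ℤ, t₀ ≤ t →
      ((D : ℝ) * ((n * t : ℤ) : ℝ), (D : ℝ) * ((c * t + j : ℤ) : ℝ)) ∈ L := by
    intro n c j hn
    obtain ⟨t₀, ht₀⟩ := exists_int_gt (max (max 1 x₁) ((|(c : ℝ)| + |(j : ℝ)|) / ε))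
    refine ⟨t₀, fun t ht => ?_⟩
    have h1 : ((t₀ : ℤ) : ℝ) ≤ t := by exact_mod_cast ht
    have h2 : max (max 1 x₁) ((|(c : ℝ)| + |(j : ℝ)|) / ε) < t := ht₀.trans_le h1
    have h3 : (1 : ℝ) < t := lt_of_le_of_lt ((le_max_left _ _).trans (le_max_left _ _)) h2
    have h4 : x₁ < t := lt_of_le_of_lt ((le_max_right _ _).trans (le_max_left _ _)) h2
    have h5 : (|(c : ℝ)| + |(j : ℝ)|) / ε < t := lt_of_le_of_lt (le_max_right _ _) h2
    rw [div_lt_iff₀ hε] at h5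
    have hnr : (1 : ℝ) ≤ n := by exact_mod_cast hn
    have h6 : (t : ℝ) ≤ D * ((n * t : ℤ) : ℝ) := by
      push_cast
      have : (t : ℝ) ≤ n * t := by nlinarith
      nlinarith
    apply hfull
    · linarith
    · rw [abs_mul, abs_of_nonneg (by linarith : (0 : ℝ) ≤ D)]
      have h7 : |((c * t + j : ℤ) : ℝ)| ≤ (|(c : ℝ)| + |(j : ℝ)|) * t := by
        push_cast
        calc |(c : ℝ) * t + j| ≤ |(c : ℝ) * t| + |(j : ℝ)| := abs_add_le _ _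
          _ = |(c : ℝ)| * t + |(j : ℝ)| := by
              rw [abs_mul, abs_of_nonneg (by linarith : (0 : ℝ) ≤ t)]
          _ ≤ (|(c : ℝ)| + |(j : ℝ)|) * t := by nlinarith [abs_nonneg (j : ℝ)]
      have h8 : (|(c : ℝ)| + |(j : ℝ)|) * t ≤ (t * ε) * t :=
        mul_le_mul_of_nonneg_right h5.le (by linarith)
      have h9 : (D : ℝ) * |((c * t + j : ℤ) : ℝ)| ≤ D * ((t * ε) * t) :=
        mul_le_mul_of_nonneg_left (h7.trans h8) (by linarith)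
      refine h9.trans ?_
      have h10 : (D : ℝ) * t ≤ D * ((n * t : ℤ) : ℝ) := by
        push_cast
        have : (t : ℝ) ≤ n * t := by nlinarith
        exact mul_le_mul_of_nonneg_left this (by linarith)
      have h11 : ((D : ℝ) * t) ^ 2 ≤ ((D : ℝ) * ((n * t : ℤ) : ℝ)) ^ 2 :=
        pow_le_pow_left₀ (by positivity) h10 2
      have h12 : (D : ℝ) * ((t * ε) * t) ≤ ε * ((D : ℝ) * t) ^ 2 := by
        have h13 : (D : ℝ) * (ε * (t : ℝ) ^ 2) ≤ D * (D * (ε * (t : ℝ) ^ 2)) := by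
          have : (0 : ℝ) ≤ D * (ε * (t : ℝ) ^ 2) := by positivity
          nlinarith
        nlinarith
      exact h12.trans (mul_le_mul_of_nonneg_left h11 hε.le)
  -- (1) b > 0
  have hbne : (b : ℝ) ≠ 0 := by exact_mod_cast hi₀
  have hbpos : (0 : ℝ) < b := by
    rcases lt_or_gt_of_ne hbne with h | h
    · exfalso
      obtain ⟨m₀, hm₀⟩ := N1.neg_large b a1 e2 h
      have hm := hm₀ m₀ le_rfl
      obtain ⟨t₁, ht₁⟩ := hlarge 1 m₀ 0 le_rfl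
      obtain ⟨t₂, ht₂⟩ := N1.neg_large ((b * (m₀ : ℝ) ^ 2 + a1 * m₀ + e2) * (D : ℝ) ^ 2)
        ((a0 * m₀ + e1) * D) e0 (mul_neg_of_neg_of_pos hm (by positivity))
      have h1 := ht₁ (max t₁ t₂) (le_max_left _ _)
      have h2 := ht₂ (max t₁ t₂) (le_max_right _ _)
      have h3 := hval _ h1
      rw [hF] at h3
      push_cast at h3
      push_cast at h2
      nlinarith
    · exact h
  have hbQ : (0 : ℚ) < b := by exact_mod_cast hbpos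
  -- the identity
  set Δ : ℚ := 4 * b * e2 - a1 ^ 2 with hΔ
  set κ₁ : ℚ := 4 * b * e1 - 2 * a1 * a0 with hκ₁
  set κ₀ : ℚ := 4 * b * e0 - a0 ^ 2 with hκ₀
  have hid : ∀ x y : ℝ, 4 * (b : ℝ) * bv F x y = (2 * b * y + a1 * x + a0) ^ 2 +
      (Δ : ℝ) * x ^ 2 + κ₁ * x + κ₀ := by
    intro x y
    rw [hF, hΔ, hκ₁, hκ₀]
    push_cast
    ring
  -- slope
  set sl : ℚ := a1 / (2 * b) with hsl
  set s : ℤ := sl.num with hs
  set N : ℤ := (sl.den : ℤ) with hN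
  have hN1 : 1 ≤ N := by
    have := sl.den_pos
    omega
  have hNr : (1 : ℝ) ≤ N := by exact_mod_cast hN1
  have hslope : (a1 : ℝ) * N = 2 * b * s := by
    have h1 : sl * N = s := by
      rw [hN]
      exact_mod_cast Rat.mul_den_eq_num sl
    have h2 : a1 = sl * (2 * b) := by
      rw [hsl]
      field_simp
    have h3 : a1 * N = 2 * b * s := by
      rw [h2, ← h1]; ring
    exact_mod_cast h3
  have hu : ∀ t j : ℤ, 2 * (b : ℝ) * ((D : ℝ) * (((-s) * t + j : ℤ) : ℝ)) +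
      a1 * ((D : ℝ) * ((N * t : ℤ) : ℝ)) + a0 = 2 * b * D * j + a0 := by
    intro t j
    push_cast
    have : (a1 : ℝ) * N * (D * t) = 2 * b * s * (D * t) := by rw [hslope]
    linarith
  -- (2) Δ ≥ 0
  have hΔ0 : 0 ≤ (Δ : ℝ) := by
    by_contra hneg
    push Not at hneg
    obtain ⟨t₁, ht₁⟩ := hlarge N (-s) 0 hN1
    obtain ⟨t₂, ht₂⟩ := N1.neg_large ((Δ : ℝ) * ((D : ℝ) * N) ^ 2) (κ₁ * (D * N))
      ((2 * b * D * ((0 : ℤ) : ℝ) + a0) ^ 2 + κ₀) (mul_neg_of_neg_of_pos hneg (by positivity))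
    have h1 := ht₁ (max t₁ t₂) (le_max_left _ _)
    have h2 := ht₂ (max t₁ t₂) (le_max_right _ _)
    have h3 := hval _ h1
    have h4 := hid ((D : ℝ) * ((N * (max t₁ t₂) : ℤ) : ℝ))
      ((D : ℝ) * (((-s) * (max t₁ t₂) + 0 : ℤ) : ℝ))
    rw [hu] at h4
    have h5 : 0 ≤ 4 * (b : ℝ) * bv F ((D : ℝ) * ((N * (max t₁ t₂) : ℤ) : ℝ))
      ((D : ℝ) * (((-s) * (max t₁ t₂) + 0 : ℤ) : ℝ)) := mul_nonneg (by positivity) h3
    rw [h4] at h5
    have h6 : ((N * (max t₁ t₂) : ℤ) : ℝ) = N * ((max t₁ t₂ : ℤ) : ℝ) := by push_cast; ring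
    rw [h6] at h5
    nlinarith
  -- (3) Δ ≠ 0
  have hΔne : (Δ : ℝ) ≠ 0 := by
    intro hz0
    -- P with the required divisibility
    rcases eq_or_ne κ₁ 0 with hk | hk
    · obtain ⟨t₁, ht₁⟩ := hlarge N (-s) 0 hN1
      have h1 := ht₁ t₁ le_rfl
      have h2 := ht₁ (t₁ + 1) (by omega)
      have h3 := hinj _ h1 _ h2 (by
        have e3 := hid ((D : ℝ) * ((N * t₁ : ℤ) : ℝ)) ((D : ℝ) * (((-s) * t₁ + 0 : ℤ) : ℝ))
        have e4 := hid ((D : ℝ) * ((N * (t₁ + 1) : ℤ) : ℝ))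
          ((D : ℝ) * (((-s) * (t₁ + 1) + 0 : ℤ) : ℝ))
        rw [hu, hz0, hk] at e3 e4
        have h5 : 4 * (b : ℝ) * bv F ((D : ℝ) * ((N * t₁ : ℤ) : ℝ))
            ((D : ℝ) * (((-s) * t₁ + 0 : ℤ) : ℝ)) =
          4 * (b : ℝ) * bv F ((D : ℝ) * ((N * (t₁ + 1) : ℤ) : ℝ))
            ((D : ℝ) * (((-s) * (t₁ + 1) + 0 : ℤ) : ℝ)) := by
          rw [e3, e4]; simp
        exact mul_left_cancel₀ (by positivity) h5)
      have h4 := congrArg Prod.fst h3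
      simp only at h4
      have h5 : ((N * t₁ : ℤ) : ℝ) = ((N * (t₁ + 1) : ℤ) : ℝ) :=
        mul_left_cancel₀ (by positivity) h4
      have h6 : N * t₁ = N * (t₁ + 1) := by exact_mod_cast h5
      have h7 : N = 0 := by linarith
      omega
    · set q1 : ℚ := 4 * b ^ 2 * D / (κ₁ * N) with hq1
      set q2 : ℚ := 4 * b * a0 / (κ₁ * N) with hq2
      set P : ℕ := q1.den * q2.den with hP
      have hPpos : 0 < P := Nat.mul_pos q1.den_pos q2.den_pos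
      obtain ⟨z1, hz1⟩ := N1.den_dvd q1 P (Dvd.intro _ rfl)
      obtain ⟨z2, hz2⟩ := N1.den_dvd q2 P (Dvd.intro_left _ rfl)
      have hNQ : (N : ℚ) ≠ 0 := by
        have : N ≠ 0 := by omega
        exact_mod_cast this
      -- T0
      set T : ℤ := z1 * P + z2 with hT
      have hTeq : (4 * b ^ 2 * D) * (P : ℚ) ^ 2 + 4 * b * a0 * P = κ₁ * N * T := by
        have h1 : (4 * b ^ 2 * D) = q1 * (κ₁ * N) := by
          rw [hq1]; field_simp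
        have h2 : 4 * b * a0 = q2 * (κ₁ * N) := by
          rw [hq2]; field_simp
        rw [h1, h2, hT]
        push_cast
        rw [← hz1, ← hz2]
        ring
      have hTeqR : (4 * (b : ℝ) ^ 2 * D) * (P : ℝ) ^ 2 + 4 * b * a0 * P = κ₁ * N * T := by
        exact_mod_cast hTeq
      obtain ⟨t₁, ht₁⟩ := hlarge N (-s) P hN1
      obtain ⟨t₂, ht₂⟩ := hlarge N (-s) 0 hN1
      set t := max t₁ (t₂ - T) with ht
      have h1 := ht₁ t (le_max_left _ _)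
      have h2 := ht₂ (t + T) (by
        have := le_max_right t₁ (t₂ - T)
        omega)
      have h3 := hinj _ h1 _ h2 (by
        have e3 := hid ((D : ℝ) * ((N * t : ℤ) : ℝ)) ((D : ℝ) * (((-s) * t + (P : ℤ) : ℤ) : ℝ))
        have e4 := hid ((D : ℝ) * ((N * (t + T) : ℤ) : ℝ))
          ((D : ℝ) * (((-s) * (t + T) + 0 : ℤ) : ℝ))
        rw [hu, hz0] at e3 e4
        have h5 : 4 * (b : ℝ) * bv F ((D : ℝ) * ((N * t : ℤ) : ℝ))
            ((D : ℝ) * (((-s) * t + (P : ℤ) : ℤ) : ℝ)) =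
          4 * (b : ℝ) * bv F ((D : ℝ) * ((N * (t + T) : ℤ) : ℝ))
            ((D : ℝ) * (((-s) * (t + T) + 0 : ℤ) : ℝ)) := by
          rw [e3, e4]
          push_cast
          have h6 : ((4 * (b : ℝ) ^ 2 * D) * (P : ℝ) ^ 2 + 4 * b * a0 * P) * D =
              κ₁ * N * T * D := by rw [hTeqR]
          nlinarith
        exact mul_left_cancel₀ (by positivity) h5)
      have h4 := congrArg Prod.fst h3
      have h4' := congrArg Prod.snd h3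
      simp only at h4 h4'
      have h5 : ((N * t : ℤ) : ℝ) = ((N * (t + T) : ℤ) : ℝ) :=
        mul_left_cancel₀ (by positivity) h4
      have h6 : N * t = N * (t + T) := by exact_mod_cast h5
      have h7 : t = t + T := mul_left_cancel₀ (by omega) h6
      have h8 : (((-s) * t + (P : ℤ) : ℤ) : ℝ) = (((-s) * (t + T) + 0 : ℤ) : ℝ) :=
        mul_left_cancel₀ (by positivity) h4'
      have h9 : (-s) * t + (P : ℤ) = (-s) * (t + T) + 0 := by exact_mod_cast h8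
      rw [← h7] at h9
      omega
  have hΔpos : (0 : ℝ) < Δ := lt_of_le_of_ne hΔ0 (Ne.symm hΔne)
  have hΔQ : 0 < Δ := by exact_mod_cast hΔpos
  -- (4)
  set κ₂ : ℚ := 4 * Δ * κ₀ - κ₁ ^ 2 with hκ₂
  set m : ℕ := b.den * (a1.den * (a0.den * (Δ.den * (κ₁.den * κ₂.den)))) with hm
  have hmpos : 0 < m := by
    rw [hm]
    have := b.den_pos
    have := a1.den_pos
    have := a0.den_pos
    have := Δ.den_pos
    have := κ₁.den_pos
    have := κ₂.den_pos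
    positivity
  obtain ⟨zb, hzb⟩ := N1.den_dvd b m (Dvd.intro _ rfl)
  obtain ⟨z1, hz1⟩ := N1.den_dvd a1 m
    (Dvd.dvd.mul_left (Dvd.intro _ rfl) _)
  obtain ⟨z0, hz0⟩ := N1.den_dvd a0 m
    (Dvd.dvd.mul_left (Dvd.dvd.mul_left (Dvd.intro _ rfl) _) _)
  obtain ⟨zΔ, hzΔ⟩ := N1.den_dvd Δ m
    (Dvd.dvd.mul_left (Dvd.dvd.mul_left (Dvd.dvd.mul_left (Dvd.intro _ rfl) _) _) _)
  obtain ⟨zk1, hzk1⟩ := N1.den_dvd κ₁ m
    (Dvd.dvd.mul_left (Dvd.dvd.mul_left (Dvd.dvd.mul_left (Dvd.dvd.mul_left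
      (Dvd.intro _ rfl) _) _) _) _)
  obtain ⟨zk2, hzk2⟩ := N1.den_dvd κ₂ m
    (Dvd.dvd.mul_left (Dvd.dvd.mul_left (Dvd.dvd.mul_left (Dvd.dvd.mul_left
      (Dvd.intro_left _ rfl) _) _) _) _)
  -- reals
  have hzbR : (m : ℝ) * b = zb := by exact_mod_cast hzb
  have hz1R : (m : ℝ) * a1 = z1 := by exact_mod_cast hz1
  have hz0R : (m : ℝ) * a0 = z0 := by exact_mod_cast hz0
  have hzΔR : (m : ℝ) * Δ = zΔ := by exact_mod_cast hzΔ
  have hzk1R : (m : ℝ) * κ₁ = zk1 := by exact_mod_cast hzk1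
  have hzk2R : (m : ℝ) * κ₂ = zk2 := by exact_mod_cast hzk2
  have hmr : (0 : ℝ) < m := by exact_mod_cast hmpos
  have hD₁r : (0 : ℝ) < D₁ := by exact_mod_cast hD₁
  have hzbpos : 0 < zb := by
    have : (0 : ℝ) < zb := by rw [← hzbR]; positivity
    exact_mod_cast this
  have hzΔpos : 0 < zΔ := by
    have : (0 : ℝ) < zΔ := by rw [← hzΔR]; positivity
    exact_mod_cast this
  -- multiply by (m * D₁)^2 * m^2 : 16 b Δ F (m D₁)^2 m^2 ... with Δ = zΔ / m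
  -- δ = 4 zΔ m, U = m D₁ u, W = m (m D₁) (2 Δ x + κ₁)
  set δ : ℕ := (4 * zΔ * m).toNat with hδ
  set A : ℕ := (16 * zb * zΔ * (m * D₁) ^ 2).toNat with hA
  have hδz : ((δ : ℕ) : ℤ) = 4 * zΔ * m := by
    rw [hδ]; exact Int.toNat_of_nonneg (by positivity)
  have hAz : ((A : ℕ) : ℤ) = 16 * zb * zΔ * (m * D₁) ^ 2 := by
    rw [hA]; exact Int.toNat_of_nonneg (by positivity)
  have hδ1 : 1 ≤ δ := by
    have h1 : (0 : ℤ) < 4 * zΔ * m := by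
      have : (0 : ℤ) < m := by exact_mod_cast hmpos
      positivity
    have : (0 : ℤ) < δ := by rw [hδz]; exact h1
    exact_mod_cast this
  have hA1 : 1 ≤ A := by
    have h1 : (0 : ℤ) < 16 * zb * zΔ * (m * D₁) ^ 2 := by
      have : (0 : ℤ) < m := by exact_mod_cast hmpos
      have : (0 : ℤ) < D₁ := by exact_mod_cast hD₁
      positivity
    have : (0 : ℤ) < A := by rw [hAz]; exact h1
    exact_mod_cast this
  obtain ⟨n, hn⟩ := qf_obstruction δ A hδ1 hA1 (-(zk2 * m * (m * D₁) ^ 2))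
  obtain ⟨v, hv, hvn⟩ := hsurj n
  obtain ⟨a, b', rfl⟩ := hL v hv
  simp only at hvn
  apply hn (2 * zb * b' + z1 * a + z0 * D₁) (2 * zΔ * m * a + zk1 * m * D₁)
  have hreal : ((A : ℤ) : ℝ) * n + ((-(zk2 * m * (m * D₁) ^ 2) : ℤ) : ℝ) =
      ((δ : ℤ) : ℝ) * ((2 * zb * b' + z1 * a + z0 * D₁ : ℤ) : ℝ) ^ 2 +
      ((2 * zΔ * m * a + zk1 * m * D₁ : ℤ) : ℝ) ^ 2 := by
    rw [hAz, hδz, ← hvn]
    have h1 := hid ((a : ℝ) / D₁) ((b' : ℝ) / D₁)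
    have h2 : 16 * (b : ℝ) * Δ * bv F ((a : ℝ) / D₁) ((b' : ℝ) / D₁) =
        4 * Δ * (2 * b * ((b' : ℝ) / D₁) + a1 * ((a : ℝ) / D₁) + a0) ^ 2 +
        (2 * Δ * ((a : ℝ) / D₁) + κ₁) ^ 2 + κ₂ := by
      have h3 : 16 * (b : ℝ) * Δ * bv F ((a : ℝ) / D₁) ((b' : ℝ) / D₁) =
          4 * Δ * (4 * (b : ℝ) * bv F ((a : ℝ) / D₁) ((b' : ℝ) / D₁)) := by ring
      rw [h3, h1, hκ₂]
      push_cast
      ring
    set Fv := bv F ((a : ℝ) / D₁) ((b' : ℝ) / D₁) with hFv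
    push_cast
    rw [← hzbR, ← hz1R, ← hz0R, ← hzΔR, ← hzk1R, ← hzk2R]
    have h4 : (2 * (b : ℝ) * ((b' : ℝ) / D₁) + a1 * ((a : ℝ) / D₁) + a0) * D₁ =
        2 * b * b' + a1 * a + a0 * D₁ := by field_simp
    have h5 : (2 * (Δ : ℝ) * ((a : ℝ) / D₁) + κ₁) * D₁ = 2 * Δ * a + κ₁ * D₁ := by field_simp
    calc 16 * ((m : ℝ) * b) * ((m : ℝ) * Δ) * ((m : ℝ) * D₁) ^ 2 * Fv +
        -((m : ℝ) * κ₂ * m * (m * D₁) ^ 2)
        = (16 * (b : ℝ) * Δ * Fv - κ₂) * ((m : ℝ) ^ 4 * (D₁ : ℝ) ^ 2) := by ring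
      _ = (4 * Δ * (2 * b * ((b' : ℝ) / D₁) + a1 * ((a : ℝ) / D₁) + a0) ^ 2 +
        (2 * Δ * ((a : ℝ) / D₁) + κ₁) ^ 2) * ((m : ℝ) ^ 4 * (D₁ : ℝ) ^ 2) := by
          rw [h2]; ring
      _ = (m : ℝ) ^ 4 * (4 * Δ * ((2 * b * ((b' : ℝ) / D₁) + a1 * ((a : ℝ) / D₁) + a0) * D₁) ^ 2 +
        ((2 * Δ * ((a : ℝ) / D₁) + κ₁) * D₁) ^ 2) := by ring
      _ = _ := by rw [h4, h5]; ring
  exact_mod_cast hreal

end Pool.Agent.FPO
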