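import Pool.Agent.FPO.Api

/-!
# FPO module N2: degree in `y` at least two, in regions containing all vertical lines (diff 2)

PROOF.  Suppose `F.natDegree ≤ 1`, so `F(x,y) = A(x) y + B(x)`, `A = F.coeff 1`, `B = F.coeff 0`
(`bv_eq_sum_y`).  For `a ≥ 1` let `x = D a`.  If `A(x) = 0` then `F` takes the same value `B(x)` at
the points `(D a, D b)`, `b ≥ b₀(a)`, of `L`, contradicting `hinj`.  If `A(x) < 0` then
`F(D a, D b) → -∞` as `b → ∞`, contradicting `hnn`.  So `A(D a) > 0` for all `a ≥ 1`.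
Let `q ≥ 1` be such that `q A`, `q B` have integral coefficients.  Put `x = D`
(`a = 1`), `P = q A(x)`, a positive integer, and `x' = D a'` with `a' = 1 + P D t`... choose
`t = 1`: `x' - x = D * (P D)`, so `P D ∣ x' - x`, hence `P D ∣ q B(x') - q B(x)`
(`Polynomial.sub_dvd_eval_sub` for the integral polynomial `q B`): `q B(x') - q B(x) = P D m`, i.e.
`B(x') - B(x) = A(x) D m`, `m ∈ ℤ`.  Let `P' = q A(x') > 0` (integer).  For `k ≥ 1` large put
`b' = P k`, `b = m + P' k`: then `F(x, D b) - F(x', D b') =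
A(x) D b + B(x) - A(x') D b' - B(x') = A(x) D (b - m) - A(x') D b' = (D/q)(P P' k - P' P k) = 0`.
For `k` large both points are in `L` and they are different (`x ≠ x'`): contradiction to `hinj`.
-/

set_option autoImplicit false

open Polynomial

namespace Pool.Agent.FPO

/-- common denominators of two polynomials -/
theorem N2.den (A B : ℚ[X]) : ∃ (q : ℤ) (A' B' : ℤ[X]), 0 < q ∧
    (∀ x : ℤ, ((A'.eval x : ℤ) : ℝ) = (q : ℝ) * aeval (x : ℝ) A) ∧
    (∀ x : ℤ, ((B'.eval x : ℤ) : ℝ) = (q : ℝ) * aeval (x : ℝ) B) := by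
  have key : ∀ P : ℚ[X], ∃ (q : ℤ) (P' : ℤ[X]), q ≠ 0 ∧
      (∀ x : ℤ, ((P'.eval x : ℤ) : ℝ) = (q : ℝ) * aeval (x : ℝ) P) := by
    intro P
    obtain ⟨b, hbm, hb⟩ := IsLocalization.integerNormalization_spec (nonZeroDivisors ℤ) P
    refine ⟨b, IsLocalization.integerNormalization (nonZeroDivisors ℤ) P,
      nonZeroDivisors.ne_zero hbm, fun x => ?_⟩
    have h2 := congrArg (fun Q : ℚ[X] => aeval (x : ℝ) Q) hb
    simp only [map_zsmul] at h2
    rw [zsmul_eq_mul] at h2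
    rw [← h2]
    have h3 : aeval (x : ℝ) ((IsLocalization.integerNormalization (nonZeroDivisors ℤ) P).map
        (algebraMap ℤ ℚ)) = aeval (x : ℝ) (IsLocalization.integerNormalization
          (nonZeroDivisors ℤ) P) := by
      rw [aeval_map_algebraMap]
    rw [h3]
    have h4 := aeval_algebraMap_apply_eq_algebraMap_eval (A := ℝ) x
      (IsLocalization.integerNormalization (nonZeroDivisors ℤ) P)
    simpa using h4.symm
  obtain ⟨q₁, A₁, h1, h2⟩ := key A
  obtain ⟨q₂, B₁, h3, h4⟩ := key B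
  refine ⟨(q₁ * q₂) ^ 2, C (q₁ * q₂ ^ 2) * A₁, C (q₁ ^ 2 * q₂) * B₁,
    by positivity, fun x => ?_, fun x => ?_⟩
  · rw [eval_mul, eval_C]
    push_cast
    rw [h2]
    ring
  · rw [eval_mul, eval_C]
    push_cast
    rw [h4]
    ring

theorem n2 (F : Bi) (L : Set (ℝ × ℝ)) (D : ℕ) (hD : 0 < D)
    (hfull : ∀ a : ℤ, 0 < a → ∃ b₀ : ℤ, ∀ b : ℤ, b₀ ≤ b → ((D : ℝ) * a, (D : ℝ) * b) ∈ L)
    (hinj : ∀ v ∈ L, ∀ v' ∈ L, bv F v.1 v.2 = bv F v'.1 v'.2 → v = v')
    (hnn : ∀ v ∈ L, 0 ≤ bv F v.1 v.2) : 2 ≤ F.natDegree := by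
  by_contra hlt
  have hdeg : F.natDegree ≤ 1 := by omega
  have hF : ∀ x y : ℝ, bv F x y = aeval x (F.coeff 0) + aeval x (F.coeff 1) * y := by
    intro x y
    rw [bv_def, eval₂_eq_sum_range' _ (Nat.lt_succ_of_le hdeg)]
    rw [Finset.sum_range_succ, Finset.sum_range_one]
    simp
  set A := F.coeff 1 with hA
  set B := F.coeff 0 with hB
  have hDR : (0 : ℝ) < D := by exact_mod_cast hD
  have hpos : ∀ a : ℤ, 0 < a → 0 < aeval ((D : ℝ) * a) A := by
    intro a ha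
    obtain ⟨b₀, hb₀⟩ := hfull a ha
    rcases lt_trichotomy (aeval ((D : ℝ) * a) A) 0 with h | h | h
    · exfalso
      obtain ⟨k, hk⟩ := exists_nat_gt (aeval ((D : ℝ) * a) B /
        (-(aeval ((D : ℝ) * a) A) * D))
      have hden : 0 < -(aeval ((D : ℝ) * a) A) * D := mul_pos (neg_pos.2 h) hDR
      rw [div_lt_iff₀ hden] at hk
      have h1 := hnn _ (hb₀ (max b₀ k) (le_max_left _ _))
      rw [hF] at h1
      have h2 : (k : ℝ) ≤ ((max b₀ k : ℤ) : ℝ) := by
        exact_mod_cast le_max_right b₀ (k : ℤ)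
      have h3 : (k : ℝ) * (-(aeval ((D : ℝ) * a) A) * D) ≤
          ((max b₀ k : ℤ) : ℝ) * (-(aeval ((D : ℝ) * a) A) * D) :=
        mul_le_mul_of_nonneg_right h2 hden.le
      simp only at h1
      nlinarith
    · exfalso
      have h1 := hinj _ (hb₀ b₀ le_rfl) _ (hb₀ (b₀ + 1) (by omega)) (by
        rw [hF, hF]; simp only [h, zero_mul])
      have h2 := congrArg Prod.snd h1
      simp only at h2
      push_cast at h2
      nlinarith
    · exact h
  obtain ⟨q, A', B', hq, hA', hB'⟩ := N2.den A B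
  have hqR : (0 : ℝ) < q := by exact_mod_cast hq
  have hpos' : ∀ a : ℤ, 0 < a → 0 < A'.eval ((D : ℤ) * a) := by
    intro a ha
    have h1 : (0 : ℝ) < ((A'.eval ((D : ℤ) * a) : ℤ) : ℝ) := by
      rw [hA']
      push_cast
      exact mul_pos hqR (hpos a ha)
    exact_mod_cast h1
  have hD0 : (0 : ℤ) < D := by exact_mod_cast hD
  set P := A'.eval ((D : ℤ) * 1) with hP
  have hP0 : 0 < P := hpos' 1 one_pos
  set a' : ℤ := 1 + P * D with ha'
  have ha'0 : 0 < a' := by positivity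
  set P' := A'.eval ((D : ℤ) * a') with hP'
  have hP'0 : 0 < P' := hpos' a' ha'0
  obtain ⟨m, hm⟩ : P * D ∣ B'.eval ((D : ℤ) * a') - B'.eval ((D : ℤ) * 1) := by
    refine dvd_trans ?_ (sub_dvd_eval_sub _ _ B')
    exact ⟨D, by rw [ha']; ring⟩
  obtain ⟨b₁, hb₁⟩ := hfull 1 one_pos
  obtain ⟨b₂, hb₂⟩ := hfull a' ha'0
  set k : ℤ := |b₁| + |b₂| + |m| with hk
  have hk0 : 0 ≤ k := by positivity
  have h1 : b₁ ≤ m + P' * k := by
    have e1 := le_abs_self b₁
    have e2 := neg_abs_le m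
    have e3 := abs_nonneg b₂
    nlinarith
  have h2 : b₂ ≤ P * k := by
    have e1 := le_abs_self b₂
    have e2 := abs_nonneg b₁
    have e3 := abs_nonneg m
    nlinarith
  have h3 := hinj _ (hb₁ _ h1) _ (hb₂ _ h2) (by
    rw [hF, hF]
    simp only
    have e1 := hA' ((D : ℤ) * 1)
    have e2 := hA' ((D : ℤ) * a')
    have e3 := hB' ((D : ℤ) * 1)
    have e4 := hB' ((D : ℤ) * a')
    rw [← hP] at e1
    rw [← hP'] at e2
    have e5 : ((B'.eval ((D : ℤ) * a') - B'.eval ((D : ℤ) * 1) : ℤ) : ℝ) = ((P * D * m : ℤ) : ℝ) := by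
      rw [hm]
    push_cast at e1 e2 e3 e4 e5 ⊢
    have e6 : (q : ℝ) * (aeval ((D : ℝ) * 1) B + aeval ((D : ℝ) * 1) A * (D * (m + P' * k))) =
        q * (aeval ((D : ℝ) * a') B + aeval ((D : ℝ) * a') A * (D * (P * k))) := by
      linear_combination -e3 + e4 - (D : ℝ) * (m + P' * k) * e1 + (D : ℝ) * P * k * e2 - e5
    exact mul_left_cancel₀ hqR.ne' e6)
  have h4 := congrArg Prod.fst h3
  simp only at h4
  have h5 : ((1 : ℤ) : ℝ) = (a' : ℝ) := mul_left_cancel₀ hDR.ne' h4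
  have h6 : (1 : ℤ) = a' := by exact_mod_cast h5
  have h7 : 0 < P * D := by positivity
  omega

end Pool.Agent.FPO
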