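import Pool.Agent.FPO.N2
import Pool.Agent.FPO.N1
import Pool.Agent.FPO.Tr

/-!
# FPO module N2C: the degree bounds in charts (diff 2)

PROOF.  Let `L = {v | ∃ u ∈ S, v = pt X₀ Y₀ u} ⊆ ℝ × ℝ`.  For `v = pt X₀ Y₀ u`,
`bv F v.1 v.2 = F₀(u)` (cast; `evz_bv_real`, `hch.eq`).  So `F` is nonnegative on `L` (`hE.nat`), takes
all natural values (`hE.surj`), and is injective on `L` (`hE.inj`).  `L ⊆ (1/D₁) ℤ²` by `hch.den`.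
`n2_chart`: let `D` be as in `Full S X₀ Y₀ (Γ₁ ε₀)`.  For `a > 0` let `b₀` be an integer with
`D a ≤ ε₀ D b₀`; for `b ≥ b₀` the point `(D a, D b)` is in `Γ₁ ε₀`, hence in `L`.  Apply `n2`.
`n1_chart`: for `k ≥ 2`, if `x = D a ≥ max x₀ 1` and `|D b| ≤ ε₀ x²` then `|D b| ≤ ε₀ x^k`, so the
point is in `Γ₂ k ε₀ x₀`, hence in `L`.  Apply `n1` with `x₁ = max x₀ 1`.
-/

set_option autoImplicit false

open Polynomial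

namespace Pool.Agent.FPO

namespace N2C

/-- the set of all points of the chart -/
def LL (S : Set (ℤ × ℤ)) (X₀ Y₀ : MvPolynomial (Fin 2) ℚ) : Set (ℝ × ℝ) :=
  {v | ∃ u ∈ S, v = pt X₀ Y₀ u}

theorem val {S : Set (ℤ × ℤ)} {F₀ X₀ Y₀ : MvPolynomial (Fin 2) ℚ} {F : Bi}
    (hch : Chart S F₀ X₀ Y₀ F) (u : ℤ × ℤ) :
    bv F (pt X₀ Y₀ u).1 (pt X₀ Y₀ u).2 = ((evz F₀ u : ℚ) : ℝ) := by
  rw [← hch.eq, evz_bv_real]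
  rfl

theorem inj {S : Set (ℤ × ℤ)} {F₀ X₀ Y₀ : MvPolynomial (Fin 2) ℚ} {F : Bi} (hE : Enum S F₀)
    (hch : Chart S F₀ X₀ Y₀ F) :
    ∀ v ∈ LL S X₀ Y₀, ∀ v' ∈ LL S X₀ Y₀, bv F v.1 v.2 = bv F v'.1 v'.2 → v = v' := by
  rintro _ ⟨u, hu, rfl⟩ _ ⟨u', hu', rfl⟩ h
  rw [val hch, val hch] at h
  rw [hE.inj u hu u' hu' (by exact_mod_cast h)]

theorem nonneg {S : Set (ℤ × ℤ)} {F₀ X₀ Y₀ : MvPolynomial (Fin 2) ℚ} {F : Bi} (hE : Enum S F₀)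
    (hch : Chart S F₀ X₀ Y₀ F) : ∀ v ∈ LL S X₀ Y₀, 0 ≤ bv F v.1 v.2 := by
  rintro _ ⟨u, hu, rfl⟩
  rw [val hch]
  obtain ⟨n, hn⟩ := hE.nat u hu
  rw [hn]
  exact_mod_cast Nat.zero_le n

theorem mem_of {S : Set (ℤ × ℤ)} {X₀ Y₀ : MvPolynomial (Fin 2) ℚ} (D : ℕ) (a b : ℤ)
    (h : ∃ u ∈ S, evz X₀ u = (D : ℚ) * a ∧ evz Y₀ u = (D : ℚ) * b) :
    ((D : ℝ) * a, (D : ℝ) * b) ∈ LL S X₀ Y₀ := by
  obtain ⟨u, hu, h1, h2⟩ := h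
  refine ⟨u, hu, ?_⟩
  rw [pt, h1, h2]
  push_cast
  rfl

end N2C

open N2C in
theorem n2_chart {S : Set (ℤ × ℤ)} {F₀ X₀ Y₀ : MvPolynomial (Fin 2) ℚ} {F : Bi} (hE : Enum S F₀)
    (hch : Chart S F₀ X₀ Y₀ F) (ε₀ : ℝ) (hε₀ : 0 < ε₀) (hfull : Full S X₀ Y₀ (Γ₁ ε₀)) :
    2 ≤ F.natDegree := by
  obtain ⟨D, hD, hf⟩ := hfull
  have hD0 : (0 : ℝ) < D := by exact_mod_cast hD
  apply n2 F (LL S X₀ Y₀) D hD _ (inj hE hch) (nonneg hE hch)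
  intro a ha
  obtain ⟨b₀, hb₀⟩ := exists_int_ge ((D : ℝ) * a / (ε₀ * D))
  refine ⟨b₀, fun b hb => mem_of D a b (hf a b ?_)⟩
  have ha0 : (0 : ℝ) < a := by exact_mod_cast ha
  refine ⟨mul_pos hD0 ha0, ?_⟩
  change (D : ℝ) * a ≤ ε₀ * ((D : ℝ) * b)
  have h1 : (D : ℝ) * a / (ε₀ * D) ≤ b := hb₀.trans (by exact_mod_cast hb)
  rw [div_le_iff₀ (mul_pos hε₀ hD0)] at h1
  linarith

open N2C in
theorem n1_chart {S : Set (ℤ × ℤ)} {F₀ X₀ Y₀ : MvPolynomial (Fin 2) ℚ} {F : Bi} (hE : Enum S F₀)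
    (hch : Chart S F₀ X₀ Y₀ F) (k : ℕ) (hk : 2 ≤ k) (ε₀ x₀ : ℝ) (hε₀ : 0 < ε₀)
    (hfull : Full S X₀ Y₀ (Γ₂ k ε₀ x₀)) (hdeg : 2 ≤ F.natDegree) (w : ℕ)
    (hw : HasWt 1 (w : ℚ) F) : 3 ≤ w := by
  obtain ⟨D, hD, hf⟩ := hfull
  have hD0 : (0 : ℝ) < D := by exact_mod_cast hD
  obtain ⟨D₁, hD₁, hden⟩ := hch.den
  have hD₁0 : (0 : ℝ) < D₁ := by exact_mod_cast hD₁
  apply n1 F hdeg w hw (LL S X₀ Y₀) D₁ hD₁ _ D hD ε₀ (max x₀ 1) hε₀ _ (inj hE hch)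
    (nonneg hE hch)
  · intro n
    obtain ⟨u, hu, hn⟩ := hE.surj n
    refine ⟨_, ⟨u, hu, rfl⟩, ?_⟩
    rw [val hch, hn]
    push_cast
    rfl
  · rintro _ ⟨u, hu, rfl⟩
    obtain ⟨a, b, h1, h2⟩ := hden u hu
    refine ⟨a, b, ?_⟩
    have h3 : ((evz X₀ u : ℚ) : ℝ) = (a : ℝ) / D₁ := by
      rw [eq_div_iff hD₁0.ne', mul_comm]
      exact_mod_cast h1
    have h4 : ((evz Y₀ u : ℚ) : ℝ) = (b : ℝ) / D₁ := by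
      rw [eq_div_iff hD₁0.ne', mul_comm]
      exact_mod_cast h2
    rw [pt, h3, h4]
  · intro a b ha hb
    apply mem_of D a b (hf a b ?_)
    refine ⟨(le_max_left _ _).trans ha, ?_⟩
    change |(D : ℝ) * b| ≤ ε₀ * ((D : ℝ) * a) ^ k
    refine hb.trans ?_
    apply mul_le_mul_of_nonneg_left _ hε₀.le
    exact pow_le_pow_right₀ ((le_max_right _ _).trans ha) hk

end Pool.Agent.FPO
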