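import Pool.Agent.FPO.PsL

/-!
# FPO module NNb: lower bound away from the Puiseux roots (diff 2)

Notation as in `Lead`: `w_i = ldw (p i)`, `c_i = p i (w_i)`, `β = F.leadingCoeff.natDegree`.

PROOF.  FACTORS.  For each `i` there are `ε_i > 0`, `x_i` such that for `x ≥ x_i` and all real `y`
with `ε x^{w_i} ≤ ‖y - c_i x^{w_i}‖`: `‖y - psum (p i) x‖ ≥ ε_i (|y| + x^{w_i})`.  Indeed, by
`psum_asymp`, `‖psum (p i) x - c_i x^{w_i}‖ ≤ C x^{w_i - σ} ≤ δ x^{w_i}` for `x` large, any fixed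
`δ > 0`.  If `|y| ≥ 2(‖c_i‖ + 1) x^{w_i}` then `‖y - c_i x^{w_i}‖ ≥ |y|/2`, and (`δ ≤ 1/4`)
`‖y - psum‖ ≥ |y|/2 - x^{w_i}/4 ≥ |y|/4 ≥ (|y| + x^{w_i})/8`.  If `|y| < 2(‖c_i‖+1) x^{w_i}` then
(`δ ≤ ε/2`) `‖y - psum‖ ≥ (ε/2) x^{w_i} ≥ (ε/2)/(2‖c_i‖ + 3) (|y| + x^{w_i})`.
LEADING COEFFICIENT: `|B(x)| ≥ (|b|/2) x^β` for large `x` (`lc_asymp`).
CASE `|y| ≤ x^K`: by `Approx`, `|F(x,y)| ≥ (|b|/2) x^β ∏ ε_i (|y| + x^{w_i}) - x^{-K}`, and
`x^β ∏ (|y| + x^{w_i}) ≥ 1`, `x^{-K} ≤` a quarter of the constant for `x` large (`K ≥ 1`).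
CASE `|y| > x^K`: let `E = xdeg F ≤ K - 2`, `D = F.natDegree`.
`F(x,y) = B(x) y^D + ∑_{j<D} A_j(x) y^j` (`bv_eq_sum_y`), `|A_j(x)| ≤ C x^E` for `x ≥ 1`, so the second
sum is `≤ D C x^E |y|^{D-1} ≤ D C x^{E-K} |y|^D ≤ D C x^{-2}|y|^D` (if `D = 0` it is zero), hence
`|F| ≥ (|b|/4) x^β |y|^D` for `x` large; and `|y| + x^{w_i} ≤ 2|y|` since `w_i < K` (`hp.2.1` for
exponents of `p i`, and `1 < K`), so `∏ (|y| + x^{w_i}) ≤ 2^D |y|^D`.
-/

set_option autoImplicit false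

open Polynomial

namespace Pool.Agent.FPO

namespace NNb

open Filter

/-- a negative power tends to zero -/
theorem ev_small (C σ δ : ℝ) (hσ : 0 < σ) (hδ : 0 < δ) :
    ∀ᶠ x : ℝ in atTop, C * x ^ (-σ) ≤ δ := by
  have h : Tendsto (fun x : ℝ => C * x ^ (-σ)) atTop (nhds (C * 0)) :=
    (tendsto_rpow_neg_atTop hσ).const_mul C
  rw [mul_zero] at h
  exact h.eventually_le_const hδ

/-- one factor -/
theorem factor (p : ℚ →₀ ℂ) (ε : ℝ) (hε : 0 < ε) :
    ∃ η : ℝ, 0 < η ∧ ∀ᶠ x : ℝ in atTop, ∀ y : ℝ,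
      ε * x ^ ((ldw p : ℚ) : ℝ) ≤
        ‖(y : ℂ) - p (ldw p) * ((x ^ ((ldw p : ℚ) : ℝ) : ℝ) : ℂ)‖ →
      η * (|y| + x ^ ((ldw p : ℚ) : ℝ)) ≤ ‖(y : ℂ) - psum p x‖ := by
  obtain ⟨C, σ, hσ, hC, h⟩ := psum_asymp p
  have hn : 0 ≤ ‖p (ldw p)‖ := norm_nonneg _
  refine ⟨min (1 / 4) (ε / 2 / (2 * ‖p (ldw p)‖ + 3)), by positivity, ?_⟩
  filter_upwards [ev_small C σ (min (1 / 4) (ε / 2)) hσ (by positivity), eventually_ge_atTop 1]
    with x hx hx1 y hy
  have hx0 : 0 < x := by linarith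
  have h1 := h x hx1
  set X := x ^ ((ldw p : ℚ) : ℝ) with hX
  have hX0 : 0 < X := by positivity
  have h2 : C * x ^ (((ldw p : ℚ) : ℝ) - σ) ≤ min (1 / 4) (ε / 2) * X := by
    rw [sub_eq_add_neg, Real.rpow_add hx0]
    calc C * (X * x ^ (-σ)) = (C * x ^ (-σ)) * X := by ring
      _ ≤ _ := mul_le_mul_of_nonneg_right hx hX0.le
  have h3 : ‖(y : ℂ) - p (ldw p) * ((X : ℝ) : ℂ)‖ ≤ ‖(y : ℂ) - psum p x‖ +
      ‖psum p x - p (ldw p) * ((X : ℝ) : ℂ)‖ := by
    have : (y : ℂ) - p (ldw p) * ((X : ℝ) : ℂ) = ((y : ℂ) - psum p x) +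
      (psum p x - p (ldw p) * ((X : ℝ) : ℂ)) := by ring
    rw [this]
    exact norm_add_le _ _
  have h4 : min (1 / 4) (ε / 2) * X ≤ 1 / 4 * X :=
    mul_le_mul_of_nonneg_right (min_le_left _ _) hX0.le
  have h5 : min (1 / 4) (ε / 2) * X ≤ ε / 2 * X :=
    mul_le_mul_of_nonneg_right (min_le_right _ _) hX0.le
  have hy0 : 0 ≤ |y| := abs_nonneg y
  by_cases hcase : 2 * (‖p (ldw p)‖ + 1) * X ≤ |y|
  · have h6 : |y| - ‖p (ldw p)‖ * X ≤ ‖(y : ℂ) - p (ldw p) * ((X : ℝ) : ℂ)‖ := by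
      have := norm_sub_norm_le (y : ℂ) (p (ldw p) * ((X : ℝ) : ℂ))
      rw [norm_mul, Complex.norm_real, Complex.norm_real, Real.norm_eq_abs, Real.norm_eq_abs,
        abs_of_pos hX0] at this
      exact this
    have h7 : min (1 / 4) (ε / 2 / (2 * ‖p (ldw p)‖ + 3)) * (|y| + X) ≤ 1 / 4 * (|y| + X) :=
      mul_le_mul_of_nonneg_right (min_le_left _ _) (by positivity)
    nlinarith
  · rw [not_le] at hcase
    have h8 : min (1 / 4) (ε / 2 / (2 * ‖p (ldw p)‖ + 3)) * (|y| + X) ≤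
        ε / 2 / (2 * ‖p (ldw p)‖ + 3) * (|y| + X) :=
      mul_le_mul_of_nonneg_right (min_le_right _ _) (by positivity)
    have h9 : ε / 2 / (2 * ‖p (ldw p)‖ + 3) * (|y| + X) ≤ ε / 2 * X := by
      rw [div_mul_eq_mul_div, div_le_iff₀ (by positivity)]
      have h10 : |y| + X ≤ X * (2 * ‖p (ldw p)‖ + 3) := by nlinarith
      calc ε / 2 * (|y| + X) ≤ ε / 2 * (X * (2 * ‖p (ldw p)‖ + 3)) :=
            mul_le_mul_of_nonneg_left h10 (by positivity)
        _ = _ := by ring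
    linarith

theorem poly_le (q : ℚ[X]) (E : ℕ) (hq : q.natDegree ≤ E) :
    ∃ C : ℝ, 0 ≤ C ∧ ∀ x : ℝ, 1 ≤ x → |aeval x q| ≤ C * x ^ E := by
  refine ⟨∑ i ∈ Finset.range (q.natDegree + 1), |(q.coeff i : ℝ)|, by positivity, ?_⟩
  intro x hx
  rw [aeval_eq_sum_range, Finset.sum_mul]
  refine (Finset.abs_sum_le_sum_abs _ _).trans (Finset.sum_le_sum fun i hi => ?_)
  rw [Finset.mem_range] at hi
  rw [Algebra.smul_def, abs_mul, abs_pow, abs_of_nonneg (by linarith : (0 : ℝ) ≤ x)]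
  exact mul_le_mul_of_nonneg_left (pow_le_pow_right₀ hx (by omega)) (abs_nonneg _)

/-- lower bound of the leading coefficient -/
theorem lc_lower (B : ℚ[X]) (hB : B ≠ 0) :
    ∀ᶠ x : ℝ in atTop, |(B.leadingCoeff : ℝ)| / 2 * x ^ B.natDegree ≤ |aeval x B| := by
  obtain ⟨C, hC, h⟩ := lc_asymp B hB
  have hb : 0 < |(B.leadingCoeff : ℝ)| := by
    rw [abs_pos]
    exact_mod_cast leadingCoeff_ne_zero.2 hB
  filter_upwards [ev_small C 1 (|(B.leadingCoeff : ℝ)| / 2) one_pos (by positivity),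
    eventually_ge_atTop 1] with x hx hx1
  have hx0 : 0 < x := by linarith
  have h1 := h x hx1
  rw [sub_eq_add_neg (B.natDegree : ℝ), Real.rpow_add hx0, Real.rpow_natCast] at h1
  have h2 : C * (x ^ B.natDegree * x ^ (-1 : ℝ)) ≤ |(B.leadingCoeff : ℝ)| / 2 * x ^ B.natDegree := by
    calc C * (x ^ B.natDegree * x ^ (-1 : ℝ)) = (C * x ^ (-1 : ℝ)) * x ^ B.natDegree := by ring
      _ ≤ _ := mul_le_mul_of_nonneg_right hx (by positivity)
  have h3 : |(B.leadingCoeff : ℝ) * x ^ B.natDegree| ≤ |aeval x B| +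
      |aeval x B - (B.leadingCoeff : ℝ) * x ^ B.natDegree| := by
    have : (B.leadingCoeff : ℝ) * x ^ B.natDegree = aeval x B -
      (aeval x B - (B.leadingCoeff : ℝ) * x ^ B.natDegree) := by ring
    conv_lhs => rw [this]
    exact abs_sub _ _
  rw [abs_mul, abs_of_pos (show 0 < x ^ B.natDegree by positivity)] at h3
  linarith

/-- the case of large `y` -/
theorem large (F : Bi) (hF : F ≠ 0) :
    ∀ᶠ x : ℝ in atTop, ∀ y : ℝ, x ^ (xdeg F + 2) ≤ |y| →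
      |(F.leadingCoeff.leadingCoeff : ℝ)| / 4 * (x ^ F.leadingCoeff.natDegree * |y| ^ F.natDegree) ≤
        |bv F x y| := by
  have hB : F.leadingCoeff ≠ 0 := leadingCoeff_ne_zero.2 hF
  have hb : 0 < |(F.leadingCoeff.leadingCoeff : ℝ)| := by
    rw [abs_pos]
    exact_mod_cast leadingCoeff_ne_zero.2 hB
  have hAj : ∀ j, ∃ C : ℝ, 0 ≤ C ∧ ∀ x : ℝ, 1 ≤ x → |aeval x (F.coeff j)| ≤ C * x ^ xdeg F :=
    fun j => poly_le _ _ (natDegree_coeff_le F j)
  choose A hA0 hA using hAj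
  set S := ∑ j ∈ Finset.range F.natDegree, A j with hS
  have hS0 : 0 ≤ S := Finset.sum_nonneg fun j _ => hA0 j
  filter_upwards [lc_lower _ hB, ev_small S 2 (|(F.leadingCoeff.leadingCoeff : ℝ)| / 4) two_pos
    (by positivity), eventually_ge_atTop 1] with x h1 h2 hx1 y hy
  have hx0 : 0 < x := by linarith
  have hy1 : 1 ≤ |y| := (one_le_pow₀ hx1).trans hy
  have hy0 : 0 < |y| := by linarith
  rw [bv_eq_sum_y, Finset.sum_range_succ]
  have hlc : F.coeff F.natDegree = F.leadingCoeff := rfl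
  rw [hlc]
  have h3 : |∑ j ∈ Finset.range F.natDegree, aeval x (F.coeff j) * y ^ j| ≤
      S * x ^ (-2 : ℝ) * |y| ^ F.natDegree := by
    refine (Finset.abs_sum_le_sum_abs _ _).trans ?_
    rw [hS, Finset.sum_mul, Finset.sum_mul]
    refine Finset.sum_le_sum fun j hj => ?_
    rw [Finset.mem_range] at hj
    rw [abs_mul, abs_pow]
    have h4 : |y| ^ (j + 1) ≤ |y| ^ F.natDegree := pow_le_pow_right₀ hy1 (by omega)
    have h5 : x ^ xdeg F * |y| ^ j ≤ x ^ (-2 : ℝ) * |y| ^ F.natDegree := by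
      have h6 : x ^ (-2 : ℝ) = (x ^ 2)⁻¹ := by
        rw [Real.rpow_neg hx0.le]
        norm_num
      rw [h6, inv_mul_eq_div, le_div_iff₀ (by positivity)]
      calc x ^ xdeg F * |y| ^ j * x ^ 2 = x ^ (xdeg F + 2) * |y| ^ j := by ring
        _ ≤ |y| * |y| ^ j := mul_le_mul_of_nonneg_right hy (by positivity)
        _ = |y| ^ (j + 1) := by ring
        _ ≤ _ := h4
    calc |aeval x (F.coeff j)| * |y| ^ j ≤ A j * x ^ xdeg F * |y| ^ j :=
          mul_le_mul_of_nonneg_right (hA j x hx1) (by positivity)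
      _ = A j * (x ^ xdeg F * |y| ^ j) := by ring
      _ ≤ A j * (x ^ (-2 : ℝ) * |y| ^ F.natDegree) := mul_le_mul_of_nonneg_left h5 (hA0 j)
      _ = _ := by ring
  have h7 : |aeval x F.leadingCoeff * y ^ F.natDegree| ≤
      |∑ j ∈ Finset.range F.natDegree, aeval x (F.coeff j) * y ^ j +
        aeval x F.leadingCoeff * y ^ F.natDegree| +
      |∑ j ∈ Finset.range F.natDegree, aeval x (F.coeff j) * y ^ j| := by
    have : aeval x F.leadingCoeff * y ^ F.natDegree =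
      (∑ j ∈ Finset.range F.natDegree, aeval x (F.coeff j) * y ^ j +
        aeval x F.leadingCoeff * y ^ F.natDegree) -
      ∑ j ∈ Finset.range F.natDegree, aeval x (F.coeff j) * y ^ j := by ring
    conv_lhs => rw [this]
    exact abs_sub _ _
  rw [abs_mul, abs_pow] at h7
  have h8 : |(F.leadingCoeff.leadingCoeff : ℝ)| / 2 * x ^ F.leadingCoeff.natDegree *
      |y| ^ F.natDegree ≤ |aeval x F.leadingCoeff| * |y| ^ F.natDegree :=
    mul_le_mul_of_nonneg_right h1 (by positivity)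
  have h9 : S * x ^ (-2 : ℝ) * |y| ^ F.natDegree ≤
      |(F.leadingCoeff.leadingCoeff : ℝ)| / 4 * |y| ^ F.natDegree :=
    mul_le_mul_of_nonneg_right h2 (by positivity)
  have h10 : |y| ^ F.natDegree ≤ x ^ F.leadingCoeff.natDegree * |y| ^ F.natDegree := by
    have : 1 ≤ x ^ F.leadingCoeff.natDegree := one_le_pow₀ hx1
    have h11 : 0 ≤ |y| ^ F.natDegree := by positivity
    nlinarith
  have h12 : |(F.leadingCoeff.leadingCoeff : ℝ)| / 4 * |y| ^ F.natDegree ≤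
      |(F.leadingCoeff.leadingCoeff : ℝ)| / 4 *
        (x ^ F.leadingCoeff.natDegree * |y| ^ F.natDegree) :=
    mul_le_mul_of_nonneg_left h10 (by positivity)
  linarith

end NNb

open NNb Filter in
theorem nnb (F : Bi) (hF : F ≠ 0) (K : ℕ) (hK : xdeg F + 2 ≤ K)
    (p : Fin F.natDegree → (ℚ →₀ ℂ)) (hp : PD F K p) (ε : ℝ) (hε : 0 < ε) :
    ∃ c' x₁ : ℝ, 0 < c' ∧ 1 ≤ x₁ ∧ ∀ x : ℝ, x₁ ≤ x → ∀ y : ℝ,
      (∀ i, ε * x ^ ((ldw (p i) : ℚ) : ℝ) ≤
        ‖(y : ℂ) - p i (ldw (p i)) * ((x ^ ((ldw (p i) : ℚ) : ℝ) : ℝ) : ℂ)‖) →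
      c' * (x ^ F.leadingCoeff.natDegree * ∏ i, (|y| + x ^ ((ldw (p i) : ℚ) : ℝ))) ≤
        |bv F x y| := by
  have hB : F.leadingCoeff ≠ 0 := leadingCoeff_ne_zero.2 hF
  set b := |(F.leadingCoeff.leadingCoeff : ℝ)| with hbdef
  have hb : 0 < b := by
    rw [hbdef, abs_pos]
    exact_mod_cast leadingCoeff_ne_zero.2 hB
  obtain ⟨-, hexp, x0, hx01, happ⟩ := hp
  have hfac := fun i => factor (p i) ε hε
  choose η hη0 hη using hfac
  have hK0 : (0 : ℝ) < K := by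
    have : 0 < K := by omega
    exact_mod_cast this
  have hηp : 0 < ∏ i, η i := Finset.prod_pos fun i _ => hη0 i
  have hw : ∀ i, ((ldw (p i) : ℚ) : ℝ) ≤ K := by
    intro i
    have h1 : ldw (p i) ∈ insert 1 (p i).support := Finset.max'_mem _ _
    have h2 : ldw (p i) ≤ (K : ℚ) := by
      rcases Finset.mem_insert.1 h1 with h3 | h3
      · rw [h3]
        have : 1 ≤ K := by omega
        exact_mod_cast this
      · exact (hexp i _ (Finsupp.mem_support_iff.1 h3)).le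
    exact_mod_cast h2
  have hw1 : ∀ i, (1 : ℝ) ≤ ((ldw (p i) : ℚ) : ℝ) := by
    intro i
    exact_mod_cast one_le_ldw (p i)
  have hev : ∀ᶠ x : ℝ in atTop, ∀ y : ℝ,
      (∀ i, ε * x ^ ((ldw (p i) : ℚ) : ℝ) ≤
        ‖(y : ℂ) - p i (ldw (p i)) * ((x ^ ((ldw (p i) : ℚ) : ℝ) : ℝ) : ℂ)‖) →
      min (b / 4 * ∏ i, η i) (b / 4 / 2 ^ F.natDegree) *
        (x ^ F.leadingCoeff.natDegree * ∏ i, (|y| + x ^ ((ldw (p i) : ℚ) : ℝ))) ≤
        |bv F x y| := by
    filter_upwards [large F hF, lc_lower _ hB, eventually_all.2 hη, eventually_ge_atTop x0,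
      eventually_ge_atTop 1, ev_small 1 K (b / 4 * ∏ i, η i) hK0 (by positivity)]
      with x hlarge hlc hfx hxx0 hx1 hsm y hy
    have hx0 : 0 < x := by linarith
    have hM0 : 0 ≤ x ^ F.leadingCoeff.natDegree * ∏ i, (|y| + x ^ ((ldw (p i) : ℚ) : ℝ)) := by
      have : 0 ≤ ∏ i, (|y| + x ^ ((ldw (p i) : ℚ) : ℝ)) :=
        Finset.prod_nonneg fun i _ => by positivity
      positivity
    by_cases hcase : |y| ≤ x ^ K
    · refine le_trans (mul_le_mul_of_nonneg_right (min_le_left _ _) hM0) ?_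
      have h1 := happ x hxx0 y hcase
      have h2 : ‖(((aeval x F.leadingCoeff : ℝ)) : ℂ) * ∏ i, ((y : ℂ) - psum (p i) x)‖ ≤
          |bv F x y| + x ^ (-(K : ℝ)) := by
        have h3 : (((aeval x F.leadingCoeff : ℝ)) : ℂ) * ∏ i, ((y : ℂ) - psum (p i) x) =
          ((bv F x y : ℝ) : ℂ) - (((bv F x y : ℝ) : ℂ) - (((aeval x F.leadingCoeff : ℝ)) : ℂ) *
            ∏ i, ((y : ℂ) - psum (p i) x)) := by ring
        rw [h3]
        refine (norm_sub_le _ _).trans ?_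
        rw [Complex.norm_real, Real.norm_eq_abs]
        linarith
      rw [norm_mul, norm_prod, Complex.norm_real, Real.norm_eq_abs] at h2
      have h4 : ∏ i, (η i * (|y| + x ^ ((ldw (p i) : ℚ) : ℝ))) ≤
          ∏ i, ‖(y : ℂ) - psum (p i) x‖ := by
        refine Finset.prod_le_prod (fun i _ => ?_) fun i _ => hfx i y (hy i)
        have := hη0 i
        positivity
      rw [Finset.prod_mul_distrib] at h4
      have hP0 : 0 ≤ ∏ i, (|y| + x ^ ((ldw (p i) : ℚ) : ℝ)) :=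
        Finset.prod_nonneg fun i _ => by positivity
      have h5 : b / 2 * x ^ F.leadingCoeff.natDegree *
          ((∏ i, η i) * ∏ i, (|y| + x ^ ((ldw (p i) : ℚ) : ℝ))) ≤
          |aeval x F.leadingCoeff| * ∏ i, ‖(y : ℂ) - psum (p i) x‖ :=
        mul_le_mul hlc h4 (by positivity) (abs_nonneg _)
      have h6 : 1 ≤ x ^ F.leadingCoeff.natDegree * ∏ i, (|y| + x ^ ((ldw (p i) : ℚ) : ℝ)) := by
        refine one_le_mul_of_one_le_of_one_le (one_le_pow₀ hx1) ?_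
        rw [← Finset.prod_const_one (s := (Finset.univ : Finset (Fin F.natDegree)))]
        refine Finset.prod_le_prod (fun _ _ => zero_le_one) fun i _ => ?_
        have h7 : 1 ≤ x ^ ((ldw (p i) : ℚ) : ℝ) := Real.one_le_rpow hx1 (by linarith [hw1 i])
        linarith [abs_nonneg y]
      have h8 : x ^ (-(K : ℝ)) ≤ b / 4 * (∏ i, η i) *
          (x ^ F.leadingCoeff.natDegree * ∏ i, (|y| + x ^ ((ldw (p i) : ℚ) : ℝ))) := by
        rw [one_mul] at hsm
        refine hsm.trans ?_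
        exact le_mul_of_one_le_right (by positivity) h6
      nlinarith
    · rw [not_le] at hcase
      refine le_trans (mul_le_mul_of_nonneg_right (min_le_right _ _) hM0) ?_
      have h1 := hlarge y ((pow_le_pow_right₀ hx1 hK).trans hcase.le)
      refine le_trans ?_ h1
      have h2 : ∏ i : Fin F.natDegree, (|y| + x ^ ((ldw (p i) : ℚ) : ℝ)) ≤
          2 ^ F.natDegree * |y| ^ F.natDegree := by
        have h3 : ∏ i : Fin F.natDegree, (|y| + x ^ ((ldw (p i) : ℚ) : ℝ)) ≤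
            ∏ _i : Fin F.natDegree, (2 * |y|) := by
          refine Finset.prod_le_prod (fun i _ => by positivity) fun i _ => ?_
          have h4 : x ^ ((ldw (p i) : ℚ) : ℝ) ≤ x ^ (K : ℝ) :=
            Real.rpow_le_rpow_of_exponent_le hx1 (hw i)
          rw [Real.rpow_natCast] at h4
          linarith
        rw [Finset.prod_const, Finset.card_univ, Fintype.card_fin, mul_pow] at h3
        exact h3
      have h5 : b / 4 / 2 ^ F.natDegree * (x ^ F.leadingCoeff.natDegree *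
          ∏ i, (|y| + x ^ ((ldw (p i) : ℚ) : ℝ))) ≤
          b / 4 / 2 ^ F.natDegree * (x ^ F.leadingCoeff.natDegree *
            (2 ^ F.natDegree * |y| ^ F.natDegree)) := by
        refine mul_le_mul_of_nonneg_left ?_ (by positivity)
        exact mul_le_mul_of_nonneg_left h2 (by positivity)
      refine h5.trans (le_of_eq ?_)
      rw [← hbdef]
      field_simp
  obtain ⟨x₁, hx₁⟩ := eventually_atTop.1 hev
  refine ⟨min (b / 4 * ∏ i, η i) (b / 4 / 2 ^ F.natDegree), max x₁ 1, by positivity,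
    le_max_right _ _, fun x hx y hy => hx₁ x ((le_max_left _ _).trans hx) y hy⟩

end Pool.Agent.FPO
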