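import Pool.Agent.FPO.Api

/-!
# FPO module NNc: counting lemma (diff 2)

PROOF of `nnc_ineq`.  `x ≥ 1`, `|y| ≥ ε x` (WLOG `ε ≤ 1`), all factors are `≥ 1` and `≥ |y|`.
`D ≥ 3`: the product is `≥ |y|^3 = |y|^{3/2} |y|^{3/2} ≥ ε^{3/2} |y|^{3/2} x^{3/2}` (three of the
factors `≥ |y|`, the others `≥ 1`), and `x^{3/2} ≥ x^{3/4}`.
`D = 2`, `β ≥ 1`: `≥ x |y|² = |y|^{3/2} |y|^{1/2} x ≥ ε^{1/2} |y|^{3/2} x^{3/2}`.
`D = 2`, `β = 0`: `w_1 + w_2 ≥ 3`, so one of them, say `w_1`, is `≥ 3/2`, and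
`(|y| + x^{w_1})(|y| + x^{w_2}) ≥ (|y| + x^{3/2}) |y| ≥ |y| * (|y|^{1/2} x^{3/4})`
(`a + b ≥ √(a b)`).
So `c = ε^{3/2}` (for `ε ≤ 1`) works in all cases.

PROOF of `nnc_count`.  `x = a/D`, `y = b/D`.  From `ε x ≤ |y|` and `|y|^{3/2} x^{3/4} ≤ A n`:
`x^{9/4} ≤ A ε^{-3/2} n`, so `x ≤ C n^{4/9}`; and `|y| ≤ (A n)^{2/3} x^{-1/2}`.  For each integer `a`
with `1 ≤ a/D ≤ C n^{4/9}` the number of integers `b` is
`≤ 2 D (A n)^{2/3} (a/D)^{-1/2} + 1`.  Summing over `1 ≤ a ≤ D C n^{4/9}` with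
`∑_{a ≤ Z} a^{-1/2} ≤ 2 Z^{1/2}`, the total is `≤ C' (n^{2/3} n^{2/9} + n^{4/9}) ≤ C'' n^{8/9}`
(`2/3 + 2/9 = 8/9`).  (`A ≤ 0` gives the empty set or is harmless: replace `A` by `max A 1`.)
-/

set_option autoImplicit false

open Polynomial

namespace Pool.Agent.FPO

theorem NNc.prod_ge_one {m : ℕ} (f : Fin m → ℝ) (hf : ∀ i, 1 ≤ f i) : 1 ≤ ∏ i, f i := by
  have h := Finset.prod_le_prod (s := Finset.univ) (f := fun _ : Fin m => (1 : ℝ)) (g := f)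
    (fun i _ => zero_le_one) (fun i _ => hf i)
  simpa using h

theorem NNc.core (u v e : ℝ) (hu : 0 < u) (hv : 1 ≤ v) (he : 0 < e) (he1 : e ≤ 1)
    (h : e * v ^ 2 ≤ u) :
    e ^ 3 * (u ^ 3 * v ^ 3) ≤ u ^ 6 ∧ e ^ 3 * (u ^ 3 * v ^ 3) ≤ v ^ 4 * u ^ 4 ∧
      e ^ 3 * (u ^ 3 * v ^ 3) ≤ (u ^ 2 + v ^ 6) * u ^ 2 := by
  have hv0 : 0 < v := by linarith
  have hev : e * v ≤ u := by
    have : e * v ≤ e * v ^ 2 := by
      refine mul_le_mul_of_nonneg_left ?_ he.le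
      nlinarith
    linarith
  have h1 : (e * v) ^ 3 ≤ u ^ 3 := pow_le_pow_left₀ (by positivity) hev 3
  have hu3 : 0 < u ^ 3 := by positivity
  refine ⟨?_, ?_, ?_⟩
  · have h2 := mul_le_mul_of_nonneg_right h1 hu3.le
    calc e ^ 3 * (u ^ 3 * v ^ 3) = (e * v) ^ 3 * u ^ 3 := by ring
      _ ≤ u ^ 3 * u ^ 3 := h2
      _ = u ^ 6 := by ring
  · have h2 : e ^ 3 * v ^ 3 ≤ v ^ 4 * u := by
      have h3 : e ^ 3 ≤ e := by
        have h4 : e ^ 2 ≤ 1 := pow_le_one₀ he.le he1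
        nlinarith
      have h5 : v ^ 3 ≤ v ^ 4 := pow_le_pow_right₀ hv (by norm_num)
      have h6 : e ≤ u := by nlinarith
      calc e ^ 3 * v ^ 3 ≤ u * v ^ 4 := mul_le_mul (h3.trans h6) h5 (by positivity) hu.le
        _ = v ^ 4 * u := by ring
    calc e ^ 3 * (u ^ 3 * v ^ 3) = (e ^ 3 * v ^ 3) * u ^ 3 := by ring
      _ ≤ (v ^ 4 * u) * u ^ 3 := mul_le_mul_of_nonneg_right h2 hu3.le
      _ = v ^ 4 * u ^ 4 := by ring
  · have h2 : e ^ 3 ≤ 1 := pow_le_one₀ he.le he1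
    have h3 : u * v ^ 3 ≤ u ^ 2 + v ^ 6 := by
      nlinarith [sq_nonneg (u - v ^ 3), sq_nonneg (u + v ^ 3), mul_pos hu (pow_pos hv0 3)]
    have h4 : 0 < u ^ 2 := by positivity
    calc e ^ 3 * (u ^ 3 * v ^ 3) ≤ 1 * (u ^ 3 * v ^ 3) :=
          mul_le_mul_of_nonneg_right h2 (by positivity)
      _ = (u * v ^ 3) * u ^ 2 := by ring
      _ ≤ (u ^ 2 + v ^ 6) * u ^ 2 := mul_le_mul_of_nonneg_right h3 h4.le

theorem nnc_ineq (D β : ℕ) (hD : 2 ≤ D) (w : Fin D → ℚ) (hw : ∀ i, 1 ≤ w i)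
    (hsum : (3 : ℚ) ≤ β + ∑ i, w i) (ε : ℝ) (hε : 0 < ε) :
    ∃ c : ℝ, 0 < c ∧ ∀ x y : ℝ, 1 ≤ x → ε * x ≤ |y| →
      c * (|y| ^ (3 / 2 : ℝ) * x ^ (3 / 4 : ℝ)) ≤ x ^ β * ∏ i, (|y| + x ^ ((w i : ℚ) : ℝ)) := by
  set e : ℝ := √(min 1 ε) with he
  have hm : 0 < min 1 ε := lt_min one_pos hε
  have he0 : 0 < e := Real.sqrt_pos.2 hm
  have he1 : e ≤ 1 := by
    rw [he, Real.sqrt_le_one]
    exact min_le_left _ _
  have hee : e ^ 2 = min 1 ε := Real.sq_sqrt hm.le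
  refine ⟨e ^ 3, by positivity, fun x y hx hy => ?_⟩
  have hx0 : 0 < x := by linarith
  set t : ℝ := |y| with ht
  have ht0 : 0 < t := lt_of_lt_of_le (mul_pos hε hx0) hy
  set u : ℝ := t ^ (1 / 2 : ℝ) with hu
  set v : ℝ := x ^ (1 / 4 : ℝ) with hv
  have hu0 : 0 < u := Real.rpow_pos_of_pos ht0 _
  have hv1 : 1 ≤ v := Real.one_le_rpow hx (by norm_num)
  have hv0 : 0 < v := by linarith
  have hu2 : u ^ 2 = t := by
    rw [hu, ← Real.rpow_natCast, ← Real.rpow_mul ht0.le]; norm_num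
  have hv4 : v ^ 4 = x := by
    rw [hv, ← Real.rpow_natCast, ← Real.rpow_mul hx0.le]; norm_num
  have hu3 : t ^ (3 / 2 : ℝ) = u ^ 3 := by
    rw [hu, ← Real.rpow_natCast, ← Real.rpow_mul ht0.le]; norm_num
  have hv3 : x ^ (3 / 4 : ℝ) = v ^ 3 := by
    rw [hv, ← Real.rpow_natCast, ← Real.rpow_mul hx0.le]; norm_num
  have hv6 : x ^ (3 / 2 : ℝ) = v ^ 6 := by
    rw [hv, ← Real.rpow_natCast, ← Real.rpow_mul hx0.le]; norm_num
  have huv : e * v ^ 2 ≤ u := by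
    refine le_of_sq_le_sq ?_ hu0.le
    have h1 : (e * v ^ 2) ^ 2 = min 1 ε * x := by
      rw [mul_pow, hee, ← hv4]; ring
    rw [h1, hu2]
    exact le_trans (mul_le_mul_of_nonneg_right (min_le_right _ _) hx0.le) hy
  obtain ⟨c1, c2, c3⟩ := NNc.core u v e hu0 hv1 he0 he1 huv
  rw [hu3, hv3]
  have hxw : ∀ i, 1 ≤ x ^ ((w i : ℚ) : ℝ) := fun i =>
    Real.one_le_rpow hx (by exact_mod_cast (zero_le_one.trans (hw i)))
  have hf1 : ∀ i, 1 ≤ t + x ^ ((w i : ℚ) : ℝ) := fun i => by linarith [hxw i]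
  have hft : ∀ i, t ≤ t + x ^ ((w i : ℚ) : ℝ) := fun i => by linarith [hxw i]
  have hxβ : 1 ≤ x ^ β := one_le_pow₀ hx
  rcases Nat.lt_or_ge 2 D with h3 | h3
  · obtain ⟨m, rfl⟩ : ∃ m, D = m + 3 := ⟨D - 3, by omega⟩
    have hprod : t ^ 3 ≤ ∏ i, (t + x ^ ((w i : ℚ) : ℝ)) := by
      rw [Fin.prod_univ_succ, Fin.prod_univ_succ, Fin.prod_univ_succ]
      have hr := NNc.prod_ge_one (fun i : Fin m =>
        t + x ^ ((w (Fin.succ (Fin.succ (Fin.succ i))) : ℚ) : ℝ)) (fun i => hf1 _)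
      have a0 := hft 0
      have a1 := hft (Fin.succ 0)
      have a2 := hft (Fin.succ (Fin.succ 0))
      calc t ^ 3 = t * (t * (t * 1)) := by ring
        _ ≤ _ := by
          refine mul_le_mul a0 (mul_le_mul a1 (mul_le_mul a2 hr zero_le_one ?_) ?_ ?_) ?_ ?_
          · linarith
          · positivity
          · linarith
          · positivity
          · linarith
    have ht3 : t ^ 3 = u ^ 6 := by rw [← hu2]; ring
    calc e ^ 3 * (u ^ 3 * v ^ 3) ≤ u ^ 6 := c1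
      _ = 1 * t ^ 3 := by rw [ht3, one_mul]
      _ ≤ _ := mul_le_mul hxβ hprod (by positivity) (by positivity)
  · obtain rfl : D = 2 := le_antisymm h3 hD
    rw [Fin.sum_univ_two] at hsum
    rw [Fin.prod_univ_two]
    rcases Nat.eq_zero_or_pos β with hb | hb
    · subst hb
      rw [pow_zero, one_mul]
      have hcase : ∀ a b : ℝ, 1 ≤ a → x ^ (3 / 2 : ℝ) ≤ b →
          e ^ 3 * (u ^ 3 * v ^ 3) ≤ (t + b) * (t + a) := by
        intro a b ha hb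
        refine le_trans c3 ?_
        rw [hu2, ← hv6]
        refine mul_le_mul (by linarith) (by linarith) ht0.le ?_
        have := Real.rpow_nonneg hx0.le (3 / 2 : ℝ)
        linarith
      rcases le_or_gt (3 / 2 : ℚ) (w 0) with h0 | h0
      · refine hcase _ _ (hxw 1) ?_
        exact Real.rpow_le_rpow_of_exponent_le hx (by
          have h4 : ((3 / 2 : ℚ) : ℝ) ≤ ((w 0 : ℚ) : ℝ) := by exact_mod_cast h0
          push_cast at h4
          exact h4)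
      · have h1 : (3 / 2 : ℚ) ≤ w 1 := by
          push_cast at hsum
          linarith
        rw [mul_comm (t + x ^ ((w 0 : ℚ) : ℝ))]
        refine hcase _ _ (hxw 0) ?_
        exact Real.rpow_le_rpow_of_exponent_le hx (by
          have h4 : ((3 / 2 : ℚ) : ℝ) ≤ ((w 1 : ℚ) : ℝ) := by exact_mod_cast h1
          push_cast at h4
          exact h4)
    · have hxb : x ≤ x ^ β := by
        calc x = x ^ 1 := (pow_one x).symm
          _ ≤ x ^ β := pow_le_pow_right₀ hx hb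
      have ht2 : t * t = u ^ 4 := by rw [← hu2]; ring
      calc e ^ 3 * (u ^ 3 * v ^ 3) ≤ v ^ 4 * u ^ 4 := c2
        _ = x * (t * t) := by rw [hv4, ht2]
        _ ≤ _ := mul_le_mul hxb (mul_le_mul (hft 0) (hft 1) ht0.le (by linarith [hf1 0]))
            (by positivity) (by positivity)

theorem NNc.sum_sqrt (Z : ℕ) : ∑ m ∈ Finset.range Z, (1 / √((m : ℝ) + 1)) ≤ 2 * √(Z : ℝ) := by
  induction Z with
  | zero => simp
  | succ n ih =>
    rw [Finset.sum_range_succ]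
    have h2 : 0 < √((n : ℝ) + 1) := Real.sqrt_pos.2 (by positivity)
    have h3 : √((n : ℝ) + 1) * √((n : ℝ) + 1) = n + 1 := Real.mul_self_sqrt (by positivity)
    have h4 : √((n : ℝ)) * √((n : ℝ)) = n := Real.mul_self_sqrt (by positivity)
    have h5 : 1 / √((n : ℝ) + 1) ≤ 2 * (√((n : ℝ) + 1) - √(n : ℝ)) := by
      rw [div_le_iff₀ h2]
      nlinarith [sq_nonneg (√((n : ℝ) + 1) - √(n : ℝ))]
    push_cast
    linarith

theorem nnc_count (D : ℕ) (hD : 0 < D) (ε A : ℝ) (hε : 0 < ε) :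
    ∃ C δ : ℝ, 0 < δ ∧ ∀ n : ℕ, 1 ≤ n → ∃ T : Finset (ℤ × ℤ),
      (T.card : ℝ) ≤ C * (n : ℝ) ^ (1 - δ) ∧
      ∀ a b : ℤ, 1 ≤ (a : ℝ) / D → ε * ((a : ℝ) / D) ≤ |(b : ℝ) / D| →
        |(b : ℝ) / D| ^ (3 / 2 : ℝ) * ((a : ℝ) / D) ^ (3 / 4 : ℝ) ≤ A * n → (a, b) ∈ T := by
  set A' : ℝ := max A 1 with hA'
  have hA0 : 0 < A' := lt_of_lt_of_le one_pos (le_max_right _ _)
  have hDr : (0 : ℝ) < D := by exact_mod_cast hD
  set C1 : ℝ := (A' * ε ^ (-(3 / 2 : ℝ))) ^ (4 / 9 : ℝ) with hC1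
  have hεp : 0 < ε ^ (-(3 / 2 : ℝ)) := Real.rpow_pos_of_pos hε _
  have hC10 : 0 < C1 := Real.rpow_pos_of_pos (by positivity) _
  set K0 : ℝ := D * √D * A' ^ (2 / 3 : ℝ) with hK0
  have hA23 : 0 < A' ^ (2 / 3 : ℝ) := Real.rpow_pos_of_pos hA0 _
  have hK00 : 0 < K0 := by positivity
  refine ⟨D * C1 + 4 * K0 * √(D * C1), 1 / 9, by norm_num, fun n hn => ?_⟩
  have hn1 : (1 : ℝ) ≤ n := by exact_mod_cast hn
  have hn0 : (0 : ℝ) < n := by linarith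
  set Z : ℕ := ⌊D * C1 * (n : ℝ) ^ (4 / 9 : ℝ)⌋₊ with hZ
  have hn49 : 0 < (n : ℝ) ^ (4 / 9 : ℝ) := Real.rpow_pos_of_pos hn0 _
  have hn23 : 0 < (n : ℝ) ^ (2 / 3 : ℝ) := Real.rpow_pos_of_pos hn0 _
  set K : ℝ := K0 * (n : ℝ) ^ (2 / 3 : ℝ) with hK
  have hKpos : 0 < K := by positivity
  set B : ℕ → ℤ := fun m => ⌊K / √((m : ℝ) + 1)⌋ with hB
  have hB0 : ∀ m, 0 ≤ B m := fun m => Int.floor_nonneg.2 (by positivity)
  have hZle : (Z : ℝ) ≤ D * C1 * (n : ℝ) ^ (4 / 9 : ℝ) := Nat.floor_le (by positivity)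
  refine ⟨((Finset.range Z).sigma fun m => Finset.Icc (-(B m)) (B m)).image
    (fun p => ((p.1 : ℤ) + 1, p.2)), ?_, ?_⟩
  · have h1 : (((Finset.range Z).sigma fun m => Finset.Icc (-(B m)) (B m)).image
        (fun p => ((p.1 : ℤ) + 1, p.2))).card ≤
        ∑ m ∈ Finset.range Z, (Finset.Icc (-(B m)) (B m)).card := by
      refine le_trans Finset.card_image_le ?_
      rw [Finset.card_sigma]
    have h2 : ∀ m ∈ Finset.range Z, ((Finset.Icc (-(B m)) (B m)).card : ℝ) ≤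
        2 * K * (1 / √((m : ℝ) + 1)) + 1 := by
      intro m _
      rw [Int.card_Icc]
      have h3 : (((B m + 1 - -B m).toNat : ℤ) : ℝ) = 2 * (B m : ℝ) + 1 := by
        rw [Int.toNat_of_nonneg (by linarith [hB0 m])]
        push_cast
        ring
      have h4 : (((B m + 1 - -B m).toNat : ℕ) : ℝ) = 2 * (B m : ℝ) + 1 := by
        rw [← h3]
        norm_cast
      rw [h4]
      have h5 : (B m : ℝ) ≤ K / √((m : ℝ) + 1) := Int.floor_le _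
      have h6 : K / √((m : ℝ) + 1) = K * (1 / √((m : ℝ) + 1)) := by ring
      rw [h6] at h5
      linarith
    have h3 : ((((Finset.range Z).sigma fun m => Finset.Icc (-(B m)) (B m)).image
        (fun p => ((p.1 : ℤ) + 1, p.2))).card : ℝ) ≤
        ∑ m ∈ Finset.range Z, (2 * K * (1 / √((m : ℝ) + 1)) + 1) := by
      refine le_trans (by exact_mod_cast h1 : _ ≤ ((∑ m ∈ Finset.range Z,
        (Finset.Icc (-(B m)) (B m)).card : ℕ) : ℝ)) ?_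
      push_cast
      exact Finset.sum_le_sum h2
    rw [Finset.sum_add_distrib, ← Finset.mul_sum, Finset.sum_const, Finset.card_range,
      nsmul_eq_mul, mul_one] at h3
    have h4 := NNc.sum_sqrt Z
    have h5 : 2 * K * ∑ m ∈ Finset.range Z, (1 / √((m : ℝ) + 1)) ≤ 2 * K * (2 * √(Z : ℝ)) :=
      mul_le_mul_of_nonneg_left h4 (by positivity)
    have h6 : √(Z : ℝ) ≤ √(D * C1) * (n : ℝ) ^ (2 / 9 : ℝ) := by
      have h7 : √(Z : ℝ) ≤ √(D * C1 * (n : ℝ) ^ (4 / 9 : ℝ)) := Real.sqrt_le_sqrt hZle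
      rw [Real.sqrt_mul (by positivity)] at h7
      have h8 : √((n : ℝ) ^ (4 / 9 : ℝ)) = (n : ℝ) ^ (2 / 9 : ℝ) := by
        rw [Real.sqrt_eq_rpow, ← Real.rpow_mul hn0.le]
        norm_num
      rw [h8] at h7
      exact h7
    have h7 : (n : ℝ) ^ (2 / 3 : ℝ) * (n : ℝ) ^ (2 / 9 : ℝ) = (n : ℝ) ^ (1 - 1 / 9 : ℝ) := by
      rw [← Real.rpow_add hn0]
      norm_num
    have h8 : (n : ℝ) ^ (4 / 9 : ℝ) ≤ (n : ℝ) ^ (1 - 1 / 9 : ℝ) :=
      Real.rpow_le_rpow_of_exponent_le hn1 (by norm_num)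
    have h9 : K * √(Z : ℝ) ≤ K0 * √(D * C1) * (n : ℝ) ^ (1 - 1 / 9 : ℝ) := by
      calc K * √(Z : ℝ) ≤ K * (√(D * C1) * (n : ℝ) ^ (2 / 9 : ℝ)) :=
            mul_le_mul_of_nonneg_left h6 hKpos.le
        _ = K0 * √(D * C1) * ((n : ℝ) ^ (2 / 3 : ℝ) * (n : ℝ) ^ (2 / 9 : ℝ)) := by
            rw [hK]; ring
        _ = _ := by rw [h7]
    have h10 : (Z : ℝ) ≤ D * C1 * (n : ℝ) ^ (1 - 1 / 9 : ℝ) :=
      le_trans hZle (mul_le_mul_of_nonneg_left h8 (by positivity))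
    calc _ ≤ _ := h3
      _ ≤ 2 * K * (2 * √(Z : ℝ)) + Z := by linarith
      _ = 4 * (K * √(Z : ℝ)) + Z := by ring
      _ ≤ 4 * (K0 * √(D * C1) * (n : ℝ) ^ (1 - 1 / 9 : ℝ)) +
          D * C1 * (n : ℝ) ^ (1 - 1 / 9 : ℝ) := by linarith
      _ = _ := by ring
  · intro a b ha hab hle
    set x : ℝ := (a : ℝ) / D with hx
    have hx0 : 0 < x := by linarith
    set t : ℝ := |(b : ℝ) / D| with ht
    have ht0 : 0 < t := lt_of_lt_of_le (mul_pos hε hx0) hab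
    have hax : (a : ℝ) = D * x := by
      rw [hx]; field_simp
    have ha0 : (0 : ℝ) < a := by rw [hax]; positivity
    have ha1 : 1 ≤ a := by
      have : (0 : ℤ) < a := by exact_mod_cast ha0
      omega
    have hle' : t ^ (3 / 2 : ℝ) * x ^ (3 / 4 : ℝ) ≤ A' * n :=
      le_trans hle (mul_le_mul_of_nonneg_right (le_max_left _ _) hn0.le)
    have hx34 : 0 < x ^ (3 / 4 : ℝ) := Real.rpow_pos_of_pos hx0 _
    -- bound for `x`
    have hxb : x ≤ C1 * (n : ℝ) ^ (4 / 9 : ℝ) := by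
      have h1 : (ε * x) ^ (3 / 2 : ℝ) ≤ t ^ (3 / 2 : ℝ) :=
        Real.rpow_le_rpow (by positivity) hab (by norm_num)
      rw [Real.mul_rpow hε.le hx0.le] at h1
      have h2 : ε ^ (3 / 2 : ℝ) * x ^ (9 / 4 : ℝ) ≤ A' * n := by
        calc ε ^ (3 / 2 : ℝ) * x ^ (9 / 4 : ℝ) = ε ^ (3 / 2 : ℝ) * x ^ (3 / 2 : ℝ) * x ^ (3 / 4 : ℝ) := by
              rw [mul_assoc, ← Real.rpow_add hx0]; norm_num
          _ ≤ t ^ (3 / 2 : ℝ) * x ^ (3 / 4 : ℝ) := mul_le_mul_of_nonneg_right h1 hx34.le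
          _ ≤ _ := hle'
      have h3 : x ^ (9 / 4 : ℝ) ≤ A' * ε ^ (-(3 / 2 : ℝ)) * n := by
        have h4 : ε ^ (-(3 / 2 : ℝ)) * ε ^ (3 / 2 : ℝ) = 1 := by
          rw [← Real.rpow_add hε]; norm_num
        calc x ^ (9 / 4 : ℝ) = ε ^ (-(3 / 2 : ℝ)) * ε ^ (3 / 2 : ℝ) * x ^ (9 / 4 : ℝ) := by
              rw [h4, one_mul]
          _ = ε ^ (-(3 / 2 : ℝ)) * (ε ^ (3 / 2 : ℝ) * x ^ (9 / 4 : ℝ)) := by ring
          _ ≤ ε ^ (-(3 / 2 : ℝ)) * (A' * n) := mul_le_mul_of_nonneg_left h2 hεp.le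
          _ = _ := by ring
      have h4 : (x ^ (9 / 4 : ℝ)) ^ (4 / 9 : ℝ) ≤ (A' * ε ^ (-(3 / 2 : ℝ)) * n) ^ (4 / 9 : ℝ) :=
        Real.rpow_le_rpow (Real.rpow_nonneg hx0.le _) h3 (by norm_num)
      rw [← Real.rpow_mul hx0.le, Real.mul_rpow (by positivity) hn0.le] at h4
      have h5 : (9 / 4 : ℝ) * (4 / 9) = 1 := by norm_num
      rw [h5, Real.rpow_one] at h4
      exact h4
    -- bound for `y`
    have hyb : t ≤ A' ^ (2 / 3 : ℝ) * (n : ℝ) ^ (2 / 3 : ℝ) * x ^ (-(1 / 2) : ℝ) := by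
      have h1 : t ^ (3 / 2 : ℝ) ≤ A' * n * x ^ (-(3 / 4) : ℝ) := by
        have h2 : x ^ (3 / 4 : ℝ) * x ^ (-(3 / 4) : ℝ) = 1 := by
          rw [← Real.rpow_add hx0]; norm_num
        have h3 : 0 < x ^ (-(3 / 4) : ℝ) := Real.rpow_pos_of_pos hx0 _
        calc t ^ (3 / 2 : ℝ) = t ^ (3 / 2 : ℝ) * (x ^ (3 / 4 : ℝ) * x ^ (-(3 / 4) : ℝ)) := by
              rw [h2, mul_one]
          _ = t ^ (3 / 2 : ℝ) * x ^ (3 / 4 : ℝ) * x ^ (-(3 / 4) : ℝ) := by ring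
          _ ≤ _ := mul_le_mul_of_nonneg_right hle' h3.le
      have h2 : (t ^ (3 / 2 : ℝ)) ^ (2 / 3 : ℝ) ≤ (A' * n * x ^ (-(3 / 4) : ℝ)) ^ (2 / 3 : ℝ) :=
        Real.rpow_le_rpow (Real.rpow_nonneg ht0.le _) h1 (by norm_num)
      rw [← Real.rpow_mul ht0.le, Real.mul_rpow (by positivity) (Real.rpow_nonneg hx0.le _),
        Real.mul_rpow hA0.le hn0.le, ← Real.rpow_mul hx0.le] at h2
      have h5 : (3 / 2 : ℝ) * (2 / 3) = 1 := by norm_num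
      have h6 : (-(3 / 4) : ℝ) * (2 / 3) = -(1 / 2) := by norm_num
      rw [h5, Real.rpow_one, h6] at h2
      exact h2
    rw [Finset.mem_image]
    refine ⟨⟨a.toNat - 1, b⟩, ?_, ?_⟩
    · rw [Finset.mem_sigma]
      have hat : ((a.toNat : ℕ) : ℝ) = a := by
        have : ((a.toNat : ℕ) : ℤ) = a := Int.toNat_of_nonneg (by omega)
        exact_mod_cast this
      have haZ : a.toNat ≤ Z := by
        rw [hZ]
        apply Nat.le_floor
        rw [hat, hax, mul_assoc]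
        exact mul_le_mul_of_nonneg_left hxb hDr.le
      refine ⟨Finset.mem_range.2 (by change a.toNat - 1 < Z; omega), ?_⟩
      have hm : (((a.toNat - 1 : ℕ) : ℝ) + 1) = a := by
        rw [Nat.cast_sub (by omega), hat]
        push_cast
        ring
      have hb : |b| ≤ B (a.toNat - 1) := by
        rw [hB]
        change |b| ≤ ⌊K / √(((a.toNat - 1 : ℕ) : ℝ) + 1)⌋
        rw [hm, Int.le_floor]
        push_cast
        have h1 : |(b : ℝ)| = D * t := by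
          rw [ht, abs_div, abs_of_pos hDr]; field_simp
        rw [h1]
        have h2 : x ^ (-(1 / 2) : ℝ) = √D / √a := by
          rw [Real.rpow_neg hx0.le, ← Real.sqrt_eq_rpow, hx, Real.sqrt_div ha0.le]
          rw [inv_div]
        rw [h2] at hyb
        calc (D : ℝ) * t ≤ D * (A' ^ (2 / 3 : ℝ) * (n : ℝ) ^ (2 / 3 : ℝ) * (√D / √a)) :=
              mul_le_mul_of_nonneg_left hyb hDr.le
          _ = K / √a := by rw [hK, hK0]; ring
      rw [Finset.mem_Icc]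
      exact abs_le.1 hb
    · have h1 : ((a.toNat - 1 : ℕ) : ℤ) + 1 = a := by omega
      change (((a.toNat - 1 : ℕ) : ℤ) + 1, b) = (a, b)
      rw [h1]

end Pool.Agent.FPO
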