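import Pool.Agent.FPO.Lead
import Pool.Agent.FPO.NNb
import Pool.Agent.FPO.NNc

/-!
# FPO module NN: the points away from the Puiseux roots are few (diff 2)

PROOF.  By `lead` with `τ = 1` (`1 < K`) and `HasWt.unique`:
`w = β + ∑ max 1 (ldw (p i)) = β + ∑ ldw (p i)` (`one_le_ldw`), so `β + ∑ ldw (p i) ≥ 3`.
`nnb` (with `ε`) gives `c', x₁`.  In the region (with this `x₁ ≥ 1`), `nnb` and `nnc_ineq` give
`|F(x,y)| ≥ c' c |y|^{3/2} x^{3/4}`; so `|F| ≤ n` implies the condition of `nnc_count` with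
`A = 1/(c' c)`.  Take `G = 1`.
(`F.natDegree` is the `D` of `nnc_ineq`.)
-/

set_option autoImplicit false

open Polynomial

namespace Pool.Agent.FPO

theorem nn (F : Bi) (w : ℚ) (hw : HasWt 1 w F) (h3 : 3 ≤ w) (hdeg : 2 ≤ F.natDegree) (K : ℕ)
    (hK : xdeg F + 2 ≤ K) (p : Fin F.natDegree → (ℚ →₀ ℂ)) (hp : PD F K p) (D : ℕ) (hD : 0 < D)
    (ε : ℝ) (hε : 0 < ε) :
    ∃ x₁ : ℝ, 1 ≤ x₁ ∧ Sml F D {v : ℝ × ℝ | x₁ ≤ v.1 ∧ ε * v.1 ≤ |v.2| ∧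
      ∀ i, ε * v.1 ^ ((ldw (p i) : ℚ) : ℝ) ≤
        ‖(v.2 : ℂ) - p i (ldw (p i)) * ((v.1 ^ ((ldw (p i) : ℚ) : ℝ) : ℝ) : ℂ)‖} := by
  have hF : F ≠ 0 := hw.ne_zero
  have hK1 : (1 : ℚ) < K := by
    have : 1 < K := by omega
    exact_mod_cast this
  obtain ⟨hl, -⟩ := lead F hF K p hp 1 le_rfl hK1
  have hww := hw.unique hl
  have hsum : (3 : ℚ) ≤ (F.leadingCoeff.natDegree : ℚ) + ∑ i, ldw (p i) := by
    have h1 : ∑ i, max 1 (ldw (p i)) = ∑ i, ldw (p i) :=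
      Finset.sum_congr rfl fun i _ => max_eq_right (one_le_ldw (p i))
    rw [h1] at hww
    rw [← hww]
    exact h3
  obtain ⟨c', x₁, hc', hx₁, hb⟩ := nnb F hF K hK p hp ε hε
  obtain ⟨c, hc, hineq⟩ := nnc_ineq F.natDegree F.leadingCoeff.natDegree hdeg
    (fun i => ldw (p i)) (fun i => one_le_ldw (p i)) hsum ε hε
  obtain ⟨C, δ, hδ, hcount⟩ := nnc_count D hD ε (1 / (c' * c)) hε
  refine ⟨x₁, hx₁, 1, one_ne_zero, C, δ, hδ, ?_⟩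
  intro n hn
  obtain ⟨T, hT, hTm⟩ := hcount n hn
  refine ⟨T, hT, ?_⟩
  intro a b hreg hFn _
  obtain ⟨h1, h2, h4⟩ := hreg
  have h1' : x₁ ≤ (a : ℝ) / D := h1
  have h2' : ε * ((a : ℝ) / D) ≤ |(b : ℝ) / D| := h2
  have hx1 : 1 ≤ (a : ℝ) / D := hx₁.trans h1'
  apply hTm a b hx1 h2'
  have h5 := hb _ h1' _ h4
  have h6 := hineq ((a : ℝ) / D) ((b : ℝ) / D) hx1 h2'
  have h7 : c' * (c * (|(b : ℝ) / D| ^ (3 / 2 : ℝ) * ((a : ℝ) / D) ^ (3 / 4 : ℝ))) ≤ n :=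
    ((mul_le_mul_of_nonneg_left h6 hc'.le).trans h5).trans hFn
  rw [one_div, ← div_eq_inv_mul, le_div_iff₀ (mul_pos hc' hc)]
  calc |(b : ℝ) / D| ^ (3 / 2 : ℝ) * ((a : ℝ) / D) ^ (3 / 4 : ℝ) * (c' * c) =
      c' * (c * (|(b : ℝ) / D| ^ (3 / 2 : ℝ) * ((a : ℝ) / D) ^ (3 / 4 : ℝ))) := by ring
    _ ≤ n := h7

end Pool.Agent.FPO
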