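import Pool.Agent.FPO.Rec

/-!
# FPO module OrR: rational directions (diff 3)

Write `t₀ = p/q` in lowest terms, `q = t₀.den ≥ 1`, `p = t₀.num ≥ 0`, `gcd(p, q) = 1`, and choose
integers `a, b` with `a q + b p = 1` (if `p = 0`, then `q = 1` and choose `a = 1`, `b = 0`).
`ℓ = X 1 - C t₀ * X 0` (`X 0 = x`, `X 1 = y`).

PROOF.  If `F₀.totalDegree = d ≥ 3`.  For `σ = ±1` consider the chart
`X₀ = C σ * (C q * X 1 - C p * X 0) = C (σ q) * ℓ`, `Y₀ = C a * X 0 + C b * X 1`.  The matrix of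
`(qy - px, ax + by)` has determinant `-pb - qa = -1`, so `x = q Y - b (σ X)`, `y = p Y + a (σ X)`
(check: `q(ax+by) - b(qy - px) = (qa + pb) x = x`, `p(ax+by) + a(qy-px) = y`).
Let `F := bv (toBi F₀) (C (C q) * X - C (C (b σ) * X)) (C (C p) * X + C (C (a σ) * X))`
(as an element of `Bi` in the new variables: inner `X`, outer `Y`).
* CHART: `bv F X₀ Y₀ = bv (toBi F₀) (X 0) (X 1) = F₀` (`bv_bv`/`map_bv`, `bv_toBi`); `inj`: if
  `bv G X₀ Y₀ = 0` substitute the inverse linear forms: `bv G` evaluated at ... gives `G = 0`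
  (apply the algebra homomorphism `MvPolynomial.aeval` to `Bi` sending `X 0, X 1` to the two
  arguments above; it maps `X₀ ↦ C X`, `Y₀ ↦ X`, and `bv G (C X) X = G`).  `den`: `D = 1`
  (`X₀(u), Y₀(u)` are integers).
* DEGREES: `X₀, Y₀` are nonzero linear forms, total degree `1` (`Y₀ ≠ 0` since `(a,b) ≠ 0`), so
  `Y₀.totalDegree = 1 ≤ X₀.totalDegree = 1`.  `Lfp ℓ X₀`: `hc X₀ = X₀ = C (σ q) * ℓ^1`.
* WEIGHT: `HasWt 1 d F`: let `HasWt 1 w F` (`F ≠ 0`; `w` is a natural number).  From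
  `F₀ = bv F X₀ Y₀`, all monomials `X₀^i Y₀^j` have total degree `≤ i + j ≤ w`, so `d ≤ w`;
  conversely `F = bv (toBi F₀) (linear) (linear)` and `toBi F₀` has weights `≤ d`, so each monomial
  `x^i y^j` of it contributes monomials of total degree `i + j ≤ d` (linear forms without constant
  term): `w ≤ d`.
* FULLNESS for `σ = 1` if `t₀ < α`, and for `σ = -1` if `t₀ > 0`: there is `ε₀ > 0` such that for
  integers `A, B` with `0 < A ≤ ε₀ B`, the lattice point `x = q B - b σ A`, `y = p B + a σ A` is in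
  `sec α`: `x ≥ (q - |b| ε₀) B ≥ B/2 > 0`; the slope is
  `y/x = t₀ + σ A/(q x)` (since `q y - p x = σ A`), and `0 ≤ A/(q x) ≤ 2 ε₀/q ≤ 2 ε₀` is smaller than
  `α - t₀` resp. `t₀`.  (`D = 1` in `Full`.)
* By `claimA` (with `r = d`: `w ≤ natDegree + r` is trivial) there is `ε_σ > 0` with
  `SmlS F₀ {u ∈ sec α | pt X₀ Y₀ u ∈ Γ₁ ε_σ}`, for both signs (`σ = 1` only if `t₀ < α`, `σ = -1` only
  if `0 < t₀`).
* CONCLUSION.  Let `u = (x, y) ∈ sec α`, `|y - t₀ x| ≤ ε x`, `ε > 0` small.  If `x = 0` then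
  `u = (0, 0)` (a finite set).  Let `x > 0`; `z = q y - p x`, `|z| ≤ q ε x`, and
  `Y₀(u) = a x + b y = a x + b t₀ x + b (y - t₀ x) = x/q + b (y - t₀x) ≥ x (1/q - |b| ε) ≥ x/(2q)`.
  If `z = 0`: `u` is on the curve `ℓ = 0` (`SmlS.of_zero`).  If `z > 0`: then `y > t₀ x`, so `t₀ < α`,
  and `0 < z ≤ q ε x ≤ 2 q² ε Y₀(u) ≤ ε_1 Y₀(u)` if `ε ≤ ε_1/(2q²)`: `pt u ∈ Γ₁ ε_1` for `σ = 1`.  If
  `z < 0` similarly (`t₀ > 0`).  So the set is contained in a union of four small sets.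
-/

set_option autoImplicit false

open Polynomial

namespace Pool.Agent.FPO

namespace OrR

/-- linear form -/
noncomputable def lin (r s : ℚ) : MvPolynomial (Fin 2) ℚ :=
  MvPolynomial.C r * MvPolynomial.X 0 + MvPolynomial.C s * MvPolynomial.X 1

theorem lin_hom (r s : ℚ) : (lin r s).IsHomogeneous 1 :=
  (MvPolynomial.isHomogeneous_C_mul_X r 0).add (MvPolynomial.isHomogeneous_C_mul_X s 1)

theorem evz_lin (r s : ℚ) (u : ℤ × ℤ) : evz (lin r s) u = r * u.1 + s * u.2 := by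
  simp [evz, lin]

theorem lin_ne {r s : ℚ} (h : r ≠ 0 ∨ s ≠ 0) : lin r s ≠ 0 := by
  intro h0
  have h1 := evz_lin r s (1, 0)
  have h2 := evz_lin r s (0, 1)
  rw [h0] at h1 h2
  simp [evz] at h1 h2
  rcases h with h | h
  · exact h h1.symm
  · exact h h2.symm

theorem lin_td {r s : ℚ} (h : r ≠ 0 ∨ s ≠ 0) : (lin r s).totalDegree = 1 :=
  (lin_hom r s).totalDegree (lin_ne h)

theorem lin_td_le (r s : ℚ) : (lin r s).totalDegree ≤ 1 :=
  (lin_hom r s).totalDegree_le

theorem td_aeval (P Q F : MvPolynomial (Fin 2) ℚ) (hP : P.totalDegree ≤ 1)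
    (hQ : Q.totalDegree ≤ 1) :
    (MvPolynomial.aeval ![P, Q] F).totalDegree ≤ F.totalDegree := by
  rw [MvPolynomial.aeval_def, MvPolynomial.eval₂_eq']
  refine (MvPolynomial.totalDegree_finsetSum _ _).trans (Finset.sup_le fun m hm => ?_)
  refine (MvPolynomial.totalDegree_mul _ _).trans ?_
  rw [MvPolynomial.algebraMap_eq, MvPolynomial.totalDegree_C, zero_add, Fin.prod_univ_two]
  refine (MvPolynomial.totalDegree_mul _ _).trans ?_
  have h1 := MvPolynomial.totalDegree_pow P (m 0)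
  have h2 := MvPolynomial.totalDegree_pow Q (m 1)
  have h3 := MvPolynomial.le_totalDegree hm
  have h4 : (m.sum fun _ e => e) = m 0 + m 1 := by
    rw [Finsupp.sum_fintype _ _ (fun _ => rfl), Fin.sum_univ_two]
  have h5 : m 0 * P.totalDegree ≤ m 0 * 1 := Nat.mul_le_mul_left _ hP
  have h6 : m 1 * Q.totalDegree ≤ m 1 * 1 := Nat.mul_le_mul_left _ hQ
  simp only [Matrix.cons_val_zero, Matrix.cons_val_one]
  omega

theorem comp (P Q P' Q' F : MvPolynomial (Fin 2) ℚ)
    (h0 : MvPolynomial.aeval ![P', Q'] P = (MvPolynomial.X 0 : MvPolynomial (Fin 2) ℚ))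
    (h1 : MvPolynomial.aeval ![P', Q'] Q = (MvPolynomial.X 1 : MvPolynomial (Fin 2) ℚ)) :
    MvPolynomial.aeval ![P', Q'] (MvPolynomial.aeval ![P, Q] F) = F := by
  have h : (MvPolynomial.aeval ![P', Q']).comp (MvPolynomial.aeval ![P, Q]) =
      AlgHom.id ℚ (MvPolynomial (Fin 2) ℚ) := by
    apply MvPolynomial.algHom_ext
    intro i
    fin_cases i
    · simpa using h0
    · simpa using h1
  exact congrArg (fun f => f F) h

/-- the linear chart: determinant `-1`. -/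
theorem lin_comp {r s r' s' m n m' n' : ℚ} (h1 : m * r + n * r' = 1) (h2 : m * s + n * s' = 0)
    (h3 : m' * r + n' * r' = 0) (h4 : m' * s + n' * s' = 1) :
    MvPolynomial.aeval ![lin r s, lin r' s'] (lin m n) = (MvPolynomial.X 0 : MvPolynomial (Fin 2) ℚ) ∧
    MvPolynomial.aeval ![lin r s, lin r' s'] (lin m' n') = (MvPolynomial.X 1 : MvPolynomial (Fin 2) ℚ) := by
  constructor
  · have e : MvPolynomial.aeval ![lin r s, lin r' s'] (lin m n) =
        MvPolynomial.C (m * r + n * r') * MvPolynomial.X 0 +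
          MvPolynomial.C (m * s + n * s') * MvPolynomial.X 1 := by
      simp only [lin, map_add, map_mul, MvPolynomial.aeval_X, MvPolynomial.aeval_C,
        MvPolynomial.algebraMap_eq, Matrix.cons_val_zero, Matrix.cons_val_one]
      ring
    rw [e, h1, h2]
    simp
  · have e : MvPolynomial.aeval ![lin r s, lin r' s'] (lin m' n') =
        MvPolynomial.C (m' * r + n' * r') * MvPolynomial.X 0 +
          MvPolynomial.C (m' * s + n' * s') * MvPolynomial.X 1 := by
      simp only [lin, map_add, map_mul, MvPolynomial.aeval_X, MvPolynomial.aeval_C,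
        MvPolynomial.algebraMap_eq, Matrix.cons_val_zero, Matrix.cons_val_one]
      ring
    rw [e, h3, h4]
    simp

theorem bv_C_X_X (G : Bi) : bv G (C X : Bi) (X : Bi) = G := by
  rw [bv_C_X_eq_comp, comp_X]

/-- A linear change of coordinates with integral matrix is a chart. -/
theorem chart {S : Set (ℤ × ℤ)} (F₀ : MvPolynomial (Fin 2) ℚ) {r s r' s' : ℤ} {m n m' n' : ℚ}
    (h1 : m * r + n * r' = 1) (h2 : m * s + n * s' = 0)
    (h3 : m' * r + n' * r' = 0) (h4 : m' * s + n' * s' = 1)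
    (k1 : r * m + s * m' = 1) (k2 : r * n + s * n' = 0)
    (k3 : r' * m + s' * m' = 0) (k4 : r' * n + s' * n' = 1) :
    Chart S F₀ (lin r s) (lin r' s') (toBi (MvPolynomial.aeval ![lin m n, lin m' n'] F₀)) ∧
      (MvPolynomial.aeval ![lin m n, lin m' n'] F₀).totalDegree = F₀.totalDegree := by
  obtain ⟨e0, e1⟩ := lin_comp h1 h2 h3 h4
  obtain ⟨f0, f1⟩ := lin_comp k1 k2 k3 k4
  have hc := comp _ _ _ _ F₀ e0 e1
  refine ⟨⟨?_, ?_, ?_⟩, ?_⟩
  · rw [bv_toBi]
    exact hc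
  · intro G hG h0
    apply hG
    have h5 := congrArg (fun P : MvPolynomial (Fin 2) ℚ =>
      MvPolynomial.aeval ![toBi (lin m n), toBi (lin m' n')] P) h0
    simp only [map_zero] at h5
    have h6 := map_bv (MvPolynomial.aeval ![toBi (lin m n), toBi (lin m' n')] :
      MvPolynomial (Fin 2) ℚ →ₐ[ℚ] Bi).toRingHom G (lin r s) (lin r' s')
    have hcc : ∀ P : MvPolynomial (Fin 2) ℚ,
        MvPolynomial.aeval ![toBi (lin m n), toBi (lin m' n')] P =
          toBi (MvPolynomial.aeval ![lin m n, lin m' n'] P) := by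
      intro P
      have h : (MvPolynomial.aeval ![toBi (lin m n), toBi (lin m' n')] :
          MvPolynomial (Fin 2) ℚ →ₐ[ℚ] Bi) = (MvPolynomial.aeval ![(C X : Bi), (X : Bi)]).comp
            (MvPolynomial.aeval ![lin m n, lin m' n']) := by
        apply MvPolynomial.algHom_ext
        intro i
        fin_cases i
        · simp [toBi]
        · simp [toBi]
      exact congrArg (fun f => f P) h
    have h7 : ∀ P : MvPolynomial (Fin 2) ℚ,
        (MvPolynomial.aeval ![toBi (lin m n), toBi (lin m' n')] :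
          MvPolynomial (Fin 2) ℚ →ₐ[ℚ] Bi).toRingHom P =
          toBi (MvPolynomial.aeval ![lin m n, lin m' n'] P) := hcc
    rw [h7, h7, h7, f0, f1, h0] at h6
    have h8 : toBi (MvPolynomial.X 0) = (C X : Bi) := by simp [toBi]
    have h9 : toBi (MvPolynomial.X 1) = (X : Bi) := by simp [toBi]
    rw [h8, h9, bv_C_X_X] at h6
    rw [← h6]
    simp [toBi]
  · refine ⟨1, one_pos, fun u _ => ⟨r * u.1 + s * u.2, r' * u.1 + s' * u.2, ?_, ?_⟩⟩
    · rw [evz_lin]
      push_cast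
      ring
    · rw [evz_lin]
      push_cast
      ring
  · refine le_antisymm (td_aeval _ _ _ (lin_td_le _ _) (lin_td_le _ _)) ?_
    calc F₀.totalDegree = (MvPolynomial.aeval ![lin (r : ℚ) s, lin (r' : ℚ) s']
        (MvPolynomial.aeval ![lin m n, lin m' n'] F₀)).totalDegree := by rw [hc]
      _ ≤ _ := td_aeval _ _ _ (lin_td_le _ _) (lin_td_le _ _)

/-- Fullness of the chart. -/
theorem full (α : ℝ) {p q a b σ : ℤ} (hq : 1 ≤ q) (hp : 0 ≤ p)
    (hab : a * q + b * p = 1) (hσ : σ = 1 ∨ σ = -1)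
    (hα : (p : ℝ) ≤ q * α) (η : ℝ) (hη : 0 < η) (h1 : σ = 1 → η ≤ q * α - p)
    (h2 : σ = -1 → η ≤ p) :
    ∃ ε₀ : ℝ, 0 < ε₀ ∧
      Full (sec α) (lin ((-(σ * p) : ℤ) : ℚ) ((σ * q : ℤ) : ℚ)) (lin (a : ℚ) (b : ℚ)) (Γ₁ ε₀) := by
  have hqR : (1 : ℝ) ≤ q := by exact_mod_cast hq
  have hpR : (0 : ℝ) ≤ p := by exact_mod_cast hp
  have habR : (a : ℝ) * q + b * p = 1 := by exact_mod_cast hab
  have hpos : 0 < 2 * (|(b : ℝ)| + 1) := by positivity
  refine ⟨min (1 / (2 * (|(b : ℝ)| + 1))) (η / 2), by positivity, 1, one_pos, ?_⟩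
  intro A B hAB
  obtain ⟨hA0, hA1⟩ := hAB
  simp only [Nat.cast_one, one_mul] at hA0 hA1
  set ε := min (1 / (2 * (|(b : ℝ)| + 1))) (η / 2) with hε
  have hεp : 0 < ε := by positivity
  have e1 : ε * (2 * (|(b : ℝ)| + 1)) ≤ 1 := by
    have := min_le_left (1 / (2 * (|(b : ℝ)| + 1))) (η / 2)
    rw [← hε, le_div_iff₀ hpos] at this
    exact this
  have e2 : ε ≤ η / 2 := min_le_right _ _
  have hB0 : 0 < (B : ℝ) := by
    by_contra hB
    have : ε * B ≤ 0 := mul_nonpos_of_nonneg_of_nonpos hεp.le (not_lt.1 hB)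
    linarith
  have hσR : (σ : ℝ) = 1 ∨ (σ : ℝ) = -1 := by
    rcases hσ with h | h
    · left; exact_mod_cast h
    · right; exact_mod_cast h
  have hσ2 : (σ : ℝ) * σ = 1 := by rcases hσR with h | h <;> rw [h] <;> norm_num
  have hσ2Z : σ * σ = 1 := by rcases hσ with h | h <;> rw [h] <;> norm_num
  -- the point
  set x : ℤ := q * B - b * σ * A with hx
  set y : ℤ := p * B + a * σ * A with hy
  have hxR : (x : ℝ) = q * B - b * σ * A := by rw [hx]; push_cast; ring
  have hqy : q * y = p * x + σ * A := by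
    rw [hx, hy]
    linear_combination (σ * A) * hab
  have hqyR : (q : ℝ) * y = p * x + σ * A := by exact_mod_cast hqy
  have hbA : (b : ℝ) * σ * A ≤ |(b : ℝ)| * A := by
    have h3 : (b : ℝ) * σ ≤ |(b : ℝ)| := by
      rcases hσR with h | h
      · rw [h, mul_one]; exact le_abs_self _
      · rw [h, mul_neg_one]; exact neg_le_abs _
    exact mul_le_mul_of_nonneg_right h3 hA0.le
  have hbA2 : |(b : ℝ)| * A ≤ B / 2 := by
    have h3 : |(b : ℝ)| * A ≤ |(b : ℝ)| * (ε * B) :=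
      mul_le_mul_of_nonneg_left hA1 (abs_nonneg _)
    have h4 : |(b : ℝ)| * ε ≤ 1 / 2 := by nlinarith [abs_nonneg (b : ℝ)]
    have h5 : |(b : ℝ)| * (ε * B) = (|(b : ℝ)| * ε) * B := by ring
    rw [h5] at h3
    have h6 : (|(b : ℝ)| * ε) * B ≤ 1 / 2 * B := mul_le_mul_of_nonneg_right h4 hB0.le
    linarith
  have hxB : (B : ℝ) / 2 ≤ x := by
    rw [hxR]
    have h3 : (B : ℝ) ≤ q * B := by nlinarith
    linarith
  have hx0 : 0 < (x : ℝ) := by linarith
  have hAx : (A : ℝ) ≤ η * x := by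
    have h3 : ε * B ≤ η / 2 * B := mul_le_mul_of_nonneg_right e2 hB0.le
    have h4 : η / 2 * B ≤ η / 2 * (2 * x) := mul_le_mul_of_nonneg_left (by linarith) (by linarith)
    nlinarith
  have hq0 : (0 : ℝ) < q := by linarith
  refine ⟨(x, y), ⟨?_, ?_, ?_⟩, ?_, ?_⟩
  · show (0 : ℤ) ≤ x
    exact_mod_cast hx0.le
  · show (0 : ℤ) ≤ y
    have h3 : 0 ≤ (q : ℝ) * y := by
      rw [hqyR]
      rcases hσ with h | h
      · rw [h]
        push_cast
        have := mul_nonneg hpR hx0.le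
        linarith
      · have h4 := h2 h
        rw [h]
        push_cast
        nlinarith
    have h4 : (0 : ℝ) ≤ y := by
      by_contra h5
      have := mul_neg_of_pos_of_neg hq0 (not_le.1 h5)
      linarith
    exact_mod_cast h4
  · show (y : ℝ) ≤ α * x
    have h3 : (q : ℝ) * y ≤ q * (α * x) := by
      rw [hqyR]
      rcases hσ with h | h
      · have h4 := h1 h
        rw [h]
        push_cast
        nlinarith
      · rw [h]
        push_cast
        nlinarith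
    exact le_of_mul_le_mul_left h3 hq0
  · rw [evz_lin]
    have h3 : -(σ * p) * x + σ * q * y = A := by
      rw [hx, hy]
      linear_combination (σ * σ * A) * hab + A * hσ2Z
    have h4 : ((-(σ * p) * x + σ * q * y : ℤ) : ℚ) = (A : ℚ) := by rw [h3]
    push_cast at h4 ⊢
    linarith
  · rw [evz_lin]
    have h3 : a * x + b * y = B := by
      rw [hx, hy]
      linear_combination B * hab
    have h4 : ((a * x + b * y : ℤ) : ℚ) = (B : ℚ) := by rw [h3]
    push_cast at h4 ⊢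
    linarith

/-- The set on the side `σ`. -/
theorem side (α : ℝ) (F₀ : MvPolynomial (Fin 2) ℚ) (hE : Enum (sec α) F₀)
    (hd : 3 ≤ F₀.totalDegree) {p q a b σ : ℤ} {t₀ : ℚ} (hq : 1 ≤ q) (hp : 0 ≤ p)
    (ht₀ : (q : ℚ) * t₀ = p)
    (hNS : NSq F₀ (MvPolynomial.X 1 - MvPolynomial.C t₀ * MvPolynomial.X 0))
    (hab : a * q + b * p = 1) (hσ : σ = 1 ∨ σ = -1) (hα : (p : ℝ) ≤ q * α) :
    ∃ ε : ℝ, 0 < ε ∧ SmlS F₀ {u | u ∈ sec α ∧ 0 < σ * (q * u.2 - p * u.1) ∧
      ((σ * (q * u.2 - p * u.1) : ℤ) : ℝ) ≤ ε * ((a * u.1 + b * u.2 : ℤ) : ℝ)} := by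
  have hqR : (1 : ℝ) ≤ q := by exact_mod_cast hq
  have hpR : (0 : ℝ) ≤ p := by exact_mod_cast hp
  by_cases hcond : (σ = 1 ∧ (p : ℝ) = q * α) ∨ (σ = -1 ∧ p = 0)
  · refine ⟨1, one_pos, ?_⟩
    have he : {u : ℤ × ℤ | u ∈ sec α ∧ 0 < σ * (q * u.2 - p * u.1) ∧
        ((σ * (q * u.2 - p * u.1) : ℤ) : ℝ) ≤ 1 * ((a * u.1 + b * u.2 : ℤ) : ℝ)} = ∅ := by
      apply Set.eq_empty_of_forall_notMem
      rintro ⟨x, y⟩ ⟨⟨hx, hy, hxy⟩, h1, -⟩
      simp only at hx hy hxy h1
      rcases hcond with ⟨h2, h3⟩ | ⟨h2, h3⟩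
      · rw [h2, one_mul] at h1
        have h4 : (0 : ℝ) < q * y - p * x := by exact_mod_cast h1
        rw [h3] at h4
        nlinarith
      · rw [h2, h3] at h1
        have h4 := mul_nonneg (show (0 : ℤ) ≤ q by linarith) hy
        linarith
    rw [he]
    exact SmlS.of_finite Set.finite_empty
  · -- slack
    have hη : ∃ η : ℝ, 0 < η ∧ (σ = 1 → η ≤ q * α - p) ∧ (σ = -1 → η ≤ p) := by
      rw [not_or, not_and, not_and] at hcond
      rcases hσ with h | h
      · have h1 := hcond.1 h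
        refine ⟨q * α - p, sub_pos.2 (lt_of_le_of_ne hα h1), fun _ => le_rfl, fun h2 => ?_⟩
        rw [h] at h2
        norm_num at h2
      · have h1 := hcond.2 h
        have h3 : (1 : ℤ) ≤ p := by omega
        refine ⟨p, by exact_mod_cast h3, fun h2 => ?_, fun _ => le_rfl⟩
        rw [h] at h2
        norm_num at h2
    obtain ⟨η, hη0, hη1, hη2⟩ := hη
    have hσ2 : σ * σ = 1 := by rcases hσ with h | h <;> rw [h] <;> norm_num
    have hσ2Q : (σ : ℚ) * σ = 1 := by exact_mod_cast hσ2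
    have habQ : (a : ℚ) * q + b * p = 1 := by exact_mod_cast hab
    have hσ0 : (σ : ℚ) ≠ 0 := by
      intro h0
      rw [h0] at hσ2Q
      norm_num at hσ2Q
    have hq0 : (q : ℚ) ≠ 0 := by
      have : (1 : ℚ) ≤ q := by exact_mod_cast hq
      linarith
    -- the chart
    obtain ⟨hch, htd⟩ := chart (S := sec α) F₀ (r := -(σ * p)) (s := σ * q) (r' := a) (s' := b)
      (m := -(b * σ)) (n := q) (m' := a * σ) (n' := p)
      (by push_cast; linear_combination (b * p : ℚ) * hσ2Q + habQ)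
      (by push_cast; linear_combination (-(b * q) : ℚ) * hσ2Q)
      (by push_cast; linear_combination (-(a * p) : ℚ) * hσ2Q)
      (by push_cast; linear_combination (a * q : ℚ) * hσ2Q + habQ)
      (by push_cast; linear_combination (b * p + a * q : ℚ) * hσ2Q + habQ)
      (by push_cast; ring)
      (by ring)
      (by linear_combination habQ)
    have hF0 : F₀ ≠ 0 := by
      rintro rfl
      simp at hd
    set F₁ := MvPolynomial.aeval ![lin (-(b * σ)) q, lin (a * σ) p] F₀ with hF₁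
    have hF1 : F₁ ≠ 0 := by
      intro h0
      rw [h0, MvPolynomial.totalDegree_zero] at htd
      omega
    have hwt := hasWt_toBi hF1
    rw [htd] at hwt
    have hX : (lin ((-(σ * p) : ℤ) : ℚ) ((σ * q : ℤ) : ℚ)).totalDegree = 1 := by
      apply lin_td
      right
      push_cast
      exact mul_ne_zero hσ0 hq0
    have hLfp : Lfp (MvPolynomial.X 1 - MvPolynomial.C t₀ * MvPolynomial.X 0)
        (lin ((-(σ * p) : ℤ) : ℚ) ((σ * q : ℤ) : ℚ)) := by
      refine ⟨σ * q, mul_ne_zero hσ0 hq0, ?_⟩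
      rw [hX, pow_one, MvPolynomial.homogeneousComponent_of_mem (lin_hom _ _), if_pos rfl]
      unfold lin
      have e : (((-(σ * p) : ℤ) : ℚ)) = -(σ * q * t₀) := by
        push_cast
        rw [← ht₀]
        ring
      have e' : ((σ * q : ℤ) : ℚ) = σ * q := by push_cast; ring
      rw [e, e']
      simp only [map_neg, map_mul]
      ring
    obtain ⟨ε, hε, hS⟩ := claimA hE hNS F₀.totalDegree _ _ _ hch hLfp
      (by rw [hX]; exact lin_td_le _ _) (by rw [hX])
      (full α hq hp hab hσ hα η hη0 hη1 hη2) F₀.totalDegree hd hwt (by omega)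
    refine ⟨ε, hε, hS.mono ?_⟩
    rintro u ⟨hu, h1, h2⟩
    refine ⟨hu, ?_, ?_⟩
    · show (0 : ℝ) < ((evz (lin ((-(σ * p) : ℤ) : ℚ) ((σ * q : ℤ) : ℚ)) u : ℚ) : ℝ)
      rw [evz_lin]
      have h3 : (0 : ℝ) < ((σ * (q * u.2 - p * u.1) : ℤ) : ℝ) := by exact_mod_cast h1
      push_cast at h3 ⊢
      linarith
    · show ((evz (lin ((-(σ * p) : ℤ) : ℚ) ((σ * q : ℤ) : ℚ)) u : ℚ) : ℝ) ≤
        ε * ((evz (lin (a : ℚ) b) u : ℚ) : ℝ)
      rw [evz_lin, evz_lin]
      push_cast at h2 ⊢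
      linarith

end OrR

theorem orR (α : ℝ) (hα : 0 < α) (F₀ : MvPolynomial (Fin 2) ℚ) (hE : Enum (sec α) F₀)
    (hd : 3 ≤ F₀.totalDegree) (t₀ : ℚ) (ht0 : 0 ≤ t₀) (htα : (t₀ : ℝ) ≤ α)
    (hNS : NSq F₀ (MvPolynomial.X 1 - MvPolynomial.C t₀ * MvPolynomial.X 0)) :
    ∃ ε : ℝ, 0 < ε ∧ SmlS F₀ {u | u ∈ sec α ∧ |(u.2 : ℝ) - t₀ * u.1| ≤ ε * u.1} := by
  -- numerator, denominator, Bezout
  set p : ℤ := t₀.num with hp'
  set q : ℤ := (t₀.den : ℤ) with hq'
  have hq : 1 ≤ q := by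
    have := t₀.den_pos
    omega
  have hp : 0 ≤ p := Rat.num_nonneg.2 ht0
  have ht : (q : ℚ) * t₀ = p := by
    rw [hp', hq', Int.cast_natCast]
    exact Rat.den_mul_eq_num t₀
  have hco : IsCoprime q p := by
    rw [Int.isCoprime_iff_gcd_eq_one]
    have := t₀.reduced
    rw [hp', hq', Int.gcd_comm]
    exact this
  obtain ⟨a, b, hab⟩ := hco
  have hqR : (1 : ℝ) ≤ q := by exact_mod_cast hq
  have hq0 : (0 : ℝ) < q := by linarith
  have hpR : (0 : ℝ) ≤ p := by exact_mod_cast hp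
  have habR : (a : ℝ) * q + b * p = 1 := by exact_mod_cast hab
  have htR : (q : ℝ) * (t₀ : ℝ) = p := by exact_mod_cast ht
  have hαp : (p : ℝ) ≤ q * α := by
    rw [← htR]
    exact mul_le_mul_of_nonneg_left htα hq0.le
  obtain ⟨ε₁, hε₁, hS₁⟩ := OrR.side α F₀ hE hd (σ := 1) hq hp ht hNS hab (Or.inl rfl) hαp
  obtain ⟨ε₂, hε₂, hS₂⟩ := OrR.side α F₀ hE hd (σ := -1) hq hp ht hNS hab (Or.inr rfl) hαp
  have hline : SmlS F₀ {u | evz (MvPolynomial.X 1 - MvPolynomial.C t₀ * MvPolynomial.X 0) u = 0} := by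
    refine SmlS.of_zero (G := MvPolynomial.X 1 - MvPolynomial.C t₀ * MvPolynomial.X 0) ?_ (fun u hu => hu)
    intro h0
    have h1 := OrR.lin_ne (r := -t₀) (s := 1) (Or.inr one_ne_zero)
    apply h1
    rw [← h0]
    unfold OrR.lin
    simp only [map_neg, map_one]
    ring
  set M : ℝ := |(b : ℝ)| + 1 with hM
  have hM1 : 1 ≤ M := by rw [hM]; linarith [abs_nonneg (b : ℝ)]
  have hM0 : 0 < M := by linarith
  have hD : 0 < 2 * q * M := by positivity
  refine ⟨min (1 / (2 * q * M)) (min ε₁ ε₂ / (2 * q ^ 2)), by positivity, ?_⟩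
  refine SmlS.mono (hline.union (hS₁.union hS₂)) ?_
  set ε := min (1 / (2 * q * M)) (min ε₁ ε₂ / (2 * q ^ 2)) with hε
  have hεp : 0 < ε := by positivity
  have e1 : ε * (2 * q * M) ≤ 1 := by
    have := min_le_left (1 / (2 * q * M)) (min ε₁ ε₂ / (2 * q ^ 2))
    rw [← hε, le_div_iff₀ hD] at this
    exact this
  have e2 : ε * (2 * q ^ 2) ≤ min ε₁ ε₂ := by
    have := min_le_right (1 / (2 * q * M)) (min ε₁ ε₂ / (2 * q ^ 2))
    rw [← hε, le_div_iff₀ (by positivity)] at this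
    exact this
  have e21 : ε * (2 * q ^ 2) ≤ ε₁ := e2.trans (min_le_left _ _)
  have e22 : ε * (2 * q ^ 2) ≤ ε₂ := e2.trans (min_le_right _ _)
  rintro ⟨x, y⟩ ⟨hu, hxy⟩
  obtain ⟨hx, hy, hya⟩ := hu
  simp only at hxy hx hy hya
  have hxR : (0 : ℝ) ≤ x := by exact_mod_cast hx
  -- z
  have hz : |(q : ℝ) * y - p * x| ≤ q * ε * x := by
    have h1 : (q : ℝ) * y - p * x = q * (y - t₀ * x) := by rw [← htR]; ring
    rw [h1, abs_mul, abs_of_pos hq0]
    calc (q : ℝ) * |(y : ℝ) - t₀ * x| ≤ q * (ε * x) := mul_le_mul_of_nonneg_left hxy hq0.le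
      _ = q * ε * x := by ring
  -- Y
  have hY : (x : ℝ) / 2 ≤ q * (a * x + b * y) := by
    have h1 : (q : ℝ) * (a * x + b * y) = x + b * (q * y - p * x) := by
      linear_combination (x : ℝ) * habR
    have h2 : -(|(b : ℝ)| * (q * ε * x)) ≤ b * (q * y - p * x) := by
      have h3 : |(b : ℝ) * (q * y - p * x)| ≤ |(b : ℝ)| * (q * ε * x) := by
        rw [abs_mul]
        exact mul_le_mul_of_nonneg_left hz (abs_nonneg _)
      linarith [neg_abs_le ((b : ℝ) * (q * y - p * x))]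
    have h4 : |(b : ℝ)| * (q * ε * x) ≤ x / 2 := by
      have h5 : |(b : ℝ)| * (q * ε) ≤ 1 / 2 := by
        have h6 : |(b : ℝ)| * (q * ε) ≤ M * (q * ε) :=
          mul_le_mul_of_nonneg_right (by rw [hM]; linarith) (by positivity)
        linarith
      have h7 : |(b : ℝ)| * (q * ε * x) = |(b : ℝ)| * (q * ε) * x := by ring
      rw [h7]
      have := mul_le_mul_of_nonneg_right h5 hxR
      linarith
    linarith
  have hqe : ∀ e : ℝ, ε * (2 * q ^ 2) ≤ e → (q : ℝ) * ε * x ≤ e * (a * x + b * y) := by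
    intro e he
    have hY0 : 0 ≤ (a : ℝ) * x + b * y := by
      by_contra h1
      have := mul_neg_of_pos_of_neg hq0 (not_le.1 h1)
      linarith
    calc (q : ℝ) * ε * x = (2 * q * ε) * (x / 2) := by ring
      _ ≤ (2 * q * ε) * (q * (a * x + b * y)) := mul_le_mul_of_nonneg_left hY (by positivity)
      _ = (ε * (2 * q ^ 2)) * (a * x + b * y) := by ring
      _ ≤ e * (a * x + b * y) := mul_le_mul_of_nonneg_right he hY0
  rcases lt_trichotomy (q * y - p * x) 0 with h | h | h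
  · refine Or.inr (Or.inr ⟨⟨hx, hy, hya⟩, ?_, ?_⟩)
    · simp only
      linarith
    · simp only
      push_cast
      have := hqe ε₂ e22
      have h2 := neg_abs_le ((q : ℝ) * y - p * x)
      linarith
  · refine Or.inl ?_
    show evz (MvPolynomial.X 1 - MvPolynomial.C t₀ * MvPolynomial.X 0) (x, y) = 0
    have h1 : evz (MvPolynomial.X 1 - MvPolynomial.C t₀ * MvPolynomial.X 0) (x, y) =
        (y : ℚ) - t₀ * x := by simp [evz]
    rw [h1]
    have h2 : (q : ℚ) * y - p * x = 0 := by exact_mod_cast h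
    have h3 : (q : ℚ) * ((y : ℚ) - t₀ * x) = 0 := by
      rw [← ht] at h2
      linear_combination h2
    have hqQ : (q : ℚ) ≠ 0 := by
      have : (1 : ℚ) ≤ q := by exact_mod_cast hq
      linarith
    exact (mul_eq_zero.1 h3).resolve_left hqQ
  · refine Or.inr (Or.inl ⟨⟨hx, hy, hya⟩, ?_, ?_⟩)
    · simp only
      linarith
    · simp only
      push_cast
      have := hqe ε₁ e21
      have h2 := le_abs_self ((q : ℝ) * y - p * x)
      linarith

end Pool.Agent.FPO
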