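import Pool.Agent.FPO.Api

/-!
# FPO module Pig: many pairs with the same difference (diff 2)

Partition the interval in blocks of length `H`; count the ordered pairs in the same block
(Cauchy-Schwarz) and use the pigeonhole principle for the differences.
-/

set_option autoImplicit false

open Polynomial

namespace Pool.Agent.FPO

theorem Pig.count (A : Finset ℕ) (β : ℕ → ℕ) (J : ℕ) (hβ : ∀ a ∈ A, β a ∈ Finset.range J) :
    ((A.card : ℝ)) ^ 2 ≤ J * (A.card + 2 * (((A ×ˢ A).filter fun p : ℕ × ℕ =>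
      β p.1 = β p.2 ∧ p.1 < p.2).card : ℝ)) := by
  classical
  set n : ℕ → ℕ := fun j => (A.filter fun a => β a = j).card with hn
  have hsumn : ∑ j ∈ Finset.range J, n j = A.card :=
    (Finset.card_eq_sum_card_fiberwise hβ).symm
  set P := (A ×ˢ A).filter fun p : ℕ × ℕ => β p.1 = β p.2 with hPd
  set Q := (A ×ˢ A).filter fun p : ℕ × ℕ => β p.1 = β p.2 ∧ p.1 < p.2 with hQd
  have hP : P.card = ∑ j ∈ Finset.range J, n j ^ 2 := by
    rw [Finset.card_eq_sum_card_fiberwise (f := fun p : ℕ × ℕ => β p.1) (t := Finset.range J)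
      (s := P)]
    · refine Finset.sum_congr rfl fun j _ => ?_
      rw [sq, hn, ← Finset.card_product]
      congr 1
      ext ⟨a, b⟩
      simp only [hPd, Finset.mem_filter, Finset.mem_product]
      constructor
      · rintro ⟨⟨⟨h1, h2⟩, h3⟩, h4⟩
        exact ⟨⟨h1, h4⟩, h2, by rw [← h3]; exact h4⟩
      · rintro ⟨⟨h1, h2⟩, h3, h4⟩
        exact ⟨⟨⟨h1, h3⟩, by rw [h2, h4]⟩, h2⟩
    · intro p hp
      have hp' : p ∈ P := hp
      rw [hPd, Finset.mem_filter, Finset.mem_product] at hp'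
      exact hβ p.1 hp'.1.1
  have hPQ : P.card = A.card + 2 * Q.card := by
    have h1 := Finset.card_filter_add_card_filter_not (s := P) (fun p : ℕ × ℕ => p.1 < p.2)
    have h2 : (P.filter fun p : ℕ × ℕ => p.1 < p.2) = Q := by
      ext p
      simp only [hPd, hQd, Finset.mem_filter, Finset.mem_product]
      tauto
    have h3 := Finset.card_filter_add_card_filter_not (s := P.filter fun p : ℕ × ℕ => ¬ p.1 < p.2)
      (fun p : ℕ × ℕ => p.2 < p.1)
    have h4 : ((P.filter fun p : ℕ × ℕ => ¬ p.1 < p.2).filter fun p : ℕ × ℕ => p.2 < p.1).card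
        = Q.card := by
      refine Finset.card_bij (fun p _ => (p.2, p.1)) ?_ ?_ ?_
      · intro p hp
        simp only [hPd, hQd, Finset.mem_filter, Finset.mem_product] at hp ⊢
        exact ⟨⟨hp.1.1.1.2, hp.1.1.1.1⟩, hp.1.1.2.symm, hp.2⟩
      · rintro ⟨a, b⟩ _ ⟨c, d⟩ _ h
        simp only [Prod.mk.injEq] at h
        rw [h.1, h.2]
      · rintro ⟨a, b⟩ hab
        simp only [hQd, Finset.mem_filter, Finset.mem_product] at hab
        refine ⟨(b, a), ?_, rfl⟩
        simp only [hPd, Finset.mem_filter, Finset.mem_product]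
        exact ⟨⟨⟨⟨hab.1.2, hab.1.1⟩, hab.2.1.symm⟩, by omega⟩, hab.2.2⟩
    have h5 : ((P.filter fun p : ℕ × ℕ => ¬ p.1 < p.2).filter fun p : ℕ × ℕ => ¬ p.2 < p.1).card
        = A.card := by
      refine Finset.card_bij (fun p _ => p.1) ?_ ?_ ?_
      · intro p hp
        simp only [hPd, Finset.mem_filter, Finset.mem_product] at hp
        exact hp.1.1.1.1
      · rintro ⟨a, b⟩ hab ⟨c, d⟩ hcd h
        simp only [Finset.mem_filter] at hab hcd
        have e1 : a = b := by omega
        have e2 : c = d := by omega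
        have e3 : a = c := h
        rw [← e1, ← e2, e3]
      · intro a ha
        refine ⟨(a, a), ?_, rfl⟩
        simp only [hPd, Finset.mem_filter, Finset.mem_product]
        exact ⟨⟨⟨⟨ha, ha⟩, trivial⟩, by omega⟩, by omega⟩
    rw [h2] at h1
    rw [h4, h5] at h3
    omega
  have hcs : (∑ j ∈ Finset.range J, (n j : ℝ)) ^ 2 ≤
      (Finset.range J).card * ∑ j ∈ Finset.range J, (n j : ℝ) ^ 2 := sq_sum_le_card_mul_sum_sq
  rw [Finset.card_range] at hcs
  have e1 : ∑ j ∈ Finset.range J, (n j : ℝ) = A.card := by exact_mod_cast hsumn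
  have e2 : ∑ j ∈ Finset.range J, (n j : ℝ) ^ 2 = A.card + 2 * (Q.card : ℝ) := by
    rw [hPQ] at hP
    exact_mod_cast hP.symm
  rw [e1, e2] at hcs
  exact hcs

theorem pig (X H : ℕ) (hH : 1 ≤ H) (hHX : H ≤ X) (A : Finset ℕ)
    (hA : ∀ a ∈ A, X ≤ a ∧ a < 2 * X) (hbig : (4 : ℝ) * X / H ≤ A.card) :
    ∃ h : ℕ, 1 ≤ h ∧ h < H ∧
      ((A.card : ℝ) ^ 2 / (8 * X)) ≤ ((A.filter fun a => a + h ∈ A).card : ℝ) := by
  classical
  by_contra hcon
  push Not at hcon
  have hX : 1 ≤ X := le_trans hH hHX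
  have hXr : (0 : ℝ) < X := by exact_mod_cast hX
  have hHr : (0 : ℝ) < H := by exact_mod_cast hH
  set J : ℕ := (X - 1) / H + 1 with hJ
  have hβ : ∀ a ∈ A, (fun a => (a - X) / H) a ∈ Finset.range J := by
    intro a ha
    rw [Finset.mem_range, hJ, Nat.lt_succ_iff]
    refine Nat.div_le_div_right ?_
    have := (hA a ha).2
    omega
  have hcount := Pig.count A (fun a => (a - X) / H) J hβ
  set Q := (A ×ˢ A).filter fun p : ℕ × ℕ => (fun a => (a - X) / H) p.1 =
    (fun a => (a - X) / H) p.2 ∧ p.1 < p.2 with hQd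
  have hJH : (J : ℝ) * H ≤ 2 * X := by
    have h1 : (X - 1) / H * H ≤ X - 1 := Nat.div_mul_le_self _ _
    have h2 : J * H ≤ 2 * X := by
      rw [hJ, Nat.add_mul, one_mul]
      omega
    exact_mod_cast h2
  have hNH : 4 * (X : ℝ) ≤ A.card * H := by
    rw [div_le_iff₀ hHr] at hbig
    exact hbig
  have hN : (0 : ℝ) < A.card := by
    by_contra h0
    have h1 : (A.card : ℝ) * H ≤ 0 := mul_nonpos_of_nonpos_of_nonneg (not_lt.1 h0) hHr.le
    linarith
  have hQ0 : (0 : ℝ) ≤ Q.card := Nat.cast_nonneg _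
  have hQlow : (A.card : ℝ) ^ 2 * H ≤ 8 * X * Q.card := by
    have h1 : (A.card : ℝ) ^ 2 * H ≤ J * (A.card + 2 * (Q.card : ℝ)) * H :=
      mul_le_mul_of_nonneg_right hcount hHr.le
    have h2 : (J : ℝ) * H * (A.card + 2 * (Q.card : ℝ)) ≤ 2 * X * (A.card + 2 * (Q.card : ℝ)) :=
      mul_le_mul_of_nonneg_right hJH (by positivity)
    have h3 : 4 * (X : ℝ) * A.card ≤ A.card * H * A.card :=
      mul_le_mul_of_nonneg_right hNH hN.le
    nlinarith
  have hQup : (Q.card : ℝ) ≤ (H - 1) * ((A.card : ℝ) ^ 2 / (8 * X)) := by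
    have h1 : Q.card = ∑ h ∈ Finset.Ico 1 H, (Q.filter fun p : ℕ × ℕ => p.2 - p.1 = h).card := by
      refine Finset.card_eq_sum_card_fiberwise ?_
      intro p hp
      have hp' : p ∈ Q := hp
      rw [hQd, Finset.mem_filter, Finset.mem_product] at hp'
      obtain ⟨⟨h1, h2⟩, h3, h4⟩ := hp'
      have h5 := (hA _ h1).1
      have h6 := (hA _ h2).1
      have h3' : (p.1 - X) / H = (p.2 - X) / H := h3
      have h7 := Nat.div_add_mod (p.1 - X) H
      have h8 := Nat.div_add_mod (p.2 - X) H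
      have h9 := Nat.mod_lt (p.1 - X) hH
      have h10 := Nat.mod_lt (p.2 - X) hH
      rw [h3'] at h7
      have h11 : p.2 - p.1 ∈ Finset.Ico 1 H := by
        rw [Finset.mem_Ico]
        omega
      exact h11
    have h2 : ∀ h ∈ Finset.Ico 1 H, ((Q.filter fun p : ℕ × ℕ => p.2 - p.1 = h).card : ℝ) ≤
        (A.card : ℝ) ^ 2 / (8 * X) := by
      intro h hh
      rw [Finset.mem_Ico] at hh
      have h3 := hcon h hh.1 hh.2
      have h4 : (Q.filter fun p : ℕ × ℕ => p.2 - p.1 = h).card ≤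
          (A.filter fun a => a + h ∈ A).card := by
        refine Finset.card_le_card_of_injOn (fun p => p.1) ?_ ?_
        · intro p hp
          have hp' : p ∈ Q.filter fun p : ℕ × ℕ => p.2 - p.1 = h := hp
          rw [Finset.mem_filter, hQd, Finset.mem_filter, Finset.mem_product] at hp'
          have h5 : p.1 + h = p.2 := by omega
          have h6 : p.1 ∈ A.filter fun a => a + h ∈ A := by
            rw [Finset.mem_filter, h5]
            exact ⟨hp'.1.1.1, hp'.1.1.2⟩
          exact h6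
        · rintro ⟨a, b⟩ hab ⟨c, d⟩ hcd h5
          have hab' : (a, b) ∈ Q.filter fun p : ℕ × ℕ => p.2 - p.1 = h := hab
          have hcd' : (c, d) ∈ Q.filter fun p : ℕ × ℕ => p.2 - p.1 = h := hcd
          rw [Finset.mem_filter, hQd, Finset.mem_filter] at hab' hcd'
          have e1 : a = c := h5
          have e2 : b - a = h := hab'.2
          have e3 : d - c = h := hcd'.2
          have e4 : a < b := hab'.1.2.2
          have e5 : c < d := hcd'.1.2.2
          have e6 : b = d := by omega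
          rw [e1, e6]
      have h5 : ((Q.filter fun p : ℕ × ℕ => p.2 - p.1 = h).card : ℝ) ≤
          ((A.filter fun a => a + h ∈ A).card : ℝ) := by exact_mod_cast h4
      linarith
    rw [h1]
    push_cast
    refine le_trans (Finset.sum_le_sum h2) ?_
    rw [Finset.sum_const, Nat.card_Ico, nsmul_eq_mul, Nat.cast_sub hH, Nat.cast_one]
  have h8X : (0 : ℝ) < 8 * X := by positivity
  have hfin : 8 * X * (Q.card : ℝ) ≤ (H - 1) * (A.card : ℝ) ^ 2 := by
    have h1 := mul_le_mul_of_nonneg_left hQup h8X.le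
    have h2 : 8 * (X : ℝ) * ((H - 1) * ((A.card : ℝ) ^ 2 / (8 * X))) = (H - 1) * (A.card : ℝ) ^ 2 := by
      field_simp
    rw [h2] at h1
    exact h1
  nlinarith [pow_pos hN 2]

end Pool.Agent.FPO
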