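import Pool.Agent.FPO.Api

/-!
# FPO module PuiA: the first slope of the Newton polygon (diff 2)

PROOF.  Let `D = f.natDegree`, `a_j = f.coeff j`.  If `a_j = 0` for all `j < D` then `f = X^D`.
Otherwise let `J` be the (finite, nonempty) set of `j < D` with `a_j ≠ 0`, and for `j ∈ J` let
`o_j = (a_j).natTrailingDegree`.  Choose `j₀ ∈ J` minimizing the rational number `o_j / (D - j)`
(`Finset.exists_min_image`), and put `v = D - j₀ ≥ 1`, `u = o_{j₀}`.  Then for `j ∈ J`:
`u * (D - j) ≤ o_j * v`.  Since `X^{o_j} ∣ a_j`, `expand k v a_j` is divisible by `X^{v o_j}`, hence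
by `X^{u (D-j)}` (also for `j < D`, `j ∉ J`, as `0`): `expand k v a_j = X^{u (D-j)} * b_j`.
Put `g = X^D + ∑ j ∈ range D, C (b_j) * X^j`: monic of degree `D`, and
`g.scaleRoots (X^u)` has coefficients `b_j * (X^u)^(D-j)` (`coeff_scaleRoots`), which gives the
identity (compare coefficients; for `j = D` both are `1`, above both are `0`).
`b_{D-1} = 0` since `a_{D-1} = 0` (and `X^{u} * b_{D-1} = 0`), if `D ≥ 1`.
Finally the coefficient `j₀` of `g.map ev₀` is `b_{j₀}(0)`, which is nonzero: otherwise
`X ∣ b_{j₀}`, so `X^{u v + 1} ∣ expand k v a_{j₀}`, but the coefficient of `X^{u v}` in it is the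
coefficient `u = o_{j₀}` of `a_{j₀}` (`coeff_expand_mul`), which is nonzero.  As `j₀ < D`, the
coefficient `j₀` of `X^D` is `0`, so `g.map ev₀ ≠ X^D`.
-/

set_option autoImplicit false

open Polynomial

namespace Pool.Agent.FPO

theorem PuiA.dvd {k : Type*} [Field k] (a : k[X]) (v m : ℕ) (hv : 0 < v)
    (h : a ≠ 0 → m ≤ a.natTrailingDegree * v) : (X : k[X]) ^ m ∣ expand k v a := by
  rw [X_pow_dvd_iff]
  intro d hd
  rw [coeff_expand hv]
  split_ifs with hdv
  · by_cases ha : a = 0
    · rw [ha, coeff_zero]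
    · have h1 := h ha
      apply coeff_eq_zero_of_lt_natTrailingDegree
      obtain ⟨c, rfl⟩ := hdv
      rw [Nat.mul_div_cancel_left _ hv]
      have h2 : c * v < a.natTrailingDegree * v := by
        rw [mul_comm]; omega
      exact lt_of_mul_lt_mul_right h2 (Nat.zero_le _)
  · rfl

theorem pui_slope {k : Type*} [Field k] (f : k[X][X]) (hf : f.Monic) (hD : 1 ≤ f.natDegree)
    (h0 : f.coeff (f.natDegree - 1) = 0) :
    f = X ^ f.natDegree ∨ ∃ (v u : ℕ) (g : k[X][X]), 0 < v ∧ g.Monic ∧
      g.natDegree = f.natDegree ∧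
      f.map ((expand k v : k[X] →ₐ[k] k[X]) : k[X] →+* k[X]) = g.scaleRoots (X ^ u) ∧
      (g.map (evalRingHom (0 : k))).coeff (f.natDegree - 1) = 0 ∧
      g.map (evalRingHom (0 : k)) ≠ X ^ f.natDegree := by
  classical
  set D := f.natDegree with hDdef
  have hfD : f.coeff D = 1 := hf.coeff_natDegree
  by_cases hJ : ∀ j, j < D → f.coeff j = 0
  · left
    ext1 j
    rw [coeff_X_pow]
    split_ifs with h
    · rw [h, hfD]
    · rcases lt_or_gt_of_ne h with h1 | h1
      · exact hJ j h1
      · exact coeff_eq_zero_of_natDegree_lt h1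
  · right
    push Not at hJ
    obtain ⟨j1, hj1, hj1'⟩ := hJ
    set J := (Finset.range D).filter (fun j => f.coeff j ≠ 0) with hJdef
    have hJne : J.Nonempty := ⟨j1, Finset.mem_filter.2 ⟨Finset.mem_range.2 hj1, hj1'⟩⟩
    obtain ⟨j₀, hj₀, hmin⟩ := Finset.exists_min_image J
      (fun j => ((f.coeff j).natTrailingDegree : ℚ) / ((D - j : ℕ) : ℚ)) hJne
    rw [hJdef, Finset.mem_filter, Finset.mem_range] at hj₀
    obtain ⟨hj₀D, hj₀0⟩ := hj₀
    set v := D - j₀ with hv
    set u := (f.coeff j₀).natTrailingDegree with hu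
    have hvpos : 0 < v := by omega
    have hcmp : ∀ j, j < D → f.coeff j ≠ 0 →
        u * (D - j) ≤ (f.coeff j).natTrailingDegree * v := by
      intro j hj hj0
      have h1 := hmin j (Finset.mem_filter.2 ⟨Finset.mem_range.2 hj, hj0⟩)
      have h2 : (0 : ℚ) < ((D - j : ℕ) : ℚ) := by
        have : 0 < D - j := by omega
        exact_mod_cast this
      have h3 : (0 : ℚ) < ((D - j₀ : ℕ) : ℚ) := by exact_mod_cast hvpos
      rw [div_le_div_iff₀ h3 h2] at h1
      exact_mod_cast h1
    have hdv : ∀ j, ∃ b, j < D → expand k v (f.coeff j) = X ^ (u * (D - j)) * b := by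
      intro j
      by_cases hj : j < D
      · obtain ⟨b, hb⟩ := PuiA.dvd (f.coeff j) v (u * (D - j)) hvpos (hcmp j hj)
        exact ⟨b, fun _ => hb⟩
      · exact ⟨0, fun h => absurd h hj⟩
    choose b hb using hdv
    set g : k[X][X] := X ^ D + ∑ j ∈ Finset.range D, C (b j) * X ^ j with hg
    have hsum : (∑ j ∈ Finset.range D, C (b j) * X ^ j : k[X][X]).degree < D := by
      apply (degree_sum_le _ _).trans_lt
      rw [Finset.sup_lt_iff (by exact WithBot.bot_lt_coe D)]
      intro j hj
      refine lt_of_le_of_lt (degree_C_mul_X_pow_le j (b j)) ?_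
      exact_mod_cast Finset.mem_range.1 hj
    have hgm : g.Monic := monic_X_pow_add hsum
    have hgd : g.natDegree = D := by
      apply natDegree_eq_of_degree_eq_some
      rw [hg, degree_add_eq_left_of_degree_lt]
      · exact degree_X_pow D
      · rw [degree_X_pow]; exact hsum
    have hgc : ∀ j, j < D → g.coeff j = b j := by
      intro j hj
      rw [hg, coeff_add, coeff_X_pow, if_neg (by omega), zero_add, finsetSum_coeff]
      rw [Finset.sum_eq_single j]
      · rw [coeff_C_mul, coeff_X_pow, if_pos rfl, mul_one]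
      · intro i _ hi
        rw [coeff_C_mul, coeff_X_pow, if_neg (Ne.symm hi), mul_zero]
      · intro h
        exact absurd (Finset.mem_range.2 hj) h
    refine ⟨v, u, g, hvpos, hgm, hgd, ?_, ?_, ?_⟩
    · ext1 j
      rw [coeff_map, coeff_scaleRoots, hgd]
      rcases lt_trichotomy j D with h | h | h
      · rw [hgc j h]
        show expand k v (f.coeff j) = _
        rw [hb j h, ← pow_mul, mul_comm]
      · rw [h, hfD, map_one, Nat.sub_self, pow_zero, mul_one]
        have := hgm.coeff_natDegree
        rw [hgd] at this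
        exact this.symm
      · rw [coeff_eq_zero_of_natDegree_lt h, map_zero,
          coeff_eq_zero_of_natDegree_lt (p := g) (by rw [hgd]; exact h), zero_mul]
    · rw [coeff_map, hgc _ (by omega)]
      have h1 := hb (D - 1) (by omega)
      rw [h0, map_zero] at h1
      have h2 : b (D - 1) = 0 := by
        rcases mul_eq_zero.1 h1.symm with h3 | h3
        · exact absurd h3 (pow_ne_zero _ X_ne_zero)
        · exact h3
      rw [h2, map_zero]
    · intro hcon
      have h1 := congrArg (fun p => p.coeff j₀) hcon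
      change (g.map (evalRingHom (0 : k))).coeff j₀ = (X ^ D : k[X]).coeff j₀ at h1
      rw [coeff_map, hgc j₀ hj₀D, coeff_X_pow, if_neg (by omega)] at h1
      have h2 : (b j₀).coeff 0 = 0 := by
        rw [coeff_zero_eq_eval_zero]
        exact h1
      have h3 := hb j₀ hj₀D
      have h4 := congrArg (fun p => p.coeff (u * v)) h3
      change (expand k v (f.coeff j₀)).coeff (u * v) =
        (X ^ (u * (D - j₀)) * b j₀ : k[X]).coeff (u * v) at h4
      rw [coeff_expand_mul hvpos] at h4
      have h5 : (X ^ (u * (D - j₀)) * b j₀ : k[X]).coeff (u * v) = (b j₀).coeff 0 := by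
        have := coeff_X_pow_mul (b j₀) (u * (D - j₀)) 0
        rw [zero_add] at this
        exact this
      rw [h5, h2] at h4
      have h6 := natTrailingDegree_mem_support_of_nonzero hj₀0
      rw [mem_support_iff] at h6
      exact h6 h4

end Pool.Agent.FPO
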