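import Pool.Agent.FPO.Api

/-!
# FPO module PuiB: splitting a polynomial with vanishing second coefficient (diff 1)

PROOF.  `g` has a root `r` (`IsAlgClosed.exists_root`, degree `≥ 1`).  Let
`e = g.rootMultiplicity r ≥ 1`, `h₁ = (X - C r)^e`, `h₂ = g /ₘ h₁`, so `g = h₁ * h₂`
(`pow_mul_divByMonic_rootMultiplicity_eq`) and `h₂.eval r ≠ 0`
(`eval_divByMonic_pow_rootMultiplicity_ne_zero`).  `h₂` is monic (`Monic.of_mul_monic_left`),
`IsCoprime (X - C r) h₂` (`isCoprime` of an irreducible not dividing: `dvd_iff_isRoot`), so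
`IsCoprime h₁ h₂` (`IsCoprime.pow_left`).  If `h₂.natDegree = 0` then `h₂ = 1`, `g = (X - C r)^D`
with `D = g.natDegree = e`, and the coefficient of `X^{D-1}` is `-D r`
(`coeff_X_sub_C_pow` or via `nextCoeff`: `nextCoeff_pow`-type lemmas,
`Polynomial.nextCoeff_X_sub_C`, `Monic.nextCoeff_pow`), so `r = 0` (characteristic zero,
`D ≥ 1`) and `g = X^D`, a contradiction.
-/

set_option autoImplicit false

open Polynomial

namespace Pool.Agent.FPO

theorem pui_split {k : Type*} [Field k] [IsAlgClosed k] [CharZero k] (g : k[X]) (hg : g.Monic)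
    (hD : 1 ≤ g.natDegree) (h0 : g.coeff (g.natDegree - 1) = 0) (hne : g ≠ X ^ g.natDegree) :
    ∃ h₁ h₂ : k[X], h₁.Monic ∧ h₂.Monic ∧ IsCoprime h₁ h₂ ∧ g = h₁ * h₂ ∧
      1 ≤ h₁.natDegree ∧ 1 ≤ h₂.natDegree := by
  have hg0 : g ≠ 0 := hg.ne_zero
  have hdeg : g.degree ≠ 0 := by
    rw [degree_eq_natDegree hg0]
    intro h
    have : g.natDegree = 0 := by exact_mod_cast h
    omega
  obtain ⟨r, hr⟩ := IsAlgClosed.exists_root g hdeg
  have he : 0 < g.rootMultiplicity r := (rootMultiplicity_pos hg0).2 hr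
  set e := g.rootMultiplicity r with hedef
  set h₂ := g /ₘ (X - C r) ^ e with hh2
  have hfac : (X - C r) ^ e * h₂ = g := pow_mul_divByMonic_rootMultiplicity_eq g r
  have hev : h₂.eval r ≠ 0 := eval_divByMonic_pow_rootMultiplicity_ne_zero r hg0
  have hm1 : ((X - C r) ^ e : k[X]).Monic := (monic_X_sub_C r).pow e
  have hm2 : h₂.Monic := by
    refine hm1.of_mul_monic_left ?_
    rw [hfac]
    exact hg
  have hcop : IsCoprime (X - C r) h₂ := by
    refine ((irreducible_X_sub_C r).coprime_iff_not_dvd).2 ?_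
    intro h
    exact hev (dvd_iff_isRoot.1 h)
  have hd1 : ((X - C r) ^ e : k[X]).natDegree = e := by
    rw [natDegree_pow, natDegree_X_sub_C, mul_one]
  refine ⟨(X - C r) ^ e, h₂, hm1, hm2, hcop.pow_left, hfac.symm, ?_, ?_⟩
  · rw [hd1]
    exact he
  · by_contra hc
    have hz : h₂.natDegree = 0 := by omega
    have h2one : h₂ = 1 := hm2.natDegree_eq_zero.1 hz
    have hg1 : g = (X - C r) ^ e := by rw [← hfac, h2one, mul_one]
    have hgd : g.natDegree = e := by
      conv_lhs => rw [hg1]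
      exact hd1
    have hnc : g.nextCoeff = 0 := by
      rw [nextCoeff_of_natDegree_pos (by omega)]
      exact h0
    have hnc2 : g.nextCoeff = e • (-r) := by
      conv_lhs => rw [hg1]
      rw [(monic_X_sub_C r).nextCoeff_pow, nextCoeff_X_sub_C]
    rw [hnc2, nsmul_eq_mul, mul_eq_zero] at hnc
    have hr0 : r = 0 := by
      rcases hnc with h | h
      · have : e = 0 := by exact_mod_cast h
        omega
      · exact neg_eq_zero.1 h
    apply hne
    conv_lhs => rw [hg1]
    rw [hr0, C_0, sub_zero, hgd]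

end Pool.Agent.FPO
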