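import Pool.Agent.FPO.Hens
import Pool.Agent.FPO.PuiA
import Pool.Agent.FPO.PuiB

/-!
# FPO module PuiC: Puiseux's theorem modulo `t^N`

Strong induction on the degree: Tschirnhaus transformation, first slope of the Newton polygon,
splitting of the reduction, Hensel's lemma.
-/

set_option autoImplicit false

open Polynomial

namespace Pool.Agent.FPO

namespace PuiC

variable {k : Type*} [Field k]

/-- `t ↦ t^m` -/
noncomputable def E (m : ℕ) : k[X] →+* k[X] := ((expand k m : k[X] →ₐ[k] k[X]) : k[X] →+* k[X])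

theorem E_apply (m : ℕ) (f : k[X]) : E m f = expand k m f := rfl

theorem E_E (m n : ℕ) (f : k[X]) : E m (E n f) = E (m * n) f := by
  rw [E_apply, E_apply, E_apply, expand_mul]

theorem E_comp (m n : ℕ) : (E m : k[X] →+* k[X]).comp (E n) = E (m * n) := by
  ext x
  · change (E m (E n (C x)) : k[X]).coeff _ = _
    rw [E_E]
    rfl
  · change (E m (E n X) : k[X]).coeff _ = _
    rw [E_E]

theorem E_X_pow (m n : ℕ) : (E m (X ^ n) : k[X]) = X ^ (m * n) := by
  rw [E_apply, map_pow, expand_X, pow_mul]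

theorem cg_mul {a : k[X]} {A B A' B' : k[X][X]} (h : C a ∣ A - B) (h' : C a ∣ A' - B') :
    C a ∣ A * A' - B * B' := by
  have e : A * A' - B * B' = A * (A' - B') + (A - B) * B' := by ring
  rw [e]
  exact dvd_add (h'.mul_left _) (h.mul_right _)

theorem cg_map {n : ℕ} (m : ℕ) {A B : k[X][X]} (h : C (X ^ n) ∣ A - B) :
    C (X ^ (m * n)) ∣ A.map (E m) - B.map (E m) := by
  obtain ⟨Q, hQ⟩ := h
  refine ⟨Q.map (E m), ?_⟩
  rw [← Polynomial.map_sub, hQ, Polynomial.map_mul, map_C, E_X_pow]

theorem cg_comp {a : k[X]} {A B : k[X][X]} (h : C a ∣ A - B) (P : k[X][X]) :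
    C a ∣ A.comp P - B.comp P := by
  obtain ⟨Q, hQ⟩ := h
  refine ⟨Q.comp P, ?_⟩
  rw [← sub_comp, hQ, mul_comp, C_comp]

theorem cg_scale {a : k[X]} {A B : k[X][X]} (h : C a ∣ A - B) (hd : A.natDegree = B.natDegree)
    (r : k[X]) : C a ∣ A.scaleRoots r - B.scaleRoots r := by
  rw [C_dvd_iff_dvd_coeff] at h ⊢
  intro i
  rw [coeff_sub, coeff_scaleRoots, coeff_scaleRoots, hd, ← sub_mul, ← coeff_sub]
  exact (h i).mul_right _

/-- `∏ (X - C p)` -/
noncomputable def PP (s : Multiset k[X]) : k[X][X] := (s.map fun p => (X - C p : k[X][X])).prod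

theorem PP_monic (s : Multiset k[X]) : (PP s).Monic := monic_multisetProd_X_sub_C s

theorem PP_natDegree (s : Multiset k[X]) : (PP s).natDegree = Multiset.card s := by
  rw [PP, natDegree_multiset_prod_X_sub_C_eq_card]

theorem PP_map (φ : k[X] →+* k[X]) (s : Multiset k[X]) : (PP s).map φ = PP (s.map φ) := by
  rw [PP, PP, Polynomial.map_multiset_prod, Multiset.map_map, Multiset.map_map]
  congr 1
  apply Multiset.map_congr rfl
  intro x _
  simp

theorem PP_comp (c : k[X]) (s : Multiset k[X]) :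
    (PP s).comp (X + C c) = PP (s.map fun p => p - c) := by
  rw [PP, PP, multiset_prod_comp, Multiset.map_map, Multiset.map_map]
  congr 1
  apply Multiset.map_congr rfl
  intro x _
  simp only [Function.comp_apply, sub_comp, X_comp, C_comp, C_sub]
  ring

theorem PP_add (s t : Multiset k[X]) : PP (s + t) = PP s * PP t := by
  rw [PP, Multiset.map_add, Multiset.prod_add]
  rfl

theorem PP_scale (r : k[X]) (s : Multiset k[X]) :
    (PP s).scaleRoots r = PP (s.map fun p => r * p) := by
  induction s using Multiset.induction_on with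
  | empty => simp [PP]
  | cons q s ih =>
    rw [← Multiset.singleton_add, PP_add, mul_scaleRoots_of_noZeroDivisors, ih, Multiset.map_add,
      PP_add]
    congr 1
    rw [Multiset.map_singleton]
    simp only [PP, Multiset.map_singleton, Multiset.prod_singleton]
    ext1 i
    rw [coeff_scaleRoots, natDegree_X_sub_C, coeff_sub, coeff_sub, coeff_X, coeff_C, coeff_C]
    rcases i with _ | _ | i
    · simp [mul_comm]
    · simp
    · simp

/-- the statement -/
def St (N : ℕ) (f : k[X][X]) : Prop :=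
  ∃ (m : ℕ) (s : Multiset k[X]), 0 < m ∧ Multiset.card s = f.natDegree ∧
    C ((X : k[X]) ^ (m * N)) ∣ f.map (E m) - PP s

theorem St_of_comp {N : ℕ} {f : k[X][X]} (b : k[X]) (h : St N (f.comp (X - C b))) : St N f := by
  obtain ⟨m, s, hm, hs, hd⟩ := h
  have h1 : (f.comp (X - C b)).natDegree = f.natDegree := by
    rw [natDegree_comp, natDegree_X_sub_C, mul_one]
  refine ⟨m, s.map fun p => p - E m b, hm, ?_, ?_⟩
  · rw [Multiset.card_map, hs, h1]
  · have h2 := cg_comp hd (X + C (E m b))
    rw [PP_comp] at h2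
    have h3 : ((f.comp (X - C b)).map (E m)).comp (X + C (E m b)) = f.map (E m) := by
      rw [Polynomial.map_comp, comp_assoc]
      simp
    rwa [h3] at h2

theorem St_split [IsAlgClosed k] [CharZero k] {N : ℕ} {f : k[X][X]} (hf : f.Monic)
    (hD : 1 ≤ f.natDegree) (h0 : f.coeff (f.natDegree - 1) = 0)
    (ih : ∀ g : k[X][X], g.Monic → g.natDegree < f.natDegree → ∀ N, St N g) : St N f := by
  rcases pui_slope f hf hD h0 with h | ⟨v, u, g, hv, hg, hgd, hfg, hg0, hg1⟩
  · refine ⟨1, Multiset.replicate f.natDegree 0, one_pos, Multiset.card_replicate _ _, ?_⟩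
    have h1 : PP (Multiset.replicate f.natDegree (0 : k[X])) = X ^ f.natDegree := by
      simp [PP]
    rw [h1]
    have h2 : f.map (E 1) = X ^ f.natDegree := by
      conv_lhs => rw [h]
      simp
    rw [h2, sub_self]
    exact dvd_zero _
  · have hgm : (g.map (evalRingHom (0 : k))).natDegree = f.natDegree := by
      rw [hg.natDegree_map, hgd]
    obtain ⟨h₁, h₂, m1, m2, hcop, hprod, d1, d2⟩ := pui_split (g.map (evalRingHom (0 : k)))
      (hg.map _) (by rw [hgm]; exact hD) (by rw [hgm]; exact hg0) (by rw [hgm]; exact hg1)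
    have hdd : h₁.natDegree + h₂.natDegree = f.natDegree := by
      rw [← m1.natDegree_mul m2, ← hprod, hgm]
    obtain ⟨G, H, hG, hH, dG, dH, hGH⟩ := hens g hg h₁ h₂ m1 m2 hcop hprod (v * N)
    rw [← C_dvd_iff_dvd_coeff] at hGH
    obtain ⟨n₁, s₁, hn₁, hs₁, hd₁⟩ := ih G hG (by omega) (v * N)
    obtain ⟨n₂, s₂, hn₂, hs₂, hd₂⟩ := ih H hH (by omega) (v * N)
    have c1 : C ((X : k[X]) ^ ((n₁ * n₂) * (v * N))) ∣ G.map (E (n₁ * n₂)) - PP (s₁.map (E n₂)) := by
      have h := cg_map n₂ hd₁
      rw [PP_map, Polynomial.map_map, E_comp] at h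
      rwa [show n₂ * (n₁ * (v * N)) = n₁ * n₂ * (v * N) by ring, mul_comm n₂ n₁] at h
    have c2 : C ((X : k[X]) ^ ((n₁ * n₂) * (v * N))) ∣ H.map (E (n₁ * n₂)) - PP (s₂.map (E n₁)) := by
      have h := cg_map n₁ hd₂
      rw [PP_map, Polynomial.map_map, E_comp] at h
      rwa [show n₁ * (n₂ * (v * N)) = n₁ * n₂ * (v * N) by ring] at h
    have c3 := cg_map (n₁ * n₂) hGH
    have c4 := cg_mul c1 c2
    rw [← Polynomial.map_mul, ← PP_add] at c4
    have c5 : C ((X : k[X]) ^ ((n₁ * n₂) * (v * N))) ∣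
        g.map (E (n₁ * n₂)) - PP (s₁.map (E n₂) + s₂.map (E n₁)) := by
      have h := dvd_add c3 c4
      rwa [sub_add_sub_cancel] at h
    have hcard : Multiset.card (s₁.map (E n₂) + s₂.map (E n₁)) = f.natDegree := by
      rw [Multiset.card_add, Multiset.card_map, Multiset.card_map, hs₁, hs₂, dG, dH, hdd]
    have c6 := cg_scale c5 (by
      rw [PP_natDegree, hcard, hg.natDegree_map, hgd]) (X ^ (n₁ * n₂ * u))
    rw [PP_scale] at c6
    refine ⟨v * (n₁ * n₂), (s₁.map (E n₂) + s₂.map (E n₁)).map fun p => X ^ (n₁ * n₂ * u) * p,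
      Nat.mul_pos hv (Nat.mul_pos hn₁ hn₂), ?_, ?_⟩
    · rw [Multiset.card_map, hcard]
    · have e1 : f.map (E (v * (n₁ * n₂))) = (g.map (E (n₁ * n₂))).scaleRoots (X ^ (n₁ * n₂ * u)) := by
        have e2 : f.map (E v) = g.scaleRoots (X ^ u) := hfg
        have e3 : f.map (E (v * (n₁ * n₂))) = (f.map (E v)).map (E (n₁ * n₂)) := by
          rw [Polynomial.map_map, E_comp, mul_comm]
        rw [e3, e2, map_scaleRoots, E_X_pow]
        rw [hg.leadingCoeff, map_one]
        exact one_ne_zero
      rw [e1, show v * (n₁ * n₂) * N = (n₁ * n₂) * (v * N) by ring]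
      exact c6

theorem St_all [IsAlgClosed k] [CharZero k] : ∀ (D : ℕ) (f : k[X][X]), f.Monic →
    f.natDegree = D → ∀ N, St N f := by
  intro D
  induction D using Nat.strong_induction_on with
  | _ D ih =>
    intro f hf hfD N
    rcases Nat.eq_zero_or_pos D with hD | hD
    · have h1 : f = 1 := by
        rw [← hf.natDegree_eq_zero, hfD, hD]
      subst h1
      refine ⟨1, 0, one_pos, by simp, ?_⟩
      simp [PP]
    · -- Tschirnhaus
      let b : k[X] := C ((D : k)⁻¹) * f.coeff (D - 1)
      apply St_of_comp b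
      have hm : (f.comp (X - C b)).Monic := hf.comp_X_sub_C b
      have hdeg : (f.comp (X - C b)).natDegree = D := by
        rw [natDegree_comp, natDegree_X_sub_C, mul_one, hfD]
      apply St_split hm (by omega)
      · rw [hdeg]
        have h1 : f.comp (X - C b) = taylor (-b) f := by
          rw [taylor_apply, C_neg, sub_eq_add_neg]
        rw [h1, taylor_coeff]
        have h2 : (hasseDeriv (D - 1) f).natDegree < 2 := by
          have := natDegree_hasseDeriv_le f (D - 1)
          omega
        rw [eval_eq_sum_range' h2, Finset.sum_range_succ, Finset.sum_range_one,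
          hasseDeriv_coeff, hasseDeriv_coeff]
        have h3 : 1 + (D - 1) = D := by omega
        have h4 : f.coeff D = 1 := by
          rw [← hfD]
          exact hf
        rw [zero_add, h3, h4, Nat.choose_self, Nat.choose_symm_of_eq_add (by omega : D = (D - 1) + 1),
          Nat.choose_one_right]
        simp only [b, Nat.cast_one, one_mul, pow_zero, mul_one, pow_one]
        have h5 : (D : k) ≠ 0 := by
          rw [Nat.cast_ne_zero]
          omega
        have h6 : (D : k[X]) = C (D : k) := by simp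
        rw [h6]
        have h7 : C (D : k) * -(C ((D : k)⁻¹) * f.coeff (D - 1)) = - f.coeff (D - 1) := by
          rw [mul_neg, ← mul_assoc, ← C_mul, mul_inv_cancel₀ h5, C_1, one_mul]
        rw [h7, add_neg_cancel]
      · intro g hg hgd N'
        rw [hdeg] at hgd
        exact ih _ hgd g hg rfl N'

end PuiC

theorem puiseux {k : Type*} [Field k] [IsAlgClosed k] [CharZero k] (N : ℕ) (f : k[X][X])
    (hf : f.Monic) :
    ∃ (m : ℕ) (s : Multiset k[X]), 0 < m ∧ Multiset.card s = f.natDegree ∧
      ∀ j, (X : k[X]) ^ (m * N) ∣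
        (f.map ((expand k m : k[X] →ₐ[k] k[X]) : k[X] →+* k[X]) -
          (s.map fun p => (X - C p : k[X][X])).prod).coeff j := by
  obtain ⟨m, s, hm, hs, hd⟩ := PuiC.St_all f.natDegree f hf rfl N
  refine ⟨m, s, hm, hs, ?_⟩
  rw [C_dvd_iff_dvd_coeff] at hd
  exact hd

end Pool.Agent.FPO
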