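import Pool.Agent.FPO.PuiC

/-!
# FPO module PuiE: Puiseux expansions at infinity, algebraic part (diff 2)

Notation: `B = F.leadingCoeff`, `β = B.natDegree`, `D = F.natDegree`,
`atInf F E = ∑_{j ≤ D} C (reflect (β + E (D - j)) (F.coeff j)) X^j` (see Defs), `u = B.reverse`
(`= reflect β B`), and `E_m` = the coefficientwise map `expand k m`.

PROOF.  `u.coeff 0 = B.leadingCoeff ≠ 0` (`coeff_zero_reverse`), so `IsCoprime u (X^N)`; pick `u'`
with `X^N ∣ u * u' - 1`.  Let `f̃ := X^D + ∑_{j < D} C (u' * (atInf F E).coeff j) X^j`, monic of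
degree `D`.  The coefficients of `atInf F E - C u * f̃` are: `j = D`:
`reflect β B - u = 0`; `j < D`: `â_j - u u' â_j = -(u u' - 1) â_j`, divisible by `X^N`; `j > D`: `0`.
Apply `puiseux` to `f̃` and `N`: `X^{mN} ∣ (f̃.map E_m - ∏ (X - C p)).coeff j`.
Then `(atInf F E).map E_m - C (expand k m u) * ∏ =
(atInf F E - C u * f̃).map E_m + C (expand k m u) * (f̃.map E_m - ∏)`, and all coefficients of both
terms are divisible by `X^{mN}` (`expand k m (X^N * c) = X^{mN} * expand k m c`).
(The hypothesis `hE` is not needed for this module, it is used later.)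
-/

set_option autoImplicit false

open Polynomial

namespace Pool.Agent.FPO

theorem pui_inf {k : Type*} [Field k] [IsAlgClosed k] [CharZero k] (F : k[X][X]) (hF : F ≠ 0)
    (E N : ℕ) :
    ∃ (m : ℕ) (s : Multiset k[X]), 0 < m ∧ Multiset.card s = F.natDegree ∧
      ∀ j, (X : k[X]) ^ (m * N) ∣
        ((atInf F E).map ((expand k m : k[X] →ₐ[k] k[X]) : k[X] →+* k[X]) -
          C (expand k m F.leadingCoeff.reverse) *
            (s.map fun p => (X - C p : k[X][X])).prod).coeff j := by
  set B : k[X] := F.leadingCoeff with hB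
  set D : ℕ := F.natDegree with hD
  set u : k[X] := B.reverse with hu
  set A : k[X][X] := atInf F E with hA
  have hB0 : B ≠ 0 := leadingCoeff_ne_zero.2 hF
  have hu0 : u.coeff 0 ≠ 0 := by
    rw [hu, coeff_zero_reverse]
    exact leadingCoeff_ne_zero.2 hB0
  have hcop : IsCoprime ((X : k[X]) ^ N) u := by
    apply IsCoprime.pow_left
    rw [irreducible_X.coprime_iff_not_dvd, X_dvd_iff]
    exact hu0
  obtain ⟨x, u', hxu⟩ := hcop
  have hAc : ∀ j, A.coeff j = if j ≤ D then reflect (B.natDegree + E * (D - j)) (F.coeff j) else 0 := by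
    intro j
    rw [hA, atInf, finsetSum_coeff]
    simp only [coeff_C_mul_X_pow]
    rw [Finset.sum_ite_eq]
    simp only [Finset.mem_range, Nat.lt_succ_iff]
    rfl
  set P : k[X][X] := ∑ j ∈ Finset.range D, C (u' * A.coeff j) * X ^ j with hP
  have hPc : ∀ j, P.coeff j = if j < D then u' * A.coeff j else 0 := by
    intro j
    rw [hP, finsetSum_coeff]
    simp only [coeff_C_mul_X_pow]
    rw [Finset.sum_ite_eq]
    simp only [Finset.mem_range]
  have hPd : P.degree < (D : WithBot ℕ) := by
    rw [degree_lt_iff_coeff_zero]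
    intro m hm
    rw [hPc, if_neg (by omega)]
  obtain ⟨m, s, hm, hs, hdvd⟩ := puiseux N (X ^ D + P) (monic_X_pow_add hPd)
  have hnd : ((X : k[X][X]) ^ D + P).natDegree = D := by
    apply natDegree_eq_of_degree_eq_some
    rw [degree_add_eq_left_of_degree_lt (by rw [degree_X_pow]; exact hPd), degree_X_pow]
  rw [hnd] at hs
  refine ⟨m, s, hm, hs, ?_⟩
  have h1 : C ((X : k[X]) ^ N) ∣ A - C u * (X ^ D + P) := by
    rw [C_dvd_iff_dvd_coeff]
    intro j
    rw [coeff_sub, coeff_C_mul, coeff_add, coeff_X_pow, hPc]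
    rcases lt_trichotomy j D with h | h | h
    · rw [if_neg (by omega), if_pos h, zero_add]
      refine ⟨x * A.coeff j, ?_⟩
      have : A.coeff j - u * (u' * A.coeff j) = (x * X ^ N + u' * u - u' * u) * A.coeff j := by
        rw [hxu]; ring
      rw [this]
      ring
    · subst h
      rw [if_pos rfl, if_neg (by omega), hAc, if_pos le_rfl]
      have h2 : reflect (B.natDegree + E * (D - D)) (F.coeff D) = u := by
        rw [Nat.sub_self, Nat.mul_zero, Nat.add_zero]
        rfl
      rw [h2]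
      simp
    · rw [if_neg (by omega), if_neg (by omega), hAc, if_neg (by omega)]
      simp
  have h2 : C ((X : k[X]) ^ (m * N)) ∣ (X ^ D + P).map
      ((expand k m : k[X] →ₐ[k] k[X]) : k[X] →+* k[X]) -
      (s.map fun p => (X - C p : k[X][X])).prod := by
    rw [C_dvd_iff_dvd_coeff]
    exact hdvd
  rw [← C_dvd_iff_dvd_coeff]
  obtain ⟨R, hR⟩ := h1
  have h3 : C ((X : k[X]) ^ (m * N)) ∣
      (A - C u * (X ^ D + P)).map ((expand k m : k[X] →ₐ[k] k[X]) : k[X] →+* k[X]) := by
    rw [hR, Polynomial.map_mul, map_C]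
    have h4 : ((expand k m : k[X] →ₐ[k] k[X]) : k[X] →+* k[X]) (X ^ N) = X ^ (m * N) := by
      change expand k m (X ^ N) = X ^ (m * N)
      rw [map_pow, expand_X, pow_mul]
    rw [h4]
    exact dvd_mul_right _ _
  have h5 : A.map ((expand k m : k[X] →ₐ[k] k[X]) : k[X] →+* k[X]) - C (expand k m u) *
      (s.map fun p => (X - C p : k[X][X])).prod =
      (A - C u * (X ^ D + P)).map ((expand k m : k[X] →ₐ[k] k[X]) : k[X] →+* k[X]) +
      C (expand k m u) * ((X ^ D + P).map ((expand k m : k[X] →ₐ[k] k[X]) : k[X] →+* k[X]) -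
      (s.map fun p => (X - C p : k[X][X])).prod) := by
    have h6 : (C u * (X ^ D + P)).map ((expand k m : k[X] →ₐ[k] k[X]) : k[X] →+* k[X]) =
        C (expand k m u) *
          (X ^ D + P).map ((expand k m : k[X] →ₐ[k] k[X]) : k[X] →+* k[X]) := by
      rw [Polynomial.map_mul, map_C]
      rfl
    rw [Polynomial.map_sub, h6]
    ring
  rw [h5]
  exact dvd_add h3 (h2.mul_left _)

end Pool.Agent.FPO
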