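import Pool.Agent.FPO.PuiE

/-!
# FPO module PuiF: the Puiseux identity at infinity over `ℂ` (diff 3)

PROOF.  Let `k = AlgebraicClosure ℚ`, `ι : k →+* ℂ` an embedding
(`(IsAlgClosed.lift : AlgebraicClosure ℚ →ₐ[ℚ] ℂ)`), `E = xdeg F`, `D = F.natDegree`,
`β = F.leadingCoeff.natDegree`, `F_k := F.map (mapRingHom (algebraMap ℚ k)) : k[X][X]`
(same degree in `y`, leading coefficient the image of `F.leadingCoeff`, same `natDegree`s:
`natDegree_map`).  Apply `pui_inf` to `F_k, E, N`: we get `m` and a multiset `s` of cardinality `D`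
(make it a function `p : Fin D → k[X]`, e.g. through `Multiset.toList`/`List.ofFn`), and
polynomials `r_j` with `(…).coeff j = X^(m*N) * r_j`, `r_j = 0` for `j > D` (both terms have degree
`≤ D`).  Put `q i := (p i).map ι` and `R := ∑ j ∈ range (D+1), C (r_j.map ι) * X^j`.
The coefficients of `q i` are algebraic: `ι a` is algebraic over `ℚ` (`Algebra.IsAlgebraic`,
`IsAlgebraic.algHom` / `isAlgebraic_algHom_iff`).
Evaluate the polynomial identity (mapped by `ι`) at `t` and `ζ = (t^m)^E * y`.  Put `z = t^m ≠ 0`.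
* `(reflect n A).eval z = z^n * A.eval z⁻¹` for `A.natDegree ≤ n`
  (`Polynomial.eval₂_reflect_mul_pow` or `reverse`-type lemmas; or directly from
  `A = ∑ a_i X^i`, `reflect n A = ∑ a_i X^(n-i)`); here `n = β + E (D - j)` and
  `(F.coeff j).natDegree ≤ n` (`j = D`: equality `β`; `j < D`: `≤ E = xdeg F ≤ E (D-j)`;
  `natDegree_coeff_le`).
* hence `(atInf F_k E)(z, z^E y) = ∑_j z^{β+E(D-j)} A_j(1/z) (z^E y)^j = z^{β+ED} F(1/z, y)`.
* `u(z) = B.reverse(z) = z^β B(1/z)` and `∏ (z^E y - p_i(t)) = z^{ED} ∏ (y - (z⁻¹)^E p_i(t))`.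
* evaluating `expand k m c` at `t` is evaluating `c` at `t^m`.
-/

set_option autoImplicit false

open Polynomial

namespace Pool.Agent.FPO

namespace PuiF

theorem exists_fun {α : Type*} (n : ℕ) (s : Multiset α) (hs : Multiset.card s = n) :
    ∃ p : Fin n → α, ∀ {M : Type} [CommMonoid M] (f : α → M), (s.map f).prod = ∏ i, f (p i) := by
  subst hs
  induction s using Quotient.inductionOn with
  | _ l =>
    refine ⟨fun i => l[i.1], fun {M} _ f => ?_⟩
    have h := Fin.prod_univ_fun_getElem l f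
    change ((l : Multiset α).map f).prod = _
    rw [Multiset.map_coe, Multiset.prod_coe, ← h]
    rfl

section

variable {k : Type} [Field k] (ι : k →+* ℂ)

theorem reflect_eval (n : ℕ) (A : k[X]) (hA : A.natDegree ≤ n) (z : ℂ) (hz : z ≠ 0) :
    eval₂ ι z (reflect n A) = z ^ n * eval₂ ι z⁻¹ A := by
  have : Invertible z⁻¹ := invertibleOfNonzero (inv_ne_zero hz)
  have h := eval₂_reflect_mul_pow ι z⁻¹ n A hA
  have h1 : ⅟(z⁻¹) = z := by
    rw [invOf_eq_inv, inv_inv]
  rw [h1] at h
  rw [← h]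
  have h2 : z ^ n * (z⁻¹) ^ n = 1 := by rw [← mul_pow, mul_inv_cancel₀ hz, one_pow]
  calc eval₂ ι z (reflect n A) = (z ^ n * (z⁻¹) ^ n) * eval₂ ι z (reflect n A) := by
        rw [h2, one_mul]
    _ = _ := by ring

theorem expand_eval₂ (m : ℕ) (A : k[X]) (t : ℂ) :
    eval₂ ι t (expand k m A) = eval₂ ι (t ^ m) A := by
  rw [← eval_map, map_expand, expand_eval, eval_map]

end

end PuiF

theorem PuiF.aux {k : Type} [Field k] [IsAlgClosed k] [CharZero k] [Algebra ℚ k]
    [Algebra.IsAlgebraic ℚ k] (ιa : k →ₐ[ℚ] ℂ) (F : Bi) (hF : F ≠ 0) (N : ℕ) :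
    ∃ (m : ℕ) (q : Fin F.natDegree → ℂ[X]) (R : ℂ[X][X]), 0 < m ∧
      (∀ i j, IsAlgebraic ℚ ((q i).coeff j)) ∧ R.natDegree ≤ F.natDegree ∧
      ∀ t : ℂ, t ≠ 0 → ∀ y : ℂ,
        (t ^ m) ^ (F.leadingCoeff.natDegree + xdeg F * F.natDegree) * bv F (t ^ m)⁻¹ y =
          (t ^ m) ^ (F.leadingCoeff.natDegree + xdeg F * F.natDegree) *
              aeval (t ^ m)⁻¹ F.leadingCoeff *
              ∏ i, (y - ((t ^ m)⁻¹) ^ (xdeg F) * (q i).eval t) +
            (t ^ m) ^ N * R.eval₂ (evalRingHom t) ((t ^ m) ^ (xdeg F) * y) := by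
  classical
  let ι : k →+* ℂ := ιa
  have hinj : Function.Injective (mapRingHom (algebraMap ℚ k)) :=
    map_injective _ (algebraMap ℚ k).injective
  obtain ⟨Fk, hFk⟩ : ∃ Fk : k[X][X], Fk = F.map (mapRingHom (algebraMap ℚ k)) := ⟨_, rfl⟩
  have hD : Fk.natDegree = F.natDegree := by
    rw [hFk, natDegree_map_eq_of_injective hinj]
  have hL : Fk.leadingCoeff = F.leadingCoeff.map (algebraMap ℚ k) := by
    rw [hFk, leadingCoeff_map_of_injective hinj]
    rfl
  have hβ : Fk.leadingCoeff.natDegree = F.leadingCoeff.natDegree := by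
    rw [hL, natDegree_map]
  have hFk0 : Fk ≠ 0 := by
    rw [hFk]
    exact (Polynomial.map_ne_zero_iff hinj).2 hF
  have hco : ∀ j, Fk.coeff j = (F.coeff j).map (algebraMap ℚ k) := by
    intro j
    rw [hFk, coeff_map]
    rfl
  obtain ⟨m, s, hm, hcard, hdiv⟩ := pui_inf Fk hFk0 (xdeg F) N
  rw [hD] at hcard
  obtain ⟨p, hp⟩ := PuiF.exists_fun F.natDegree s hcard
  rw [hp] at hdiv
  choose r hr using hdiv
  -- the remainder
  obtain ⟨G, hG⟩ : ∃ G : k[X][X], G = (atInf Fk (xdeg F)).map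
      ((expand k m : k[X] →ₐ[k] k[X]) : k[X] →+* k[X]) -
          C (expand k m Fk.leadingCoeff.reverse) * ∏ i, (X - C (p i) : k[X][X]) := ⟨_, rfl⟩
  have hGd : G.natDegree ≤ F.natDegree := by
    rw [hG]
    refine (natDegree_sub_le _ _).trans (max_le ?_ ?_)
    · refine natDegree_map_le.trans ?_
      rw [atInf]
      refine natDegree_sum_le_of_forall_le _ _ ?_
      intro j hj
      refine (natDegree_C_mul_X_pow_le _ _).trans ?_
      rw [hD] at hj
      exact Nat.lt_succ_iff.1 (Finset.mem_range.1 hj)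
    · refine (natDegree_C_mul_le _ _).trans ?_
      rw [natDegree_prod_of_monic _ _ (fun i _ => monic_X_sub_C _)]
      simp
  have hGr : G = C ((X : k[X]) ^ (m * N)) *
      ∑ j ∈ Finset.range (F.natDegree + 1), C (r j) * X ^ j := by
    rw [as_sum_range_C_mul_X_pow' G (Nat.lt_succ_of_le hGd), Finset.mul_sum]
    refine Finset.sum_congr rfl fun j _ => ?_
    have h1 : G.coeff j = X ^ (m * N) * r j := by rw [hG]; exact hr j
    rw [h1, C_mul, mul_assoc]
  refine ⟨m, fun i => (p i).map ι, (∑ j ∈ Finset.range (F.natDegree + 1), C (r j) * X ^ j).map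
    (mapRingHom ι), hm, ?_, ?_, ?_⟩
  · intro i j
    rw [coeff_map]
    exact (Algebra.IsAlgebraic.isAlgebraic ((p i).coeff j)).algHom ιa
  · refine natDegree_map_le.trans ?_
    refine natDegree_sum_le_of_forall_le _ _ ?_
    intro j hj
    refine (natDegree_C_mul_X_pow_le _ _).trans ?_
    exact Nat.lt_succ_iff.1 (Finset.mem_range.1 hj)
  · intro t ht y
    have hz : t ^ m ≠ 0 := pow_ne_zero m ht
    obtain ⟨z, hzdef⟩ : ∃ z, z = t ^ m := ⟨_, rfl⟩
    rw [← hzdef] at hz ⊢
    -- evaluation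
    have hae : ∀ A : ℚ[X], eval₂ ι z⁻¹ (A.map (algebraMap ℚ k)) = aeval z⁻¹ A := by
      intro A
      rw [eval₂_map, aeval_def]
      congr 1
      exact Subsingleton.elim _ _
    have hφ : (evalRingHom t).comp (mapRingHom ι) = eval₂RingHom ι t := by
      ext a
      · simp
      · simp
    have e1 : eval₂ (eval₂RingHom ι t) (z ^ xdeg F * y) G =
        z ^ (F.leadingCoeff.natDegree + xdeg F * F.natDegree) * bv F z⁻¹ y -
        z ^ (F.leadingCoeff.natDegree + xdeg F * F.natDegree) * aeval z⁻¹ F.leadingCoeff *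
              ∏ i, (y - (z⁻¹) ^ (xdeg F) * ((p i).map ι).eval t) := by
      rw [hG, eval₂_sub, eval₂_mul, eval₂_C, eval₂_map, eval₂_finsetProd]
      congr 1
      · rw [atInf, eval₂_finsetSum, bv_eq_sum_y, Finset.mul_sum, hD]
        refine Finset.sum_congr rfl fun j hj => ?_
        have hj' : j ≤ F.natDegree := Nat.lt_succ_iff.1 (Finset.mem_range.1 hj)
        rw [eval₂_mul, eval₂_C, eval₂_X_pow, RingHom.comp_apply]
        have h1 : (eval₂RingHom ι t) (((expand k m : k[X] →ₐ[k] k[X]) : k[X] →+* k[X])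
            (reflect (Fk.leadingCoeff.natDegree + xdeg F * (F.natDegree - j)) (Fk.coeff j))) =
            z ^ (F.leadingCoeff.natDegree + xdeg F * (F.natDegree - j)) *
              aeval z⁻¹ (F.coeff j) := by
          rw [coe_eval₂RingHom]
          change eval₂ ι t (expand k m _) = _
          rw [PuiF.expand_eval₂, ← hzdef, PuiF.reflect_eval, hβ, hco, hae]
          · rw [hco, natDegree_map, hβ]
            rcases Nat.lt_or_ge j F.natDegree with hlt | hge
            · have h2 : 1 ≤ F.natDegree - j := by omega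
              calc (F.coeff j).natDegree ≤ xdeg F := natDegree_coeff_le F j
                _ = xdeg F * 1 := (mul_one _).symm
                _ ≤ xdeg F * (F.natDegree - j) := Nat.mul_le_mul_left _ h2
                _ ≤ _ := Nat.le_add_left _ _
            · have h2 : j = F.natDegree := le_antisymm hj' hge
              rw [h2]
              exact Nat.le_add_right _ _
          · exact hz
        rw [h1, mul_pow, ← pow_mul]
        have h3 : z ^ (F.leadingCoeff.natDegree + xdeg F * F.natDegree) =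
            z ^ (F.leadingCoeff.natDegree + xdeg F * (F.natDegree - j)) * z ^ (xdeg F * j) := by
          rw [← pow_add]
          congr 1
          have : xdeg F * F.natDegree = xdeg F * (F.natDegree - j) + xdeg F * j := by
            rw [← Nat.mul_add, Nat.sub_add_cancel hj']
          rw [this, add_assoc]
        rw [h3]
        ring
      · have h1 : (eval₂RingHom ι t) (expand k m Fk.leadingCoeff.reverse) =
            z ^ F.leadingCoeff.natDegree * aeval z⁻¹ F.leadingCoeff := by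
          rw [coe_eval₂RingHom, PuiF.expand_eval₂, ← hzdef, reverse, PuiF.reflect_eval _ _ _ le_rfl _ hz,
            hβ, hL, hae]
        have h2 : ∀ i, eval₂ (eval₂RingHom ι t) (z ^ xdeg F * y) (X - C (p i) : k[X][X]) =
            z ^ xdeg F * (y - (z⁻¹) ^ (xdeg F) * ((p i).map ι).eval t) := by
          intro i
          rw [eval₂_sub, eval₂_X, eval₂_C, coe_eval₂RingHom, eval_map]
          have h3 : z ^ xdeg F * (z⁻¹) ^ xdeg F = 1 := by
            rw [← mul_pow, mul_inv_cancel₀ hz, one_pow]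
          linear_combination (eval₂ ι t (p i)) * h3
        rw [h1, Finset.prod_congr rfl (fun i _ => h2 i), Finset.prod_mul_distrib, Finset.prod_const,
          Finset.card_univ, Fintype.card_fin, pow_add, pow_mul]
        ring
    have e2 : eval₂ (eval₂RingHom ι t) (z ^ xdeg F * y) G =
        z ^ N * eval₂ (evalRingHom t) (z ^ xdeg F * y)
          ((∑ j ∈ Finset.range (F.natDegree + 1), C (r j) * X ^ j).map (mapRingHom ι)) := by
      rw [eval₂_map, hφ, hGr, eval₂_mul, eval₂_C]
      congr 1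
      rw [coe_eval₂RingHom, eval₂_X_pow, hzdef, pow_mul]
    rw [e1] at e2
    linear_combination e2

theorem pui_ident (F : Bi) (hF : F ≠ 0) (N : ℕ) :
    ∃ (m : ℕ) (q : Fin F.natDegree → ℂ[X]) (R : ℂ[X][X]), 0 < m ∧
      (∀ i j, IsAlgebraic ℚ ((q i).coeff j)) ∧ R.natDegree ≤ F.natDegree ∧
      ∀ t : ℂ, t ≠ 0 → ∀ y : ℂ,
        (t ^ m) ^ (F.leadingCoeff.natDegree + xdeg F * F.natDegree) * bv F (t ^ m)⁻¹ y =
          (t ^ m) ^ (F.leadingCoeff.natDegree + xdeg F * F.natDegree) *
              aeval (t ^ m)⁻¹ F.leadingCoeff *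
              ∏ i, (y - ((t ^ m)⁻¹) ^ (xdeg F) * (q i).eval t) +
            (t ^ m) ^ N * R.eval₂ (evalRingHom t) ((t ^ m) ^ (xdeg F) * y) := by
  have h : Algebra.IsAlgebraic ℚ (AlgebraicClosure ℚ) := ⟨fun x => by
    obtain ⟨p, hp, hx⟩ := (AlgebraicClosure.isAlgebraic ℚ).isAlgebraic x
    refine ⟨p, hp, ?_⟩
    rw [aeval_def] at hx ⊢
    rw [← hx]
    congr 1⟩
  exact PuiF.aux (k := AlgebraicClosure ℚ) IsAlgClosed.lift F hF N

end Pool.Agent.FPO
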