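import Pool.Agent.FPO.StC

/-!
# FPO module StB: Claim B from Claim A
-/

set_option autoImplicit false

open Polynomial

namespace Pool.Agent.FPO

/-- Smallness of the region `|y| ≤ ε x` from Claim A in the two swapped charts. -/
theorem swapped_small {S : Set (ℤ × ℤ)} {F₀ ℓ : MvPolynomial (Fin 2) ℚ} (M : ℕ)
    (hA : CA S F₀ ℓ M) {k : ℕ} (hk : 1 ≤ k) {X₀ Y₀ : MvPolynomial (Fin 2) ℚ} {F : Bi}
    (hch : Chart S F₀ X₀ Y₀ F) (hL : Lfp ℓ Y₀) (hX1 : 1 ≤ X₀.totalDegree)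
    (hdeg : k * X₀.totalDegree ≤ Y₀.totalDegree) {ε₀ x₀ : ℝ} (hε₀ : 0 < ε₀)
    (hfull : Full S X₀ Y₀ (Γ₂ k ε₀ x₀)) {w : ℕ} (hw3 : 3 ≤ w) (hw : HasWt 1 (w : ℚ) F) {wk : ℚ}
    (hwk : HasWt (k : ℚ) wk F) (hM : (ini (k : ℚ) wk F).natTrailingDegree ≤ M) :
    ∃ ε : ℝ, 0 < ε ∧
      SmlS F₀ {u | u ∈ S ∧ |((evz Y₀ u : ℚ) : ℝ)| ≤ ε * ((evz X₀ u : ℚ) : ℝ)} := by
  have hXY : X₀.totalDegree ≤ Y₀.totalDegree := le_trans (Nat.le_mul_of_pos_left _ hk) hdeg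
  have main : ∀ s : ℚ, (s = 1 ∨ s = -1) → ∃ ε : ℝ, 0 < ε ∧
      SmlS F₀ {u | u ∈ S ∧ pt (MvPolynomial.C s * Y₀) X₀ u ∈ Γ₁ ε} := by
    intro s hs
    obtain ⟨h1, h2⟩ := swp_lfp (ℓ := ℓ) (P := Y₀) s hs
    obtain ⟨ε', hε', hf⟩ := swp_full s hs k hk ε₀ x₀ hε₀ hfull
    obtain ⟨h3, h4⟩ := swp_hasWt F s hs w hw
    refine hA _ _ _ (swp_chart hch s hs) (h2 hL) (by rw [h1]; exact hXY)
      (by rw [h1]; exact le_trans hX1 hXY) ⟨ε', hε', hf⟩ w hw3 h3 ?_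
    have h5 := mulB' F k hk w wk hw hwk
    omega
  obtain ⟨ε₁, hε₁, hS₁⟩ := main 1 (Or.inl rfl)
  obtain ⟨ε₂, hε₂, hS₂⟩ := main (-1) (Or.inr rfl)
  have hY := hch.Y_ne_zero
  have hZ : SmlS F₀ {u | u ∈ S ∧ evz Y₀ u = 0} := SmlS.of_zero hY fun u hu => hu.2
  refine ⟨min ε₁ ε₂, lt_min hε₁ hε₂, ((hS₁.union hS₂).union hZ).mono ?_⟩
  rintro u ⟨hu, hu2⟩
  have hmin : 0 < min ε₁ ε₂ := lt_min hε₁ hε₂
  have hx0 : 0 ≤ ((evz X₀ u : ℚ) : ℝ) := by
    have := le_trans (abs_nonneg _) hu2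
    exact nonneg_of_mul_nonneg_right this hmin
  rcases lt_trichotomy (evz Y₀ u) 0 with h | h | h
  · refine Or.inl (Or.inr ⟨hu, ?_, ?_⟩)
    · have h1 : evz (MvPolynomial.C (-1) * Y₀) u = -evz Y₀ u := by simp [evz]
      simp only [pt, h1]
      have : (0 : ℚ) < -evz Y₀ u := by linarith
      exact_mod_cast this
    · have h1 : evz (MvPolynomial.C (-1) * Y₀) u = -evz Y₀ u := by simp [evz]
      simp only [pt, h1]
      push_cast
      have h3 : ((evz Y₀ u : ℚ) : ℝ) < 0 := by exact_mod_cast h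
      rw [abs_of_neg h3] at hu2
      exact hu2.trans (mul_le_mul_of_nonneg_right (min_le_right _ _) hx0)
  · exact Or.inr ⟨hu, h⟩
  · refine Or.inl (Or.inl ⟨hu, ?_, ?_⟩)
    · have h1 : evz (MvPolynomial.C 1 * Y₀) u = evz Y₀ u := by simp [evz]
      simp only [pt, h1]
      exact_mod_cast h
    · have h1 : evz (MvPolynomial.C 1 * Y₀) u = evz Y₀ u := by simp [evz]
      simp only [pt, h1]
      have h3 : 0 < ((evz Y₀ u : ℚ) : ℝ) := by exact_mod_cast h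
      rw [abs_of_pos h3] at hu2
      exact hu2.trans (mul_le_mul_of_nonneg_right (min_le_left _ _) hx0)

theorem stepB {S : Set (ℤ × ℤ)} {F₀ ℓ : MvPolynomial (Fin 2) ℚ} (hE : Enum S F₀)
    (hNS : NSq F₀ ℓ) (M : ℕ) (hA : CA S F₀ ℓ M) : CB S F₀ ℓ M := by
  classical
  intro k
  induction k using Nat.strong_induction_on with
  | _ k ih =>
  intro hk X₀ Y₀ F hch hL hX1 hdeg hfull hnd hw1 wk hwk hM
  obtain ⟨ε₀, x₀, hε₀, hfull⟩ := hfull
  have hX0 := hch.X_ne_zero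
  have hY0 := hch.Y_ne_zero
  have hF := hwk.ne_zero
  -- total degree at least three
  obtain ⟨w, hw3, hw⟩ : ∃ w : ℕ, 3 ≤ w ∧ HasWt 1 (w : ℚ) F := by
    rcases Nat.lt_or_ge k 2 with h | h
    · exact hw1 (by omega)
    · obtain ⟨w, hw⟩ := exists_nat_hasWt hF
      exact ⟨w, n1_chart hE hch k h ε₀ x₀ hε₀ hfull hnd w hw, hw⟩
  obtain ⟨ε₂, hε₂, hSw⟩ := swapped_small M hA hk hch hL hX1 hdeg hε₀ hfull hw3 hw hwk hM
  rcases Nat.lt_or_ge k 2 with hk2 | hk2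
  · obtain rfl : k = 1 := by omega
    refine ⟨ε₂, 0, hε₂, hSw.mono ?_⟩
    rintro u ⟨hu, -, h2⟩
    refine ⟨hu, ?_⟩
    simp only [pt, pow_one] at h2
    exact h2
  obtain ⟨K₀, hK₀⟩ := pui F hF
  obtain ⟨p, hp⟩ := hK₀ (max K₀ (xdeg F + 2)) (le_max_left _ _)
  set K := max K₀ (xdeg F + 2) with hKdef
  have hK : xdeg F + 2 ≤ K := le_max_right _ _
  have hK2 : 2 ≤ K := by omega
  obtain ⟨D, hD, hden⟩ := hch.den
  have key : ∀ i : Fin F.natDegree, ∃ (e x₁ : ℝ) (U : Set (ℤ × ℤ)), 0 < e ∧ SmlS F₀ U ∧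
      ∀ u ∈ S, 1 ≤ ((evz X₀ u : ℚ) : ℝ) → x₁ ≤ ((evz X₀ u : ℚ) : ℝ) →
        ε₂ * ((evz X₀ u : ℚ) : ℝ) ≤ |((evz Y₀ u : ℚ) : ℝ)| →
        |((evz Y₀ u : ℚ) : ℝ)| ≤ e * ((evz X₀ u : ℚ) : ℝ) ^ k →
        u ∈ U ∨ e * ((evz X₀ u : ℚ) : ℝ) ^ ((ldw (p i) : ℚ) : ℝ) ≤
          ‖((((evz Y₀ u : ℚ) : ℝ)) : ℂ) -
            p i (ldw (p i)) * (((((evz X₀ u : ℚ) : ℝ) ^ ((ldw (p i) : ℚ) : ℝ) : ℝ)) : ℂ)‖ := by
    intro i
    have hempty : SmlS F₀ (∅ : Set (ℤ × ℤ)) := SmlS.of_finite Set.finite_empty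
    by_cases him : (p i (ldw (p i))).im = 0
    swap
    · refine ⟨|(p i (ldw (p i))).im|, 1, ∅, abs_pos.2 him, hempty,
        fun u _ h1 _ _ _ => Or.inr ?_⟩
      exact im_le_norm _ _ _ (Real.rpow_nonneg (by linarith) _)
    set c : ℝ := (p i (ldw (p i))).re with hcdef
    by_cases hc0 : c = 0
    · -- coefficient zero, ldw = 1
      have hz : p i (ldw (p i)) = 0 := by
        apply Complex.ext
        · simpa using hc0
        · simpa using him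
      have hone := ldw_eq_one_of_eq_zero hz
      refine ⟨ε₂, 1, ∅, hε₂, hempty, fun u _ h1 _ h2 _ => Or.inr ?_⟩
      rw [norm_sub_real him, ← hcdef, hc0, zero_mul, sub_zero, hone]
      simpa using h2
    rcases le_or_gt (k : ℚ) (ldw (p i)) with hge | hlt
    · -- large exponent
      refine ⟨|c| / 2, 1, ∅, by positivity, hempty, fun u _ h1 _ _ h2 => Or.inr ?_⟩
      rw [norm_sub_real him, ← hcdef]
      set x : ℝ := ((evz X₀ u : ℚ) : ℝ) with hx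
      set y : ℝ := ((evz Y₀ u : ℚ) : ℝ) with hy
      have h3 : x ^ k ≤ x ^ ((ldw (p i) : ℚ) : ℝ) := by
        rw [← Real.rpow_natCast]
        exact Real.rpow_le_rpow_of_exponent_le h1 (by exact_mod_cast hge)
      have h4 : |y| ≤ |c| / 2 * x ^ ((ldw (p i) : ℚ) : ℝ) :=
        h2.trans (mul_le_mul_of_nonneg_left h3 (by positivity))
      have h5 : |c * x ^ ((ldw (p i) : ℚ) : ℝ)| = |c| * x ^ ((ldw (p i) : ℚ) : ℝ) := by
        rw [abs_mul, abs_of_nonneg (Real.rpow_nonneg (by linarith : (0 : ℝ) ≤ x) _)]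
      have h6 := abs_sub_abs_le_abs_sub (c * x ^ ((ldw (p i) : ℚ) : ℝ)) y
      rw [abs_sub_comm] at h6
      rw [h5] at h6
      linarith
    · -- near a real root of smaller exponent
      obtain ⟨wi, hwi⟩ := exists_hasWt (ldw (p i)) hF
      have hroot := root_of_ldw hF hp hK2 i hwi him
      rw [← hcdef] at hroot
      have hX1q : (1 : ℚ) ≤ X₀.totalDegree := by exact_mod_cast hX1
      have hsm : ∃ e x₁ : ℝ, 0 < e ∧
          SmlS F₀ {u | u ∈ S ∧ pt X₀ Y₀ u ∈ Reg (ldw (p i)) c e x₁} := by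
        by_cases hirr : Irreg (ldw (p i)) c
        · refine cac hE hNS hch hX0 hY0 (Or.inr ⟨hL, ?_⟩) (one_le_ldw _) hwi hc0 hirr ?_ hroot ?_
          · have h1 : (k : ℚ) * X₀.totalDegree ≤ Y₀.totalDegree := by exact_mod_cast hdeg
            nlinarith
          · intro h1
            rw [h1] at hwi
            rw [← hw.unique hwi]
            exact_mod_cast hw3
          · obtain ⟨e, x₁, he, hsub⟩ := regB (ldw (p i)) (one_le_ldw _) k hlt c ε₀ x₀ hε₀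
            exact ⟨e, x₁, he, full_mono hfull hsub⟩
        · obtain ⟨k', r₀, hk'1, hk', hr₀⟩ := not_irreg (one_le_ldw (p i)) hirr
          have hk'k : k' < k := by
            have : (k' : ℚ) < k := hk' ▸ hlt
            exact_mod_cast this
          rw [hk'] at hwi
          obtain ⟨h1, h2⟩ := shear_hasWt F r₀ k' wi hwi
          have htd : k' * X₀.totalDegree < Y₀.totalDegree := by nlinarith
          obtain ⟨h3, h4⟩ := shear_td_gt (ℓ := ℓ) r₀ k' htd hL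
          obtain ⟨e, x₁, he, hΓ⟩ := shear_regB k k' hk'1 hk'k r₀ ε₀ x₀ hε₀
          have hmul := mulB F k k' hk'k wk wi hwk hwi r₀
          have hB' := ih k' hk'k hk'1 X₀ (Y₀ - MvPolynomial.C r₀ * X₀ ^ k')
            (shear F r₀ k') (shear_chart hch r₀ k') h4 hX1 (by rw [h3]; exact htd.le)
            ⟨e, x₁, he, shear_full hfull r₀ k' hk'1 hΓ⟩
            (by rw [shear_natDegree]; exact hnd)
            (fun hk1 => by
              subst hk1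
              refine ⟨w, hw3, ?_⟩
              have h5 := (shear_hasWt F r₀ 1 (w : ℚ) (by exact_mod_cast hw)).1
              exact_mod_cast h5)
            wi h1 (by
              rw [h2, ← rootMultiplicity_eq_natTrailingDegree]
              exact hmul.trans hM)
          obtain ⟨e', x₂, he', hS⟩ := hB'
          refine ⟨e', x₂, he', hS.mono ?_⟩
          rintro u ⟨hu, hu2⟩
          refine ⟨hu, (pt_shear_iff r₀ k' e' x₂ u).2 ?_⟩
          rw [hr₀]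
          rwa [← hk']
      obtain ⟨e, x₁, he, hS⟩ := hsm
      refine ⟨e, x₁, _, he, hS, fun u hu h1 h2 _ _ => ?_⟩
      by_cases h4 : |((evz Y₀ u : ℚ) : ℝ) - c * ((evz X₀ u : ℚ) : ℝ) ^ ((ldw (p i) : ℚ) : ℝ)| ≤
          e * ((evz X₀ u : ℚ) : ℝ) ^ ((ldw (p i) : ℚ) : ℝ)
      · exact Or.inl ⟨hu, h2, h4⟩
      · right
        rw [norm_sub_real him, ← hcdef]
        exact le_of_lt (not_le.1 h4)
  choose e xx U he hU hkey using key
  obtain ⟨e₁, he₁, hle⟩ := exists_pos_le e he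
  obtain ⟨A₁, hA₁⟩ := exists_ge xx
  set e' : ℝ := min e₁ ε₂ with he'def
  have he' : 0 < e' := lt_min he₁ hε₂
  obtain ⟨x₁, hx₁, hSml⟩ := nn F w hw (by exact_mod_cast hw3) hnd K hK p hp D hD e' he'
  have hV := transfer hE hch D hD hden _ hSml
  set J : ℝ := max (max x₁ A₁) 1 with hJ
  refine ⟨e₁, J, he₁, ((hSw.union (SmlS.biUnion Finset.univ U fun i _ => hU i)).union hV).mono ?_⟩
  rintro u ⟨hu, hJu, hu2⟩
  simp only [pt] at hJu hu2
  have hx1 : 1 ≤ ((evz X₀ u : ℚ) : ℝ) := le_trans (le_max_right _ _) hJu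
  have hxx : ∀ i, xx i ≤ ((evz X₀ u : ℚ) : ℝ) := fun i =>
    le_trans (hA₁ i) (le_trans (le_max_right _ _) (le_trans (le_max_left _ _) hJu))
  have hxx₁ : x₁ ≤ ((evz X₀ u : ℚ) : ℝ) :=
    le_trans (le_max_left _ _) (le_trans (le_max_left _ _) hJu)
  by_cases hsw : |((evz Y₀ u : ℚ) : ℝ)| ≤ ε₂ * ((evz X₀ u : ℚ) : ℝ)
  · exact Or.inl (Or.inl ⟨hu, hsw⟩)
  push Not at hsw
  by_cases hUi : ∃ i, u ∈ U i
  · obtain ⟨i, hi⟩ := hUi
    refine Or.inl (Or.inr ?_)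
    simp only [Finset.mem_univ, Set.iUnion_true, Set.mem_iUnion]
    exact ⟨i, hi⟩
  · push Not at hUi
    refine Or.inr ⟨hu, hxx₁, ?_, fun i => ?_⟩
    · simp only [pt]
      refine le_trans (mul_le_mul_of_nonneg_right (min_le_right _ _) (by linarith)) hsw.le
    · simp only [pt]
      have h8 : |((evz Y₀ u : ℚ) : ℝ)| ≤ e i * ((evz X₀ u : ℚ) : ℝ) ^ k :=
        hu2.trans (mul_le_mul_of_nonneg_right (hle i) (by positivity))
      rcases hkey i u hu hx1 (hxx i) hsw.le h8 with h7 | h7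
      · exact absurd h7 (hUi i)
      · refine le_trans (mul_le_mul_of_nonneg_right ?_ (Real.rpow_nonneg (by linarith) _)) h7
        exact le_trans (min_le_left _ _) (hle i)

end Pool.Agent.FPO
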