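import Pool.Agent.FPO.StA
import Pool.Agent.FPO.StB

/-!
# FPO module Rec: the recursion
-/

set_option autoImplicit false

open Polynomial

namespace Pool.Agent.FPO

theorem claimA {S : Set (ℤ × ℤ)} {F₀ ℓ : MvPolynomial (Fin 2) ℚ} (hE : Enum S F₀)
    (hNS : NSq F₀ ℓ) (r : ℕ) : CA S F₀ ℓ r := by
  induction r using Nat.strong_induction_on with
  | _ r ih => exact stepA hE hNS r fun M hM => stepB hE hNS M (ih M hM)

end Pool.Agent.FPO
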