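import Pool.Agent.FPO.Api

/-!
# FPO module Rel: two polynomials are algebraically dependent on a curve (diff 2)

PROOF (dimension count).  Let `d ≥ 1` bound the degrees in `x` and `y` of `F` and `Z`, and let `e`
bound those of `P`.  For `T ≥ 1` let `A = 2 T d + 1 + e`.  All products `F^a Z^b` (`a, b ≤ T`) have
degrees `≤ 2 T d < A` in `x` and in `y`.  For `c : Fin n × Fin n → ℚ` let
`poly n c = ∑_{i,j < n} c_{ij} x^i y^j ∈ Bi`.  Consider the linear map
`Φ : (Fin (T+1) × Fin (T+1) → ℚ) × (Fin (A-e) × Fin (A-e) → ℚ) → (Fin A × Fin A → ℚ)`,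
`(r, q) ↦ ` the coefficients `cf · i j`, `i, j < A`, of `∑ r_{ab} F^a Z^b - P * poly (A-e) q`.
The dimensions are `(T+1)² + (A-e)²` and `A²`, and
`(T+1)² + (A - e)² ≥ (T+1)² + A² - 2 A e > A²` as soon as `(T+1)² > 2e(2Td + 1 + e)`, true for `T`
large (e.g. `T = 4 e d + 2 e + e + 1 + ...`; any `T ≥ 10 (e+1) (d+1)` works).  So there is
`(r, q) ≠ 0` in the kernel (`LinearMap.exists_ne_zero_of...`,
`LinearMap.ker_ne_bot_of_finrank_lt`, `Submodule.exists_mem_ne_zero_of_ne_bot`).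
The polynomial `W = ∑ r_{ab} F^a Z^b - P * poly q` has degrees `< A` in both variables, so all its
coefficients vanish: `W = 0` (`bi_ext`).  If `r = 0`, then `P * poly q = 0`, `poly q = 0`, `q = 0`, a
contradiction.  So `R := ∑_{a,b} r_{ab} x^a y^b = ∑ C (C r_{ab} * X^a) * X^b ≠ 0`
and `bv R F Z = ∑ r_{ab} F^a Z^b = P * poly q`.
(Degree bounds: it may be convenient to prove first: if `cf U i j = 0` unless `i ≤ a ∧ j ≤ b` and
similarly for `V` with `a', b'`, then `cf (U * V) i j = 0` unless `i ≤ a + a' ∧ j ≤ b + b'`; use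
`coeff_mul`, `natDegree_mul_le`, `natDegree_sum_le`.)
-/

set_option autoImplicit false

open Polynomial

namespace Pool.Agent.FPO

namespace Rel

def DL (U : Bi) (n : ℕ) : Prop := ∀ i j, cf U i j ≠ 0 → i ≤ n ∧ j ≤ n

theorem DL.mul {U V : Bi} {a b : ℕ} (hU : DL U a) (hV : DL V b) : DL (U * V) (a + b) := by
  intro i j h
  rw [cf, coeff_mul, finsetSum_coeff] at h
  obtain ⟨⟨j1, j2⟩, hj, h1⟩ := Finset.exists_ne_zero_of_sum_ne_zero h
  rw [coeff_mul] at h1
  obtain ⟨⟨i1, i2⟩, hi, h2⟩ := Finset.exists_ne_zero_of_sum_ne_zero h1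
  rw [Finset.HasAntidiagonal.mem_antidiagonal] at hj hi
  dsimp only at hj hi h2
  have h3 := hU i1 j1 (left_ne_zero_of_mul h2)
  have h4 := hV i2 j2 (right_ne_zero_of_mul h2)
  omega

theorem DL.mono {U : Bi} {a b : ℕ} (hU : DL U a) (h : a ≤ b) : DL U b := fun i j hij =>
  ⟨(hU i j hij).1.trans h, (hU i j hij).2.trans h⟩

theorem cf_C_C_mul (q : ℚ) (U : Bi) (i j : ℕ) : cf (C (C q) * U) i j = q * cf U i j := by
  rw [cf, coeff_C_mul, coeff_C_mul, cf]

theorem DL.cmul {U : Bi} {a : ℕ} (hU : DL U a) (q : ℚ) : DL (C (C q) * U) a := by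
  intro i j h
  rw [cf_C_C_mul] at h
  exact hU i j (right_ne_zero_of_mul h)

theorem DL.one : DL 1 0 := by
  intro i j h
  have h1 : (1 : Bi) = C (C 1) * (X ^ 0) := by simp
  by_cases hj : j = 0
  · subst hj
    by_cases hi : i = 0
    · subst hi; simp
    · exfalso
      apply h
      rw [cf, coeff_one, if_pos rfl, coeff_one, if_neg hi]
  · exfalso
    apply h
    rw [cf, coeff_one, if_neg hj, coeff_zero]

theorem DL.pow {U : Bi} {a : ℕ} (hU : DL U a) (n : ℕ) : DL (U ^ n) (n * a) := by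
  induction n with
  | zero => simpa using DL.one
  | succ n ih =>
    rw [pow_succ, Nat.succ_mul]
    exact ih.mul hU

theorem cf_sum {ι : Type*} (s : Finset ι) (f : ι → Bi) (i j : ℕ) :
    cf (∑ k ∈ s, f k) i j = ∑ k ∈ s, cf (f k) i j := by
  simp only [cf, finsetSum_coeff]

theorem DL.sum {ι : Type*} (s : Finset ι) (f : ι → Bi) {a : ℕ} (h : ∀ k ∈ s, DL (f k) a) :
    DL (∑ k ∈ s, f k) a := by
  intro i j hij
  rw [cf_sum] at hij
  obtain ⟨k, hk, h1⟩ := Finset.exists_ne_zero_of_sum_ne_zero hij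
  exact h k hk i j h1

theorem DL.sub {U V : Bi} {a : ℕ} (hU : DL U a) (hV : DL V a) : DL (U - V) a := by
  intro i j h
  rw [cf_sub] at h
  by_cases h1 : cf U i j = 0
  · have h2 : cf V i j ≠ 0 := by
      intro h3
      rw [h1, h3, sub_zero] at h
      exact h rfl
    exact hV i j h2
  · exact hU i j h1

theorem exists_DL (U : Bi) : ∃ n, DL U n := by
  refine ⟨max (xdeg U) U.natDegree, fun i j h => ?_⟩
  constructor
  · refine le_max_of_le_left ?_
    by_contra h1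
    exact h (cf_eq_zero_of_xdeg (by omega))
  · refine le_max_of_le_right ?_
    by_contra h1
    exact h (cf_eq_zero_of_natDegree (by omega))

/-- The polynomial with given coefficients. -/
noncomputable def poly (n : ℕ) (c : Fin n × Fin n → ℚ) : Bi :=
  ∑ k : Fin n × Fin n, C (C (c k)) * (C (X ^ (k.1 : ℕ)) * X ^ (k.2 : ℕ))

theorem cf_mono (k l i j : ℕ) :
    cf (C (X ^ k) * X ^ l) i j = if k = i ∧ l = j then 1 else 0 := by
  rw [cf, coeff_C_mul, coeff_X_pow]
  by_cases h : j = l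
  · subst h
    simp only [if_true, mul_one, coeff_X_pow, and_true]
    by_cases h1 : i = k
    · rw [if_pos h1, if_pos h1.symm]
    · rw [if_neg h1, if_neg (fun h2 => h1 h2.symm)]
  · rw [if_neg h, mul_zero, coeff_zero, if_neg (fun h2 => h h2.2.symm)]

theorem cf_poly (n : ℕ) (c : Fin n × Fin n → ℚ) (k : Fin n × Fin n) :
    cf (poly n c) k.1 k.2 = c k := by
  rw [poly, cf_sum, Finset.sum_eq_single k]
  · rw [cf_C_C_mul, cf_mono, if_pos ⟨rfl, rfl⟩, mul_one]
  · intro l _ hl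
    rw [cf_C_C_mul, cf_mono, if_neg, mul_zero]
    rintro ⟨h1, h2⟩
    exact hl (Prod.ext (Fin.ext h1) (Fin.ext h2))
  · intro h
    exact absurd (Finset.mem_univ _) h

theorem poly_DL (n : ℕ) (c : Fin (n + 1) × Fin (n + 1) → ℚ) : DL (poly (n + 1) c) n := by
  refine DL.sum _ _ fun k _ => DL.cmul ?_ _
  intro i j h
  rw [cf_mono] at h
  have h1 : ((k.1 : ℕ) = i ∧ (k.2 : ℕ) = j) := by
    by_contra h2
    rw [if_neg h2] at h
    exact h rfl
  have h2 := k.1.2
  have h3 := k.2.2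
  omega

theorem poly_add (n : ℕ) (c c' : Fin n × Fin n → ℚ) : poly n (c + c') = poly n c + poly n c' := by
  rw [poly, poly, poly, ← Finset.sum_add_distrib]
  refine Finset.sum_congr rfl fun k _ => ?_
  rw [Pi.add_apply, C_add, C_add, add_mul]

theorem poly_smul (n : ℕ) (q : ℚ) (c : Fin n × Fin n → ℚ) :
    poly n (q • c) = C (C q) * poly n c := by
  rw [poly, poly, Finset.mul_sum]
  refine Finset.sum_congr rfl fun k _ => ?_
  rw [Pi.smul_apply, smul_eq_mul, C_mul, C_mul, mul_assoc]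

theorem bv_poly_DL (F Z : Bi) (T d : ℕ) (hF : DL F d) (hZ : DL Z d)
    (r : Fin (T + 1) × Fin (T + 1) → ℚ) : DL (bv (poly (T + 1) r) F Z) (2 * T * d) := by
  rw [poly, bv_sum]
  refine DL.sum _ _ fun k _ => ?_
  have h1 : bv (C (C (r k)) * (C (X ^ (k.1 : ℕ)) * X ^ (k.2 : ℕ)) : Bi) F Z
      = C (C (r k)) * (F ^ (k.1 : ℕ) * Z ^ (k.2 : ℕ)) := by
    rw [bv_mul, bv_mul, bv_pow, bv_X, bv_C_C, bv_C, map_pow, aeval_X]
    rfl
  rw [h1]
  refine DL.cmul (((hF.pow _).mul (hZ.pow _)).mono ?_) _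
  have h2 := k.1.2
  have h3 := k.2.2
  have h4 : (k.1 : ℕ) * d ≤ T * d := Nat.mul_le_mul_right _ (by omega)
  have h5 : (k.2 : ℕ) * d ≤ T * d := Nat.mul_le_mul_right _ (by omega)
  calc (k.1 : ℕ) * d + (k.2 : ℕ) * d ≤ T * d + T * d := Nat.add_le_add h4 h5
    _ = 2 * T * d := by ring

/-- The linear map of the dimension count. -/
noncomputable def Phi (P F Z : Bi) (T n A : ℕ) :
    ((Fin (T + 1) × Fin (T + 1) → ℚ) × (Fin n × Fin n → ℚ)) →ₗ[ℚ] (Fin A × Fin A → ℚ) where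
  toFun u := fun k => cf (bv (poly (T + 1) u.1) F Z - P * poly n u.2) k.1 k.2
  map_add' u v := by
    funext k
    rw [Pi.add_apply, Prod.fst_add, Prod.snd_add, poly_add, poly_add, ← cf_add]
    congr 1
    rw [bv_add]
    ring
  map_smul' q u := by
    funext k
    rw [Pi.smul_apply, Prod.smul_fst, Prod.smul_snd, poly_smul, poly_smul, RingHom.id_apply,
      smul_eq_mul, ← cf_C_C_mul]
    congr 1
    rw [bv_mul, bv_C_C]
    change C (C q) * _ - _ = _
    ring

end Rel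

open Pool.Agent.FPO.Rel in
theorem rel (P F Z : Bi) (hP : P ≠ 0) : ∃ R : Bi, R ≠ 0 ∧ P ∣ bv R F Z := by
  obtain ⟨d1, hd1⟩ := exists_DL F
  obtain ⟨d2, hd2⟩ := exists_DL Z
  obtain ⟨e, he⟩ := exists_DL P
  obtain ⟨d, hd⟩ : ∃ d, d = max d1 d2 := ⟨_, rfl⟩
  have hF : DL F d := hd1.mono (by omega)
  have hZ : DL Z d := hd2.mono (by omega)
  obtain ⟨T, hT⟩ : ∃ T, T = 4 * e * d + 2 * e + e * e + 1 := ⟨_, rfl⟩
  have hlt : Module.finrank ℚ (Fin (2 * T * d + 1 + e) × Fin (2 * T * d + 1 + e) → ℚ) <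
      Module.finrank ℚ ((Fin (T + 1) × Fin (T + 1) → ℚ) ×
        (Fin (2 * T * d + 1) × Fin (2 * T * d + 1) → ℚ)) := by
    rw [Module.finrank_prod, Module.finrank_pi, Module.finrank_pi, Module.finrank_pi]
    simp only [Fintype.card_prod, Fintype.card_fin]
    have h1 : T * (4 * e * d + 2 * e + e * e) ≤ T * T := Nat.mul_le_mul_left _ (by omega)
    have h2 : 2 * e + e * e ≤ T * (2 * e + e * e) := by
      nth_rewrite 1 [← one_mul (2 * e + e * e)]
      exact Nat.mul_le_mul_right _ (by omega)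
    nlinarith
  have hker := LinearMap.ker_ne_bot_of_finrank_lt (f := Phi P F Z T (2 * T * d + 1)
    (2 * T * d + 1 + e)) hlt
  obtain ⟨u, hu, hu0⟩ := Submodule.exists_mem_ne_zero_of_ne_bot hker
  have hW : bv (poly (T + 1) u.1) F Z - P * poly (2 * T * d + 1) u.2 = 0 := by
    have hDL : DL (bv (poly (T + 1) u.1) F Z - P * poly (2 * T * d + 1) u.2) (2 * T * d + e) := by
      refine DL.sub ((bv_poly_DL F Z T d hF hZ u.1).mono (by omega)) ?_
      exact (he.mul (poly_DL _ u.2)).mono (by omega)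
    refine bi_ext fun i j => ?_
    rw [cf_zero]
    by_contra hne
    obtain ⟨h1, h2⟩ := hDL i j hne
    have h3 := congrFun (LinearMap.mem_ker.1 hu)
      ((⟨i, by omega⟩, ⟨j, by omega⟩) : Fin (2 * T * d + 1 + e) × Fin (2 * T * d + 1 + e))
    exact hne h3
  refine ⟨poly (T + 1) u.1, ?_, poly (2 * T * d + 1) u.2, sub_eq_zero.1 hW⟩
  intro hR
  rw [hR, bv_zero, zero_sub, neg_eq_zero, mul_eq_zero] at hW
  have h4 : poly (2 * T * d + 1) u.2 = 0 := hW.resolve_left hP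
  apply hu0
  refine Prod.ext ?_ ?_
  · funext k
    rw [← cf_poly (T + 1) u.1 k, hR, cf_zero]
    rfl
  · funext k
    rw [← cf_poly (2 * T * d + 1) u.2 k, h4, cf_zero]
    rfl

end Pool.Agent.FPO
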