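import Pool.Agent.FPO.Pui

/-!
# FPO module RootL: real zeros are close to real parts of Puiseux roots (diff 2)

PROOF.  Let `D = R.natDegree`, `B = R.leadingCoeff`, `b ≠ 0` its leading coefficient.  Take
`K ≥ K₀` (`pui`), `K ≥ xdeg R + 2`, `K ≥ D * (K' + 1) + 1`, and `p` with `PD R K p`.
For `x` large: `|B(x)| ≥ c > 0`.
ROOT BOUND: if `R(x,y) = 0`, `x ≥ x₁`, then `|y| ≤ x^K`: otherwise `|y| > x^K ≥ 1` and
`|B(x)| |y|^D = |∑_{j<D} A_j(x) y^j| ≤ C x^{xdeg R} |y|^{D-1}`, false for `x` large.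
So for `R(x,y) = 0`, `x` large, the approximation gives
`|B(x)| ∏_i ‖y - psum (p i) x‖ ≤ x^{-K}`.  If all factors were `> x^{-K'}` the product would be
`≥ x^{-K' D}`, a contradiction.
-/

set_option autoImplicit false

open Polynomial

namespace Pool.Agent.FPO

namespace RootL

theorem lower (B : ℚ[X]) (hB : B ≠ 0) :
    ∃ c x₀ : ℝ, 0 < c ∧ 1 ≤ x₀ ∧ ∀ x : ℝ, x₀ ≤ x → c ≤ |(aeval x B : ℝ)| := by
  by_cases hd : B.natDegree = 0
  · obtain ⟨b, rfl⟩ := natDegree_eq_zero.1 hd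
    have hb : b ≠ 0 := by
      rintro rfl
      exact hB (by simp)
    refine ⟨|(b : ℝ)|, 1, by positivity, le_rfl, fun x _ => ?_⟩
    rw [aeval_C]
    simp
  · have h1 : 0 < (B.map (algebraMap ℚ ℝ)).degree := by
      rw [degree_map]
      exact natDegree_pos_iff_degree_pos.1 (Nat.pos_of_ne_zero hd)
    have h2 := Polynomial.abs_tendsto_atTop (B.map (algebraMap ℚ ℝ)) h1
    have h3 := (h2.eventually (Filter.eventually_ge_atTop (1 : ℝ)))
    obtain ⟨x₀, hx₀⟩ := Filter.eventually_atTop.1 h3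
    refine ⟨1, max 1 x₀, one_pos, le_max_left _ _, fun x hx => ?_⟩
    have h4 := hx₀ x ((le_max_right _ _).trans hx)
    rwa [eval_map_algebraMap] at h4

theorem upper (R : Bi) :
    ∃ C : ℝ, 0 ≤ C ∧ ∀ x : ℝ, 1 ≤ x → ∀ y : ℝ, 1 ≤ |y| →
      |∑ j ∈ Finset.range R.natDegree, (aeval x (R.coeff j) : ℝ) * y ^ j| ≤
        C * x ^ (xdeg R) * |y| ^ (R.natDegree - 1) := by
  refine ⟨∑ j ∈ Finset.range R.natDegree, ∑ i ∈ Finset.range (xdeg R + 1), |(cf R i j : ℝ)|,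
    Finset.sum_nonneg fun j _ => Finset.sum_nonneg fun i _ => abs_nonneg _,
    fun x hx y hy => ?_⟩
  refine (Finset.abs_sum_le_sum_abs _ _).trans ?_
  rw [Finset.sum_mul, Finset.sum_mul]
  refine Finset.sum_le_sum fun j hj => ?_
  have hj' := Finset.mem_range.1 hj
  rw [abs_mul, abs_pow]
  refine mul_le_mul ?_ (pow_le_pow_right₀ hy (by omega)) (by positivity) (by positivity)
  have h1 : (aeval x (R.coeff j) : ℝ) =
      ∑ i ∈ Finset.range (xdeg R + 1), (cf R i j : ℝ) * x ^ i := by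
    rw [aeval_eq_sum_range' (Nat.lt_succ_of_le (natDegree_coeff_le R j))]
    refine Finset.sum_congr rfl fun i _ => ?_
    rw [Algebra.smul_def]
    rfl
  rw [h1, Finset.sum_mul]
  refine (Finset.abs_sum_le_sum_abs _ _).trans (Finset.sum_le_sum fun i hi => ?_)
  have hi' := Finset.mem_range.1 hi
  rw [abs_mul, abs_pow, abs_of_nonneg (zero_le_one.trans hx)]
  exact mul_le_mul_of_nonneg_left (pow_le_pow_right₀ hx (by omega)) (abs_nonneg _)

end RootL

theorem root_loc (R : Bi) (hR : R ≠ 0) (K' : ℕ) :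
    ∃ (p : Fin R.natDegree → (ℚ →₀ ℂ)) (x₀ : ℝ), (∀ i e, IsAlgebraic ℚ (p i e)) ∧ 1 ≤ x₀ ∧
      ∀ x : ℝ, x₀ ≤ x → ∀ y : ℝ, bv R x y = 0 →
        ∃ i, |y - rsum (rePart (p i)) x| ≤ x ^ (-(K' : ℝ)) := by
  obtain ⟨K₀, hK₀⟩ := pui R hR
  set D := R.natDegree with hD
  set K := K₀ + (xdeg R + 2) + (D * K' + 1) with hK
  obtain ⟨p, hp1, -, x₁, hx₁, hp3⟩ := hK₀ K (by omega)
  obtain ⟨c, x₂, hc, hx₂, hlow⟩ := RootL.lower R.leadingCoeff (leadingCoeff_ne_zero.2 hR)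
  obtain ⟨C, hC, hup⟩ := RootL.upper R
  refine ⟨p, max (max x₁ x₂) (max (C / c + 1) (1 / c + 1)), hp1,
    (hx₁.trans (le_max_left _ _)).trans (le_max_left _ _), fun x hx y hy => ?_⟩
  have hxa : x₁ ≤ x := ((le_max_left _ _).trans (le_max_left _ _)).trans hx
  have hxb : x₂ ≤ x := ((le_max_right _ _).trans (le_max_left _ _)).trans hx
  have hxc : C / c + 1 ≤ x := ((le_max_left _ _).trans (le_max_right _ _)).trans hx
  have hxd : 1 / c + 1 ≤ x := ((le_max_right _ _).trans (le_max_right _ _)).trans hx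
  have hx1 : 1 ≤ x := hx₁.trans hxa
  have hx0 : 0 < x := lt_of_lt_of_le one_pos hx1
  have hB := hlow x hxb
  have hsum : (aeval x R.leadingCoeff : ℝ) * y ^ D =
      -∑ j ∈ Finset.range D, (aeval x (R.coeff j) : ℝ) * y ^ j := by
    have h1 := bv_eq_sum_y R x y
    rw [hy, Finset.sum_range_succ] at h1
    rw [leadingCoeff, ← hD]
    rw [← hD] at h1
    linarith
  have hD0 : D ≠ 0 := by
    intro h0
    rw [h0] at hsum
    simp only [pow_zero, mul_one, Finset.range_zero, Finset.sum_empty, neg_zero] at hsum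
    rw [hsum, abs_zero] at hB
    exact absurd hB (not_le.2 hc)
  have hyK : |y| ≤ x ^ K := by
    by_contra hcon
    push Not at hcon
    have hxK : 1 ≤ x ^ K := one_le_pow₀ hx1
    have hy1 : 1 ≤ |y| := hxK.trans hcon.le
    have h2 := hup x hx1 y hy1
    rw [← abs_neg, ← hsum, abs_mul, abs_pow] at h2
    have h3 : c * |y| ^ D ≤ C * x ^ (xdeg R) * |y| ^ (D - 1) :=
      (mul_le_mul_of_nonneg_right hB (by positivity)).trans h2
    have h4 : |y| ^ D = |y| ^ (D - 1) * |y| := by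
      rw [← pow_succ, Nat.sub_add_cancel (Nat.pos_of_ne_zero hD0)]
    have h5 : 0 < |y| ^ (D - 1) := pow_pos (lt_of_lt_of_le one_pos hy1) _
    have h6 : c * |y| ≤ C * x ^ (xdeg R) := by
      have h7 : |y| ^ (D - 1) * (c * |y|) ≤ |y| ^ (D - 1) * (C * x ^ (xdeg R)) := by
        calc |y| ^ (D - 1) * (c * |y|) = c * |y| ^ D := by rw [h4]; ring
          _ ≤ C * x ^ (xdeg R) * |y| ^ (D - 1) := h3
          _ = |y| ^ (D - 1) * (C * x ^ (xdeg R)) := by ring
      exact le_of_mul_le_mul_left h7 h5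
    have h8 : x ^ (xdeg R + 1) ≤ x ^ K := pow_le_pow_right₀ hx1 (by omega)
    have h9 : C < c * x := by
      have : C / c < x := by linarith
      rw [div_lt_iff₀ hc] at this
      linarith
    have h10 : C * x ^ (xdeg R) < c * |y| := by
      have hpos : 0 < x ^ (xdeg R) := pow_pos hx0 _
      calc C * x ^ (xdeg R) < (c * x) * x ^ (xdeg R) := mul_lt_mul_of_pos_right h9 hpos
        _ = c * x ^ (xdeg R + 1) := by ring
        _ ≤ c * x ^ K := mul_le_mul_of_nonneg_left h8 hc.le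
        _ ≤ c * |y| := mul_le_mul_of_nonneg_left hcon.le hc.le
    exact absurd h6 (not_le.2 h10)
  have happ := hp3 x hxa y hyK
  rw [hy, Complex.ofReal_zero, zero_sub, norm_neg, norm_mul, norm_prod, Complex.norm_real,
    Real.norm_eq_abs] at happ
  have hKeq : x ^ (-(K : ℝ)) = (x ^ K)⁻¹ := by
    rw [Real.rpow_neg hx0.le, Real.rpow_natCast]
  have hK'eq : x ^ (-(K' : ℝ)) = (x ^ K')⁻¹ := by
    rw [Real.rpow_neg hx0.le, Real.rpow_natCast]
  by_contra hcon
  push Not at hcon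
  have hfac : ∀ i : Fin D, (x ^ K')⁻¹ ≤ ‖(y : ℂ) - psum (p i) x‖ := by
    intro i
    have h1 := hcon i
    rw [hK'eq] at h1
    have h2 : y - rsum (rePart (p i)) x = ((y : ℂ) - psum (p i) x).re := by
      rw [Complex.sub_re, Complex.ofReal_re, re_psum]
    rw [h2] at h1
    exact h1.le.trans (Complex.abs_re_le_norm _)
  have hprod : ((x ^ K')⁻¹) ^ D ≤ ∏ i : Fin D, ‖(y : ℂ) - psum (p i) x‖ := by
    calc ((x ^ K')⁻¹) ^ D = ∏ _i : Fin D, (x ^ K')⁻¹ := by simp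
      _ ≤ _ := Finset.prod_le_prod (fun i _ => by positivity) (fun i _ => hfac i)
  have h1 : c * ((x ^ K')⁻¹) ^ D ≤ (x ^ K)⁻¹ := by
    calc c * ((x ^ K')⁻¹) ^ D ≤ |(aeval x R.leadingCoeff : ℝ)| *
          ∏ i : Fin D, ‖(y : ℂ) - psum (p i) x‖ :=
        mul_le_mul hB hprod (by positivity) (abs_nonneg _)
      _ ≤ (x ^ K)⁻¹ := by rw [← hKeq]; exact happ
  have h2 : c * x ^ K ≤ x ^ (K' * D) := by
    have hpos : 0 < x ^ (K' * D) := pow_pos hx0 _
    have hpos2 : 0 < x ^ K := pow_pos hx0 _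
    have h3 : ((x ^ K')⁻¹) ^ D = (x ^ (K' * D))⁻¹ := by rw [inv_pow, ← pow_mul]
    rw [h3] at h1
    have h4 := mul_le_mul_of_nonneg_right h1 (mul_pos hpos hpos2).le
    have e1 : c * (x ^ (K' * D))⁻¹ * (x ^ (K' * D) * x ^ K) = c * x ^ K := by
      field_simp
    have e2 : (x ^ K)⁻¹ * (x ^ (K' * D) * x ^ K) = x ^ (K' * D) := by
      field_simp
    rwa [e1, e2] at h4
  have h3 : x ^ (K' * D) * x ≤ x ^ K := by
    rw [← pow_succ]
    refine pow_le_pow_right₀ hx1 ?_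
    rw [hK, mul_comm K' D]
    omega
  have h4 : c * (x ^ (K' * D) * x) ≤ x ^ (K' * D) :=
    (mul_le_mul_of_nonneg_left h3 hc.le).trans h2
  have hpos : 0 < x ^ (K' * D) := pow_pos hx0 _
  have h5 : c * x ≤ 1 := by
    have h6 : x ^ (K' * D) * (c * x) ≤ x ^ (K' * D) * 1 := by
      calc x ^ (K' * D) * (c * x) = c * (x ^ (K' * D) * x) := by ring
        _ ≤ x ^ (K' * D) := h4
        _ = x ^ (K' * D) * 1 := (mul_one _).symm
    exact le_of_mul_le_mul_left h6 hpos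
  have h6 : 1 < c * x := by
    have : 1 / c < x := by linarith
    rw [div_lt_iff₀ hc] at this
    linarith
  exact absurd h5 (not_le.2 h6)

end Pool.Agent.FPO
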