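import Pool.Agent.FPO.StC

/-!
# FPO module StA: Claim A from Claim B
-/

set_option autoImplicit false

open Polynomial

namespace Pool.Agent.FPO

theorem stepA {S : Set (ℤ × ℤ)} {F₀ ℓ : MvPolynomial (Fin 2) ℚ} (hE : Enum S F₀)
    (hNS : NSq F₀ ℓ) (r : ℕ) (hB : ∀ M, M < r → CB S F₀ ℓ M) : CA S F₀ ℓ r := by
  classical
  intro X₀ Y₀ F hch hL hdeg hX1 hfull w hw3 hw hr
  obtain ⟨ε₀, hε₀, hfull⟩ := hfull
  have hX0 := hch.X_ne_zero
  have hY0 := hch.Y_ne_zero
  have hF := hw.ne_zero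
  have hnd : 2 ≤ F.natDegree := n2_chart hE hch ε₀ hε₀ hfull
  obtain ⟨K₀, hK₀⟩ := pui F hF
  obtain ⟨p, hp⟩ := hK₀ (max K₀ (xdeg F + 2)) (le_max_left _ _)
  set K := max K₀ (xdeg F + 2) with hKdef
  have hK : xdeg F + 2 ≤ K := le_max_right _ _
  have hK2 : 2 ≤ K := by omega
  obtain ⟨D, hD, hden⟩ := hch.den
  -- the statement for each root
  have key : ∀ i : Fin F.natDegree, ∃ (e x₁ : ℝ) (U : Set (ℤ × ℤ)), 0 < e ∧ SmlS F₀ U ∧
      ∀ u ∈ S, 1 ≤ ((evz X₀ u : ℚ) : ℝ) → x₁ ≤ ((evz X₀ u : ℚ) : ℝ) →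
        (|(p i (ldw (p i))).re| + 1) * ((evz X₀ u : ℚ) : ℝ) ≤ ((evz Y₀ u : ℚ) : ℝ) →
        u ∈ U ∨ e * ((evz X₀ u : ℚ) : ℝ) ^ ((ldw (p i) : ℚ) : ℝ) ≤
          ‖((((evz Y₀ u : ℚ) : ℝ)) : ℂ) -
            p i (ldw (p i)) * (((((evz X₀ u : ℚ) : ℝ) ^ ((ldw (p i) : ℚ) : ℝ) : ℝ)) : ℂ)‖ := by
    intro i
    have hempty : SmlS F₀ (∅ : Set (ℤ × ℤ)) := SmlS.of_finite Set.finite_empty
    by_cases him : (p i (ldw (p i))).im = 0
    swap
    · refine ⟨|(p i (ldw (p i))).im|, 1, ∅, abs_pos.2 him, hempty, fun u _ h1 _ _ => Or.inr ?_⟩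
      exact im_le_norm _ _ _ (Real.rpow_nonneg (by linarith) _)
    set c : ℝ := (p i (ldw (p i))).re with hcdef
    rcases eq_or_lt_of_le (one_le_ldw (p i)) with hone | hone
    · -- ldw = 1
      refine ⟨1, 1, ∅, one_pos, hempty, fun u _ h1 _ h2 => Or.inr ?_⟩
      rw [norm_sub_real him, ← hcdef]
      set x : ℝ := ((evz X₀ u : ℚ) : ℝ) with hx
      set y : ℝ := ((evz Y₀ u : ℚ) : ℝ) with hy
      have h3 : x ^ ((ldw (p i) : ℚ) : ℝ) = x := by
        rw [← hone]
        norm_num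
      rw [h3]
      have h4 : c * x ≤ |c| * x := mul_le_mul_of_nonneg_right (le_abs_self c) (by linarith)
      rw [le_abs]
      left
      nlinarith
    · have hc0 : c ≠ 0 := by
        intro h0
        refine ne_zero_of_one_lt_ldw hone ?_
        apply Complex.ext
        · simpa using h0
        · simpa using him
      rcases lt_or_gt_of_ne hc0 with hneg | hpos
      · -- negative coefficient
        refine ⟨|c|, 1, ∅, abs_pos.2 hc0, hempty, fun u _ h1 _ h2 => Or.inr ?_⟩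
        rw [norm_sub_real him, ← hcdef]
        set x : ℝ := ((evz X₀ u : ℚ) : ℝ) with hx
        set y : ℝ := ((evz Y₀ u : ℚ) : ℝ) with hy
        have hxw : 0 ≤ x ^ ((ldw (p i) : ℚ) : ℝ) := Real.rpow_nonneg (by linarith) _
        have hy0 : 0 ≤ y := le_trans (mul_nonneg (by positivity) (by linarith)) h2
        rw [abs_of_neg hneg, le_abs]
        left
        linarith
      · -- positive coefficient
        obtain ⟨wk, hwk⟩ := exists_hasWt (ldw (p i)) hF
        have hroot := root_of_ldw hF hp hK2 i hwk him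
        rw [← hcdef] at hroot
        have hsm : ∃ e x₁ : ℝ, 0 < e ∧
            SmlS F₀ {u | u ∈ S ∧ pt X₀ Y₀ u ∈ Reg (ldw (p i)) c e x₁} := by
          by_cases hirr : Irreg (ldw (p i)) c
          · refine cac hE hNS hch hX0 hY0 (Or.inl ⟨hL, ?_⟩) (one_le_ldw _) hwk hc0 hirr ?_ hroot ?_
            · have h1 : (Y₀.totalDegree : ℚ) ≤ X₀.totalDegree := by exact_mod_cast hdeg
              have h2 : (1 : ℚ) ≤ X₀.totalDegree := by exact_mod_cast hX1
              nlinarith
            · intro h1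
              exact absurd h1 (ne_of_gt hone)
            · obtain ⟨e, x₁, he, hsub⟩ := regA (ldw (p i)) hone c hpos ε₀ hε₀
              exact ⟨e, x₁, he, full_mono hfull hsub⟩
          · obtain ⟨k, r₀, -, hk, hr₀⟩ := not_irreg (one_le_ldw (p i)) hirr
            have hk2 : 2 ≤ k := by
              have : (1 : ℚ) < k := hk ▸ hone
              have : 1 < k := by exact_mod_cast this
              omega
            rw [hk] at hwk
            have hr₀pos : 0 < r₀ := by
              rw [← hr₀] at hpos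
              exact_mod_cast hpos
            have hr₀ne : r₀ ≠ 0 := ne_of_gt hr₀pos
            have hrootk : (ini (k : ℚ) wk F).IsRoot r₀ := by
              rw [hk, ← hr₀] at hroot
              have h1 : aeval ((r₀ : ℚ) : ℝ) (ini (k : ℚ) wk F) =
                  (((ini (k : ℚ) wk F).eval r₀ : ℚ) : ℝ) :=
                (aeval_algebraMap_apply ℝ r₀ _).trans (by simp)
              rw [h1] at hroot
              exact_mod_cast hroot
            have hmul := mulA F w hw k hk2 wk hwk r₀ hr₀ne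
            have hmpos : 0 < (ini (k : ℚ) wk F).rootMultiplicity r₀ :=
              (rootMultiplicity_pos hwk.ini_ne_zero).2 hrootk
            have hMr : (ini (k : ℚ) wk F).rootMultiplicity r₀ < r := by omega
            obtain ⟨h1, h2⟩ := shear_hasWt F r₀ k wk hwk
            have htd : Y₀.totalDegree < k * X₀.totalDegree := by nlinarith
            obtain ⟨h3, h4⟩ := shear_td_lt (ℓ := ℓ) r₀ hr₀ne k htd hL
            obtain ⟨e, x₁, he, hΓ⟩ := shear_regA k hk2 r₀ hr₀pos ε₀ hε₀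
            have hB' := hB _ hMr k (by omega) X₀ (Y₀ - MvPolynomial.C r₀ * X₀ ^ k)
              (shear F r₀ k) (shear_chart hch r₀ k) h4 hX1 (le_of_eq h3.symm)
              ⟨e, x₁, he, shear_full hfull r₀ k (by omega) hΓ⟩
              (by rw [shear_natDegree]; exact hnd) (fun hk1 => by omega) wk h1
              (by rw [h2, ← rootMultiplicity_eq_natTrailingDegree])
            obtain ⟨e', x₂, he', hS⟩ := hB'
            refine ⟨e', x₂, he', hS.mono ?_⟩
            rintro u ⟨hu, hu2⟩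
            refine ⟨hu, (pt_shear_iff r₀ k e' x₂ u).2 ?_⟩
            rw [hr₀]
            rwa [← hk]
        obtain ⟨e, x₁, he, hS⟩ := hsm
        refine ⟨e, x₁, _, he, hS, fun u hu h1 h2 h3 => ?_⟩
        by_cases h4 : |((evz Y₀ u : ℚ) : ℝ) - c * ((evz X₀ u : ℚ) : ℝ) ^ ((ldw (p i) : ℚ) : ℝ)| ≤
            e * ((evz X₀ u : ℚ) : ℝ) ^ ((ldw (p i) : ℚ) : ℝ)
        · exact Or.inl ⟨hu, h2, h4⟩
        · right
          rw [norm_sub_real him, ← hcdef]
          exact le_of_lt (not_le.1 h4)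
  choose e xx U he hU hkey using key
  obtain ⟨e₁, he₁, hle⟩ := exists_pos_le e he
  obtain ⟨A₁, hA₁⟩ := exists_ge xx
  obtain ⟨A₂, hA₂⟩ := exists_ge fun i => |(p i (ldw (p i))).re|
  set e' : ℝ := min e₁ 1 with he'def
  have he' : 0 < e' := lt_min he₁ one_pos
  obtain ⟨x₁, hx₁, hSml⟩ := nn F w hw (by exact_mod_cast hw3) hnd K hK p hp D hD e' he'
  have hV := transfer hE hch D hD hden _ hSml
  -- thresholds
  set J : ℝ := max (max x₁ A₁) 1 with hJ
  set A : ℝ := max A₂ 0 + 1 with hA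
  have hApos : 1 ≤ A := by
    have := le_max_right A₂ 0
    linarith
  refine ⟨1 / A, by positivity, ?_⟩
  -- the finitely many lines
  set N : ℕ := ⌈(D : ℝ) * J⌉₊ with hN
  set G : MvPolynomial (Fin 2) ℚ := ∏ a ∈ Finset.range (N + 1),
    (X₀ - MvPolynomial.C ((a : ℚ) / D)) with hG
  have hX₀C : ∀ q : ℚ, X₀ - MvPolynomial.C q ≠ 0 := by
    intro q hq
    rw [sub_eq_zero] at hq
    rw [hq, MvPolynomial.totalDegree_C] at hX1
    omega
  have hG0 : G ≠ 0 := Finset.prod_ne_zero_iff.2 fun a _ => hX₀C _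
  have hlines : SmlS F₀ {u | u ∈ S ∧ 0 < ((evz X₀ u : ℚ) : ℝ) ∧ ((evz X₀ u : ℚ) : ℝ) < J} := by
    refine SmlS.of_zero hG0 ?_
    rintro u ⟨hu, h1, h2⟩
    obtain ⟨a, b, ha, -⟩ := hden u hu
    have hDq : (D : ℚ) ≠ 0 := by exact_mod_cast hD.ne'
    have hDr : (0 : ℝ) < D := by exact_mod_cast hD
    have ha' : (D : ℝ) * ((evz X₀ u : ℚ) : ℝ) = a := by exact_mod_cast ha
    have ha0 : (0 : ℝ) < a := by
      rw [← ha']
      positivity
    have ha0' : 0 < a := by exact_mod_cast ha0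
    have haN : (a : ℝ) ≤ N := by
      rw [← ha']
      refine le_trans ?_ (Nat.le_ceil _)
      nlinarith
    have haN' : a ≤ N := by exact_mod_cast haN
    rw [hG, evz, map_prod]
    refine Finset.prod_eq_zero (i := a.toNat) ?_ ?_
    · rw [Finset.mem_range]
      omega
    · have h3 : ((a.toNat : ℕ) : ℚ) = (a : ℚ) := by
        have : ((a.toNat : ℤ) : ℚ) = a := by rw [Int.toNat_of_nonneg ha0'.le]
        exact_mod_cast this
      rw [h3, map_sub, MvPolynomial.eval_C, ← ha]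
      change evz X₀ u - _ = 0
      rw [mul_div_cancel_left₀ _ hDq, sub_self]
  refine ((hlines.union (SmlS.biUnion Finset.univ U fun i _ => hU i)).union hV).mono ?_
  rintro u ⟨hu, hu1, hu2⟩
  simp only [pt] at hu1 hu2
  by_cases hJu : ((evz X₀ u : ℚ) : ℝ) < J
  · exact Or.inl (Or.inl ⟨hu, hu1, hJu⟩)
  · push Not at hJu
    have hx1 : 1 ≤ ((evz X₀ u : ℚ) : ℝ) := le_trans (le_max_right _ _) hJu
    have hxx : ∀ i, xx i ≤ ((evz X₀ u : ℚ) : ℝ) := fun i =>
      le_trans (hA₁ i) (le_trans (le_max_right _ _) (le_trans (le_max_left _ _) hJu))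
    have hxx₁ : x₁ ≤ ((evz X₀ u : ℚ) : ℝ) :=
      le_trans (le_max_left _ _) (le_trans (le_max_left _ _) hJu)
    have hAy : A * ((evz X₀ u : ℚ) : ℝ) ≤ ((evz Y₀ u : ℚ) : ℝ) := by
      have h1 : A * ((evz X₀ u : ℚ) : ℝ) ≤ A * (1 / A * ((evz Y₀ u : ℚ) : ℝ)) :=
        mul_le_mul_of_nonneg_left hu2 (by linarith)
      rwa [← mul_assoc, mul_one_div_cancel (by linarith), one_mul] at h1
    have hyi : ∀ i, (|(p i (ldw (p i))).re| + 1) * ((evz X₀ u : ℚ) : ℝ) ≤
        ((evz Y₀ u : ℚ) : ℝ) := by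
      intro i
      refine le_trans (mul_le_mul_of_nonneg_right ?_ (by linarith)) hAy
      have := le_trans (hA₂ i) (le_max_left A₂ 0)
      linarith
    by_cases hUi : ∃ i, u ∈ U i
    · obtain ⟨i, hi⟩ := hUi
      refine Or.inl (Or.inr ?_)
      simp only [Finset.mem_univ, Set.iUnion_true, Set.mem_iUnion]
      exact ⟨i, hi⟩
    · push Not at hUi
      refine Or.inr ⟨hu, hxx₁, ?_, fun i => ?_⟩
      · simp only [pt]
        rw [le_abs]
        left
        have h5 : e' ≤ 1 := min_le_right _ _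
        have h6 : e' * ((evz X₀ u : ℚ) : ℝ) ≤ A * ((evz X₀ u : ℚ) : ℝ) :=
          mul_le_mul_of_nonneg_right (by linarith) (by linarith)
        linarith
      · simp only [pt]
        rcases hkey i u hu hx1 (hxx i) (hyi i) with h7 | h7
        · exact absurd h7 (hUi i)
        · refine le_trans (mul_le_mul_of_nonneg_right ?_ (Real.rpow_nonneg (by linarith) _)) h7
          exact le_trans (min_le_left _ _) (hle i)

end Pool.Agent.FPO
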