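import Pool.Agent.FPO.CaC
import Pool.Agent.FPO.N2C
import Pool.Agent.FPO.FuR
import Pool.Agent.FPO.NN
import Pool.Agent.FPO.Pui
import Pool.Agent.FPO.SmU
import Pool.Agent.FPO.ChS
import Pool.Agent.FPO.ChW
import Pool.Agent.FPO.Mul

/-!
# FPO module StC: common lemmas for the steps of the recursion
-/

set_option autoImplicit false

open Polynomial

namespace Pool.Agent.FPO

theorem ldw_lt {F : Bi} {K : ℕ} {p : Fin F.natDegree → (ℚ →₀ ℂ)} (hp : PD F K p) (hK : 2 ≤ K)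
    (i : Fin F.natDegree) : ldw (p i) < K := by
  by_cases h : p i (ldw (p i)) = 0
  · rw [ldw_eq_one_of_eq_zero h]
    exact_mod_cast (show 1 < K by omega)
  · exact hp.2.1 i _ h

theorem root_of_ldw {F : Bi} (hF : F ≠ 0) {K : ℕ} {p : Fin F.natDegree → (ℚ →₀ ℂ)}
    (hp : PD F K p) (hK : 2 ≤ K) (i : Fin F.natDegree) {w : ℚ} (hw : HasWt (ldw (p i)) w F)
    (him : (p i (ldw (p i))).im = 0) : aeval (p i (ldw (p i))).re (ini (ldw (p i)) w F) = 0 := by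
  obtain ⟨h1, h2⟩ := lead F hF K p hp (ldw (p i)) (one_le_ldw _) (ldw_lt hp hK i)
  rw [← hw.unique h1] at h2
  have hc : p i (ldw (p i)) = (((p i (ldw (p i))).re : ℝ) : ℂ) := by
    apply Complex.ext
    · simp
    · simpa using him
  have h3 : ((ini (ldw (p i)) w F).map (algebraMap ℚ ℂ)).eval (p i (ldw (p i))) = 0 := by
    rw [h2, eval_mul, eval_prod]
    refine mul_eq_zero_of_right _ (Finset.prod_eq_zero (Finset.mem_univ i) ?_)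
    rw [if_neg (lt_irrefl _), if_pos rfl]
    simp
  rw [eval_map_algebraMap, hc] at h3
  have h4 : aeval (((p i (ldw (p i))).re : ℝ) : ℂ) (ini (ldw (p i)) w F) =
      ((aeval (p i (ldw (p i))).re (ini (ldw (p i)) w F) : ℝ) : ℂ) := by
    exact (aeval_algebraMap_apply_eq_algebraMap_eval' _ _)
  rw [h4] at h3
  exact_mod_cast h3
where
  aeval_algebraMap_apply_eq_algebraMap_eval' (x : ℝ) (q : ℚ[X]) :
      aeval ((x : ℝ) : ℂ) q = ((aeval x q : ℝ) : ℂ) :=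
    aeval_algebraMap_apply ℂ x q

theorem exists_pos_le {n : ℕ} (e : Fin n → ℝ) (he : ∀ i, 0 < e i) : ∃ ε : ℝ, 0 < ε ∧ ∀ i, ε ≤ e i := by
  rcases Nat.eq_zero_or_pos n with rfl | hn
  · exact ⟨1, one_pos, fun i => i.elim0⟩
  · haveI : Nonempty (Fin n) := ⟨⟨0, hn⟩⟩
    obtain ⟨i₀, hi₀⟩ := Finite.exists_min e
    exact ⟨e i₀, he i₀, hi₀⟩

theorem exists_ge {n : ℕ} (e : Fin n → ℝ) : ∃ A : ℝ, ∀ i, e i ≤ A := by
  rcases Nat.eq_zero_or_pos n with rfl | hn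
  · exact ⟨1, fun i => i.elim0⟩
  · haveI : Nonempty (Fin n) := ⟨⟨0, hn⟩⟩
    obtain ⟨i₀, hi₀⟩ := Finite.exists_max e
    exact ⟨e i₀, hi₀⟩

theorem exists_nat_hasWt {F : Bi} (hF : F ≠ 0) : ∃ w : ℕ, HasWt 1 (w : ℚ) F := by
  obtain ⟨w, hw⟩ := exists_hasWt 1 hF
  obtain ⟨i, j, -, h⟩ := hw.2
  refine ⟨i + j, ?_⟩
  have : ((i + j : ℕ) : ℚ) = w := by
    rw [← h]
    push_cast
    ring
  rw [this]
  exact hw

theorem Chart.Y_ne_zero {S : Set (ℤ × ℤ)} {F₀ X₀ Y₀ : MvPolynomial (Fin 2) ℚ} {F : Bi}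
    (h : Chart S F₀ X₀ Y₀ F) : Y₀ ≠ 0 := by
  have h1 := h.inj X X_ne_zero
  rwa [bv_X] at h1

theorem Chart.X_ne_zero {S : Set (ℤ × ℤ)} {F₀ X₀ Y₀ : MvPolynomial (Fin 2) ℚ} {F : Bi}
    (h : Chart S F₀ X₀ Y₀ F) : X₀ ≠ 0 := by
  have h1 := h.inj (C X) (by simp)
  rwa [bv_C_X] at h1

/-- A region of type 2 in the sheared chart is a region `Reg` in the chart. -/
theorem pt_shear_iff {X₀ Y₀ : MvPolynomial (Fin 2) ℚ} (r : ℚ) (k : ℕ) (ε x₁ : ℝ) (u : ℤ × ℤ) :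
    pt X₀ (Y₀ - MvPolynomial.C r * X₀ ^ k) u ∈ Γ₂ k ε x₁ ↔
      pt X₀ Y₀ u ∈ Reg (k : ℚ) (r : ℝ) ε x₁ := by
  have h1 : evz (Y₀ - MvPolynomial.C r * X₀ ^ k) u = evz Y₀ u - r * evz X₀ u ^ k := by
    simp [evz]
  simp only [pt, Γ₂, Reg, Set.mem_setOf_eq, h1]
  have h2 : ((evz X₀ u : ℚ) : ℝ) ^ (((k : ℚ)) : ℝ) = ((evz X₀ u : ℚ) : ℝ) ^ k := by
    rw [show (((k : ℚ)) : ℝ) = (k : ℝ) by norm_cast, Real.rpow_natCast]
  rw [h2]
  push_cast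
  rfl

/-- If the pair is not irregular, it is an integer and a rational number. -/
theorem not_irreg {τ : ℚ} (hτ : 1 ≤ τ) {c : ℝ} (h : ¬ Irreg τ c) :
    ∃ (k : ℕ) (r : ℚ), 1 ≤ k ∧ τ = k ∧ (r : ℝ) = c := by
  unfold Irreg Irrational at h
  push Not at h
  obtain ⟨⟨k, hk⟩, r, hr⟩ := h
  have hk1 : (1 : ℤ) ≤ k := by
    have : (1 : ℚ) ≤ (k : ℚ) := hk ▸ hτ
    exact_mod_cast this
  refine ⟨k.toNat, r, by omega, ?_, hr⟩
  rw [hk]
  have : ((k.toNat : ℤ) : ℚ) = k := by rw [Int.toNat_of_nonneg (by omega)]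
  exact_mod_cast this.symm

theorem norm_sub_real {z : ℂ} (hz : z.im = 0) (y t : ℝ) :
    ‖(y : ℂ) - z * ((t : ℝ) : ℂ)‖ = |y - z.re * t| := by
  have hc : z = ((z.re : ℝ) : ℂ) := by
    apply Complex.ext
    · simp
    · simpa using hz
  rw [hc, ← Complex.ofReal_mul, ← Complex.ofReal_sub, Complex.norm_real, Real.norm_eq_abs]
  simp

theorem im_le_norm (z : ℂ) (y t : ℝ) (ht : 0 ≤ t) :
    |z.im| * t ≤ ‖(y : ℂ) - z * ((t : ℝ) : ℂ)‖ := by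
  have h := Complex.abs_im_le_norm ((y : ℂ) - z * ((t : ℝ) : ℂ))
  have h1 : ((y : ℂ) - z * ((t : ℝ) : ℂ)).im = -(z.im * t) := by
    simp
  rw [h1, abs_neg, abs_mul, abs_of_nonneg ht] at h
  exact h

end Pool.Agent.FPO
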