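import Pool.Agent.FPO.Pig

/-!
# FPO module Step: one differencing step (diff 1)

PROOF.  Let `A = {a ∈ [X, 2X) : ∃ z, |g a - z| ≤ η}`, `nc g X η = |A|`.  If
`|A| < 4X/H` we are done (`sqrt ≥ 0`).  Otherwise `pig` gives `h`, `1 ≤ h < H` with
`|A|²/(8X) ≤ |{a ∈ A : a + h ∈ A}|`.  For such `a`, `|(g (a+h) - g a) - (z' - z)| ≤ 2η`, so this
set is contained in the set counted by `nc (fun x => g (x+h) - g x) X (2η)` (note
`((a + h : ℕ) : ℝ) = (a : ℝ) + h`).  Hence `|A|² ≤ 8 X N₁` and `|A| ≤ √(8 X N₁)`.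
-/

set_option autoImplicit false

open Polynomial

namespace Pool.Agent.FPO

namespace Step

open Classical in
theorem nc_eq (g : ℝ → ℝ) (X : ℕ) (η : ℝ) : nc g X η =
    ((Finset.Ico X (2 * X)).filter fun a : ℕ => ∃ z : ℤ, |g (a : ℝ) - z| ≤ η).card := by
  unfold nc
  have h : (do let a ← Finset.Ico X (2 * X); pure (a : ℝ) : Finset ℝ) =
      (Finset.Ico X (2 * X)).image (fun a : ℕ => (a : ℝ)) := by
    change (Finset.Ico X (2 * X)).sup (fun a : ℕ => ({(a : ℝ)} : Finset ℝ)) = _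
    rw [Finset.sup_eq_biUnion]
    exact Finset.biUnion_singleton
  rw [h, Finset.filter_image, Finset.card_image_of_injective _ Nat.cast_injective]

end Step

theorem step (g : ℝ → ℝ) (X H : ℕ) (hH : 1 ≤ H) (hHX : H ≤ X) (η N₁ : ℝ)
    (hN : ∀ h : ℕ, 1 ≤ h → h < H → (nc (fun x => g (x + h) - g x) X (2 * η) : ℝ) ≤ N₁) :
    (nc g X η : ℝ) ≤ 4 * X / H + √(8 * X * N₁) := by
  classical
  have hH0 : (0 : ℝ) < H := by exact_mod_cast hH
  have hX0 : (0 : ℝ) < X := by exact_mod_cast (lt_of_lt_of_le hH hHX)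
  set A : Finset ℕ := (Finset.Ico X (2 * X)).filter fun a => ∃ z : ℤ, |g a - z| ≤ η with hA
  have hnc : (nc g X η : ℝ) = A.card := by
    rw [Step.nc_eq, hA]
  rw [hnc]
  by_cases hbig : (4 : ℝ) * X / H ≤ A.card
  · obtain ⟨h, h1, h2, h3⟩ := pig X H hH hHX A (fun a ha => by
      rw [hA, Finset.mem_filter, Finset.mem_Ico] at ha
      exact ha.1) hbig
    have h4 : ((A.filter fun a => a + h ∈ A).card : ℝ) ≤ N₁ := by
      refine le_trans ?_ (hN h h1 h2)
      rw [Step.nc_eq]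
      refine Nat.cast_le.2 (Finset.card_le_card ?_)
      intro a ha
      rw [Finset.mem_filter] at ha
      obtain ⟨ha1, ha2⟩ := ha
      rw [hA, Finset.mem_filter] at ha1 ha2
      obtain ⟨hb1, z, hz⟩ := ha1
      obtain ⟨_, z', hz'⟩ := ha2
      rw [Finset.mem_filter]
      refine ⟨hb1, z' - z, ?_⟩
      have e : g ((a : ℝ) + (h : ℝ)) - g (a : ℝ) - ((z' - z : ℤ) : ℝ) =
          (g ((a + h : ℕ) : ℝ) - z') - (g a - z) := by
        push_cast
        ring
      rw [e]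
      have := abs_sub (g ((a + h : ℕ) : ℝ) - z') (g a - z)
      linarith
    have h5 : (A.card : ℝ) ^ 2 ≤ 8 * X * N₁ := by
      have h6 := h3.trans h4
      rw [div_le_iff₀ (by positivity)] at h6
      linarith
    have h7 : (A.card : ℝ) ≤ √(8 * X * N₁) := Real.le_sqrt_of_sq_le h5
    have h8 : (0 : ℝ) ≤ 4 * X / H := by positivity
    linarith
  · push Not at hbig
    have h8 : (0 : ℝ) ≤ √(8 * X * N₁) := Real.sqrt_nonneg _
    linarith

end Pool.Agent.FPO
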