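import Pool.Agent.FPO.Step

/-!
# FPO module StepK: iterated differencing (diff 2)

PROOF.  Prove by downward induction on `j = k, k-1, …, 0` the statement
`S(j)`: there are `C_j`, `δ_j > 0`, `X_j` such that for all `X ≥ X_j` and all lists `t` of length
`j` with all entries `h` satisfying `1 ≤ h`, `(h:ℝ) ≤ X^ε`:
`nc (dl t g) X (2^j * X^(-κ)) ≤ C_j * X^(1-δ_j)`.
`S(k)` is the hypothesis.  `S(j+1) → S(j)`: for `X` large put `H = ⌊X^ε⌋₊` (so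
`1 ≤ X^ε/2 ≤ H ≤ X^ε ≤ X`, `X ≥ 2^{1/ε}`).  For `1 ≤ h < H`,
`dl (h :: t) g = fun x => dl t g (x+h) - dl t g x` by definition, so by `S(j+1)` the hypothesis of
`step` (for `dl t g`, `η = 2^j X^(-κ)`, `2η = 2^{j+1} X^(-κ)`) holds with
`N₁ = C_{j+1} X^(1-δ_{j+1})` (may assume `C_{j+1} ≥ 0`).  `step` gives
`nc (dl t g) X (2^j X^(-κ)) ≤ 8 X^{1-ε} + √(8 C_{j+1}) X^{1-δ_{j+1}/2} ≤ C_j X^{1-δ_j}` with
`δ_j = min ε (δ_{j+1}/2)` and `C_j = 8 + √(8 C_{j+1})`.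
`S(0)` with `t = []` is the claim for `X ≥ X₀'`; for `1 ≤ X < X₀'` use `nc g X η ≤ X ≤ X₀'` and
`X^(1-δ') ≥ 1` if `δ' ≤ 1` (take `δ' = min δ_0 1`), enlarging the constant.
-/

set_option autoImplicit false

open Polynomial

namespace Pool.Agent.FPO

namespace StepK

theorem nc_le (g : ℝ → ℝ) (X : ℕ) (η : ℝ) : (nc g X η : ℝ) ≤ X := by
  classical
  have h : nc g X η ≤ ((Finset.Ico X (2 * X)).image fun a : ℕ => (a : ℝ)).card := by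
    unfold nc
    apply Finset.card_le_card
    intro a ha
    have h1 := (Finset.mem_filter.1 ha).1
    simpa [Finset.mem_sup] using h1
  have h0 := h.trans Finset.card_image_le
  rw [Nat.card_Ico] at h0
  have h2 : nc g X η ≤ X := by omega
  exact_mod_cast h2

theorem rpow_mono {X : ℝ} (hX : 1 ≤ X) {a b : ℝ} (h : a ≤ b) : X ^ a ≤ X ^ b :=
  Real.rpow_le_rpow_of_exponent_le hX h

/-- the induction step for fixed `X` and `t` -/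
theorem one (g : ℝ → ℝ) (j : ℕ) (ε δ κ C : ℝ) (hε : 0 < ε) (hε1 : ε ≤ 1) (hC : 0 ≤ C)
    (X : ℕ) (hX1 : 1 ≤ X) (hX : 2 ≤ (X : ℝ) ^ ε) (t : List ℕ)
    (h : ∀ h : ℕ, 1 ≤ h → (h : ℝ) ≤ (X : ℝ) ^ ε →
      (nc (dl (h :: t) g) X (2 ^ (j + 1) * (X : ℝ) ^ (-κ)) : ℝ) ≤ C * (X : ℝ) ^ (1 - δ)) :
    (nc (dl t g) X (2 ^ j * (X : ℝ) ^ (-κ)) : ℝ) ≤
      (8 + √(8 * C)) * (X : ℝ) ^ (1 - min ε (δ / 2)) := by
  have hXr : (1 : ℝ) ≤ X := by exact_mod_cast hX1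
  have hX0 : (0 : ℝ) < X := by linarith
  set H := ⌊(X : ℝ) ^ ε⌋₊ with hH
  have hH1 : (H : ℝ) ≤ (X : ℝ) ^ ε := Nat.floor_le (by positivity)
  have hH2 : (X : ℝ) ^ ε < H + 1 := Nat.lt_floor_add_one _
  have hHX : H ≤ X := by
    have : (X : ℝ) ^ ε ≤ X := by
      calc (X : ℝ) ^ ε ≤ (X : ℝ) ^ (1 : ℝ) := rpow_mono hXr hε1
        _ = X := Real.rpow_one _
    exact_mod_cast hH1.trans this
  have hHpos : (X : ℝ) ^ ε / 2 ≤ H := by linarith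
  have hH0 : (1 : ℝ) ≤ H := by linarith
  have hH1' : 1 ≤ H := by exact_mod_cast hH0
  have hst := step (dl t g) X H hH1' hHX (2 ^ j * (X : ℝ) ^ (-κ)) (C * (X : ℝ) ^ (1 - δ)) (by
    intro h' h1 h2
    have h3 : (h' : ℝ) ≤ (X : ℝ) ^ ε := by
      refine le_trans ?_ hH1
      exact_mod_cast h2.le
    have h4 := h h' h1 h3
    have h5 : (2 : ℝ) * (2 ^ j * (X : ℝ) ^ (-κ)) = 2 ^ (j + 1) * (X : ℝ) ^ (-κ) := by
      rw [pow_succ]; ring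
    rw [h5]
    exact h4)
  have e1 : 4 * (X : ℝ) / H ≤ 8 * (X : ℝ) ^ (1 - ε) := by
    rw [div_le_iff₀ (by linarith)]
    have : (X : ℝ) ^ (1 - ε) * (X : ℝ) ^ ε = X := by
      rw [← Real.rpow_add hX0]
      simp
    have h6 : 0 ≤ (X : ℝ) ^ (1 - ε) := by positivity
    nlinarith
  have e2 : √(8 * X * (C * (X : ℝ) ^ (1 - δ))) = √(8 * C) * (X : ℝ) ^ (1 - δ / 2) := by
    have h7 : 8 * (X : ℝ) * (C * (X : ℝ) ^ (1 - δ)) = (8 * C) * ((X : ℝ) ^ (1 - δ / 2)) ^ 2 := by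
      have : ((X : ℝ) ^ (1 - δ / 2)) ^ 2 = X * (X : ℝ) ^ (1 - δ) := by
        rw [← Real.rpow_natCast, ← Real.rpow_mul hX0.le]
        have : (1 - δ / 2) * ((2 : ℕ) : ℝ) = 1 + (1 - δ) := by push_cast; ring
        rw [this, Real.rpow_add hX0, Real.rpow_one]
      rw [this]; ring
    rw [h7, Real.sqrt_mul (by positivity), Real.sqrt_sq (by positivity)]
  rw [e2] at hst
  have e3 : (X : ℝ) ^ (1 - ε) ≤ (X : ℝ) ^ (1 - min ε (δ / 2)) :=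
    rpow_mono hXr (by linarith [min_le_left ε (δ / 2)])
  have e4 : (X : ℝ) ^ (1 - δ / 2) ≤ (X : ℝ) ^ (1 - min ε (δ / 2)) :=
    rpow_mono hXr (by linarith [min_le_right ε (δ / 2)])
  have e5 : √(8 * C) * (X : ℝ) ^ (1 - δ / 2) ≤ √(8 * C) * (X : ℝ) ^ (1 - min ε (δ / 2)) :=
    mul_le_mul_of_nonneg_left e4 (Real.sqrt_nonneg _)
  calc _ ≤ _ := hst
    _ ≤ _ := by linarith

end StepK

open StepK in
theorem stepk (g : ℝ → ℝ) (k : ℕ) (ε δ κ C : ℝ) (hε : 0 < ε) (hε1 : ε ≤ 1) (hδ : 0 < δ) (X₀ : ℕ)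
    (hbase : ∀ X : ℕ, X₀ ≤ X → ∀ t : List ℕ, t.length = k →
      (∀ h ∈ t, 1 ≤ h ∧ (h : ℝ) ≤ (X : ℝ) ^ ε) →
      (nc (dl t g) X (2 ^ k * (X : ℝ) ^ (-κ)) : ℝ) ≤ C * (X : ℝ) ^ (1 - δ)) :
    ∃ C' δ' : ℝ, 0 < δ' ∧ ∀ X : ℕ, 1 ≤ X →
      (nc g X ((X : ℝ) ^ (-κ)) : ℝ) ≤ C' * (X : ℝ) ^ (1 - δ') := by
  have key : ∀ m j : ℕ, j + m = k → ∃ C' δ' : ℝ, 0 ≤ C' ∧ 0 < δ' ∧ ∃ X₁ : ℕ, ∀ X : ℕ, X₁ ≤ X →
      ∀ t : List ℕ, t.length = j → (∀ h ∈ t, 1 ≤ h ∧ (h : ℝ) ≤ (X : ℝ) ^ ε) →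
      (nc (dl t g) X (2 ^ j * (X : ℝ) ^ (-κ)) : ℝ) ≤ C' * (X : ℝ) ^ (1 - δ') := by
    intro m
    induction m with
    | zero =>
      intro j hj
      obtain rfl : j = k := by omega
      refine ⟨max C 0, δ, le_max_right _ _, hδ, X₀, fun X hX t ht hh => ?_⟩
      refine (hbase X hX t ht hh).trans ?_
      exact mul_le_mul_of_nonneg_right (le_max_left _ _) (by positivity)
    | succ m ih =>
      intro j hj
      obtain ⟨C1, δ1, hC1, hδ1, X1, h1⟩ := ih (j + 1) (by omega)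
      obtain ⟨X2, hX2⟩ : ∃ X2 : ℕ, ∀ X : ℕ, X2 ≤ X → 2 ≤ (X : ℝ) ^ ε := by
        have ht := (tendsto_rpow_atTop hε).comp tendsto_natCast_atTop_atTop
        obtain ⟨X2, h⟩ := Filter.eventually_atTop.1 (ht.eventually_ge_atTop 2)
        exact ⟨X2, fun X hX => h X hX⟩
      refine ⟨8 + √(8 * C1), min ε (δ1 / 2), by positivity, lt_min hε (by linarith),
        max (max X1 X2) 1, fun X hX t ht hh => ?_⟩
      refine one g j ε δ1 κ C1 hε hε1 hC1 X (by omega) (hX2 X (by omega)) t fun h h2 h3 => ?_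
      refine h1 X (by omega) (h :: t) (by simp [ht]) ?_
      intro h' hh'
      rcases List.mem_cons.1 hh' with rfl | h4
      · exact ⟨h2, h3⟩
      · exact hh h' h4
  obtain ⟨C0, δ0, hC0, hδ0, X1, h0⟩ := key k 0 (by omega)
  refine ⟨C0 + X1, min δ0 1, lt_min hδ0 one_pos, fun X hX => ?_⟩
  have hXr : (1 : ℝ) ≤ X := by exact_mod_cast hX
  have e1 : (X : ℝ) ^ (1 - δ0) ≤ (X : ℝ) ^ (1 - min δ0 1) :=
    rpow_mono hXr (by linarith [min_le_left δ0 1])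
  have e2 : (1 : ℝ) ≤ (X : ℝ) ^ (1 - min δ0 1) :=
    Real.one_le_rpow hXr (by linarith [min_le_right δ0 1])
  by_cases h : X1 ≤ X
  · have h2 := h0 X h [] rfl (by simp)
    have h3 : dl [] g = g := rfl
    rw [h3, pow_zero, one_mul] at h2
    refine h2.trans ?_
    have h4 : C0 * (X : ℝ) ^ (1 - δ0) ≤ C0 * (X : ℝ) ^ (1 - min δ0 1) :=
      mul_le_mul_of_nonneg_left e1 hC0
    have h5 : 0 ≤ (X1 : ℝ) * (X : ℝ) ^ (1 - min δ0 1) := by positivity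
    linarith
  · have h2 := nc_le g X ((X : ℝ) ^ (-κ))
    have h3 : (X : ℝ) ≤ X1 := by exact_mod_cast (not_le.1 h).le
    have h4 : (X1 : ℝ) * 1 ≤ (X1 : ℝ) * (X : ℝ) ^ (1 - min δ0 1) :=
      mul_le_mul_of_nonneg_left e2 (by positivity)
    have h5 : 0 ≤ C0 * (X : ℝ) ^ (1 - min δ0 1) := by positivity
    linarith

end Pool.Agent.FPO
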